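import Mathlib

/-!
Statements of project QJ (MP_28f8a1_an): every polynomial whose Julia set has zero area is a limit of
hyperbolic polynomials. Part II: perturbation of indifferent cycles. The written proofs are in the
table h713q_tasks.
-/

set_option autoImplicit false

open Topology Filter Metric Set Polynomial MeasureTheory

namespace Pool.Agent.H713R5.QJ

/-- evaluation map of a polynomial -/
noncomputable def ev (T : ℂ[X]) : ℂ → ℂ := fun w => T.eval w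

/-- `u` is attracted by the point `z`, a sink of period dividing `P` -/
def Sk (f : ℂ → ℂ) (P : ℕ) (u z : ℂ) : Prop :=
  f^[P] z = z ∧ ‖deriv (f^[P]) z‖ < 1 ∧ Tendsto (fun k : ℕ => f^[P * k] u) atTop (𝓝 z)

/-- `u` is attracted by a sink of period dividing `P` -/
def AT (f : ℂ → ℂ) (P : ℕ) (u : ℂ) : Prop := ∃ z : ℂ, Sk f P u z

/-- `u` escapes or is attracted by a sink -/
def Good (f : ℂ → ℂ) (u : ℂ) : Prop :=
  Tendsto (fun k : ℕ => ‖f^[k] u‖) atTop atTop ∨ ∃ P : ℕ, 0 < P ∧ AT f P u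

/-- `u` is in the basin of a parabolic cycle -/
def Para (f : ℂ → ℂ) (u : ℂ) : Prop :=
  ∃ (p : ℕ) (x : ℂ), 0 < p ∧ f^[p] x = x ∧ deriv (f^[p]) x = 1 ∧
    Tendsto (fun k : ℕ => f^[p * k] u) atTop (𝓝 x) ∧ ∀ k : ℕ, f^[p * k] u ≠ x

/-- `u` is mapped into a disc on which an iterate is conjugate to an irrational rotation -/
def Sieg (f : ℂ → ℂ) (u : ℂ) : Prop :=
  ∃ (n p : ℕ) (r : ℝ) (h : ℂ → ℂ) (ρ : ℂ), 0 < p ∧ 0 < r ∧ ‖ρ‖ = 1 ∧ (∀ m : ℕ, 0 < m → ρ ^ m ≠ 1) ∧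
    DifferentiableOn ℂ h (ball 0 r) ∧ InjOn h (ball 0 r) ∧
    (∀ w ∈ ball (0 : ℂ) r, f^[p] (h w) = h (ρ * w)) ∧ f^[n] u ∈ h '' ball 0 r

/-! ### Perturbation of indifferent cycles -/

/-- Area formula for a polynomial, with multiplicity. -/
def StAF : Prop :=
  ∀ (T : ℂ[X]) (g : ℂ → ENNReal) (E : Set ℂ), 0 < T.natDegree → Measurable g → MeasurableSet E →
    ∫⁻ w in E, ∑ ζ ∈ (T - C w).roots.toFinset, g ζ =
      ∫⁻ z in (ev T) ⁻¹' E, g z * ENNReal.ofReal (‖(derivative T).eval z‖ ^ 2)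

/-- the quadratic differential with double poles at the points of `Z` -/
noncomputable def qd (Z : Finset ℂ) (a b : ℂ → ℂ) (ζ : ℂ) : ℂ :=
  ∑ z ∈ Z, (a z / (ζ - z) ^ 2 + b z / (ζ - z))

/-- `Z` is a finite union of cycles of `T` -/
def Cyc (T : ℂ[X]) (Z : Finset ℂ) : Prop :=
  (∀ z ∈ Z, T.eval z ∈ Z) ∧ (∀ z ∈ Z, ∀ z' ∈ Z, T.eval z = T.eval z' → z = z') ∧
    ∀ z ∈ Z, (derivative T).eval z ≠ 0

/-- Duality: if the functional with coefficients `a`, `b` vanishes on the polynomials of degree at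
most `deg T - 2` then the push-forward of the quadratic differential is the differential itself. -/
def StPF : Prop :=
  ∀ (T : ℂ[X]) (Z : Finset ℂ) (a b : ℂ → ℂ), 2 ≤ T.natDegree → Cyc T Z →
    (∀ z ∈ Z, a (T.eval z) = a z) →
    (∀ z ∈ Z, b (T.eval z) = b z / (derivative T).eval z -
      a z * (derivative (derivative T)).eval z / (derivative T).eval z ^ 2) →
    (∀ h : ℂ[X], h.natDegree ≤ T.natDegree - 2 →
      ∑ z ∈ Z, (a z * ((derivative h).eval z / (derivative T).eval z -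
        h.eval z * (derivative (derivative T)).eval z / (derivative T).eval z ^ 2) +
        b z * (h.eval z / (derivative T).eval z)) = 0) →
    ∀ w : ℂ, w ∉ Z → (∀ ζ : ℂ, T.eval ζ = w → (derivative T).eval ζ ≠ 0) →
      ∑ ζ ∈ (T - C w).roots.toFinset, qd Z a b ζ / (derivative T).eval ζ ^ 2 = qd Z a b w

/-- A quadratic differential with double poles at indifferent cycles which is invariant under
push-forward vanishes. -/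
def StINJ : Prop :=
  StAF → ∀ (T : ℂ[X]) (Z : Finset ℂ) (a b : ℂ → ℂ) (wt : ℂ → ℝ), 2 ≤ T.natDegree → Cyc T Z →
    (∀ z ∈ Z, 0 < wt z ∧ wt (T.eval z) = ‖(derivative T).eval z‖ * wt z) →
    (∀ w : ℂ, w ∉ Z → (∀ ζ : ℂ, T.eval ζ = w → (derivative T).eval ζ ≠ 0) →
      ∑ ζ ∈ (T - C w).roots.toFinset, qd Z a b ζ / (derivative T).eval ζ ^ 2 = qd Z a b w) →
    ∀ z ∈ Z, a z = 0 ∧ b z = 0

/-- The linearized equations for the cycles and their multipliers can be solved. -/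
def StSURL : Prop :=
  StAF → StPF → StINJ → ∀ (T : ℂ[X]) (Z : Finset ℂ), 2 ≤ T.natDegree → Cyc T Z →
    (∀ z ∈ Z, ∀ p : ℕ, 0 < p → (ev T)^[p] z = z → ‖deriv ((ev T)^[p]) z‖ = 1) →
    ∀ e κ : ℂ → ℂ, (∀ z ∈ Z, κ (T.eval z) = κ z) →
    ∃ (h : ℂ[X]) (u : ℂ → ℂ), h.natDegree ≤ T.natDegree - 2 ∧
      (∀ z ∈ Z, u (T.eval z) - (derivative T).eval z * u z - h.eval z = e z) ∧
      ∀ z ∈ Z, ∑ i ∈ Finset.range (Function.minimalPeriod (ev T) z),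
        ((derivative h).eval ((ev T)^[i] z) +
          (derivative (derivative T)).eval ((ev T)^[i] z) * u ((ev T)^[i] z)) /
          (derivative T).eval ((ev T)^[i] z) = κ z

/-- A curve of polynomials along which all the multipliers of the cycles in `Z` are multiplied
by `1 - t`. -/
def StCURVE : Prop :=
  ∀ (T : ℂ[X]) (Z : Finset ℂ), 2 ≤ T.natDegree → Cyc T Z →
    (∀ z ∈ Z, ∀ p : ℕ, 0 < p → (ev T)^[p] z = z → ‖deriv ((ev T)^[p]) z‖ = 1) →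
    -- the linearized equations can be solved
    (∀ e κ : ℂ → ℂ, (∀ z ∈ Z, κ (T.eval z) = κ z) →
      ∃ (h : ℂ[X]) (u : ℂ → ℂ), h.natDegree ≤ T.natDegree - 2 ∧
        (∀ z ∈ Z, u (T.eval z) - (derivative T).eval z * u z - h.eval z = e z) ∧
        ∀ z ∈ Z, ∑ i ∈ Finset.range (Function.minimalPeriod (ev T) z),
          ((derivative h).eval ((ev T)^[i] z) +
            (derivative (derivative T)).eval ((ev T)^[i] z) * u ((ev T)^[i] z)) /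
            (derivative T).eval ((ev T)^[i] z) = κ z) →
    ∃ (t₀ C₀ : ℝ) (S : ℝ → ℂ[X]) (y : ℝ → ℂ → ℂ) (kk : ℂ → ℕ → ℕ), 0 < t₀ ∧ 0 < C₀ ∧
      (∀ z ∈ Z, ∀ p : ℕ, 0 < p → (ev T)^[p] z = z → 0 < kk z p) ∧
      ∀ t : ℝ, 0 ≤ t → t ≤ t₀ →
      (S t).natDegree = T.natDegree ∧ (∀ j : ℕ, T.natDegree - 1 ≤ j → (S t).coeff j = T.coeff j) ∧
      (∀ j : ℕ, ‖(S t).coeff j - T.coeff j‖ ≤ C₀ * t) ∧
      ∀ z ∈ Z, ‖y t z - z‖ ≤ C₀ * t ∧ (S t).eval (y t z) = y t (T.eval z) ∧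
        ∀ p : ℕ, 0 < p → (ev T)^[p] z = z →
          deriv ((ev (S t))^[p]) (y t z) = ((1 - t : ℝ) : ℂ) ^ (kk z p) * deriv ((ev T)^[p]) z

/-- Small contracting perturbations of an irrational rotation. -/
def StSGL : Prop :=
  ∀ (ρ : ℂ) (r r' C₀ : ℝ), ‖ρ‖ = 1 → (∀ m : ℕ, 0 < m → ρ ^ m ≠ 1) → 0 < r' → r' < r → 0 ≤ C₀ →
    ∃ s₀ : ℝ, 0 < s₀ ∧ ∀ s : ℝ, 0 < s → s < s₀ → ∀ g : ℂ → ℂ, DifferentiableOn ℂ g (ball 0 r) →
      (∀ w ∈ ball (0 : ℂ) r, ‖g w - ρ * w‖ ≤ C₀ * s) → g 0 = 0 →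
      deriv g 0 = ρ * ((1 - s : ℝ) : ℂ) →
      ∀ w ∈ closedBall (0 : ℂ) r', (∀ k : ℕ, g^[k] w ∈ ball (0 : ℂ) r) ∧
        Tendsto (fun k : ℕ => g^[k] w) atTop (𝓝 0)

/-- Perturbations of a parabolic fixed point which make it attracting. -/
def StPBL : Prop :=
  ∀ (F : ℂ → ℂ) (r C₀ : ℝ) (z₀ : ℂ), 0 < r → 0 ≤ C₀ → DifferentiableOn ℂ F (ball 0 r) → F 0 = 0 →
    deriv F 0 = 1 → (∃ z ∈ ball (0 : ℂ) r, F z ≠ z) →
    (∀ k : ℕ, F^[k] z₀ ∈ ball (0 : ℂ) r ∧ F^[k] z₀ ≠ 0) →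
    Tendsto (fun k : ℕ => F^[k] z₀) atTop (𝓝 0) →
    ∃ (k₀ : ℕ) (δ s₀ : ℝ), 0 < δ ∧ 0 < s₀ ∧ ∀ s : ℝ, 0 < s → s < s₀ → ∀ G : ℂ → ℂ,
      DifferentiableOn ℂ G (ball 0 r) → (∀ z ∈ ball (0 : ℂ) r, ‖G z - F z‖ ≤ C₀ * s) →
      G 0 = 0 → deriv G 0 = ((1 - s : ℝ) : ℂ) →
      ∀ z ∈ ball (F^[k₀] z₀) δ, (∀ k : ℕ, G^[k] z ∈ ball (0 : ℂ) r) ∧
        Tendsto (fun k : ℕ => G^[k] z) atTop (𝓝 0)

/-- Good points are stable. -/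
def StOPG : Prop :=
  ∀ (T : ℂ[X]) (z : ℂ), 2 ≤ T.natDegree → Good (ev T) z → ∃ σ : ℝ, 0 < σ ∧ ∀ S : ℂ[X],
    S.natDegree = T.natDegree → (∀ j : ℕ, ‖S.coeff j - T.coeff j‖ < σ) →
    ∀ z' ∈ ball z σ, Good (ev S) z'

/-- Upper semicontinuity of the area of the set of bad points. -/
def StUSCG : Prop :=
  StOPG → ∀ (T : ℂ[X]), 2 ≤ T.natDegree → ∀ η : ℝ, 0 < η → ∃ σ : ℝ, 0 < σ ∧ ∀ S : ℂ[X],
    S.natDegree = T.natDegree → (∀ j : ℕ, ‖S.coeff j - T.coeff j‖ < σ) →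
    volume {z : ℂ | ¬ Good (ev S) z} ≤ volume {z : ℂ | ¬ Good (ev T) z} + ENNReal.ofReal η

/-- perturbation of one cycle with multiplier `ρ` -/
structure PC (T : ℂ[X]) (p : ℕ) (x ρ : ℂ) (S : ℝ → ℂ[X]) (y : ℝ → ℂ) (k : ℕ) (t₀ C₀ : ℝ) : Prop where
  t0 : 0 < t₀
  C0 : 0 < C₀
  kp : 0 < k
  pp : 0 < p
  fix : (ev T)^[p] x = x
  mulT : deriv ((ev T)^[p]) x = ρ
  deg : ∀ t : ℝ, 0 ≤ t → t ≤ t₀ → (S t).natDegree = T.natDegree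
  cf : ∀ t : ℝ, 0 ≤ t → t ≤ t₀ → ∀ j : ℕ, ‖(S t).coeff j - T.coeff j‖ ≤ C₀ * t
  yx : ∀ t : ℝ, 0 ≤ t → t ≤ t₀ → ‖y t - x‖ ≤ C₀ * t
  fixt : ∀ t : ℝ, 0 ≤ t → t ≤ t₀ → (ev (S t))^[p] (y t) = y t
  mul : ∀ t : ℝ, 0 ≤ t → t ≤ t₀ → deriv ((ev (S t))^[p]) (y t) = ((1 - t : ℝ) : ℂ) ^ k * ρ

/-- Points of parabolic basins become good. -/
def StAPP : Prop :=
  StPBL → ∀ (T : ℂ[X]) (p : ℕ) (x : ℂ) (S : ℝ → ℂ[X]) (y : ℝ → ℂ) (k : ℕ) (t₀ C₀ : ℝ) (z : ℂ),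
    2 ≤ T.natDegree → PC T p x 1 S y k t₀ C₀ →
    Tendsto (fun i : ℕ => (ev T)^[p * i] z) atTop (𝓝 x) → (∀ i : ℕ, (ev T)^[p * i] z ≠ x) →
    ∃ δ t₁ : ℝ, 0 < δ ∧ 0 < t₁ ∧ ∀ t : ℝ, 0 < t → t < t₁ → ∀ z' ∈ ball z δ, Good (ev (S t)) z'

/-- Points of Siegel discs and of their preimages become good. -/
def StAPS : Prop :=
  StSGL → ∀ (T : ℂ[X]) (n p : ℕ) (ρ : ℂ) (r : ℝ) (h : ℂ → ℂ) (S : ℝ → ℂ[X]) (y : ℝ → ℂ) (k : ℕ)
    (t₀ C₀ : ℝ) (z : ℂ), 2 ≤ T.natDegree → PC T p (h 0) ρ S y k t₀ C₀ → 0 < r → ‖ρ‖ = 1 →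
    (∀ m : ℕ, 0 < m → ρ ^ m ≠ 1) → DifferentiableOn ℂ h (ball 0 r) → InjOn h (ball 0 r) →
    (∀ w ∈ ball (0 : ℂ) r, (ev T)^[p] (h w) = h (ρ * w)) → (ev T)^[n] z ∈ h '' ball 0 r →
    ∃ δ t₁ : ℝ, 0 < δ ∧ 0 < t₁ ∧ ∀ t : ℝ, 0 < t → t < t₁ → ∀ z' ∈ ball z δ, Good (ev (S t)) z'

/-- A polynomial whose Julia set has zero area is a limit of polynomials with bad sets of small
area. -/
def StAPX : Prop :=
  StOPG → StAF → StPF → StINJ → StSURL → StCURVE → StSGL → StPBL → StAPP → StAPS →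
  ∀ (T : ℂ[X]), 2 ≤ T.natDegree →
    volume {z : ℂ | ¬ (Good (ev T) z ∨ Para (ev T) z ∨ Sieg (ev T) z)} = 0 → ∀ ε : ℝ, 0 < ε →
    ∃ S : ℂ[X], S.natDegree = T.natDegree ∧ S.leadingCoeff = T.leadingCoeff ∧
      (∀ j : ℕ, ‖S.coeff j - T.coeff j‖ < ε) ∧
      volume {z : ℂ | ¬ Good (ev S) z} ≤ ENNReal.ofReal ε

end Pool.Agent.H713R5.QJ
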