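import Mathlib
import Pool.Agent.H713R3.ZA.Mot3
import Pool.Agent.H713R3.ZA.Min
import Pool.Agent.H713R4.RB.Defs
import Pool.Agent.H713R5.QJ.Defs

/-!
Statements of project QJ (MP_28f8a1_an), Part I: it is enough that a polynomial is a limit of
polynomials with bad sets of small area. The written proofs are in the table h713q_tasks.
-/

set_option autoImplicit false

open Topology Filter Metric Set Polynomial MeasureTheory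
open Pool.Agent.H713R3.ZA

namespace Pool.Agent.H713R5.QJ

/-! ### Koenigs coordinates -/

/-- the sink of period dividing `P` which attracts `u` -/
noncomputable def SP (f : ℂ → ℂ) (P : ℕ) (u : ℂ) : ℂ := limUnder atTop (fun k : ℕ => f^[P * k] u)

/-- its multiplier -/
noncomputable def LP (f : ℂ → ℂ) (P : ℕ) (u : ℂ) : ℂ := deriv (f^[P]) (SP f P u)

/-- Koenigs' coordinate, with derivative one at the sink -/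
noncomputable def KP (f : ℂ → ℂ) (P : ℕ) (u : ℂ) : ℂ :=
  limUnder atTop (fun k : ℕ => (f^[P * k] u - SP f P u) / (LP f P u) ^ k)

/-- attracted points, nonzero multiplier -/
def A0 (a : ℂ) (n P : ℕ) : Set (PE n × ℂ) :=
  {y | AT (fx a n y.1) P y.2 ∧ LP (fx a n y.1) P y.2 ≠ 0}

/-- Elementary facts on attracted points. -/
def StKO0 : Prop :=
  ∀ (f : ℂ → ℂ) (P : ℕ), Differentiable ℂ f → 0 < P →
    (∀ u z : ℂ, Sk f P u z → SP f P u = z) ∧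
    (∀ u : ℂ, AT f P u → Sk f P u (SP f P u)) ∧
    (∀ u : ℂ, AT f P (f u) ↔ AT f P u) ∧
    (∀ u : ℂ, AT f P u → SP f P (f u) = f (SP f P u) ∧ LP f P (f u) = LP f P u) ∧
    (∀ z : ℂ, f^[P] z = z → ‖deriv (f^[P]) z‖ < 1 → Sk f P z z)

/-- The set of attracted points is open and the sink is a holomorphic function. -/
def StKO1 : Prop :=
  StKO0 → ∀ (a : ℂ) (n P : ℕ), a ≠ 0 → 1 ≤ n → 0 < P →
    IsOpen {y : PE n × ℂ | AT (fx a n y.1) P y.2} ∧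
    DifferentiableOn ℂ (fun y : PE n × ℂ => SP (fx a n y.1) P y.2)
      {y : PE n × ℂ | AT (fx a n y.1) P y.2} ∧
    DifferentiableOn ℂ (fun y : PE n × ℂ => LP (fx a n y.1) P y.2)
      {y : PE n × ℂ | AT (fx a n y.1) P y.2} ∧
    IsOpen (A0 a n P)

/-- Koenigs' coordinate on discs of uniform size around the sinks -/
structure KL (a : ℂ) (n P : ℕ) (B lam₀ lam₁ r₁ r₂ : ℝ) : Prop where
  r1 : 0 < r₁
  r2 : 0 < r₂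
  l0 : 0 < lam₀
  l1 : lam₁ < 1
  att : ∀ x ∈ ball (0 : PE n) B, ∀ zs : ℂ, (fx a n x)^[P] zs = zs →
    lam₀ ≤ ‖deriv ((fx a n x)^[P]) zs‖ → ‖deriv ((fx a n x)^[P]) zs‖ ≤ lam₁ →
    ∀ z ∈ ball zs r₁, Sk (fx a n x) P z zs ∧ (fx a n x)^[P] z ∈ ball zs r₁
  zero : ∀ x ∈ ball (0 : PE n) B, ∀ zs : ℂ, (fx a n x)^[P] zs = zs →
    lam₀ ≤ ‖deriv ((fx a n x)^[P]) zs‖ → ‖deriv ((fx a n x)^[P]) zs‖ ≤ lam₁ →
    KP (fx a n x) P zs = 0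
  close : ∀ x ∈ ball (0 : PE n) B, ∀ zs : ℂ, (fx a n x)^[P] zs = zs →
    lam₀ ≤ ‖deriv ((fx a n x)^[P]) zs‖ → ‖deriv ((fx a n x)^[P]) zs‖ ≤ lam₁ →
    ∀ z ∈ ball zs r₁, ∀ z' ∈ ball zs r₁,
      ‖KP (fx a n x) P z - KP (fx a n x) P z' - (z - z')‖ ≤ ‖z - z'‖ / 8
  onto : ∀ x ∈ ball (0 : PE n) B, ∀ zs : ℂ, (fx a n x)^[P] zs = zs →
    lam₀ ≤ ‖deriv ((fx a n x)^[P]) zs‖ → ‖deriv ((fx a n x)^[P]) zs‖ ≤ lam₁ →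
    ∀ w ∈ ball (0 : ℂ) r₂, ∃ z ∈ ball zs r₁, KP (fx a n x) P z = w

/-- Koenigs' theorem with uniform constants. -/
def StKO3 : Prop :=
  StKO0 → ∀ (a : ℂ) (n P : ℕ) (B lam₀ lam₁ ε : ℝ), a ≠ 0 → 1 ≤ n → 0 < P → 0 < B → 0 < lam₀ →
    lam₁ < 1 → 0 < ε → ∃ r₁ r₂ : ℝ, r₁ ≤ ε ∧ KL a n P B lam₀ lam₁ r₁ r₂

/-- Koenigs' coordinate on the basins. -/
def StKO2 : Prop :=
  StKO0 → StKO1 → StKO3 → ∀ (a : ℂ) (n P : ℕ), a ≠ 0 → 1 ≤ n → 0 < P →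
    DifferentiableOn ℂ (fun y : PE n × ℂ => KP (fx a n y.1) P y.2) (A0 a n P) ∧
    (∀ (x : PE n) (u : ℂ), (x, u) ∈ A0 a n P →
      Tendsto (fun k : ℕ => ((fx a n x)^[P * k] u - SP (fx a n x) P u) / (LP (fx a n x) P u) ^ k)
        atTop (𝓝 (KP (fx a n x) P u)) ∧
      (x, fx a n x u) ∈ A0 a n P ∧
      deriv (fx a n x) (SP (fx a n x) P u) ≠ 0 ∧
      KP (fx a n x) P (fx a n x u) =
        deriv (fx a n x) (SP (fx a n x) P u) * KP (fx a n x) P u ∧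
      KP (fx a n x) P ((fx a n x)^[P] u) = LP (fx a n x) P u * KP (fx a n x) P u)

/-- Fatou's lemma, quantitative form: if the critical points are far from the sink in Koenigs'
coordinate then so are the points which are not attracted. -/
def StKBP : Prop :=
  StKO0 → StKO1 → StKO2 → StKO3 → StROOT → ∀ (a : ℂ) (n P : ℕ), a ≠ 0 → 1 ≤ n → 0 < P →
    ∀ (x : PE n) (zs : ℂ), (fx a n x)^[P] zs = zs → deriv ((fx a n x)^[P]) zs ≠ 0 →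
    ‖deriv ((fx a n x)^[P]) zs‖ < 1 → ∀ A : ℝ, 0 < A →
    (∀ v : ℂ, deriv ((fx a n x)^[P]) v = 0 → Sk (fx a n x) P v zs → A ≤ ‖KP (fx a n x) P v‖) →
    ∀ u : ℂ, ¬ Sk (fx a n x) P u zs → A ≤ 100 * ‖u - zs‖

/-- Fatou: every sink attracts a critical point. -/
def StFATP : Prop :=
  StKO0 → StKO1 → StKO2 → StKO3 → StROOT → StKBP → ∀ (a : ℂ) (n P : ℕ), a ≠ 0 → 1 ≤ n → 0 < P →
    ∀ (x : PE n) (zs : ℂ), (fx a n x)^[P] zs = zs → ‖deriv ((fx a n x)^[P]) zs‖ < 1 →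
    ∃ (i : Fin n) (l : ℕ), Sk (fx a n x) P (x (some i)) ((fx a n x)^[l] zs)

/-- Generic parameters: nonzero multipliers and nonzero positions. -/
def StGENP : Prop :=
  StKO0 → StKO1 → StKO2 → StKO3 → ∀ (a : ℂ) (n P : ℕ), a ≠ 0 → 1 ≤ n → 0 < P →
    ∀ (x₁ : PE n) (I : Finset (Fin n)), (∀ i ∈ I, AT (fx a n x₁) P (x₁ (some i))) →
    ∀ ε : ℝ, 0 < ε → ∃ x ∈ ball x₁ ε, ∀ i ∈ I, (x, x (some i)) ∈ A0 a n P ∧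
      KP (fx a n x) P (x (some i)) ≠ 0

/-! ### Leaves -/

section
variable (a : ℂ) (n P M : ℕ) (B R₃ R₇ : ℝ) (ψ φ : PE n × ℂ → ℂ) (Es Ee : Finset (Fin n))
  (rf : Fin n → Fin n) (ap : Fin n → ℕ) (F0 lam : Fin n → ℂ)

/-- the domain -/
def OO : Set (PE n) :=
  {x | x ∈ ball (0 : PE n) B ∧ (∀ i ∈ Es, (x, x (some i)) ∈ A0 a n P) ∧
    ∀ i ∈ Ee, R₃ < ‖(fx a n x)^[M] (x (some i))‖}

/-- numerators of the invariants -/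
noncomputable def nu (i : Fin n) (x : PE n) : ℂ :=
  if rf i = i then LP (fx a n x) P (x (some i)) else KP (fx a n x) P (x (some i))

/-- denominators of the invariants -/
noncomputable def dn (i : Fin n) (x : PE n) : ℂ :=
  if rf i = i then 1 else KP (fx a n x) P ((fx a n x)^[ap i] (x (some (rf i))))

/-- the compact piece of the leaf of `x₂` -/
def LL (xT : PE n) (n₀ η : ℝ) (x₂ : PE n) : Set (PE n) :=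
  {x | Pool.Agent.H713R3.ZA.Dl a n xT x ≤ n₀ ∧
    (∀ i ∈ Ee, (fx a n x)^[M] (x (some i)) = ψ (x, F0 i)) ∧
    (∀ i ∈ Es, AT (fx a n x) P (x (some i)) ∧ LP (fx a n x) P (x (some i)) = lam i ∧
      ‖(fx a n x)^[P * M] (x (some i)) - SP (fx a n x) P (x (some i))‖ ≤ η) ∧
    ∀ i ∈ Es, nu a n P rf i x * dn a n P rf ap i x₂ = nu a n P rf i x₂ * dn a n P rf ap i x}

/-- the far part of the target region -/
def UF (x : PE n) : Set ℂ := {z | R₃ < ‖z‖ ∧ R₇ < ‖φ (x, z)‖}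

/-- the part of the target region near the sinks -/
def US (r' τ : ℝ) (x : PE n) : Set ℂ :=
  {z | ∃ i ∈ Es, rf i = i ∧ ∃ b < P,
    ‖z - (fx a n x)^[b] (SP (fx a n x) P (x (some i)))‖ < r' ∧
    ‖KP (fx a n x) P z‖ < τ * ‖KP (fx a n x) P ((fx a n x)^[b] (x (some i)))‖}

/-- the points which are not in the target region at time `N` -/
def BN (r' τ : ℝ) (N : ℕ) (x : PE n) : Set ℂ :=
  {z | (fx a n x)^[N] z ∉ UF n R₃ R₇ φ x ∪ US a n P Es rf r' τ x}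

/-- references: `rf i` is the reference point of the cycle of sinks which attracts `i` -/
structure RFP : Prop where
  mem : ∀ i ∈ Es, rf i ∈ Es
  idem : ∀ i ∈ Es, rf (rf i) = rf i
  zero : ∀ i ∈ Es, rf i = i → ap i = 0

/-- rigid discs -/
structure GD (ρ : ℝ) (γ : ℂ → PE n) : Prop where
  hρ : 0 < ρ
  γd : DifferentiableOn ℂ γ (ball 0 ρ)
  γB : ∀ t ∈ ball (0 : ℂ) ρ, γ t ∈ ball (0 : PE n) B
  A0s : ∀ t ∈ ball (0 : ℂ) ρ, ∀ i ∈ Es, (γ t, γ t (some i)) ∈ A0 a n P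
  lam : ∀ t ∈ ball (0 : ℂ) ρ, ∀ i ∈ Es, LP (fx a n (γ t)) P (γ t (some i)) =
    LP (fx a n (γ 0)) P (γ 0 (some i))
  kne : ∀ t ∈ ball (0 : ℂ) ρ, ∀ i ∈ Es, KP (fx a n (γ t)) P (γ t (some i)) ≠ 0
  rel : ∀ t ∈ ball (0 : ℂ) ρ, ∀ i ∈ Es, SP (fx a n (γ t)) P (γ t (some i)) =
    (fx a n (γ t))^[ap i] (SP (fx a n (γ t)) P (γ t (some (rf i))))
  ref : RFP n Es rf ap
  dis : ∀ t ∈ ball (0 : ℂ) ρ, ∀ i ∈ Es, ∀ i' ∈ Es, rf i = i → rf i' = i' → i ≠ i' → ∀ b : ℕ,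
    SP (fx a n (γ t)) P (γ t (some i')) ≠ (fx a n (γ t))^[b] (SP (fx a n (γ t)) P (γ t (some i)))
  rat : ∀ t ∈ ball (0 : ℂ) ρ, ∀ i ∈ Es, KP (fx a n (γ t)) P (γ t (some i)) *
    KP (fx a n (γ 0)) P ((fx a n (γ 0))^[ap i] (γ 0 (some (rf i)))) =
    KP (fx a n (γ 0)) P (γ 0 (some i)) *
    KP (fx a n (γ t)) P ((fx a n (γ t))^[ap i] (γ t (some (rf i))))
  F1 : ∀ i ∈ Ee, R₃ < ‖F0 i‖
  esc : ∀ t ∈ ball (0 : ℂ) ρ, ∀ i ∈ Ee, (fx a n (γ t))^[M] (γ t (some i)) = ψ (γ t, F0 i)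
  cen : ∀ t ∈ ball (0 : ℂ) ρ, (fam a n (γ t)).coeff n = (fam a n (γ 0)).coeff n
  bad : ∀ l : Fin n, l ∉ Es → l ∉ Ee → ¬ Good (fx a n (γ 0)) (γ 0 (some l))

end

/-- Differentiability of the invariants. -/
def StNUD : Prop :=
  StKO0 → StKO1 → StKO2 → StKO3 → ∀ (a : ℂ) (n P M : ℕ) (B R₃ : ℝ) (Es Ee : Finset (Fin n))
    (rf : Fin n → Fin n) (ap : Fin n → ℕ), a ≠ 0 → 1 ≤ n → 0 < P → RFP n Es rf ap →
    IsOpen (OO a n P M B R₃ Es Ee) ∧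
    ∀ i ∈ Es, DifferentiableOn ℂ (nu a n P rf i) (OO a n P M B R₃ Es Ee) ∧
      DifferentiableOn ℂ (dn a n P rf ap i) (OO a n P M B R₃ Es Ee) ∧
      DifferentiableOn ℂ (fun x : PE n => KP (fx a n x) P (x (some i))) (OO a n P M B R₃ Es Ee) ∧
      ∀ x ∈ OO a n P M B R₃ Es Ee, KP (fx a n x) P (x (some (rf i))) ≠ 0 →
        dn a n P rf ap i x ≠ 0

/-- Coincidences between sinks persist. -/
def StCLO : Prop :=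
  StKO0 → StKO1 → ∀ (a : ℂ) (n P M : ℕ) (B R₃ : ℝ) (Es Ee : Finset (Fin n)), a ≠ 0 → 1 ≤ n →
    0 < P → ∀ i ∈ Es, ∀ i' ∈ Es, ∀ b : ℕ,
    IsOpen {x | x ∈ OO a n P M B R₃ Es Ee ∧
      SP (fx a n x) P (x (some i')) = (fx a n x)^[b] (SP (fx a n x) P (x (some i)))} ∧
    IsOpen {x | x ∈ OO a n P M B R₃ Es Ee ∧
      SP (fx a n x) P (x (some i')) ≠ (fx a n x)^[b] (SP (fx a n x) P (x (some i)))}

/-- Compactness of the leaves. -/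
def StCPTP : Prop :=
  StKO0 → StKO1 → StKO2 → StKO3 → StNUD →
  ∀ (a : ℂ) (n P M : ℕ) (B R C₁ R₁ R₃ lam₀ lam₁ r₁ r₂ : ℝ) (ψ φ : PE n × ℂ → ℂ)
    (Es Ee : Finset (Fin n)) (rf : Fin n → Fin n) (ap : Fin n → ℕ) (F0 lam : Fin n → ℂ)
    (xT x₂ : PE n) (n₀ η : ℝ), a ≠ 0 → 1 ≤ n → 0 < P → BO a n B R C₁ R₁ R₃ ψ φ →
    KL a n P B lam₀ lam₁ r₁ r₂ → RFP n Es rf ap →
    (∀ i ∈ Es, lam₀ ≤ ‖lam i‖ ∧ ‖lam i‖ ≤ lam₁) → (∀ i ∈ Ee, R₃ + C₁ < ‖F0 i‖) →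
    {x : PE n | Pool.Agent.H713R3.ZA.Dl a n xT x ≤ n₀} ⊆ ball (0 : PE n) B → η < r₁ →
    IsCompact (LL a n P M ψ Es Ee rf ap F0 lam xT n₀ η x₂) ∧
    LL a n P M ψ Es Ee rf ap F0 lam xT n₀ η x₂ ⊆ OO a n P M B R₃ Es Ee

/-- A priori bound of the positions. -/
def StAPRP : Prop :=
  StKO0 → StKO1 → StKO2 → StKO3 → StROOT → StKBP →
  ∀ (a : ℂ) (n P : ℕ) (B R₀ : ℝ) (Es : Finset (Fin n)) (rf : Fin n → Fin n) (ap : Fin n → ℕ)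
    (x₂ : PE n), a ≠ 0 → 1 ≤ n → 0 < P → RFP n Es rf ap → x₂ ∈ ball (0 : PE n) B →
    (∀ i ∈ Es, (x₂, x₂ (some i)) ∈ A0 a n P ∧ KP (fx a n x₂) P (x₂ (some i)) ≠ 0) →
    ∃ CK : ℝ, 0 < CK ∧ ∀ x ∈ ball (0 : PE n) B,
      (∀ i ∈ Es, (x, x (some i)) ∈ A0 a n P ∧ KP (fx a n x) P (x (some i)) ≠ 0 ∧
        LP (fx a n x) P (x (some i)) = LP (fx a n x₂) P (x₂ (some i)) ∧
        SP (fx a n x) P (x (some i)) = (fx a n x)^[ap i] (SP (fx a n x) P (x (some (rf i)))) ∧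
        nu a n P rf i x * dn a n P rf ap i x₂ = nu a n P rf i x₂ * dn a n P rf ap i x) →
      (∀ i ∈ Es, ∀ i' ∈ Es, rf i = i → rf i' = i' → i ≠ i' → ∀ b : ℕ,
        SP (fx a n x) P (x (some i')) ≠ (fx a n x)^[b] (SP (fx a n x) P (x (some i)))) →
      (∀ l : Fin n, l ∉ Es → ¬ AT (fx a n x) P (x (some l))) →
      (∃ u : ℂ, ‖u‖ ≤ R₀ ∧ ¬ AT (fx a n x) P u) →
      ∀ i ∈ Es, ∀ b ≤ P, ‖KP (fx a n x) P ((fx a n x)^[b] (x (some i)))‖ ≤ CK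

/-! ### The conjugacy near the target region -/

/-- a piece of the conjugacy -/
structure PCE (a : ℂ) (n : ℕ) (γ : ℂ → PE n) (ρ : ℝ) (U : Set ℂ) (H : ℂ → ℂ → ℂ)
    (V : PE n → Set ℂ) : Prop where
  Uo : IsOpen U
  Hd : DifferentiableOn ℂ (fun p : ℂ × ℂ => H p.1 p.2) (ball (0 : ℂ) ρ ×ˢ U)
  H0 : ∀ z ∈ U, H 0 z = z
  Hi : ∀ t ∈ ball (0 : ℂ) ρ, InjOn (H t) U
  inv : ∀ z ∈ U, fx a n (γ 0) z ∈ U
  conj : ∀ t ∈ ball (0 : ℂ) ρ, ∀ z ∈ U, fx a n (γ t) (H t z) = H t (fx a n (γ 0) z)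
  img : ∀ t ∈ ball (0 : ℂ) ρ, ∀ z ∈ U, H t z ∈ V (γ t)

/-- The far part. -/
def StRF : Prop :=
  ∀ (a : ℂ) (n : ℕ) (B R C₁ R₁ R₃ R₇ ρ : ℝ) (ψ φ : PE n × ℂ → ℂ) (γ : ℂ → PE n), a ≠ 0 → 1 ≤ n →
    BO a n B R C₁ R₁ R₃ ψ φ → R₃ + C₁ ≤ R₇ → 0 < ρ → DifferentiableOn ℂ γ (ball 0 ρ) →
    (∀ t ∈ ball (0 : ℂ) ρ, γ t ∈ ball (0 : PE n) B) →
    PCE a n γ ρ (UF n R₃ R₇ φ (γ 0)) (fun t z => ψ (γ t, φ (γ 0, z))) (UF n R₃ R₇ φ)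

/-- the conjugacy near the sinks in terms of the positions -/
def ValS (a : ℂ) (n P : ℕ) (Es : Finset (Fin n)) (rf : Fin n → Fin n) (r' τ : ℝ) (γ : ℂ → PE n)
    (ρ : ℝ) (H : ℂ → ℂ → ℂ) : Prop :=
  ∀ t ∈ ball (0 : ℂ) ρ, ∀ i ∈ Es, rf i = i → ∀ b < P, ∀ z ∈ US a n P Es rf r' τ (γ 0),
    ‖z - (fx a n (γ 0))^[b] (SP (fx a n (γ 0)) P (γ 0 (some i)))‖ < r' →
    ‖H t z - (fx a n (γ t))^[b] (SP (fx a n (γ t)) P (γ t (some i)))‖ < r' ∧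
    KP (fx a n (γ t)) P (H t z) * KP (fx a n (γ 0)) P ((fx a n (γ 0))^[b] (γ 0 (some i))) =
      KP (fx a n (γ 0)) P z * KP (fx a n (γ t)) P ((fx a n (γ t))^[b] (γ t (some i)))

/-- The part near the sinks. -/
def StRS : Prop :=
  StKO0 → StKO1 → StKO2 → StKO3 →
  ∀ (a : ℂ) (n P M : ℕ) (B R₃ lam₀ lam₁ r₁ r₂ r' τ ρ : ℝ) (ψ : PE n × ℂ → ℂ)
    (Es Ee : Finset (Fin n)) (rf : Fin n → Fin n) (ap : Fin n → ℕ) (F0 : Fin n → ℂ)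
    (γ : ℂ → PE n), a ≠ 0 → 1 ≤ n → 0 < P → KL a n P B lam₀ lam₁ r₁ r₂ →
    GD a n P M B R₃ ψ Es Ee rf ap F0 ρ γ →
    (∀ i ∈ Es, lam₀ ≤ ‖LP (fx a n (γ 0)) P (γ 0 (some i))‖ ∧
      ‖LP (fx a n (γ 0)) P (γ 0 (some i))‖ ≤ lam₁) → 0 < r' → r' < r₁ → 0 < τ →
    (∀ i ∈ Es, ∀ b ≤ P, τ * ‖KP (fx a n (γ 0)) P ((fx a n (γ 0))^[b] (γ 0 (some i)))‖ <
      min r₂ (r' / 4)) →
    ∃ (ρ' : ℝ) (H : ℂ → ℂ → ℂ), 0 < ρ' ∧ ρ' ≤ ρ ∧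
      PCE a n γ ρ' (US a n P Es rf r' τ (γ 0)) H (US a n P Es rf r' τ) ∧
      ValS a n P Es rf r' τ γ ρ' H

/-- Attracted critical points enter the target region at rigid points. -/
def StCRS : Prop :=
  StKO0 → StKO1 → StKO2 → StKO3 →
  ∀ (a : ℂ) (n P M N : ℕ) (B R₃ lam₀ lam₁ r₁ r₂ r' τ ρ : ℝ) (ψ : PE n × ℂ → ℂ)
    (Es Ee : Finset (Fin n)) (rf : Fin n → Fin n) (ap : Fin n → ℕ) (F0 : Fin n → ℂ)
    (γ : ℂ → PE n) (H : ℂ → ℂ → ℂ), a ≠ 0 → 1 ≤ n → 0 < P → KL a n P B lam₀ lam₁ r₁ r₂ →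
    GD a n P M B R₃ ψ Es Ee rf ap F0 ρ γ →
    (∀ i ∈ Es, lam₀ ≤ ‖LP (fx a n (γ 0)) P (γ 0 (some i))‖ ∧
      ‖LP (fx a n (γ 0)) P (γ 0 (some i))‖ ≤ lam₁) → 0 < r' → r' < r₁ → 0 < τ →
    PCE a n γ ρ (US a n P Es rf r' τ (γ 0)) H (US a n P Es rf r' τ) →
    ValS a n P Es rf r' τ γ ρ H →
    ∃ Bd : Set ℂ, Bd.Finite ∧ ∀ t ∈ ball (0 : ℂ) ρ, ∀ i ∈ Es, ∀ j ≤ N,
      ∀ w ∈ US a n P Es rf r' τ (γ 0), (fx a n (γ t))^[j] (γ t (some i)) = H t w → w ∈ Bd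

/-- Escaping critical points enter the target region at rigid points. -/
def StCRE : Prop :=
  ∀ (a : ℂ) (n P M N : ℕ) (B R C₁ R₁ R₃ R₇ ρ : ℝ) (ψ φ : PE n × ℂ → ℂ)
    (Es Ee : Finset (Fin n)) (rf : Fin n → Fin n) (ap : Fin n → ℕ) (F0 : Fin n → ℂ)
    (γ : ℂ → PE n), a ≠ 0 → 1 ≤ n → BO a n B R C₁ R₁ R₃ ψ φ → R₃ + C₁ ≤ R₇ →
    GD a n P M B R₃ ψ Es Ee rf ap F0 ρ γ →
    ∃ Bd : Set ℂ, Bd.Finite ∧ ∀ t ∈ ball (0 : ℂ) ρ, ∀ i ∈ Ee, ∀ j ≤ N,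
      ∀ w ∈ UF n R₃ R₇ φ (γ 0), (fx a n (γ t))^[j] (γ t (some i)) = ψ (γ t, φ (γ 0, w)) → w ∈ Bd

/-- Bad critical points do not enter the target region before time `N`, for nearby maps. -/
def StCRB : Prop :=
  StKO0 → StKO1 → StKO2 → StKO3 →
  ∀ (a : ℂ) (n P M N : ℕ) (B R C₁ R₁ R₃ R₇ lam₀ lam₁ r₁ r₂ r' τ ρ : ℝ) (ψ φ : PE n × ℂ → ℂ)
    (Es Ee : Finset (Fin n)) (rf : Fin n → Fin n) (ap : Fin n → ℕ) (F0 : Fin n → ℂ)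
    (γ : ℂ → PE n), a ≠ 0 → 1 ≤ n → 0 < P → BO a n B R C₁ R₁ R₃ ψ φ →
    KL a n P B lam₀ lam₁ r₁ r₂ → GD a n P M B R₃ ψ Es Ee rf ap F0 ρ γ →
    (∀ i ∈ Es, lam₀ ≤ ‖LP (fx a n (γ 0)) P (γ 0 (some i))‖ ∧
      ‖LP (fx a n (γ 0)) P (γ 0 (some i))‖ ≤ lam₁) → 0 < r' → r' < r₁ →
    ∃ ρ' : ℝ, 0 < ρ' ∧ ρ' ≤ ρ ∧ ∀ t ∈ ball (0 : ℂ) ρ', ∀ l : Fin n, l ∉ Es → l ∉ Ee → ∀ j ≤ N,
      (fx a n (γ t))^[j] (γ t (some l)) ∉ UF n R₃ R₇ φ (γ t) ∪ US a n P Es rf r' τ (γ t)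

end Pool.Agent.H713R5.QJ
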