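import Mathlib
import Pool.Agent.H713R5.QJ.Defs1

/-!
Statements of project QJ (MP_28f8a1_an), Part I, continued: motions at a fixed level, area, the
minimization.
-/

set_option autoImplicit false

open Topology Filter Metric Set Polynomial MeasureTheory
open Pool.Agent.H713R3.ZA

namespace Pool.Agent.H713R5.QJ

/-! ### Motions at a fixed level, for rational maps -/

/-- Rigid data up to the time `N` (compare `RDA` in `H713R4/RB/Defs.lean`). -/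
structure RDL (d : ℕ) (γ : ℂ → Pool.Agent.H713R4.RB.WW d) (ρ : ℝ) (U : Set ℂ) (H : ℂ → ℂ → ℂ) (Bd : Set ℂ) (N : ℕ) :
    Prop where
  hρ : 0 < ρ
  γd : DifferentiableOn ℂ γ (ball 0 ρ)
  ndg : ∀ t ∈ ball (0 : ℂ) ρ, Pool.Agent.H713R4.RB.Ndg d (γ t)
  Uo : IsOpen U
  Hd : DifferentiableOn ℂ (fun p : ℂ × ℂ => H p.1 p.2) (ball (0 : ℂ) ρ ×ˢ U)
  H0 : ∀ z ∈ U, H 0 z = z
  Hi : ∀ t ∈ ball (0 : ℂ) ρ, InjOn (H t) U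
  inv : ∀ z ∈ U, ∃ w ∈ U, Pool.Agent.H713R4.RB.Over (Pool.Agent.H713R4.RB.FH d (γ 0) (z, 1)) w
  conj : ∀ t ∈ ball (0 : ℂ) ρ, ∀ z ∈ U, ∀ w : ℂ, Pool.Agent.H713R4.RB.Over (Pool.Agent.H713R4.RB.FH d (γ 0) (z, 1)) w →
    Pool.Agent.H713R4.RB.Over (Pool.Agent.H713R4.RB.FH d (γ t) (H t z, 1)) (H t w)
  Bf : Bd.Finite
  crit : ∀ t ∈ ball (0 : ℂ) ρ, ∀ p : ℂ × ℂ, p ≠ 0 → Pool.Agent.H713R4.RB.Crit d (γ t) p → ∀ j : ℕ, 1 ≤ j → j ≤ N →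
    ∀ w ∈ U, Pool.Agent.H713R4.RB.Over ((Pool.Agent.H713R4.RB.FH d (γ t))^[j] p) (H t w) → w ∈ Bd
  inf : ∀ t ∈ ball (0 : ℂ) ρ, ∀ w ∈ U, Pool.Agent.H713R4.RB.Over ((Pool.Agent.H713R4.RB.FH d (γ t))^[N] (1, 0)) (H t w) → w ∈ Bd

/-- Existence of the motion. -/
def StMOTL : Prop :=
  StROOT → Pool.Agent.H713R4.RB.StPRO → Pool.Agent.H713R4.RB.StWN → Pool.Agent.H713R4.RB.StBAD →
  ∀ (d : ℕ) (γ : ℂ → Pool.Agent.H713R4.RB.WW d) (ρ : ℝ) (U : Set ℂ) (H : ℂ → ℂ → ℂ) (Bd : Set ℂ) (N : ℕ), 2 ≤ d →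
    RDL d γ ρ U H Bd N → ∃ Φ : ℂ → ℂ → ℂ, Pool.Agent.H713R4.RB.MOT d γ ρ U H (fun _ => Bd) N Φ

/-- Extension of the motion over the exceptional points, and commutation with the dynamics. -/
def StFULLL : Prop :=
  Pool.Agent.H713R4.RB.StBAD → ∀ (d : ℕ) (γ : ℂ → Pool.Agent.H713R4.RB.WW d) (ρ : ℝ) (U : Set ℂ) (H : ℂ → ℂ → ℂ) (Bd : Set ℂ) (N : ℕ)
    (Φ : ℂ → ℂ → ℂ) (R₆ : ℝ) (far : ℂ → ℂ → ℂ), 2 ≤ d → RDL d γ ρ U H Bd N →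
    Pool.Agent.H713R4.RB.MOT d γ ρ U H (fun _ => Bd) N Φ → Pool.Agent.H713R4.RB.FARN d γ ρ U H N R₆ far → ∀ t ∈ ball (0 : ℂ) ρ,
    ∃ Ψ : ℂ → ℂ, DifferentiableOn ℂ Ψ (Pool.Agent.H713R4.RB.WN d (γ 0) U N) ∧ InjOn Ψ (Pool.Agent.H713R4.RB.WN d (γ 0) U N) ∧
      (∀ z ∈ Pool.Agent.H713R4.RB.WN d (γ 0) (U \ Bd) N, Ψ z = Φ t z) ∧
      Tendsto (fun z : ℂ => Ψ z - z) (Bornology.cobounded ℂ) (𝓝 0) ∧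
      (∀ z ∈ Pool.Agent.H713R4.RB.WN d (γ 0) U N, Ψ z ∈ Pool.Agent.H713R4.RB.WN d (γ t) (H t '' U) N) ∧
      ∀ z ∈ Pool.Agent.H713R4.RB.WN d (γ 0) U N, ∀ z' ∈ Pool.Agent.H713R4.RB.WN d (γ 0) U N, Pool.Agent.H713R4.RB.Over (Pool.Agent.H713R4.RB.FH d (γ 0) (z, 1)) z' →
        Pool.Agent.H713R4.RB.Over (Pool.Agent.H713R4.RB.FH d (γ t) (Ψ z, 1)) (Ψ z')

/-- The mean value step at level `N`. -/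
def StSTEPL : Prop :=
  Pool.Agent.H713R4.RB.StAREA → Pool.Agent.H713R4.RB.StAVG2 → Pool.Agent.H713R4.RB.StBAD → StMOTL → StFULLL → StROOT → Pool.Agent.H713R4.RB.StPRO → Pool.Agent.H713R4.RB.StWN →
  ∀ (d : ℕ) (γ : ℂ → Pool.Agent.H713R4.RB.WW d) (ρ : ℝ) (U : Set ℂ) (H : ℂ → ℂ → ℂ) (Bd : Set ℂ) (N : ℕ)
    (R₄ R₅ R₆ : ℝ) (far : ℂ → ℂ → ℂ) (v₁ v₂ : ℂ) (r₁ c₀ : ℝ), 2 ≤ d →
    RDL d γ ρ U H Bd N → 0 < R₄ → R₄ < R₅ →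
    {z | R₄ < ‖z‖} ∪ ball v₁ r₁ ∪ ball v₂ r₁ ⊆ Pool.Agent.H713R4.RB.WN d (γ 0) U N →
    (∀ t ∈ ball (0 : ℂ) ρ, {z | R₄ < ‖z‖} ⊆ Pool.Agent.H713R4.RB.WN d (γ t) (H t '' U) N) →
    ball v₁ r₁ ∪ ball v₂ r₁ ⊆ ball 0 R₅ →
    Pool.Agent.H713R4.RB.FARN d γ ρ U H N R₆ far → 0 < c₀ →
    (∀ t ∈ ball (0 : ℂ) ρ, Pool.Agent.H713R4.RB.Gain d R₄ R₅ v₁ v₂ r₁ c₀ (γ 0) (γ t)) →
    ∀ r : ℝ, 0 < r → r < ρ → ∀ η : ℝ, 0 < η → ∀ q : ℝ → ℝ, Continuous q →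
      ∃ θ : ℝ, (volume (Pool.Agent.H713R4.RB.WN d (γ (circleMap 0 r θ)) (H (circleMap 0 r θ) '' U) N)ᶜ).toReal + q θ <
        (volume (Pool.Agent.H713R4.RB.WN d (γ 0) U N)ᶜ).toReal + η + (2 * Real.pi)⁻¹ *
          ∫ θ in (0 : ℝ)..(2 * Real.pi), (q θ - c₀ * Pool.Agent.H713R4.RB.Dl d (γ 0) (γ (circleMap 0 r θ)))

/-! ### Polynomials as rational maps -/

/-- the coefficient vector of the polynomial, with denominator one -/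
noncomputable def wv (a : ℂ) (n : ℕ) (x : PE n) : Pool.Agent.H713R4.RB.WW (n + 1) :=
  Sum.elim (fun i => (fam a n x).coeff (i : ℕ)) (fun i => if (i : ℕ) = 0 then 1 else 0)

/-- Dictionary between polynomials and homogeneous coordinates. -/
def StDIC : Prop :=
  ∀ (a : ℂ) (n : ℕ), a ≠ 0 → 1 ≤ n →
    (∀ (x : PE n) (z : ℂ), Pool.Agent.H713R4.RB.FH (n + 1) (wv a n x) (z, 1) = (fx a n x z, 1)) ∧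
    (∀ (x : PE n) (N : ℕ) (z : ℂ),
      (Pool.Agent.H713R4.RB.FH (n + 1) (wv a n x))^[N] (z, 1) = ((fx a n x)^[N] z, 1)) ∧
    (∀ (x : PE n) (N : ℕ) (z w : ℂ),
      Pool.Agent.H713R4.RB.Over ((Pool.Agent.H713R4.RB.FH (n + 1) (wv a n x))^[N] (z, 1)) w ↔ (fx a n x)^[N] z = w) ∧
    (∀ (x : PE n) (N : ℕ) (p : ℂ × ℂ), p.2 = 0 →
      ((Pool.Agent.H713R4.RB.FH (n + 1) (wv a n x))^[N] p).2 = 0) ∧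
    (∀ x : PE n, Pool.Agent.H713R4.RB.Ndg (n + 1) (wv a n x)) ∧
    (∀ (x : PE n) (U : Set ℂ) (N : ℕ),
      Pool.Agent.H713R4.RB.WN (n + 1) (wv a n x) U N = {z | (fx a n x)^[N] z ∈ U}) ∧
    (∀ (x : PE n) (p : ℂ × ℂ), Pool.Agent.H713R4.RB.Crit (n + 1) (wv a n x) p → p.2 ≠ 0 →
      ∃ l : Fin n, p.1 = x (some l) * p.2) ∧
    (∀ (x : PE n) (N : ℕ) (z w c : ℂ), c ≠ 0 →
      (Pool.Agent.H713R4.RB.Over ((Pool.Agent.H713R4.RB.FH (n + 1) (wv a n x))^[N] (c * z, c)) w ↔ (fx a n x)^[N] z = w)) ∧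
    (∀ x y : PE n, Pool.Agent.H713R4.RB.Dl (n + 1) (wv a n x) (wv a n y) = Pool.Agent.H713R3.ZA.Dl a n x y) ∧
    Differentiable ℂ (wv a n)

/-- The two pieces of the conjugacy give rigid data. -/
def StRL : Prop :=
  StDIC → StKO0 → StKO1 → StKO2 → StKO3 → StCRS → StCRE → StCRB → StRF → StRS →
  ∀ (a : ℂ) (n P M N : ℕ) (B R C₁ R₁ R₃ R₇ lam₀ lam₁ r₁ r₂ r' τ ρ : ℝ) (ψ φ : PE n × ℂ → ℂ)
    (Es Ee : Finset (Fin n)) (rf : Fin n → Fin n) (ap : Fin n → ℕ) (F0 : Fin n → ℂ)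
    (γ : ℂ → PE n), a ≠ 0 → 1 ≤ n → 0 < P → BO a n B R C₁ R₁ R₃ ψ φ → R₃ + C₁ ≤ R₇ →
    KL a n P B lam₀ lam₁ r₁ r₂ → GD a n P M B R₃ ψ Es Ee rf ap F0 ρ γ →
    (∀ i ∈ Es, lam₀ ≤ ‖LP (fx a n (γ 0)) P (γ 0 (some i))‖ ∧
      ‖LP (fx a n (γ 0)) P (γ 0 (some i))‖ ≤ lam₁) → 0 < r' → r' < r₁ → 0 < τ →
    (∀ i ∈ Es, ∀ b ≤ P, τ * ‖KP (fx a n (γ 0)) P ((fx a n (γ 0))^[b] (γ 0 (some i)))‖ <
      min r₂ (r' / 4)) →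
    ∃ (ρ' : ℝ) (U : Set ℂ) (H : ℂ → ℂ → ℂ) (Bd : Set ℂ), 0 < ρ' ∧ ρ' ≤ ρ ∧
      RDL (n + 1) (fun t => wv a n (γ t)) ρ' U H Bd N ∧
      U = UF n R₃ R₇ φ (γ 0) ∪ US a n P Es rf r' τ (γ 0) ∧
      (∀ t ∈ ball (0 : ℂ) ρ', ∀ z ∈ U,
        H t z ∈ UF n R₃ R₇ φ (γ t) ∪ US a n P Es rf r' τ (γ t)) ∧
      ∀ t ∈ ball (0 : ℂ) ρ', ∀ z : ℂ, R₇ + C₁ < ‖z‖ → z ∈ U ∧ H t z = ψ (γ t, φ (γ 0, z))

/-- The conjugacy near infinity is tangent to the identity. -/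
def StASYP : Prop :=
  ∀ (a : ℂ) (n : ℕ) (B R C₁ R₁ R₃ : ℝ) (ψ φ : PE n × ℂ → ℂ), a ≠ 0 → 1 ≤ n →
    BO a n B R C₁ R₁ R₃ ψ φ → ∀ x ∈ ball (0 : PE n) B, ∀ y ∈ ball (0 : PE n) B,
    (fam a n x).coeff n = (fam a n y).coeff n →
    Tendsto (fun z : ℂ => ψ (y, φ (x, z)) - z) (Bornology.cobounded ℂ) (𝓝 0)

/-- Gain of area for polynomials, with uniform constants. -/
def StGAINP : Prop :=
  StDIC → ∀ (a : ℂ) (n : ℕ) (B R₀ : ℝ), a ≠ 0 → 1 ≤ n → 0 < B →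
    ∃ (R₄ R₅ r₁ c₀ : ℝ) (v : ℂ), R₀ < R₄ ∧ 0 < R₄ ∧ R₄ < R₅ ∧ 0 < r₁ ∧ 0 < c₀ ∧
      ball v r₁ ⊆ {z | R₄ < ‖z‖ ∧ ‖z‖ < R₅} ∧
      ∀ x ∈ ball (0 : PE n) B, ∀ y ∈ ball (0 : PE n) B,
        (fam a n x).coeff n = (fam a n y).coeff n →
        Pool.Agent.H713R4.RB.Gain (n + 1) R₄ R₅ v v r₁ c₀ (wv a n x) (wv a n y)

/-- The level `N` area is lower semicontinuous. -/
def StLSCP : Prop :=
  StKO0 → StKO1 → StKO2 → StKO3 →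
  ∀ (a : ℂ) (n P M N : ℕ) (B R C₁ R₁ R₃ R₇ lam₀ lam₁ r₁ r₂ r' τ : ℝ) (ψ φ : PE n × ℂ → ℂ)
    (Es Ee : Finset (Fin n)) (rf : Fin n → Fin n) (L : Set (PE n)), a ≠ 0 → 1 ≤ n → 0 < P →
    BO a n B R C₁ R₁ R₃ ψ φ → R₃ + C₁ ≤ R₇ → KL a n P B lam₀ lam₁ r₁ r₂ → 0 < r' → r' < r₁ →
    0 < τ → L ⊆ OO a n P M B R₃ Es Ee →
    (∀ x ∈ L, ∀ i ∈ Es, lam₀ ≤ ‖LP (fx a n x) P (x (some i))‖ ∧
      ‖LP (fx a n x) P (x (some i))‖ ≤ lam₁) →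
    LowerSemicontinuousOn (fun x => (volume (BN a n P R₃ R₇ φ Es rf r' τ N x)).toReal) L

/-- The bad points are never in the target region; if all sinks attract marked critical points
then the level `N` area tends to the area of the bad set. -/
def StNINF : Prop :=
  StKO0 → StKO1 → StKO2 → StKO3 → StFATP →
  ∀ (a : ℂ) (n P M : ℕ) (B R C₁ R₁ R₃ R₇ lam₀ lam₁ r₁ r₂ r' τ : ℝ) (ψ φ : PE n × ℂ → ℂ)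
    (Es Ee : Finset (Fin n)) (rf : Fin n → Fin n) (ap : Fin n → ℕ) (x : PE n), a ≠ 0 → 1 ≤ n →
    0 < P → BO a n B R C₁ R₁ R₃ ψ φ → R₃ + C₁ ≤ R₇ → KL a n P B lam₀ lam₁ r₁ r₂ → 0 < r' →
    r' < r₁ → 0 < τ → x ∈ OO a n P M B R₃ Es Ee →
    (∀ i ∈ Es, lam₀ ≤ ‖LP (fx a n x) P (x (some i))‖ ∧
      ‖LP (fx a n x) P (x (some i))‖ ≤ lam₁) →
    (∀ N : ℕ, {z | ¬ Good (fx a n x) z} ⊆ BN a n P R₃ R₇ φ Es rf r' τ N x) ∧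
    ((∀ i ∈ Es, KP (fx a n x) P (x (some i)) ≠ 0) → RFP n Es rf ap →
      (∀ i ∈ Es, SP (fx a n x) P (x (some i)) =
        (fx a n x)^[ap i] (SP (fx a n x) P (x (some (rf i))))) →
      (∀ l : Fin n, l ∉ Es → l ∉ Ee → ¬ Good (fx a n x) (x (some l))) →
      ∀ η : ℝ, 0 < η → ∃ N₀ : ℕ, ∀ N ≥ N₀,
        (volume (BN a n P R₃ R₇ φ Es rf r' τ N x)).toReal ≤
          (volume {z | ¬ Good (fx a n x) z}).toReal + η)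

/-- Critical points and constant term are bounded by the coefficients. -/
def StBDDP : Prop :=
  ∀ (a : ℂ) (n : ℕ) (xT : PE n), a ≠ 0 → 1 ≤ n → ∃ B : ℝ, 0 < B ∧ ∀ x : PE n,
    Pool.Agent.H713R3.ZA.Dl a n xT x ≤ 1 → x ∈ ball (0 : PE n) B

/-- The minimization (the minimum is attained). -/
def StMINA : Prop :=
  ∀ (V J : Type) [NormedAddCommGroup V] [NormedSpace ℂ V] [FiniteDimensional ℂ V] [Fintype J]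
    (cf : J → V → ℂ) (τ : J → ℂ) (AN : V → ℝ) (L : Set V) (f : V → ℂ) (p₂ : V)
    (n₀ c₀ : ℝ), (∀ j, Differentiable ℂ (cf j)) → (∀ p, 0 ≤ AN p) → 0 < n₀ → 0 < c₀ →
    IsCompact L → ContinuousOn f L → LowerSemicontinuousOn AN L →
    p₂ ∈ L → f p₂ ≠ 0 → AN p₂ ≤ c₀ * n₀ / 16 →
    c₀ / 2 * ∑ j, ‖cf j p₂ - τ j‖ ^ 2 ≤ c₀ * n₀ / 16 →
    (∀ p ∈ L, f p ≠ 0 → ∑ j, ‖cf j p - τ j‖ ^ 2 < n₀ → AN p < c₀ * n₀ →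
      ∃ (r₀ : ℝ) (γ : ℂ → V), 0 < r₀ ∧ γ 0 = p ∧ DifferentiableOn ℂ γ (ball 0 r₀) ∧
        (∀ t ∈ ball (0 : ℂ) r₀, γ t ∈ L ∧ f (γ t) ≠ 0) ∧
        DifferentiableOn ℂ (fun t => f (γ t)) (ball 0 r₀) ∧
        (∃ j, deriv (fun t => cf j (γ t)) 0 ≠ 0) ∧
        ∀ r : ℝ, 0 < r → r < r₀ → ∀ η : ℝ, 0 < η → ∀ q : ℝ → ℝ, Continuous q →
          ∃ θ : ℝ, AN (γ (circleMap 0 r θ)) + q θ <
            AN (γ 0) + η + (2 * Real.pi)⁻¹ * ∫ θ in (0 : ℝ)..(2 * Real.pi),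
              (q θ - c₀ * ∑ j, ‖cf j (γ (circleMap 0 r θ)) - cf j (γ 0)‖ ^ 2)) → False

end Pool.Agent.H713R5.QJ
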