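import Mathlib
import Pool.Agent.H713R5.QJ.Defs2

/-!
Statements of project QJ (MP_28f8a1_an), Part I, end.
-/

set_option autoImplicit false

open Topology Filter Metric Set Polynomial MeasureTheory
open Pool.Agent.H713R3.ZA

namespace Pool.Agent.H713R5.QJ

/-- the compact piece of the leaf of `x₂`, with two times `M`, `Ms` -/
def LL2 (a : ℂ) (n P M Ms : ℕ) (ψ : PE n × ℂ → ℂ) (Es Ee : Finset (Fin n)) (rf : Fin n → Fin n)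
    (ap : Fin n → ℕ) (F0 lam : Fin n → ℂ) (xT : PE n) (n₀ η : ℝ) (x₂ : PE n) : Set (PE n) :=
  {x | Pool.Agent.H713R3.ZA.Dl a n xT x ≤ n₀ ∧
    (∀ i ∈ Ee, (fx a n x)^[M] (x (some i)) = ψ (x, F0 i)) ∧
    (∀ i ∈ Es, AT (fx a n x) P (x (some i)) ∧ LP (fx a n x) P (x (some i)) = lam i ∧
      ‖(fx a n x)^[P * Ms] (x (some i)) - SP (fx a n x) P (x (some i))‖ ≤ η) ∧
    ∀ i ∈ Es, nu a n P rf i x * dn a n P rf ap i x₂ = nu a n P rf i x₂ * dn a n P rf ap i x}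

/-- Compactness of the leaves (same as `StCPTP`, with two times). -/
def StCPTQ : Prop :=
  StKO0 → StKO1 → StKO2 → StKO3 → StNUD →
  ∀ (a : ℂ) (n P M Ms : ℕ) (B R C₁ R₁ R₃ lam₀ lam₁ r₁ r₂ : ℝ) (ψ φ : PE n × ℂ → ℂ)
    (Es Ee : Finset (Fin n)) (rf : Fin n → Fin n) (ap : Fin n → ℕ) (F0 lam : Fin n → ℂ)
    (xT x₂ : PE n) (n₀ η : ℝ), a ≠ 0 → 1 ≤ n → 0 < P → BO a n B R C₁ R₁ R₃ ψ φ →
    KL a n P B lam₀ lam₁ r₁ r₂ → RFP n Es rf ap →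
    (∀ i ∈ Es, lam₀ ≤ ‖lam i‖ ∧ ‖lam i‖ ≤ lam₁) → (∀ i ∈ Ee, R₃ + C₁ < ‖F0 i‖) →
    {x : PE n | Pool.Agent.H713R3.ZA.Dl a n xT x ≤ n₀} ⊆ ball (0 : PE n) B → η < r₁ →
    IsCompact (LL2 a n P M Ms ψ Es Ee rf ap F0 lam xT n₀ η x₂) ∧
    LL2 a n P M Ms ψ Es Ee rf ap F0 lam xT n₀ η x₂ ⊆ OO a n P M B R₃ Es Ee

/-- Multiples of the period. -/
def StATM : Prop :=
  ∀ (f : ℂ → ℂ) (P k : ℕ) (u : ℂ), Differentiable ℂ f → 0 < P → 0 < k → AT f P u → AT f (P * k) u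

/-- Choice of references. -/
def StREFP : Prop :=
  ∀ (f : ℂ → ℂ) (n P : ℕ) (Es : Finset (Fin n)) (s : Fin n → ℂ), 0 < P →
    (∀ i ∈ Es, f^[P] (s i) = s i) → ∃ (rf : Fin n → Fin n) (ap : Fin n → ℕ), RFP n Es rf ap ∧
      (∀ i ∈ Es, s i = f^[ap i] (s (rf i))) ∧
      ∀ i ∈ Es, ∀ i' ∈ Es, rf i = i → rf i' = i' → i ≠ i' → ∀ b : ℕ, s i' ≠ f^[b] (s i)

/-- Semicontinuity of the bad area in the family. -/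
def StUSCP : Prop :=
  StOPG → StUSCG → ∀ (a : ℂ) (n : ℕ) (x₁ : PE n), a ≠ 0 → 1 ≤ n → ∀ η : ℝ, 0 < η →
    ∃ σ : ℝ, 0 < σ ∧ ∀ x ∈ ball x₁ σ, volume {z : ℂ | ¬ Good (fx a n x) z} ≤
      volume {z : ℂ | ¬ Good (fx a n x₁) z} + ENNReal.ofReal η

/-- The motion near infinity. -/
def StFARP : Prop :=
  StDIC → StASYP → ∀ (a : ℂ) (n N : ℕ) (B R C₁ R₁ R₃ R₇ ρ : ℝ) (ψ φ : PE n × ℂ → ℂ)
    (γ : ℂ → PE n) (U : Set ℂ) (H : ℂ → ℂ → ℂ) (Bd : Set ℂ), a ≠ 0 → 1 ≤ n →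
    BO a n B R C₁ R₁ R₃ ψ φ → R₃ + C₁ ≤ R₇ → RDL (n + 1) (fun t => wv a n (γ t)) ρ U H Bd N →
    (∀ t ∈ ball (0 : ℂ) ρ, γ t ∈ ball (0 : PE n) B) →
    (∀ t ∈ ball (0 : ℂ) ρ, (fam a n (γ t)).coeff n = (fam a n (γ 0)).coeff n) →
    (∀ t ∈ ball (0 : ℂ) ρ, ∀ z : ℂ, R₇ + C₁ < ‖z‖ → z ∈ U ∧ H t z = ψ (γ t, φ (γ 0, z))) →
    Pool.Agent.H713R4.RB.FARN (n + 1) (fun t => wv a n (γ t)) ρ U H N (R₇ + C₁) H ∧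
    ∀ t ∈ ball (0 : ℂ) ρ,
      {z | R₇ + 3 * C₁ < ‖z‖} ⊆ Pool.Agent.H713R4.RB.WN (n + 1) (wv a n (γ t)) (H t '' U) N

/-- The local inequality for the level `N` area. -/
def StLOCP : Prop :=
  StDIC → StKO0 → StKO1 → StKO2 → StKO3 → StCRS → StCRE → StCRB → StRF → StRS → StRL → StASYP →
  StFARP → Pool.Agent.H713R4.RB.StAREA → Pool.Agent.H713R4.RB.StAVG2 →
  Pool.Agent.H713R4.RB.StBAD → StMOTL → StFULLL → StROOT → Pool.Agent.H713R4.RB.StPRO →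
  Pool.Agent.H713R4.RB.StWN → StSTEPL →
  ∀ (a : ℂ) (n P M N : ℕ) (B R C₁ R₁ R₃ R₇ lam₀ lam₁ r₁ r₂ r' τ ρ R₄ R₅ rg c₀ : ℝ) (v : ℂ)
    (ψ φ : PE n × ℂ → ℂ) (Es Ee : Finset (Fin n)) (rf : Fin n → Fin n) (ap : Fin n → ℕ)
    (F0 : Fin n → ℂ) (γ : ℂ → PE n), a ≠ 0 → 1 ≤ n → 0 < P → BO a n B R C₁ R₁ R₃ ψ φ →
    R₃ + C₁ ≤ R₇ → KL a n P B lam₀ lam₁ r₁ r₂ → GD a n P M B R₃ ψ Es Ee rf ap F0 ρ γ →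
    (∀ i ∈ Es, lam₀ ≤ ‖LP (fx a n (γ 0)) P (γ 0 (some i))‖ ∧
      ‖LP (fx a n (γ 0)) P (γ 0 (some i))‖ ≤ lam₁) → 0 < r' → r' < r₁ → 0 < τ →
    (∀ i ∈ Es, ∀ b ≤ P, τ * ‖KP (fx a n (γ 0)) P ((fx a n (γ 0))^[b] (γ 0 (some i)))‖ <
      min r₂ (r' / 4)) →
    R₇ + 3 * C₁ < R₄ → R₄ < R₅ → 0 < c₀ → ball v rg ⊆ {z | R₄ < ‖z‖ ∧ ‖z‖ < R₅} →
    (∀ x ∈ ball (0 : PE n) B, ∀ y ∈ ball (0 : PE n) B,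
      (fam a n x).coeff n = (fam a n y).coeff n →
      Pool.Agent.H713R4.RB.Gain (n + 1) R₄ R₅ v v rg c₀ (wv a n x) (wv a n y)) →
    ∃ r₀ : ℝ, 0 < r₀ ∧ r₀ ≤ ρ ∧ ∀ r : ℝ, 0 < r → r < r₀ → ∀ η : ℝ, 0 < η →
      ∀ q : ℝ → ℝ, Continuous q → ∃ θ : ℝ,
        (volume (BN a n P R₃ R₇ φ Es rf r' τ N (γ (circleMap 0 r θ)))).toReal + q θ <
          (volume (BN a n P R₃ R₇ φ Es rf r' τ N (γ 0))).toReal + η + (2 * Real.pi)⁻¹ *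
            ∫ θ in (0 : ℝ)..(2 * Real.pi),
              (q θ - c₀ * Pool.Agent.H713R3.ZA.Dl a n (γ 0) (γ (circleMap 0 r θ)))

/-- Integral curves of fields which kill the invariants are rigid discs. -/
def StGDP : Prop :=
  StKO0 → StKO1 → StKO2 → StKO3 → StNUD →
  ∀ (a : ℂ) (n P M : ℕ) (B R C₁ R₁ R₃ ρ : ℝ) (ψ φ : PE n × ℂ → ℂ) (Es Ee : Finset (Fin n))
    (rf : Fin n → Fin n) (ap : Fin n → ℕ) (F0 : Fin n → ℂ) (γ γ' : ℂ → PE n), a ≠ 0 → 1 ≤ n →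
    0 < P → BO a n B R C₁ R₁ R₃ ψ φ → RFP n Es rf ap → 0 < ρ →
    (∀ t ∈ ball (0 : ℂ) ρ, HasDerivAt γ (γ' t) t) →
    (∀ t ∈ ball (0 : ℂ) ρ, γ t ∈ OO a n P M B R₃ Es Ee) →
    (∀ t ∈ ball (0 : ℂ) ρ, ∀ i ∈ Es, KP (fx a n (γ t)) P (γ t (some i)) ≠ 0) →
    (∀ t ∈ ball (0 : ℂ) ρ, ∀ i ∈ Es,
      dn a n P rf ap i (γ t) * fderiv ℂ (nu a n P rf i) (γ t) (γ' t) -
        nu a n P rf i (γ t) * fderiv ℂ (dn a n P rf ap i) (γ t) (γ' t) = 0) →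
    (∀ t ∈ ball (0 : ℂ) ρ, ∀ i ∈ Ee,
      fderiv ℂ (fun x : PE n => φ (x, (fx a n x)^[M] (x (some i)))) (γ t) (γ' t) = 0) →
    (∀ t ∈ ball (0 : ℂ) ρ, fderiv ℂ (cf a n n) (γ t) (γ' t) = 0) →
    (∀ i ∈ Ee, (fx a n (γ 0))^[M] (γ 0 (some i)) = ψ (γ 0, F0 i) ∧ R₃ < ‖F0 i‖) →
    (∀ t ∈ ball (0 : ℂ) ρ, ∀ i ∈ Es, SP (fx a n (γ t)) P (γ t (some i)) =
      (fx a n (γ t))^[ap i] (SP (fx a n (γ t)) P (γ t (some (rf i))))) →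
    (∀ t ∈ ball (0 : ℂ) ρ, ∀ i ∈ Es, ∀ i' ∈ Es, rf i = i → rf i' = i' → i ≠ i' → ∀ b : ℕ,
      SP (fx a n (γ t)) P (γ t (some i')) ≠
        (fx a n (γ t))^[b] (SP (fx a n (γ t)) P (γ t (some i)))) →
    (∀ l : Fin n, l ∉ Es → l ∉ Ee → ¬ Good (fx a n (γ 0)) (γ 0 (some l))) →
    GD a n P M B R₃ ψ Es Ee rf ap F0 ρ γ ∧
    ∀ t ∈ ball (0 : ℂ) ρ, ∀ i ∈ Es, nu a n P rf i (γ t) * dn a n P rf ap i (γ 0) =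
      nu a n P rf i (γ 0) * dn a n P rf ap i (γ t)

end Pool.Agent.H713R5.QJ
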