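import Mathlib
import Pool.Agent.H713R5.QJ.Defs3
import Pool.Agent.H713R4.RB.Defs2
import Pool.Agent.H713R3.ZA.Core

set_option autoImplicit false

open Topology Filter Metric Set Polynomial MeasureTheory
open Pool.Agent.H713R3.ZA

namespace Pool.Agent.H713R5.QJ

theorem clm_sum {n : ℕ} (D : PE n →L[ℂ] ℂ) (v : PE n) :
    ∑ k, D (fun l => if k = l then 1 else 0) * v k = D v := by
  have := LinearMap.pi_apply_eq_sum_univ (D : PE n →ₗ[ℂ] ℂ) v
  simp only [ContinuousLinearMap.coe_coe, smul_eq_mul] at this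
  rw [this]
  exact Finset.sum_congr rfl fun k _ => mul_comm _ _

/-- A holomorphic field killed by `n` holomorphic covector fields. -/
theorem exists_field (hCROSS : Pool.Agent.H713R4.RB.StCROSS) {n : ℕ} {Ω : Set (PE n)}
    (_hΩo : IsOpen Ω) (hne : Ω.Nonempty) (D : Fin n → PE n → (PE n →L[ℂ] ℂ))
    (hD : ∀ i (v : PE n), DifferentiableOn ℂ (fun x => D i x v) Ω) :
    ∃ X : PE n → PE n, DifferentiableOn ℂ X Ω ∧ (∃ x ∈ Ω, X x ≠ 0) ∧
      ∀ x ∈ Ω, ∀ i, D i x (X x) = 0 := by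
  classical
  set A : PE n → Fin n → Option (Fin n) → ℂ :=
    fun x i k => D i x (fun l => if k = l then 1 else 0) with hA
  have hAd : DifferentiableOn ℂ A Ω := by
    rw [differentiableOn_pi]
    intro i
    rw [differentiableOn_pi]
    intro k
    exact hD i _
  -- a point of maximal rank
  have hbd : ∀ x, (Matrix.of (A x)).rank ≤ n := by
    intro x
    have := Matrix.rank_le_card_height (Matrix.of (A x))
    simpa using this
  obtain ⟨x₀, hx₀, hmax⟩ : ∃ x₀ ∈ Ω, ∀ x ∈ Ω, (Matrix.of (A x)).rank ≤ (Matrix.of (A x₀)).rank := by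
    obtain ⟨y, hy⟩ := hne
    have hfin : ((fun x => (Matrix.of (A x)).rank) '' Ω).Finite :=
      (Set.finite_Iic n).subset (by rintro _ ⟨x, _, rfl⟩; exact hbd x)
    obtain ⟨m, ⟨x₀, hx₀, rfl⟩, h2⟩ := hfin.exists_maximal ⟨_, y, hy, rfl⟩
    refine ⟨x₀, hx₀, fun x hx => ?_⟩
    by_contra hcon
    push Not at hcon
    have := h2 ⟨x, hx, rfl⟩ hcon.le
    exact absurd this (not_le.mpr hcon)
  obtain ⟨X, k, hXd, hXk, hX0⟩ := hCROSS (Fin n) (Option (Fin n)) (A '' Ω) (A x₀) ⟨x₀, hx₀, rfl⟩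
    (by rintro _ ⟨x, hx, rfl⟩; exact hmax x hx)
    (lt_of_le_of_lt (hbd x₀) (by simp))
  refine ⟨fun x => X (A x), hXd.comp_differentiableOn hAd, ⟨x₀, hx₀, fun h => hXk (by
    have h' : X (A x₀) = 0 := h
    rw [h']; rfl)⟩, ?_⟩
  intro x hx i
  have h1 := hX0 (A x) ⟨x, hx, rfl⟩ i
  rw [← clm_sum]
  exact h1

end Pool.Agent.H713R5.QJ
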