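import Mathlib
import Pool.Agent.H713R5.QJ.Core1

set_option autoImplicit false

open Topology Filter Metric Set Polynomial MeasureTheory
open Pool.Agent.H713R3.ZA

namespace Pool.Agent.H713R5.QJ

/-- all the lemmas -/
structure HH : Prop where
  bsum : StBSUM
  inv : StINV
  iden : StIDEN
  flow : StFLOW
  sep : StSEP
  ndeg : StNDEG
  root : StROOT
  cross : Pool.Agent.H713R4.RB.StCROSS
  area : Pool.Agent.H713R4.RB.StAREA
  avg2 : Pool.Agent.H713R4.RB.StAVG2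
  rbad : Pool.Agent.H713R4.RB.StBAD
  pro : Pool.Agent.H713R4.RB.StPRO
  wn : Pool.Agent.H713R4.RB.StWN
  ko0 : StKO0
  ko1 : StKO1
  ko2 : StKO2
  ko3 : StKO3
  kbp : StKBP
  fatp : StFATP
  genp : StGENP
  nud : StNUD
  clo : StCLO
  aprp : StAPRP
  crs : StCRS
  cre : StCRE
  crb : StCRB
  rf : StRF
  rs : StRS
  rl : StRL
  asyp : StASYP
  motl : StMOTL
  fulll : StFULLL
  stepl : StSTEPL
  dic : StDIC
  gainp : StGAINP
  lscp : StLSCP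
  ninf : StNINF
  bddp : StBDDP
  mina : StMINA
  cptq : StCPTQ
  atm : StATM
  refp : StREFP
  uscp : StUSCP
  farp : StFARP
  locp : StLOCP
  gdp : StGDP
  opg : StOPG
  uscg : StUSCG

theorem fx_differentiable (a : ℂ) (n : ℕ) (x : PE n) : Differentiable ℂ (fx a n x) := by
  intro z
  exact (fam a n x).differentiable z

/-- escaping points are not attracted -/
theorem not_at_of_esc {f : ℂ → ℂ} {u : ℂ} {P : ℕ} (hP : 0 < P)
    (h : Tendsto (fun k : ℕ => ‖f^[k] u‖) atTop atTop) : ¬ AT f P u := by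
  rintro ⟨z, -, -, h2⟩
  have h3 : Tendsto (fun k : ℕ => P * k) atTop atTop :=
    tendsto_id.const_mul_atTop' hP
  have h4 := h.comp h3
  exact not_tendsto_atTop_of_tendsto_nhds h2.norm h4

theorem esc_of_large {a : ℂ} {n : ℕ} {B R C₁ R₁ R₃ : ℝ} {ψ φ : PE n × ℂ → ℂ}
    (hb : BO a n B R C₁ R₁ R₃ ψ φ) {x : PE n} (hx : x ∈ ball (0 : PE n) B) {z : ℂ} {k : ℕ}
    (h : R ≤ ‖(fx a n x)^[k] z‖) : Tendsto (fun k : ℕ => ‖(fx a n x)^[k] z‖) atTop atTop :=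
  not_not.mp (not_mem_KJ_of_large hb hx h)

/-- persistence of a relation on a connected set -/
theorem persist {V W : Type} [TopologicalSpace V] {O Ω : Set V} {F G : V → W} {x₀ : V}
    (h1 : IsOpen {x | x ∈ O ∧ F x = G x}) (h2 : IsOpen {x | x ∈ O ∧ F x ≠ G x})
    (hΩ : IsPreconnected Ω) (hΩO : Ω ⊆ O) (hx₀ : x₀ ∈ Ω) :
    (F x₀ = G x₀ → ∀ x ∈ Ω, F x = G x) ∧ (F x₀ ≠ G x₀ → ∀ x ∈ Ω, F x ≠ G x) := by
  have hdis : Disjoint {x | x ∈ O ∧ F x = G x} {x | x ∈ O ∧ F x ≠ G x} := by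
    rw [Set.disjoint_left]
    rintro x ⟨-, h⟩ ⟨-, h'⟩
    exact h' h
  have hcov : Ω ⊆ {x | x ∈ O ∧ F x = G x} ∪ {x | x ∈ O ∧ F x ≠ G x} := by
    intro x hx
    by_cases h : F x = G x
    · exact Or.inl ⟨hΩO hx, h⟩
    · exact Or.inr ⟨hΩO hx, h⟩
  constructor
  · intro h x hx
    exact (hΩ.subset_left_of_subset_union h1 h2 hdis hcov ⟨x₀, hx₀, hΩO hx₀, h⟩ hx).2
  · intro h x hx
    exact (hΩ.subset_right_of_subset_union h1 h2 hdis hcov ⟨x₀, hx₀, hΩO hx₀, h⟩ hx).2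

/-- a component is relatively closed -/
theorem diff_open {V : Type} [NormedAddCommGroup V] [NormedSpace ℂ V] {O : Set V} (hO : IsOpen O)
    (x₀ : V) : IsOpen (O \ connectedComponentIn O x₀) := by
  rw [isOpen_iff_mem_nhds]
  rintro x ⟨hxO, hxΩ⟩
  have : NormedSpace ℝ V := NormedSpace.restrictScalars ℝ ℂ V
  have h2 : IsOpen (connectedComponentIn O x) := hO.connectedComponentIn
  filter_upwards [h2.mem_nhds (mem_connectedComponentIn hxO)] with y hy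
  refine ⟨connectedComponentIn_subset O x hy, fun hyΩ => hxΩ ?_⟩
  have h3 := connectedComponentIn_eq hy
  have h4 := connectedComponentIn_eq hyΩ
  rw [h4, ← h3]
  exact mem_connectedComponentIn hxO

/-- the sinks have a definite modulus -/
theorem exists_lam {ι : Type} (E : Finset ι) (lam : ι → ℂ) (h : ∀ i ∈ E, lam i ≠ 0 ∧ ‖lam i‖ < 1) :
    ∃ lam₀ lam₁ : ℝ, 0 < lam₀ ∧ 0 < lam₁ ∧ lam₁ < 1 ∧ ∀ i ∈ E, lam₀ ≤ ‖lam i‖ ∧ ‖lam i‖ ≤ lam₁ := by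
  have h1 : ∀ᶠ l : ℝ in 𝓝[>] 0, 0 < l ∧ ∀ i ∈ E, l ≤ ‖lam i‖ := by
    apply (eventually_mem_nhdsWithin).and
    rw [Filter.eventually_all_finset]
    intro i hi
    have h2 : 0 < ‖lam i‖ := norm_pos_iff.mpr (h i hi).1
    exact ((Iio_mem_nhds h2 : Iio ‖lam i‖ ∈ 𝓝 (0 : ℝ)) |> mem_nhdsWithin_of_mem_nhds |>
      fun h3 => by filter_upwards [h3] with l hl using (le_of_lt hl))
  have h1' : ∀ᶠ l : ℝ in 𝓝[<] 1, (0 < l ∧ l < 1) ∧ ∀ i ∈ E, ‖lam i‖ ≤ l := by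
    have h4 : ∀ᶠ l : ℝ in 𝓝[<] 1, 0 < l := mem_nhdsWithin_of_mem_nhds (Ioi_mem_nhds one_pos)
    have h5 : ∀ᶠ l : ℝ in 𝓝[<] 1, l < 1 := eventually_mem_nhdsWithin
    refine (h4.and h5).and ?_
    rw [Filter.eventually_all_finset]
    intro i hi
    have h3 : Ioi ‖lam i‖ ∈ 𝓝[<] (1 : ℝ) := mem_nhdsWithin_of_mem_nhds (Ioi_mem_nhds (h i hi).2)
    filter_upwards [h3] with l hl using (le_of_lt hl)
  obtain ⟨l₀, hl₀, hl₀'⟩ := h1.exists
  obtain ⟨l₁, ⟨hl₁, hl₁'⟩, hl₁''⟩ := h1'.exists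
  exact ⟨l₀, l₁, hl₀, hl₁, hl₁', fun i hi => ⟨hl₀' i hi, hl₁'' i hi⟩⟩

end Pool.Agent.H713R5.QJ
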