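import Mathlib
import Pool.Agent.H713R5.QJ.Core3

set_option autoImplicit false

open Topology Filter Metric Set Polynomial MeasureTheory
open Pool.Agent.H713R3.ZA

namespace Pool.Agent.H713R5.QJ

theorem BN_sub {a : ℂ} {n P N : ℕ} {B R C₁ R₁ R₃ R₇ r' τ : ℝ} {ψ φ : PE n × ℂ → ℂ}
    (hb : BO a n B R C₁ R₁ R₃ ψ φ) (hR₇ : R₃ + C₁ ≤ R₇) {Es : Finset (Fin n)} {rf : Fin n → Fin n}
    {x : PE n} (hx : x ∈ ball (0 : PE n) B) :
    BN a n P R₃ R₇ φ Es rf r' τ N x ⊆ closedBall 0 (R₇ + C₁) := by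
  intro z hz
  rw [mem_closedBall_zero_iff]
  by_contra hcon
  push Not at hcon
  apply hz
  left
  have h1 := hb.hR; have h2 := hb.hC; have h3 := hb.hR₁; have h4 := hb.hR₃
  have h5 : ‖z‖ ≤ ‖(fx a n x)^[N] z‖ := iter_large hb hx (by linarith) N
  have h6 : R₃ < ‖(fx a n x)^[N] z‖ := by linarith
  refine ⟨h6, ?_⟩
  have h7 := hb.φc x hx _ h6
  have h8 := norm_sub_norm_le ((fx a n x)^[N] z) (φ (x, (fx a n x)^[N] z))
  rw [norm_sub_rev] at h8
  linarith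

theorem BN_fin {a : ℂ} {n P N : ℕ} {B R C₁ R₁ R₃ R₇ r' τ : ℝ} {ψ φ : PE n × ℂ → ℂ}
    (hb : BO a n B R C₁ R₁ R₃ ψ φ) (hR₇ : R₃ + C₁ ≤ R₇) {Es : Finset (Fin n)} {rf : Fin n → Fin n}
    {x : PE n} (hx : x ∈ ball (0 : PE n) B) :
    volume (BN a n P R₃ R₇ φ Es rf r' τ N x) ≠ ⊤ :=
  ((measure_mono (BN_sub hb hR₇ hx)).trans_lt measure_closedBall_lt_top).ne

theorem A0_Sk (H : HH) {a : ℂ} {n P : ℕ} (hP : 0 < P) {x : PE n} {u : ℂ}
    (h : AT (fx a n x) P u) : Sk (fx a n x) P u (SP (fx a n x) P u) :=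
  (H.ko0 (fx a n x) P (fx_differentiable a n x) hP).2.1 u h

/-- strict entry -/
theorem strict_entry (H : HH) {a : ℂ} {n P Ms : ℕ} {B lam₀ lam₁ r₁ r₂ CK η : ℝ} (ha : a ≠ 0)
    (hn : 1 ≤ n) (hP : 0 < P) (hKL : KL a n P B lam₀ lam₁ r₁ r₂) {p : PE n}
    (hp : p ∈ ball (0 : PE n) B) {u : ℂ} (hA : (p, u) ∈ A0 a n P)
    (h0 : lam₀ ≤ ‖LP (fx a n p) P u‖) (h1 : ‖LP (fx a n p) P u‖ ≤ lam₁) (hη : η < r₁)
    (he : ‖(fx a n p)^[P * Ms] u - SP (fx a n p) P u‖ ≤ η)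
    (hk : ‖KP (fx a n p) P u‖ ≤ CK) (hlam : lam₁ ^ Ms * CK < 7 / 8 * η) :
    ‖(fx a n p)^[P * Ms] u - SP (fx a n p) P u‖ < η := by
  obtain ⟨-, hK⟩ := H.ko2 H.ko0 H.ko1 H.ko3 a n P ha hn hP
  have hCK : 0 ≤ CK := (norm_nonneg _).trans hk
  obtain ⟨hS1, hS2, hS3⟩ := A0_Sk H hP hA.1
  -- KP of the iterates
  have hit : ∀ m : ℕ, (p, (fx a n p)^[P * m] u) ∈ A0 a n P ∧
      SP (fx a n p) P ((fx a n p)^[P * m] u) = SP (fx a n p) P u ∧
      KP (fx a n p) P ((fx a n p)^[P * m] u) = LP (fx a n p) P u ^ m * KP (fx a n p) P u := by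
    have hstep : ∀ y : ℂ, (p, y) ∈ A0 a n P → ∀ m : ℕ, (p, (fx a n p)^[m] y) ∈ A0 a n P := by
      intro y hy m
      induction m with
      | zero => exact hy
      | succ m ih =>
        rw [Function.iterate_succ_apply']
        exact (hK p _ ih).2.1
    intro m
    induction m with
    | zero => exact ⟨hA, rfl, by simp⟩
    | succ m ih =>
      obtain ⟨i1, i2, i3⟩ := ih
      have e1 : (fx a n p)^[P * (m + 1)] u = (fx a n p)^[P] ((fx a n p)^[P * m] u) := by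
        rw [← Function.iterate_add_apply, Nat.mul_succ, Nat.add_comm]
      have e2 : SP (fx a n p) P ((fx a n p)^[P * (m + 1)] u) = SP (fx a n p) P u := by
        apply (H.ko0 (fx a n p) P (fx_differentiable a n p) hP).1
        refine ⟨hS1, hS2, ?_⟩
        have e3 : (fun k : ℕ => (fx a n p)^[P * k] ((fx a n p)^[P * (m + 1)] u)) =
            fun k : ℕ => (fx a n p)^[P * (k + (m + 1))] u := by
          funext k
          rw [← Function.iterate_add_apply, ← Nat.mul_add]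
        rw [e3]
        exact hS3.comp (tendsto_add_atTop_nat (m + 1))
      refine ⟨hstep u hA _, e2, ?_⟩
      rw [e1, (hK p _ i1).2.2.2.2, i3]
      have e4 : LP (fx a n p) P ((fx a n p)^[P * m] u) = LP (fx a n p) P u := by
        unfold LP; rw [i2]
      rw [e4]; ring
  obtain ⟨j1, j2, j3⟩ := hit Ms
  set z := (fx a n p)^[P * Ms] u with hz
  set s := SP (fx a n p) P u with hs
  have hzs : z ∈ ball s r₁ := by
    rw [mem_ball, dist_eq_norm]; linarith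
  have hr₁ := hKL.r1
  have hc := hKL.close p hp s hS1 h0 h1 z hzs s (mem_ball_self hr₁)
  rw [hKL.zero p hp s hS1 h0 h1, sub_zero] at hc
  have hn1 : ‖KP (fx a n p) P z‖ ≤ lam₁ ^ Ms * CK := by
    rw [j3, norm_mul, norm_pow]
    exact mul_le_mul (pow_le_pow_left₀ (norm_nonneg _) h1 _) hk (norm_nonneg _)
      (pow_nonneg ((norm_nonneg _).trans h1) _)
  have h5 := norm_sub_norm_le (z - s) (KP (fx a n p) P z)
  rw [norm_sub_rev (KP (fx a n p) P z) (z - s)] at hc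
  linarith

end Pool.Agent.H713R5.QJ
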