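import Mathlib
import Pool.Agent.H713R5.QJ.Core4

set_option autoImplicit false

open Topology Filter Metric Set Polynomial MeasureTheory
open Pool.Agent.H713R3.ZA

namespace Pool.Agent.H713R5.QJ

theorem prod_diff {V ι : Type} [NormedAddCommGroup V] [NormedSpace ℂ V] [DecidableEq ι]
    (s : Finset ι) (g : ι → V → ℂ) {Ω : Set V} (h : ∀ i ∈ s, DifferentiableOn ℂ (g i) Ω) :
    DifferentiableOn ℂ (fun x => ∏ i ∈ s, g i x) Ω := by
  induction s using Finset.induction_on with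
  | empty => simp only [Finset.prod_empty]; exact differentiableOn_const 1
  | insert i s hi ih =>
    simp only [Finset.prod_insert hi]
    exact (h i (Finset.mem_insert_self i s)).mul
      (ih fun k hk => h k (Finset.mem_insert_of_mem hk))

/-- the sphere -/
theorem exists_sphere (H : HH) {a : ℂ} (ha : a ≠ 0) {n : ℕ} (hn : 1 ≤ n) (xT : PE n) {ρ₀ w c₀ : ℝ}
    (hρ₀ : 0 < ρ₀) (hw : 0 < w) (hc₀ : 0 < c₀) :
    ∃ ρ₂ n₀ : ℝ, 0 < ρ₂ ∧ ρ₂ < ρ₀ ∧ 0 < n₀ ∧ n₀ < 1 ∧ c₀ * n₀ ≤ w ∧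
      ∀ x ∈ sphere xT ρ₂, n₀ ≤ Dl a n xT x := by
  obtain ⟨ρs, hρs, hsep⟩ := H.sep n a xT hn ha
  set ρ₂ : ℝ := min (ρ₀ / 2) ρs with hρ₂
  have hρ₂0 : 0 < ρ₂ := lt_min (by positivity) hρs
  obtain ⟨n₁, hn₁, hsph⟩ : ∃ n₀ : ℝ, 0 < n₀ ∧ ∀ x ∈ sphere xT ρ₂, n₀ ≤ Dl a n xT x := by
    apply (isCompact_sphere xT ρ₂).exists_forall_le' (Dl_continuous a n xT).continuousOn
    intro x hx
    have h1 := Dl_nonneg a n xT x
    rcases h1.lt_or_eq with h2 | h2
    · exact h2
    · exfalso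
      rw [mem_sphere, dist_eq_norm] at hx
      have h3 : fam a n x = fam a n xT := by
        ext j
        by_cases hj : j < n + 1 + 1
        · have h4 := (Finset.sum_eq_zero_iff_of_nonneg
            (fun (j : ℕ) _ => by positivity)).mp h2.symm j (Finset.mem_range.mpr hj)
          have h5 : ‖(fam a n x).coeff j - (fam a n xT).coeff j‖ = 0 := by
            exact pow_eq_zero_iff (two_ne_zero) |>.mp h4
          exact sub_eq_zero.mp (norm_eq_zero.mp h5)
        · rw [coeff_eq_zero_of_natDegree_lt (by have := natDegree_fam_le a n x; omega),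
            coeff_eq_zero_of_natDegree_lt (by have := natDegree_fam_le a n xT; omega)]
      have h4 := hsep x (by rw [hx]; exact min_le_right _ _) h3
      rw [h4, sub_self, norm_zero] at hx
      linarith
  refine ⟨ρ₂, min n₁ (min (1 / 2) (w / c₀)), hρ₂0, (min_le_left _ _).trans_lt (by linarith),
    lt_min hn₁ (lt_min (by norm_num) (by positivity)), ?_, ?_, fun x hx => (min_le_left _ _).trans (hsph x hx)⟩
  · exact ((min_le_right _ _).trans (min_le_left _ _)).trans_lt (by norm_num)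
  · have : min n₁ (min (1 / 2) (w / c₀)) ≤ w / c₀ := (min_le_right _ _).trans (min_le_right _ _)
    calc c₀ * min n₁ (min (1 / 2) (w / c₀)) ≤ c₀ * (w / c₀) := by gcongr
      _ = w := by field_simp

/-- the rows -/
noncomputable def Dr (a : ℂ) (n P M : ℕ) (φ : PE n × ℂ → ℂ) (Es Ee : Finset (Fin n))
    (rf : Fin n → Fin n) (ap : Fin n → ℕ) (j₀ : Fin n) (i : Fin n) (x : PE n) : PE n →L[ℂ] ℂ :=
  if i ∈ Es then dn a n P rf ap i x • fderiv ℂ (nu a n P rf i) x -
      nu a n P rf i x • fderiv ℂ (dn a n P rf ap i) x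
  else if i ∈ Ee then fderiv ℂ (fun x : PE n => φ (x, (fx a n x)^[M] (x (some i)))) x
  else if i = j₀ then fderiv ℂ (cf a n n) x else 0

theorem Dr_diff (H : HH) {a : ℂ} {n P M : ℕ} {B R C₁ R₁ R₃ : ℝ} {ψ φ : PE n × ℂ → ℂ}
    {Es Ee : Finset (Fin n)} {rf : Fin n → Fin n} {ap : Fin n → ℕ} {j₀ : Fin n} (ha : a ≠ 0)
    (hn : 1 ≤ n) (hP : 0 < P) (hb : BO a n B R C₁ R₁ R₃ ψ φ) (hRFP : RFP n Es rf ap)
    {Ω : Set (PE n)} (hΩo : IsOpen Ω) (hΩO : Ω ⊆ OO a n P M B R₃ Es Ee) (i : Fin n) (v : PE n) :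
    DifferentiableOn ℂ (fun x => Dr a n P M φ Es Ee rf ap j₀ i x v) Ω := by
  obtain ⟨-, hnud⟩ := H.nud H.ko0 H.ko1 H.ko2 H.ko3 a n P M B R₃ Es Ee rf ap ha hn hP hRFP
  unfold Dr
  by_cases h1 : i ∈ Es
  · simp only [if_pos h1]
    obtain ⟨e1, e2, -, -⟩ := hnud i h1
    have f1 := e1.mono hΩO
    have f2 := e2.mono hΩO
    have g1 := Pool.Agent.Helper540.differentiableOn_fderiv_apply hΩo f1 v
    have g2 := Pool.Agent.Helper540.differentiableOn_fderiv_apply hΩo f2 v
    have g3 := (f2.mul g1).sub (f1.mul g2)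
    exact g3
  · by_cases h2 : i ∈ Ee
    · simp only [if_neg h1, if_pos h2]
      have f1 : DifferentiableOn ℂ (fun x : PE n => φ (x, (fx a n x)^[M] (x (some i)))) Ω := by
        have h3 : DifferentiableOn ℂ
            (fun x : PE n => ((x, (fx a n x)^[M] (x (some i))) : PE n × ℂ)) Ω :=
          differentiableOn_id.prodMk (crit_diff a n M i).differentiableOn
        exact hb.φd.comp h3 (fun x hx => ⟨(hΩO hx).1, (hΩO hx).2.2 i h2⟩)
      exact Pool.Agent.Helper540.differentiableOn_fderiv_apply hΩo f1 v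
    · by_cases h3 : i = j₀
      · simp only [if_neg h1, if_neg h2, if_pos h3]
        exact Pool.Agent.Helper540.differentiableOn_fderiv_apply hΩo (cf_diff a n n).differentiableOn v
      · simp only [if_neg h1, if_neg h2, if_neg h3]
        exact differentiableOn_const 0

end Pool.Agent.H713R5.QJ
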