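import Mathlib
import Pool.Agent.H713R5.QJ.Core5

set_option autoImplicit false

open Topology Filter Metric Set Polynomial MeasureTheory
open Pool.Agent.H713R3.ZA

namespace Pool.Agent.H713R5.QJ

theorem coreQ (H : HH) {a : ℂ} (ha : a ≠ 0) {n : ℕ} (hn : 1 ≤ n) (xT : PE n)
    {E₀ : Finset (Fin n)} {j₀ : Fin n} (hj₀ : j₀ ∉ E₀)
    (hPE : ∀ ε : ℝ, 0 < ε → ∃ x : PE n, ‖x - xT‖ < ε ∧
      volume {z : ℂ | ¬ Good (fx a n x) z} ≤ ENNReal.ofReal ε ∧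
      ∀ i ∈ E₀, Good (fx a n x) (x (some i)))
    {ρ₀ w : ℝ} (hρ₀ : 0 < ρ₀) (hw : 0 < w)
    (hmax : ∀ x : PE n, ‖x - xT‖ < ρ₀ →
      volume {z : ℂ | ¬ Good (fx a n x) z} ≤ ENNReal.ofReal w →
      (∀ i ∈ E₀, Good (fx a n x) (x (some i))) →
      ∀ j, j ∉ E₀ → ¬ Good (fx a n x) (x (some j))) : False := by
  classical
  obtain ⟨B, hB0, hDB⟩ := H.bddp a n xT ha hn
  obtain ⟨R, C₁, R₁, R₃, ψ, φ, hb⟩ := exists_boett H.bsum H.inv ha hn hB0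
  have hb1 := hb.hR; have hb2 := hb.hC; have hb3 := hb.hR₁; have hb4 := hb.hR₃
  set R₇ : ℝ := R₃ + C₁ with hR₇
  obtain ⟨R₄, R₅, rg, c₀, v, hR₄, hR₄0, hR₅, hrg, hc₀, hv, hgain⟩ :=
    H.gainp H.dic a n B (R₇ + 3 * C₁) ha hn hB0
  obtain ⟨ρ₂, n₀, hρ₂0, hρ₂ρ, hn₀, hn₀1, hn₀w, hsph⟩ := exists_sphere H ha hn xT hρ₀ hw hc₀
  set a₀ : ℝ := c₀ * n₀ / 16 with ha₀
  have ha₀0 : 0 < a₀ := by positivity
  -- neighbourhood of good starting points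
  set G₁ : Set (PE n) := ball xT ρ₂ ∩ {x | c₀ / 2 * Dl a n xT x < a₀} with hG₁
  have hG₁o : IsOpen G₁ := isOpen_ball.inter
    (isOpen_lt (continuous_const.mul (Dl_continuous a n xT)) continuous_const)
  have hxTG : xT ∈ G₁ := by
    refine ⟨mem_ball_self hρ₂0, ?_⟩
    have h1 : Dl a n xT xT = 0 := by simp [Dl]
    show c₀ / 2 * Dl a n xT xT < a₀
    rw [h1, mul_zero]; exact ha₀0
  have hG₁D : ∀ x ∈ G₁, Dl a n xT x < 1 := by
    rintro x ⟨-, h1⟩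
    have h2 : c₀ / 2 * Dl a n xT x < c₀ * n₀ / 16 := h1
    by_contra hcon
    push Not at hcon
    nlinarith
  obtain ⟨ε₁, hε₁, hεG⟩ := Metric.isOpen_iff.mp hG₁o xT hxTG
  obtain ⟨x₁, hx₁, hx₁v, hx₁E⟩ := hPE (min ε₁ (a₀ / 4)) (lt_min hε₁ (by positivity))
  have hx₁G : x₁ ∈ G₁ :=
    hεG (by rw [mem_ball, dist_eq_norm]; exact hx₁.trans_le (min_le_left _ _))
  -- escaping and attracted points
  set Ee : Finset (Fin n) := E₀.filter
    (fun i => Tendsto (fun k : ℕ => ‖(fx a n x₁)^[k] (x₁ (some i))‖) atTop atTop) with hEe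
  set Es : Finset (Fin n) := E₀.filter
    (fun i => ¬ Tendsto (fun k : ℕ => ‖(fx a n x₁)^[k] (x₁ (some i))‖) atTop atTop) with hEs
  have hE : ∀ i, i ∈ E₀ ↔ i ∈ Es ∨ i ∈ Ee := by
    intro i
    simp only [hEe, hEs, Finset.mem_filter]
    tauto
  have hj₀s : j₀ ∉ Es := fun h => hj₀ ((hE j₀).mpr (Or.inl h))
  have hj₀e : j₀ ∉ Ee := fun h => hj₀ ((hE j₀).mpr (Or.inr h))
  have hse : ∀ i ∈ Ee, i ∉ Es := by
    intro i hi hi'
    exact (Finset.mem_filter.mp hi').2 (Finset.mem_filter.mp hi).2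
  -- the common period
  have hper : ∀ i : Fin n, ∃ P : ℕ, 0 < P ∧ (i ∈ Es → AT (fx a n x₁) P (x₁ (some i))) := by
    intro i
    by_cases hi : i ∈ Es
    · obtain ⟨h1, h2⟩ := Finset.mem_filter.mp hi
      rcases hx₁E i h1 with h3 | ⟨P, hP, h3⟩
      · exact absurd h3 h2
      · exact ⟨P, hP, fun _ => h3⟩
    · exact ⟨1, one_pos, fun h => absurd h hi⟩
  choose Pf hPf hPf' using hper
  set P : ℕ := ∏ i, Pf i with hPdef
  have hP : 0 < P := Finset.prod_pos fun i _ => hPf i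
  have hx₁A : ∀ i ∈ Es, AT (fx a n x₁) P (x₁ (some i)) := by
    intro i hi
    obtain ⟨k, hk⟩ : Pf i ∣ P := Finset.dvd_prod_of_mem Pf (Finset.mem_univ i)
    rw [hk]
    apply H.atm _ _ _ _ (fx_differentiable a n x₁) (hPf i) _ (hPf' i hi)
    rcases Nat.eq_zero_or_pos k with h0 | h0
    · rw [h0, mul_zero] at hk; omega
    · exact h0
  -- the time `M`
  obtain ⟨M, hM⟩ : ∃ M : ℕ, ∀ i ∈ Ee, R₃ + 2 * C₁ < ‖(fx a n x₁)^[M] (x₁ (some i))‖ := by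
    have h1 : ∀ᶠ M : ℕ in atTop, ∀ i ∈ Ee, R₃ + 2 * C₁ < ‖(fx a n x₁)^[M] (x₁ (some i))‖ := by
      rw [Filter.eventually_all_finset]
      intro i hi
      exact (Finset.mem_filter.mp hi).2.eventually (eventually_gt_atTop _)
    exact h1.exists
  obtain ⟨σ, hσ, husc⟩ := H.uscp H.opg H.uscg a n x₁ ha hn (a₀ / 4) (by positivity)
  set W : Set (PE n) := (G₁ ∩ ball x₁ σ) ∩
    ⋂ i ∈ Ee, {x : PE n | R₃ + 2 * C₁ < ‖(fx a n x)^[M] (x (some i))‖} with hW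
  have hWo : IsOpen W := by
    apply (hG₁o.inter isOpen_ball).inter
    apply isOpen_biInter_finset
    intro i _
    exact isOpen_lt continuous_const (crit_cont a n M i).norm
  have hx₁W : x₁ ∈ W := by
    refine ⟨⟨hx₁G, mem_ball_self hσ⟩, ?_⟩
    simp only [mem_iInter]
    exact hM
  have hWM : ∀ x ∈ W, ∀ i ∈ Ee, R₃ + 2 * C₁ < ‖(fx a n x)^[M] (x (some i))‖ := by
    rintro x ⟨-, h⟩ i hi
    exact mem_iInter₂.mp h i hi
  have hWv : ∀ x ∈ W, volume {z : ℂ | ¬ Good (fx a n x) z} ≤ ENNReal.ofReal (a₀ / 2) := by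
    rintro x ⟨⟨-, h⟩, -⟩
    have h1 : volume {z : ℂ | ¬ Good (fx a n x₁) z} ≤ ENNReal.ofReal (a₀ / 4) :=
      hx₁v.trans (ENNReal.ofReal_le_ofReal (min_le_right _ _))
    calc volume {z : ℂ | ¬ Good (fx a n x) z}
        ≤ volume {z : ℂ | ¬ Good (fx a n x₁) z} + ENNReal.ofReal (a₀ / 4) := husc x h
      _ ≤ ENNReal.ofReal (a₀ / 4) + ENNReal.ofReal (a₀ / 4) := by gcongr
      _ = ENNReal.ofReal (a₀ / 2) := by
        rw [← ENNReal.ofReal_add (by positivity) (by positivity)]; congr 1; ring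
  obtain ⟨ε₂, hε₂, hεW⟩ := Metric.isOpen_iff.mp hWo x₁ hx₁W
  obtain ⟨y₁, hy₁, hy₁A⟩ := H.genp H.ko0 H.ko1 H.ko2 H.ko3 a n P ha hn hP x₁ Es hx₁A ε₂ hε₂
  have hy₁W : y₁ ∈ W := hεW hy₁
  have hWB : ∀ x ∈ W, x ∈ ball (0 : PE n) B := fun x hx => hDB x (hG₁D x hx.1.1).le
  -- references
  obtain ⟨rf, ap, hRFP, hrel₁, hdis₁⟩ := H.refp (fx a n y₁) n P Es
    (fun i => SP (fx a n y₁) P (y₁ (some i))) hP
    (fun i hi => (A0_Sk H hP (hy₁A i hi).1.1).1)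
  -- the domain
  set O : Set (PE n) := OO a n P M B R₃ Es Ee with hO
  obtain ⟨hOo, hnud⟩ := H.nud H.ko0 H.ko1 H.ko2 H.ko3 a n P M B R₃ Es Ee rf ap ha hn hP hRFP
  have hy₁O : y₁ ∈ O := ⟨hWB y₁ hy₁W, fun i hi => (hy₁A i hi).1, fun i hi => by
    have := hWM y₁ hy₁W i hi; linarith⟩
  set Ω : Set (PE n) := connectedComponentIn O y₁ with hΩ
  have hΩo : IsOpen Ω := hOo.connectedComponentIn
  have hΩc : IsPreconnected Ω := isPreconnected_connectedComponentIn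
  have hΩO : Ω ⊆ O := connectedComponentIn_subset O y₁
  have hy₁Ω : y₁ ∈ Ω := mem_connectedComponentIn hy₁O
  have hrel : ∀ x ∈ Ω, ∀ i ∈ Es, SP (fx a n x) P (x (some i)) =
      (fx a n x)^[ap i] (SP (fx a n x) P (x (some (rf i)))) := by
    intro x hx i hi
    obtain ⟨h1, h2⟩ := H.clo H.ko0 H.ko1 a n P M B R₃ Es Ee ha hn hP (rf i) (hRFP.mem i hi) i hi
      (ap i)
    exact (persist h1 h2 hΩc hΩO hy₁Ω).1 (hrel₁ i hi) x hx
  have hdis : ∀ x ∈ Ω, ∀ i ∈ Es, ∀ i' ∈ Es, rf i = i → rf i' = i' → i ≠ i' → ∀ b : ℕ,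
      SP (fx a n x) P (x (some i')) ≠ (fx a n x)^[b] (SP (fx a n x) P (x (some i))) := by
    intro x hx i hi i' hi' h3 h4 h5 b
    obtain ⟨h1, h2⟩ := H.clo H.ko0 H.ko1 a n P M B R₃ Es Ee ha hn hP i hi i' hi' b
    exact (persist h1 h2 hΩc hΩO hy₁Ω).2 (hdis₁ i hi i' hi' h3 h4 h5 b) x hx
  -- the field
  obtain ⟨X, hXd, hXne, hXk⟩ := exists_field H.cross (n := n) hΩo ⟨y₁, hy₁Ω⟩
    (Dr a n P M φ Es Ee rf ap j₀) (fun i v => Dr_diff H ha hn hP hb hRFP hΩo hΩO i v)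
  have hX1 : ∀ x ∈ Ω, ∀ i ∈ Es, dn a n P rf ap i x * fderiv ℂ (nu a n P rf i) x (X x) -
      nu a n P rf i x * fderiv ℂ (dn a n P rf ap i) x (X x) = 0 := by
    intro x hx i hi
    have := hXk x hx i
    unfold Dr at this
    rw [if_pos hi] at this
    exact this
  have hX2 : ∀ x ∈ Ω, ∀ i ∈ Ee,
      fderiv ℂ (fun x : PE n => φ (x, (fx a n x)^[M] (x (some i)))) x (X x) = 0 := by
    intro x hx i hi
    have := hXk x hx i
    unfold Dr at this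
    rw [if_neg (hse i hi), if_pos hi] at this
    exact this
  have hX3 : ∀ x ∈ Ω, fderiv ℂ (cf a n n) x (X x) = 0 := by
    intro x hx
    have := hXk x hx j₀
    unfold Dr at this
    rw [if_neg hj₀s, if_neg hj₀e, if_pos rfl] at this
    exact this
  -- a coefficient which moves
  obtain ⟨x₃, hx₃, hXx₃, hx₃i⟩ := exists_good H.iden hΩo hXd hXne
  obtain ⟨j, hj⟩ : ∃ j : ℕ, fderiv ℂ (cf a n j) x₃ (X x₃) ≠ 0 := by
    by_contra hcon
    push Not at hcon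
    exact hXx₃ (H.ndeg n a x₃ (X x₃) hn ha hx₃i hcon)
  have hjn : j < n + 2 := by
    by_contra hcon
    apply hj
    have h1 : cf a n j = fun _ => 0 := by
      funext x
      exact coeff_eq_zero_of_natDegree_lt (by have := natDegree_fam_le a n x; omega)
    rw [h1]
    simp
  set sp : PE n → ℂ := fun x => fderiv ℂ (cf a n j) x (X x) with hsp
  have hspd : DifferentiableOn ℂ sp Ω := speed_diff j hΩo hXd
  set hh : PE n → ℂ := fun x => ∏ i ∈ Es, KP (fx a n x) P (x (some i)) with hhh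
  have hhd : DifferentiableOn ℂ hh Ω := by
    apply prod_diff
    intro i hi
    exact (hnud i hi).2.2.1.mono hΩO
  set f : PE n → ℂ := fun x => hh x * sp x with hf
  have hfd : DifferentiableOn ℂ f Ω := hhd.mul hspd
  have hff : ∀ x ∈ Ω, f x ≠ 0 → (∀ i ∈ Es, KP (fx a n x) P (x (some i)) ≠ 0) ∧
      fderiv ℂ (cf a n j) x (X x) ≠ 0 := by
    intro x hx hne
    have h1 : hh x ≠ 0 := left_ne_zero_of_mul hne
    have h2 : sp x ≠ 0 := right_ne_zero_of_mul hne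
    exact ⟨Finset.prod_ne_zero_iff.mp h1, h2⟩
  -- the starting point
  obtain ⟨x₂, hx₂Ω, hx₂W, hfx₂⟩ : ∃ x₂ ∈ Ω, x₂ ∈ W ∧ f x₂ ≠ 0 := by
    by_contra hcon
    push Not at hcon
    have hy₁h : hh y₁ ≠ 0 := Finset.prod_ne_zero_iff.mpr fun i hi => (hy₁A i hi).2
    have h1 : ∀ᶠ x in 𝓝 y₁, hh x ≠ 0 :=
      (hhd.continuousOn.continuousAt (hΩo.mem_nhds hy₁Ω)).eventually_ne hy₁h
    have h2 : ∀ᶠ x in 𝓝 y₁, sp x = 0 := by
      filter_upwards [h1, hΩo.mem_nhds hy₁Ω, hWo.mem_nhds hy₁W] with x e1 e2 e3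
      exact (mul_eq_zero.mp (hcon x e2 e3)).resolve_left e1
    exact hj (H.iden (PE n) Ω sp hΩo hΩc hspd y₁ hy₁Ω h2 x₃ hx₃)
  have hx₂O : x₂ ∈ O := hΩO hx₂Ω
  have hx₂B : x₂ ∈ ball (0 : PE n) B := hx₂O.1
  have hx₂K : ∀ i ∈ Es, KP (fx a n x₂) P (x₂ (some i)) ≠ 0 := (hff x₂ hx₂Ω hfx₂).1
  -- the critical points of E₀ are good on Ω
  have hgoodE : ∀ x ∈ Ω, ∀ i ∈ E₀, Good (fx a n x) (x (some i)) := by
    intro x hx i hi
    rcases (hE i).mp hi with h1 | h1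
    · exact Or.inr ⟨P, hP, ((hΩO hx).2.1 i h1).1⟩
    · left
      exact esc_of_large hb (hΩO hx).1 (k := M) (by have := (hΩO hx).2.2 i h1; linarith)
  have hescE : ∀ x ∈ Ω, ∀ i ∈ Ee, ¬ AT (fx a n x) P (x (some i)) := by
    intro x hx i hi
    exact not_at_of_esc hP
      (esc_of_large hb (hΩO hx).1 (k := M) (by have := (hΩO hx).2.2 i hi; linarith))
  have ha₀w : a₀ / 2 ≤ w := by
    rw [ha₀]; nlinarith [mul_pos hc₀ hn₀]
  have hbad₂ : ∀ l, l ∉ E₀ → ¬ Good (fx a n x₂) (x₂ (some l)) := by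
    apply hmax x₂ _ _ (hgoodE x₂ hx₂Ω)
    · have := hx₂W.1.1.1
      rw [mem_ball, dist_eq_norm] at this
      linarith
    · exact (hWv x₂ hx₂W).trans (ENNReal.ofReal_le_ofReal ha₀w)
  set F0 : Fin n → ℂ := fun i => φ (x₂, (fx a n x₂)^[M] (x₂ (some i))) with hF0
  have hF0n : ∀ i ∈ Ee, R₃ + C₁ < ‖F0 i‖ := by
    intro i hi
    have h1 := hWM x₂ hx₂W i hi
    have h2 := hb.φc x₂ hx₂B ((fx a n x₂)^[M] (x₂ (some i))) (by linarith)
    have h3 := norm_sub_norm_le ((fx a n x₂)^[M] (x₂ (some i)))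
      (φ (x₂, (fx a n x₂)^[M] (x₂ (some i))))
    rw [norm_sub_rev] at h3
    show R₃ + C₁ < ‖φ (x₂, (fx a n x₂)^[M] (x₂ (some i)))‖
    linarith
  set lam : Fin n → ℂ := fun i => LP (fx a n x₂) P (x₂ (some i)) with hlam
  obtain ⟨lam₀, lam₁, hl0, hl1, hl1', hlb⟩ := exists_lam Es lam (fun i hi =>
    ⟨(hx₂O.2.1 i hi).2, (A0_Sk H hP (hx₂O.2.1 i hi).1).2.1⟩)
  obtain ⟨r₁, r₂, -, hKL⟩ := H.ko3 H.ko0 a n P B lam₀ lam₁ 1 ha hn hP hB0 hl0 hl1' one_pos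
  have hr₁ := hKL.r1
  have hr₂ := hKL.r2
  obtain ⟨CK, hCK, hapr⟩ := H.aprp H.ko0 H.ko1 H.ko2 H.ko3 H.root H.kbp a n P B B Es rf ap x₂ ha hn
    hP hRFP hx₂B (fun i hi => ⟨hx₂O.2.1 i hi, hx₂K i hi⟩)
  set r' : ℝ := r₁ / 2 with hr'
  have hr'0 : 0 < r' := by positivity
  have hr'₁ : r' < r₁ := by rw [hr']; linarith
  set τ : ℝ := min r₂ (r' / 4) / (2 * CK) with hτ
  have hmin : 0 < min r₂ (r' / 4) := lt_min hr₂ (by positivity)
  have hτ0 : 0 < τ := by positivity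
  have hτC : τ * CK < min r₂ (r' / 4) := by
    have : τ * CK = min r₂ (r' / 4) / 2 := by rw [hτ]; field_simp
    rw [this]; linarith
  -- the second time
  obtain ⟨Ms, hMs1, hMs2⟩ : ∃ Ms : ℕ, lam₁ ^ Ms * CK < 7 / 8 * r' ∧
      ∀ i ∈ Es, ‖(fx a n x₂)^[P * Ms] (x₂ (some i)) - SP (fx a n x₂) P (x₂ (some i))‖ < r' := by
    have h1 : ∀ᶠ m : ℕ in atTop, lam₁ ^ m * CK < 7 / 8 * r' := by
      have h2 : Tendsto (fun m : ℕ => lam₁ ^ m * CK) atTop (𝓝 (0 * CK)) :=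
        (tendsto_pow_atTop_nhds_zero_of_lt_one hl1.le hl1').mul_const CK
      rw [zero_mul] at h2
      exact h2.eventually (gt_mem_nhds (by positivity))
    have h3 : ∀ᶠ m : ℕ in atTop, ∀ i ∈ Es,
        ‖(fx a n x₂)^[P * m] (x₂ (some i)) - SP (fx a n x₂) P (x₂ (some i))‖ < r' := by
      rw [Filter.eventually_all_finset]
      intro i hi
      have h4 := (A0_Sk H hP (hx₂O.2.1 i hi).1).2.2
      have h5 := (tendsto_iff_norm_sub_tendsto_zero.mp h4).eventually (gt_mem_nhds hr'0)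
      exact h5
    exact (h1.and h3).exists
  -- the leaf
  set L' : Set (PE n) := LL2 a n P M Ms ψ Es Ee rf ap F0 lam xT 1 r' x₂ with hL'
  obtain ⟨hL'c, hL'O⟩ := H.cptq H.ko0 H.ko1 H.ko2 H.ko3 H.nud a n P M Ms B R C₁ R₁ R₃ lam₀ lam₁ r₁ r₂
    ψ φ Es Ee rf ap F0 lam xT x₂ 1 r' ha hn hP hb hKL hRFP hlb hF0n (fun x hx => hDB x hx) hr'₁
  set L : Set (PE n) := (L' ∩ closedBall xT ρ₂) ∩ Ω with hL
  have hLc : IsCompact L := by
    have h2 : L = (L' ∩ closedBall xT ρ₂) \ (O \ Ω) := by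
      ext x
      simp only [hL, mem_inter_iff, Set.mem_sdiff, not_and, not_not]
      constructor
      · rintro ⟨e1, e2⟩; exact ⟨e1, fun _ => e2⟩
      · rintro ⟨e1, e2⟩; exact ⟨e1, e2 (hL'O e1.1)⟩
    rw [h2]
    exact (hL'c.inter_right isClosed_closedBall).diff (diff_open hOo y₁)
  have hx₂L : x₂ ∈ L := by
    refine ⟨⟨⟨(hG₁D x₂ hx₂W.1.1).le, fun i hi => ?_, fun i hi => ?_, fun i hi => ?_⟩, ?_⟩, hx₂Ω⟩
    · exact (hb.ψφ x₂ hx₂B _ (by have := hWM x₂ hx₂W i hi; linarith)).symm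
    · exact ⟨(hx₂O.2.1 i hi).1, rfl, (hMs2 i hi).le⟩
    · ring
    · exact ball_subset_closedBall hx₂W.1.1.1
  -- the time `N`
  have hninf : ∀ x ∈ O, (∀ i ∈ Es, lam₀ ≤ ‖LP (fx a n x) P (x (some i))‖ ∧
      ‖LP (fx a n x) P (x (some i))‖ ≤ lam₁) → _ := fun x hx hl =>
    H.ninf H.ko0 H.ko1 H.ko2 H.ko3 H.fatp a n P M B R C₁ R₁ R₃ R₇ lam₀ lam₁ r₁ r₂ r' τ ψ φ Es Ee rf
      ap x ha hn hP hb le_rfl hKL hr'0 hr'₁ hτ0 hx hl
  obtain ⟨N, hN⟩ := (hninf x₂ hx₂O (fun i hi => hlb i hi)).2 hx₂K hRFP (hrel x₂ hx₂Ω)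
    (fun l h1 h2 => hbad₂ l (fun h => ((hE l).mp h).elim h1 h2)) (a₀ / 2) (by positivity)
  have hAN₂ : (volume (BN a n P R₃ R₇ φ Es rf r' τ N x₂)).toReal ≤ a₀ := by
    have h1 := hN N le_rfl
    have h2 : (volume {z : ℂ | ¬ Good (fx a n x₂) z}).toReal ≤ a₀ / 2 :=
      ENNReal.toReal_le_of_le_ofReal (by positivity) (hWv x₂ hx₂W)
    linarith
  have hLO : L ⊆ O := fun x hx => hL'O hx.1.1
  have hLl : ∀ x ∈ L, ∀ i ∈ Es, lam₀ ≤ ‖LP (fx a n x) P (x (some i))‖ ∧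
      ‖LP (fx a n x) P (x (some i))‖ ≤ lam₁ := by
    intro x hx i hi
    rw [(hx.1.1.2.2.1 i hi).2.1]
    exact hlb i hi
  have hlsc := H.lscp H.ko0 H.ko1 H.ko2 H.ko3 a n P M N B R C₁ R₁ R₃ R₇ lam₀ lam₁ r₁ r₂ r' τ ψ φ
    Es Ee rf L ha hn hP hb le_rfl hKL hr'0 hr'₁ hτ0 hLO hLl
  have hDl : ∀ x : PE n, ∑ j : Fin (n + 2), ‖cf a n j x - cf a n j xT‖ ^ 2 = Dl a n xT x := by
    intro x
    rw [Dl_eq, Finset.sum_range]
  refine H.mina (PE n) (Fin (n + 2)) (fun j => cf a n j) (fun j => cf a n j xT)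
    (fun x => (volume (BN a n P R₃ R₇ φ Es rf r' τ N x)).toReal) L f x₂ n₀ c₀
    (fun j => cf_diff a n j) (fun _ => ENNReal.toReal_nonneg) hn₀ hc₀ hLc
    (hfd.continuousOn.mono inter_subset_right) hlsc hx₂L hfx₂ hAN₂ ?_ ?_
  · show c₀ / 2 * ∑ j : Fin (n + 2), ‖cf a n j x₂ - cf a n j xT‖ ^ 2 ≤ c₀ * n₀ / 16
    rw [hDl]
    exact (hx₂W.1.1.2 : c₀ / 2 * Dl a n xT x₂ < a₀).le
  · intro p hp hpf hpD hpA
    have hpD' : Dl a n xT p < n₀ := by rw [← hDl]; exact hpD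
    have hpΩ : p ∈ Ω := hp.2
    have hpO : p ∈ O := hΩO hpΩ
    have hpB : p ∈ ball (0 : PE n) B := hpO.1
    have hpρ : p ∈ ball xT ρ₂ := by
      rcases (mem_closedBall.mp hp.1.2).lt_or_eq with h1 | h1
      · exact mem_ball.mpr h1
      · exact absurd (hsph p (mem_sphere.mpr h1)) (not_le.mpr hpD')
    have hpbad : ∀ l, l ∉ E₀ → ¬ Good (fx a n p) (p (some l)) := by
      apply hmax p _ _ (hgoodE p hpΩ)
      · rw [mem_ball, dist_eq_norm] at hpρ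
        linarith
      · have h1 := (hninf p hpO (hLl p hp)).1 N
        have h2 := BN_fin (P := P) (N := N) (r' := r') (τ := τ) hb (le_refl (R₃ + C₁)) (Es := Es) (rf := rf) hpB
        calc volume {z : ℂ | ¬ Good (fx a n p) z}
            ≤ volume (BN a n P R₃ R₇ φ Es rf r' τ N p) := measure_mono h1
          _ = ENNReal.ofReal (volume (BN a n P R₃ R₇ φ Es rf r' τ N p)).toReal :=
            (ENNReal.ofReal_toReal h2).symm
          _ ≤ ENNReal.ofReal w := ENNReal.ofReal_le_ofReal (hpA.le.trans hn₀w)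
    have hpK := (hff p hpΩ hpf).1
    have hpbad' : ∀ l, l ∉ Es → l ∉ Ee → ¬ Good (fx a n p) (p (some l)) :=
      fun l h1 h2 => hpbad l (fun h => ((hE l).mp h).elim h1 h2)
    have hpCK : ∀ i ∈ Es, ∀ b ≤ P, ‖KP (fx a n p) P ((fx a n p)^[b] (p (some i)))‖ ≤ CK := by
      apply hapr p hpB
      · intro i hi
        exact ⟨hpO.2.1 i hi, hpK i hi, (hp.1.1.2.2.1 i hi).2.1, hrel p hpΩ i hi, hp.1.1.2.2.2 i hi⟩
      · exact hdis p hpΩ
      · intro l hl hA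
        by_cases hle : l ∈ Ee
        · exact hescE p hpΩ l hle hA
        · exact hpbad' l hl hle (Or.inr ⟨P, hP, hA⟩)
      · refine ⟨p (some j₀), ?_, fun hA => hpbad j₀ hj₀ (Or.inr ⟨P, hP, hA⟩)⟩
        rw [mem_ball_zero_iff] at hpB
        exact (norm_le_pi_norm p (some j₀)).trans hpB.le
    have hent : ∀ i ∈ Es,
        ‖(fx a n p)^[P * Ms] (p (some i)) - SP (fx a n p) P (p (some i))‖ < r' := by
      intro i hi
      have e1 := hLl p hp i hi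
      exact strict_entry H ha hn hP hKL hpB (hpO.2.1 i hi) e1.1 e1.2 hr'₁ (hp.1.1.2.2.1 i hi).2.2
        (hpCK i hi 0 (Nat.zero_le _)) hMs1
    exact local_curve H (a := a) (n := n) (P := P) (M := M)
      (Ms := Ms) (N := N) (B := B) (R := R) (C₁ := C₁) (R₁ := R₁) (R₃ := R₃) (R₇ := R₇)
      (lam₀ := lam₀) (lam₁ := lam₁) (r₁ := r₁) (r₂ := r₂) (r' := r') (τ := τ) (η := r') (R₄ := R₄)
      (R₅ := R₅) (rg := rg) (c₀ := c₀) (ρ₂ := ρ₂) (v := v) (ψ := ψ) (φ := φ) (Es := Es) (Ee := Ee)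
      (rf := rf) (ap := ap) (F0 := F0) (lam := lam) (xT := xT) (x₂ := x₂) (p := p) (Ω := Ω) (X := X)
      (f := f) (j := j) ha hn hP hb le_rfl hKL hRFP hΩo hΩO hrel hdis hXd hX1 hX2 hX3 hfd hjn hff
      (hp.1.1.2.2.2) hpΩ hpf hpρ (hpD'.trans hn₀1)
      (fun i hi => ⟨hp.1.1.2.1 i hi, by have := hF0n i hi; linarith⟩)
      (fun i hi => ⟨(hp.1.1.2.2.1 i hi).2.1, (hlb i hi).1, (hlb i hi).2, hent i hi⟩) hpbad' hr'0 hr'₁ hτ0
      (fun i hi b hb' => (mul_le_mul_of_nonneg_left (hpCK i hi b hb') hτ0.le).trans_lt hτC)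
      hR₄ hR₅ hc₀ hv hgain

end Pool.Agent.H713R5.QJ
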