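import Mathlib
import Pool.Agent.H713R5.QJ.Defs

/-!
Statements of project QJ (MP_28f8a1_an): the uniform version of the theorem.
-/

set_option autoImplicit false

open Topology Filter Metric Set Polynomial MeasureTheory

namespace Pool.Agent.H713R5.QJ

/-- conjugation by a scaling -/
noncomputable def sc (l : ℂ) (T : ℂ[X]) : ℂ[X] := C l * T.comp (C l⁻¹ * X)

/-- Conjugation by a scaling. -/
def StSCL : Prop :=
  ∀ (l : ℂ) (T : ℂ[X]), l ≠ 0 → (sc l T).natDegree = T.natDegree ∧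
    (∀ j : ℕ, (sc l T).coeff j = l * l⁻¹ ^ j * T.coeff j) ∧
    (∀ z : ℂ, Good (ev (sc l T)) (l * z) ↔ Good (ev T) z) ∧
    (∀ c : ℂ, (derivative (sc l T)).eval (l * c) = 0 ↔ (derivative T).eval c = 0) ∧
    volume {z : ℂ | ¬ Good (ev (sc l T)) z} =
      ENNReal.ofReal (‖l‖ ^ 2) * volume {z : ℂ | ¬ Good (ev T) z}

/-- The set of points not accounted for by basins and Siegel discs (the Julia set). -/
def JS (T : ℂ[X]) : Set ℂ := {z : ℂ | ¬ (Good (ev T) z ∨ Para (ev T) z ∨ Sieg (ev T) z)}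

/-- Perturbation which makes all indifferent cycles attracting, for every area of the Julia set. -/
def StAPXG : Prop :=
  StOPG → StAF → StPF → StINJ → StSURL → StCURVE → StSGL → StPBL → StAPP → StAPS →
  ∀ (T : ℂ[X]), 2 ≤ T.natDegree → ∀ ε : ℝ, 0 < ε →
    ∃ S : ℂ[X], S.natDegree = T.natDegree ∧ S.leadingCoeff = T.leadingCoeff ∧
      (∀ j : ℕ, ‖S.coeff j - T.coeff j‖ < ε) ∧
      volume {z : ℂ | ¬ Good (ev S) z} ≤ volume (JS T) + ENNReal.ofReal ε

/-- the conclusion of `StAPXG` -/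
def APXC : Prop :=
  ∀ (T : ℂ[X]), 2 ≤ T.natDegree → ∀ ε : ℝ, 0 < ε →
    ∃ S : ℂ[X], S.natDegree = T.natDegree ∧ S.leadingCoeff = T.leadingCoeff ∧
      (∀ j : ℕ, ‖S.coeff j - T.coeff j‖ < ε) ∧
      volume {z : ℂ | ¬ Good (ev S) z} ≤ volume (JS T) + ENNReal.ofReal ε

/-- limits of polynomials with bad sets of small area are limits of hyperbolic polynomials (this is
`mainQ_lead` in Main1.lean) -/
def QLC : Prop :=
  ∀ (T : ℂ[X]), 2 ≤ T.natDegree →
    (∀ ε : ℝ, 0 < ε → ∃ S : ℂ[X], S.natDegree = T.natDegree ∧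
      S.leadingCoeff = T.leadingCoeff ∧ (∀ j : ℕ, ‖S.coeff j - T.coeff j‖ < ε) ∧
      volume {z : ℂ | ¬ Good (ev S) z} ≤ ENNReal.ofReal ε) → ∀ ε : ℝ, 0 < ε →
    ∃ S : ℂ[X], S.natDegree = T.natDegree ∧ S.leadingCoeff = T.leadingCoeff ∧
      (∀ j : ℕ, ‖S.coeff j - T.coeff j‖ < ε) ∧
      ∀ c : ℂ, (derivative S).eval c = 0 → Good (ev S) c

/-- The uniform version: on compact sets of polynomials, small area of the Julia set implies that
there is a hyperbolic polynomial nearby. -/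
def StUNI : Prop :=
  StSCL → APXC → QLC → ∀ (d : ℕ) (A ε : ℝ), 2 ≤ d → 0 < A → 0 < ε → ∃ δ : ℝ, 0 < δ ∧
    ∀ T : ℂ[X], T.natDegree = d → (∀ j : ℕ, ‖T.coeff j‖ ≤ A) → 1 / A ≤ ‖T.leadingCoeff‖ →
      volume (JS T) ≤ ENNReal.ofReal δ →
      ∃ S : ℂ[X], S.natDegree = T.natDegree ∧ S.leadingCoeff = T.leadingCoeff ∧
        (∀ j : ℕ, ‖S.coeff j - T.coeff j‖ < ε) ∧
        ∀ c : ℂ, (derivative S).eval c = 0 → Good (ev S) c

end Pool.Agent.H713R5.QJ
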