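import Mathlib
import Pool.Agent.H713R5.QJ.Defs4
import Pool.Agent.H713R3.ZA.Mot3

/-!
Statements of project QJ (MP_28f8a1_an): the quantitative version: the distance of `T` to the
hyperbolic polynomials is at most a constant times the square root of the area of the Julia set.
-/

set_option autoImplicit false

open Topology Filter Metric Set Polynomial MeasureTheory
open Pool.Agent.H713R3.ZA

namespace Pool.Agent.H713R5.QJ

/-- The local step: if the bad set of `x₁` has small area then another critical point can be made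
good nearby. -/
def StCOREV : Prop :=
  ∀ (a : ℂ) (n : ℕ) (B : ℝ), a ≠ 0 → 1 ≤ n → 0 < B → ∃ c₀ : ℝ, 0 < c₀ ∧
    ∀ (x₁ : PE n) (n₀ : ℝ), 0 < n₀ →
      (∀ x : PE n, Pool.Agent.H713R3.ZA.Dl a n x₁ x ≤ n₀ → x ∈ ball (0 : PE n) B) →
      volume {z : ℂ | ¬ Good (fx a n x₁) z} < ENNReal.ofReal (c₀ * n₀ / 16) →
      (∃ j : Fin n, ¬ Good (fx a n x₁) (x₁ (some j))) →
      ∃ x : PE n, Pool.Agent.H713R3.ZA.Dl a n x₁ x < n₀ ∧
        volume {z : ℂ | ¬ Good (fx a n x) z} < ENNReal.ofReal (c₀ * n₀) ∧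
        (∀ i : Fin n, Good (fx a n x₁) (x₁ (some i)) → Good (fx a n x) (x (some i))) ∧
        ∃ j : Fin n, ¬ Good (fx a n x₁) (x₁ (some j)) ∧ Good (fx a n x) (x (some j))

/-- Quantitative theorem in the family. -/
def StVFAM : Prop :=
  StCOREV → ∀ (a : ℂ) (n : ℕ) (A' : ℝ), a ≠ 0 → 1 ≤ n → 0 < A' → ∃ C : ℝ, 0 < C ∧
    ∀ (x₁ : PE n) (s : ℝ), (∀ j : ℕ, ‖(fam a n x₁).coeff j‖ ≤ A') → 0 < s →
      volume {z : ℂ | ¬ Good (fx a n x₁) z} < ENNReal.ofReal (s ^ 2) →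
      ∃ x : PE n, (∀ j : ℕ, ‖(fam a n x).coeff j - (fam a n x₁).coeff j‖ ≤ C * s) ∧
        ∀ i : Fin n, Good (fx a n x) (x (some i))

/-- The quantitative theorem: the distance to the hyperbolic polynomials is at most a constant
times the square root of the area of the Julia set, on every compact set of polynomials. -/
def VT : Prop :=
  ∀ (d : ℕ) (A : ℝ), 2 ≤ d → 0 < A → ∃ C : ℝ, 0 < C ∧ ∀ T : ℂ[X], T.natDegree = d →
    (∀ j : ℕ, ‖T.coeff j‖ ≤ A) → 1 / A ≤ ‖T.leadingCoeff‖ → volume (JS T) < ⊤ ∧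
    ∀ ε : ℝ, C * Real.sqrt (volume (JS T)).toReal < ε →
      ∃ S : ℂ[X], S.natDegree = T.natDegree ∧ S.leadingCoeff = T.leadingCoeff ∧
        (∀ j : ℕ, ‖S.coeff j - T.coeff j‖ < ε) ∧
        ∀ c : ℂ, (derivative S).eval c = 0 → Good (ev S) c

/-- Reduction to monic polynomials. -/
def StVFIN : Prop :=
  StSCL → APXC → StSURJ →
  (∀ (a : ℂ) (n : ℕ) (A' : ℝ), a ≠ 0 → 1 ≤ n → 0 < A' → ∃ C : ℝ, 0 < C ∧
    ∀ (x₁ : PE n) (s : ℝ), (∀ j : ℕ, ‖(fam a n x₁).coeff j‖ ≤ A') → 0 < s →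
      volume {z : ℂ | ¬ Good (fx a n x₁) z} < ENNReal.ofReal (s ^ 2) →
      ∃ x : PE n, (∀ j : ℕ, ‖(fam a n x).coeff j - (fam a n x₁).coeff j‖ ≤ C * s) ∧
        ∀ i : Fin n, Good (fx a n x) (x (some i))) → VT

end Pool.Agent.H713R5.QJ
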