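import Mathlib
import Pool.Agent.H713R5.QJ.Core5
import Pool.Agent.H713R5.QJ.Defs5

set_option autoImplicit false

open Topology Filter Metric Set Polynomial MeasureTheory
open Pool.Agent.H713R3.ZA

namespace Pool.Agent.H713R5.QJ

theorem local_curve2 (H : HH) {a : ℂ} {n P M Ms N : ℕ}
    {B R C₁ R₁ R₃ R₇ lam₀ lam₁ r₁ r₂ r' τ η R₄ R₅ rg c₀ n₀ : ℝ} {v : ℂ} {ψ φ : PE n × ℂ → ℂ}
    {Es Ee : Finset (Fin n)} {rf : Fin n → Fin n} {ap : Fin n → ℕ} {F0 lam : Fin n → ℂ}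
    {xT x₂ p : PE n} {Ω : Set (PE n)} {X : PE n → PE n} {f : PE n → ℂ} {j : ℕ}
    (ha : a ≠ 0) (hn : 1 ≤ n) (hP : 0 < P) (hb : BO a n B R C₁ R₁ R₃ ψ φ) (hR₇ : R₃ + C₁ ≤ R₇)
    (hKL : KL a n P B lam₀ lam₁ r₁ r₂) (hRFP : RFP n Es rf ap) (hΩo : IsOpen Ω)
    (hΩO : Ω ⊆ OO a n P M B R₃ Es Ee)
    (hrel : ∀ x ∈ Ω, ∀ i ∈ Es, SP (fx a n x) P (x (some i)) =
      (fx a n x)^[ap i] (SP (fx a n x) P (x (some (rf i)))))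
    (hdis : ∀ x ∈ Ω, ∀ i ∈ Es, ∀ i' ∈ Es, rf i = i → rf i' = i' → i ≠ i' → ∀ b : ℕ,
      SP (fx a n x) P (x (some i')) ≠ (fx a n x)^[b] (SP (fx a n x) P (x (some i))))
    (hXd : DifferentiableOn ℂ X Ω)
    (hX1 : ∀ x ∈ Ω, ∀ i ∈ Es, dn a n P rf ap i x * fderiv ℂ (nu a n P rf i) x (X x) -
      nu a n P rf i x * fderiv ℂ (dn a n P rf ap i) x (X x) = 0)
    (hX2 : ∀ x ∈ Ω, ∀ i ∈ Ee,
      fderiv ℂ (fun x : PE n => φ (x, (fx a n x)^[M] (x (some i)))) x (X x) = 0)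
    (hX3 : ∀ x ∈ Ω, fderiv ℂ (cf a n n) x (X x) = 0)
    (hfd : DifferentiableOn ℂ f Ω) (hj : j < n + 2)
    (hf : ∀ x ∈ Ω, f x ≠ 0 → (∀ i ∈ Es, KP (fx a n x) P (x (some i)) ≠ 0) ∧
      fderiv ℂ (cf a n j) x (X x) ≠ 0)
    (hx₂ : ∀ i ∈ Es, nu a n P rf i p * dn a n P rf ap i x₂ = nu a n P rf i x₂ * dn a n P rf ap i p)
    (hp : p ∈ Ω) (hpf : f p ≠ 0) (hpD : Dl a n xT p < n₀)
    (hpe : ∀ i ∈ Ee, (fx a n p)^[M] (p (some i)) = ψ (p, F0 i) ∧ R₃ < ‖F0 i‖)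
    (hps : ∀ i ∈ Es, LP (fx a n p) P (p (some i)) = lam i ∧ lam₀ ≤ ‖lam i‖ ∧ ‖lam i‖ ≤ lam₁ ∧
      ‖(fx a n p)^[P * Ms] (p (some i)) - SP (fx a n p) P (p (some i))‖ < η)
    (hbad : ∀ l : Fin n, l ∉ Es → l ∉ Ee → ¬ Good (fx a n p) (p (some l)))
    (hr' : 0 < r') (hr'₁ : r' < r₁) (hτ : 0 < τ)
    (hτp : ∀ i ∈ Es, ∀ b ≤ P, τ * ‖KP (fx a n p) P ((fx a n p)^[b] (p (some i)))‖ <
      min r₂ (r' / 4))
    (hR₄ : R₇ + 3 * C₁ < R₄) (hR₅ : R₄ < R₅) (hc₀ : 0 < c₀)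
    (hv : ball v rg ⊆ {z | R₄ < ‖z‖ ∧ ‖z‖ < R₅})
    (hgain : ∀ x ∈ ball (0 : PE n) B, ∀ y ∈ ball (0 : PE n) B,
      (fam a n x).coeff n = (fam a n y).coeff n →
      Pool.Agent.H713R4.RB.Gain (n + 1) R₄ R₅ v v rg c₀ (wv a n x) (wv a n y)) :
    ∃ (r₀ : ℝ) (γ : ℂ → PE n), 0 < r₀ ∧ γ 0 = p ∧ DifferentiableOn ℂ γ (ball 0 r₀) ∧
      (∀ t ∈ ball (0 : ℂ) r₀, γ t ∈ LL2 a n P M Ms ψ Es Ee rf ap F0 lam xT n₀ η x₂ ∩ Ω ∧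
        f (γ t) ≠ 0) ∧
      DifferentiableOn ℂ (fun t => f (γ t)) (ball 0 r₀) ∧
      (∃ j : Fin (n + 2), deriv (fun t => cf a n j (γ t)) 0 ≠ 0) ∧
      ∀ r : ℝ, 0 < r → r < r₀ → ∀ η : ℝ, 0 < η → ∀ q : ℝ → ℝ, Continuous q →
        ∃ θ : ℝ, (volume (BN a n P R₃ R₇ φ Es rf r' τ N (γ (circleMap 0 r θ)))).toReal + q θ <
          (volume (BN a n P R₃ R₇ φ Es rf r' τ N (γ 0))).toReal + η + (2 * Real.pi)⁻¹ *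
            ∫ θ in (0 : ℝ)..(2 * Real.pi),
              (q θ - c₀ * ∑ j : Fin (n + 2), ‖cf a n j (γ (circleMap 0 r θ)) - cf a n j (γ 0)‖ ^ 2) := by
  classical
  obtain ⟨-, -, hA0⟩ : True ∧ True ∧ ∀ x ∈ Ω, ∀ i ∈ Es, (x, x (some i)) ∈ A0 a n P :=
    ⟨trivial, trivial, fun x hx i hi => (hΩO hx).2.1 i hi⟩
  have hat : ∀ x ∈ Ω, ∀ i ∈ Es, AT (fx a n x) P (x (some i)) := fun x hx i hi => (hA0 x hx i hi).1
  -- the open set on which the field is integrated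
  set Ω' : Set (PE n) := {x | x ∈ Ω ∧ f x ≠ 0 ∧ Dl a n xT x < n₀ ∧
    ∀ i ∈ Es, ‖(fx a n x)^[P * Ms] (x (some i)) - SP (fx a n x) P (x (some i))‖ < η} with hΩ'
  have hΩ'o : IsOpen Ω' := by
    have e1 : IsOpen {x | x ∈ Ω ∧ f x ≠ 0} :=
      hfd.continuousOn.isOpen_inter_preimage hΩo isOpen_ne
    have e2 : IsOpen {x : PE n | Dl a n xT x < n₀} :=
      isOpen_lt (Dl_continuous a n xT) continuous_const
    have e3 : IsOpen (Ω ∩ ⋂ i ∈ Es, {x | x ∈ Ω ∧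
        ‖(fx a n x)^[P * Ms] (x (some i)) - SP (fx a n x) P (x (some i))‖ < η}) := by
      apply hΩo.inter
      apply isOpen_biInter_finset
      intro i hi
      exact open_inter_lt hΩo (entry_cont H ha hn hP (fun x hx => hat x hx i hi) _) η
    have e4 : Ω' = ({x | x ∈ Ω ∧ f x ≠ 0} ∩ {x : PE n | Dl a n xT x < n₀}) ∩
        (Ω ∩ ⋂ i ∈ Es, {x | x ∈ Ω ∧
        ‖(fx a n x)^[P * Ms] (x (some i)) - SP (fx a n x) P (x (some i))‖ < η}) := by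
      ext x
      simp only [hΩ', mem_ofPred_eq, mem_inter_iff, mem_iInter]
      constructor
      · rintro ⟨h1, h2, h4, h5⟩
        exact ⟨⟨⟨h1, h2⟩, h4⟩, h1, fun i hi => ⟨h1, h5 i hi⟩⟩
      · rintro ⟨⟨⟨h1, h2⟩, h4⟩, -, h5⟩
        exact ⟨h1, h2, h4, fun i hi => (h5 i hi).2⟩
    rw [e4]
    exact (e1.inter e2).inter e3
  have hpΩ' : p ∈ Ω' := ⟨hp, hpf, hpD, fun i hi => (hps i hi).2.2.2⟩
  have hΩ'Ω : Ω' ⊆ Ω := fun x hx => hx.1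
  obtain ⟨ρ, hρ, hflow⟩ := H.flow (PE n) Ω' {p} X hΩ'o isCompact_singleton
    (singleton_subset_iff.mpr hpΩ') (hXd.mono hΩ'Ω)
  obtain ⟨γ, hγ0, hγ⟩ := hflow p rfl
  have h0 : (0 : ℂ) ∈ ball (0 : ℂ) ρ := mem_ball_self hρ
  have hγΩ : ∀ t ∈ ball (0 : ℂ) ρ, γ t ∈ Ω := fun t ht => hΩ'Ω (hγ t ht).1
  have hkne : ∀ t ∈ ball (0 : ℂ) ρ, ∀ i ∈ Es, KP (fx a n (γ t)) P (γ t (some i)) ≠ 0 :=
    fun t ht i hi => (hf _ (hγΩ t ht) (hγ t ht).1.2.1).1 i hi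
  obtain ⟨hGD, hrat⟩ := H.gdp H.ko0 H.ko1 H.ko2 H.ko3 H.nud a n P M B R C₁ R₁ R₃ ρ ψ φ Es Ee rf ap F0
    γ (fun t => X (γ t)) ha hn hP hb hRFP hρ (fun t ht => (hγ t ht).2)
    (fun t ht => hΩO (hγΩ t ht)) hkne (fun t ht i hi => hX1 _ (hγΩ t ht) i hi)
    (fun t ht i hi => hX2 _ (hγΩ t ht) i hi) (fun t ht => hX3 _ (hγΩ t ht))
    (by rw [hγ0]; exact hpe) (fun t ht => hrel _ (hγΩ t ht)) (fun t ht => hdis _ (hγΩ t ht))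
    (by rw [hγ0]; exact hbad)
  obtain ⟨r₀, hr₀, hr₀ρ, hloc⟩ := H.locp H.dic H.ko0 H.ko1 H.ko2 H.ko3 H.crs H.cre H.crb H.rf H.rs
    H.rl H.asyp H.farp H.area H.avg2 H.rbad H.motl H.fulll H.root H.pro H.wn H.stepl
    a n P M N B R C₁ R₁ R₃ R₇ lam₀ lam₁ r₁ r₂ r' τ ρ R₄ R₅ rg c₀ v ψ φ Es Ee rf ap F0 γ ha hn hP hb
    hR₇ hKL hGD (by
      rw [hγ0]; intro i hi; rw [(hps i hi).1]; exact ⟨(hps i hi).2.1, (hps i hi).2.2.1⟩)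
    hr' hr'₁ hτ (by rw [hγ0]; exact hτp) hR₄ hR₅ hc₀ hv hgain
  have hsub : ∀ t ∈ ball (0 : ℂ) r₀, t ∈ ball (0 : ℂ) ρ := fun t ht => ball_subset_ball hr₀ρ ht
  have hγd : DifferentiableOn ℂ γ (ball 0 r₀) := fun t ht =>
    (hγ t (hsub t ht)).2.differentiableAt.differentiableWithinAt
  refine ⟨r₀, γ, hr₀, hγ0, hγd, ?_, ?_, ⟨⟨j, hj⟩, ?_⟩, ?_⟩
  · intro t ht
    have ht' := hsub t ht
    have e0 := (hγ t ht').1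
    refine ⟨⟨⟨e0.2.2.1.le, fun i hi => hGD.esc t ht' i hi, fun i hi => ?_, fun i hi => ?_⟩,
      e0.1⟩, e0.2.1⟩
    · refine ⟨hat _ e0.1 i hi, ?_, (e0.2.2.2 i hi).le⟩
      rw [hGD.lam t ht' i hi, hγ0]
      exact (hps i hi).1
    · have e1 := hrat t ht' i hi
      rw [hγ0] at e1
      have e2 := hx₂ i hi
      have e3 : dn a n P rf ap i p ≠ 0 := by
        obtain ⟨-, h2⟩ := H.nud H.ko0 H.ko1 H.ko2 H.ko3 a n P M B R₃ Es Ee rf ap ha hn hP hRFP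
        exact (h2 i hi).2.2.2 p (hΩO hp) ((hf p hp hpf).1 _ (hRFP.mem i hi))
      apply mul_right_cancel₀ e3
      linear_combination (dn a n P rf ap i x₂) * e1 + (dn a n P rf ap i (γ t)) * e2
  · exact hfd.comp hγd (fun t ht => hγΩ t (hsub t ht))
  · have e1 := (((cf_diff a n j) (γ 0)).hasFDerivAt.comp_hasDerivAt 0 (hγ 0 h0).2).deriv
    show deriv (fun t => cf a n j (γ t)) 0 ≠ 0
    have e2 : deriv (fun t => cf a n j (γ t)) 0 = fderiv ℂ (cf a n j) (γ 0) (X (γ 0)) := e1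
    rw [e2, hγ0]
    exact (hf p hp hpf).2
  · intro r hr hrr η' hη' q hq
    obtain ⟨θ, hθ⟩ := hloc r hr hrr η' hη' q hq
    refine ⟨θ, ?_⟩
    have e1 : ∀ x y : PE n, Dl a n x y = ∑ j : Fin (n + 2), ‖cf a n j y - cf a n j x‖ ^ 2 := by
      intro x y
      rw [Dl_eq, Finset.sum_range]
    simp only [e1] at hθ
    exact hθ

end Pool.Agent.H713R5.QJ
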