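import Mathlib
import Pool.Agent.H713R5.QJ.Core

set_option autoImplicit false

open Topology Filter Metric Set Polynomial MeasureTheory
open Pool.Agent.H713R3.ZA

namespace Pool.Agent.H713R5.QJ

/-- Theorem Q in the family. -/
theorem mainQ_fam (H : HH) {a : ℂ} (ha : a ≠ 0) {n : ℕ} (hn : 1 ≤ n) (xT : PE n)
    (hT : ∀ ε : ℝ, 0 < ε → ∃ x : PE n, ‖x - xT‖ < ε ∧
      volume {z : ℂ | ¬ Good (fx a n x) z} ≤ ENNReal.ofReal ε) {ε : ℝ} (hε : 0 < ε) :
    ∃ x : PE n, ‖x - xT‖ < ε ∧ volume {z : ℂ | ¬ Good (fx a n x) z} ≤ ENNReal.ofReal ε ∧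
      ∀ i : Fin n, Good (fx a n x) (x (some i)) := by
  classical
  set P : Finset (Fin n) → Prop := fun E => ∀ ε : ℝ, 0 < ε → ∃ x : PE n, ‖x - xT‖ < ε ∧
    volume {z : ℂ | ¬ Good (fx a n x) z} ≤ ENNReal.ofReal ε ∧
    ∀ i ∈ E, Good (fx a n x) (x (some i)) with hP
  have hP0 : P ∅ := fun ε hε => by
    obtain ⟨x, h1, h2⟩ := hT ε hε
    exact ⟨x, h1, h2, fun i hi => by simp at hi⟩
  obtain ⟨E₀, hE₀⟩ := (Set.toFinite {E | P E}).exists_maximal ⟨∅, hP0⟩
  by_cases hall : ∀ j, j ∈ E₀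
  · obtain ⟨x, h1, h2, h3⟩ := hE₀.prop ε hε
    exact ⟨x, h1, h2, fun i => h3 i (hall i)⟩
  · exfalso
    push Not at hall
    obtain ⟨j₀, hj₀⟩ := hall
    have hj : ∀ j : Fin n, ∀ᶠ δ : ℝ in 𝓝[>] 0, j ∉ E₀ → ∀ x : PE n, ‖x - xT‖ < δ →
        volume {z : ℂ | ¬ Good (fx a n x) z} ≤ ENNReal.ofReal δ →
        (∀ i ∈ E₀, Good (fx a n x) (x (some i))) → ¬ Good (fx a n x) (x (some j)) := by
      intro j
      by_cases hj : j ∈ E₀
      · exact Filter.Eventually.of_forall fun x h => absurd hj h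
      · have h1 : ¬ P (insert j E₀) := by
          intro h
          have h2 := hE₀.le_of_ge h (Finset.subset_insert j E₀)
          exact hj (h2 (Finset.mem_insert_self j E₀))
        simp only [hP] at h1
        push Not at h1
        obtain ⟨δ, hδ, h2⟩ := h1
        filter_upwards [mem_nhdsWithin_of_mem_nhds (Iio_mem_nhds hδ)] with δ' hδ' _ x hx hv hg
        obtain ⟨i, hi, hi2⟩ := h2 x (hx.trans hδ')
          (hv.trans (ENNReal.ofReal_le_ofReal (le_of_lt hδ')))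
        rcases Finset.mem_insert.mp hi with rfl | hi'
        · exact hi2
        · exact absurd (hg i hi') hi2
    obtain ⟨δ, hδ, hδ0⟩ := ((Filter.eventually_all.mpr hj).and eventually_mem_nhdsWithin).exists
    exact coreQ H ha hn xT hj₀ hE₀.prop (ρ₀ := δ) (w := δ) hδ0 hδ0
      (fun x hx hv hg j hj' => hδ j hj' x hx hv hg)

/-- Theorem Q, with a fixed leading coefficient. -/
theorem mainQ_lead (H : HH) (hSURJ : StSURJ) (T : ℂ[X]) (hd : 2 ≤ T.natDegree)
    (hT : ∀ ε : ℝ, 0 < ε → ∃ S : ℂ[X], S.natDegree = T.natDegree ∧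
      S.leadingCoeff = T.leadingCoeff ∧ (∀ j : ℕ, ‖S.coeff j - T.coeff j‖ < ε) ∧
      volume {z : ℂ | ¬ Good (ev S) z} ≤ ENNReal.ofReal ε) {ε : ℝ} (hε : 0 < ε) :
    ∃ S : ℂ[X], S.natDegree = T.natDegree ∧ S.leadingCoeff = T.leadingCoeff ∧
      (∀ j : ℕ, ‖S.coeff j - T.coeff j‖ < ε) ∧
      volume {z : ℂ | ¬ Good (ev S) z} ≤ ENNReal.ofReal ε ∧
      ∀ c : ℂ, (derivative S).eval c = 0 → Good (ev S) c := by
  obtain ⟨n, hn⟩ : ∃ n, T.natDegree = n + 1 := ⟨T.natDegree - 1, by omega⟩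
  have hn1 : 1 ≤ n := by omega
  set a : ℂ := T.coeff (n + 1) with ha
  have haT : T.leadingCoeff = a := by rw [ha, ← hn]; rfl
  have ha0 : a ≠ 0 := by
    rw [← haT, Ne, leadingCoeff_eq_zero]
    rintro rfl
    simp at hd
  obtain ⟨y, hy⟩ := hSURJ n T hn1 hn
  obtain ⟨B, hB0, hDB⟩ := H.bddp a n y ha0 hn1
  -- the sequence
  have hseq : ∀ k : ℕ, ∃ x : PE n, (∀ j : ℕ, ‖(fam a n x).coeff j - T.coeff j‖ <
      1 / ((k : ℝ) + 1) / (n + 2)) ∧
      volume {z : ℂ | ¬ Good (fx a n x) z} ≤ ENNReal.ofReal (1 / ((k : ℝ) + 1) / (n + 2)) := by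
    intro k
    obtain ⟨S, h1, h2, h3, h4⟩ := hT (1 / ((k : ℝ) + 1) / (n + 2)) (by positivity)
    obtain ⟨x, hx⟩ := hSURJ n S hn1 (h1.trans hn)
    have h5 : S.coeff (n + 1) = a := by rw [← haT, ← h2, ← hn, ← h1]; rfl
    rw [h5] at hx
    refine ⟨x, ?_, ?_⟩
    · rw [hx]; exact h3
    · have h6 : (fx a n x) = ev S := by rw [← hx]; rfl
      rw [h6]; exact h4
  choose x hx1 hx2 using hseq
  have hxB : ∀ k, x k ∈ closedBall (0 : PE n) B := by
    intro k
    apply ball_subset_closedBall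
    apply hDB
    have h0 : ∀ j, ‖cf a n j (x k) - cf a n j y‖ ^ 2 ≤ 1 / (n + 2) := by
      intro j
      have h1 := hx1 k j
      have h2 : cf a n j y = T.coeff j := by show (fam a n y).coeff j = _; rw [ha, hy]
      rw [h2]
      have h3 : (1 : ℝ) / ((k : ℝ) + 1) ≤ 1 := by
        rw [div_le_one (by positivity)]; linarith [Nat.cast_nonneg (α := ℝ) k]
      have h4 : ‖cf a n j (x k) - T.coeff j‖ ≤ 1 / (n + 2) := by
        apply h1.le.trans
        gcongr
      have h5 : (1 : ℝ) / (n + 2) ≤ 1 := by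
        rw [div_le_one (by positivity)]; linarith [Nat.cast_nonneg (α := ℝ) n]
      calc ‖cf a n j (x k) - T.coeff j‖ ^ 2 ≤ (1 / ((n : ℝ) + 2)) ^ 2 := by gcongr
        _ = (1 / ((n : ℝ) + 2)) * (1 / ((n : ℝ) + 2)) := by ring
        _ ≤ (1 / ((n : ℝ) + 2)) * 1 := by gcongr
        _ = 1 / ((n : ℝ) + 2) := by ring
    rw [Dl_eq]
    calc ∑ j ∈ Finset.range (n + 1 + 1), ‖cf a n j (x k) - cf a n j y‖ ^ 2
        ≤ ∑ j ∈ Finset.range (n + 1 + 1), (1 : ℝ) / (n + 2) := Finset.sum_le_sum fun j _ => h0 j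
      _ = 1 := by
        rw [Finset.sum_const, Finset.card_range, nsmul_eq_mul]
        push_cast
        field_simp
        ring
  obtain ⟨xT, -, φ, hφ, hlim⟩ := (isCompact_closedBall (0 : PE n) B).tendsto_subseq hxB
  have hsmall : Tendsto (fun k : ℕ => (1 : ℝ) / ((φ k : ℝ) + 1) / (n + 2)) atTop (𝓝 0) := by
    have h1 : Tendsto (fun k : ℕ => (1 : ℝ) / ((k : ℝ) + 1)) atTop (𝓝 0) :=
      tendsto_one_div_add_atTop_nhds_zero_nat
    have h2 := (h1.comp hφ.tendsto_atTop).div_const ((n : ℝ) + 2)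
    rw [zero_div] at h2
    exact h2
  have hfT : fam a n xT = T := by
    ext j
    have h1 : Tendsto (fun k => (fam a n (x (φ k))).coeff j) atTop (𝓝 ((fam a n xT).coeff j)) :=
      ((pfe_fam a n j).continuous.tendsto xT).comp hlim
    have h2 : Tendsto (fun k => (fam a n (x (φ k))).coeff j) atTop (𝓝 (T.coeff j)) := by
      rw [tendsto_iff_norm_sub_tendsto_zero]
      exact squeeze_zero (fun _ => norm_nonneg _) (fun k => (hx1 (φ k) j).le) hsmall
    exact tendsto_nhds_unique h1 h2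
  -- closeness of the coefficients
  have h1 : ∀ᶠ x : PE n in 𝓝 xT, ∀ j ∈ Finset.range (n + 2),
      ‖(fam a n x).coeff j - (fam a n xT).coeff j‖ < ε := by
    rw [Filter.eventually_all_finset]
    intro j _
    have hc : Continuous (fun x : PE n => ‖(fam a n x).coeff j - (fam a n xT).coeff j‖) :=
      ((pfe_fam a n j).continuous.sub continuous_const).norm
    have h0 : ‖(fam a n xT).coeff j - (fam a n xT).coeff j‖ < ε := by simpa using hε
    exact (hc.tendsto xT).eventually (Iio_mem_nhds h0)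
  obtain ⟨σ, hσ, hball⟩ := Metric.mem_nhds_iff.mp h1
  obtain ⟨z, hz, hzv, hzg⟩ := mainQ_fam H ha0 hn1 xT (by
    intro ε' hε'
    have e1 : ∀ᶠ k : ℕ in atTop, (1 : ℝ) / ((φ k : ℝ) + 1) / (n + 2) < ε' :=
      hsmall.eventually (gt_mem_nhds hε')
    have e2 : ∀ᶠ k : ℕ in atTop, ‖x (φ k) - xT‖ < ε' :=
      (tendsto_iff_norm_sub_tendsto_zero.mp hlim).eventually (gt_mem_nhds hε')
    obtain ⟨k, hk1, hk2⟩ := (e1.and e2).exists
    exact ⟨x (φ k), hk2, (hx2 (φ k)).trans (ENNReal.ofReal_le_ofReal hk1.le)⟩)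
    (ε := min σ ε) (lt_min hσ hε)
  refine ⟨fam a n z, ?_, ?_, ?_, ?_, ?_⟩
  · rw [natDegree_fam ha0, hn]
  · rw [leadingCoeff, natDegree_fam ha0, coeff_fam_top, haT]
  · intro j
    by_cases hj : j < n + 2
    · have := hball (by rw [mem_ball, dist_eq_norm]; exact hz.trans_le (min_le_left _ _) :
        z ∈ ball xT σ) j (Finset.mem_range.mpr hj)
      rwa [hfT] at this
    · rw [coeff_eq_zero_of_natDegree_lt (by have := natDegree_fam_le a n z; omega),
        coeff_eq_zero_of_natDegree_lt (by omega)]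
      simpa using hε
  · exact hzv.trans (ENNReal.ofReal_le_ofReal (min_le_right _ _))
  · intro c hc
    have h2 : deriv (fx a n z) c = 0 := by
      have : deriv (fx a n z) c = (derivative (fam a n z)).eval c := (fam a n z).deriv
      rw [this, hc]
    obtain ⟨i, rfl⟩ := exists_crit ha0 h2
    exact hzg i

end Pool.Agent.H713R5.QJ
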