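import Mathlib
import Pool.Agent.H713R5.QJ.Defs

set_option autoImplicit false

open Topology Filter Metric Set Polynomial MeasureTheory

namespace Pool.Agent.H713R5.QJ

theorem af_det (a : ℂ) :
    ((ContinuousLinearMap.toSpanSingleton ℂ a).restrictScalars ℝ : ℂ →L[ℝ] ℂ).det = ‖a‖ ^ 2 := by
  rw [ContinuousLinearMap.det, ← LinearMap.det_toMatrix Complex.basisOneI, Matrix.det_fin_two]
  simp [LinearMap.toMatrix_apply, Complex.basisOneI, Complex.sq_norm, Complex.normSq_apply]

theorem af_ne {T : ℂ[X]} (hT : 0 < T.natDegree) (w : ℂ) : T - C w ≠ 0 := by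
  intro h
  have h1 : T = C w := sub_eq_zero.mp h
  rw [h1, natDegree_C] at hT
  exact lt_irrefl _ hT

theorem af_mem {T : ℂ[X]} (hT : 0 < T.natDegree) (w ζ : ℂ) :
    ζ ∈ (T - C w).roots.toFinset ↔ ev T ζ = w := by
  rw [Multiset.mem_toFinset, mem_roots (af_ne hT w), IsRoot.def, eval_sub, eval_C, sub_eq_zero]
  rfl

theorem af_fd (T : ℂ[X]) (s : Set ℂ) (x : ℂ) :
    HasFDerivWithinAt (ev T) ((ContinuousLinearMap.toSpanSingleton ℂ
      ((derivative T).eval x)).restrictScalars ℝ : ℂ →L[ℝ] ℂ) s x := by
  have h := (T.hasDerivAt x).hasFDerivAt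
  exact (h.restrictScalars ℝ).hasFDerivWithinAt

theorem af_key (T : ℂ[X]) (g : ℂ → ENNReal) (E A : Set ℂ) (hT : 0 < T.natDegree)
    (hg : Measurable g) (hE : MeasurableSet E) (hA : MeasurableSet A) (hinj : InjOn (ev T) A) :
    ∃ G : ℂ → ENNReal, Measurable G ∧
      (∀ w, G w = ∑ ζ ∈ (T - C w).roots.toFinset, A.indicator g ζ) ∧
      ∫⁻ w in E, G w =
        ∫⁻ z in (ev T) ⁻¹' E, A.indicator
          (fun z => g z * ENNReal.ofReal (‖(derivative T).eval z‖ ^ 2)) z := by
  have hcont : Continuous (ev T) := T.continuous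
  have hme : MeasurableEmbedding (A.domRestrict (ev T)) :=
    measurableEmbedding_of_fderivWithin hA (fun x _ => af_fd T A x) hinj
  have hval : ∀ z ∈ A, Function.extend (A.domRestrict (ev T)) (fun x : A => g x) (fun _ => 0)
      (ev T z) = g z := by
    intro z hz
    have := hme.injective.extend_apply (fun x : A => g x) (fun _ => 0) ⟨z, hz⟩
    simpa using this
  have hzero : ∀ w, w ∉ ev T '' A → Function.extend (A.domRestrict (ev T)) (fun x : A => g x)
      (fun _ => 0) w = 0 := by
    intro w hw
    apply Function.extend_apply'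
    rintro ⟨a, ha⟩
    exact hw ⟨a, a.2, by simpa using ha⟩
  refine ⟨Function.extend (A.domRestrict (ev T)) (fun x : A => g x) (fun _ => 0), ?_, ?_, ?_⟩
  · exact hme.measurable_extend (hg.comp measurable_subtype_coe) measurable_const
  · intro w
    by_cases hw : w ∈ ev T '' A
    · obtain ⟨z, hz, rfl⟩ := hw
      rw [hval z hz, Finset.sum_eq_single z]
      · rw [indicator_of_mem hz]
      · intro b hb hbz
        rw [af_mem hT] at hb
        rw [indicator_of_notMem]
        intro hbA
        exact hbz (hinj hbA hz hb)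
      · intro h
        exact absurd ((af_mem hT _ _).mpr rfl) h
    · rw [hzero w hw, Finset.sum_eq_zero]
      intro b hb
      rw [af_mem hT] at hb
      rw [indicator_of_notMem]
      intro hbA
      exact hw ⟨b, hbA, hb⟩
  · have hS : MeasurableSet (A ∩ (ev T) ⁻¹' E) := hA.inter (hcont.measurable hE)
    have hinj' : InjOn (ev T) (A ∩ (ev T) ⁻¹' E) := hinj.mono inter_subset_left
    have hI : MeasurableSet (ev T '' (A ∩ (ev T) ⁻¹' E)) :=
      measurable_image_of_fderivWithin hS (fun x _ => af_fd T _ x) hinj'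
    have h1 := lintegral_image_eq_lintegral_abs_det_fderiv_mul (volume : Measure ℂ) hS
      (fun x _ => af_fd T (A ∩ (ev T) ⁻¹' E) x) hinj'
      (Function.extend (A.domRestrict (ev T)) (fun x : A => g x) (fun _ => 0))
    have h2 : ∫⁻ w in E, Function.extend (A.domRestrict (ev T)) (fun x : A => g x) (fun _ => 0) w =
        ∫⁻ w in ev T '' (A ∩ (ev T) ⁻¹' E),
          Function.extend (A.domRestrict (ev T)) (fun x : A => g x) (fun _ => 0) w := by
      rw [← lintegral_indicator hE, ← lintegral_indicator hI]
      congr 1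
      funext w
      by_cases hw : w ∈ ev T '' (A ∩ (ev T) ⁻¹' E)
      · rw [indicator_of_mem hw, indicator_of_mem]
        obtain ⟨z, hz, rfl⟩ := hw
        exact hz.2
      · rw [indicator_of_notMem hw]
        by_cases hwE : w ∈ E
        · rw [indicator_of_mem hwE]
          apply hzero
          rintro ⟨z, hz, rfl⟩
          exact hw ⟨z, ⟨hz, hwE⟩, rfl⟩
        · rw [indicator_of_notMem hwE]
    rw [h2, h1, ← lintegral_indicator hS, ← lintegral_indicator (hcont.measurable hE)]
    congr 1
    funext z
    by_cases hz : z ∈ A ∩ (ev T) ⁻¹' E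
    · rw [indicator_of_mem hz, indicator_of_mem hz.2, indicator_of_mem hz.1, hval z hz.1,
        af_det, abs_of_nonneg (by positivity), mul_comm]
    · rw [indicator_of_notMem hz]
      by_cases hzE : z ∈ (ev T) ⁻¹' E
      · rw [indicator_of_mem hzE, indicator_of_notMem]
        exact fun h => hz ⟨h, hzE⟩
      · rw [indicator_of_notMem hzE]

theorem af_holds : StAF := by
  intro T g E hT hg hE
  have hcont : Continuous (ev T) := T.continuous
  have hder : derivative T ≠ 0 := by
    intro h
    have := natDegree_eq_zero_of_derivative_eq_zero h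
    omega
  set U : Set ℂ := {z | (derivative T).eval z ≠ 0} with hU
  have hUo : IsOpen U := isOpen_ne_fun (derivative T).continuous continuous_const
  have hUc : Uᶜ = (((derivative T).roots.toFinset : Finset ℂ) : Set ℂ) := by
    ext z
    simp only [hU, mem_compl_iff, mem_setOf_eq, not_not, Finset.mem_coe, Multiset.mem_toFinset,
      mem_roots hder, IsRoot.def]
  have hUfin : (Uᶜ).Finite := by rw [hUc]; exact Finset.finite_toSet _
  have hUne : U.Nonempty := by
    by_contra h
    rw [Set.not_nonempty_iff_eq_empty] at h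
    rw [h, compl_empty] at hUfin
    exact infinite_univ hUfin
  -- local injectivity
  have hloc : ∀ z ∈ U, ∃ V : Set ℂ, IsOpen V ∧ z ∈ V ∧ InjOn (ev T) V := by
    intro z hz
    have hs : HasStrictDerivAt (ev T) ((derivative T).eval z) z := T.hasStrictDerivAt z
    have he := hs.hasStrictFDerivAt_equiv hz
    refine ⟨(he.toOpenPartialHomeomorph (ev T)).source,
      (he.toOpenPartialHomeomorph (ev T)).open_source, he.mem_toOpenPartialHomeomorph_source, ?_⟩
    have := (he.toOpenPartialHomeomorph (ev T)).injOn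
    rwa [he.toOpenPartialHomeomorph_coe] at this
  choose! V hVo hVm hVi using hloc
  obtain ⟨t, htU, htc, hcov⟩ := TopologicalSpace.countable_cover_nhdsWithin (f := V) (s := U)
    (fun x hx => mem_nhdsWithin_of_mem_nhds ((hVo x hx).mem_nhds (hVm x hx)))
  have htne : t.Nonempty := by
    obtain ⟨x, hx⟩ := hUne
    have := hcov hx
    simp only [mem_iUnion] at this
    obtain ⟨i, hi, _⟩ := this
    exact ⟨i, hi⟩
  obtain ⟨f, hf⟩ := htc.exists_eq_range htne
  have hfU : ∀ i, f i ∈ U := fun i => htU (hf ▸ mem_range_self i)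
  set B : ℕ → Set ℂ := fun i => U ∩ V (f i) with hB
  have hBm : ∀ i, MeasurableSet (B i) := fun i => (hUo.inter (hVo _ (hfU i))).measurableSet
  have hBU : ⋃ i, B i = U := by
    apply Subset.antisymm
    · exact iUnion_subset fun i => inter_subset_left
    · intro x hx
      have := hcov hx
      simp only [mem_iUnion] at this
      obtain ⟨y, hy, hxy⟩ := this
      rw [hf] at hy
      obtain ⟨i, rfl⟩ := hy
      exact mem_iUnion.mpr ⟨i, hx, hxy⟩
  set A : ℕ → Set ℂ := disjointed B with hA
  have hAm : ∀ i, MeasurableSet (A i) := fun i => MeasurableSet.disjointed hBm i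
  have hAB : ∀ i, A i ⊆ B i := fun i => disjointed_subset B i
  have hAU : ⋃ i, A i = U := by rw [hA, iUnion_disjointed, hBU]
  have hAd : Pairwise (Function.onFun Disjoint A) := disjoint_disjointed B
  have hAi : ∀ i, InjOn (ev T) (A i) := fun i =>
    (hVi _ (hfU i)).mono ((hAB i).trans inter_subset_right)
  -- sum of indicators
  have hsum : ∀ (h : ℂ → ENNReal) (z : ℂ), ∑' i, (A i).indicator h z = U.indicator h z := by
    intro h z
    by_cases hz : z ∈ U
    · rw [indicator_of_mem hz]
      rw [← hAU] at hz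
      obtain ⟨i, hi⟩ := mem_iUnion.mp hz
      rw [tsum_eq_single i, indicator_of_mem hi]
      intro j hj
      rw [indicator_of_notMem]
      intro hjz
      exact (Set.disjoint_left.mp (hAd hj)) hjz hi
    · rw [indicator_of_notMem hz]
      rw [ENNReal.tsum_eq_zero]
      intro i
      rw [indicator_of_notMem]
      intro hi
      exact hz (hAU ▸ mem_iUnion.mpr ⟨i, hi⟩)
  choose G hGm hGs hGi using fun i => af_key T g E (A i) hT hg hE (hAm i) (hAi i)
  have hL : ∫⁻ w in E, ∑ ζ ∈ (T - C w).roots.toFinset, g ζ = ∫⁻ w in E, ∑' i, G i w := by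
    apply lintegral_congr_ae
    have hnull : volume (ev T '' Uᶜ) = 0 := (hUfin.image _).measure_zero _
    have : ∀ᵐ w ∂(volume.restrict E), w ∉ ev T '' Uᶜ := by
      apply ae_restrict_of_ae
      exact measure_eq_zero_iff_ae_notMem.mp hnull
    filter_upwards [this] with w hw
    simp only [hGs]
    rw [tsum_congr (fun i => rfl), Summable.tsum_finsetSum (fun i _ => ENNReal.summable)]
    apply Finset.sum_congr rfl
    intro ζ hζ
    rw [hsum, indicator_of_mem]
    by_contra hn
    rw [af_mem hT] at hζ
    exact hw ⟨ζ, hn, hζ⟩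
  rw [hL, lintegral_tsum (fun i => (hGm i).aemeasurable)]
  simp only [hGi]
  rw [← lintegral_tsum]
  · apply lintegral_congr_ae
    have hnull : volume (Uᶜ) = 0 := hUfin.measure_zero _
    have : ∀ᵐ w ∂(volume.restrict ((ev T) ⁻¹' E)), w ∉ Uᶜ := by
      apply ae_restrict_of_ae
      exact measure_eq_zero_iff_ae_notMem.mp hnull
    filter_upwards [this] with w hw
    rw [hsum, indicator_of_mem]
    by_contra hn
    exact hw hn
  · intro i
    apply Measurable.aemeasurable
    apply Measurable.indicator _ (hAm i)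
    apply hg.mul
    apply ENNReal.measurable_ofReal.comp
    exact (((derivative T).continuous.norm).pow 2).measurable

end Pool.Agent.H713R5.QJ
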