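import Mathlib
import Pool.Agent.H713R5.QJ.Defs

set_option autoImplicit false

open Topology Filter Metric Set Polynomial MeasureTheory

namespace Pool.Agent.H713R5.QJ

namespace APP

/-- `T.eval` is Lipschitz on a ball -/
theorem lip_poly (T : ℂ[X]) (R : ℝ) : ∃ C : ℝ, 0 ≤ C ∧ ∀ w w' : ℂ, ‖w‖ ≤ R → ‖w'‖ ≤ R →
    ‖T.eval w - T.eval w'‖ ≤ C * ‖w - w'‖ := by
  have hc : Continuous (fun w : ℂ => ‖(derivative T).eval w‖) :=
    (derivative T).continuous.norm
  obtain ⟨C, hC⟩ := (isCompact_closedBall (0 : ℂ) R).bddAbove_image hc.continuousOn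
  have hC' : ∀ w : ℂ, ‖w‖ ≤ R → ‖(derivative T).eval w‖ ≤ C := fun w hw =>
    hC ⟨w, by simpa using hw, rfl⟩
  refine ⟨max C 0, le_max_right _ _, fun w w' hw hw' => ?_⟩
  refine (convex_closedBall (0 : ℂ) R).norm_image_sub_le_of_norm_deriv_le (𝕜 := ℂ)
    (f := fun w => T.eval w) (s := closedBall 0 R) (C := max C 0)
    (fun z _ => T.differentiable z) (fun z hz => ?_) (by simpa using hw') (by simpa using hw)
  rw [Polynomial.deriv]
  exact (hC' z (by simpa using hz)).trans (le_max_left _ _)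

/-- closeness of coefficients gives closeness of values -/
theorem close_poly (T S : ℂ[X]) (R c : ℝ) (_hR : 0 ≤ R) (hd : S.natDegree = T.natDegree)
    (hc : ∀ j : ℕ, ‖S.coeff j - T.coeff j‖ ≤ c) (w : ℂ) (hw : ‖w‖ ≤ R) :
    ‖S.eval w - T.eval w‖ ≤ c * ∑ j ∈ Finset.range (T.natDegree + 1), R ^ j := by
  rw [Polynomial.eval_eq_sum_range, Polynomial.eval_eq_sum_range, hd, ← Finset.sum_sub_distrib,
    Finset.mul_sum]
  refine (norm_sum_le _ _).trans (Finset.sum_le_sum fun j _ => ?_)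
  rw [← sub_mul, norm_mul, norm_pow]
  exact mul_le_mul (hc j) (pow_le_pow_left₀ (norm_nonneg _) hw j) (by positivity)
    ((norm_nonneg _).trans (hc j))

/-- iterates of close polynomials at close points are close -/
theorem close_iter (T : ℂ[X]) (S : ℝ → ℂ[X]) (t₀ C₀ : ℝ) (hC₀ : 0 ≤ C₀) (ht₀ : 0 ≤ t₀)
    (deg : ∀ t : ℝ, 0 ≤ t → t ≤ t₀ → (S t).natDegree = T.natDegree)
    (cf : ∀ t : ℝ, 0 ≤ t → t ≤ t₀ → ∀ j : ℕ, ‖(S t).coeff j - T.coeff j‖ ≤ C₀ * t) (n : ℕ) :
    ∀ R : ℝ, 0 ≤ R → ∃ C : ℝ, 0 ≤ C ∧ ∀ t : ℝ, 0 ≤ t → t ≤ t₀ → ∀ w w' : ℂ, ‖w‖ ≤ R → ‖w'‖ ≤ R →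
      ‖(ev (S t))^[n] w - (ev T)^[n] w'‖ ≤ C * (t + ‖w - w'‖) := by
  induction n with
  | zero =>
    intro R hR
    refine ⟨1, zero_le_one, fun t ht _ w w' _ _ => ?_⟩
    simp only [Function.iterate_zero, id_eq, one_mul]
    linarith
  | succ n ih =>
    intro R hR
    obtain ⟨C₁, hC₁, h₁⟩ := lip_poly T R
    set M : ℝ := ∑ j ∈ Finset.range (T.natDegree + 1), R ^ j with hM
    have hM0 : 0 ≤ M := Finset.sum_nonneg fun j _ => by positivity
    have hstep : ∀ t : ℝ, 0 ≤ t → t ≤ t₀ → ∀ w w' : ℂ, ‖w‖ ≤ R → ‖w'‖ ≤ R →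
        ‖ev (S t) w - ev T w'‖ ≤ (C₀ * M + C₁) * (t + ‖w - w'‖) := by
      intro t ht htt w w' hw hw'
      have e1 := close_poly T (S t) R (C₀ * t) hR (deg t ht htt) (cf t ht htt) w hw
      have e2 := h₁ w w' hw hw'
      have e3 : ev (S t) w - ev T w' = ((S t).eval w - T.eval w) + (T.eval w - T.eval w') := by
        simp [ev]
      rw [e3]
      refine (norm_add_le _ _).trans ((add_le_add e1 e2).trans ?_)
      rw [← hM]
      nlinarith [norm_nonneg (w - w'), mul_nonneg (mul_nonneg hC₀ hM0) (norm_nonneg (w - w')),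
        mul_nonneg hC₁ ht]
    -- bound of the images
    have hb : ∃ R' : ℝ, 0 ≤ R' ∧ ∀ t : ℝ, 0 ≤ t → t ≤ t₀ → ∀ w : ℂ, ‖w‖ ≤ R →
        ‖ev (S t) w‖ ≤ R' ∧ ‖ev T w‖ ≤ R' := by
      have hc : Continuous (fun w : ℂ => ‖T.eval w‖) := T.continuous.norm
      obtain ⟨B, hB⟩ := (isCompact_closedBall (0 : ℂ) R).bddAbove_image hc.continuousOn
      have hB' : ∀ w : ℂ, ‖w‖ ≤ R → ‖T.eval w‖ ≤ B := fun w hw =>
        hB ⟨w, by simpa using hw, rfl⟩
      have hB0 : 0 ≤ B := (norm_nonneg _).trans (hB' 0 (by simpa using hR))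
      refine ⟨B + (C₀ * M + C₁) * t₀, by positivity, fun t ht htt w hw => ⟨?_, ?_⟩⟩
      · have e := hstep t ht htt w w hw hw
        rw [sub_self, norm_zero, add_zero] at e
        have e4 : ev (S t) w = (ev (S t) w - ev T w) + T.eval w := by simp [ev]
        rw [e4]
        refine (norm_add_le _ _).trans ?_
        have : (C₀ * M + C₁) * t ≤ (C₀ * M + C₁) * t₀ :=
          mul_le_mul_of_nonneg_left htt (by positivity)
        linarith [hB' w hw]
      · have : 0 ≤ (C₀ * M + C₁) * t₀ := by positivity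
        have h2 := hB' w hw
        simp only [ev]
        linarith
    obtain ⟨R', hR', hbd⟩ := hb
    obtain ⟨C, hC, hCC⟩ := ih R' hR'
    refine ⟨C * (1 + (C₀ * M + C₁)), by positivity, fun t ht htt w w' hw hw' => ?_⟩
    rw [Function.iterate_succ_apply, Function.iterate_succ_apply]
    refine (hCC t ht htt _ _ (hbd t ht htt w hw).1 (hbd t ht htt w' hw').2).trans ?_
    rw [mul_assoc]
    refine mul_le_mul_of_nonneg_left ?_ hC
    have := hstep t ht htt w w' hw hw'
    nlinarith [norm_nonneg (w - w')]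

theorem differentiable_iter (T : ℂ[X]) (n : ℕ) : Differentiable ℂ ((ev T)^[n]) := by
  have : Differentiable ℂ (ev T) := T.differentiable
  exact this.iterate n

/-- the return map in the coordinate centred at `x` -/
noncomputable def cen (T : ℂ[X]) (p : ℕ) (x : ℂ) : ℂ → ℂ := fun v => (ev T)^[p] (x + v) - x

theorem cen_iter (T : ℂ[X]) (p : ℕ) (x v : ℂ) (j : ℕ) :
    (cen T p x)^[j] v = (ev T)^[p * j] (x + v) - x := by
  induction j with
  | zero => simp
  | succ j ih =>
    rw [Function.iterate_succ_apply', ih]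
    simp only [cen]
    rw [add_sub_cancel, ← Function.iterate_add_apply, show p + p * j = p * (j + 1) by ring]

theorem cen_diff (T : ℂ[X]) (p : ℕ) (x : ℂ) : Differentiable ℂ (cen T p x) := by
  unfold cen
  exact ((differentiable_iter T p).comp (differentiable_id.const_add x)).sub_const x

theorem cen_deriv (T : ℂ[X]) (p : ℕ) (x : ℂ) : deriv (cen T p x) 0 = deriv ((ev T)^[p]) x := by
  unfold cen
  rw [deriv_sub_const, deriv_comp_const_add, add_zero]

end APP

open APP in
theorem app_holds : StAPP := by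
  intro hPBL T p x S y k t₀ C₀ z hT hPC hlim hne
  have hp := hPC.pp
  obtain ⟨C, hC, hCC⟩ := close_iter T S t₀ C₀ hPC.C0.le hPC.t0.le hPC.deg hPC.cf p
    (‖x‖ + C₀ * t₀ + 1) (by have := hPC.C0; have := hPC.t0; positivity)
  -- closeness of the return maps
  have hclose : ∀ t : ℝ, 0 ≤ t → t ≤ t₀ → ∀ v ∈ ball (0 : ℂ) 1,
      ‖cen (S t) p (y t) v - cen T p x v‖ ≤ (C * (1 + C₀) + C₀) * t := by
    intro t ht htt v hv
    have hyx := hPC.yx t ht htt
    have hv' : ‖v‖ ≤ 1 := by simpa using (mem_ball.1 hv).le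
    have hCt : C₀ * t ≤ C₀ * t₀ := mul_le_mul_of_nonneg_left htt hPC.C0.le
    have h1 : ‖y t + v‖ ≤ ‖x‖ + C₀ * t₀ + 1 := by
      have : y t + v = x + (y t - x) + v := by ring
      rw [this]
      refine (norm_add_le _ _).trans ?_
      have := norm_add_le x (y t - x)
      linarith
    have h2 : ‖x + v‖ ≤ ‖x‖ + C₀ * t₀ + 1 := by
      refine (norm_add_le _ _).trans ?_
      have : 0 ≤ C₀ * t₀ := mul_nonneg hPC.C0.le hPC.t0.le
      linarith
    have h3 := hCC t ht htt _ _ h1 h2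
    rw [add_sub_add_right_eq_sub] at h3
    have h4 : cen (S t) p (y t) v - cen T p x v =
        ((ev (S t))^[p] (y t + v) - (ev T)^[p] (x + v)) - (y t - x) := by
      simp only [cen]; ring
    rw [h4]
    refine (norm_sub_le _ _).trans ?_
    have h5 : C * (t + ‖y t - x‖) ≤ C * (t + C₀ * t) :=
      mul_le_mul_of_nonneg_left (by linarith) hC
    linarith
  -- the orbit in the centred coordinate
  have horb : ∀ i : ℕ, (cen T p x)^[i] (z - x) = (ev T)^[p * i] z - x := by
    intro i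
    rw [cen_iter, add_sub_cancel]
  have hlim0 : Tendsto (fun i : ℕ => (cen T p x)^[i] (z - x)) atTop (𝓝 0) := by
    simp only [horb]
    have := hlim.sub_const x
    simpa using this
  have hne0 : ∀ i : ℕ, (cen T p x)^[i] (z - x) ≠ 0 := by
    intro i
    rw [horb]
    exact sub_ne_zero.2 (hne i)
  obtain ⟨i₀, hi₀⟩ := eventually_atTop.1 (hlim0.eventually (ball_mem_nhds (0 : ℂ) one_pos))
  -- apply PBL
  have hF0 : cen T p x 0 = 0 := by simp [cen, hPC.fix]
  have hF1 : deriv (cen T p x) 0 = 1 := by rw [cen_deriv, hPC.mulT]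
  have hnid : ∃ w ∈ ball (0 : ℂ) 1, cen T p x w ≠ w := by
    by_contra hcon
    push Not at hcon
    have hconst : ∀ j : ℕ, (cen T p x)^[i₀ + j] (z - x) = (cen T p x)^[i₀] (z - x) := by
      intro j
      induction j with
      | zero => rfl
      | succ j ih =>
        rw [← add_assoc, Function.iterate_succ_apply', hcon _ (hi₀ _ (by omega)), ih]
    have hl2 : Tendsto (fun j : ℕ => (cen T p x)^[i₀ + j] (z - x)) atTop (𝓝 0) := by
      have := (tendsto_add_atTop_iff_nat i₀).2 hlim0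
      simpa [add_comm] using this
    simp only [hconst] at hl2
    exact hne0 i₀ (tendsto_nhds_unique tendsto_const_nhds hl2)
  have hit : ∀ j : ℕ, (cen T p x)^[j] ((cen T p x)^[i₀] (z - x)) =
      (cen T p x)^[j + i₀] (z - x) := fun j => (Function.iterate_add_apply _ _ _ _).symm
  obtain ⟨k₀, δ, s₀, hδ, hs₀, hmain⟩ := hPBL (cen T p x) 1 (C * (1 + C₀) + C₀)
    ((cen T p x)^[i₀] (z - x)) one_pos (by have := hPC.C0; positivity)
    (cen_diff T p x).differentiableOn hF0 hF1 hnid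
    (fun j => by rw [hit]; exact ⟨hi₀ _ (by omega), hne0 _⟩)
    (by
      simp only [hit]
      exact (tendsto_add_atTop_iff_nat i₀).2 hlim0)
  -- closeness of the long iterate
  set N : ℕ := p * (k₀ + i₀) with hN
  obtain ⟨C', hC', hCC'⟩ := close_iter T S t₀ C₀ hPC.C0.le hPC.t0.le hPC.deg hPC.cf N
    (‖z‖ + 1) (by positivity)
  -- choose t₁ such that everything works
  have hs : Tendsto (fun t : ℝ => 1 - (1 - t) ^ k) (𝓝 0) (𝓝 0) := by
    have : Continuous (fun t : ℝ => 1 - (1 - t) ^ k) := by fun_prop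
    have := this.tendsto 0
    simpa using this
  obtain ⟨t₂, ht₂, ht₂'⟩ := Metric.eventually_nhds_iff.1 (hs.eventually (gt_mem_nhds hs₀))
  set δ' : ℝ := min 1 (δ / (4 * (C' + C₀ + 1))) with hδ'
  have hden : 0 < 4 * (C' + C₀ + 1) := by have := hPC.C0; positivity
  have hδ'0 : 0 < δ' := lt_min one_pos (div_pos hδ hden)
  have hδ'1 : δ' ≤ 1 := min_le_left _ _
  have hδ'2 : (C' + C₀ + 1) * δ' ≤ δ / 4 := by
    have h1 : δ' ≤ δ / (4 * (C' + C₀ + 1)) := min_le_right _ _
    have h2 : 0 < C' + C₀ + 1 := by linarith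
    calc (C' + C₀ + 1) * δ' ≤ (C' + C₀ + 1) * (δ / (4 * (C' + C₀ + 1))) :=
          mul_le_mul_of_nonneg_left h1 h2.le
      _ = δ / 4 := by field_simp
  refine ⟨δ', min (min t₀ t₂) (min δ' 1), hδ'0, ?_, ?_⟩
  · exact lt_min (lt_min hPC.t0 ht₂) (lt_min hδ'0 one_pos)
  intro t ht htt z' hz'
  have ht0 : t ≤ t₀ := (htt.le.trans (min_le_left _ _)).trans (min_le_left _ _)
  have htt2 : t < t₂ := (htt.trans_le (min_le_left _ _)).trans_le (min_le_right _ _)
  have httd : t < δ' := (htt.trans_le (min_le_right _ _)).trans_le (min_le_left _ _)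
  have htt1 : t < 1 := (htt.trans_le (min_le_right _ _)).trans_le (min_le_right _ _)
  have hpow : (1 - t) ^ k ≤ 1 - t := by
    calc (1 - t) ^ k ≤ (1 - t) ^ 1 :=
          pow_le_pow_of_le_one (by linarith) (by linarith) hPC.kp
      _ = 1 - t := pow_one _
  have hpow0 : 0 < (1 - t) ^ k := pow_pos (by linarith) _
  have hmul := hPC.mul t ht.le ht0
  have hres := hmain (1 - (1 - t) ^ k) (by linarith)
    (ht₂' (by rw [Real.dist_eq, sub_zero, abs_of_pos ht]; exact htt2))
    (cen (S t) p (y t)) (cen_diff _ _ _).differentiableOn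
    (fun v hv => (hclose t ht.le ht0 v hv).trans (mul_le_mul_of_nonneg_left (by linarith)
      (by have := hPC.C0; positivity)))
    (by simp [cen, hPC.fixt t ht.le ht0])
    (by rw [cen_deriv, hmul]; push_cast; ring)
    ((ev (S t))^[N] z' - y t)
    (by
      rw [mem_ball, dist_eq_norm, hit, horb, ← hN]
      have hz1 : ‖z' - z‖ < δ' := by simpa [dist_eq_norm] using hz'
      have hz'2 : ‖z'‖ ≤ ‖z‖ + 1 := by
        have : z' = z + (z' - z) := by ring
        rw [this]
        exact (norm_add_le _ _).trans (by linarith)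
      have e1 := hCC' t ht.le ht0 z' z hz'2 (by linarith)
      have e2 : (ev (S t))^[N] z' - y t - ((ev T)^[N] z - x) =
          ((ev (S t))^[N] z' - (ev T)^[N] z) - (y t - x) := by ring
      rw [e2]
      refine (norm_sub_le _ _).trans_lt ?_
      have e3 := hPC.yx t ht.le ht0
      have e4 : C' * (t + ‖z' - z‖) ≤ C' * (δ' + δ') :=
        mul_le_mul_of_nonneg_left (by linarith) hC'
      have e5 : C₀ * t ≤ C₀ * δ' := mul_le_mul_of_nonneg_left httd.le hPC.C0.le
      nlinarith [hPC.C0])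
  right
  refine ⟨p, hp, y t, hPC.fixt t ht.le ht0, ?_, ?_⟩
  · rw [hmul, mul_one, norm_pow, Complex.norm_real, Real.norm_eq_abs, abs_of_pos (by linarith)]
    linarith
  · have h1 := hres.2
    simp only [cen_iter] at h1
    have h2 : Tendsto (fun j : ℕ => (ev (S t))^[p * j] (y t + ((ev (S t))^[N] z' - y t)))
        atTop (𝓝 (y t)) := by
      have := h1.add_const (y t)
      simpa using this
    rw [add_sub_cancel] at h2
    have h3 : ∀ j : ℕ, (ev (S t))^[p * j] ((ev (S t))^[N] z') =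
        (ev (S t))^[p * (j + (k₀ + i₀))] z' := by
      intro j
      rw [← Function.iterate_add_apply, hN]
      congr 2
      ring
    simp only [h3] at h2
    exact (tendsto_add_atTop_iff_nat (f := fun j : ℕ => (ev (S t))^[p * j] z') (k₀ + i₀)).1 h2

end Pool.Agent.H713R5.QJ
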