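import Mathlib
import Pool.Agent.H713R5.QJ.Defs1

set_option autoImplicit false

open Topology Filter Metric Set Polynomial MeasureTheory
open Pool.Agent.H713R3.ZA

namespace Pool.Agent.H713R5.QJ

theorem aprp_deriv (a : ℂ) (n : ℕ) (x : PE n) (z : ℂ) :
    deriv (fx a n x) z = a * ((n : ℂ) + 1) * ∏ i : Fin n, (z - x (some i)) := by
  have h : fx a n x = fun w => (fam a n x).eval w := rfl
  rw [h, Polynomial.deriv, derivative_fam]
  unfold dfam
  simp [Polynomial.eval_mul, Polynomial.eval_prod]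

theorem aprp_diff (a : ℂ) (n : ℕ) (x : PE n) : Differentiable ℂ (fx a n x) := by
  have h : fx a n x = fun w => (fam a n x).eval w := rfl
  rw [h]
  exact Polynomial.differentiable _

theorem aprp_per {f : ℂ → ℂ} {R : ℝ} (hR1 : 1 ≤ R)
    (hR : ∀ z, R ≤ ‖z‖ → 2 * ‖z‖ ≤ ‖f z‖) {P : ℕ} (hP : 0 < P) {z : ℂ}
    (hz : f^[P] z = z) : ‖z‖ ≤ R := by
  by_contra hcon
  rw [not_le] at hcon
  have hz0 : 0 < ‖z‖ := by linarith
  have key : ∀ k : ℕ, 2 ^ k * ‖z‖ ≤ ‖f^[k] z‖ := by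
    intro k
    induction k with
    | zero => simp
    | succ k ih =>
      rw [Function.iterate_succ_apply']
      have h1 : (1 : ℝ) ≤ 2 ^ k := one_le_pow₀ (by norm_num)
      have h2 : R ≤ ‖f^[k] z‖ := by nlinarith
      have h3 := hR _ h2
      rw [pow_succ]
      nlinarith
  have h1 := key P
  rw [hz] at h1
  have h2 : (2 : ℝ) ≤ 2 ^ P := by
    calc (2 : ℝ) = 2 ^ 1 := (pow_one _).symm
      _ ≤ 2 ^ P := pow_le_pow_right₀ (by norm_num) hP
  nlinarith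

theorem aprp_C2 {a : ℂ} (ha : a ≠ 0) {n : ℕ} (hn : 1 ≤ n) {P : ℕ} (hP : 0 < P) (B : ℝ) :
    ∃ R C₂ : ℝ, 1 ≤ R ∧ 1 ≤ C₂ ∧ ∀ x ∈ ball (0 : PE n) B, ∀ z : ℂ, (fx a n x)^[P] z = z →
      ‖z‖ ≤ R ∧ ‖deriv (fx a n x) z‖ ≤ C₂ := by
  obtain ⟨R, hR1, hR⟩ := exists_esc ha hn B
  refine ⟨R, max 1 (‖a * ((n : ℂ) + 1)‖ * (R + B) ^ n), hR1, le_max_left _ _,
    fun x hx z hz => ?_⟩
  rw [mem_ball_zero_iff] at hx
  have h1 : ‖z‖ ≤ R := aprp_per hR1 (hR x hx.le) hP hz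
  refine ⟨h1, le_trans ?_ (le_max_right _ _)⟩
  rw [aprp_deriv, norm_mul]
  refine mul_le_mul_of_nonneg_left ?_ (norm_nonneg _)
  rw [norm_prod]
  calc ∏ i : Fin n, ‖z - x (some i)‖ ≤ ∏ _i : Fin n, (R + B) := by
        refine Finset.prod_le_prod (fun i _ => norm_nonneg _) fun i _ => ?_
        refine (norm_sub_le _ _).trans (add_le_add h1 ?_)
        exact (norm_le_pi_norm x (some i)).trans hx.le
    _ = (R + B) ^ n := by simp

theorem aprp_crit {a : ℂ} (ha : a ≠ 0) {n : ℕ} (x : PE n) (v : ℂ) : ∀ k : ℕ,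
    deriv ((fx a n x)^[k]) v = 0 → ∃ j < k, ∃ l : Fin n, (fx a n x)^[j] v = x (some l) := by
  intro k
  induction k with
  | zero =>
    intro h
    exfalso
    rw [Function.iterate_zero, deriv_id] at h
    exact one_ne_zero h
  | succ k ih =>
    intro h
    rw [Function.iterate_succ', deriv_comp v ((aprp_diff a n x) _)
      (((aprp_diff a n x).iterate k) v), mul_eq_zero] at h
    rcases h with h | h
    · rw [aprp_deriv, mul_eq_zero] at h
      rcases h with h | h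
      · exfalso
        rw [mul_eq_zero] at h
        rcases h with h | h
        · exact ha h
        · have h2 : ((n + 1 : ℕ) : ℂ) = 0 := by push_cast; exact h
          exact (Nat.succ_ne_zero n) (Nat.cast_eq_zero.1 h2)
      · obtain ⟨l, -, hl⟩ := Finset.prod_eq_zero_iff.1 h
        exact ⟨k, Nat.lt_succ_self k, l, sub_eq_zero.1 hl⟩
    · obtain ⟨j, hj, l, hl⟩ := ih h
      exact ⟨j, by omega, l, hl⟩

theorem aprp_min {ι : Type} (s : Finset ι) (p : ι → ℝ → Prop)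
    (hp : ∀ i ∈ s, ∃ θ : ℝ, 0 < θ ∧ p i θ)
    (hm : ∀ i, ∀ θ θ' : ℝ, 0 < θ' → θ' ≤ θ → p i θ → p i θ') :
    ∃ θ : ℝ, 0 < θ ∧ ∀ i ∈ s, p i θ := by
  classical
  induction s using Finset.induction_on with
  | empty => exact ⟨1, one_pos, by simp⟩
  | insert i s hi ih =>
    obtain ⟨θ, hθ, h⟩ := ih (fun j hj => hp j (Finset.mem_insert_of_mem hj))
    obtain ⟨θ', hθ', h'⟩ := hp i (Finset.mem_insert_self _ _)
    refine ⟨min θ θ', lt_min hθ hθ', fun j hj => ?_⟩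
    rcases Finset.mem_insert.1 hj with rfl | hj
    · exact hm _ _ _ (lt_min hθ hθ') (min_le_right _ _) h'
    · exact hm _ _ _ (lt_min hθ hθ') (min_le_left _ _) (h j hj)

theorem aprp_max {ι : Type} (s : Finset ι) (p : ι → ℝ → Prop)
    (hp : ∀ i ∈ s, ∃ θ : ℝ, 0 < θ ∧ p i θ)
    (hm : ∀ i, ∀ θ θ' : ℝ, θ ≤ θ' → p i θ → p i θ') :
    ∃ θ : ℝ, 0 < θ ∧ ∀ i ∈ s, p i θ := by
  classical
  induction s using Finset.induction_on with
  | empty => exact ⟨1, one_pos, by simp⟩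
  | insert i s hi ih =>
    obtain ⟨θ, hθ, h⟩ := ih (fun j hj => hp j (Finset.mem_insert_of_mem hj))
    obtain ⟨θ', hθ', h'⟩ := hp i (Finset.mem_insert_self _ _)
    refine ⟨max θ θ', lt_max_of_lt_left hθ, fun j hj => ?_⟩
    rcases Finset.mem_insert.1 hj with rfl | hj
    · exact hm _ _ _ (le_max_right _ _) h'
    · exact hm _ _ _ (le_max_left _ _) (h j hj)

/-- what `StKO0` and `StKO2` say about one map -/
structure AprpK (a : ℂ) (n P : ℕ) (x : PE n) (R C₂ : ℝ) : Prop where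
  C2 : 1 ≤ C₂
  per : ∀ z : ℂ, (fx a n x)^[P] z = z → ‖z‖ ≤ R ∧ ‖deriv (fx a n x) z‖ ≤ C₂
  nxt : ∀ u : ℂ, (x, u) ∈ A0 a n P → (x, fx a n x u) ∈ A0 a n P ∧
    deriv (fx a n x) (SP (fx a n x) P u) ≠ 0 ∧
    KP (fx a n x) P (fx a n x u) = deriv (fx a n x) (SP (fx a n x) P u) * KP (fx a n x) P u ∧
    KP (fx a n x) P ((fx a n x)^[P] u) = LP (fx a n x) P u * KP (fx a n x) P u ∧
    SP (fx a n x) P (fx a n x u) = fx a n x (SP (fx a n x) P u) ∧
    LP (fx a n x) P (fx a n x u) = LP (fx a n x) P u ∧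
    Sk (fx a n x) P u (SP (fx a n x) P u)

theorem AprpK.iter {a : ℂ} {n P : ℕ} {x : PE n} {R C₂ : ℝ} (h : AprpK a n P x R C₂) {u : ℂ}
    (hu : (x, u) ∈ A0 a n P) (k : ℕ) : (x, (fx a n x)^[k] u) ∈ A0 a n P ∧
      SP (fx a n x) P ((fx a n x)^[k] u) = (fx a n x)^[k] (SP (fx a n x) P u) ∧
      LP (fx a n x) P ((fx a n x)^[k] u) = LP (fx a n x) P u ∧
      ‖KP (fx a n x) P ((fx a n x)^[k] u)‖ ≤ C₂ ^ k * ‖KP (fx a n x) P u‖ ∧
      (KP (fx a n x) P u ≠ 0 → KP (fx a n x) P ((fx a n x)^[k] u) ≠ 0) := by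
  induction k with
  | zero => simp [hu]
  | succ k ih =>
    obtain ⟨h1, h2, h3, h4, h5⟩ := ih
    obtain ⟨g1, g2, g3, -, g5, g6, g7⟩ := h.nxt _ h1
    rw [Function.iterate_succ_apply']
    refine ⟨g1, ?_, ?_, ?_, ?_⟩
    · rw [g5, h2, Function.iterate_succ_apply']
    · rw [g6, h3]
    · rw [g3, norm_mul, pow_succ]
      have h6 := (h.per _ g7.1).2
      have h7 : 0 ≤ C₂ := by linarith [h.C2]
      calc _ ≤ C₂ * (C₂ ^ k * ‖KP (fx a n x) P u‖) :=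
            mul_le_mul h6 h4 (norm_nonneg _) h7
        _ = _ := by ring
    · intro h6
      rw [g3]
      exact mul_ne_zero g2 (h5 h6)

theorem AprpK.iterP {a : ℂ} {n P : ℕ} {x : PE n} {R C₂ : ℝ} (h : AprpK a n P x R C₂) {u : ℂ}
    (hu : (x, u) ∈ A0 a n P) (k : ℕ) :
    KP (fx a n x) P ((fx a n x)^[P * k] u) = LP (fx a n x) P u ^ k * KP (fx a n x) P u := by
  induction k with
  | zero => simp
  | succ k ih =>
    obtain ⟨h1, -, h3, -, -⟩ := h.iter hu (P * k)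
    obtain ⟨-, -, -, g4, -⟩ := h.nxt _ h1
    rw [show P * (k + 1) = P + P * k by ring, Function.iterate_add_apply, g4, h3, ih]
    ring

theorem AprpK.lower {a : ℂ} {n P : ℕ} {x : PE n} {R C₂ : ℝ} (h : AprpK a n P x R C₂)
    (hP : 0 < P) {u : ℂ} (hu : (x, u) ∈ A0 a n P) (k : ℕ) :
    ‖LP (fx a n x) P u‖ ^ k * ‖KP (fx a n x) P u‖ ≤
      C₂ ^ ((P - 1) * k) * ‖KP (fx a n x) P ((fx a n x)^[k] u)‖ := by
  have h1 := h.iterP hu k
  obtain ⟨h2, -, -, -, -⟩ := h.iter hu k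
  obtain ⟨-, -, -, h3, -⟩ := h.iter h2 ((P - 1) * k)
  have h4 : P * k = (P - 1) * k + k := by
    obtain ⟨m, rfl⟩ : ∃ m, P = m + 1 := ⟨P - 1, by omega⟩
    simp only [Nat.add_sub_cancel]
    ring
  rw [← Function.iterate_add_apply, ← h4, h1, norm_mul, norm_pow] at h3
  exact h3

/-- the hypothesis on the map -/
def AprpH (a : ℂ) (n P : ℕ) (Es : Finset (Fin n)) (rf : Fin n → Fin n) (ap : Fin n → ℕ)
    (x₂ x : PE n) : Prop :=
  ∀ i ∈ Es, (x, x (some i)) ∈ A0 a n P ∧ KP (fx a n x) P (x (some i)) ≠ 0 ∧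
    LP (fx a n x) P (x (some i)) = LP (fx a n x₂) P (x₂ (some i)) ∧
    SP (fx a n x) P (x (some i)) = (fx a n x)^[ap i] (SP (fx a n x) P (x (some (rf i)))) ∧
    nu a n P rf i x * dn a n P rf ap i x₂ = nu a n P rf i x₂ * dn a n P rf ap i x

/-- the comparison of the positions of a critical point and of its reference -/
theorem aprp_cmp {a : ℂ} {n P : ℕ} {B R C₂ : ℝ} {Es : Finset (Fin n)} {rf : Fin n → Fin n}
    {ap : Fin n → ℕ} {x₂ : PE n} (hP : 0 < P) (hrf : RFP n Es rf ap)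
    (hK : ∀ x ∈ ball (0 : PE n) B, AprpK a n P x R C₂) (hx₂ : x₂ ∈ ball (0 : PE n) B)
    (h2 : ∀ i ∈ Es, (x₂, x₂ (some i)) ∈ A0 a n P ∧ KP (fx a n x₂) P (x₂ (some i)) ≠ 0)
    (l : Fin n) (hl : l ∈ Es) : ∃ θ Θ : ℝ, 0 < θ ∧ 0 < Θ ∧ ∀ x ∈ ball (0 : PE n) B,
      AprpH a n P Es rf ap x₂ x →
      θ * ‖KP (fx a n x) P (x (some (rf l)))‖ ≤ ‖KP (fx a n x) P (x (some l))‖ ∧
      ‖KP (fx a n x) P (x (some l))‖ ≤ Θ * ‖KP (fx a n x) P (x (some (rf l)))‖ := by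
  by_cases hll : rf l = l
  · refine ⟨1, 1, one_pos, one_pos, fun x _ _ => ?_⟩
    rw [hll, one_mul]
    exact ⟨le_rfl, le_rfl⟩
  have hC2 : 0 < C₂ := by linarith [(hK x₂ hx₂).C2]
  have hi := hrf.mem l hl
  have hnu : nu a n P rf l x₂ ≠ 0 := by
    unfold nu
    rw [if_neg hll]
    exact (h2 l hl).2
  have hdn : dn a n P rf ap l x₂ ≠ 0 := by
    unfold dn
    rw [if_neg hll]
    exact ((hK x₂ hx₂).iter (h2 _ hi).1 (ap l)).2.2.2.2 (h2 _ hi).2
  have hlam : LP (fx a n x₂) P (x₂ (some (rf l))) ≠ 0 := (h2 _ hi).1.2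
  set q : ℝ := ‖nu a n P rf l x₂‖ / ‖dn a n P rf ap l x₂‖ with hq
  have hq0 : 0 < q := div_pos (norm_pos_iff.2 hnu) (norm_pos_iff.2 hdn)
  refine ⟨q * (‖LP (fx a n x₂) P (x₂ (some (rf l)))‖ ^ (ap l) / C₂ ^ ((P - 1) * ap l)),
    q * C₂ ^ (ap l), mul_pos hq0 (div_pos (pow_pos (norm_pos_iff.2 hlam) _) (pow_pos hC2 _)),
    mul_pos hq0 (pow_pos hC2 _), fun x hx hH => ?_⟩
  have hinv := (hH l hl).2.2.2.2
  have hnx : nu a n P rf l x = KP (fx a n x) P (x (some l)) := by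
    unfold nu
    rw [if_neg hll]
  have hdx : dn a n P rf ap l x = KP (fx a n x) P ((fx a n x)^[ap l] (x (some (rf l)))) := by
    unfold dn
    rw [if_neg hll]
  rw [hnx, hdx] at hinv
  have hkey : ‖KP (fx a n x) P (x (some l))‖ =
      q * ‖KP (fx a n x) P ((fx a n x)^[ap l] (x (some (rf l))))‖ := by
    have h3 := congrArg norm hinv
    rw [norm_mul, norm_mul] at h3
    rw [hq, div_mul_eq_mul_div, eq_div_iff (norm_ne_zero_iff.2 hdn), h3]
  have hlow := (hK x hx).lower hP (hH _ hi).1 (ap l)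
  have hup := ((hK x hx).iter (hH _ hi).1 (ap l)).2.2.2.1
  rw [(hH _ hi).2.2.1] at hlow
  rw [hkey]
  constructor
  · rw [mul_assoc]
    refine mul_le_mul_of_nonneg_left ?_ hq0.le
    rw [div_mul_eq_mul_div, div_le_iff₀ (pow_pos hC2 _), mul_comm (‖KP _ _ _‖) (C₂ ^ _)]
    exact hlow
  · rw [mul_assoc]
    exact mul_le_mul_of_nonneg_left hup hq0.le

theorem aprp_holds : StAPRP := by
  intro hKO0 hKO1 hKO2 hKO3 hROOT hKBP a n P B R₀ Es rf ap x₂ ha hn hP hrf hx₂ h2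
  obtain ⟨R, C₂, hR1, hC2, hbd⟩ := aprp_C2 ha hn hP B
  have hK2 := (hKO2 hKO0 hKO1 hKO3 a n P ha hn hP).2
  have hK0 : ∀ x : PE n, _ := fun x => hKO0 (fx a n x) P (aprp_diff a n x) hP
  have hK : ∀ x ∈ ball (0 : PE n) B, AprpK a n P x R C₂ := by
    intro x hx
    refine ⟨hC2, hbd x hx, fun u hu => ?_⟩
    obtain ⟨-, g2, g3, g4, g5⟩ := hK2 x u hu
    obtain ⟨-, k2, -, k4, -⟩ := hK0 x
    exact ⟨g2, g3, g4, g5, (k4 u hu.1).1, (k4 u hu.1).2, k2 u hu.1⟩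
  have hcmp := aprp_cmp hP hrf hK hx₂ h2
  obtain ⟨θ, hθ, hlow⟩ := aprp_min Es (fun l θ => ∀ x ∈ ball (0 : PE n) B,
      AprpH a n P Es rf ap x₂ x →
      θ * ‖KP (fx a n x) P (x (some (rf l)))‖ ≤ ‖KP (fx a n x) P (x (some l))‖)
    (fun l hl => by
      obtain ⟨θ, Θ, h3, -, h4⟩ := hcmp l hl
      exact ⟨θ, h3, fun x hx hH => (h4 x hx hH).1⟩)
    (fun l θ θ' _ h3 h4 x hx hH =>
      (mul_le_mul_of_nonneg_right h3 (norm_nonneg _)).trans (h4 x hx hH))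
  obtain ⟨Θ, hΘ, hup⟩ := aprp_max Es (fun l Θ => ∀ x ∈ ball (0 : PE n) B,
      AprpH a n P Es rf ap x₂ x →
      ‖KP (fx a n x) P (x (some l))‖ ≤ Θ * ‖KP (fx a n x) P (x (some (rf l)))‖)
    (fun l hl => by
      obtain ⟨θ, Θ, -, h3, h4⟩ := hcmp l hl
      exact ⟨Θ, h3, fun x hx hH => (h4 x hx hH).2⟩)
    (fun l θ θ' h3 h4 x hx hH =>
      (h4 x hx hH).trans (mul_le_mul_of_nonneg_right h3 (norm_nonneg _)))
  have hC2' : 0 < C₂ := by linarith
  set c' : ℝ := θ / C₂ ^ P with hc'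
  have hc'0 : 0 < c' := div_pos hθ (pow_pos hC2' _)
  set CR : ℝ := 100 * (|R₀| + R) / c' with hCR
  have hCR0 : 0 < CR := by
    have := abs_nonneg R₀
    exact div_pos (by linarith) hc'0
  refine ⟨C₂ ^ P * (Θ * CR), mul_pos (pow_pos hC2' _) (mul_pos hΘ hCR0), ?_⟩
  intro x hx hH hdis hnat ⟨u, hu, hua⟩
  have hH' : AprpH a n P Es rf ap x₂ x := hH
  have hKx := hK x hx
  obtain ⟨k1, k2, k3, k4, k5⟩ := hK0 x
  -- references
  have href : ∀ i ∈ Es, rf i = i → ‖KP (fx a n x) P (x (some i))‖ ≤ CR := by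
    intro i hi hii
    obtain ⟨i1, i2, -, -, -⟩ := hH i hi
    have hsk := k2 _ i1.1
    set zs := SP (fx a n x) P (x (some i)) with hzs
    have hA : 0 < c' * ‖KP (fx a n x) P (x (some i))‖ :=
      mul_pos hc'0 (norm_pos_iff.2 i2)
    have hkbp := hKBP hKO0 hKO1 hKO2 hKO3 hROOT a n P ha hn hP x zs hsk.1 i1.2 hsk.2.1
      (c' * ‖KP (fx a n x) P (x (some i))‖) hA ?_ u (fun h => hua ⟨zs, h⟩)
    · have h3 : ‖u - zs‖ ≤ |R₀| + R := by
        refine (norm_sub_le _ _).trans (add_le_add (hu.trans (le_abs_self _)) ?_)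
        exact (hbd x hx zs hsk.1).1
      rw [hCR, le_div_iff₀ hc'0, mul_comm]
      linarith
    · intro v hv hvs
      obtain ⟨j, hj, l, hl⟩ := aprp_crit ha x v P hv
      have hvSP : SP (fx a n x) P v = zs := k1 v zs hvs
      have hvA : (x, v) ∈ A0 a n P := by
        refine ⟨⟨zs, hvs⟩, ?_⟩
        change deriv ((fx a n x)^[P]) (SP (fx a n x) P v) ≠ 0
        rw [hvSP]
        exact i1.2
      obtain ⟨m1, m2, m3, m4, -⟩ := hKx.iter hvA j
      rw [hl] at m1 m2 m3 m4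
      have hlE : l ∈ Es := by
        by_contra hcon
        exact hnat l hcon m1.1
      obtain ⟨l1, l2, -, l4, -⟩ := hH l hlE
      have hri := hrf.mem l hlE
      have hrr := hrf.idem l hlE
      have hri' : rf l = i := by
        by_contra hne
        refine hdis i hi (rf l) hri hii hrr (fun h => hne h.symm) ((P - 1) * ap l + j) ?_
        have h5 := (k2 _ (hH _ hri).1.1).1
        have h6 : ∀ k : ℕ, (fx a n x)^[P * k] (SP (fx a n x) P (x (some (rf l)))) =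
            SP (fx a n x) P (x (some (rf l))) := by
          intro k
          rw [Function.iterate_mul]
          exact Function.iterate_fixed h5 k
        have h7 : P * ap l = (P - 1) * ap l + ap l := by
          obtain ⟨m, rfl⟩ : ∃ m, P = m + 1 := ⟨P - 1, by omega⟩
          simp only [Nat.add_sub_cancel]
          ring
        rw [← h6 (ap l), h7, Function.iterate_add_apply, Function.iterate_add_apply, ← l4, m2,
          hvSP]
      have h8 := hlow l hlE x hx hH'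
      rw [hri'] at h8
      have h9 : C₂ ^ j ≤ C₂ ^ P := pow_le_pow_right₀ hC2 hj.le
      have h10 : ‖KP (fx a n x) P (x (some l))‖ ≤ C₂ ^ P * ‖KP (fx a n x) P v‖ :=
        m4.trans (mul_le_mul_of_nonneg_right h9 (norm_nonneg _))
      rw [hc', div_mul_eq_mul_div, div_le_iff₀ (pow_pos hC2' _), mul_comm (‖KP _ _ v‖)]
      exact h8.trans h10
  intro i hi b hb
  obtain ⟨i1, i2, -, -, -⟩ := hH i hi
  have h3 := (hKx.iter i1 b).2.2.2.1
  have h4 := hup i hi x hx hH'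
  have h5 := href (rf i) (hrf.mem i hi) (hrf.idem i hi)
  calc ‖KP (fx a n x) P ((fx a n x)^[b] (x (some i)))‖
      ≤ C₂ ^ b * ‖KP (fx a n x) P (x (some i))‖ := h3
    _ ≤ C₂ ^ P * ‖KP (fx a n x) P (x (some i))‖ :=
        mul_le_mul_of_nonneg_right (pow_le_pow_right₀ hC2 hb) (norm_nonneg _)
    _ ≤ C₂ ^ P * (Θ * ‖KP (fx a n x) P (x (some (rf i)))‖) :=
        mul_le_mul_of_nonneg_left h4 (pow_pos hC2' _).le
    _ ≤ C₂ ^ P * (Θ * CR) :=
        mul_le_mul_of_nonneg_left (mul_le_mul_of_nonneg_left h5 hΘ.le) (pow_pos hC2' _).le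

end Pool.Agent.H713R5.QJ
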