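import Mathlib
import Pool.Agent.H713R5.QJ.Defs
import Pool.Agent.Helper540.Osgood

set_option autoImplicit false

open Topology Filter Metric Set Polynomial MeasureTheory

namespace Pool.Agent.H713R5.QJ

namespace APX

theorem ev_iter (T : ℂ[X]) (p : ℕ) :
    ∃ P : ℂ[X], (∀ w, (ev T)^[p] w = P.eval w) ∧ P.natDegree = T.natDegree ^ p := by
  refine ⟨(T.comp)^[p] X, fun w => ?_, ?_⟩
  · rw [Polynomial.iterate_comp_eval]
    simp only [eval_X]
    rfl
  · rw [Polynomial.natDegree_iterate_comp, natDegree_X, mul_one]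

theorem ev_iter_diff (T : ℂ[X]) (p : ℕ) : Differentiable ℂ ((ev T)^[p]) := by
  obtain ⟨P, hP, -⟩ := ev_iter T p
  have h : (ev T)^[p] = fun w => P.eval w := funext hP
  rw [h]
  exact P.differentiable

theorem ev_diff (T : ℂ[X]) : Differentiable ℂ (ev T) := T.differentiable

theorem deriv_ev (T : ℂ[X]) (z : ℂ) : deriv (ev T) z = (derivative T).eval z := by
  have : ev T = fun w => T.eval w := rfl
  rw [this, Polynomial.deriv]

theorem finite_fix (T : ℂ[X]) (h2 : 2 ≤ T.natDegree) (p : ℕ) (hp : 0 < p) :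
    {x : ℂ | (ev T)^[p] x = x}.Finite := by
  obtain ⟨P, hP, hd⟩ := ev_iter T p
  have hdeg : 2 ≤ P.natDegree := by
    rw [hd]
    calc 2 ≤ T.natDegree := h2
      _ = T.natDegree ^ 1 := (pow_one _).symm
      _ ≤ T.natDegree ^ p := Nat.pow_le_pow_right (by omega) hp
  have hne : P - X ≠ 0 := by
    intro h0
    have h1 : P = X := sub_eq_zero.1 h0
    rw [h1, natDegree_X] at hdeg
    omega
  refine ((P - X).roots.toFinset.finite_toSet).subset ?_
  intro x hx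
  have hx' : (ev T)^[p] x = x := hx
  rw [Finset.mem_coe, Multiset.mem_toFinset, mem_roots hne]
  rw [IsRoot.def, eval_sub, eval_X, ← hP x, hx', sub_self]

/-- multiplier at the image point -/
theorem deriv_shift (T : ℂ[X]) (p : ℕ) (x : ℂ) (hx : (ev T)^[p] x = x) :
    deriv ((ev T)^[p]) (ev T x) * deriv (ev T) x = deriv (ev T) x * deriv ((ev T)^[p]) x := by
  have h1 : (ev T)^[p + 1] = (ev T)^[p] ∘ (ev T) := Function.iterate_succ _ _
  have h2 : (ev T)^[p + 1] = (ev T) ∘ (ev T)^[p] := Function.iterate_succ' _ _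
  have e1 : deriv ((ev T)^[p + 1]) x = deriv ((ev T)^[p]) (ev T x) * deriv (ev T) x := by
    rw [h1]
    exact deriv_comp x (ev_iter_diff T p _) (ev_diff T _)
  have e2 : deriv ((ev T)^[p + 1]) x = deriv (ev T) x * deriv ((ev T)^[p]) x := by
    rw [h2]
    have := deriv_comp x (ev_diff T ((ev T)^[p] x)) (ev_iter_diff T p x)
    rw [this, hx]
  rw [← e1, e2]

theorem deriv_ne (T : ℂ[X]) (p : ℕ) (hp : 0 < p) (x : ℂ)
    (hm : deriv ((ev T)^[p]) x ≠ 0) : deriv (ev T) x ≠ 0 := by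
  obtain ⟨q, rfl⟩ : ∃ q, p = q + 1 := ⟨p - 1, by omega⟩
  have h1 : (ev T)^[q + 1] = (ev T)^[q] ∘ (ev T) := Function.iterate_succ _ _
  have e1 : deriv ((ev T)^[q + 1]) x = deriv ((ev T)^[q]) (ev T x) * deriv (ev T) x := by
    rw [h1]
    exact deriv_comp x (ev_iter_diff T q _) (ev_diff T _)
  intro h
  rw [e1, h, mul_zero] at hm
  exact hm rfl

theorem deriv_pow (T : ℂ[X]) (p : ℕ) (x : ℂ) (hx : (ev T)^[p] x = x) (m : ℕ) :
    deriv ((ev T)^[p * m]) x = (deriv ((ev T)^[p]) x) ^ m := by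
  induction m with
  | zero =>
    rw [mul_zero, pow_zero]
    have : (ev T)^[0] = fun w => w := rfl
    rw [this]
    exact deriv_id x
  | succ m ih =>
    have h1 : (ev T)^[p * (m + 1)] = (ev T)^[p * m] ∘ (ev T)^[p] := by
      rw [mul_add, mul_one, Function.iterate_add]
    rw [h1, deriv_comp x (ev_iter_diff T _ _) (ev_iter_diff T _ _), hx, ih, pow_succ]

/-- indifferent periodic points of period at most `j` -/
def Ind (T : ℂ[X]) (j : ℕ) : Set ℂ :=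
  {x | ∃ p : ℕ, 0 < p ∧ p ≤ j ∧ (ev T)^[p] x = x ∧ ‖deriv ((ev T)^[p]) x‖ = 1}

theorem ind_finite (T : ℂ[X]) (h2 : 2 ≤ T.natDegree) (j : ℕ) : (Ind T j).Finite := by
  have h : Ind T j ⊆ ⋃ p ∈ Finset.Icc 1 j, {x : ℂ | (ev T)^[p] x = x} := by
    rintro x ⟨p, hp, hpj, hx, -⟩
    exact mem_biUnion (Finset.mem_coe.2 (Finset.mem_Icc.2 ⟨hp, hpj⟩)) hx
  refine Set.Finite.subset ?_ h
  refine Set.Finite.biUnion (Finset.finite_toSet _) ?_
  intro p hp
  exact finite_fix T h2 p (Finset.mem_Icc.1 hp).1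

theorem ind_cyc (T : ℂ[X]) (h2 : 2 ≤ T.natDegree) (j : ℕ) :
    Cyc T (ind_finite T h2 j).toFinset := by
  refine ⟨?_, ?_, ?_⟩
  · intro z hz
    rw [Set.Finite.mem_toFinset] at hz ⊢
    obtain ⟨p, hp, hpj, hx, hm⟩ := hz
    have hd : deriv (ev T) z ≠ 0 := by
      apply deriv_ne T p hp z
      intro h0
      rw [h0, norm_zero] at hm
      exact zero_ne_one hm
    refine ⟨p, hp, hpj, ?_, ?_⟩
    · show (ev T)^[p] (ev T z) = ev T z
      rw [← Function.iterate_succ_apply, Function.iterate_succ_apply', hx]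
    · have h := deriv_shift T p z hx
      have h' : deriv ((ev T)^[p]) (ev T z) = deriv ((ev T)^[p]) z := by
        have : (deriv ((ev T)^[p]) (ev T z) - deriv ((ev T)^[p]) z) * deriv (ev T) z = 0 := by
          rw [sub_mul, h]
          ring
        rcases mul_eq_zero.1 this with h3 | h3
        · exact sub_eq_zero.1 h3
        · exact absurd h3 hd
      show ‖deriv ((ev T)^[p]) (ev T z)‖ = 1
      rw [h', hm]
  · intro z hz z' hz' heq
    rw [Set.Finite.mem_toFinset] at hz hz'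
    obtain ⟨p, hp, hpj, hx, hm⟩ := hz
    obtain ⟨p', hp', hpj', hx', hm'⟩ := hz'
    have heq' : ev T z = ev T z' := heq
    have a1 : (ev T)^[p * p'] z = z := by
      rw [Function.iterate_mul]
      exact Function.iterate_fixed hx p'
    have a2 : (ev T)^[p * p'] z' = z' := by
      rw [mul_comm, Function.iterate_mul]
      exact Function.iterate_fixed hx' p
    obtain ⟨q, hq⟩ : ∃ q, p * p' = q + 1 := ⟨p * p' - 1, by
      have := Nat.mul_pos hp hp'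
      omega⟩
    rw [hq] at a1 a2
    rw [← a1, ← a2, Function.iterate_succ_apply, Function.iterate_succ_apply, heq']
  · intro z hz
    rw [Set.Finite.mem_toFinset] at hz
    obtain ⟨p, hp, hpj, hx, hm⟩ := hz
    rw [← deriv_ev]
    apply deriv_ne T p hp z
    intro h0
    rw [h0, norm_zero] at hm
    exact zero_ne_one hm

theorem ind_unit (T : ℂ[X]) (h2 : 2 ≤ T.natDegree) (j : ℕ) :
    ∀ z ∈ (ind_finite T h2 j).toFinset, ∀ p : ℕ, 0 < p → (ev T)^[p] z = z →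
      ‖deriv ((ev T)^[p]) z‖ = 1 := by
  intro z hz p hp hpz
  rw [Set.Finite.mem_toFinset] at hz
  obtain ⟨q, hq, hqj, hx, hm⟩ := hz
  have h1 := deriv_pow T p z hpz q
  have h3 := deriv_pow T q z hx p
  rw [mul_comm] at h3
  have h4 : ‖deriv ((ev T)^[p]) z‖ ^ q = 1 := by
    rw [← norm_pow, ← h1, h3, norm_pow, hm, one_pow]
  exact (pow_eq_one_iff_of_nonneg (norm_nonneg _) (by omega)).1 h4

theorem escape_radius (T : ℂ[X]) (h2 : 2 ≤ T.natDegree) :
    ∃ R : ℝ, 1 ≤ R ∧ ∀ S : ℂ[X], S.natDegree = T.natDegree →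
      S.coeff T.natDegree = T.coeff T.natDegree →
      (∀ j : ℕ, ‖S.coeff j - T.coeff j‖ ≤ 1) → ∀ w : ℂ, R ≤ ‖w‖ → 2 * ‖w‖ ≤ ‖ev S w‖ := by
  set d := T.natDegree with hd
  set a := ‖T.coeff d‖ with ha
  have ha0 : 0 < a := by
    rw [ha, norm_pos_iff]
    have : T ≠ 0 := by
      rintro rfl
      simp at hd
      omega
    exact (Polynomial.leadingCoeff_ne_zero).2 this
  set M := ∑ i ∈ Finset.range d, (‖T.coeff i‖ + 1) with hM
  have hM0 : 0 ≤ M := Finset.sum_nonneg (fun i _ => by positivity)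
  refine ⟨max 1 ((M + 2) / a), le_max_left _ _, ?_⟩
  intro S hSd hSl hSc w hw
  have hw1 : 1 ≤ ‖w‖ := (le_max_left _ _).trans hw
  have hw2 : M + 2 ≤ a * ‖w‖ := by
    have := (le_max_right _ _).trans hw
    rw [div_le_iff₀ ha0] at this
    linarith
  have hev : ev S w = (∑ i ∈ Finset.range d, S.coeff i * w ^ i) + T.coeff d * w ^ d := by
    show S.eval w = _
    rw [eval_eq_sum_range, hSd, Finset.sum_range_succ, hSl]
  have hsum : ‖∑ i ∈ Finset.range d, S.coeff i * w ^ i‖ ≤ M * ‖w‖ ^ (d - 1) := by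
    rw [hM, Finset.sum_mul]
    refine (norm_sum_le _ _).trans (Finset.sum_le_sum ?_)
    intro i hi
    rw [Finset.mem_range] at hi
    rw [norm_mul, norm_pow]
    have h1 : ‖S.coeff i‖ ≤ ‖T.coeff i‖ + 1 := by
      have h3 : S.coeff i = T.coeff i + (S.coeff i - T.coeff i) := by ring
      rw [h3]
      exact (norm_add_le _ _).trans (by linarith [hSc i])
    have h3 : ‖w‖ ^ i ≤ ‖w‖ ^ (d - 1) := pow_le_pow_right₀ hw1 (by omega)
    exact mul_le_mul h1 h3 (by positivity) (by positivity)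
  have hlow : a * ‖w‖ ^ d - M * ‖w‖ ^ (d - 1) ≤ ‖ev S w‖ := by
    rw [hev]
    have h1 := norm_sub_le_norm_add (T.coeff d * w ^ d) (∑ i ∈ Finset.range d, S.coeff i * w ^ i)
    rw [add_comm] at h1
    rw [norm_mul, norm_pow] at h1
    linarith
  have hdd : ‖w‖ ^ d = ‖w‖ * ‖w‖ ^ (d - 1) := by
    rw [← pow_succ']
    congr 1
    omega
  have hp1 : ‖w‖ ≤ ‖w‖ ^ (d - 1) := by
    calc ‖w‖ = ‖w‖ ^ 1 := (pow_one _).symm
      _ ≤ ‖w‖ ^ (d - 1) := pow_le_pow_right₀ hw1 (by omega)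
  have : 2 * ‖w‖ ^ (d - 1) ≤ a * ‖w‖ ^ d - M * ‖w‖ ^ (d - 1) := by
    rw [hdd]
    have h5 : 0 ≤ (a * ‖w‖ - (M + 2)) * ‖w‖ ^ (d - 1) := by
      apply mul_nonneg
      · linarith
      · positivity
    nlinarith
  linarith

theorem good_big (f : ℂ → ℂ) (R : ℝ) (hR : 1 ≤ R) (h : ∀ w : ℂ, R ≤ ‖w‖ → 2 * ‖w‖ ≤ ‖f w‖)
    (w : ℂ) (hw : R ≤ ‖w‖) : Good f w := by
  left
  have key : ∀ k : ℕ, R ≤ ‖f^[k] w‖ ∧ (2 : ℝ) ^ k ≤ ‖f^[k] w‖ := by
    intro k
    induction k with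
    | zero => exact ⟨hw, by simpa using hR.trans hw⟩
    | succ k ih =>
      rw [Function.iterate_succ_apply']
      have h1 := h _ ih.1
      refine ⟨by linarith [ih.1], ?_⟩
      rw [pow_succ]
      linarith [ih.2]
  exact tendsto_atTop_mono (fun k => (key k).2) (tendsto_pow_atTop_atTop_of_one_lt (by norm_num))

theorem iter_cyc (T : ℂ[X]) (Z : Finset ℂ) (hZ : ∀ z ∈ Z, T.eval z ∈ Z) (S : ℂ[X]) (y : ℂ → ℂ)
    (h : ∀ z ∈ Z, S.eval (y z) = y (T.eval z)) (i : ℕ) :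
    ∀ z ∈ Z, (ev T)^[i] z ∈ Z ∧ (ev S)^[i] (y z) = y ((ev T)^[i] z) := by
  induction i with
  | zero => exact fun z hz => ⟨hz, rfl⟩
  | succ i ih =>
    intro z hz
    obtain ⟨h1, h2⟩ := ih z hz
    rw [Function.iterate_succ_apply', Function.iterate_succ_apply', h2]
    exact ⟨hZ _ h1, h _ h1⟩

theorem sieg_mul (T : ℂ[X]) (p : ℕ) (r : ℝ) (h : ℂ → ℂ) (ρ : ℂ) (hr : 0 < r) (hρ : ‖ρ‖ = 1)
    (hd : DifferentiableOn ℂ h (ball 0 r)) (hi : InjOn h (ball 0 r))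
    (hc : ∀ w ∈ ball (0 : ℂ) r, (ev T)^[p] (h w) = h (ρ * w)) :
    (ev T)^[p] (h 0) = h 0 ∧ deriv ((ev T)^[p]) (h 0) = ρ := by
  have h0 : (0 : ℂ) ∈ ball (0 : ℂ) r := mem_ball_self hr
  refine ⟨by rw [hc 0 h0, mul_zero], ?_⟩
  have hda : DifferentiableAt ℂ h 0 := hd.differentiableAt (isOpen_ball.mem_nhds h0)
  have hne : deriv h 0 ≠ 0 := Pool.Agent.Helper540.deriv_ne_zero_of_injOn isOpen_ball hd hi h0
  have e1 : HasDerivAt (fun w => (ev T)^[p] (h w)) (deriv ((ev T)^[p]) (h 0) * deriv h 0) 0 :=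
    HasDerivAt.comp (0 : ℂ) (ev_iter_diff T p (h 0)).hasDerivAt hda.hasDerivAt
  have e2 : HasDerivAt (fun w : ℂ => h (ρ * w)) (deriv h 0 * (ρ * 1)) 0 := by
    have h3 : HasDerivAt (fun w : ℂ => ρ * w) (ρ * 1) 0 := (hasDerivAt_id (0 : ℂ)).const_mul ρ
    have h4 : HasDerivAt h (deriv h 0) (ρ * 0) := by
      rw [mul_zero]
      exact hda.hasDerivAt
    exact HasDerivAt.comp (0 : ℂ) h4 h3
  have e3 : (fun w : ℂ => h (ρ * w)) =ᶠ[𝓝 0] (fun w => (ev T)^[p] (h w)) := by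
    filter_upwards [isOpen_ball.mem_nhds h0] with w hw
    exact (hc w hw).symm
  have e4 := (e1.congr_of_eventuallyEq e3).unique e2
  have e5 : (deriv ((ev T)^[p]) (h 0) - ρ) * deriv h 0 = 0 := by
    rw [sub_mul, e4]
    ring
  rcases mul_eq_zero.1 e5 with h6 | h6
  · exact sub_eq_zero.1 h6
  · exact absurd h6 hne

/-- points which become good for the perturbation of level `j` -/
def GG (T : ℂ[X]) (j : ℕ) : Set ℂ :=
  {u | Good (ev T) u ∨
    (∃ (p : ℕ) (x : ℂ), p ≤ j ∧ 0 < p ∧ (ev T)^[p] x = x ∧ deriv ((ev T)^[p]) x = 1 ∧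
      Tendsto (fun k : ℕ => (ev T)^[p * k] u) atTop (𝓝 x) ∧ ∀ k : ℕ, (ev T)^[p * k] u ≠ x) ∨
    (∃ (n p : ℕ) (r : ℝ) (h : ℂ → ℂ) (ρ : ℂ), p ≤ j ∧ 0 < p ∧ 0 < r ∧ ‖ρ‖ = 1 ∧
      (∀ m : ℕ, 0 < m → ρ ^ m ≠ 1) ∧
      DifferentiableOn ℂ h (ball 0 r) ∧ InjOn h (ball 0 r) ∧
      (∀ w ∈ ball (0 : ℂ) r, (ev T)^[p] (h w) = h (ρ * w)) ∧ (ev T)^[n] u ∈ h '' ball 0 r)}

theorem gg_mono (T : ℂ[X]) : Monotone (GG T) := by
  intro i j hij u hu
  rcases hu with h | ⟨p, x, hp, h⟩ | ⟨n, p, r, h, ρ, hp, h'⟩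
  · exact Or.inl h
  · exact Or.inr (Or.inl ⟨p, x, hp.trans hij, h⟩)
  · exact Or.inr (Or.inr ⟨n, p, r, h, ρ, hp.trans hij, h'⟩)

theorem gg_union (T : ℂ[X]) (u : ℂ) (h : Good (ev T) u ∨ Para (ev T) u ∨ Sieg (ev T) u) :
    ∃ j, u ∈ GG T j := by
  rcases h with h | ⟨p, x, h⟩ | ⟨n, p, r, h, ρ, h'⟩
  · exact ⟨0, Or.inl h⟩
  · exact ⟨p, Or.inr (Or.inl ⟨p, x, le_rfl, h⟩)⟩
  · exact ⟨p, Or.inr (Or.inr ⟨n, p, r, h, ρ, le_rfl, h'⟩)⟩

theorem local_good (hOPG : StOPG) (hSGL : StSGL) (hPBL : StPBL) (hAPP : StAPP) (hAPS : StAPS)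
    (T : ℂ[X]) (h2 : 2 ≤ T.natDegree) (j : ℕ) (t₀ C₀ : ℝ) (S : ℝ → ℂ[X]) (y : ℝ → ℂ → ℂ)
    (kk : ℂ → ℕ → ℕ) (ht₀ : 0 < t₀) (hC₀ : 0 < C₀)
    (hkk : ∀ z ∈ (ind_finite T h2 j).toFinset, ∀ p : ℕ, 0 < p → (ev T)^[p] z = z → 0 < kk z p)
    (hS : ∀ t : ℝ, 0 ≤ t → t ≤ t₀ →
      (S t).natDegree = T.natDegree ∧ (∀ j : ℕ, T.natDegree - 1 ≤ j → (S t).coeff j = T.coeff j) ∧
      (∀ j : ℕ, ‖(S t).coeff j - T.coeff j‖ ≤ C₀ * t) ∧
      ∀ z ∈ (ind_finite T h2 j).toFinset, ‖y t z - z‖ ≤ C₀ * t ∧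
        (S t).eval (y t z) = y t (T.eval z) ∧
        ∀ p : ℕ, 0 < p → (ev T)^[p] z = z →
          deriv ((ev (S t))^[p]) (y t z) = ((1 - t : ℝ) : ℂ) ^ (kk z p) * deriv ((ev T)^[p]) z)
    (u : ℂ) (hu : u ∈ GG T j) :
    ∃ δ t₁ : ℝ, 0 < δ ∧ 0 < t₁ ∧ ∀ t : ℝ, 0 < t → t < t₁ → ∀ z' ∈ ball u δ,
      Good (ev (S t)) z' := by
  have hZ := (ind_cyc T h2 j).1
  have hPC : ∀ (p : ℕ) (x ρ : ℂ), 0 < p → p ≤ j → (ev T)^[p] x = x →
      deriv ((ev T)^[p]) x = ρ → ‖ρ‖ = 1 → PC T p x ρ S (fun t => y t x) (kk x p) t₀ C₀ := by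
    intro p x ρ hp hpj hx hm hρ
    have hxZ : x ∈ (ind_finite T h2 j).toFinset := by
      rw [Set.Finite.mem_toFinset]
      exact ⟨p, hp, hpj, hx, by rw [hm, hρ]⟩
    refine ⟨ht₀, hC₀, hkk x hxZ p hp hx, hp, hx, hm, fun t h0 h1 => (hS t h0 h1).1,
      fun t h0 h1 => (hS t h0 h1).2.2.1, fun t h0 h1 => ((hS t h0 h1).2.2.2 x hxZ).1,
      fun t h0 h1 => ?_, fun t h0 h1 => ?_⟩
    · have h := (iter_cyc T _ hZ (S t) (y t)
        (fun z hz => ((hS t h0 h1).2.2.2 z hz).2.1) p x hxZ).2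
      show (ev (S t))^[p] (y t x) = y t x
      rw [h, hx]
    · have h := ((hS t h0 h1).2.2.2 x hxZ).2.2 p hp hx
      rw [hm] at h
      exact h
  rcases hu with h | ⟨p, x, hpj, hp, hx, hm, hlim, hne⟩ |
      ⟨n, p, r, h, ρ, hpj, hp, hr, hρ, hirr, hd, hi, hc, hn⟩
  · obtain ⟨σ, hσ, H⟩ := hOPG T u h2 h
    refine ⟨σ, min t₀ (σ / C₀), hσ, lt_min ht₀ (by positivity), ?_⟩
    intro t h0 h1 z' hz'
    have h3 : t ≤ t₀ := (h1.trans_le (min_le_left _ _)).le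
    have h4 : t < σ / C₀ := h1.trans_le (min_le_right _ _)
    rw [lt_div_iff₀ hC₀] at h4
    obtain ⟨a1, a2, a3, a4⟩ := hS t h0.le h3
    refine H (S t) a1 (fun j => ?_) z' hz'
    exact (a3 j).trans_lt (by linarith)
  · exact hAPP hPBL T p x S (fun t => y t x) (kk x p) t₀ C₀ u h2
      (hPC p x 1 hp hpj hx hm norm_one) hlim hne
  · obtain ⟨b1, b2⟩ := sieg_mul T p r h ρ hr hρ hd hi hc
    exact hAPS hSGL T n p ρ r h S (fun t => y t (h 0)) (kk (h 0) p) t₀ C₀ u h2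
      (hPC p (h 0) ρ hp hpj b1 b2 hρ) hr hρ hirr hd hi hc hn

end APX

theorem apx_holds : StAPX := by
  intro hOPG hAF hPF hINJ hSURL hCURVE hSGL hPBL hAPP hAPS T h2 hvol ε hε
  classical
  obtain ⟨R, hR1, hR⟩ := APX.escape_radius T h2
  set K : Set ℂ := closedBall (0 : ℂ) R with hK
  have hKfin : volume K ≠ ⊤ := (isCompact_closedBall (0 : ℂ) R).measure_lt_top.ne
  have hKmeas : MeasurableSet K := measurableSet_closedBall
  have hKpos : 0 < volume K := by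
    have h1 : ball (0 : ℂ) R ⊆ K := ball_subset_closedBall
    exact (isOpen_ball.measure_pos volume ⟨0, mem_ball_self (by linarith)⟩).trans_le
      (measure_mono h1)
  set e : ENNReal := ENNReal.ofReal (ε / 2) with he
  have he0 : 0 < e := ENNReal.ofReal_pos.2 (by linarith)
  have hee : e + e = ENNReal.ofReal ε := by
    rw [he, ← ENNReal.ofReal_add (by linarith) (by linarith)]
    congr 1
    ring
  -- the increasing union
  have hmono : Monotone (fun j : ℕ => K ∩ APX.GG T j) := by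
    intro i j hij
    exact inter_subset_inter_right _ (APX.gg_mono T hij)
  have hsup : volume K ≤ ⨆ j : ℕ, volume (K ∩ APX.GG T j) := by
    rw [← hmono.measure_iUnion]
    have hsub : K ⊆ (⋃ j : ℕ, K ∩ APX.GG T j) ∪
        {z : ℂ | ¬ (Good (ev T) z ∨ Para (ev T) z ∨ Sieg (ev T) z)} := by
      intro z hz
      by_cases h : Good (ev T) z ∨ Para (ev T) z ∨ Sieg (ev T) z
      · obtain ⟨j, hj⟩ := APX.gg_union T z h
        exact Or.inl (mem_iUnion.2 ⟨j, hz, hj⟩)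
      · exact Or.inr h
    refine (measure_mono hsub).trans ((measure_union_le _ _).trans ?_)
    rw [hvol, add_zero]
  obtain ⟨j, hj⟩ : ∃ j : ℕ, volume K < volume (K ∩ APX.GG T j) + e := by
    by_contra hcon
    push Not at hcon
    have h1 : ∀ j : ℕ, volume (K ∩ APX.GG T j) ≤ volume K - e := fun j =>
      ENNReal.le_sub_of_add_le_right ENNReal.ofReal_ne_top (hcon j)
    have h3 : volume K ≤ volume K - e := hsup.trans (iSup_le h1)
    exact absurd h3 (not_le.2 (ENNReal.sub_lt_self hKfin hKpos.ne' he0.ne'))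
  -- the curve
  have hcyc := APX.ind_cyc T h2 j
  have hunit := APX.ind_unit T h2 j
  obtain ⟨t₀, C₀, S, y, kk, ht₀, hC₀, hkk, hS⟩ := hCURVE T (APX.ind_finite T h2 j).toFinset h2 hcyc
    hunit (hSURL hAF hPF hINJ T (APX.ind_finite T h2 j).toFinset h2 hcyc hunit)
  have hloc := APX.local_good hOPG hSGL hPBL hAPP hAPS T h2 j t₀ C₀ S y kk ht₀ hC₀ hkk hS
  choose! δ t₁ hδ ht₁ hgood using hloc
  set O : Set ℂ := ⋃ u ∈ APX.GG T j, ball u (δ u) with hO
  have hOo : IsOpen O := isOpen_biUnion (fun u _ => isOpen_ball)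
  have hGO : APX.GG T j ⊆ O := fun u hu => mem_biUnion hu (mem_ball_self (hδ u hu))
  have hKO : volume K < volume (K ∩ O) + e :=
    hj.trans_le (add_le_add (measure_mono (inter_subset_inter_right _ hGO)) le_rfl)
  have hKOfin : volume (K ∩ O) ≠ ⊤ :=
    ((measure_mono inter_subset_left).trans_lt (lt_top_iff_ne_top.2 hKfin)).ne
  obtain ⟨C, hCsub, hCc, hCv⟩ := (hKmeas.inter hOo.measurableSet).exists_isCompact_lt_add
    (μ := volume) hKOfin he0.ne'
  have hKC : volume K ≤ volume C + ENNReal.ofReal ε := by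
    rw [← hee, ← add_assoc]
    exact hKO.le.trans (add_le_add hCv.le le_rfl)
  have hCK : C ⊆ K := hCsub.trans inter_subset_left
  have hCfin : volume C ≠ ⊤ := ((measure_mono hCK).trans_lt (lt_top_iff_ne_top.2 hKfin)).ne
  have hdiff : volume (K \ C) ≤ ENNReal.ofReal ε := by
    rw [measure_diff hCK hCc.measurableSet.nullMeasurableSet hCfin]
    rw [tsub_le_iff_left]
    exact hKC
  -- finite subcover
  obtain ⟨F, hF, hFc⟩ := hCc.elim_finite_subcover_image (b := APX.GG T j)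
    (c := fun u => ball u (δ u)) (fun u _ => isOpen_ball) (hCsub.trans inter_subset_right)
  obtain ⟨hFfin, hFcov⟩ := hFc
  obtain ⟨m, hm0, hm⟩ : ∃ m : ℝ, 0 < m ∧ ∀ u ∈ F, m ≤ t₁ u := by
    rcases F.eq_empty_or_nonempty with h | h
    · exact ⟨1, one_pos, fun u hu => by rw [h] at hu; exact absurd hu (notMem_empty u)⟩
    · obtain ⟨u, hu, hmin⟩ := hFfin.exists_minimalFor t₁ F h
      refine ⟨t₁ u, ht₁ u (hF hu), fun v hv => ?_⟩
      rcases le_total (t₁ u) (t₁ v) with h' | h'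
      · exact h'
      · exact hmin hv h'
  set t : ℝ := min (m / 2) (min t₀ (min (1 / C₀) (ε / (2 * C₀)))) with ht
  have ht0 : 0 < t := by
    rw [ht]
    refine lt_min (by linarith) (lt_min ht₀ (lt_min (by positivity) (by positivity)))
  have htm : t < m := by
    have := min_le_left (m / 2) (min t₀ (min (1 / C₀) (ε / (2 * C₀))))
    rw [← ht] at this
    linarith
  have htt : t ≤ t₀ := (min_le_right _ _).trans (min_le_left _ _)
  have ht1 : C₀ * t ≤ 1 := by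
    have h5 : t ≤ 1 / C₀ := (min_le_right _ _).trans ((min_le_right _ _).trans (min_le_left _ _))
    rw [le_div_iff₀ hC₀] at h5
    linarith
  have hte : C₀ * t < ε := by
    have h5 : t ≤ ε / (2 * C₀) :=
      (min_le_right _ _).trans ((min_le_right _ _).trans (min_le_right _ _))
    rw [le_div_iff₀ (by positivity)] at h5
    linarith
  obtain ⟨a1, a2, a3, a4⟩ := hS t ht0.le htt
  refine ⟨S t, a1, ?_, fun i => (a3 i).trans_lt hte, ?_⟩
  · show (S t).coeff (S t).natDegree = T.coeff T.natDegree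
    rw [a1]
    exact a2 _ (Nat.sub_le _ _)
  · refine (measure_mono ?_).trans hdiff
    intro z hz
    refine ⟨?_, ?_⟩
    · by_contra hzK
      apply hz
      apply APX.good_big (ev (S t)) R hR1
        (hR (S t) a1 (a2 _ (Nat.sub_le _ _)) (fun i => (a3 i).trans ht1)) z
      rw [hK, mem_closedBall, dist_zero_right, not_le] at hzK
      exact hzK.le
    · intro hzC
      apply hz
      obtain ⟨u, hu, hzu⟩ := mem_iUnion₂.1 (hFcov hzC)
      exact hgood u (hF hu) t ht0 (htm.trans_le (hm u hu)) z hzu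

end Pool.Agent.H713R5.QJ
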