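import Mathlib
import Pool.Agent.H713R5.QJ.Defs2

set_option autoImplicit false

open Topology Filter Metric Set Polynomial MeasureTheory
open Pool.Agent.H713R3.ZA

namespace Pool.Agent.H713R5.QJ

namespace ASYPaux

theorem ti0 : Tendsto (fun z : ℂ => z⁻¹) (Bornology.cobounded ℂ) (𝓝 0) :=
  tendsto_inv₀_cobounded

/-- a polynomial of degree at most `n + 1` divided by the `n`-th power -/
theorem eval_expand (p : ℂ[X]) (n : ℕ) (hp : p.natDegree ≤ n + 1) (z : ℂ) :
    p.eval z = p.coeff (n + 1) * z ^ (n + 1) + p.coeff n * z ^ n +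
      ∑ i ∈ Finset.range n, p.coeff i * z ^ i := by
  rw [eval_eq_sum_range' (show p.natDegree < n + 2 by omega), Finset.sum_range_succ,
    Finset.sum_range_succ]
  ring

/-- lower order terms -/
theorem low_tendsto (p : ℂ[X]) (n : ℕ) (v : ℂ → ℂ)
    (hv : Tendsto v (Bornology.cobounded ℂ) (𝓝 1)) :
    Tendsto (fun z : ℂ => ∑ i ∈ Finset.range n, p.coeff i * v z ^ i * (z⁻¹) ^ (n - i))
      (Bornology.cobounded ℂ) (𝓝 0) := by
  have h : Tendsto (fun z : ℂ => ∑ i ∈ Finset.range n, p.coeff i * v z ^ i * (z⁻¹) ^ (n - i))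
      (Bornology.cobounded ℂ) (𝓝 (∑ i ∈ Finset.range n, p.coeff i * 1 ^ i * 0 ^ (n - i))) := by
    refine tendsto_finsetSum _ fun i _ => ?_
    exact (tendsto_const_nhds.mul (hv.pow i)).mul (ti0.pow (n - i))
  have e : ∑ i ∈ Finset.range n, p.coeff i * 1 ^ i * (0 : ℂ) ^ (n - i) = 0 := by
    refine Finset.sum_eq_zero fun i hi => ?_
    have := Finset.mem_range.1 hi
    rw [zero_pow (by omega), mul_zero]
  rwa [e] at h

end ASYPaux

open ASYPaux in
theorem asyp_holds : StASYP := by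
  intro a n B R C₁ R₁ R₃ ψ φ ha hn hb x hx y hy hc
  set Φ : ℂ → ℂ := fun z => ψ (y, φ (x, z)) with hΦ
  set δ : ℂ → ℂ := fun z => Φ z - z with hδ
  have hR1 := hb.hR
  have hC := hb.hC
  have hR₁ := hb.hR₁
  have hR₃ := hb.hR₃
  have hφn : ∀ z : ℂ, R₃ < ‖z‖ → R₁ < ‖φ (x, z)‖ := by
    intro z hz
    have h1 := hb.φc x hx z hz
    have h2 : ‖z‖ ≤ ‖φ (x, z)‖ + ‖φ (x, z) - z‖ := by
      have := norm_sub_norm_le z (φ (x, z))
      rw [norm_sub_rev] at this
      linarith
    linarith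
  have hδb : ∀ z : ℂ, R₃ < ‖z‖ → ‖δ z‖ ≤ 2 * C₁ := by
    intro z hz
    have h1 := hb.φc x hx z hz
    have h2 := hb.ψc y hy _ (hφn z hz)
    calc ‖δ z‖ = ‖(ψ (y, φ (x, z)) - φ (x, z)) + (φ (x, z) - z)‖ := by
          rw [hδ]
          simp only [hΦ]
          congr 1
          ring
      _ ≤ C₁ + C₁ := (norm_add_le _ _).trans (add_le_add h2 h1)
      _ = 2 * C₁ := by ring
  have hxB : ‖x‖ ≤ B := (mem_ball_zero_iff.1 hx).le
  have hFn : ∀ z : ℂ, R₃ < ‖z‖ → R₃ < ‖fx a n x z‖ := by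
    intro z hz
    have h1 := hb.esc x hxB z (by linarith)
    linarith
  have hfe : ∀ z : ℂ, R₃ < ‖z‖ → fx a n y (Φ z) = Φ (fx a n x z) := by
    intro z hz
    have h1 := φ_fx hb hx hz (hFn z hz)
    simp only [hΦ]
    rw [hb.fe y hy _ (hφn z hz), h1]
    rfl
  have hev : ∀ᶠ z in Bornology.cobounded ℂ, R₃ < ‖z‖ :=
    (tendsto_norm_cobounded_atTop (E := ℂ)).eventually (eventually_gt_atTop R₃)
  have hδO : (fun z => δ z) =O[Bornology.cobounded ℂ] (fun _ => (1 : ℂ)) := by
    refine Asymptotics.IsBigO.of_bound (2 * C₁) ?_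
    filter_upwards [hev] with z hz
    rw [norm_one, mul_one]
    exact hδb z hz
  have hδFO : (fun z => δ (fx a n x z)) =O[Bornology.cobounded ℂ] (fun _ => (1 : ℂ)) := by
    refine Asymptotics.IsBigO.of_bound (2 * C₁) ?_
    filter_upwards [hev] with z hz
    rw [norm_one, mul_one]
    exact hδb _ (hFn z hz)
  have hsmall : ∀ f : ℂ → ℂ, f =O[Bornology.cobounded ℂ] (fun _ => (1 : ℂ)) → ∀ m : ℕ, 1 ≤ m →
      Tendsto (fun z : ℂ => f z * (z⁻¹) ^ m) (Bornology.cobounded ℂ) (𝓝 0) := by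
    intro f hf m hm
    have h1 : (fun z : ℂ => (z⁻¹) ^ m) =o[Bornology.cobounded ℂ] (fun _ => (1 : ℂ)) := by
      rw [Asymptotics.isLittleO_one_iff]
      have := (ti0).pow m
      rwa [zero_pow (by omega)] at this
    have h2 := hf.mul_isLittleO h1
    simp only [mul_one] at h2
    rwa [Asymptotics.isLittleO_one_iff] at h2
  set v : ℂ → ℂ := fun z => 1 + δ z * z⁻¹ with hv
  have hv1 : Tendsto v (Bornology.cobounded ℂ) (𝓝 1) := by
    have h1 := hsmall δ hδO 1 le_rfl
    simp only [pow_one] at h1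
    have h2 := h1.const_add (1 : ℂ)
    rwa [add_zero] at h2
  set c := (fam a n x).coeff n with hcx
  set S : ℂ → ℂ := fun z => a * ∑ i ∈ Finset.range (n + 1), v z ^ i with hS
  set T : ℂ → ℂ := fun z => δ (fx a n x z) * (z⁻¹) ^ n - c * (v z ^ n - 1) -
    (∑ i ∈ Finset.range n, (fam a n y).coeff i * v z ^ i * (z⁻¹) ^ (n - i)) +
    ∑ i ∈ Finset.range n, (fam a n x).coeff i * 1 ^ i * (z⁻¹) ^ (n - i) with hT
  have hSt : Tendsto S (Bornology.cobounded ℂ) (𝓝 (a * ((n : ℂ) + 1))) := by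
    have h1 : Tendsto (fun z => a * ∑ i ∈ Finset.range (n + 1), v z ^ i) (Bornology.cobounded ℂ)
        (𝓝 (a * ∑ i ∈ Finset.range (n + 1), (1 : ℂ) ^ i)) :=
      tendsto_const_nhds.mul (tendsto_finsetSum _ fun i _ => hv1.pow i)
    have e : ∑ i ∈ Finset.range (n + 1), (1 : ℂ) ^ i = (n : ℂ) + 1 := by
      simp
    rwa [e] at h1
  have hTt : Tendsto T (Bornology.cobounded ℂ) (𝓝 0) := by
    have h1 := hsmall _ hδFO n hn
    have h2 : Tendsto (fun z => c * (v z ^ n - 1)) (Bornology.cobounded ℂ)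
        (𝓝 (c * ((1 : ℂ) ^ n - 1))) :=
      tendsto_const_nhds.mul ((hv1.pow n).sub tendsto_const_nhds)
    have h3 := low_tendsto (fam a n y) n v hv1
    have h4 := low_tendsto (fam a n x) n (fun _ => 1) tendsto_const_nhds
    have h5 := ((h1.sub h2).sub h3).add h4
    have e : (0 : ℂ) - c * ((1 : ℂ) ^ n - 1) - 0 + 0 = 0 := by simp
    rwa [e] at h5
  have key : ∀ᶠ z in Bornology.cobounded ℂ, δ z * S z = T z := by
    filter_upwards [hev] with z hz
    have hz0 : z ≠ 0 := by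
      rintro rfl
      rw [norm_zero] at hz
      linarith
    have hΦv : Φ z = z * v z := by
      simp only [hv, hδ]
      field_simp
      ring
    have h1 := hfe z hz
    have h2 : fx a n y (Φ z) = fx a n x z + δ (fx a n x z) := by
      rw [h1]
      simp only [hδ]
      ring
    have e1 : fx a n y (Φ z) = a * (z * v z) ^ (n + 1) + c * (z * v z) ^ n +
        ∑ i ∈ Finset.range n, (fam a n y).coeff i * (z * v z) ^ i := by
      rw [hΦv]
      show (fam a n y).eval (z * v z) = _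
      rw [eval_expand _ n (natDegree_fam_le a n y), coeff_fam_top, ← hc]
    have e2 : fx a n x z = a * z ^ (n + 1) + c * z ^ n +
        ∑ i ∈ Finset.range n, (fam a n x).coeff i * z ^ i := by
      show (fam a n x).eval z = _
      rw [eval_expand _ n (natDegree_fam_le a n x), coeff_fam_top]
    have hzn : z ^ n ≠ 0 := pow_ne_zero n hz0
    have low : ∀ (p : ℂ[X]) (u : ℂ), ∑ i ∈ Finset.range n, p.coeff i * u ^ i * (z⁻¹) ^ (n - i) =
        (∑ i ∈ Finset.range n, p.coeff i * (z * u) ^ i) * (z⁻¹) ^ n := by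
      intro p u
      rw [Finset.sum_mul]
      refine Finset.sum_congr rfl fun i hi => ?_
      have hi' := Finset.mem_range.1 hi
      have e3 : (z⁻¹) ^ n = (z⁻¹) ^ (n - i) * (z⁻¹) ^ i := by
        rw [← pow_add]
        congr 1
        omega
      rw [e3, mul_pow, inv_pow z i]
      have : z ^ i ≠ 0 := pow_ne_zero i hz0
      field_simp
    have low1 := low (fam a n y) (v z)
    have low2 := low (fam a n x) 1
    rw [mul_one] at low2
    simp only [hT, hS]
    rw [low1, low2]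
    have geo : (∑ i ∈ Finset.range (n + 1), v z ^ i) * (v z - 1) = v z ^ (n + 1) - 1 :=
      geom_sum_mul (v z) (n + 1)
    have hvd : δ z = z * (v z - 1) := by
      simp only [hv]
      field_simp
      ring
    have h3 : δ (fx a n x z) = fx a n y (Φ z) - fx a n x z := by
      rw [h2]
      ring
    rw [h3, e1, e2]
    have hin : z ^ n * (z⁻¹) ^ n = 1 := by
      rw [← mul_pow, mul_inv_cancel₀ hz0, one_pow]
    have lhs : δ z * (a * ∑ i ∈ Finset.range (n + 1), v z ^ i) =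
        a * z * (v z ^ (n + 1) - 1) := by
      rw [← geo, hvd]
      ring
    rw [lhs]
    generalize (∑ i ∈ Finset.range n, (fam a n y).coeff i * (z * v z) ^ i) = A1
    generalize (∑ i ∈ Finset.range n, (fam a n x).coeff i * z ^ i) = A2
    have r1 : (a * (z * v z) ^ (n + 1) + c * (z * v z) ^ n + A1 -
        (a * z ^ (n + 1) + c * z ^ n + A2)) * (z⁻¹) ^ n =
        (a * z * (v z ^ (n + 1) - 1) + c * (v z ^ n - 1)) * (z ^ n * (z⁻¹) ^ n) +
          A1 * (z⁻¹) ^ n - A2 * (z⁻¹) ^ n := by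
      rw [mul_pow, mul_pow]
      ring
    rw [r1, hin]
    ring
  have hS0 : a * ((n : ℂ) + 1) ≠ 0 := mul_ne_zero ha (by exact_mod_cast Nat.succ_ne_zero n)
  have hSne : ∀ᶠ z in Bornology.cobounded ℂ, S z ≠ 0 := hSt.eventually_ne hS0
  have hfin := hTt.div hSt hS0
  rw [zero_div] at hfin
  refine hfin.congr' ?_
  filter_upwards [key, hSne] with z h1 h2
  show T z / S z = δ z
  rw [← h1, mul_div_assoc, div_self h2, mul_one]

end Pool.Agent.H713R5.QJ
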