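import Mathlib
import Pool.Agent.H713R5.QJ.Defs2
import Pool.Agent.H713R3.ZA.Fam

set_option autoImplicit false

open Topology Filter Metric Set Polynomial MeasureTheory
open Pool.Agent.H713R3.ZA

namespace Pool.Agent.H713R5.QJ

namespace TBDDP

theorem prod_root (a : ℂ) (n : ℕ) (x : PE n) (i : Fin n) :
    (dfam a n x).IsRoot (x (some i)) := by
  unfold dfam
  rw [IsRoot.def, eval_mul, eval_prod]
  rw [Finset.prod_eq_zero (Finset.mem_univ i) (by simp), mul_zero]

theorem dfam_coeff_top (a : ℂ) (n : ℕ) (x : PE n) :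
    (dfam a n x).coeff n = a * ((n : ℂ) + 1) := by
  unfold dfam
  rw [coeff_C_mul]
  have h2 : (∏ i : Fin n, (X - C (x (some i)))).Monic :=
    monic_prod_of_monic _ _ (fun i _ => monic_X_sub_C _)
  have h3 : (∏ i : Fin n, (X - C (x (some i)))).coeff n = 1 := by
    have := h2.coeff_natDegree
    rwa [Pool.Agent.H713R3.ZA.natDegree_prod] at this
  rw [h3, mul_one]

theorem coeff_dfam (a : ℂ) (n : ℕ) (x : PE n) (j : ℕ) (hj : j < n + 1) :
    (dfam a n x).coeff j = (fam a n x).coeff (j + 1) * ((j : ℂ) + 1) := by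
  rw [coeff_fam_succ, if_pos hj]
  have : (j : ℂ) + 1 ≠ 0 := Nat.cast_add_one_ne_zero j
  field_simp

end TBDDP

theorem bddp_holds : StBDDP := by
  intro a n xT ha hn
  obtain ⟨K, hKdef⟩ : ∃ K : ℝ,
      K = ∑ j ∈ Finset.range (n + 1 + 1), (‖(fam a n xT).coeff j‖ + 1) := ⟨_, rfl⟩
  have hKj : ∀ j < n + 1 + 1, ‖(fam a n xT).coeff j‖ + 1 ≤ K := by
    intro j hj
    rw [hKdef]
    exact Finset.single_le_sum (f := fun j => ‖(fam a n xT).coeff j‖ + 1)
      (fun _ _ => by positivity) (Finset.mem_range.2 hj)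
  have hK0 : 0 ≤ K := le_trans (by positivity) (hKj 0 (by omega))
  have hcoef : ∀ x : PE n, Pool.Agent.H713R3.ZA.Dl a n xT x ≤ 1 → ∀ j < n + 1 + 1,
      ‖(fam a n x).coeff j‖ ≤ K := by
    intro x hx j hj
    have h1 : ‖(fam a n x).coeff j - (fam a n xT).coeff j‖ ^ 2 ≤ 1 := by
      refine le_trans ?_ hx
      unfold Pool.Agent.H713R3.ZA.Dl
      exact Finset.single_le_sum
        (f := fun j => ‖(fam a n x).coeff j - (fam a n xT).coeff j‖ ^ 2)
        (fun _ _ => by positivity) (Finset.mem_range.2 hj)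
    have h2 : ‖(fam a n x).coeff j - (fam a n xT).coeff j‖ ≤ 1 := by
      have := norm_nonneg ((fam a n x).coeff j - (fam a n xT).coeff j)
      nlinarith
    have h3 := hKj j hj
    have h4 : ‖(fam a n x).coeff j‖ ≤
        ‖(fam a n x).coeff j - (fam a n xT).coeff j‖ + ‖(fam a n xT).coeff j‖ := by
      have := norm_add_le ((fam a n x).coeff j - (fam a n xT).coeff j) ((fam a n xT).coeff j)
      rwa [sub_add_cancel] at this
    linarith
  have ha' : 0 < ‖a‖ := norm_pos_iff.2 ha
  refine ⟨K / ‖a‖ + K + 2, by positivity, ?_⟩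
  intro x hx
  rw [mem_ball_zero_iff, pi_norm_lt_iff (by positivity)]
  intro i
  have hdiv : 0 ≤ K / ‖a‖ := by positivity
  cases i with
  | none =>
    have h1 := hcoef x hx 0 (by omega)
    rw [coeff_fam_zero] at h1
    linarith
  | some i =>
    have htop := TBDDP.dfam_coeff_top a n x
    have hn1 : (0 : ℝ) < (n : ℝ) + 1 := by positivity
    have hne : (dfam a n x).coeff n ≠ 0 := by
      rw [htop]
      exact mul_ne_zero ha (Nat.cast_add_one_ne_zero n)
    have hp : dfam a n x ≠ 0 := by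
      intro h0
      rw [h0, coeff_zero] at hne
      exact hne rfl
    have hdeg : (dfam a n x).natDegree = n :=
      le_antisymm (dfam_deg_le a n x) (le_natDegree_of_ne_zero hne)
    have hlead : ‖(dfam a n x).leadingCoeff‖ = ‖a‖ * ((n : ℝ) + 1) := by
      unfold leadingCoeff
      rw [hdeg, htop, norm_mul]
      congr 1
      have : ((n : ℂ) + 1) = (((n : ℝ) + 1 : ℝ) : ℂ) := by push_cast; rfl
      rw [this, Complex.norm_real, Real.norm_of_nonneg hn1.le]
    have h1 := IsRoot.norm_lt_cauchyBound hp (TBDDP.prod_root a n x i)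
    have h1' : ‖x (some i)‖ < ((dfam a n x).cauchyBound : ℝ) := by exact_mod_cast h1
    have hsup : ((Finset.range (dfam a n x).natDegree).sup fun j => ‖(dfam a n x).coeff j‖₊) ≤
        (⟨K * ((n : ℝ) + 1), by positivity⟩ : NNReal) := by
      apply Finset.sup_le
      intro j hj
      rw [hdeg, Finset.mem_range] at hj
      rw [← NNReal.coe_le_coe]
      show ‖(dfam a n x).coeff j‖ ≤ K * ((n : ℝ) + 1)
      rw [TBDDP.coeff_dfam a n x j (by omega), norm_mul]
      have h2 : ‖((j : ℂ) + 1)‖ = (j : ℝ) + 1 := by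
        have : ((j : ℂ) + 1) = (((j : ℝ) + 1 : ℝ) : ℂ) := by push_cast; rfl
        rw [this, Complex.norm_real, Real.norm_of_nonneg (by positivity)]
      rw [h2]
      have h3 : (j : ℝ) + 1 ≤ (n : ℝ) + 1 := by
        have : (j : ℝ) ≤ n := by exact_mod_cast hj.le
        linarith
      exact mul_le_mul (hcoef x hx (j + 1) (by omega)) h3 (by positivity) hK0
    have hcb : ((dfam a n x).cauchyBound : ℝ) ≤ K / ‖a‖ + 1 := by
      unfold cauchyBound
      rw [NNReal.coe_add, NNReal.coe_div, NNReal.coe_one, coe_nnnorm, hlead]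
      have h4 := NNReal.coe_le_coe.2 hsup
      have h5 : K / ‖a‖ = K * ((n : ℝ) + 1) / (‖a‖ * ((n : ℝ) + 1)) := by
        rw [mul_div_mul_right _ _ hn1.ne']
      rw [h5]
      have h6 : ((((Finset.range (dfam a n x).natDegree).sup
          fun j => ‖(dfam a n x).coeff j‖₊) : NNReal) : ℝ) / (‖a‖ * ((n : ℝ) + 1)) ≤
          K * ((n : ℝ) + 1) / (‖a‖ * ((n : ℝ) + 1)) :=
        div_le_div_of_nonneg_right h4 (by positivity)
      linarith
    linarith

end Pool.Agent.H713R5.QJ
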