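import Mathlib
import Pool.Agent.H713R5.QJ.Defs1

/-! # CLO: coincidences between sinks persist -/

set_option autoImplicit false

open Topology Filter Metric Set Polynomial MeasureTheory
open Pool.Agent.H713R3.ZA

namespace Pool.Agent.H713R5.QJ

namespace CLO

theorem cont_eval (a : ℂ) (n M : ℕ) :
    Continuous (fun p : PE n × ℂ => (fx a n p.1)^[M] p.2) := (contDiff_fx a n M).continuous

theorem comp_gen {X Y : Type*} [TopologicalSpace X] [TopologicalSpace Y] (g : X × Y → Y)
    (hg : Continuous g) (S : Set X) (f : X → Y) (hf : ContinuousOn f S) :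
    ContinuousOn (fun x => g (x, f x)) S :=
  hg.comp_continuousOn (continuousOn_id.prodMk hf)

theorem comp_gen2 {X Y Z : Type*} [TopologicalSpace X] [TopologicalSpace Y] [TopologicalSpace Z]
    (g : X × Y → Z) (T : Set (X × Y))
    (hg : ContinuousOn g T) (S : Set X) (f : X → Y) (hf : ContinuousOn f S)
    (hm : ∀ x ∈ S, (x, f x) ∈ T) :
    ContinuousOn (fun x => g (x, f x)) S :=
  hg.comp (continuousOn_id.prodMk hf) hm

theorem cont2 (a : ℂ) (n b : ℕ) (S : Set (PE n)) (f : PE n → ℂ) (hf : ContinuousOn f S) :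
    ContinuousOn (fun x => (fx a n x)^[b] (f x)) S := by
  have := comp_gen (fun p : PE n × ℂ => (fx a n p.1)^[b] p.2) (cont_eval a n b) S f hf
  exact this

theorem deriv_eq (a : ℂ) (n P : ℕ) (p : PE n × ℂ) :
    deriv ((fx a n p.1)^[P]) p.2 =
      fderiv ℂ (fun p : PE n × ℂ => (fx a n p.1)^[P] p.2) p (0, 1) := by
  have h1 : HasFDerivAt (fun p : PE n × ℂ => (fx a n p.1)^[P] p.2)
      (fderiv ℂ (fun p : PE n × ℂ => (fx a n p.1)^[P] p.2) (p.1, p.2)) (p.1, p.2) :=
    ((contDiff_fx a n P).differentiable (by simp) (p.1, p.2)).hasFDerivAt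
  have h2 : HasDerivAt (fun z : ℂ => (p.1, z)) ((0 : PE n), (1 : ℂ)) p.2 :=
    (hasDerivAt_const p.2 p.1).prodMk (hasDerivAt_id p.2)
  have h3 := h1.comp_hasDerivAt p.2 h2
  exact h3.deriv

theorem cont_deriv (a : ℂ) (n P : ℕ) :
    Continuous (fun p : PE n × ℂ => deriv ((fx a n p.1)^[P]) p.2) := by
  have h1 : Continuous (fderiv ℂ (fun p : PE n × ℂ => (fx a n p.1)^[P] p.2)) :=
    (contDiff_fx a n P).continuous_fderiv (by simp)
  have h2 : (fun p : PE n × ℂ => deriv ((fx a n p.1)^[P]) p.2) =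
      fun p => fderiv ℂ (fun p : PE n × ℂ => (fx a n p.1)^[P] p.2) p (0, 1) := by
    funext p
    exact deriv_eq a n P p
  rw [h2]
  exact h1.clm_apply continuous_const

theorem diff_iter (a : ℂ) (n P : ℕ) (x : PE n) : Differentiable ℂ ((fx a n x)^[P]) := by
  induction P with
  | zero => exact differentiable_id
  | succ k ih =>
    rw [Function.iterate_succ]
    exact ih.comp (fx_differentiable a n x)

theorem cont_pt (n : ℕ) (i : Fin n) : Continuous (fun x : PE n => (x, x (some i))) := by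
  fun_prop

end CLO

open CLO in
theorem clo_holds : StCLO := by
  intro h0 h1 a n P M B R₃ Es Ee ha hn hP i hi i' hi' b
  obtain ⟨hATo, hSPd, -, hA0o⟩ := h1 h0 a n P ha hn hP
  have hOO : IsOpen (OO a n P M B R₃ Es Ee) := by
    have e : OO a n P M B R₃ Es Ee = ball (0 : PE n) B ∩
        ((⋂ i ∈ Es, (fun x : PE n => (x, x (some i))) ⁻¹' (A0 a n P)) ∩
          ⋂ i ∈ Ee, (fun x : PE n => ‖(fx a n x)^[M] (x (some i))‖) ⁻¹' (Ioi R₃)) := by
      ext x
      simp only [OO, mem_ofPred_eq, mem_inter_iff, mem_iInter, mem_preimage, mem_Ioi]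
    rw [e]
    apply isOpen_ball.inter
    apply IsOpen.inter
    · exact isOpen_biInter_finset fun j _ => hA0o.preimage (cont_pt n j)
    · refine isOpen_biInter_finset fun j _ => isOpen_Ioi.preimage ?_
      exact ((cont_eval a n M).comp (cont_pt n j)).norm
  have hmem : ∀ j ∈ Es, ∀ x ∈ OO a n P M B R₃ Es Ee,
      (x, x (some j)) ∈ {y : PE n × ℂ | AT (fx a n y.1) P y.2} := by
    intro j hj x hx
    exact (hx.2.1 j hj).1
  have hz : ∀ j ∈ Es, ContinuousOn (fun x : PE n => SP (fx a n x) P (x (some j)))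
      (OO a n P M B R₃ Es Ee) := by
    intro j hj
    have hc : ContinuousOn (fun y : PE n × ℂ => SP (fx a n y.1) P y.2)
      {y : PE n × ℂ | AT (fx a n y.1) P y.2} := hSPd.continuousOn
    exact comp_gen2 (fun y : PE n × ℂ => SP (fx a n y.1) P y.2) _ hc _ (fun x => x (some j))
      (continuous_apply (some j)).continuousOn (hmem j hj)
  have hz1 := hz i' hi'
  have hz2 : ContinuousOn (fun x : PE n => (fx a n x)^[b] (SP (fx a n x) P (x (some i))))
      (OO a n P M B R₃ Es Ee) := by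
    exact cont2 a n b _ _ (hz i hi)
  have hSk : ∀ j ∈ Es, ∀ x ∈ OO a n P M B R₃ Es Ee,
      Sk (fx a n x) P (x (some j)) (SP (fx a n x) P (x (some j))) := by
    intro j hj x hx
    exact (h0 (fx a n x) P (fx_differentiable a n x) hP).2.1 _ (hmem j hj x hx)
  constructor
  · rw [isOpen_iff_mem_nhds]
    rintro x₀ ⟨hx₀, heq⟩
    set z₀ := SP (fx a n x₀) P (x₀ (some i')) with hz₀
    have hlt : ‖deriv ((fx a n x₀)^[P]) z₀‖ < 1 := (hSk i' hi' x₀ hx₀).2.1
    obtain ⟨θ, hθ1, hθ2⟩ := exists_between hlt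
    have hnear : ∀ᶠ p : PE n × ℂ in 𝓝 (x₀, z₀), ‖deriv ((fx a n p.1)^[P]) p.2‖ < θ :=
      ((cont_deriv a n P).norm.continuousAt (x := (x₀, z₀))).eventually (gt_mem_nhds hθ1)
    obtain ⟨r, hr, hrb⟩ := Metric.eventually_nhds_iff_ball.1 hnear
    have hOn : OO a n P M B R₃ Es Ee ∈ 𝓝 x₀ := hOO.mem_nhds hx₀
    have c1 : ContinuousAt (fun x : PE n => SP (fx a n x) P (x (some i'))) x₀ :=
      hz1.continuousAt hOn
    have c2 : ContinuousAt (fun x : PE n => (fx a n x)^[b] (SP (fx a n x) P (x (some i)))) x₀ :=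
      hz2.continuousAt hOn
    have b1 : ∀ᶠ x in 𝓝 x₀, SP (fx a n x) P (x (some i')) ∈ ball z₀ r :=
      c1.eventually (ball_mem_nhds _ hr)
    have b2 : ∀ᶠ x in 𝓝 x₀, (fx a n x)^[b] (SP (fx a n x) P (x (some i))) ∈ ball z₀ r := by
      apply c2.eventually
      beta_reduce
      rw [← heq]
      exact ball_mem_nhds _ hr
    filter_upwards [hOn, b1, b2, ball_mem_nhds x₀ hr] with x hx hb1 hb2 hxb
    refine ⟨hx, ?_⟩
    have f1 : (fx a n x)^[P] (SP (fx a n x) P (x (some i'))) = SP (fx a n x) P (x (some i')) :=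
      (hSk i' hi' x hx).1
    have f2 : (fx a n x)^[P] ((fx a n x)^[b] (SP (fx a n x) P (x (some i)))) =
        (fx a n x)^[b] (SP (fx a n x) P (x (some i))) := by
      rw [← Function.iterate_add_apply, Nat.add_comm, Function.iterate_add_apply,
        (hSk i hi x hx).1]
    set z1 := SP (fx a n x) P (x (some i')) with hz1'
    set z2 := (fx a n x)^[b] (SP (fx a n x) P (x (some i))) with hz2'
    have hlip := (convex_ball z₀ r).norm_image_sub_le_of_norm_deriv_le (𝕜 := ℂ)
      (f := (fx a n x)^[P]) (C := θ) (fun z _ => diff_iter a n P x z)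
      (fun z hz => by
        have hzp : (x, z) ∈ ball ((x₀, z₀) : PE n × ℂ) r := by
          rw [mem_ball, Prod.dist_eq, max_lt_iff]
          exact ⟨hxb, hz⟩
        exact (hrb (x, z) hzp).le) hb2 hb1
    rw [f1, f2] at hlip
    have hn0 : ‖z1 - z2‖ = 0 := by
      have hnn := norm_nonneg (z1 - z2)
      nlinarith
    exact sub_eq_zero.1 (norm_eq_zero.1 hn0)
  · have e : {x | x ∈ OO a n P M B R₃ Es Ee ∧
        SP (fx a n x) P (x (some i')) ≠ (fx a n x)^[b] (SP (fx a n x) P (x (some i)))} =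
        OO a n P M B R₃ Es Ee ∩ (fun x : PE n => SP (fx a n x) P (x (some i')) -
          (fx a n x)^[b] (SP (fx a n x) P (x (some i)))) ⁻¹' {0}ᶜ := by
      ext x
      simp only [mem_ofPred_eq, mem_inter_iff, mem_preimage, mem_compl_iff, mem_singleton_iff,
        sub_eq_zero, ne_eq]
    rw [e]
    exact (hz1.sub hz2).isOpen_inter_preimage hOO isOpen_compl_singleton

end Pool.Agent.H713R5.QJ
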