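import Mathlib
import Pool.Agent.H713R5.QJ.Defs3
import Pool.Agent.H713R5.QJ.TCPTP

/-! Task CPTQ (helper666), adapted from TCPTP (helper742). -/

set_option autoImplicit false

open Topology Filter Metric Set Polynomial MeasureTheory
open Pool.Agent.H713R3.ZA

namespace Pool.Agent.H713R5.QJ

theorem cptq_holds : StCPTQ := by
  intro h0 h1 h2 h3 hN a n P M Ms B R C₁ R₁ R₃ lam₀ lam₁ r₁ r₂ ψ φ Es Ee rf ap F0 lam xT x₂ n₀ η
    ha hn hP hb hk hr hlam hF hDl hη
  have hDb : ∀ x ∈ LL2 a n P M Ms ψ Es Ee rf ap F0 lam xT n₀ η x₂, x ∈ ball (0 : PE n) B :=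
    fun x hx => hDl hx.1
  have e1 := hb.hR
  have e2 := hb.hC
  have e3 := hb.hR₁
  have e4 := hb.hR₃
  have hlne : ∀ i ∈ Es, lam i ≠ 0 := by
    intro i hi h
    have := (hlam i hi).1
    rw [h, norm_zero] at this
    exact absurd hk.l0 (not_lt.2 this)
  have hEeb : ∀ x ∈ ball (0 : PE n) B, ∀ i ∈ Ee, (fx a n x)^[M] (x (some i)) = ψ (x, F0 i) →
      R₃ < ‖(fx a n x)^[M] (x (some i))‖ := by
    intro x hx i hi h
    rw [h]
    have h4 := hF i hi
    have h5 := hb.ψc x hx (F0 i) (by linarith)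
    have h6 := norm_sub_norm_le (F0 i) (ψ (x, F0 i))
    rw [norm_sub_rev] at h6
    linarith
  have hsub : LL2 a n P M Ms ψ Es Ee rf ap F0 lam xT n₀ η x₂ ⊆ OO a n P M B R₃ Es Ee := by
    intro x hx
    refine ⟨hDb x hx, ?_, ?_⟩
    · intro i hi
      refine ⟨(hx.2.2.1 i hi).1, ?_⟩
      change LP (fx a n x) P (x (some i)) ≠ 0
      rw [(hx.2.2.1 i hi).2.1]
      exact hlne i hi
    · intro i hi
      exact hEeb x (hDb x hx) i hi (hx.2.1 i hi)
  refine ⟨?_, hsub⟩
  apply Metric.isCompact_of_isClosed_isBounded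
  · apply IsSeqClosed.isClosed
    intro xs x hxs hlim
    have hxD : Pool.Agent.H713R3.ZA.Dl a n xT x ≤ n₀ := by
      have := ((Pool.Agent.H713R3.ZA.Dl_continuous a n xT).tendsto x).comp hlim
      exact le_of_tendsto this (Eventually.of_forall fun k => (hxs k).1)
    have hxB : x ∈ ball (0 : PE n) B := hDl hxD
    have hcoord : ∀ i : Fin n, Tendsto (fun k => xs k (some i)) atTop (𝓝 (x (some i))) :=
      fun i => ((continuous_apply (some i)).tendsto x).comp hlim
    have hpair : ∀ i : Fin n, Tendsto (fun k => ((xs k, xs k (some i)) : PE n × ℂ)) atTop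
        (𝓝 (x, x (some i))) := fun i => hlim.prodMk_nhds (hcoord i)
    have hEe : ∀ i ∈ Ee, (fx a n x)^[M] (x (some i)) = ψ (x, F0 i) := by
      intro i hi
      have h4 := hF i hi
      have l1 := ((cptp_cont a n M).tendsto (x, x (some i))).comp (hpair i)
      have hop : IsOpen (ball (0 : PE n) B ×ˢ {w : ℂ | R₁ < ‖w‖}) :=
        isOpen_ball.prod (isOpen_lt continuous_const continuous_norm)
      have hmem : ((x, F0 i) : PE n × ℂ) ∈ ball (0 : PE n) B ×ˢ {w : ℂ | R₁ < ‖w‖} :=
        ⟨hxB, by show R₁ < ‖F0 i‖; linarith⟩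
      have hca : ContinuousAt ψ (x, F0 i) :=
        (hb.ψd.continuousOn.continuousAt (hop.mem_nhds hmem))
      have l2 : Tendsto (fun k => ψ (xs k, F0 i)) atTop (𝓝 (ψ (x, F0 i))) :=
        Tendsto.comp hca (hlim.prodMk_nhds tendsto_const_nhds)
      refine tendsto_nhds_unique l1 (l2.congr fun k => ?_)
      exact ((hxs k).2.1 i hi).symm
    have hEs : ∀ i ∈ Es, AT (fx a n x) P (x (some i)) ∧ LP (fx a n x) P (x (some i)) = lam i ∧
        ‖(fx a n x)^[P * Ms] (x (some i)) - SP (fx a n x) P (x (some i))‖ ≤ η := by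
      intro i hi
      set zs : ℕ → ℂ := fun k => SP (fx a n (xs k)) P (xs k (some i)) with hzs
      have hfd : ∀ y : PE n, Differentiable ℂ (fx a n y) := fun y => fx_differentiable a n y
      have hsk : ∀ k, Sk (fx a n (xs k)) P (xs k (some i)) (zs k) := fun k =>
        (h0 (fx a n (xs k)) P (hfd _) hP).2.1 _ ((hxs k).2.2.1 i hi).1
      have hzb : ∀ k, zs k ∈ closedBall (0 : ℂ) R := by
        intro k
        rw [mem_closedBall_zero_iff]
        exact (cptp_fix_lt hP e1 (hb.esc (xs k) (mem_ball_zero_iff.1 (hDb _ (hxs k))).le)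
          (hsk k).1).le
      obtain ⟨z, _, σ, hσ, hz⟩ := (isCompact_closedBall (0 : ℂ) R).tendsto_subseq hzb
      have hlimσ : Tendsto (fun k => xs (σ k)) atTop (𝓝 x) := hlim.comp hσ.tendsto_atTop
      have hpz : Tendsto (fun k => ((xs (σ k), zs (σ k)) : PE n × ℂ)) atTop (𝓝 (x, z)) :=
        hlimσ.prodMk_nhds hz
      have hpc : Tendsto (fun k => ((xs (σ k), xs (σ k) (some i)) : PE n × ℂ)) atTop
          (𝓝 (x, x (some i))) := (hpair i).comp hσ.tendsto_atTop
      have f1 : (fx a n x)^[P] z = z := by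
        have l1 := ((cptp_cont a n P).tendsto (x, z)).comp hpz
        refine tendsto_nhds_unique l1 (hz.congr fun k => ?_)
        exact (hsk (σ k)).1.symm
      have f2 : deriv ((fx a n x)^[P]) z = lam i := by
        have l1 := ((cptp_cont_deriv a n P).tendsto (x, z)).comp hpz
        refine tendsto_nhds_unique l1 (tendsto_const_nhds.congr fun k => ?_)
        exact ((hxs (σ k)).2.2.1 i hi).2.1.symm
      have f3 : ‖(fx a n x)^[P * Ms] (x (some i)) - z‖ ≤ η := by
        have l1 := ((cptp_cont a n (P * Ms)).tendsto (x, x (some i))).comp hpc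
        have l2 := (l1.sub hz).norm
        refine le_of_tendsto l2 (Eventually.of_forall fun k => ?_)
        exact ((hxs (σ k)).2.2.1 i hi).2.2
      have f4 := hk.att x hxB z f1 (by rw [f2]; exact (hlam i hi).1) (by rw [f2]; exact (hlam i hi).2)
        ((fx a n x)^[P * Ms] (x (some i))) (by
          rw [mem_ball, dist_eq_norm]; exact lt_of_le_of_lt f3 hη)
      have f5 : Sk (fx a n x) P (x (some i)) z := by
        refine ⟨f4.1.1, f4.1.2.1, ?_⟩
        have l1 := f4.1.2.2
        rw [← tendsto_add_atTop_iff_nat Ms]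
        refine l1.congr fun k => ?_
        rw [← Function.iterate_add_apply, ← Nat.mul_add]
      have f6 : SP (fx a n x) P (x (some i)) = z := (h0 (fx a n x) P (hfd _) hP).1 _ _ f5
      refine ⟨⟨z, f5⟩, ?_, ?_⟩
      · unfold LP; rw [f6]; exact f2
      · rw [f6]; exact f3
    refine ⟨hxD, hEe, hEs, ?_⟩
    have hxO : x ∈ OO a n P M B R₃ Es Ee := by
      refine ⟨hxB, ?_, ?_⟩
      · intro i hi
        refine ⟨(hEs i hi).1, ?_⟩
        change LP (fx a n x) P (x (some i)) ≠ 0
        rw [(hEs i hi).2.1]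
        exact hlne i hi
      · intro i hi
        exact hEeb x hxB i hi (hEe i hi)
    obtain ⟨hOo, hNU⟩ := hN h0 h1 h2 h3 a n P M B R₃ Es Ee rf ap ha hn hP hr
    intro i hi
    obtain ⟨d1, d2, _⟩ := hNU i hi
    have k1 : ContinuousAt (nu a n P rf i) x :=
      d1.continuousOn.continuousAt (hOo.mem_nhds hxO)
    have k2 : ContinuousAt (dn a n P rf ap i) x :=
      d2.continuousOn.continuousAt (hOo.mem_nhds hxO)
    have c1 : Tendsto (fun k => nu a n P rf i (xs k)) atTop (𝓝 (nu a n P rf i x)) :=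
      k1.tendsto.comp hlim
    have c2 : Tendsto (fun k => dn a n P rf ap i (xs k)) atTop (𝓝 (dn a n P rf ap i x)) :=
      k2.tendsto.comp hlim
    refine tendsto_nhds_unique (c1.mul_const (dn a n P rf ap i x₂))
      ((c2.const_mul (nu a n P rf i x₂)).congr fun k => ?_)
    exact ((hxs k).2.2.2 i hi).symm
  · exact isBounded_ball.subset fun x hx => hDb x hx

end Pool.Agent.H713R5.QJ
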