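import Mathlib
import Pool.Agent.H713R5.QJ.Defs1

/-!
Project QJ (MP_28f8a1_an), task CRB: bad critical points stay outside the target region up to
time `N`, for nearby maps.
-/

set_option autoImplicit false

open Topology Filter Metric Set Polynomial MeasureTheory
open Pool.Agent.H713R3.ZA

namespace Pool.Agent.H713R5.QJ

namespace CRBaux

theorem at_iter {f : ℂ → ℂ} {P : ℕ} (h3 : ∀ u : ℂ, AT f P (f u) ↔ AT f P u) (u : ℂ) (j : ℕ) :
    AT f P (f^[j] u) ↔ AT f P u := by
  induction j with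
  | zero => exact Iff.rfl
  | succ j ih => rw [Function.iterate_succ_apply', h3, ih]

theorem sp_iter {f : ℂ → ℂ} {P : ℕ} (h3 : ∀ u : ℂ, AT f P (f u) ↔ AT f P u)
    (h4 : ∀ u : ℂ, AT f P u → SP f P (f u) = f (SP f P u) ∧ LP f P (f u) = LP f P u)
    {u : ℂ} (hu : AT f P u) (b : ℕ) :
    SP f P (f^[b] u) = f^[b] (SP f P u) ∧ LP f P (f^[b] u) = LP f P u := by
  induction b with
  | zero => exact ⟨rfl, rfl⟩
  | succ b ih =>
    obtain ⟨h5, h6⟩ := h4 (f^[b] u) ((at_iter h3 u b).2 hu)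
    rw [Function.iterate_succ_apply', Function.iterate_succ_apply', h5, h6, ih.1, ih.2]
    exact ⟨rfl, rfl⟩

theorem good_of_large {a : ℂ} {n : ℕ} {B R C₁ R₁ R₃ : ℝ} {ψ φ : PE n × ℂ → ℂ}
    (hb : BO a n B R C₁ R₁ R₃ ψ φ) {x : PE n} (hx : x ∈ ball (0 : PE n) B) {u : ℂ} {k : ℕ}
    (h : R ≤ ‖(fx a n x)^[k] u‖) : Good (fx a n x) u := by
  left
  have h1 := not_mem_KJ_of_large hb hx h
  unfold KJ at h1
  rw [mem_ofPred_eq, not_not] at h1
  exact h1

end CRBaux

open CRBaux in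
theorem crb_holds : StCRB := by
  intro hKO0 hKO1 _ _ a n P M N B R C₁ R₁ R₃ R₇ lam₀ lam₁ r₁ r₂ r' τ ρ ψ φ Es Ee rf ap F0 γ
    ha hn hP hb hkl hgd hlam _ hr'1
  have h0b : (0 : ℂ) ∈ ball (0 : ℂ) ρ := mem_ball_self hgd.hρ
  have hγc : ContinuousAt γ 0 := hgd.γd.continuousOn.continuousAt (isOpen_ball.mem_nhds h0b)
  have hx0 : γ 0 ∈ ball (0 : PE n) B := hgd.γB 0 h0b
  obtain ⟨ho, hSP, -, -⟩ := hKO1 hKO0 a n P ha hn hP
  obtain ⟨-, h2, h3, h4, -⟩ := hKO0 (fx a n (γ 0)) P (fx_differentiable a n (γ 0)) hP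
  have hco : ∀ k : Option (Fin n), ContinuousAt (fun t => γ t k) 0 := fun k =>
    (continuous_apply k).continuousAt.comp hγc
  have key : ∀ l : Fin n, l ∉ Es → l ∉ Ee → ∀ j : ℕ, ∀ᶠ t in 𝓝 (0 : ℂ),
      (fx a n (γ t))^[j] (γ t (some l)) ∉ UF n R₃ R₇ φ (γ t) ∪ US a n P Es rf r' τ (γ t) := by
    intro l hl1 hl2 j
    have hbad := hgd.bad l hl1 hl2
    have hy : ContinuousAt (fun t => (fx a n (γ t))^[j] (γ t (some l))) 0 :=
      ContinuousAt.comp (f := fun t => (γ t, γ t (some l)))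
        (g := fun p : PE n × ℂ => (fx a n p.1)^[j] p.2)
        (contDiff_fx a n j).continuous.continuousAt (hγc.prodMk (hco _))
    -- the far part
    have hfar : ‖(fx a n (γ 0))^[j] (γ 0 (some l))‖ < R₃ := by
      by_contra hlt
      apply hbad
      apply good_of_large hb hx0 (k := j)
      have h5 := hb.hC
      have h6 := hb.hR₁
      have h7 := hb.hR₃
      have h8 := not_lt.1 hlt
      linarith
    have ev1 : ∀ᶠ t in 𝓝 (0 : ℂ), ‖(fx a n (γ t))^[j] (γ t (some l))‖ < R₃ :=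
      hy.norm.eventually (gt_mem_nhds hfar)
    -- the part near the sinks
    have hnear : ∀ i ∈ Es, ∀ b : ℕ, ∀ᶠ t in 𝓝 (0 : ℂ),
        r' < ‖(fx a n (γ t))^[j] (γ t (some l)) -
          (fx a n (γ t))^[b] (SP (fx a n (γ t)) P (γ t (some i)))‖ := by
      intro i hi b
      have hat : AT (fx a n (γ 0)) P (γ 0 (some i)) := (hgd.A0s 0 h0b i hi).1
      have hs0 : ContinuousAt (fun y : PE n × ℂ => SP (fx a n y.1) P y.2) (γ 0, γ 0 (some i)) :=
        hSP.continuousOn.continuousAt (ho.mem_nhds hat)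
      have hs : ContinuousAt (fun t => SP (fx a n (γ t)) P (γ t (some i))) 0 :=
        ContinuousAt.comp (f := fun t => (γ t, γ t (some i))) hs0 (hγc.prodMk (hco _))
      have hsb : ContinuousAt
          (fun t => (fx a n (γ t))^[b] (SP (fx a n (γ t)) P (γ t (some i)))) 0 :=
        ContinuousAt.comp (f := fun t => (γ t, SP (fx a n (γ t)) P (γ t (some i))))
          (g := fun p : PE n × ℂ => (fx a n p.1)^[b] p.2)
          (contDiff_fx a n b).continuous.continuousAt (hγc.prodMk hs)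
      have hgt : r' < ‖(fx a n (γ 0))^[j] (γ 0 (some l)) -
          (fx a n (γ 0))^[b] (SP (fx a n (γ 0)) P (γ 0 (some i)))‖ := by
        by_contra hle
        have hle := not_lt.1 hle
        apply hbad
        right
        refine ⟨P, hP, ?_⟩
        rw [← at_iter h3 _ j]
        obtain ⟨h5, h6⟩ := sp_iter h3 h4 hat b
        have h7 := h2 _ ((at_iter h3 _ b).2 hat)
        rw [h5] at h7
        have h8 : deriv ((fx a n (γ 0))^[P])
            ((fx a n (γ 0))^[b] (SP (fx a n (γ 0)) P (γ 0 (some i)))) =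
            LP (fx a n (γ 0)) P (γ 0 (some i)) := by
          rw [← h6, LP, h5]
        have h9 := hlam i hi
        have h10 := hkl.att (γ 0) hx0 _ h7.1 (by rw [h8]; exact h9.1) (by rw [h8]; exact h9.2)
          ((fx a n (γ 0))^[j] (γ 0 (some l))) (by
            rw [mem_ball, dist_eq_norm]
            linarith)
        exact ⟨_, h10.1⟩
      exact (hy.sub hsb).norm.eventually (lt_mem_nhds hgt)
    have ev2 : ∀ᶠ t in 𝓝 (0 : ℂ), ∀ i ∈ Es, ∀ b ∈ Finset.range P,
        r' < ‖(fx a n (γ t))^[j] (γ t (some l)) -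
          (fx a n (γ t))^[b] (SP (fx a n (γ t)) P (γ t (some i)))‖ := by
      rw [Filter.eventually_all_finset]
      intro i hi
      rw [Filter.eventually_all_finset]
      intro b _
      exact hnear i hi b
    filter_upwards [ev1, ev2] with t ht1 ht2
    rintro (hU | hU)
    · exact absurd hU.1 (not_lt.2 ht1.le)
    · obtain ⟨i, hi, -, b, hbP, h5, -⟩ := hU
      exact absurd h5 (not_lt.2 (ht2 i hi b (Finset.mem_range.2 hbP)).le)
  have all : ∀ᶠ t in 𝓝 (0 : ℂ), ∀ l : Fin n, ∀ j ∈ Finset.range (N + 1), l ∉ Es → l ∉ Ee →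
      (fx a n (γ t))^[j] (γ t (some l)) ∉ UF n R₃ R₇ φ (γ t) ∪ US a n P Es rf r' τ (γ t) := by
    rw [Filter.eventually_all]
    intro l
    rw [Filter.eventually_all_finset]
    intro j _
    by_cases hl1 : l ∈ Es
    · exact Filter.Eventually.of_forall fun t h => absurd hl1 h
    by_cases hl2 : l ∈ Ee
    · exact Filter.Eventually.of_forall fun t _ h => absurd hl2 h
    filter_upwards [key l hl1 hl2 j] with t ht _ _
    exact ht
  obtain ⟨ε, hε, h⟩ := Metric.eventually_nhds_iff_ball.1 all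
  refine ⟨min ε ρ, lt_min hε hgd.hρ, min_le_right _ _, ?_⟩
  intro t ht l hl1 hl2 j hj
  exact h t (ball_subset_ball (min_le_left _ _) ht) l j (Finset.mem_range.2 (by omega)) hl1 hl2

end Pool.Agent.H713R5.QJ
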