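import Mathlib
import Pool.Agent.H713R5.QJ.Defs1

set_option autoImplicit false

open Topology Filter Metric Set Polynomial MeasureTheory
open Pool.Agent.H713R3.ZA

namespace Pool.Agent.H713R5.QJ

private theorem qq_fiber {a : ℂ} (ha : a ≠ 0) (n : ℕ) (c : ℂ) : {w : ℂ | QQ a n w = c}.Finite := by
  have h0 : (C a * X ^ (n + 1) - C c : ℂ[X]) ≠ 0 := by
    intro h
    have h1 := congrArg (fun q : ℂ[X] => q.coeff (n + 1)) h
    simp only [coeff_sub, coeff_C_mul, coeff_X_pow, if_true, coeff_C_succ, coeff_zero] at h1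
    apply ha
    simpa using h1
  refine ((C a * X ^ (n + 1) - C c : ℂ[X]).rootSet_finite ℂ).subset ?_
  intro w hw
  rw [mem_rootSet]
  refine ⟨h0, ?_⟩
  have hw' : a * w ^ (n + 1) = c := hw
  simp [hw']

private theorem qq_iter_fiber {a : ℂ} (ha : a ≠ 0) (n : ℕ) (m : ℕ) (c : ℂ) :
    {w : ℂ | (QQ a n)^[m] w = c}.Finite := by
  induction m generalizing c with
  | zero =>
    refine (finite_singleton c).subset ?_
    intro w hw
    exact hw
  | succ m ih =>
    have : {w : ℂ | (QQ a n)^[m + 1] w = c} ⊆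
        ⋃ v ∈ {v : ℂ | QQ a n v = c}, {w : ℂ | (QQ a n)^[m] w = v} := by
      intro w hw
      have hw' : (QQ a n)^[m + 1] w = c := hw
      rw [Function.iterate_succ_apply'] at hw'
      exact mem_biUnion (x := (QQ a n)^[m] w) hw' rfl
    exact ((qq_fiber ha n c).biUnion fun v _ => ih v).subset this

theorem cre_holds : StCRE := by
  intro a n P M N B R C₁ R₁ R₃ R₇ ρ ψ φ Es Ee rf ap F0 γ ha hn hb hR7 hg
  have h0 : (0 : ℂ) ∈ ball (0 : ℂ) ρ := mem_ball_self hg.hρ
  have hR13 : R₁ ≤ R₃ := by have := hb.hC; have := hb.hR₃; linarith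
  have hR17 : R₁ ≤ R₇ := by have := hb.hC; linarith
  set Vl : Set ℂ := ⋃ i ∈ (Ee : Set (Fin n)),
    ((⋃ m ∈ (Finset.range (M + 1) : Set ℕ), {v : ℂ | (QQ a n)^[m] v = F0 i}) ∪
      ⋃ m ∈ (Finset.range (N + 1) : Set ℕ), {(QQ a n)^[m] (F0 i)}) with hVl
  have hVf : Vl.Finite := by
    refine (Finset.finite_toSet Ee).biUnion fun i _ => ?_
    exact ((Finset.finite_toSet _).biUnion fun m _ => qq_iter_fiber ha n m _).union
      ((Finset.finite_toSet _).biUnion fun m _ => finite_singleton _)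
  have hinj : InjOn (fun w => φ (γ 0, w)) {w : ℂ | R₃ < ‖w‖} := by
    intro w hw w' hw' h
    have e1 := hb.ψφ (γ 0) (hg.γB 0 h0) w hw
    have e2 := hb.ψφ (γ 0) (hg.γB 0 h0) w' hw'
    simp only at h
    rw [← e1, ← e2, h]
  refine ⟨{w : ℂ | R₃ < ‖w‖ ∧ φ (γ 0, w) ∈ Vl}, ?_, ?_⟩
  · refine Set.Finite.of_finite_image (f := fun w => φ (γ 0, w)) (hVf.subset ?_) ?_
    · rintro _ ⟨w, hw, rfl⟩
      exact hw.2
    · exact hinj.mono fun w hw => hw.1
  · intro t ht i hi j hj w hw he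
    refine ⟨hw.1, ?_⟩
    have hw2 : R₁ < ‖φ (γ 0, w)‖ := lt_of_le_of_lt hR17 hw.2
    have hF : R₁ < ‖F0 i‖ := lt_of_le_of_lt hR13 (hg.F1 i hi)
    have hesc := hg.esc t ht i hi
    refine mem_biUnion (x := i) hi ?_
    rcases le_or_gt j M with hjM | hjM
    · left
      refine mem_biUnion (x := M - j) (by simp) ?_
      have e1 : (fx a n (γ t))^[M] (γ t (some i)) =
          (fx a n (γ t))^[M - j] ((fx a n (γ t))^[j] (γ t (some i))) := by
        rw [← Function.iterate_add_apply]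
        congr 1
        omega
      rw [e1, he, hb.fe_iter (hg.γB t ht) hw2] at hesc
      exact hb.ψi (γ t) (hg.γB t ht) (hb.QQ_iter hw2 _) hF hesc
    · right
      refine mem_biUnion (x := j - M) (by simp; omega) ?_
      have e1 : (fx a n (γ t))^[j] (γ t (some i)) =
          (fx a n (γ t))^[j - M] ((fx a n (γ t))^[M] (γ t (some i))) := by
        rw [← Function.iterate_add_apply]
        congr 1
        omega
      rw [e1, hesc, hb.fe_iter (hg.γB t ht) hF] at he
      exact (hb.ψi (γ t) (hg.γB t ht) (hb.QQ_iter hF _) hw2 he).symm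

end Pool.Agent.H713R5.QJ
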