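import Mathlib
import Pool.Agent.H713R5.QJ.Defs

set_option autoImplicit false

open Topology Filter Metric Set Polynomial MeasureTheory

namespace Pool.Agent.H713R5.QJ

namespace CURVE

/-- quantitative surjectivity near a point where the derivative is surjective -/
theorem solve {X Y : Type} [NormedAddCommGroup X] [NormedSpace ℂ X] [CompleteSpace X]
    [NormedAddCommGroup Y] [NormedSpace ℂ Y] [CompleteSpace Y] (F : X → Y) (hF : ContDiff ℂ 1 F)
    (hs : ∀ w, ∃ v, fderiv ℂ F 0 v = w) :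
    ∃ C ε : ℝ, 0 < C ∧ 0 < ε ∧ ∀ y, ‖y - F 0‖ ≤ ε → ∃ x, ‖x‖ ≤ C * ‖y - F 0‖ ∧ F x = y := by
  have h1 : HasStrictFDerivAt F (fderiv ℂ F 0) 0 := hF.contDiffAt.hasStrictFDerivAt (by norm_num)
  have hr : (fderiv ℂ F 0).range = ⊤ := by
    rw [LinearMap.range_eq_top]
    exact fun w => hs w
  set R := (fderiv ℂ F 0).nonlinearRightInverseOfSurjective hr with hR
  have hN : 0 < R.nnnorm := (fderiv ℂ F 0).nonlinearRightInverseOfSurjective_nnnorm_pos hr
  have hN' : (0 : ℝ) < (R.nnnorm : ℝ) := by exact_mod_cast hN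
  obtain ⟨s, hs0, hap⟩ := h1.approximates_deriv_on_nhds (c := R.nnnorm⁻¹ / 2)
    (Or.inr (by positivity))
  obtain ⟨ε₁, hε₁, hsub⟩ := Metric.nhds_basis_closedBall.mem_iff.mp hs0
  refine ⟨2 * R.nnnorm, ε₁ / (2 * R.nnnorm), by positivity, by positivity, ?_⟩
  intro y hy
  have hy' : 2 * (R.nnnorm : ℝ) * ‖y - F 0‖ ≤ ε₁ := by
    rw [le_div_iff₀ (by positivity)] at hy
    linarith
  have h2 := hap.surjOn_closedBall_of_nonlinearRightInverse R (ε := 2 * R.nnnorm * ‖y - F 0‖)
    (b := 0) (by positivity) ((closedBall_subset_closedBall hy').trans hsub)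
  have h3 : y ∈ closedBall (F 0) (((R.nnnorm : ℝ)⁻¹ - ((R.nnnorm⁻¹ / 2 : NNReal) : ℝ)) *
      (2 * R.nnnorm * ‖y - F 0‖)) := by
    rw [mem_closedBall, dist_eq_norm]
    push_cast
    apply le_of_eq
    field_simp
    ring
  obtain ⟨x, hx, hxy⟩ := h2 h3
  refine ⟨x, ?_, hxy⟩
  rwa [mem_closedBall, dist_zero_right] at hx

/-- derivative of an iterate -/
theorem hasDerivAt_iter (f f' : ℂ → ℂ) (hf : ∀ x, HasDerivAt f (f' x) x) (n : ℕ) (x : ℂ) :
    HasDerivAt (f^[n]) (∏ i ∈ Finset.range n, f' (f^[i] x)) x := by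
  induction n with
  | zero => simpa using hasDerivAt_id x
  | succ n ih =>
    rw [Function.iterate_succ', Finset.prod_range_succ, mul_comm]
    exact (hf (f^[n] x)).comp x ih

theorem deriv_iter (S : ℂ[X]) (n : ℕ) (x : ℂ) :
    deriv ((ev S)^[n]) x = ∏ i ∈ Finset.range n, (derivative S).eval ((ev S)^[i] x) :=
  (hasDerivAt_iter (ev S) (fun x => (derivative S).eval x) (fun x => S.hasDerivAt x) n x).deriv

/-- product over several periods -/
theorem prod_periods (G : ℕ → ℂ) (m k : ℕ) (hG : ∀ i, G (i + m) = G i) :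
    ∏ i ∈ Finset.range (m * k), G i = (∏ i ∈ Finset.range m, G i) ^ k := by
  induction k with
  | zero => simp
  | succ k ih =>
    rw [Nat.mul_succ, Finset.prod_range_add, ih, pow_succ]
    congr 1
    apply Finset.prod_congr rfl
    intro i _
    have : ∀ k, G (m * k + i) = G i := by
      intro k
      induction k with
      | zero => simp
      | succ k ih2 =>
        rw [← ih2, ← hG (m * k + i)]
        congr 1; ring
    exact this k

/-- the polynomial with coefficients `c` -/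
noncomputable def hp {m : ℕ} (c : Fin m → ℂ) : ℂ[X] := ∑ i : Fin m, C (c i) * X ^ (i : ℕ)

theorem hp_coeff {m : ℕ} (c : Fin m → ℂ) (j : ℕ) :
    (hp c).coeff j = if h : j < m then c ⟨j, h⟩ else 0 := by
  unfold hp
  rw [Polynomial.finset_sum_coeff]
  simp only [Polynomial.coeff_C_mul_X_pow]
  split_ifs with h
  · rw [Finset.sum_eq_single (⟨j, h⟩ : Fin m)]
    · simp
    · intro b _ hb
      rw [if_neg]
      intro hj
      exact hb (Fin.ext hj.symm)
    · intro h'; exact absurd (Finset.mem_univ _) h'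
  · apply Finset.sum_eq_zero
    intro i _
    rw [if_neg]
    intro hj
    exact h (hj ▸ i.2)

theorem hp_eval {m : ℕ} (c : Fin m → ℂ) (w : ℂ) : (hp c).eval w = ∑ i : Fin m, c i * w ^ (i : ℕ) := by
  unfold hp
  rw [Polynomial.eval_finset_sum]
  simp

theorem hp_deval {m : ℕ} (c : Fin m → ℂ) (w : ℂ) : (derivative (hp c)).eval w =
    ∑ i : Fin m, c i * (((i : ℕ) : ℂ) * w ^ ((i : ℕ) - 1)) := by
  unfold hp
  rw [Polynomial.derivative_sum, Polynomial.eval_finset_sum]
  apply Finset.sum_congr rfl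
  intro i _
  simp [Polynomial.derivative_C_mul, Polynomial.derivative_X_pow]

theorem hp_of {m : ℕ} (h : ℂ[X]) (hh : h.natDegree < m) : hp (fun i : Fin m => h.coeff i) = h := by
  ext j
  rw [hp_coeff]
  split_ifs with hj
  · rfl
  · rw [Polynomial.coeff_eq_zero_of_natDegree_lt (by omega)]

theorem hp_smul {m : ℕ} (c : Fin m → ℂ) (s : ℂ) : hp (s • c) = C s * hp c := by
  unfold hp
  rw [Finset.mul_sum]
  apply Finset.sum_congr rfl
  intro i _
  simp [mul_assoc]

theorem hp_natDegree {m : ℕ} (c : Fin m → ℂ) (hm : 0 < m) : (hp c).natDegree < m := by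
  rw [Nat.lt_iff_le_pred hm, Polynomial.natDegree_le_iff_coeff_eq_zero]
  intro j hj
  rw [hp_coeff, dif_neg (by omega)]

section

variable {T : ℂ[X]} {Z : Finset ℂ} (hZ : ∀ z ∈ Z, T.eval z ∈ Z) {m : ℕ}

/-- the permutation of the points -/
def sg (z : Z) : Z := ⟨T.eval z, hZ z z.2⟩

theorem sg_iter (i : ℕ) (z : Z) : (((sg hZ)^[i] z : Z) : ℂ) = (ev T)^[i] z := by
  induction i with
  | zero => rfl
  | succ i ih => rw [Function.iterate_succ_apply', Function.iterate_succ_apply', ← ih]; rfl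

/-- the equations of the cycles -/
noncomputable def F1 (x : (Fin m → ℂ) × (Z → ℂ)) (z : Z) : ℂ :=
  T.eval ((z : ℂ) + x.2 z) + (hp x.1).eval ((z : ℂ) + x.2 z) - (T.eval (z : ℂ) + x.2 (sg hZ z))

/-- the derivative at a point of the cycle -/
noncomputable def G (T : ℂ[X]) (x : (Fin m → ℂ) × (Z → ℂ)) (z : Z) : ℂ :=
  (derivative T).eval ((z : ℂ) + x.2 z) + (derivative (hp x.1)).eval ((z : ℂ) + x.2 z)

/-- the multipliers -/
noncomputable def F2 (x : (Fin m → ℂ) × (Z → ℂ)) (z : Z) : ℂ :=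
  ∏ i ∈ Finset.range (Function.minimalPeriod (ev T) z), G T x ((sg hZ)^[i] z)

theorem F1_cd (z : Z) : ContDiff ℂ 1 (fun x : (Fin m → ℂ) × (Z → ℂ) => F1 hZ x z) := by
  unfold F1
  simp only [hp_eval]
  have h0 : ContDiff ℂ 1 (fun x : (Fin m → ℂ) × (Z → ℂ) => (z : ℂ) + x.2 z) := by fun_prop
  have h1 : ContDiff ℂ 1 (fun x : (Fin m → ℂ) × (Z → ℂ) => T.eval ((z : ℂ) + x.2 z)) :=
    T.differentiable.contDiff.comp h0
  fun_prop

theorem G_cd (z : Z) : ContDiff ℂ 1 (fun x : (Fin m → ℂ) × (Z → ℂ) => G T x z) := by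
  unfold G
  simp only [hp_deval]
  have h0 : ContDiff ℂ 1 (fun x : (Fin m → ℂ) × (Z → ℂ) => (z : ℂ) + x.2 z) := by fun_prop
  have h1 : ContDiff ℂ 1 (fun x : (Fin m → ℂ) × (Z → ℂ) =>
      (derivative T).eval ((z : ℂ) + x.2 z)) := (derivative T).differentiable.contDiff.comp h0
  fun_prop

theorem F2_cd (z : Z) : ContDiff ℂ 1 (fun x : (Fin m → ℂ) × (Z → ℂ) => F2 hZ x z) := by
  unfold F2
  exact contDiff_prod fun i _ => G_cd _

theorem line (P : ℂ[X]) (z a : ℂ) :
    HasDerivAt (fun s : ℂ => P.eval (z + s * a)) ((derivative P).eval z * a) 0 := by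
  have h1 : HasDerivAt (fun s : ℂ => z + s * a) a 0 := by
    simpa using ((hasDerivAt_id (0 : ℂ)).mul_const a).const_add z
  have h2 : HasDerivAt (fun w : ℂ => P.eval w) ((derivative P).eval z) (z + 0 * a) := by
    have := P.hasDerivAt (z + 0 * a)
    simpa using this
  exact h2.comp (0 : ℂ) h1

theorem line0 (P : ℂ[X]) (z a : ℂ) :
    HasDerivAt (fun s : ℂ => s * P.eval (z + s * a)) (P.eval z) 0 := by
  have h := (hasDerivAt_id' (0 : ℂ)).fun_mul (line P z a)
  simpa using h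

theorem F1_line (v : (Fin m → ℂ) × (Z → ℂ)) (z : Z) :
    HasDerivAt (fun s : ℂ => F1 hZ (s • v) z)
      ((derivative T).eval (z : ℂ) * v.2 z + (hp v.1).eval (z : ℂ) - v.2 (sg hZ z)) 0 := by
  have h3 : HasDerivAt (fun s : ℂ => T.eval (z : ℂ) + s * v.2 (sg hZ z)) (v.2 (sg hZ z)) 0 := by
    simpa using ((hasDerivAt_id (0 : ℂ)).mul_const (v.2 (sg hZ z))).const_add (T.eval (z : ℂ))
  have h := ((line T z (v.2 z)).add (line0 (hp v.1) z (v.2 z))).sub h3
  refine h.congr_of_eventuallyEq (Eventually.of_forall fun s => ?_)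
  simp only [F1, Prod.smul_fst, Prod.smul_snd, hp_smul, Pi.smul_apply, smul_eq_mul,
    Polynomial.eval_mul, Polynomial.eval_C, Pi.add_apply, Pi.sub_apply]

theorem G_line (v : (Fin m → ℂ) × (Z → ℂ)) (z : Z) :
    HasDerivAt (fun s : ℂ => G T (s • v) z)
      ((derivative (derivative T)).eval (z : ℂ) * v.2 z + (derivative (hp v.1)).eval (z : ℂ)) 0 := by
  have h := (line (derivative T) z (v.2 z)).add (line0 (derivative (hp v.1)) z (v.2 z))
  refine h.congr_of_eventuallyEq (Eventually.of_forall fun s => ?_)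
  simp only [G, Prod.smul_fst, Prod.smul_snd, hp_smul, Pi.smul_apply, smul_eq_mul,
    Polynomial.derivative_C_mul, Polynomial.eval_mul, Polynomial.eval_C, Pi.add_apply]

theorem G_zero (z : Z) : G T (0 : (Fin m → ℂ) × (Z → ℂ)) z = (derivative T).eval (z : ℂ) := by
  simp [G, hp]

theorem F1_zero (z : Z) : F1 hZ (0 : (Fin m → ℂ) × (Z → ℂ)) z = 0 := by
  simp [F1, hp]

theorem F2_line (hne : ∀ z ∈ Z, (derivative T).eval z ≠ 0) (v : (Fin m → ℂ) × (Z → ℂ)) (z : Z) :
    HasDerivAt (fun s : ℂ => F2 hZ (s • v) z)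
      (F2 hZ (0 : (Fin m → ℂ) × (Z → ℂ)) z *
        ∑ i ∈ Finset.range (Function.minimalPeriod (ev T) z),
          ((derivative (hp v.1)).eval (((sg hZ)^[i] z : Z) : ℂ) +
            (derivative (derivative T)).eval (((sg hZ)^[i] z : Z) : ℂ) * v.2 ((sg hZ)^[i] z)) /
            (derivative T).eval (((sg hZ)^[i] z : Z) : ℂ)) 0 := by
  have h := HasDerivAt.fun_finsetProd (u := Finset.range (Function.minimalPeriod (ev T) z))
    (f := fun i s => G T (s • v) ((sg hZ)^[i] z)) (x := (0 : ℂ))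
    (f' := fun i => (derivative (derivative T)).eval (((sg hZ)^[i] z : Z) : ℂ) *
      v.2 ((sg hZ)^[i] z) + (derivative (hp v.1)).eval (((sg hZ)^[i] z : Z) : ℂ))
    (fun i _ => G_line v _)
  refine h.congr_deriv ?_
  rw [Finset.mul_sum]
  apply Finset.sum_congr rfl
  intro i hi
  simp only [zero_smul, smul_eq_mul]
  have hG : G T (0 : (Fin m → ℂ) × (Z → ℂ)) ((sg hZ)^[i] z) ≠ 0 := by
    rw [G_zero]; exact hne _ ((sg hZ)^[i] z).2
  have h2 : F2 hZ (0 : (Fin m → ℂ) × (Z → ℂ)) z =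
      G T (0 : (Fin m → ℂ) × (Z → ℂ)) ((sg hZ)^[i] z) *
      ∏ j ∈ (Finset.range (Function.minimalPeriod (ev T) z)).erase i,
        G T (0 : (Fin m → ℂ) × (Z → ℂ)) ((sg hZ)^[j] z) := by
    unfold F2
    rw [Finset.mul_prod_erase _ (fun j => G T (0 : (Fin m → ℂ) × (Z → ℂ)) ((sg hZ)^[j] z)) hi]
  rw [h2, ← G_zero (T := T) (m := m) ((sg hZ)^[i] z)]
  field_simp
  ring

/-- two points of the same cycle (one step) -/
def rr (z z' : Z) : Prop := z' = sg hZ z

include hZ in
theorem periodic (hinj : ∀ z ∈ Z, ∀ z' ∈ Z, T.eval z = T.eval z' → z = z') (z : Z) :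
    (z : ℂ) ∈ Function.periodicPts (ev T) := by
  have hi : Function.Injective (sg hZ) := by
    intro a b hab
    exact Subtype.ext (hinj a a.2 b b.2 (congrArg Subtype.val hab))
  obtain ⟨n, hn, hp⟩ := Function.mem_periodicPts.mp (hi.mem_periodicPts z)
  refine Function.mem_periodicPts.mpr ⟨n, hn, ?_⟩
  have := congrArg Subtype.val hp.eq
  rw [sg_iter] at this
  exact this

theorem F2_inv (hinj : ∀ z ∈ Z, ∀ z' ∈ Z, T.eval z = T.eval z' → z = z')
    (x : (Fin m → ℂ) × (Z → ℂ)) (z : Z) : F2 hZ x (sg hZ z) = F2 hZ x z := by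
  unfold F2
  have hN : Function.minimalPeriod (ev T) ((sg hZ z : Z) : ℂ) =
      Function.minimalPeriod (ev T) (z : ℂ) :=
    Function.minimalPeriod_apply (periodic hZ hinj z)
  rw [hN]
  have hper : (sg hZ)^[Function.minimalPeriod (ev T) (z : ℂ)] z = z := by
    apply Subtype.ext
    rw [sg_iter]
    exact Function.iterate_minimalPeriod
  set N := Function.minimalPeriod (ev T) (z : ℂ) with hNdef
  clear_value N
  cases N with
  | zero => simp
  | succ N =>
    rw [Finset.prod_range_succ, Finset.prod_range_succ']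
    congr 1
    rw [← Function.iterate_succ_apply, hper]
    rfl

/-- the invariant function, lifted -/
theorem F2_out (hinj : ∀ z ∈ Z, ∀ z' ∈ Z, T.eval z = T.eval z' → z = z')
    (x : (Fin m → ℂ) × (Z → ℂ)) (z : Z) :
    F2 hZ x (Quot.mk (rr hZ) z).out = F2 hZ x z := by
  have h : ∀ a b, rr hZ a b → F2 hZ x a = F2 hZ x b := by
    rintro a _ rfl
    exact (F2_inv hZ hinj x a).symm
  have h1 : Quot.lift (F2 hZ x) h (Quot.mk (rr hZ) (Quot.mk (rr hZ) z).out) =
      Quot.lift (F2 hZ x) h (Quot.mk (rr hZ) z) := by rw [Quot.out_eq]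
  exact h1

end

end CURVE

open CURVE in
theorem curve_holds : StCURVE := by
  classical
  intro T Z hd hCyc _ hsol
  obtain ⟨hZ, hinj, hne⟩ := hCyc
  set m : ℕ := T.natDegree - 1 with hm
  have hm0 : 0 < m := by omega
  let Cy : Type := Quot (rr hZ)
  haveI : Fintype Cy := Fintype.ofFinite _
  let F : (Fin m → ℂ) × (Z → ℂ) → (Z → ℂ) × (Cy → ℂ) := fun x =>
    (F1 hZ x, fun q => F2 hZ x q.out)
  have hFcd : ContDiff ℂ 1 F :=
    (contDiff_pi.mpr fun z => F1_cd hZ z).prodMk (contDiff_pi.mpr fun q => F2_cd hZ _)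
  have hF20 : ∀ z : Z, F2 hZ (0 : (Fin m → ℂ) × (Z → ℂ)) z ≠ 0 := by
    intro z
    unfold F2
    rw [Finset.prod_ne_zero_iff]
    intro i _
    rw [G_zero]
    exact hne _ ((sg hZ)^[i] z).2
  have hsurj : ∀ w, ∃ v, fderiv ℂ F 0 v = w := by
    rintro ⟨w1, w2⟩
    obtain ⟨h, u, hdeg, he, hk⟩ := hsol (fun z => if h : z ∈ Z then - w1 ⟨z, h⟩ else 0)
      (fun z => if h : z ∈ Z then w2 (Quot.mk (rr hZ) ⟨z, h⟩) /
        F2 hZ (0 : (Fin m → ℂ) × (Z → ℂ)) ⟨z, h⟩ else 0) (by
        intro z hz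
        rw [dif_pos (hZ z hz), dif_pos hz]
        have h1 : (⟨T.eval z, hZ z hz⟩ : Z) = sg hZ ⟨z, hz⟩ := rfl
        rw [h1, F2_inv hZ hinj, ← Quot.sound (show rr hZ ⟨z, hz⟩ (sg hZ ⟨z, hz⟩) from rfl)])
    have hh : hp (fun i : Fin m => h.coeff i) = h := hp_of h (by omega)
    refine ⟨((fun i : Fin m => h.coeff i), fun z => u z), ?_⟩
    set v : (Fin m → ℂ) × (Z → ℂ) := ((fun i : Fin m => h.coeff i), fun z => u z) with hv
    have hline : HasDerivAt (fun s : ℂ => s • v) v 0 := by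
      simpa using (hasDerivAt_id (0 : ℂ)).smul_const v
    have hF0 : HasFDerivAt F (fderiv ℂ F 0) ((0 : ℂ) • v) := by
      rw [zero_smul]
      exact (hFcd.differentiable (by norm_num) 0).hasFDerivAt
    have hc : HasDerivAt (fun s : ℂ => F (s • v)) (fderiv ℂ F 0 v) 0 :=
      hF0.comp_hasDerivAt (0 : ℂ) hline
    have hc2 : HasDerivAt (fun s : ℂ => F (s • v)) (w1, w2) 0 := by
      apply HasDerivAt.prodMk
      · rw [hasDerivAt_pi]
        intro z
        refine (F1_line hZ v z).congr_deriv ?_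
        have h1 := he z z.2
        rw [dif_pos z.2] at h1
        simp only [hv, hh]
        have h2 : ((sg hZ z : Z) : ℂ) = T.eval (z : ℂ) := rfl
        rw [h2]
        linear_combination -h1
      · rw [hasDerivAt_pi]
        intro q
        refine (F2_line hZ hne v q.out).congr_deriv ?_
        have h1 := hk q.out q.out.2
        rw [dif_pos q.out.2] at h1
        simp only [hv, hh, sg_iter]
        rw [h1]
        have h2 : Quot.mk (rr hZ) (⟨(q.out : ℂ), q.out.2⟩ : Z) = q := Quot.out_eq q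
        rw [h2]
        field_simp [hF20]
    exact hc.unique hc2
  obtain ⟨C, ε, hC, hε, hsolve⟩ := solve F hFcd hsurj
  set K : ℝ := ‖(fun q : Cy => F2 hZ (0 : (Fin m → ℂ) × (Z → ℂ)) q.out)‖ with hK
  have hK0 : 0 ≤ K := norm_nonneg _
  have hF0 : F 0 = (0, fun q => F2 hZ (0 : (Fin m → ℂ) × (Z → ℂ)) q.out) := by
    show (F1 hZ 0, _) = _
    congr 1
    funext z
    exact F1_zero hZ z
  have hex : ∀ t : ℝ, ∃ x : (Fin m → ℂ) × (Z → ℂ), 0 ≤ t → t ≤ ε / (K + 1) →
      ‖x‖ ≤ C * (K + 1) * t ∧ F x = (0, fun q => ((1 - t : ℝ) : ℂ) * F2 hZ (0 : (Fin m → ℂ) × (Z → ℂ)) q.out) := by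
    intro t
    by_cases ht : 0 ≤ t ∧ t ≤ ε / (K + 1)
    · have hn : ‖((0, fun q => ((1 - t : ℝ) : ℂ) * F2 hZ (0 : (Fin m → ℂ) × (Z → ℂ)) q.out) : (Z → ℂ) × (Cy → ℂ)) - F 0‖ =
          t * K := by
        rw [hF0, Prod.mk_sub_mk, sub_zero, Prod.norm_mk, norm_zero, max_eq_right (norm_nonneg _)]
        have h1 : ((fun q => ((1 - t : ℝ) : ℂ) * F2 hZ (0 : (Fin m → ℂ) × (Z → ℂ)) q.out) -
            fun q => F2 hZ (0 : (Fin m → ℂ) × (Z → ℂ)) q.out : Cy → ℂ) =
            (-t : ℂ) • fun q => F2 hZ (0 : (Fin m → ℂ) × (Z → ℂ)) q.out := by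
          funext q
          simp only [Pi.sub_apply, Pi.smul_apply, smul_eq_mul]
          push_cast
          ring
        rw [h1, norm_smul, norm_neg, Complex.norm_real, Real.norm_eq_abs, abs_of_nonneg ht.1]
      have hle : t * K ≤ ε := by
        have := ht.2
        rw [le_div_iff₀ (by linarith)] at this
        nlinarith [ht.1]
      obtain ⟨x, hx1, hx2⟩ := hsolve _ (hn.le.trans hle)
      refine ⟨x, fun _ _ => ⟨hx1.trans ?_, hx2⟩⟩
      rw [hn]
      nlinarith [mul_nonneg hC.le ht.1]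
    · exact ⟨0, fun h1 h2 => absurd ⟨h1, h2⟩ ht⟩
  choose x hx using hex
  refine ⟨ε / (K + 1), C * (K + 1), fun t => T + hp (x t).1,
    fun t w => w + (if h : w ∈ Z then (x t).2 ⟨w, h⟩ else 0),
    fun z p => p / Function.minimalPeriod (ev T) z, by positivity, by positivity, ?_, ?_⟩
  · intro z hz p hp0 hpz
    have hper : Function.IsPeriodicPt (ev T) p z := hpz
    exact Nat.div_pos (Nat.le_of_dvd hp0 hper.minimalPeriod_dvd)
      (Function.minimalPeriod_pos_of_mem_periodicPts (Function.mk_mem_periodicPts hp0 hper))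
  · intro t ht0 ht1
    obtain ⟨hxn, hxF⟩ := hx t ht0 ht1
    have hx1 : ∀ z : Z, F1 hZ (x t) z = 0 := fun z => congrFun (congrArg Prod.fst hxF) z
    have hx2 : ∀ z : Z, F2 hZ (x t) z =
        ((1 - t : ℝ) : ℂ) * F2 hZ (0 : (Fin m → ℂ) × (Z → ℂ)) z := by
      intro z
      have h1 := congrFun (congrArg Prod.snd hxF) (Quot.mk (rr hZ) z)
      change F2 hZ (x t) (Quot.mk (rr hZ) z).out =
        ((1 - t : ℝ) : ℂ) * F2 hZ (0 : (Fin m → ℂ) × (Z → ℂ)) (Quot.mk (rr hZ) z).out at h1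
      rwa [F2_out hZ hinj, F2_out hZ hinj] at h1
    have hn1 : ∀ i, ‖(x t).1 i‖ ≤ C * (K + 1) * t := fun i =>
      (norm_le_pi_norm _ i).trans ((norm_fst_le (x t)).trans hxn)
    have hn2 : ∀ z, ‖(x t).2 z‖ ≤ C * (K + 1) * t := fun z =>
      (norm_le_pi_norm _ z).trans ((norm_snd_le (x t)).trans hxn)
    have hnn : 0 ≤ C * (K + 1) * t := by positivity
    refine ⟨?_, ?_, ?_, ?_⟩
    · apply Polynomial.natDegree_add_eq_left_of_natDegree_lt
      have := hp_natDegree (x t).1 hm0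
      omega
    · intro j hj
      rw [Polynomial.coeff_add, hp_coeff, dif_neg (by omega), add_zero]
    · intro j
      rw [Polynomial.coeff_add, hp_coeff, add_sub_cancel_left]
      split_ifs with h
      · exact hn1 _
      · simpa using hnn
    · intro z hz
      have hyz : ∀ w (hw : w ∈ Z), w + (if h : w ∈ Z then (x t).2 ⟨w, h⟩ else 0) =
          w + (x t).2 ⟨w, hw⟩ := fun w hw => by rw [dif_pos hw]
      have hstep : ∀ w (hw : w ∈ Z), (T + hp (x t).1).eval (w + (x t).2 ⟨w, hw⟩) =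
          T.eval w + (x t).2 ⟨T.eval w, hZ w hw⟩ := by
        intro w hw
        have := hx1 ⟨w, hw⟩
        unfold F1 at this
        rw [Polynomial.eval_add]
        exact sub_eq_zero.mp this
      refine ⟨?_, ?_, ?_⟩
      · simp only [hyz z hz, add_sub_cancel_left]
        exact hn2 _
      · simp only [hyz z hz, hyz _ (hZ z hz)]
        exact hstep z hz
      · intro p hp0 hpz
        have hit : ∀ i : ℕ, (ev (T + hp (x t).1))^[i] (z + (x t).2 ⟨z, hz⟩) =
            (((sg hZ)^[i] ⟨z, hz⟩ : Z) : ℂ) + (x t).2 ((sg hZ)^[i] ⟨z, hz⟩) := by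
          intro i
          induction i with
          | zero => rfl
          | succ i ih =>
            rw [Function.iterate_succ_apply', ih, Function.iterate_succ_apply']
            exact hstep _ ((sg hZ)^[i] ⟨z, hz⟩).2
        have hper : Function.IsPeriodicPt (ev T) p z := hpz
        have hdvd := hper.minimalPeriod_dvd
        set N := Function.minimalPeriod (ev T) z with hN
        have hsgN : (sg hZ)^[N] ⟨z, hz⟩ = ⟨z, hz⟩ := by
          apply Subtype.ext
          rw [sg_iter]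
          exact Function.iterate_minimalPeriod
        have hshift : ∀ i, (sg hZ)^[i + N] ⟨z, hz⟩ = (sg hZ)^[i] ⟨z, hz⟩ := by
          intro i
          rw [Function.iterate_add_apply, hsgN]
        have hpN : p = N * (p / N) := (Nat.mul_div_cancel' hdvd).symm
        have e1 : deriv ((ev (T + hp (x t).1))^[p]) (z + (x t).2 ⟨z, hz⟩) =
            (F2 hZ (x t) ⟨z, hz⟩) ^ (p / N) := by
          rw [deriv_iter]
          have : ∀ i, (derivative (T + hp (x t).1)).eval ((ev (T + hp (x t).1))^[i]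
              (z + (x t).2 ⟨z, hz⟩)) = G T (x t) ((sg hZ)^[i] ⟨z, hz⟩) := by
            intro i
            rw [hit i, Polynomial.derivative_add, Polynomial.eval_add]
            rfl
          simp only [this]
          conv_lhs => rw [hpN]
          exact prod_periods _ N (p / N) (fun i => by rw [hshift])
        have e2 : deriv ((ev T)^[p]) z =
            (F2 hZ (0 : (Fin m → ℂ) × (Z → ℂ)) ⟨z, hz⟩) ^ (p / N) := by
          rw [deriv_iter]
          have : ∀ i, (derivative T).eval ((ev T)^[i] z) =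
              G T (0 : (Fin m → ℂ) × (Z → ℂ)) ((sg hZ)^[i] ⟨z, hz⟩) := by
            intro i
            rw [G_zero, sg_iter]
          simp only [this]
          conv_lhs => rw [hpN]
          exact prod_periods _ N (p / N) (fun i => by rw [hshift])
        simp only [hyz z hz]
        rw [e1, e2, hx2, mul_pow]

end Pool.Agent.H713R5.QJ
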