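import Mathlib
import Pool.Agent.H713R5.QJ.Defs2

set_option autoImplicit false

open Topology Filter Metric Set Polynomial MeasureTheory
open Pool.Agent.H713R3.ZA

namespace Pool.Agent.H713R5.QJ

open Pool.Agent.H713R4.RB (FH Over Ndg Crit WW)

theorem dic_smul (d : ℕ) (x : WW d) (c : ℂ) (p : ℂ × ℂ) : FH d x (c • p) = c ^ d • FH d x p := by
  have key : ∀ (i : Fin (d + 1)) (y : ℂ), y * ((c * p.1) ^ (i : ℕ) * (c * p.2) ^ (d - (i : ℕ))) =
      c ^ d * (y * (p.1 ^ (i : ℕ) * p.2 ^ (d - (i : ℕ)))) := by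
    intro i y
    have h : c ^ d = c ^ (i : ℕ) * c ^ (d - (i : ℕ)) := by
      rw [← pow_add]
      congr 1
      have := i.2
      omega
    rw [h, mul_pow, mul_pow]
    ring
  unfold FH
  apply Prod.ext
  · simp only [Prod.smul_fst, Prod.smul_snd, smul_eq_mul, Finset.mul_sum, key]
  · simp only [Prod.smul_fst, Prod.smul_snd, smul_eq_mul, Finset.mul_sum, key]

theorem dic_smulN (d : ℕ) (x : WW d) (N : ℕ) : ∀ (c : ℂ) (p : ℂ × ℂ),
    (FH d x)^[N] (c • p) = c ^ (d ^ N) • (FH d x)^[N] p := by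
  induction N with
  | zero => intro c p; simp
  | succ n ih =>
    intro c p
    rw [Function.iterate_succ_apply, dic_smul, ih, Function.iterate_succ_apply, ← pow_mul,
      pow_succ, mul_comm d]

theorem dic_over_smul {c : ℂ} (hc : c ≠ 0) (p : ℂ × ℂ) (w : ℂ) : Over (c • p) w ↔ Over p w := by
  unfold Over
  simp only [Prod.smul_fst, Prod.smul_snd, smul_eq_mul]
  constructor
  · rintro ⟨h1, h2⟩
    refine ⟨right_ne_zero_of_mul h1, ?_⟩
    apply mul_left_cancel₀ hc
    rw [h2]; ring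
  · rintro ⟨h1, h2⟩
    refine ⟨mul_ne_zero hc h1, ?_⟩
    rw [h2]; ring

theorem dic_inl (a : ℂ) (n : ℕ) (x : PE n) (i : Fin (n + 1 + 1)) :
    wv a n x (Sum.inl i) = (fam a n x).coeff (i : ℕ) := rfl

theorem dic_inr (a : ℂ) (n : ℕ) (x : PE n) (i : Fin (n + 1 + 1)) :
    wv a n x (Sum.inr i) = if (i : ℕ) = 0 then 1 else 0 := rfl

/-- second component of the lift -/
theorem dic_snd (a : ℂ) (n : ℕ) (x : PE n) (p : ℂ × ℂ) :
    (FH (n + 1) (wv a n x) p).2 = p.2 ^ (n + 1) := by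
  unfold FH
  simp only [dic_inr]
  rw [Fin.sum_univ_succ]
  simp

/-- first component of the lift -/
theorem dic_fst (a : ℂ) (n : ℕ) (x : PE n) (z : ℂ) :
    (FH (n + 1) (wv a n x) (z, 1)).1 = fx a n x z := by
  unfold FH
  simp only [dic_inl, one_pow, mul_one]
  rw [fx, Polynomial.eval_eq_sum_range' (Nat.lt_succ_of_le (natDegree_fam_le a n x)) z,
    ← Fin.sum_univ_eq_sum_range (fun i => (fam a n x).coeff i * z ^ i)]

theorem dic_one (a : ℂ) (n : ℕ) (x : PE n) (z : ℂ) :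
    FH (n + 1) (wv a n x) (z, 1) = (fx a n x z, 1) := by
  apply Prod.ext
  · exact dic_fst a n x z
  · rw [dic_snd]; simp

theorem dic_iter (a : ℂ) (n : ℕ) (x : PE n) (N : ℕ) : ∀ z : ℂ,
    (FH (n + 1) (wv a n x))^[N] (z, 1) = ((fx a n x)^[N] z, 1) := by
  induction N with
  | zero => intro z; rfl
  | succ N ih =>
    intro z
    rw [Function.iterate_succ_apply, dic_one, ih, Function.iterate_succ_apply]

theorem dic_over (a : ℂ) (n : ℕ) (x : PE n) (N : ℕ) (z w : ℂ) :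
    Over ((FH (n + 1) (wv a n x))^[N] (z, 1)) w ↔ (fx a n x)^[N] z = w := by
  rw [dic_iter]
  unfold Over
  simp

theorem dic_inf (a : ℂ) (n : ℕ) (x : PE n) (N : ℕ) : ∀ p : ℂ × ℂ, p.2 = 0 →
    ((FH (n + 1) (wv a n x))^[N] p).2 = 0 := by
  induction N with
  | zero => intro p hp; exact hp
  | succ N ih =>
    intro p hp
    rw [Function.iterate_succ_apply]
    apply ih
    rw [dic_snd, hp, zero_pow (Nat.succ_ne_zero n)]

theorem dic_ndg {a : ℂ} (ha : a ≠ 0) (n : ℕ) (x : PE n) : Ndg (n + 1) (wv a n x) := by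
  intro p hp
  have h1 := dic_snd a n x p
  rw [hp] at h1
  have h2 : p.2 = 0 := by
    have h3 : p.2 ^ (n + 1) = 0 := h1.symm
    exact pow_eq_zero_iff (Nat.succ_ne_zero n) |>.1 h3
  have h4 : (FH (n + 1) (wv a n x) p).1 = a * p.1 ^ (n + 1) := by
    unfold FH
    simp only [dic_inl, h2]
    rw [Fin.sum_univ_castSucc, Finset.sum_eq_zero, zero_add]
    · simp only [Fin.val_last, Nat.sub_self, pow_zero, mul_one]
      rw [coeff_fam_top]
    · intro i _
      have : n + 1 - ((Fin.castSucc i : Fin (n + 1 + 1)) : ℕ) ≠ 0 := by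
        have := i.2
        simp only [Fin.val_castSucc]
        omega
      rw [zero_pow this, mul_zero, mul_zero]
  rw [hp] at h4
  have h5 : a * p.1 ^ (n + 1) = 0 := h4.symm
  have h6 : p.1 = 0 := pow_eq_zero_iff (Nat.succ_ne_zero n) |>.1 ((mul_eq_zero.1 h5).resolve_left ha)
  exact Prod.ext h6 h2

theorem dic_PP (a : ℂ) (n : ℕ) (x : PE n) :
    Pool.Agent.H713R4.RB.PP (n + 1) (wv a n x) = fam a n x := by
  unfold Pool.Agent.H713R4.RB.PP
  simp only [dic_inl]
  rw [Fin.sum_univ_eq_sum_range (fun i => C ((fam a n x).coeff i) * X ^ i)]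
  exact (Polynomial.as_sum_range_C_mul_X_pow' _ (Nat.lt_succ_of_le (natDegree_fam_le a n x))).symm

theorem dic_QQ (a : ℂ) (n : ℕ) (x : PE n) :
    Pool.Agent.H713R4.RB.QQ (n + 1) (wv a n x) = 1 := by
  unfold Pool.Agent.H713R4.RB.QQ
  simp only [dic_inr]
  rw [Fin.sum_univ_succ]
  simp

theorem dic_crit {a : ℂ} (ha : a ≠ 0) (n : ℕ) (x : PE n) (p : ℂ × ℂ)
    (h : Crit (n + 1) (wv a n x) p) (hp : p.2 ≠ 0) : ∃ l : Fin n, p.1 = x (some l) * p.2 := by
  rcases h with ⟨-, h⟩ | ⟨h, -⟩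
  · unfold Pool.Agent.H713R4.RB.wr at h
    rw [dic_PP, dic_QQ, mul_one, derivative_one, mul_zero, sub_zero] at h
    have h1 : deriv (fx a n x) (p.1 / p.2) = 0 := by
      have : deriv (fx a n x) (p.1 / p.2) = (derivative (fam a n x)).eval (p.1 / p.2) :=
        (fam a n x).deriv
      rw [this, h]
    obtain ⟨l, hl⟩ := exists_crit ha h1
    exact ⟨l, by rw [← hl, div_mul_cancel₀ _ hp]⟩
  · exact absurd h hp

theorem dic_Dl (a : ℂ) (n : ℕ) (x y : PE n) :
    Pool.Agent.H713R4.RB.Dl (n + 1) (wv a n x) (wv a n y) = Pool.Agent.H713R3.ZA.Dl a n x y := by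
  unfold Pool.Agent.H713R4.RB.Dl Pool.Agent.H713R3.ZA.Dl
  rw [Fintype.sum_sum_type]
  simp only [dic_inl, dic_inr, sub_self, norm_zero]
  rw [Fin.sum_univ_eq_sum_range (fun j => ‖(fam a n y).coeff j - (fam a n x).coeff j‖ ^ 2)]
  simp

theorem dic_diff (a : ℂ) (n : ℕ) : Differentiable ℂ (wv a n) := by
  rw [differentiable_pi]
  rintro (i | i)
  · simp only [dic_inl]
    exact (pfe_fam a n (i : ℕ)).differentiable (by norm_num)
  · simp only [dic_inr]
    exact differentiable_const _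

theorem dic_holds : StDIC := by
  intro a n ha _
  refine ⟨dic_one a n, dic_iter a n, dic_over a n, dic_inf a n, dic_ndg ha n, ?_,
    dic_crit ha n, ?_, dic_Dl a n, dic_diff a n⟩
  · intro x U N
    ext z
    constructor
    · rintro ⟨w, hw, h⟩
      rw [dic_over] at h
      show (fx a n x)^[N] z ∈ U
      rw [h]
      exact hw
    · intro h
      exact ⟨_, h, (dic_over a n x N z _).2 rfl⟩
  · intro x N z w c hc
    have h1 : ((c * z, c) : ℂ × ℂ) = c • ((z, 1) : ℂ × ℂ) := by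
      apply Prod.ext
      · rfl
      · simp
    rw [h1, dic_smulN, dic_over_smul (pow_ne_zero _ hc), dic_over]

end Pool.Agent.H713R5.QJ
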