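import Mathlib
import Pool.Agent.H713R5.QJ.Defs1

set_option autoImplicit false

open Topology Filter Metric Set Polynomial MeasureTheory
open Pool.Agent.H713R3.ZA

namespace Pool.Agent.H713R5.QJ

theorem rf_back {a : ℂ} {n : ℕ} {B R C₁ R₁ R₃ : ℝ} {ψ φ : PE n × ℂ → ℂ}
    (hb : BO a n B R C₁ R₁ R₃ ψ φ) {x : PE n} (hx : x ∈ ball (0 : PE n) B) {w : ℂ}
    (hw : R₃ + C₁ < ‖w‖) : R₃ < ‖ψ (x, w)‖ ∧ φ (x, ψ (x, w)) = w := by
  have h1 := hb.hR; have h2 := hb.hC; have h3 := hb.hR₁; have h4 := hb.hR₃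
  have hw1 : R₁ < ‖w‖ := by linarith
  have h5 := hb.ψc x hx w hw1
  have h6 : R₃ < ‖ψ (x, w)‖ := by
    have := norm_sub_norm_le w (ψ (x, w))
    rw [norm_sub_rev] at this
    linarith
  refine ⟨h6, ?_⟩
  apply hb.ψi x hx (φ_norm hb hx h6) hw1
  exact hb.ψφ x hx _ h6

theorem rf_holds : StRF := by
  intro a n B R C₁ R₁ R₃ R₇ ρ ψ φ γ ha hn hb hR7 hρ hγ hγB
  have h1 := hb.hR; have h2 := hb.hC; have h3 := hb.hR₁; have h4 := hb.hR₃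
  have h00 : γ 0 ∈ ball (0 : PE n) B := hγB 0 (mem_ball_self hρ)
  have hφd : DifferentiableOn ℂ (fun z : ℂ => φ (γ 0, z)) {z : ℂ | R₃ < ‖z‖} :=
    hb.φd.comp (by fun_prop) (fun z hz => ⟨h00, hz⟩)
  have hUs : UF n R₃ R₇ φ (γ 0) ⊆ {z : ℂ | R₃ < ‖z‖} := fun z hz => hz.1
  refine ⟨?_, ?_, ?_, ?_, ?_, ?_, ?_⟩
  · have e1 : IsOpen {z : ℂ | R₃ < ‖z‖} := isOpen_lt continuous_const continuous_norm
    have e2 := hφd.continuousOn.isOpen_inter_preimage e1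
      (isOpen_lt continuous_const continuous_norm : IsOpen {w : ℂ | R₇ < ‖w‖})
    exact e2
  · refine ψ_comp_diff hb ?_ ?_ ?_ ?_
    · exact hγ.comp differentiable_fst.differentiableOn (fun p hp => hp.1)
    · exact hφd.comp differentiable_snd.differentiableOn (fun p hp => hp.2.1)
    · intro p hp
      exact hγB _ hp.1
    · intro p hp
      exact φ_norm hb h00 hp.2.1
  · intro z hz
    exact hb.ψφ _ h00 z hz.1
  · intro t ht z hz z' hz' h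
    have e1 := hb.ψi (γ t) (hγB t ht) (φ_norm hb h00 hz.1) (φ_norm hb h00 hz'.1) h
    have e2 := hb.ψφ (γ 0) h00 z hz.1
    have e3 := hb.ψφ (γ 0) h00 z' hz'.1
    rw [← e2, e1, e3]
  · intro z hz
    have e1 : R₃ < ‖fx a n (γ 0) z‖ := large_of_large hb h00 hz.1 1
    refine ⟨e1, ?_⟩
    rw [φ_fx hb h00 hz.1 e1]
    have e2 := hb.pw _ (φ_norm hb h00 hz.1)
    have e3 : R₇ < ‖φ (γ 0, z)‖ := hz.2
    have e4 : QQ a n (φ (γ 0, z)) = a * φ (γ 0, z) ^ (n + 1) := rfl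
    rw [e4]
    linarith
  · intro t ht z hz
    have e1 : R₃ < ‖fx a n (γ 0) z‖ := large_of_large hb h00 hz.1 1
    show fx a n (γ t) (ψ (γ t, φ (γ 0, z))) = ψ (γ t, φ (γ 0, fx a n (γ 0) z))
    rw [hb.fe _ (hγB t ht) _ (φ_norm hb h00 hz.1), φ_fx hb h00 hz.1 e1]
    rfl
  · intro t ht z hz
    have e3 : R₇ < ‖φ (γ 0, z)‖ := hz.2
    obtain ⟨e4, e5⟩ := rf_back hb (hγB t ht) (lt_of_le_of_lt hR7 e3)
    refine ⟨e4, ?_⟩
    show R₇ < ‖φ (γ t, ψ (γ t, φ (γ 0, z)))‖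
    rw [e5]
    exact e3

end Pool.Agent.H713R5.QJ
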