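import Mathlib
import Pool.Agent.H713R5.QJ.Defs3
import Pool.Agent.H713R5.QJ.TRF

set_option autoImplicit false

open Topology Filter Metric Set Polynomial MeasureTheory
open Pool.Agent.H713R3.ZA

namespace Pool.Agent.H713R5.QJ

theorem farp_holds : StFARP := by
  intro hD hA a n N B R C₁ R₁ R₃ R₇ ρ ψ φ γ U H Bd ha hn hb hR7 hr hγB hcen hU
  obtain ⟨-, -, d3, -, -, d6, -⟩ := hD a n ha hn
  have h1 := hb.hR; have h2 := hb.hC; have h3 := hb.hR₁; have h4 := hb.hR₃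
  have hρ := hr.hρ
  have h0 : (0 : ℂ) ∈ ball (0 : ℂ) ρ := mem_ball_self hρ
  have h00 : γ 0 ∈ ball (0 : PE n) B := hγB 0 h0
  have hit : ∀ x ∈ ball (0 : PE n) B, ∀ z : ℂ, R ≤ ‖z‖ → ‖z‖ ≤ ‖(fx a n x)^[N] z‖ :=
    fun x hx z hz => iter_large hb hx hz N
  refine ⟨⟨?_, ?_, ?_, ?_, ?_, ?_⟩, ?_⟩
  · intro z hz
    rw [d6]
    exact (hU 0 h0 _ (hz.trans_le (hit _ h00 z (by linarith)))).1
  · intro z hz
    have hzU := (hU 0 h0 z hz).1
    exact hr.Hd.continuousOn.comp (f := fun t : ℂ => (t, z)) (by fun_prop)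
      (fun t ht => ⟨ht, hzU⟩)
  · intro z hz
    exact hr.H0 z (hU 0 h0 z hz).1
  · intro t ht
    exact hr.Hd.comp (f := fun z : ℂ => (t, z)) (by fun_prop)
      (fun z hz => ⟨ht, (hU 0 h0 z hz).1⟩)
  · intro t ht z hz w hw
    rw [d3] at hw ⊢
    have e1 : R₃ < ‖z‖ := by linarith
    rw [(hU t ht z hz).2]
    have e2 := far_root hb h00 (hγB t ht) e1 N
    unfold far PN at e2
    rw [e2]
    have e3 : R₇ + C₁ < ‖(fx a n (γ 0))^[N] z‖ := hz.trans_le (hit _ h00 z (by linarith))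
    rw [hw] at e3 ⊢
    rw [(hU t ht w e3).2]
  · intro t ht
    have e1 := hA a n B R C₁ R₁ R₃ ψ φ ha hn hb (γ 0) h00 (γ t) (hγB t ht) (hcen t ht).symm
    refine e1.congr' ?_
    have hev : ∀ᶠ z in Bornology.cobounded ℂ, R₇ + C₁ < ‖z‖ :=
      (tendsto_norm_cobounded_atTop (E := ℂ)).eventually (eventually_gt_atTop (R₇ + C₁))
    filter_upwards [hev] with z hz
    rw [(hU t ht z hz).2]
  · intro t ht y hy
    have hy' : R₇ + 3 * C₁ < ‖y‖ := hy
    rw [d6]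
    show (fx a n (γ t))^[N] y ∈ H t '' U
    have e0 : R₇ + 3 * C₁ < ‖(fx a n (γ t))^[N] y‖ :=
      hy'.trans_le (hit _ (hγB t ht) y (by linarith))
    set y' := (fx a n (γ t))^[N] y with hy'd
    set W := φ (γ t, y') with hW
    have e1 : R₃ < ‖y'‖ := by linarith
    have e2 := hb.φc (γ t) (hγB t ht) y' e1
    have e3 : R₇ + 2 * C₁ < ‖W‖ := by
      have := norm_sub_norm_le y' W
      rw [norm_sub_rev] at this
      linarith
    have e4 : R₃ + C₁ < ‖W‖ := by linarith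
    obtain ⟨e5, e6⟩ := rf_back hb h00 e4
    have e7 := hb.ψc (γ 0) h00 W (by linarith)
    have e8 : R₇ + C₁ < ‖ψ (γ 0, W)‖ := by
      have := norm_sub_norm_le W (ψ (γ 0, W))
      rw [norm_sub_rev] at this
      linarith
    obtain ⟨e9, e10⟩ := hU t ht _ e8
    refine ⟨ψ (γ 0, W), e9, ?_⟩
    rw [e10, e6]
    exact hb.ψφ (γ t) (hγB t ht) y' e1

end Pool.Agent.H713R5.QJ
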