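import Mathlib
import Pool.Agent.H713R5.QJ.Defs1

set_option autoImplicit false

open Topology Filter Metric Set Polynomial MeasureTheory
open Pool.Agent.H713R3.ZA

namespace Pool.Agent.H713R5.QJ

theorem fatp_crit {a : ℂ} (ha : a ≠ 0) {n : ℕ} {x : PE n} (N : ℕ) {v : ℂ}
    (h : deriv ((fx a n x)^[N]) v = 0) :
    ∃ (i : Fin n) (j : ℕ), j < N ∧ (fx a n x)^[j] v = x (some i) := by
  induction N generalizing v with
  | zero =>
    exfalso
    rw [Function.iterate_zero, deriv_id] at h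
    exact one_ne_zero h
  | succ N ih =>
    rw [Function.iterate_succ, deriv_comp _ (((fx_differentiable a n x).iterate N) _)
      ((fx_differentiable a n x) _), mul_eq_zero] at h
    rcases h with h | h
    · obtain ⟨i, j, h1, h2⟩ := ih h
      exact ⟨i, j + 1, by omega, by rw [Function.iterate_succ_apply]; exact h2⟩
    · obtain ⟨i, hi⟩ := exists_crit ha h
      exact ⟨i, 0, by omega, hi⟩

theorem fatp_step (hKO0 : StKO0) {f : ℂ → ℂ} {P : ℕ} (hf : Differentiable ℂ f) (hP : 0 < P)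
    {u z : ℂ} (h : Sk f P u z) : Sk f P (f u) (f z) := by
  obtain ⟨h1, h2, h3, h4, -⟩ := hKO0 f P hf hP
  have e1 : AT f P u := ⟨z, h⟩
  have e2 := h2 (f u) ((h3 u).mpr e1)
  rw [(h4 u e1).1, h1 u z h] at e2
  exact e2

theorem fatp_iter (hKO0 : StKO0) {f : ℂ → ℂ} {P : ℕ} (hf : Differentiable ℂ f) (hP : 0 < P)
    {u z : ℂ} (h : Sk f P u z) (j : ℕ) : Sk f P (f^[j] u) (f^[j] z) := by
  induction j with
  | zero => exact h
  | succ j ih =>
    rw [Function.iterate_succ_apply', Function.iterate_succ_apply']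
    exact fatp_step hKO0 hf hP ih

theorem fatp_esc {a : ℂ} (ha : a ≠ 0) {n : ℕ} (hn : 1 ≤ n) (x : PE n) {P : ℕ} (hP : 0 < P) :
    ∃ u : ℂ, ∀ z : ℂ, ¬ Sk (fx a n x) P u z := by
  obtain ⟨R, hR1, hR⟩ := exists_esc ha hn ‖x‖
  have hR0 : 0 < R := by linarith
  have hRn : R ≤ ‖((R : ℝ) : ℂ)‖ := by
    rw [Complex.norm_real, Real.norm_of_nonneg hR0.le]
  refine ⟨(R : ℂ), ?_⟩
  rintro z ⟨-, -, h3⟩
  have h4 := Pool.Agent.H792R2.Dyn.attr_of_large hR0 (fun z hz => hR x le_rfl z hz) hRn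
  have h5 : Tendsto (fun k : ℕ => ‖(fx a n x)^[k] ((R : ℝ) : ℂ)‖) atTop atTop := h4
  have h6 : Tendsto (fun k : ℕ => P * k) atTop atTop :=
    tendsto_id.const_mul_atTop' hP
  have h7 := h5.comp h6
  exact not_tendsto_atTop_of_tendsto_nhds h3.norm h7

theorem fatp_holds : StFATP := by
  intro hKO0 hKO1 hKO2 hKO3 hROOT hKBP a n P ha hn hP x zs hz hlam
  have hf := fx_differentiable a n x
  have hself : Sk (fx a n x) P zs zs := (hKO0 _ P hf hP).2.2.2.2 zs hz hlam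
  obtain ⟨v, hv1, hv2⟩ : ∃ v : ℂ, deriv ((fx a n x)^[P]) v = 0 ∧ Sk (fx a n x) P v zs := by
    by_cases hl : deriv ((fx a n x)^[P]) zs = 0
    · exact ⟨zs, hl, hself⟩
    · by_contra hcon
      push Not at hcon
      obtain ⟨u, hu⟩ := fatp_esc ha hn x hP
      have h1 := hKBP hKO0 hKO1 hKO2 hKO3 hROOT a n P ha hn hP x zs hz hl hlam
        (100 * ‖u - zs‖ + 1) (by positivity) (fun v hv hv' => absurd hv' (hcon v hv)) u (hu zs)
      linarith
  obtain ⟨i, j, hj, hij⟩ := fatp_crit ha P hv1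
  refine ⟨i, j, ?_⟩
  rw [← hij]
  exact fatp_iter hKO0 hf hP hv2 j

end Pool.Agent.H713R5.QJ
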