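import Mathlib
import Pool.Agent.H713R4.RB.TFULL
import Pool.Agent.H713R5.QJ.Defs2

/-! Task FULLL (helper485), adapted from TFULL (helper862): extension over exceptional points and
commutation at a fixed level. -/

set_option autoImplicit false

open Topology Filter Metric Set Polynomial MeasureTheory
open Pool.Agent.H713R3.ZA

namespace Pool.Agent.H713R5.QJ

open Pool.Agent.H713R4.RB (WW FH Over Ndg WN MOT FARN StBAD full_smul full_smulN full_over_smul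
  full_over_eq full_over_unique full_over_N full_over_div full_cont2 full_cont full_contN
  full_WN_open full_surj full_ext full_mcont)

section motion

variable {d : ℕ} {γ : ℂ → WW d} {ρ : ℝ} {U : Set ℂ} {H : ℂ → ℂ → ℂ} {Bd : Set ℂ} {N : ℕ}
  {Φ : ℂ → ℂ → ℂ}

theorem fulll_inj (hR : RDL d γ ρ U H Bd N) (hM : MOT d γ ρ U H (fun _ => Bd) N Φ) {t : ℂ}
    (ht : t ∈ ball (0 : ℂ) ρ) : InjOn (Φ t) (WN d (γ 0) (U \ Bd) N) := by
  intro z hz z' hz' he
  have h0 : (0 : ℂ) ∈ ball (0 : ℂ) ρ := mem_ball_self hR.hρ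
  obtain ⟨v, hv, hov⟩ := id hz
  obtain ⟨v', hv', hov'⟩ := id hz'
  have e1 := hM.eqn t ht z hz v hov
  have e2 := hM.eqn t ht z' hz' v' hov'
  rw [← he] at e2
  have e3 : v = v' := hR.Hi t ht hv.1 hv'.1 (full_over_unique e1 e2)
  subst e3
  have e4 := hM.uniq z hz (fun s => Φ s z') (full_mcont hM hz') ⟨t, ht, he.symm⟩
    (fun s hs w hw => by
      have e5 : w = v := full_over_unique hw hov
      subst e5
      exact hM.eqn s hs z' hz' w hov') 0 h0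
  rw [hM.zero z' hz', hM.zero z hz] at e4
  exact e4.symm

/-- commutation at the non exceptional points -/
theorem fulll_comm (hR : RDL d γ ρ U H Bd N) (hM : MOT d γ ρ U H (fun _ => Bd) N Φ) {t : ℂ}
    (ht : t ∈ ball (0 : ℂ) ρ) {z z' : ℂ} (hz : z ∈ WN d (γ 0) (U \ Bd) N)
    (hz' : z' ∈ WN d (γ 0) (U \ Bd) N) (ho : Over (FH d (γ 0) (z, 1)) z') :
    Over (FH d (γ t) (Φ t z, 1)) (Φ t z') := by
  have h0 : (0 : ℂ) ∈ ball (0 : ℂ) ρ := mem_ball_self hR.hρ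
  obtain ⟨v, hv, hov⟩ := id hz
  obtain ⟨v', hv', hov'⟩ := id hz'
  -- the base value of z' is the image of the base value of z
  have h1 : Over (FH d (γ 0) (v, 1)) v' := by
    have h2 : Over ((FH d (γ 0))^[N] (FH d (γ 0) (z, 1))) v' :=
      (full_over_N d (γ 0) ho N v').2 hov'
    rw [← Function.iterate_succ_apply, Function.iterate_succ_apply'] at h2
    exact (full_over_N d (γ 0) hov 1 v').1 h2
  have h2 : ∀ s ∈ ball (0 : ℂ) ρ, Over ((FH d (γ s))^[N] (FH d (γ s) (Φ s z, 1))) (H s v') := by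
    intro s hs
    have h3 := hM.eqn s hs z hz v hov
    have h4 := hR.conj s hs v hv.1 v' h1
    rw [← Function.iterate_succ_apply, Function.iterate_succ_apply']
    exact (full_over_N d (γ s) h3 1 (H s v')).2 h4
  have h3 : ∀ s ∈ ball (0 : ℂ) ρ, (FH d (γ s) (Φ s z, 1)).2 ≠ 0 := by
    intro s hs h4
    set p := FH d (γ s) (Φ s z, 1) with hp
    have h5 : p.1 ≠ 0 := by
      intro h5
      have h6 : FH d (γ s) (Φ s z, 1) = 0 := by
        rw [← hp]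
        exact Prod.ext h5 h4
      have h7 := hR.ndg s hs _ h6
      exact one_ne_zero (congrArg Prod.snd h7)
    have h6 : p = p.1 • ((1, 0) : ℂ × ℂ) := by
      apply Prod.ext
      · simp
      · simp [h4]
    have h7 := h2 s hs
    rw [← hp, h6, full_smulN, full_over_smul (pow_ne_zero _ h5)] at h7
    exact hv'.2 (hR.inf s hs v' hv'.1 h7)
  have h4 : ∀ s ∈ ball (0 : ℂ) ρ, Over (FH d (γ s) (Φ s z, 1))
      ((FH d (γ s) (Φ s z, 1)).1 / (FH d (γ s) (Φ s z, 1)).2) := fun s hs =>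
    full_over_div (h3 s hs)
  have hcont : ContinuousOn (fun s => FH d (γ s) (Φ s z, 1)) (ball (0 : ℂ) ρ) := by
    have h5 : ContinuousOn (fun s : ℂ => ((γ s, (Φ s z, 1)) : WW d × (ℂ × ℂ))) (ball (0 : ℂ) ρ) :=
      hR.γd.continuousOn.prodMk ((full_mcont hM hz).prodMk continuousOn_const)
    exact (full_cont2 d).comp_continuousOn h5
  have h5 := hM.uniq z' hz'
    (fun s => (FH d (γ s) (Φ s z, 1)).1 / (FH d (γ s) (Φ s z, 1)).2)
    ((continuous_fst.comp_continuousOn hcont).div (continuous_snd.comp_continuousOn hcont) h3)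
    ⟨0, h0, by
      rw [hM.zero z hz, hM.zero z' hz']
      exact full_over_unique (full_over_div ho.1) ho⟩
    (fun s hs w hw => by
      have e5 : w = v' := full_over_unique hw hov'
      subst e5
      exact (full_over_N d (γ s) (h4 s hs) N (H s w)).1 (h2 s hs)) t ht
  rw [← h5]
  exact h4 t ht

end motion

theorem fulll_ndgN {d : ℕ} {x : WW d} (h : Ndg d x) : ∀ (N : ℕ) (p : ℂ × ℂ),
    (FH d x)^[N] p = 0 → p = 0
  | 0, p, hp => hp
  | N + 1, p, hp => by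
    rw [Function.iterate_succ_apply] at hp
    exact h p (fulll_ndgN h N _ hp)

theorem fulll_holds : StFULLL := by
  intro hBAD d γ ρ U H Bd N Φ R₆ far hd hR hM hF t ht
  have h0 : (0 : ℂ) ∈ ball (0 : ℂ) ρ := mem_ball_self hR.hρ
  set W := WN d (γ 0) U N with hWdef
  set WB := WN d (γ 0) (U \ Bd) N with hWBdef
  have hWo : IsOpen W := full_WN_open d (γ 0) U hR.Uo N
  have hWBo : IsOpen WB :=
    full_WN_open d (γ 0) (U \ Bd) (hR.Uo.sdiff (hR.Bf).isClosed) N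
  have hsub : WB ⊆ W := fun z ⟨w, hw, ho⟩ => ⟨w, hw.1, ho⟩
  have hfin : (W \ WB).Finite := by
    refine (hBAD d N (γ 0) Bd (by omega) (hR.ndg 0 h0) (hR.Bf)).subset ?_
    rintro z ⟨⟨w, hw, ho⟩, hz2⟩
    refine ⟨w, ?_, ho⟩
    by_contra h
    exact hz2 ⟨w, ⟨hw, h⟩, ho⟩
  have hinj : InjOn (Φ t) WB := fulll_inj hR hM ht
  have hdiff : DifferentiableOn ℂ (Φ t) WB := by
    have h1 : DifferentiableOn ℂ (fun z : ℂ => ((t, z) : ℂ × ℂ)) WB := by fun_prop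
    exact hM.diff.comp h1 (fun z hz => ⟨ht, hz⟩)
  have hfar : ∀ z ∈ WB, R₆ < ‖z‖ → far t z = Φ t z := by
    intro z hz hz6
    exact hM.uniq z hz (fun s => far s z) (hF.cont z hz6)
      ⟨0, h0, by rw [hF.zero z hz6, hM.zero z hz]⟩
      (fun s hs w hw => hF.eqn s hs z hz6 w hw) t ht
  obtain ⟨C, hC⟩ := hfin.isBounded.exists_norm_le
  set R' := max R₆ (C + 1) with hR'
  have hbig : ∀ z : ℂ, R' < ‖z‖ → z ∈ WB := by
    intro z hz
    by_contra h
    have h1 : z ∈ W := hF.mem z ((le_max_left _ _).trans_lt hz)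
    have h2 := hC z ⟨h1, h⟩
    have h3 : C + 1 ≤ R' := le_max_right _ _
    linarith
  have hbigfar : ∀ z : ℂ, R' < ‖z‖ → far t z = Φ t z := fun z hz =>
    hfar z (hbig z hz) ((le_max_left _ _).trans_lt hz)
  have hR6 : {z : ℂ | R' < ‖z‖} ⊆ {z : ℂ | R₆ < ‖z‖} := by
    intro z hz
    have hz' : R' < ‖z‖ := hz
    exact lt_of_le_of_lt (le_max_left R₆ (C + 1)) hz'
  obtain ⟨B, hB⟩ := full_surj (far t) R' ((hF.hol t ht).mono hR6)
    (fun z hz z' hz' he => hinj (hbig z hz) (hbig z' hz')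
      (by rw [← hbigfar z hz, ← hbigfar z' hz']; exact he)) (hF.asy t ht)
  have hbd : ∀ z ∈ WB, ‖z‖ ≤ R' → ‖Φ t z‖ ≤ B := by
    intro z hz hzR
    by_contra h
    push Not at h
    obtain ⟨z1, h1, h2⟩ := hB _ h
    rw [hbigfar z1 h1] at h2
    have h3 := hinj (hbig z1 h1) hz h2
    rw [h3] at h1
    linarith
  obtain ⟨Ψ, hΨd, hΨi, hΨe⟩ := full_ext W WB (Φ t) hWo hWBo hsub hfin hdiff hinj
    ⟨B, fun z₀ hz₀ z hz hdist => hbd z hz (by
      have h1 := hC z₀ hz₀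
      have h3 : C + 1 ≤ R' := le_max_right _ _
      have h4 : ‖z‖ ≤ ‖z₀‖ + dist z z₀ := by
        rw [dist_eq_norm]
        have := norm_add_le z₀ (z - z₀)
        simpa using this
      linarith)⟩
  refine ⟨Ψ, hΨd, hΨi, hΨe, ?_, ?_, ?_⟩
  · refine (hF.asy t ht).congr' ?_
    have h1 : ∀ᶠ z : ℂ in Bornology.cobounded ℂ, R' < ‖z‖ := by
      rw [← comap_norm_atTop, eventually_comap]
      filter_upwards [eventually_gt_atTop R'] with a ha z hz
      rw [hz]; exact ha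
    filter_upwards [h1] with z hz
    rw [hbigfar z hz, hΨe z (hbig z hz)]
  · rintro z ⟨w, hw, ho⟩
    have hz : z ∈ W := ⟨w, hw, ho⟩
    refine ⟨H t w, ⟨w, hw, rfl⟩, ?_⟩
    have hcz : Continuous (fun ζ : ℂ => (FH d (γ 0))^[N] (ζ, 1)) := full_contN d (γ 0) N
    set f0 : ℂ → ℂ := fun ζ => ((FH d (γ 0))^[N] (ζ, 1)).1 / ((FH d (γ 0))^[N] (ζ, 1)).2 with hf0
    have hf0z : f0 z = w := full_over_unique (full_over_div ho.1) ho
    have hf0c : ContinuousAt f0 z :=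
      (continuous_fst.comp hcz).continuousAt.div (continuous_snd.comp hcz).continuousAt ho.1
    have hf0t : Tendsto f0 (𝓝 z) (𝓝 w) := by
      have := hf0c.tendsto
      rwa [hf0z] at this
    have e1 : ∀ᶠ ζ in 𝓝[≠] z, ((FH d (γ 0))^[N] (ζ, 1)).2 ≠ 0 :=
      nhdsWithin_le_nhds ((continuous_snd.comp hcz).continuousAt.eventually_ne ho.1)
    have e3 : ∀ᶠ ζ in 𝓝[≠] z, ζ ∈ WB := by
      have h1 : ((W \ WB) \ {z})ᶜ ∈ 𝓝 z :=
        (hfin.subset sdiff_subset).isClosed.isOpen_compl.mem_nhds (fun h => h.2 rfl)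
      filter_upwards [nhdsWithin_le_nhds h1, nhdsWithin_le_nhds (hWo.mem_nhds hz),
        self_mem_nhdsWithin] with y h2 h3 h4
      by_contra h5
      exact h2 ⟨⟨h3, h5⟩, h4⟩
    have e5 : ∀ᶠ ζ in 𝓝[≠] z, ((FH d (γ t))^[N] (Ψ ζ, 1)).1 =
        H t (f0 ζ) * ((FH d (γ t))^[N] (Ψ ζ, 1)).2 := by
      filter_upwards [e1, e3] with ζ a1 a3
      have a5 : Over ((FH d (γ 0))^[N] (ζ, 1)) (f0 ζ) := full_over_div a1
      have a7 := hM.eqn t ht ζ a3 (f0 ζ) a5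
      rw [hΨe ζ a3]
      exact a7.2
    have hΨc : ContinuousAt Ψ z := (hΨd.differentiableAt (hWo.mem_nhds hz)).continuousAt
    have hL : ContinuousAt (fun ζ : ℂ => (FH d (γ t))^[N] (Ψ ζ, 1)) z :=
      ContinuousAt.comp (f := Ψ) (g := fun y : ℂ => (FH d (γ t))^[N] (y, 1))
        (full_contN d (γ t) N).continuousAt hΨc
    have hHc : ContinuousAt (H t) w := by
      have h1 : DifferentiableOn ℂ (H t) U := by
        have h2 : DifferentiableOn ℂ (fun z : ℂ => ((t, z) : ℂ × ℂ)) U := by fun_prop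
        exact hR.Hd.comp h2 (fun z hz => ⟨ht, hz⟩)
      exact (h1.differentiableAt (hR.Uo.mem_nhds hw)).continuousAt
    have t1 : Tendsto (fun ζ : ℂ => ((FH d (γ t))^[N] (Ψ ζ, 1)).1) (𝓝[≠] z)
        (𝓝 ((FH d (γ t))^[N] (Ψ z, 1)).1) :=
      ((continuous_fst.tendsto _).comp hL.tendsto).mono_left nhdsWithin_le_nhds
    have t2 : Tendsto (fun ζ : ℂ => ((FH d (γ t))^[N] (Ψ ζ, 1)).2) (𝓝[≠] z)
        (𝓝 ((FH d (γ t))^[N] (Ψ z, 1)).2) :=
      ((continuous_snd.tendsto _).comp hL.tendsto).mono_left nhdsWithin_le_nhds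
    have t3 : Tendsto (fun ζ : ℂ => H t (f0 ζ)) (𝓝[≠] z) (𝓝 (H t w)) :=
      (hHc.tendsto.comp hf0t).mono_left nhdsWithin_le_nhds
    have t4 : ((FH d (γ t))^[N] (Ψ z, 1)).1 = H t w * ((FH d (γ t))^[N] (Ψ z, 1)).2 :=
      tendsto_nhds_unique (t1.congr' e5) (t3.mul t2)
    refine ⟨?_, t4⟩
    intro h5
    have h6 : (FH d (γ t))^[N] (Ψ z, 1) = 0 := by
      apply Prod.ext
      · rw [t4, h5, mul_zero]; rfl
      · exact h5
    have h7 := fulll_ndgN (hR.ndg t ht) N _ h6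
    exact one_ne_zero (congrArg Prod.snd h7)
  · intro z hz z' hz' ho
    -- limit
    have hcz : Continuous (fun ζ : ℂ => FH d (γ 0) (ζ, 1)) :=
      (full_cont d (γ 0)).comp (by fun_prop)
    set f0 : ℂ → ℂ := fun ζ => (FH d (γ 0) (ζ, 1)).1 / (FH d (γ 0) (ζ, 1)).2 with hf0
    have hf0z : f0 z = z' := full_over_unique (full_over_div ho.1) ho
    have hf0c : ContinuousAt f0 z :=
      (continuous_fst.comp hcz).continuousAt.div (continuous_snd.comp hcz).continuousAt ho.1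
    have hf0t : Tendsto f0 (𝓝 z) (𝓝 z') := by
      have := hf0c.tendsto
      rwa [hf0z] at this
    have e1 : ∀ᶠ ζ in 𝓝[≠] z, (FH d (γ 0) (ζ, 1)).2 ≠ 0 :=
      nhdsWithin_le_nhds ((continuous_snd.comp hcz).continuousAt.eventually_ne ho.1)
    have e2 : ∀ᶠ ζ in 𝓝[≠] z, f0 ζ ∈ W := nhdsWithin_le_nhds (hf0t (hWo.mem_nhds hz'))
    have e3 : ∀ᶠ ζ in 𝓝[≠] z, ζ ∈ WB := by
      have h1 : ((W \ WB) \ {z})ᶜ ∈ 𝓝 z :=
        (hfin.subset sdiff_subset).isClosed.isOpen_compl.mem_nhds (fun h => h.2 rfl)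
      filter_upwards [nhdsWithin_le_nhds h1, nhdsWithin_le_nhds (hWo.mem_nhds hz),
        self_mem_nhdsWithin] with y h2 h3 h4
      by_contra h5
      exact h2 ⟨⟨h3, h5⟩, h4⟩
    have hfin2 : (WN d (γ 0) (W \ WB) 1).Finite :=
      hBAD d 1 (γ 0) (W \ WB) (by omega) (hR.ndg 0 h0) hfin
    have e4 : ∀ᶠ ζ in 𝓝[≠] z, ζ ∉ WN d (γ 0) (W \ WB) 1 := by
      have h1 : ((WN d (γ 0) (W \ WB) 1) \ {z})ᶜ ∈ 𝓝 z :=
        (hfin2.subset sdiff_subset).isClosed.isOpen_compl.mem_nhds (fun h => h.2 rfl)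
      filter_upwards [nhdsWithin_le_nhds h1, self_mem_nhdsWithin] with y h2 h3
      exact fun h => h2 ⟨h, h3⟩
    have e5 : ∀ᶠ ζ in 𝓝[≠] z, (FH d (γ t) (Ψ ζ, 1)).1 =
        Ψ (f0 ζ) * (FH d (γ t) (Ψ ζ, 1)).2 := by
      filter_upwards [e1, e2, e3, e4] with ζ a1 a2 a3 a4
      have a5 : Over (FH d (γ 0) (ζ, 1)) (f0 ζ) := full_over_div a1
      have a6 : f0 ζ ∈ WB := by
        by_contra h
        exact a4 ⟨f0 ζ, ⟨a2, h⟩, a5⟩
      have a7 := fulll_comm hR hM ht a3 a6 a5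
      rw [hΨe ζ a3, hΨe (f0 ζ) a6]
      exact a7.2
    have hΨc : ∀ y ∈ W, ContinuousAt Ψ y := fun y hy =>
      (hΨd.differentiableAt (hWo.mem_nhds hy)).continuousAt
    have hL : ContinuousAt (fun ζ : ℂ => FH d (γ t) (Ψ ζ, 1)) z := by
      have h1 : ContinuousAt (fun ζ : ℂ => ((Ψ ζ, 1) : ℂ × ℂ)) z :=
        (hΨc z hz).prodMk continuousAt_const
      exact (full_cont d (γ t)).continuousAt.comp h1
    have t1 : Tendsto (fun ζ : ℂ => (FH d (γ t) (Ψ ζ, 1)).1) (𝓝[≠] z)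
        (𝓝 (FH d (γ t) (Ψ z, 1)).1) :=
      ((continuous_fst.tendsto _).comp hL.tendsto).mono_left nhdsWithin_le_nhds
    have t2 : Tendsto (fun ζ : ℂ => (FH d (γ t) (Ψ ζ, 1)).2) (𝓝[≠] z)
        (𝓝 (FH d (γ t) (Ψ z, 1)).2) :=
      ((continuous_snd.tendsto _).comp hL.tendsto).mono_left nhdsWithin_le_nhds
    have t3 : Tendsto (fun ζ : ℂ => Ψ (f0 ζ)) (𝓝[≠] z) (𝓝 (Ψ z')) :=
      ((hΨc z' hz').tendsto.comp hf0t).mono_left nhdsWithin_le_nhds
    have t4 : (FH d (γ t) (Ψ z, 1)).1 = Ψ z' * (FH d (γ t) (Ψ z, 1)).2 :=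
      tendsto_nhds_unique (t1.congr' e5) (t3.mul t2)
    refine ⟨?_, t4⟩
    intro h5
    have h6 : FH d (γ t) (Ψ z, 1) = 0 := by
      apply Prod.ext
      · rw [t4, h5, mul_zero]; rfl
      · exact h5
    have h7 := hR.ndg t ht _ h6
    exact one_ne_zero (congrArg Prod.snd h7)

end Pool.Agent.H713R5.QJ
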