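import Mathlib
import Pool.Agent.H713R5.QJ.Defs2
import Pool.Agent.H713R4.RB.TGAIN3
import Pool.Agent.H713R3.ZA.TGAIN

/-!
Task GAINP: gain of area for polynomials, with uniform constants (by helper403).
-/

set_option autoImplicit false

open Topology Filter Metric Set Polynomial MeasureTheory
open Pool.Agent.H713R3.ZA

namespace Pool.Agent.H713R5.QJ

open Pool.Agent.H713R4.RB in
theorem gainp_holds : StGAINP := by
  intro hDIC a n B R₀ ha hn hB
  obtain ⟨hd1, -, -, -, -, -, -, -, hd9, -⟩ := hDIC a n ha hn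
  obtain ⟨A, hA1, hA⟩ := exists_coeff_bound a n B
  obtain ⟨Re, hRe1, hesc⟩ := exists_esc ha hn B
  obtain ⟨R₄, hR₄⟩ : ∃ R₄ : ℝ, R₄ = max R₀ Re + 1 := ⟨_, rfl⟩
  have hR0 : R₀ < R₄ := by rw [hR₄]; linarith [le_max_left R₀ Re]
  have hRe : Re < R₄ := by rw [hR₄]; linarith [le_max_right R₀ Re]
  have hR₄1 : 1 < R₄ := by linarith
  have hR₄0 : 0 < R₄ := by linarith
  obtain ⟨L, hL⟩ : ∃ L : ℝ, L = ∑ j ∈ Finset.range (n + 1 + 1), A * (j * (2 * R₄ + 1) ^ (j - 1)) :=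
    ⟨_, rfl⟩
  have hL0 : 0 ≤ L := by
    rw [hL]
    exact Finset.sum_nonneg (fun j _ => by positivity)
  obtain ⟨K, hK⟩ : ∃ K : ℝ, K = ((n : ℝ) + 1 + 1) * (2 * (L + 1)) ^ 2 + ((n : ℝ) + 1 + 1) * (4 * A) ^ 2 :=
    ⟨_, rfl⟩
  have hK0 : 0 < K := by rw [hK]; positivity
  refine ⟨R₄, 3 * R₄, R₄ / 2, (2 * K)⁻¹, ((2 * R₄ : ℝ) : ℂ), hR0, hR₄0, by linarith, by linarith,
    by positivity, ?_, ?_⟩
  · intro z hz
    rw [mem_ball, dist_eq_norm] at hz
    have h1 : ‖((2 * R₄ : ℝ) : ℂ)‖ = 2 * R₄ := by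
      rw [Complex.norm_real, Real.norm_eq_abs, abs_of_pos (by linarith)]
    have e1 := norm_sub_norm_le z ((2 * R₄ : ℝ) : ℂ)
    have e2 := norm_sub_norm_le ((2 * R₄ : ℝ) : ℂ) z
    rw [norm_sub_rev] at e2
    rw [h1] at e1 e2
    constructor
    · linarith
    · linarith
  intro x hx y hy _ Ω Ψ hΩ hΩR hb1 hb2 hΨ hinf hconj
  have hxB : ‖x‖ ≤ B := by rw [mem_ball_zero_iff] at hx; exact hx.le
  have hyB : ‖y‖ ≤ B := by rw [mem_ball_zero_iff] at hy; exact hy.le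
  rw [hd9]
  -- the estimate
  have key : ∀ E : ℝ, 0 ≤ E →
      ∫⁻ z in K1 R₄ (3 * R₄) ((2 * R₄ : ℝ) : ℂ) ((2 * R₄ : ℝ) : ℂ) (R₄ / 2),
        ENNReal.ofReal (‖deriv Ψ z - 1‖ ^ 2) ≤ ENNReal.ofReal (E ^ 2) →
      Pool.Agent.H713R3.ZA.Dl a n x y ≤ K * E ^ 2 := by
    intro E hE hI
    have hfar : ∀ z : ℂ, 2 * R₄ ≤ ‖z‖ → ‖Ψ z - z‖ ≤ 2 * E := by
      intro z hz
      have h1 := GAIN3.far_bound hR₄0 (by linarith : R₄ < 3 * R₄)
        (K := K1 R₄ (3 * R₄) ((2 * R₄ : ℝ) : ℂ) ((2 * R₄ : ℝ) : ℂ) (R₄ / 2))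
        (fun w hw => Or.inl (Or.inl hw)) (hΨ.mono hΩR) hinf hE hI z (by linarith)
      have h2 : (R₄ + 3 * R₄) / 2 / ((3 * R₄ - R₄) / 2) = 2 := by
        field_simp
        ring
      rwa [h2] at h1
    have hDl : ∀ C : ℝ, 0 ≤ C → (∀ j, ‖(fam a n y).coeff j - (fam a n x).coeff j‖ ≤ C) →
        Pool.Agent.H713R3.ZA.Dl a n x y ≤ ((n : ℝ) + 1 + 1) * C ^ 2 := by
      intro C hC h
      unfold Pool.Agent.H713R3.ZA.Dl
      calc ∑ j ∈ Finset.range (n + 1 + 1), ‖(fam a n y).coeff j - (fam a n x).coeff j‖ ^ 2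
          ≤ ∑ j ∈ Finset.range (n + 1 + 1), C ^ 2 :=
            Finset.sum_le_sum fun j _ => pow_le_pow_left₀ (norm_nonneg _) (h j) 2
        _ = ((n : ℝ) + 1 + 1) * C ^ 2 := by
            rw [Finset.sum_const, Finset.card_range, nsmul_eq_mul]
            push_cast
            ring
    have hn0 : (0 : ℝ) ≤ (n : ℝ) + 1 + 1 := by positivity
    by_cases hE1 : 2 * E ≤ 1
    · have h1 : ∀ z : ℂ, ‖z‖ = 2 * R₄ → ‖(fam a n y - fam a n x).eval z‖ ≤ 2 * (L + 1) * E := by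
        intro z hz
        have hw : 2 * ‖z‖ ≤ ‖fx a n x z‖ := hesc x hxB z (by rw [hz]; linarith)
        have hw2 : 2 * R₄ ≤ ‖fx a n x z‖ := by rw [hz] at hw; linarith
        have hzΩ : z ∈ Ω := hΩR (by
          show R₄ < ‖z‖
          rw [hz]; linarith)
        have hwΩ : fx a n x z ∈ Ω := hΩR (by
          show R₄ < ‖fx a n x z‖
          linarith)
        have h2 := hconj z hzΩ (fx a n x z) hwΩ (by
          rw [hd1]
          exact ⟨one_ne_zero, (mul_one _).symm⟩)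
        rw [hd1] at h2
        have h3 : fx a n y (Ψ z) = Ψ (fx a n x z) := by
          have := h2.2
          simpa using this
        have h4 := hfar z hz.ge
        have h5 := hfar _ hw2
        have h6 : ‖Ψ z‖ ≤ 2 * R₄ + 1 := by
          have e : Ψ z = (Ψ z - z) + z := by ring
          rw [e]
          refine (norm_add_le _ _).trans ?_
          linarith
        have h7 := GAIN.eval_sub_le (d := n + 1) (A₀ := A) (M := 2 * R₄ + 1) (by linarith)
          (natDegree_fam_le a n y) (hA y hyB) (u := z) (v := Ψ z) (by linarith) h6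
        rw [← hL] at h7
        have h8 : (fam a n y - fam a n x).eval z =
            ((fam a n y).eval z - (fam a n y).eval (Ψ z)) + (Ψ (fx a n x z) - fx a n x z) := by
          rw [eval_sub, ← h3]
          unfold fx
          ring
        rw [h8]
        refine (norm_add_le _ _).trans ?_
        rw [norm_sub_rev z (Ψ z)] at h7
        have h9 : L * ‖Ψ z - z‖ ≤ L * (2 * E) := mul_le_mul_of_nonneg_left h4 hL0
        linarith
      have h2 : ∀ j, ‖(fam a n y).coeff j - (fam a n x).coeff j‖ ≤ 2 * (L + 1) * E := by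
        intro j
        rw [← coeff_sub]
        exact GAIN.coeff_le (by linarith : (1 : ℝ) ≤ 2 * R₄) h1 j
      have h3 := hDl _ (by positivity) h2
      refine h3.trans ?_
      rw [hK, add_mul, mul_pow (2 * (L + 1)) E 2]
      have h4 : 0 ≤ ((n : ℝ) + 1 + 1) * (4 * A) ^ 2 * E ^ 2 := by positivity
      linarith
    · have h2 : ∀ j, ‖(fam a n y).coeff j - (fam a n x).coeff j‖ ≤ 4 * A * E := by
        intro j
        refine (norm_sub_le _ _).trans ?_
        have e1 := hA x hxB j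
        have e2 := hA y hyB j
        push Not at hE1
        nlinarith
      have h3 := hDl _ (by positivity) h2
      refine h3.trans ?_
      rw [hK, add_mul, mul_pow (4 * A) E 2]
      have h4 : 0 ≤ ((n : ℝ) + 1 + 1) * (2 * (L + 1)) ^ 2 * E ^ 2 := by positivity
      linarith
  by_contra hcon
  push Not at hcon
  have hpos : 0 < (2 * K)⁻¹ * Pool.Agent.H713R3.ZA.Dl a n x y := by
    rw [← ENNReal.ofReal_pos]
    exact lt_of_le_of_lt zero_le hcon
  have hsq : Real.sqrt ((2 * K)⁻¹ * Pool.Agent.H713R3.ZA.Dl a n x y) ^ 2 =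
      (2 * K)⁻¹ * Pool.Agent.H713R3.ZA.Dl a n x y := Real.sq_sqrt hpos.le
  have h1 := key (Real.sqrt ((2 * K)⁻¹ * Pool.Agent.H713R3.ZA.Dl a n x y)) (Real.sqrt_nonneg _) (by
    rw [hsq]
    exact hcon.le)
  rw [hsq] at h1
  have h2 : K * ((2 * K)⁻¹ * Pool.Agent.H713R3.ZA.Dl a n x y) =
      Pool.Agent.H713R3.ZA.Dl a n x y / 2 := by
    field_simp
  rw [h2] at h1
  have h3 : 0 < Pool.Agent.H713R3.ZA.Dl a n x y := by
    have h4 : 0 < (2 * K)⁻¹ := by positivity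
    exact (mul_pos_iff_of_pos_left h4).1 hpos
  linarith

end Pool.Agent.H713R5.QJ
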