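import Mathlib
import Pool.Agent.H713R5.QJ.Defs3

/-!
Project QJ (MP_28f8a1_an), task GDP: integral curves of fields which kill the invariants are rigid
discs.
-/

set_option autoImplicit false

open Topology Filter Metric Set Polynomial MeasureTheory
open Pool.Agent.H713R3.ZA

namespace Pool.Agent.H713R5.QJ

/-- a function on a disc with zero derivative is constant -/
theorem gdp_const {ρ : ℝ} {f : ℂ → ℂ}
    (hf : ∀ t ∈ ball (0 : ℂ) ρ, HasDerivAt f 0 t) : ∀ t ∈ ball (0 : ℂ) ρ, f t = f 0 := by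
  intro t ht
  have hρ : 0 < ρ := by
    have h1 := mem_ball_zero_iff.mp ht
    exact (norm_nonneg t).trans_lt h1
  have h0 : (0 : ℂ) ∈ ball (0 : ℂ) ρ := mem_ball_self hρ
  have hd : DifferentiableOn ℂ f (ball (0 : ℂ) ρ) := fun s hs =>
    (hf s hs).differentiableAt.differentiableWithinAt
  refine (convex_ball (0 : ℂ) ρ).is_const_of_fderivWithin_eq_zero hd ?_ ht h0
  intro s hs
  rw [fderivWithin_of_isOpen isOpen_ball hs]
  have h2 := (hf s hs).hasFDerivAt.fderiv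
  rw [h2]
  ext
  simp

/-- a function which is killed by the direction of the curve is constant along the curve -/
theorem gdp_along {n : ℕ} {ρ : ℝ} {γ γ' : ℂ → PE n} {Ω : Set (PE n)} {g : PE n → ℂ}
    (hΩ : IsOpen Ω) (hg : DifferentiableOn ℂ g Ω)
    (hγ : ∀ t ∈ ball (0 : ℂ) ρ, HasDerivAt γ (γ' t) t) (hm : ∀ t ∈ ball (0 : ℂ) ρ, γ t ∈ Ω)
    (h0 : ∀ t ∈ ball (0 : ℂ) ρ, fderiv ℂ g (γ t) (γ' t) = 0) :
    ∀ t ∈ ball (0 : ℂ) ρ, g (γ t) = g (γ 0) := by
  refine gdp_const (f := fun t => g (γ t)) ?_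
  intro t ht
  have h1 := (hg.differentiableAt (hΩ.mem_nhds (hm t ht))).hasFDerivAt.comp_hasDerivAt t (hγ t ht)
  rw [h0 t ht] at h1
  exact h1

/-- quotients -/
theorem gdp_quot {n : ℕ} {ρ : ℝ} {γ γ' : ℂ → PE n} {Ω : Set (PE n)} {u v : PE n → ℂ}
    (hΩ : IsOpen Ω) (hu : DifferentiableOn ℂ u Ω) (hv : DifferentiableOn ℂ v Ω)
    (hγ : ∀ t ∈ ball (0 : ℂ) ρ, HasDerivAt γ (γ' t) t) (hm : ∀ t ∈ ball (0 : ℂ) ρ, γ t ∈ Ω)
    (hv0 : ∀ t ∈ ball (0 : ℂ) ρ, v (γ t) ≠ 0)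
    (h0 : ∀ t ∈ ball (0 : ℂ) ρ,
      v (γ t) * fderiv ℂ u (γ t) (γ' t) - u (γ t) * fderiv ℂ v (γ t) (γ' t) = 0) :
    ∀ t ∈ ball (0 : ℂ) ρ, u (γ t) * v (γ 0) = u (γ 0) * v (γ t) := by
  intro t ht
  have hρ : 0 < ρ := (norm_nonneg t).trans_lt (mem_ball_zero_iff.mp ht)
  have h1 : u (γ t) / v (γ t) = u (γ 0) / v (γ 0) := by
    refine gdp_const (f := fun t => u (γ t) / v (γ t)) ?_ t ht
    intro s hs
    have e1 := (hu.differentiableAt (hΩ.mem_nhds (hm s hs))).hasFDerivAt.comp_hasDerivAt s (hγ s hs)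
    have e2 := (hv.differentiableAt (hΩ.mem_nhds (hm s hs))).hasFDerivAt.comp_hasDerivAt s (hγ s hs)
    have e3 := e1.div e2 (hv0 s hs)
    have e4 : (fderiv ℂ u (γ s) (γ' s) * (v ∘ γ) s - (u ∘ γ) s * fderiv ℂ v (γ s) (γ' s)) /
        (v ∘ γ) s ^ 2 = 0 := by
      have := h0 s hs
      simp only [Function.comp_apply]
      rw [mul_comm (fderiv ℂ u (γ s) (γ' s)) (v (γ s)), this, zero_div]
    rw [e4] at e3
    exact e3
  have h2 := hv0 t ht
  have h3 := hv0 0 (mem_ball_self hρ)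
  rw [div_eq_div_iff h2 h3] at h1
  exact h1

/-- the sink of an iterate -/
theorem gdp_iter {f : ℂ → ℂ} {P : ℕ} (hK : StKO0) (hf : Differentiable ℂ f) (hP : 0 < P) {u : ℂ}
    (hu : AT f P u) (k : ℕ) : AT f P (f^[k] u) ∧ SP f P (f^[k] u) = f^[k] (SP f P u) ∧
      LP f P (f^[k] u) = LP f P u := by
  obtain ⟨-, -, h3, h4, -⟩ := hK f P hf hP
  induction k with
  | zero => exact ⟨hu, rfl, rfl⟩
  | succ k ih =>
    obtain ⟨i1, i2, i3⟩ := ih
    obtain ⟨j1, j2⟩ := h4 _ i1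
    rw [Function.iterate_succ_apply', Function.iterate_succ_apply']
    exact ⟨(h3 _).mpr i1, by rw [j1, i2], by rw [j2, i3]⟩

theorem gdp_pair (a : ℂ) (n M : ℕ) (i : Fin n) :
    Differentiable ℂ (fun x : PE n => (x, (fx a n x)^[M] (x (some i)))) := by
  have e0 : ContDiff ℂ 1 (fun x : PE n => (x, x (some i))) :=
    contDiff_id.prodMk (contDiff_coord n (some i))
  have e1 : ContDiff ℂ 1 (fun x : PE n => (fx a n x)^[M] (x (some i))) :=
    ContDiff.comp (g := fun p : PE n × ℂ => (fx a n p.1)^[M] p.2)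
      (f := fun x : PE n => (x, x (some i))) (contDiff_fx a n M) e0
  exact (contDiff_id.prodMk e1).differentiable (by norm_num)

theorem gdp_phi {a : ℂ} {n M : ℕ} {B R C₁ R₁ R₃ : ℝ} {ψ φ : PE n × ℂ → ℂ}
    (hb : BO a n B R C₁ R₁ R₃ ψ φ) (i : Fin n) {Ω : Set (PE n)}
    (h1 : ∀ x ∈ Ω, x ∈ ball (0 : PE n) B)
    (h2 : ∀ x ∈ Ω, R₃ < ‖(fx a n x)^[M] (x (some i))‖) :
    DifferentiableOn ℂ (fun x : PE n => φ (x, (fx a n x)^[M] (x (some i)))) Ω :=
  DifferentiableOn.comp (g := φ) (f := fun x : PE n => (x, (fx a n x)^[M] (x (some i))))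
    hb.φd (gdp_pair a n M i).differentiableOn (fun x hx => ⟨h1 x hx, h2 x hx⟩)

/-- Integral curves of fields which kill the invariants are rigid discs. -/
theorem gdp_holds : StGDP := by
  intro hK0 hK1 hK2 hK3 hNUD a n P M B R C₁ R₁ R₃ ρ ψ φ Es Ee rf ap F0 γ γ' ha hn hP hb hrf hρ hγ
    hO hK hrat hesc hcen hF0 hrel hdis hbad
  obtain ⟨hOo, hN⟩ := hNUD hK0 hK1 hK2 hK3 a n P M B R₃ Es Ee rf ap ha hn hP hrf
  have h00 : (0 : ℂ) ∈ ball (0 : ℂ) ρ := mem_ball_self hρ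
  have hR1 := hb.hR
  have hC1 := hb.hC
  have hR3 := hb.hR₃
  have hB : ∀ t ∈ ball (0 : ℂ) ρ, γ t ∈ ball (0 : PE n) B := fun t ht => (hO t ht).1
  have hA : ∀ t ∈ ball (0 : ℂ) ρ, ∀ i ∈ Es, (γ t, γ t (some i)) ∈ A0 a n P := fun t ht =>
    (hO t ht).2.1
  have hE : ∀ t ∈ ball (0 : ℂ) ρ, ∀ i ∈ Ee, R₃ < ‖(fx a n (γ t))^[M] (γ t (some i))‖ :=
    fun t ht => (hO t ht).2.2
  have hREL : ∀ t ∈ ball (0 : ℂ) ρ, ∀ i ∈ Es, nu a n P rf i (γ t) * dn a n P rf ap i (γ 0) =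
      nu a n P rf i (γ 0) * dn a n P rf ap i (γ t) := by
    intro t ht i hi
    obtain ⟨hnu, hdn, -, hd0⟩ := hN i hi
    exact gdp_quot hOo hnu hdn hγ hO
      (fun s hs => hd0 _ (hO s hs) (hK s hs (rf i) (hrf.mem i hi)))
      (fun s hs => hrat s hs i hi) t ht
  -- multipliers at the references
  have hlam0 : ∀ t ∈ ball (0 : ℂ) ρ, ∀ i ∈ Es, rf i = i →
      LP (fx a n (γ t)) P (γ t (some i)) = LP (fx a n (γ 0)) P (γ 0 (some i)) := by
    intro t ht i hi hri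
    have h1 := hREL t ht i hi
    simp only [nu, dn, if_pos hri, mul_one] at h1
    exact h1
  have hlam1 : ∀ t ∈ ball (0 : ℂ) ρ, ∀ i ∈ Es,
      LP (fx a n (γ t)) P (γ t (some i)) = LP (fx a n (γ t)) P (γ t (some (rf i))) := by
    intro t ht i hi
    obtain ⟨-, e2, e3⟩ := gdp_iter hK0 (fx_differentiable a n (γ t)) hP
      (hA t ht (rf i) (hrf.mem i hi)).1 (ap i)
    have e4 := hrel t ht i hi
    rw [← e3]
    unfold LP
    rw [e2, e4]
  refine ⟨?_, hREL⟩
  exact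
    { hρ := hρ
      γd := fun t ht => (hγ t ht).differentiableAt.differentiableWithinAt
      γB := hB
      A0s := hA
      lam := by
        intro t ht i hi
        rw [hlam1 t ht i hi, hlam1 0 h00 i hi]
        exact hlam0 t ht (rf i) (hrf.mem i hi) (hrf.idem i hi)
      kne := hK
      rel := hrel
      ref := hrf
      dis := hdis
      rat := by
        intro t ht i hi
        by_cases hri : rf i = i
        · rw [hrf.zero i hi hri, hri]
          simp only [Function.iterate_zero, id_eq]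
          exact mul_comm _ _
        · have h1 := hREL t ht i hi
          simp only [nu, dn, if_neg hri] at h1
          exact h1
      F1 := fun i hi => (hF0 i hi).2
      esc := by
        intro t ht i hi
        have hd : DifferentiableOn ℂ (fun x : PE n => φ (x, (fx a n x)^[M] (x (some i))))
            (OO a n P M B R₃ Es Ee) :=
          gdp_phi hb i (fun x hx => hx.1) (fun x hx => hx.2.2 i hi)
        have h1 := gdp_along hOo hd hγ hO (fun s hs => hesc s hs i hi) t ht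
        obtain ⟨h2, h3⟩ := hF0 i hi
        have h4 : φ (γ 0, (fx a n (γ 0))^[M] (γ 0 (some i))) = F0 i := by
          have e1 := hb.ψφ (γ 0) (hB 0 h00) _ (hE 0 h00 i hi)
          have e2 : R₁ < ‖F0 i‖ := by linarith
          refine hb.ψi (γ 0) (hB 0 h00) (φ_norm hb (hB 0 h00) (hE 0 h00 i hi)) e2 ?_
          show ψ (γ 0, φ (γ 0, (fx a n (γ 0))^[M] (γ 0 (some i)))) = ψ (γ 0, F0 i)
          rw [e1, h2]
        have h5 := hb.ψφ (γ t) (hB t ht) _ (hE t ht i hi)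
        rw [← h5]
        have h6 : φ (γ t, (fx a n (γ t))^[M] (γ t (some i))) = F0 i := by
          rw [← h4]; exact h1
        rw [h6]
      cen := by
        intro t ht
        exact gdp_along isOpen_univ (cf_diff a n n).differentiableOn hγ (fun _ _ => mem_univ _)
          hcen t ht
      bad := hbad }

end Pool.Agent.H713R5.QJ
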