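import Mathlib
import Pool.Agent.H713R5.QJ.Defs1

set_option autoImplicit false

open Topology Filter Metric Set Polynomial MeasureTheory
open Pool.Agent.H713R3.ZA

namespace Pool.Agent.H713R5.QJ

namespace GENPaux

/-- move the constant term -/
noncomputable def mv {n : ℕ} (x : PE n) (s : ℂ) : PE n :=
  fun k => k.elim (x none + s) (fun i => x (some i))

theorem mv_zero {n : ℕ} (x : PE n) : mv x 0 = x := by
  funext k
  rcases k with _ | i
  · exact add_zero _
  · rfl

theorem mv_cont {n : ℕ} (x : PE n) : Continuous (mv x) := by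
  refine continuous_pi fun k => ?_
  rcases k with _ | i
  · exact continuous_const.add continuous_id
  · exact continuous_const

theorem fx_mv (a : ℂ) (n : ℕ) (x : PE n) (s z : ℂ) :
    fx a n (mv x s) z = fx a n x z + s := by
  change (fam a n (mv x s)).eval z = (fam a n x).eval z + s
  rw [fam_eq, fam_eq]
  have h1 : dfam a n (mv x s) = dfam a n x := rfl
  rw [h1, eval_add, eval_add, eval_C, eval_C]
  change x none + s + _ = _
  ring

/-- the iterates as polynomials in the parameter -/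
noncomputable def qp (p : ℂ[X]) (c : ℂ) : ℕ → ℂ[X]
  | 0 => C c
  | m + 1 => p.comp (qp p c m) + X

theorem qp_eval (a : ℂ) (n : ℕ) (x : PE n) (c s : ℂ) (m : ℕ) :
    (fx a n (mv x s))^[m] c = (qp (fam a n x) c m).eval s := by
  induction m with
  | zero => simp [qp]
  | succ m ih =>
    rw [Function.iterate_succ_apply', ih, fx_mv, qp, eval_add, eval_comp, eval_X]
    rfl

theorem qp_deg_pos {p : ℂ[X]} (hd : 2 ≤ p.natDegree) (c : ℂ) (m : ℕ) :
    1 ≤ (qp p c (m + 1)).natDegree ∧
      (qp p c (m + 2)).natDegree = p.natDegree * (qp p c (m + 1)).natDegree := by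
  have key : ∀ q : ℂ[X], 1 ≤ q.natDegree →
      (p.comp q + X).natDegree = p.natDegree * q.natDegree := by
    intro q hq
    rw [natDegree_add_eq_left_of_natDegree_lt, natDegree_comp]
    rw [natDegree_comp, natDegree_X]
    nlinarith
  have h1 : 1 ≤ (qp p c (m + 1)).natDegree := by
    induction m with
    | zero =>
      have h2 : qp p c (0 + 1) = X + C (p.eval c) := by
        rw [qp, qp, comp_C, add_comm]
      rw [h2, natDegree_X_add_C]
    | succ m ih =>
      have h2 : qp p c (m + 1 + 1) = p.comp (qp p c (m + 1)) + X := rfl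
      rw [h2, key _ ih]
      nlinarith
  exact ⟨h1, key _ h1⟩

theorem qp_deg {p : ℂ[X]} (hd : 2 ≤ p.natDegree) (c : ℂ) :
    StrictMono fun m => (qp p c m).natDegree := by
  refine strictMono_nat_of_lt_succ fun m => ?_
  rcases m with _ | m
  · have h1 : (qp p c 0).natDegree = 0 := by
      rw [qp, natDegree_C]
    rw [h1]
    have := (qp_deg_pos hd c 0).1
    omega
  · obtain ⟨h1, h2⟩ := qp_deg_pos hd c m
    rw [h2]
    nlinarith

theorem qp_ne {p : ℂ[X]} (hd : 2 ≤ p.natDegree) (c : ℂ) {m P : ℕ} (hP : 0 < P) :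
    qp p c (m + P) - qp p c m ≠ 0 := by
  intro h
  have h1 : (qp p c m).natDegree < (qp p c (m + P)).natDegree :=
    qp_deg hd c (show m < m + P by omega)
  rw [sub_eq_zero.1 h] at h1
  exact lt_irrefl _ h1

end GENPaux

open GENPaux in
theorem genp_holds : StGENP := by
  intro hKO0 hKO1 hKO2 hKO3 a n P ha hn hP x₁ I hI ε hε
  -- the bad parameters
  have hdeg : 2 ≤ (fam a n x₁).natDegree := by
    rw [natDegree_fam ha]
    omega
  have hbad : (⋃ i : Fin n, ⋃ m : ℕ, {s : ℂ | (qp (fam a n x₁) (x₁ (some i)) (m + P) -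
      qp (fam a n x₁) (x₁ (some i)) m).IsRoot s}).Countable :=
    Set.countable_iUnion fun i => Set.countable_iUnion fun m =>
      (Polynomial.finite_setOfPred_isRoot (qp_ne hdeg _ hP)).countable
  -- the good neighbourhood
  obtain ⟨hopen, -, -, -⟩ := hKO1 hKO0 a n P ha hn hP
  have hev : ∀ᶠ s : ℂ in 𝓝 0, mv x₁ s ∈ ball x₁ ε ∧
      ∀ i ∈ I, AT (fx a n (mv x₁ s)) P (x₁ (some i)) := by
    refine Filter.Eventually.and ?_ ?_
    · have h1 : ContinuousAt (mv x₁) 0 := (mv_cont x₁).continuousAt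
      apply h1
      rw [mv_zero]
      exact ball_mem_nhds _ hε
    · rw [Finset.eventually_all]
      intro i hi
      have h1 : Continuous fun s : ℂ => ((mv x₁ s, x₁ (some i)) : PE n × ℂ) :=
        (mv_cont x₁).prodMk continuous_const
      have h2 : IsOpen {s : ℂ | AT (fx a n (mv x₁ s)) P (x₁ (some i))} := hopen.preimage h1
      apply h2.mem_nhds
      change AT (fx a n (mv x₁ 0)) P (x₁ (some i))
      rw [mv_zero]
      exact hI i hi
  obtain ⟨δ, hδ, hball⟩ := Metric.eventually_nhds_iff_ball.1 hev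
  obtain ⟨s, hs1, hs2⟩ := (hbad.dense_compl ℂ).exists_mem_open isOpen_ball
    ⟨(0 : ℂ), mem_ball_self hδ⟩
  obtain ⟨hxε, hAT⟩ := hball s hs2
  refine ⟨mv x₁ s, hxε, fun i hi => ?_⟩
  have hex : ∀ (j : Fin n) (m : ℕ), (fx a n (mv x₁ s))^[m + P] (mv x₁ s (some j)) ≠
      (fx a n (mv x₁ s))^[m] (mv x₁ s (some j)) := by
    intro j m h
    apply hs1
    refine mem_iUnion.2 ⟨j, mem_iUnion.2 ⟨m, ?_⟩⟩
    change (qp (fam a n x₁) (x₁ (some j)) (m + P) -
      qp (fam a n x₁) (x₁ (some j)) m).eval s = 0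
    rw [eval_sub, ← qp_eval, ← qp_eval]
    exact sub_eq_zero.2 h
  set x : PE n := mv x₁ s with hx
  have hATi : AT (fx a n x) P (x (some i)) := hAT i hi
  obtain ⟨hk1, hk2, hk3, hk4, hk5⟩ := hKO0 (fx a n x) P (fx_differentiable a n x) hP
  have hSk : Sk (fx a n x) P (x (some i)) (SP (fx a n x) P (x (some i))) := hk2 _ hATi
  obtain ⟨hz1, hz2, hz3⟩ := hSk
  have hLP : LP (fx a n x) P (x (some i)) ≠ 0 := by
    intro h0
    obtain ⟨j, m, hm1, hm2, hm3⟩ := exists_crit_iter ha P (h0 : deriv ((fx a n x)^[P])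
      (SP (fx a n x) P (x (some i))) = 0)
    rw [hz1] at hm3
    apply hex j m
    rw [add_comm, Function.iterate_add_apply, ← hm3, hz1]
  have hA0 : (x, x (some i)) ∈ A0 a n P := ⟨hATi, hLP⟩
  refine ⟨hA0, fun hK0 => ?_⟩
  obtain ⟨-, hKO2'⟩ := hKO2 hKO0 hKO1 hKO3 a n P ha hn hP
  have hstep : ∀ (u : ℂ), (x, u) ∈ A0 a n P → ∀ k : ℕ, (x, (fx a n x)^[k] u) ∈ A0 a n P := by
    intro u hu k
    induction k with
    | zero => exact hu
    | succ k ih =>
      rw [Function.iterate_succ_apply']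
      exact (hKO2' x _ ih).2.1
  have hiter : ∀ k : ℕ, KP (fx a n x) P ((fx a n x)^[P * k] (x (some i))) = 0 := by
    intro k
    induction k with
    | zero => exact hK0
    | succ k ih =>
      rw [Nat.mul_succ, add_comm, Function.iterate_add_apply,
        (hKO2' x _ (hstep _ hA0 (P * k))).2.2.2.2, ih, mul_zero]
  obtain ⟨r₁, r₂, -, hKL⟩ := hKO3 hKO0 a n P (‖x‖ + 1) ‖LP (fx a n x) P (x (some i))‖
    ‖LP (fx a n x) P (x (some i))‖ 1 ha hn hP (by positivity) (norm_pos_iff.2 hLP) hz2 one_pos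
  have hxB : x ∈ ball (0 : PE n) (‖x‖ + 1) := by
    rw [mem_ball_zero_iff]
    linarith
  have hzero := hKL.zero x hxB (SP (fx a n x) P (x (some i))) hz1 le_rfl le_rfl
  have hclose := hKL.close x hxB (SP (fx a n x) P (x (some i))) hz1 le_rfl le_rfl
  obtain ⟨k, hk⟩ := (hz3.eventually (ball_mem_nhds (SP (fx a n x) P (x (some i))) hKL.r1)).exists
  have h1 := hclose _ hk _ (mem_ball_self hKL.r1)
  rw [hiter k, hzero, sub_zero, zero_sub, norm_neg] at h1
  have h2 : ‖(fx a n x)^[P * k] (x (some i)) - SP (fx a n x) P (x (some i))‖ = 0 := by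
    have := norm_nonneg ((fx a n x)^[P * k] (x (some i)) - SP (fx a n x) P (x (some i)))
    linarith
  have h3 : (fx a n x)^[P * k] (x (some i)) = SP (fx a n x) P (x (some i)) :=
    sub_eq_zero.1 (norm_eq_zero.1 h2)
  apply hex i (P * k)
  rw [add_comm, Function.iterate_add_apply, h3, hz1]

end Pool.Agent.H713R5.QJ
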