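import Mathlib
import Pool.Agent.H713R5.QJ.Defs

set_option autoImplicit false

open Topology Filter Metric Set Polynomial MeasureTheory

namespace Pool.Agent.H713R5.QJ

namespace INJ

/-- growth of a polynomial of degree at least two -/
lemma growth (T : ℂ[X]) (hT : 2 ≤ T.natDegree) (Z : Finset ℂ) :
    ∃ R : ℝ, 0 < R ∧ (∀ z : ℂ, R ≤ ‖z‖ → 2 * ‖z‖ ≤ ‖T.eval z‖) ∧ ∀ z ∈ Z, ‖z‖ < R := by
  have hdeg : 0 < T.divX.degree := by
    rw [← natDegree_pos_iff_degree_pos, natDegree_divX_eq_natDegree_tsub_one]; omega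
  have h0 : Tendsto (fun z : ℂ => ‖z‖) (Bornology.cobounded ℂ) atTop :=
    tendsto_norm_cobounded_atTop
  have h1 : Tendsto (fun z : ℂ => ‖T.divX.eval z‖) (Bornology.cobounded ℂ) atTop :=
    T.divX.tendsto_norm_atTop hdeg h0
  have h2 : ∀ᶠ z : ℂ in Bornology.cobounded ℂ, 3 ≤ ‖T.divX.eval z‖ := h1.eventually_ge_atTop 3
  have h3 : ∀ᶠ z : ℂ in Bornology.cobounded ℂ, ‖T.coeff 0‖ ≤ ‖z‖ := h0.eventually_ge_atTop _
  obtain ⟨r, -, hr⟩ := (hasBasis_cobounded_norm (E := ℂ)).eventually_iff.1 (h2.and h3)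
  have hZ : ∃ B : ℝ, ∀ z ∈ Z, ‖z‖ ≤ B :=
    ⟨∑ z ∈ Z, ‖z‖, fun z hz => Finset.single_le_sum (f := fun z : ℂ => ‖z‖)
      (fun _ _ => norm_nonneg _) hz⟩
  obtain ⟨B, hB⟩ := hZ
  refine ⟨max (max r 1) (B + 1), ?_, ?_, ?_⟩
  · exact lt_of_lt_of_le one_pos (le_trans (le_max_right _ _) (le_max_left _ _))
  · intro z hz
    have hz1 : r ≤ ‖z‖ := le_trans (le_trans (le_max_left _ _) (le_max_left _ _)) hz
    obtain ⟨h4, h5⟩ := hr hz1
    have h6 : T.eval z = T.divX.eval z * z + T.coeff 0 := by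
      conv_lhs => rw [← T.divX_mul_X_add]
      simp
    rw [h6]
    have h7 : ‖T.divX.eval z * z‖ ≤ ‖T.divX.eval z * z + T.coeff 0‖ + ‖T.coeff 0‖ := by
      have := norm_sub_le (T.divX.eval z * z + T.coeff 0) (T.coeff 0)
      simpa using this
    rw [norm_mul] at h7
    have h8 : 3 * ‖z‖ ≤ ‖T.divX.eval z‖ * ‖z‖ := mul_le_mul_of_nonneg_right h4 (norm_nonneg _)
    linarith
  · intro z hz
    have := hB z hz
    exact lt_of_lt_of_le (by linarith) (le_max_right _ _)

/-- Taylor estimate of second order -/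
lemma taylor2 (T : ℂ[X]) (z : ℂ) :
    ∃ L : ℝ, 0 ≤ L ∧ ∀ ζ : ℂ, ‖ζ - z‖ ≤ 1 →
      ‖T.eval ζ - T.eval z‖ ≤ ‖(derivative T).eval z‖ * ‖ζ - z‖ + L * ‖ζ - z‖ ^ 2 := by
  -- quotient
  obtain ⟨q, hq⟩ : ∃ q : ℂ[X], T - C (T.eval z) - C ((derivative T).eval z) * (X - C z) =
      (X - C z) ^ 2 * q := by
    have h1 : (X - C z) ^ 2 ∣ T - C (T.eval z) - C ((derivative T).eval z) * (X - C z) := by
      set P := T - C (T.eval z) - C ((derivative T).eval z) * (X - C z) with hP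
      have hP0 : P.eval z = 0 := by simp [hP]
      have hP1 : (derivative P).eval z = 0 := by simp [hP]
      obtain ⟨q1, hq1⟩ := dvd_iff_isRoot.2 (show P.IsRoot z from hP0)
      rw [hq1] at hP1
      simp only [derivative_mul, derivative_sub, derivative_X, derivative_C, sub_zero, one_mul,
        eval_add, eval_mul, eval_sub, eval_X, eval_C, sub_self, zero_mul, add_zero] at hP1
      obtain ⟨q2, hq2⟩ := dvd_iff_isRoot.2 (show q1.IsRoot z from hP1)
      exact ⟨q2, by rw [hq1, hq2]; ring⟩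
    exact h1
  have hc : ContinuousOn (fun ζ : ℂ => ‖q.eval ζ‖) (closedBall z 1) :=
    (q.continuous.norm).continuousOn
  obtain ⟨M, hM⟩ := (isCompact_closedBall z 1).bddAbove_image hc
  have hM' : ∀ ζ : ℂ, ‖ζ - z‖ ≤ 1 → ‖q.eval ζ‖ ≤ M := by
    intro ζ hζ
    exact hM ⟨ζ, by simpa [mem_closedBall, dist_eq_norm] using hζ, rfl⟩
  have hM0 : 0 ≤ M := le_trans (norm_nonneg _) (hM' z (by simp))
  refine ⟨M, hM0, fun ζ hζ => ?_⟩
  have h1 : T.eval ζ - T.eval z = (derivative T).eval z * (ζ - z) + (ζ - z) ^ 2 * q.eval ζ := by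
    have := congrArg (fun P : ℂ[X] => P.eval ζ) hq
    simp only [eval_sub, eval_C, eval_mul, eval_X, eval_pow] at this
    linear_combination this
  rw [h1]
  refine (norm_add_le _ _).trans ?_
  rw [norm_mul, norm_mul, norm_pow]
  have := mul_le_mul_of_nonneg_left (hM' ζ hζ) (sq_nonneg ‖ζ - z‖)
  linarith

/-- uniform positive lower bound on a finite set -/
lemma exists_lower (Z : Finset ℂ) (f : ℂ → ℝ) (hf : ∀ z ∈ Z, 0 < f z) :
    ∃ c : ℝ, 0 < c ∧ ∀ z ∈ Z, c ≤ f z := by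
  rcases Z.eq_empty_or_nonempty with h | h
  · exact ⟨1, one_pos, by simp [h]⟩
  · obtain ⟨z, hz, hm⟩ := Z.exists_min_image f h
    exact ⟨f z, hf z hz, hm⟩

lemma exists_upper (Z : Finset ℂ) (f : ℂ → ℝ) :
    ∃ c : ℝ, 0 < c ∧ ∀ z ∈ Z, f z ≤ c := by
  refine ⟨1 + ∑ z ∈ Z, |f z|, by positivity, fun z hz => ?_⟩
  have h1 : |f z| ≤ ∑ z ∈ Z, |f z| :=
    Finset.single_le_sum (f := fun z : ℂ => |f z|) (fun _ _ => abs_nonneg _) hz
  have h2 := le_abs_self (f z)
  linarith

/-- bound for the differential away from its poles -/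
lemma qd_bound (Z : Finset ℂ) (a b : ℂ → ℂ) : ∃ K : ℝ, 0 < K ∧ ∀ (ζ : ℂ) (s : ℝ), 0 < s → s ≤ 1 →
    (∀ z ∈ Z, s ≤ ‖ζ - z‖) → ‖qd Z a b ζ‖ ≤ K / s ^ 2 := by
  refine ⟨1 + ∑ z ∈ Z, (‖a z‖ + ‖b z‖), by positivity, fun ζ s hs hs1 h => ?_⟩
  have h1 : ‖qd Z a b ζ‖ ≤ ∑ z ∈ Z, (‖a z‖ + ‖b z‖) / s ^ 2 := by
    unfold qd
    refine (norm_sum_le _ _).trans (Finset.sum_le_sum fun z hz => ?_)
    refine (norm_add_le _ _).trans ?_
    rw [norm_div, norm_div, norm_pow, add_div]
    have hz1 := h z hz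
    have hp : 0 < ‖ζ - z‖ := lt_of_lt_of_le hs hz1
    refine add_le_add ?_ ?_
    · exact div_le_div_of_nonneg_left (norm_nonneg _) (by positivity)
        (pow_le_pow_left₀ hs.le hz1 2)
    · refine div_le_div_of_nonneg_left (norm_nonneg _) (by positivity) ?_
      have : s ^ 2 ≤ s := by nlinarith
      linarith
  rw [← Finset.sum_div] at h1
  refine h1.trans ?_
  gcongr
  linarith

lemma qd_measurable (Z : Finset ℂ) (a b : ℂ → ℂ) : Measurable (qd Z a b) := by
  unfold qd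
  fun_prop

/-- an algebraic differential with infinitely many zeros vanishes -/
lemma qd_zero (Z : Finset ℂ) (a b : ℂ → ℂ) (S : Set ℂ) (hS : S.Infinite)
    (h : ∀ ζ ∈ S, ζ ∉ Z ∧ qd Z a b ζ = 0) : ∀ z ∈ Z, a z = 0 ∧ b z = 0 := by
  classical
  have ha : ∀ z ∈ Z, a z = 0 := by
    set N : ℂ[X] := ∑ z ∈ Z, (C (a z) * ∏ z' ∈ Z.erase z, (X - C z') ^ 2 +
      C (b z) * ((X - C z) * ∏ z' ∈ Z.erase z, (X - C z') ^ 2)) with hN
    have hN0 : N = 0 := by
      refine Polynomial.eq_zero_of_infinite_isRoot N (hS.mono fun ζ hζ => ?_)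
      obtain ⟨hζ1, hζ2⟩ := h ζ hζ
      have hne : ∀ z ∈ Z, ζ - z ≠ 0 := fun z hz h0 => hζ1 (by rw [sub_eq_zero.1 h0]; exact hz)
      have h1 : N.eval ζ = qd Z a b ζ * ∏ z' ∈ Z, (ζ - z') ^ 2 := by
        rw [hN, eval_finsetSum, qd, Finset.sum_mul]
        refine Finset.sum_congr rfl fun z hz => ?_
        rw [← Finset.mul_prod_erase Z (fun z' => (ζ - z') ^ 2) hz]
        simp only [eval_add, eval_mul, eval_C, eval_prod, eval_pow, eval_sub, eval_X]
        have := hne z hz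
        field_simp
      show N.eval ζ = 0
      rw [h1, hζ2, zero_mul]
    intro z hz
    have h2 : N.eval z = a z * ∏ z' ∈ Z.erase z, (z - z') ^ 2 := by
      rw [hN, eval_finsetSum, Finset.sum_eq_single z]
      · simp [eval_prod]
      · intro z1 hz1 hne
        have : ∏ z' ∈ Z.erase z1, (z - z') ^ 2 = 0 :=
          Finset.prod_eq_zero (Finset.mem_erase.2 ⟨hne.symm, hz⟩) (by simp)
        simp [eval_prod, this]
      · intro h; exact absurd hz h
    rw [hN0, eval_zero] at h2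
    have h3 : ∏ z' ∈ Z.erase z, (z - z') ^ 2 ≠ 0 := by
      refine Finset.prod_ne_zero_iff.2 fun z' hz' => ?_
      exact pow_ne_zero _ (sub_ne_zero.2 (Finset.mem_erase.1 hz').1.symm)
    exact (mul_eq_zero.1 h2.symm).resolve_right h3
  have hb : ∀ z ∈ Z, b z = 0 := by
    set N : ℂ[X] := ∑ z ∈ Z, (C (b z) * ∏ z' ∈ Z.erase z, (X - C z')) with hN
    have hN0 : N = 0 := by
      refine Polynomial.eq_zero_of_infinite_isRoot N (hS.mono fun ζ hζ => ?_)
      obtain ⟨hζ1, hζ2⟩ := h ζ hζ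
      have hne : ∀ z ∈ Z, ζ - z ≠ 0 := fun z hz h0 => hζ1 (by rw [sub_eq_zero.1 h0]; exact hz)
      have h1 : N.eval ζ = qd Z a b ζ * ∏ z' ∈ Z, (ζ - z') := by
        rw [hN, eval_finsetSum, qd, Finset.sum_mul]
        refine Finset.sum_congr rfl fun z hz => ?_
        rw [← Finset.mul_prod_erase Z (fun z' => (ζ - z')) hz]
        simp only [eval_mul, eval_C, eval_prod, eval_sub, eval_X, ha z hz]
        have := hne z hz
        field_simp
        ring
      show N.eval ζ = 0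
      rw [h1, hζ2, zero_mul]
    intro z hz
    have h2 : N.eval z = b z * ∏ z' ∈ Z.erase z, (z - z') := by
      rw [hN, eval_finsetSum, Finset.sum_eq_single z]
      · simp [eval_prod]
      · intro z1 hz1 hne
        have : ∏ z' ∈ Z.erase z1, (z - z') = 0 :=
          Finset.prod_eq_zero (Finset.mem_erase.2 ⟨hne.symm, hz⟩) (by simp)
        simp [eval_prod, this]
      · intro h; exact absurd hz h
    rw [hN0, eval_zero] at h2
    have h3 : ∏ z' ∈ Z.erase z, (z - z') ≠ 0 := by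
      refine Finset.prod_ne_zero_iff.2 fun z' hz' => ?_
      exact sub_ne_zero.2 (Finset.mem_erase.1 hz').1.symm
    exact (mul_eq_zero.1 h2.symm).resolve_right h3
  exact fun z hz => ⟨ha z hz, hb z hz⟩

/-- area of an annulus -/
lemma vol_annulus (z : ℂ) (r1 r2 : ℝ) (h0 : 0 ≤ r1) (h : r1 ≤ r2) :
    volume (closedBall z r2 \ ball z r1) ≤ ENNReal.ofReal (Real.pi * (r2 ^ 2 - r1 ^ 2)) := by
  rw [measure_sdiff (ball_subset_closedBall.trans (closedBall_subset_closedBall h))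
    measurableSet_ball.nullMeasurableSet measure_ball_lt_top.ne]
  rw [Complex.volume_closedBall, Complex.volume_ball]
  have hpi : (NNReal.pi : ENNReal) = ENNReal.ofReal Real.pi := by
    rw [← NNReal.coe_real_pi, ENNReal.ofReal_coe_nnreal]
  rw [hpi, ← ENNReal.ofReal_pow (h0.trans h), ← ENNReal.ofReal_pow h0,
    ← ENNReal.ofReal_mul (by positivity), ← ENNReal.ofReal_mul (by positivity),
    ← ENNReal.ofReal_sub _ (by positivity)]
  refine ENNReal.ofReal_le_ofReal (le_of_eq (by ring))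

/-- push-forward does not increase the mass -/
lemma mass_le (hAF : StAF) (T : ℂ[X]) (Z : Finset ℂ) (a b : ℂ → ℂ) (hT : 2 ≤ T.natDegree)
    (hinv : ∀ w : ℂ, w ∉ Z → (∀ ζ : ℂ, T.eval ζ = w → (derivative T).eval ζ ≠ 0) →
      ∑ ζ ∈ (T - C w).roots.toFinset, qd Z a b ζ / (derivative T).eval ζ ^ 2 = qd Z a b w)
    (E : Set ℂ) (hE : MeasurableSet E) :
    ∫⁻ w in E, ENNReal.ofReal ‖qd Z a b w‖ ≤ ∫⁻ z in (ev T) ⁻¹' E, ENNReal.ofReal ‖qd Z a b z‖ := by
  classical
  have hqm := qd_measurable Z a b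
  have hdm : Measurable fun z : ℂ => (derivative T).eval z := (derivative T).continuous.measurable
  have hgm : Measurable fun z : ℂ =>
      ENNReal.ofReal (‖qd Z a b z‖ / ‖(derivative T).eval z‖ ^ 2) := by
    fun_prop
  have hd0 : derivative T ≠ 0 := by
    intro h0
    have := derivative_eq_zero.1 h0
    omega
  have hfin : {w : ℂ | ¬ (w ∉ Z ∧ ∀ ζ : ℂ, T.eval ζ = w → (derivative T).eval ζ ≠ 0)}.Finite := by
    refine (Z.finite_toSet.union
      ((derivative T).roots.toFinset.finite_toSet.image fun ζ => T.eval ζ)).subset ?_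
    intro w hw
    simp only [mem_ofPred_eq, not_and_or, not_not] at hw
    rcases hw with hw | hw
    · exact Or.inl hw
    · push Not at hw
      obtain ⟨ζ, h1, h2⟩ := hw
      refine Or.inr ⟨ζ, ?_, h1⟩
      simp [hd0, h2]
  have hae : ∀ᵐ w : ℂ, w ∉ Z ∧ ∀ ζ : ℂ, T.eval ζ = w → (derivative T).eval ζ ≠ 0 := by
    rw [ae_iff]
    exact hfin.measure_zero _
  have h1 : ∫⁻ w in E, ENNReal.ofReal ‖qd Z a b w‖ ≤
      ∫⁻ w in E, ∑ ζ ∈ (T - C w).roots.toFinset,
        ENNReal.ofReal (‖qd Z a b ζ‖ / ‖(derivative T).eval ζ‖ ^ 2) := by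
    refine lintegral_mono_ae (ae_restrict_of_ae ?_)
    filter_upwards [hae] with w hw
    rw [← hinv w hw.1 hw.2, ← ENNReal.ofReal_sum_of_nonneg (fun _ _ => by positivity)]
    refine ENNReal.ofReal_le_ofReal ((norm_sum_le _ _).trans (le_of_eq ?_))
    refine Finset.sum_congr rfl fun ζ _ => ?_
    rw [norm_div, norm_pow]
  refine h1.trans ?_
  rw [hAF T _ E (by omega) hgm hE]
  refine lintegral_mono fun z => ?_
  rw [← ENNReal.ofReal_mul (by positivity)]
  refine ENNReal.ofReal_le_ofReal ?_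
  by_cases h0 : ‖(derivative T).eval z‖ ^ 2 = 0
  · rw [h0]; simp
  · rw [div_mul_cancel₀ _ h0]

lemma biUnion_le (Z : Finset ℂ) (An : ℂ → Set ℂ) (φ : ℂ → ENNReal) :
    ∫⁻ ζ in ⋃ z ∈ Z, An z, φ ζ ≤ ∑ z ∈ Z, ∫⁻ ζ in An z, φ ζ := by
  classical
  induction Z using Finset.induction_on with
  | empty => simp
  | insert z Z hz ih =>
    rw [Finset.set_biUnion_insert, Finset.sum_insert hz]
    exact (lintegral_union_le _ _ _).trans (add_le_add_right ih _)

lemma small (k e : ℝ) (he : 0 < e) : ∀ᶠ r : ℝ in 𝓝[>] (0 : ℝ), k * r < e := by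
  have h : Tendsto (fun r : ℝ => k * r) (𝓝[>] (0 : ℝ)) (𝓝 (k * 0)) :=
    ((continuous_const.mul continuous_id).tendsto 0).mono_left nhdsWithin_le_nhds
  rw [mul_zero] at h
  exact h.eventually_lt_const he

end INJ

open INJ in
theorem inj_holds : StINJ := by
  classical
  intro hAF T Z a b wt hT hcyc hwt hinv
  obtain ⟨hc1, hc2, hc3⟩ := hcyc
  obtain ⟨R, hR0, hR, hZR⟩ := growth T hT Z
  obtain ⟨c, hc0, hc⟩ := exists_lower Z (fun z => wt z / 2) (fun z hz => by
    have := (hwt z hz).1; positivity)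
  obtain ⟨c₁, hc₁0, hc₁⟩ := exists_lower Z (fun z => R - ‖z‖) (fun z hz => by
    have := hZR z hz; linarith)
  obtain ⟨W, hW0, hW⟩ := exists_upper Z wt
  choose L' hL'0 hL' using fun z => taylor2 T z
  obtain ⟨L, hL0, hL⟩ := exists_upper Z L'
  obtain ⟨m, hm0, hm⟩ := exists_lower Z (fun z => ‖(derivative T).eval z‖)
    (fun z hz => norm_pos_iff.2 (hc3 z hz))
  -- separation
  obtain ⟨d, hd0, hd⟩ : ∃ d : ℝ, 0 < d ∧ ∀ z ∈ Z, ∀ z' ∈ Z, z ≠ z' → d ≤ ‖z - z'‖ := by
    have h1 : ∀ z : ℂ, ∃ e : ℝ, 0 < e ∧ ∀ z' ∈ Z, z ≠ z' → e ≤ ‖z - z'‖ := by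
      intro z
      obtain ⟨e, he0, he⟩ := exists_lower (Z.erase z) (fun z' => ‖z - z'‖) (fun z' hz' =>
        norm_pos_iff.2 (sub_ne_zero.2 (Finset.mem_erase.1 hz').1.symm))
      exact ⟨e, he0, fun z' hz' hne => he z' (Finset.mem_erase.2 ⟨hne.symm, hz'⟩)⟩
    choose e he0 he using h1
    obtain ⟨d, hd0, hd⟩ := exists_lower Z e (fun z _ => he0 z)
    exact ⟨d, hd0, fun z hz z' hz' hne => (hd z hz).trans (he z z' hz' hne)⟩
  obtain ⟨K, hK0, hK⟩ := qd_bound Z a b
  set C' : ℝ := L * W ^ 2 / m with hC'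
  have hC'0 : 0 < C' := by positivity
  set φ : ℂ → ENNReal := fun ζ => ENNReal.ofReal ‖qd Z a b ζ‖ with hφ
  set A : Set ℂ := ball 0 (2 * R) \ ball 0 R with hA
  -- main estimate
  have hmain : ∀ᶠ r : ℝ in 𝓝[>] (0 : ℝ), ∫⁻ z in A, φ z ≤
      ENNReal.ofReal ((∑ _z ∈ Z, (K / c ^ 2 * (Real.pi * (2 * W * C')))) * r) := by
    filter_upwards [self_mem_nhdsWithin, small W 1 one_pos, small W c₁ hc₁0, small C' c hc0,
      small (W + c) d hd0, small c 1 one_pos] with r hr0 hr1 hr2 hr3 hr4 hr5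
    have hr0 : 0 < r := hr0
    set U : Set ℂ := ⋃ z ∈ Z, closedBall z (r * wt z) with hU
    have hUm : MeasurableSet U := Z.measurableSet_biUnion fun _ _ => measurableSet_closedBall
    have hrw : ∀ z ∈ Z, r * wt z ≤ W * r := fun z hz => by
      have := mul_le_mul_of_nonneg_left (hW z hz) hr0.le
      linarith
    have hUR : U ⊆ ball 0 R := by
      intro ζ hζ
      simp only [hU, mem_iUnion, mem_closedBall, dist_eq_norm] at hζ
      obtain ⟨z, hz, hζ⟩ := hζ
      have h1 : ‖ζ‖ ≤ ‖ζ - z‖ + ‖z‖ := by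
        simpa using norm_add_le (ζ - z) z
      have h2 := hc₁ z hz
      have h3 := hrw z hz
      rw [mem_ball_zero_iff]
      linarith
    -- annuli
    set An : ℂ → Set ℂ := fun z => closedBall z (r * wt z) \ ball z (r * wt z - C' * r ^ 2) with hAn
    have hlow : ∀ z ∈ Z, r * c ≤ r * wt z - C' * r ^ 2 := by
      intro z hz
      have h1 := hc z hz
      have h2 : C' * r * r ≤ c * r := mul_le_mul_of_nonneg_right hr3.le hr0.le
      nlinarith
    have hAnin : ∀ ζ ∈ U, T.eval ζ ∉ U → ∃ z ∈ Z, ζ ∈ An z := by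
      intro ζ hζ hTζ
      simp only [hU, mem_iUnion, exists_prop] at hζ
      obtain ⟨z, hz, hζ⟩ := hζ
      refine ⟨z, hz, hζ, ?_⟩
      rw [mem_closedBall, dist_eq_norm] at hζ
      have h1 : r * wt (T.eval z) < ‖T.eval ζ - T.eval z‖ := by
        by_contra hcon
        push Not at hcon
        apply hTζ
        simp only [hU, mem_iUnion, exists_prop]
        exact ⟨T.eval z, hc1 z hz, by rw [mem_closedBall, dist_eq_norm]; exact hcon⟩
      rw [(hwt z hz).2] at h1
      have h3 := hrw z hz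
      have h2 := hL' z ζ (by linarith)
      have h4 : L' z * ‖ζ - z‖ ^ 2 ≤ L * (W * r) ^ 2 := by
        refine mul_le_mul (hL z hz) (pow_le_pow_left₀ (norm_nonneg _) (hζ.trans h3) 2)
          (by positivity) hL0.le
      rw [mem_ball, dist_eq_norm, not_lt]
      have hmz := hm z hz
      set D := ‖(derivative T).eval z‖ with hD
      have hDpos : 0 < D := lt_of_lt_of_le hm0 hmz
      have h5 : D * (r * wt z - ‖ζ - z‖) < L * (W * r) ^ 2 := by
        nlinarith
      by_contra hcon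
      push Not at hcon
      have h6 : C' * r ^ 2 < r * wt z - ‖ζ - z‖ := by linarith
      have h7 : m * (C' * r ^ 2) = L * (W * r) ^ 2 := by
        rw [hC']; field_simp
      have h8 : m * (C' * r ^ 2) ≤ D * (C' * r ^ 2) :=
        mul_le_mul_of_nonneg_right hmz (by positivity)
      have h9 : D * (C' * r ^ 2) < D * (r * wt z - ‖ζ - z‖) := mul_lt_mul_of_pos_left h6 hDpos
      linarith
    -- integral over one annulus
    have hAnint : ∀ z ∈ Z, ∫⁻ ζ in An z, φ ζ ≤
        ENNReal.ofReal (K / c ^ 2 * (Real.pi * (2 * W * C')) * r) := by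
      intro z hz
      have h1 : ∀ ζ ∈ An z, φ ζ ≤ ENNReal.ofReal (K / (r * c) ^ 2) := by
        intro ζ hζ
        refine ENNReal.ofReal_le_ofReal (hK ζ (r * c) (by positivity) (by linarith) ?_)
        intro z' hz'
        obtain ⟨hζ1, hζ2⟩ := hζ
        rw [mem_ball, dist_eq_norm, not_lt] at hζ2
        rw [mem_closedBall, dist_eq_norm] at hζ1
        by_cases hzz : z = z'
        · rw [← hzz]; exact (hlow z hz).trans hζ2
        · have h2 := hd z hz z' hz' hzz
          have h3 : ‖z - z'‖ ≤ ‖ζ - z'‖ + ‖ζ - z‖ := by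
            have := norm_sub_le (ζ - z') (ζ - z)
            simpa using this
          have h4 := hrw z hz
          linarith
      have h2 : ∫⁻ ζ in An z, φ ζ ≤ ∫⁻ _ζ in An z, ENNReal.ofReal (K / (r * c) ^ 2) :=
        setLIntegral_mono measurable_const h1
      rw [setLIntegral_const] at h2
      refine h2.trans ?_
      have h3 := vol_annulus z (r * wt z - C' * r ^ 2) (r * wt z)
        (le_trans (by positivity) (hlow z hz)) (by nlinarith [sq_nonneg r])
      refine (mul_le_mul_right h3 _).trans ?_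
      rw [← ENNReal.ofReal_mul (by positivity)]
      refine ENNReal.ofReal_le_ofReal ?_
      have h4 : (r * wt z) ^ 2 - (r * wt z - C' * r ^ 2) ^ 2 ≤ 2 * W * C' * r ^ 3 := by
        have h5 := mul_le_mul_of_nonneg_left (hW z hz) (show 0 ≤ C' * r ^ 3 by positivity)
        nlinarith [sq_nonneg (C' * r ^ 2)]
      calc K / (r * c) ^ 2 * (Real.pi * ((r * wt z) ^ 2 - (r * wt z - C' * r ^ 2) ^ 2))
          ≤ K / (r * c) ^ 2 * (Real.pi * (2 * W * C' * r ^ 3)) := by
            gcongr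
        _ = K / c ^ 2 * (Real.pi * (2 * W * C')) * r := by
            field_simp
    -- comparison
    have hmass := mass_le hAF T Z a b hT hinv (ball 0 (2 * R) \ U) (measurableSet_ball.diff hUm)
    have hdisj : Disjoint A (ball (0 : ℂ) R \ U) := by
      rw [Set.disjoint_left]
      rintro x ⟨_, hx⟩ ⟨hx', _⟩
      exact hx hx'
    have hsplit : ball (0 : ℂ) (2 * R) \ U = A ∪ (ball 0 R \ U) := by
      ext x
      have hxx : x ∈ ball (0 : ℂ) R → x ∈ ball (0 : ℂ) (2 * R) :=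
        fun h => ball_subset_ball (by linarith) h
      have hUx : x ∈ U → x ∈ ball (0 : ℂ) R := fun h => hUR h
      simp only [hA, Set.mem_sdiff, mem_union]
      tauto
    have hsub : (ev T) ⁻¹' (ball (0 : ℂ) (2 * R) \ U) ⊆ (ball 0 R \ U) ∪ ⋃ z ∈ Z, An z := by
      intro x hx
      obtain ⟨hx1, hx2⟩ := hx
      have hx1' : ‖T.eval x‖ < 2 * R := by simpa [ev] using hx1
      have hxR : x ∈ ball (0 : ℂ) R := by
        rw [mem_ball_zero_iff]
        by_contra hcon
        push Not at hcon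
        have := hR x hcon
        linarith
      by_cases hxU : x ∈ U
      · right
        obtain ⟨z, hz, hxz⟩ := hAnin x hxU hx2
        simp only [mem_iUnion, exists_prop]
        exact ⟨z, hz, hxz⟩
      · exact Or.inl ⟨hxR, hxU⟩
    have hfinite : ∫⁻ ζ in ball (0 : ℂ) R \ U, φ ζ ≠ ⊤ := by
      have h1 : ∀ ζ ∈ ball (0 : ℂ) R \ U, φ ζ ≤ ENNReal.ofReal (K / (r * c) ^ 2) := by
        intro ζ hζ
        refine ENNReal.ofReal_le_ofReal (hK ζ (r * c) (by positivity) (by linarith) ?_)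
        intro z' hz'
        by_contra hcon
        push Not at hcon
        apply hζ.2
        simp only [hU, mem_iUnion, exists_prop]
        refine ⟨z', hz', ?_⟩
        rw [mem_closedBall, dist_eq_norm]
        have h2 := hc z' hz'
        have h3 : r * c ≤ r * wt z' := mul_le_mul_of_nonneg_left (by linarith) hr0.le
        linarith
      have h2 : ∫⁻ ζ in ball (0 : ℂ) R \ U, φ ζ ≤
          ∫⁻ _ζ in ball (0 : ℂ) R \ U, ENNReal.ofReal (K / (r * c) ^ 2) :=
        setLIntegral_mono measurable_const h1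
      rw [setLIntegral_const] at h2
      refine ne_top_of_le_ne_top ?_ h2
      refine ENNReal.mul_ne_top ENNReal.ofReal_ne_top ?_
      exact ne_top_of_le_ne_top measure_ball_lt_top.ne (measure_mono sdiff_subset)
    rw [hsplit, lintegral_union (measurableSet_ball.diff hUm) hdisj] at hmass
    rw [hsplit] at hsub
    have h1 : (∫⁻ z in A, φ z) + (∫⁻ z in ball 0 R \ U, φ z) ≤
        (∑ _z ∈ Z, ENNReal.ofReal (K / c ^ 2 * (Real.pi * (2 * W * C')) * r)) +
          (∫⁻ z in ball 0 R \ U, φ z) := by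
      refine hmass.trans ((lintegral_mono_set hsub).trans ((lintegral_union_le _ _ _).trans ?_))
      rw [add_comm]
      refine add_le_add_left ?_ _
      exact (biUnion_le Z An φ).trans (Finset.sum_le_sum hAnint)
    have h2 := (ENNReal.add_le_add_iff_right hfinite).1 h1
    refine h2.trans (le_of_eq ?_)
    rw [← ENNReal.ofReal_sum_of_nonneg (fun _ _ => by positivity), Finset.sum_mul]
  -- the integral over the annulus vanishes
  have hzero : ∫⁻ z in A, φ z = 0 := by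
    have h1 : Tendsto (fun r : ℝ =>
        ENNReal.ofReal ((∑ _z ∈ Z, (K / c ^ 2 * (Real.pi * (2 * W * C')))) * r))
        (𝓝[>] (0 : ℝ)) (𝓝 0) := by
      have h2 : Tendsto (fun r : ℝ => (∑ _z ∈ Z, (K / c ^ 2 * (Real.pi * (2 * W * C')))) * r)
          (𝓝[>] (0 : ℝ)) (𝓝 ((∑ _z ∈ Z, (K / c ^ 2 * (Real.pi * (2 * W * C')))) * 0)) :=
        ((continuous_const.mul continuous_id).tendsto 0).mono_left nhdsWithin_le_nhds
      rw [mul_zero] at h2
      simpa using ENNReal.tendsto_ofReal h2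
    exact le_antisymm (ge_of_tendsto h1 hmain) zero_le
  have hφm : Measurable φ := by
    have := qd_measurable Z a b
    fun_prop
  have hAm : MeasurableSet A := measurableSet_ball.diff measurableSet_ball
  have hae : ∀ᵐ z : ℂ, z ∈ A → qd Z a b z = 0 := by
    rw [lintegral_eq_zero_iff hφm] at hzero
    have h2 := (ae_restrict_iff' hAm).1 hzero
    filter_upwards [h2] with z hz hzA
    have h3 := hz hzA
    simpa [hφ] using h3
  refine qd_zero Z a b {z : ℂ | z ∈ A ∧ qd Z a b z = 0} ?_ ?_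
  · intro hfin
    have h1 : volume {z : ℂ | z ∈ A ∧ qd Z a b z = 0} = 0 := hfin.measure_zero _
    have h2 : volume A ≤ volume {z : ℂ | z ∈ A ∧ qd Z a b z = 0} := by
      refine measure_mono_ae ?_
      filter_upwards [hae] with z hz hzA
      exact ⟨hzA, hz hzA⟩
    have h3 : ball ((3 / 2 * R : ℝ) : ℂ) (R / 4) ⊆ A := by
      intro z hz
      rw [mem_ball, dist_eq_norm] at hz
      have h4 : ‖((3 / 2 * R : ℝ) : ℂ)‖ = 3 / 2 * R := by
        rw [Complex.norm_real, Real.norm_eq_abs, abs_of_pos (by positivity)]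
      have h5 : ‖z‖ ≤ ‖z - ((3 / 2 * R : ℝ) : ℂ)‖ + ‖((3 / 2 * R : ℝ) : ℂ)‖ := by
        simpa using norm_add_le (z - ((3 / 2 * R : ℝ) : ℂ)) ((3 / 2 * R : ℝ) : ℂ)
      have h6 : ‖((3 / 2 * R : ℝ) : ℂ)‖ ≤ ‖z‖ + ‖z - ((3 / 2 * R : ℝ) : ℂ)‖ := by
        simpa using norm_sub_le z (z - ((3 / 2 * R : ℝ) : ℂ))
      rw [h4] at h5 h6
      refine ⟨?_, ?_⟩
      · rw [mem_ball_zero_iff]; linarith
      · rw [mem_ball_zero_iff]; linarith
    have h4 : 0 < volume A :=
      lt_of_lt_of_le (measure_ball_pos volume _ (by positivity)) (measure_mono h3)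
    exact absurd (h2.trans h1.le) (not_le.2 h4)
  · rintro ζ ⟨hζA, hζ0⟩
    refine ⟨fun hζZ => ?_, hζ0⟩
    apply hζA.2
    rw [mem_ball_zero_iff]
    exact hZR ζ hζZ

end Pool.Agent.H713R5.QJ
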