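import Mathlib
import Pool.Agent.H713R5.QJ.Defs1
import Pool.Agent.H792R2.SS.KB

/-!
Project QJ, task KBP (helper25): quantitative Fatou lemma (Koebe).
-/

set_option autoImplicit false

open Topology Filter Metric Set Polynomial MeasureTheory
open Pool.Agent.H713R3.ZA

namespace Pool.Agent.H713R5.QJ

/-- Koebe's one-quarter theorem, from the bound of the second coefficient -/
theorem kb_omit {Z : ℂ → ℂ} {A : ℝ} (hA : 0 < A) (hd : DifferentiableOn ℂ Z (ball 0 A))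
    (hi : InjOn Z (ball 0 A)) {u : ℂ} (hu : ∀ w ∈ ball (0 : ℂ) A, Z w ≠ u) :
    A * ‖deriv Z 0‖ ≤ 4 * ‖Z 0 - u‖ := by
  have h0 : (0 : ℂ) ∈ ball (0 : ℂ) A := mem_ball_self hA
  obtain ⟨hZ1, hZ2⟩ := Pool.Agent.H792R2.SS.t_KB Z 0 A hA hd hi
  have hne : ∀ w ∈ ball (0 : ℂ) A, Z w - u ≠ 0 := fun w hw => sub_ne_zero.2 (hu w hw)
  have hgd : DifferentiableOn ℂ (fun w => (Z w - u)⁻¹) (ball 0 A) := (hd.sub_const u).inv hne
  have hgi : InjOn (fun w => (Z w - u)⁻¹) (ball 0 A) := by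
    intro w hw w' hw' h
    have h1 : Z w - u = Z w' - u := inv_injective h
    exact hi hw hw' (sub_left_injective h1)
  obtain ⟨hg1, hg2⟩ := Pool.Agent.H792R2.SS.t_KB (fun w => (Z w - u)⁻¹) 0 A hA hgd hgi
  have hd1 : ∀ w ∈ ball (0 : ℂ) A,
      HasDerivAt (fun w => (Z w - u)⁻¹) (-(deriv Z w) / (Z w - u) ^ 2) w := by
    intro w hw
    have h1 := ((hd.differentiableAt (isOpen_ball.mem_nhds hw)).hasDerivAt.sub_const u)
    exact h1.inv (hne w hw)
  have hd2 : deriv (fun w => (Z w - u)⁻¹) =ᶠ[𝓝 0] fun w => -(deriv Z w) / (Z w - u) ^ 2 := by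
    filter_upwards [isOpen_ball.mem_nhds h0] with w hw using (hd1 w hw).deriv
  have hZ0 : HasDerivAt Z (deriv Z 0) 0 :=
    (hd.differentiableAt (isOpen_ball.mem_nhds h0)).hasDerivAt
  have hZ'' : HasDerivAt (deriv Z) (deriv (deriv Z) 0) 0 :=
    ((hd.deriv isOpen_ball).differentiableAt (isOpen_ball.mem_nhds h0)).hasDerivAt
  have hq : Z 0 - u ≠ 0 := hne 0 h0
  have hd3 : HasDerivAt (fun w => -(deriv Z w) / (Z w - u) ^ 2)
      ((-(deriv (deriv Z) 0) * (Z 0 - u) ^ 2 -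
        -(deriv Z 0) * ((2 : ℕ) * (Z 0 - u) ^ (2 - 1) * deriv Z 0)) / ((Z 0 - u) ^ 2) ^ 2) 0 :=
    hZ''.neg.div ((hZ0.sub_const u).pow 2) (pow_ne_zero 2 hq)
  have e1 : deriv (deriv (fun w => (Z w - u)⁻¹)) 0 =
      (2 * deriv Z 0 ^ 2 - deriv (deriv Z) 0 * (Z 0 - u)) / (Z 0 - u) ^ 3 := by
    rw [hd2.deriv_eq, hd3.deriv]
    field_simp
    push_cast
    ring
  have e2 : deriv (fun w => (Z w - u)⁻¹) 0 = -(deriv Z 0) / (Z 0 - u) ^ 2 := (hd1 0 h0).deriv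
  rw [e1, e2, norm_div, norm_div, norm_neg, norm_pow, norm_pow] at hg2
  have hqn : 0 < ‖Z 0 - u‖ := norm_pos_iff.2 hq
  have hzn : 0 < ‖deriv Z 0‖ := norm_pos_iff.2 hZ1
  have h3 : A * ‖2 * deriv Z 0 ^ 2 - deriv (deriv Z) 0 * (Z 0 - u)‖ ≤
      4 * ‖deriv Z 0‖ * ‖Z 0 - u‖ := by
    have h4 := mul_le_mul_of_nonneg_right hg2 (pow_nonneg hqn.le 3)
    have e3 : A * (‖2 * deriv Z 0 ^ 2 - deriv (deriv Z) 0 * (Z 0 - u)‖ / ‖Z 0 - u‖ ^ 3) *
        ‖Z 0 - u‖ ^ 3 = A * ‖2 * deriv Z 0 ^ 2 - deriv (deriv Z) 0 * (Z 0 - u)‖ := by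
      field_simp
    have e4 : 4 * (‖deriv Z 0‖ / ‖Z 0 - u‖ ^ 2) * ‖Z 0 - u‖ ^ 3 =
        4 * ‖deriv Z 0‖ * ‖Z 0 - u‖ := by
      field_simp
    rwa [e3, e4] at h4
  have h5 : 2 * ‖deriv Z 0‖ ^ 2 ≤ ‖2 * deriv Z 0 ^ 2 - deriv (deriv Z) 0 * (Z 0 - u)‖ +
      ‖deriv (deriv Z) 0‖ * ‖Z 0 - u‖ := by
    have h6 := norm_add_le (2 * deriv Z 0 ^ 2 - deriv (deriv Z) 0 * (Z 0 - u))
      (deriv (deriv Z) 0 * (Z 0 - u))
    rw [sub_add_cancel, norm_mul, norm_pow, norm_mul (deriv (deriv Z) 0)] at h6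
    simpa using h6
  have h7 : A * (2 * ‖deriv Z 0‖ ^ 2) ≤ 8 * ‖deriv Z 0‖ * ‖Z 0 - u‖ := by
    have h8 := mul_le_mul_of_nonneg_left h5 hA.le
    have h9 := mul_le_mul_of_nonneg_right hZ2 hqn.le
    nlinarith
  have h10 : (A * ‖deriv Z 0‖) * ‖deriv Z 0‖ ≤ (4 * ‖Z 0 - u‖) * ‖deriv Z 0‖ := by nlinarith
  exact le_of_mul_le_mul_right h10 hzn

theorem sk_shift {f : ℂ → ℂ} {P : ℕ} {v z : ℂ} : Sk f P (f^[P] v) z ↔ Sk f P v z := by
  have e : (fun k : ℕ => f^[P * k] (f^[P] v)) = fun k : ℕ => f^[P * (k + 1)] v := by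
    funext k
    rw [← Function.iterate_add_apply, Nat.mul_succ]
  unfold Sk
  rw [e, tendsto_add_atTop_iff_nat (f := fun k : ℕ => f^[P * k] v) 1]

theorem sk_shift_iter {f : ℂ → ℂ} {P : ℕ} {z : ℂ} (N : ℕ) (v : ℂ) :
    Sk f P ((f^[P])^[N] v) z ↔ Sk f P v z := by
  induction N generalizing v with
  | zero => rfl
  | succ N ih => rw [Function.iterate_succ_apply, ih, sk_shift]

theorem deriv_iter_zero {F : ℂ → ℂ} (hF : Differentiable ℂ F) (N : ℕ) (z : ℂ)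
    (h : deriv (F^[N]) z = 0) : ∃ j < N, deriv F (F^[j] z) = 0 := by
  induction N with
  | zero => simp at h
  | succ N ih =>
    have h1 : F^[N + 1] = F ∘ F^[N] := by
      funext w
      rw [Function.iterate_succ_apply', Function.comp_apply]
    rw [h1, deriv_comp z (hF _) ((hF.iterate N) z), mul_eq_zero] at h
    rcases h with h | h
    · exact ⟨N, Nat.lt_succ_self N, h⟩
    · obtain ⟨j, hj, h2⟩ := ih h
      exact ⟨j, hj.trans (Nat.lt_succ_self N), h2⟩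

theorem kbp_core (hROOT : StROOT) (f : ℂ → ℂ) (P : ℕ) (hf : Differentiable ℂ f)
    (R : ℝ) (hR1 : 1 ≤ R) (hR : ∀ z, R ≤ ‖z‖ → 2 * ‖z‖ ≤ ‖f z‖) (κ : ℂ → ℂ) (zs lam : ℂ)
    (hfix : f^[P] zs = zs) (hl0 : lam ≠ 0) (hl1 : ‖lam‖ < 1)
    (heq : ∀ v, Sk f P v zs → κ (f^[P] v) = lam * κ v) (r₁ r₂ : ℝ)
    (hr1 : 0 < r₁) (hr2 : 0 < r₂) (att : ∀ z ∈ ball zs r₁, Sk f P z zs) (hz : κ zs = 0)
    (close : ∀ z ∈ ball zs r₁, ∀ z' ∈ ball zs r₁, ‖κ z - κ z' - (z - z')‖ ≤ ‖z - z'‖ / 8)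
    (onto : ∀ w ∈ ball (0 : ℂ) r₂, ∃ z ∈ ball zs r₁, κ z = w)
    (hκd : ∀ z ∈ ball zs r₁, DifferentiableAt ℂ κ z) (A : ℝ) (hA : 0 < A)
    (hcrit : ∀ v, deriv (f^[P]) v = 0 → Sk f P v zs → A ≤ ‖κ v‖) (u : ℂ)
    (hu : ¬ Sk f P u zs) : A ≤ 100 * ‖u - zs‖ := by
  have hzs : zs ∈ ball zs r₁ := mem_ball_self hr1
  choose! om hom1 hom2 using onto
  -- the derivative of κ
  have hder : ∀ z ∈ ball zs r₁, ‖deriv κ z - 1‖ ≤ 1 / 8 := by
    intro z hz
    have h1 : HasDerivAt (fun y => κ y - y) (deriv κ z - 1) z :=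
      (hκd z hz).hasDerivAt.sub (hasDerivAt_id z)
    refine h1.le_of_lip' (by norm_num) ?_
    filter_upwards [isOpen_ball.mem_nhds hz] with y hy
    have h2 := close y hy z hz
    have e : κ y - y - (κ z - z) = κ y - κ z - (y - z) := by ring
    rw [e]
    linarith
  have hder0 : ∀ z ∈ ball zs r₁, deriv κ z ≠ 0 := by
    intro z hz h
    have := hder z hz
    rw [h] at this
    norm_num at this
  have hLip : ∀ z ∈ ball zs r₁, ∀ z' ∈ ball zs r₁, ‖z - z'‖ ≤ 2 * ‖κ z - κ z'‖ := by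
    intro z hz z' hz'
    have h1 := close z hz z' hz'
    have h2 : ‖z - z'‖ ≤ ‖κ z - κ z'‖ + ‖κ z - κ z' - (z - z')‖ := by
      have := norm_sub_le (κ z - κ z') (κ z - κ z' - (z - z'))
      rwa [sub_sub_cancel] at this
    linarith [norm_nonneg (κ z - κ z')]
  have hom0 : om 0 = zs := by
    have h1 := hLip _ (hom1 0 (mem_ball_self hr2)) _ hzs
    rw [hom2 0 (mem_ball_self hr2), hz, sub_zero, norm_zero, mul_zero] at h1
    exact sub_eq_zero.1 (norm_le_zero_iff.1 h1)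
  have homd : ∀ w ∈ ball (0 : ℂ) r₂, DifferentiableAt ℂ om w := by
    intro w hw
    have hev : ∀ᶠ y in 𝓝 w, κ (om y) = y := by
      filter_upwards [isOpen_ball.mem_nhds hw] with y hy using hom2 y hy
    have hc : ContinuousAt om w := by
      rw [ContinuousAt, tendsto_iff_norm_sub_tendsto_zero]
      have h1 : Tendsto (fun y : ℂ => 2 * ‖y - w‖) (𝓝 w) (𝓝 0) := by
        have h2 : Continuous fun y : ℂ => 2 * ‖y - w‖ := by fun_prop
        have := h2.tendsto w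
        simpa using this
      refine squeeze_zero' (Eventually.of_forall fun y => norm_nonneg _) ?_ h1
      filter_upwards [isOpen_ball.mem_nhds hw] with y hy
      have h3 := hLip _ (hom1 y hy) _ (hom1 w hw)
      rwa [hom2 y hy, hom2 w hw] at h3
    exact (HasDerivAt.of_local_left_inverse hc (hκd _ (hom1 w hw)).hasDerivAt
      (hder0 _ (hom1 w hw)) hev).differentiableAt
  -- choose N
  obtain ⟨N, hN⟩ : ∃ N : ℕ, ‖lam‖ ^ N * A < r₂ := by
    have h1 : Tendsto (fun N : ℕ => ‖lam‖ ^ N * A) atTop (𝓝 (0 * A)) :=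
      (tendsto_pow_atTop_nhds_zero_of_lt_one (norm_nonneg _) hl1).mul_const A
    rw [zero_mul] at h1
    exact (h1.eventually (gt_mem_nhds hr2)).exists
  have hlN : lam ^ N ≠ 0 := pow_ne_zero N hl0
  have hmaps : ∀ w ∈ ball (0 : ℂ) A, lam ^ N * w ∈ ball (0 : ℂ) r₂ := by
    intro w hw
    rw [mem_ball_zero_iff] at hw ⊢
    rw [norm_mul, norm_pow]
    refine lt_of_le_of_lt ?_ hN
    exact mul_le_mul_of_nonneg_left hw.le (pow_nonneg (norm_nonneg _) N)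
  have hF : Differentiable ℂ (f^[P]) := hf.iterate P
  have hFN : Differentiable ℂ ((f^[P])^[N]) := hF.iterate N
  have heqN : ∀ (k : ℕ) (v : ℂ), Sk f P v zs → κ ((f^[P])^[k] v) = lam ^ k * κ v := by
    intro k
    induction k with
    | zero => intro v _; simp
    | succ k ih =>
      intro v hv
      rw [Function.iterate_succ_apply, ih _ (sk_shift.2 hv), heq v hv]
      ring
  have C1 : ∀ w ∈ ball (0 : ℂ) A, ∀ z, (f^[P])^[N] z = om (lam ^ N * w) →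
      Sk f P z zs ∧ κ z = w := by
    intro w hw z h
    have h1 : Sk f P z zs := by
      rw [← sk_shift_iter N z, h]
      exact att _ (hom1 _ (hmaps w hw))
    refine ⟨h1, ?_⟩
    have h2 := heqN N z h1
    rw [h, hom2 _ (hmaps w hw)] at h2
    exact (mul_left_cancel₀ hlN h2).symm
  have hgrow : ∀ (m : ℕ) (z : ℂ), R ≤ ‖z‖ → ‖z‖ ≤ ‖f^[m] z‖ := by
    intro m
    induction m with
    | zero => intro z _; simp
    | succ m ih =>
      intro z hz
      rw [Function.iterate_succ_apply']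
      have h1 := ih z hz
      have h2 := hR (f^[m] z) (hz.trans h1)
      linarith [norm_nonneg (f^[m] z)]
  obtain ⟨Z, hZd, hZ0, hZr, -⟩ := hROOT ℂ (ball (0 : ℂ) A)
    (fun w z => (f^[P])^[N] z - om (lam ^ N * w)) isOpen_ball (convex_ball _ _)
    (by
      have h1 : ContDiffOn ℂ 1 (fun p : ℂ × ℂ => (f^[P])^[N] p.2) (ball (0 : ℂ) A ×ˢ univ) :=
        (hFN.contDiff.comp contDiff_snd).contDiffOn
      have h2 : DifferentiableOn ℂ (fun w : ℂ => om (lam ^ N * w)) (ball (0 : ℂ) A) := by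
        intro w hw
        have h3 : DifferentiableAt ℂ (fun w : ℂ => lam ^ N * w) w := by fun_prop
        exact ((homd _ (hmaps w hw)).comp w h3).differentiableWithinAt
      have h4 : ContDiffOn ℂ 1 (fun w : ℂ => om (lam ^ N * w)) (ball (0 : ℂ) A) :=
        h2.contDiffOn isOpen_ball
      have h5 : ContDiffOn ℂ 1 (fun p : ℂ × ℂ => om (lam ^ N * p.1)) (ball (0 : ℂ) A ×ˢ univ) :=
        h4.comp contDiffOn_fst (fun p hp => hp.1)
      exact h1.sub h5)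
    (by
      intro K hK _ M
      refine ⟨max R (M + ‖zs‖ + r₁), fun s hs z hz => ?_⟩
      by_contra hcon
      push Not at hcon
      have h1 : R ≤ ‖z‖ := (le_max_left _ _).trans hcon.le
      have h2 : M + ‖zs‖ + r₁ < ‖z‖ := lt_of_le_of_lt (le_max_right _ _) hcon
      have h3 := hgrow (P * N) z h1
      have e : f^[P * N] = (f^[P])^[N] := Function.iterate_mul f P N
      rw [e] at h3
      have h4 : ‖om (lam ^ N * s)‖ ≤ ‖zs‖ + r₁ := by
        have h5 := hom1 _ (hmaps s (hK hs))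
        rw [mem_ball, dist_eq_norm] at h5
        have h6 := norm_add_le (om (lam ^ N * s) - zs) zs
        rw [sub_add_cancel] at h6
        linarith
      have h7 := norm_sub_norm_le ((f^[P])^[N] z) (om (lam ^ N * s))
      have hz' : ‖(f^[P])^[N] z - om (lam ^ N * s)‖ ≤ M := hz
      linarith)
    (by
      intro w hw z hwz hdz
      have hwz' : (f^[P])^[N] z = om (lam ^ N * w) := sub_eq_zero.1 hwz
      have hdz' : deriv ((f^[P])^[N]) z = 0 := by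
        rwa [deriv_sub_const] at hdz
      obtain ⟨j, hj, h1⟩ := deriv_iter_zero hF N z hdz'
      obtain ⟨h2, h3⟩ := C1 w hw z hwz'
      have h4 := hcrit _ h1 ((sk_shift_iter j z).2 h2)
      rw [heqN j z h2, h3, norm_mul, norm_pow] at h4
      rw [mem_ball_zero_iff] at hw
      have h5 : ‖lam‖ ^ j * ‖w‖ ≤ 1 * ‖w‖ :=
        mul_le_mul_of_nonneg_right (pow_le_one₀ (norm_nonneg _) hl1.le) (norm_nonneg _)
      linarith)
    0 (mem_ball_self hA) zs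
    (by
      show (f^[P])^[N] zs - om (lam ^ N * 0) = 0
      rw [mul_zero, hom0, Function.iterate_fixed hfix, sub_self])
  have hZ1 : ∀ w ∈ ball (0 : ℂ) A, Sk f P (Z w) zs ∧ κ (Z w) = w := fun w hw =>
    C1 w hw (Z w) (sub_eq_zero.1 (hZr w hw))
  have hinj : InjOn Z (ball 0 A) := by
    intro w hw w' hw' h
    rw [← (hZ1 w hw).2, ← (hZ1 w' hw').2, h]
  have homit : ∀ w ∈ ball (0 : ℂ) A, Z w ≠ u := by
    intro w hw h
    exact hu (h ▸ (hZ1 w hw).1)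
  have hK := kb_omit hA hZd hinj homit
  rw [hZ0] at hK
  -- the derivative of Z
  have h0 : (0 : ℂ) ∈ ball (0 : ℂ) A := mem_ball_self hA
  have hZd0 : HasDerivAt Z (deriv Z 0) 0 :=
    (hZd.differentiableAt (isOpen_ball.mem_nhds h0)).hasDerivAt
  have hκ0 : HasDerivAt κ (deriv κ zs) (Z 0) := by
    rw [hZ0]
    exact (hκd zs hzs).hasDerivAt
  have hcomp : HasDerivAt (fun w => κ (Z w)) (deriv κ zs * deriv Z 0) 0 := hκ0.comp 0 hZd0
  have hid : HasDerivAt (fun w : ℂ => κ (Z w)) 1 0 := by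
    refine (hasDerivAt_id (0 : ℂ)).congr_of_eventuallyEq ?_
    filter_upwards [isOpen_ball.mem_nhds h0] with w hw
    exact (hZ1 w hw).2
  have hprod : deriv κ zs * deriv Z 0 = 1 := hcomp.unique hid
  have hk9 : ‖deriv κ zs‖ ≤ 9 / 8 := by
    have h1 := hder zs hzs
    have h2 := norm_add_le (deriv κ zs - 1) 1
    rw [sub_add_cancel, norm_one] at h2
    linarith
  have hZ9 : 1 ≤ 9 / 8 * ‖deriv Z 0‖ := by
    have h1 : ‖deriv κ zs‖ * ‖deriv Z 0‖ = 1 := by rw [← norm_mul, hprod, norm_one]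
    have h2 := mul_le_mul_of_nonneg_right hk9 (norm_nonneg (deriv Z 0))
    linarith
  rw [norm_sub_rev] at hK
  have h1 : A * 1 ≤ A * (9 / 8 * ‖deriv Z 0‖) := mul_le_mul_of_nonneg_left hZ9 hA.le
  nlinarith [norm_nonneg (u - zs)]

theorem kbp_holds : StKBP := by
  intro hKO0 hKO1 hKO2 hKO3 hROOT a n P ha hn hP x zs hfix hl0 hl1 A hA hcrit u hu
  have hfd : Differentiable ℂ (fx a n x) := by
    unfold fx
    exact Polynomial.differentiable _
  obtain ⟨R, hR1, hR⟩ := exists_esc ha hn (‖x‖)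
  obtain ⟨k1, k2, k3, k4, k5⟩ := hKO0 (fx a n x) P hfd hP
  obtain ⟨-, -, -, hA0⟩ := hKO1 hKO0 a n P ha hn hP
  obtain ⟨m1, m2⟩ := hKO2 hKO0 hKO1 hKO3 a n P ha hn hP
  obtain ⟨r₁, r₂, -, hKL⟩ := hKO3 hKO0 a n P (‖x‖ + 1) ‖deriv ((fx a n x)^[P]) zs‖
    ‖deriv ((fx a n x)^[P]) zs‖ 1 ha hn hP (by positivity) (norm_pos_iff.2 hl0) hl1 one_pos
  have hxB : x ∈ ball (0 : PE n) (‖x‖ + 1) := by
    rw [mem_ball_zero_iff]
    linarith
  have hLP : ∀ v, Sk (fx a n x) P v zs → LP (fx a n x) P v = deriv ((fx a n x)^[P]) zs := by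
    intro v hv
    unfold LP
    rw [k1 v zs hv]
  have hmem : ∀ v, Sk (fx a n x) P v zs → (x, v) ∈ A0 a n P := by
    intro v hv
    refine ⟨⟨zs, hv⟩, ?_⟩
    show LP (fx a n x) P v ≠ 0
    rw [hLP v hv]
    exact hl0
  refine kbp_core hROOT (fx a n x) P hfd R hR1 (fun z hz => hR x le_rfl z hz)
    (KP (fx a n x) P) zs (deriv ((fx a n x)^[P]) zs) hfix hl0 hl1 ?_ r₁ r₂ hKL.r1 hKL.r2
    (fun z hz => (hKL.att x hxB zs hfix le_rfl le_rfl z hz).1)
    (hKL.zero x hxB zs hfix le_rfl le_rfl) (hKL.close x hxB zs hfix le_rfl le_rfl)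
    (hKL.onto x hxB zs hfix le_rfl le_rfl) ?_ A hA hcrit u hu
  · intro v hv
    have h1 := (m2 x v (hmem v hv)).2.2.2.2
    rw [hLP v hv] at h1
    exact h1
  · intro z hz
    have h1 := hmem z (hKL.att x hxB zs hfix le_rfl le_rfl z hz).1
    have h2 : DifferentiableAt ℂ (fun y : PE n × ℂ => KP (fx a n y.1) P y.2) (x, z) :=
      m1.differentiableAt (hA0.mem_nhds h1)
    have h3 : DifferentiableAt ℂ (fun z : ℂ => ((x, z) : PE n × ℂ)) z := by fun_prop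
    exact h2.comp z h3

end Pool.Agent.H713R5.QJ
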