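import Mathlib
import Pool.Agent.H713R5.QJ.Defs1

/-! Task KO0: elementary facts on attracted points. -/

set_option autoImplicit false

open Topology Filter Metric Set Polynomial MeasureTheory
open Pool.Agent.H713R3.ZA

namespace Pool.Agent.H713R5.QJ

namespace KO0

theorem comm_f (f : ℂ → ℂ) (P : ℕ) (z : ℂ) : f^[P] (f z) = f (f^[P] z) := by
  rw [← Function.iterate_succ_apply, Function.iterate_succ_apply']

theorem deriv_f (f : ℂ → ℂ) (P : ℕ) (hf : Differentiable ℂ f) (hP : 0 < P) (z : ℂ)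
    (hz : f^[P] z = z) : deriv (f^[P]) (f z) = deriv (f^[P]) z := by
  obtain ⟨m, rfl⟩ : ∃ m, P = m + 1 := ⟨P - 1, by omega⟩
  have hm : Differentiable ℂ (f^[m]) := hf.iterate m
  have h1 : deriv (f^[m + 1]) (f z) = deriv f (f^[m] (f z)) * deriv (f^[m]) (f z) := by
    rw [Function.iterate_succ', deriv_comp _ (hf _) (hm _)]
  have h2 : deriv (f^[m + 1]) z = deriv (f^[m]) (f z) * deriv f z := by
    rw [Function.iterate_succ, deriv_comp _ (hm _) (hf _)]
  have h3 : f^[m] (f z) = z := by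
    rw [← Function.iterate_succ_apply]
    exact hz
  rw [h1, h2, h3, mul_comm]

theorem fix_iter (f : ℂ → ℂ) (P : ℕ) (z : ℂ) (hz : f^[P] z = z) (m : ℕ) :
    f^[P] (f^[m] z) = f^[m] z := by
  induction m with
  | zero => exact hz
  | succ m ih => rw [Function.iterate_succ_apply', comm_f, ih]

theorem deriv_iter (f : ℂ → ℂ) (P : ℕ) (hf : Differentiable ℂ f) (hP : 0 < P) (z : ℂ)
    (hz : f^[P] z = z) (m : ℕ) : deriv (f^[P]) (f^[m] z) = deriv (f^[P]) z := by
  induction m with
  | zero => rfl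
  | succ m ih =>
    rw [Function.iterate_succ_apply', deriv_f f P hf hP _ (fix_iter f P z hz m), ih]

theorem sk_f (f : ℂ → ℂ) (P : ℕ) (hf : Differentiable ℂ f) (hP : 0 < P) (u z : ℂ)
    (h : Sk f P u z) : Sk f P (f u) (f z) := by
  obtain ⟨h1, h2, h3⟩ := h
  refine ⟨?_, ?_, ?_⟩
  · rw [comm_f, h1]
  · rw [deriv_f f P hf hP z h1]
    exact h2
  · have h4 := (hf.continuous.tendsto z).comp h3
    refine h4.congr ?_
    intro k
    exact (comm_f f (P * k) u).symm

theorem sk_back (f : ℂ → ℂ) (P : ℕ) (hf : Differentiable ℂ f) (hP : 0 < P) (u z : ℂ)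
    (h : Sk f P (f u) z) : Sk f P u (f^[P - 1] z) := by
  obtain ⟨h1, h2, h3⟩ := h
  refine ⟨fix_iter f P z h1 _, ?_, ?_⟩
  · rw [deriv_iter f P hf hP z h1]
    exact h2
  · have hc : Continuous (f^[P - 1]) := hf.continuous.iterate _
    have h4 := (hc.tendsto z).comp h3
    rw [← tendsto_add_atTop_iff_nat 1]
    refine h4.congr ?_
    intro k
    change f^[P - 1] (f^[P * k] (f u)) = f^[P * (k + 1)] u
    rw [← Function.iterate_succ_apply, ← Function.iterate_add_apply]
    congr 1
    have : P - 1 + (P * k).succ = P * (k + 1) := by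
      rw [Nat.mul_succ]
      omega
    rw [this]

end KO0

open KO0 in
theorem ko0_holds : StKO0 := by
  intro f P hf hP
  have hSP : ∀ u z : ℂ, Sk f P u z → SP f P u = z := fun u z h => h.2.2.limUnder_eq
  refine ⟨hSP, ?_, ?_, ?_, ?_⟩
  · rintro u ⟨z, h⟩
    rw [hSP u z h]
    exact h
  · intro u
    constructor
    · rintro ⟨z, h⟩
      exact ⟨_, sk_back f P hf hP u z h⟩
    · rintro ⟨z, h⟩
      exact ⟨_, sk_f f P hf hP u z h⟩
  · rintro u ⟨z, h⟩
    have h1 := hSP u z h
    have h2 := hSP _ _ (sk_f f P hf hP u z h)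
    refine ⟨by rw [h1, h2], ?_⟩
    unfold LP
    rw [h1, h2]
    exact deriv_f f P hf hP z h.1
  · intro z h1 h2
    refine ⟨h1, h2, ?_⟩
    have : (fun k : ℕ => f^[P * k] z) = fun _ => z := by
      funext k
      rw [Function.iterate_mul]
      exact Function.iterate_fixed h1 k
    rw [this]
    exact tendsto_const_nhds

end Pool.Agent.H713R5.QJ
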