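import Mathlib
import Pool.Agent.H713R5.QJ.Defs1

/-! KO1: the set of attracted points is open, the sink and its multiplier are holomorphic. -/

set_option autoImplicit false

open Topology Filter Metric Set Polynomial MeasureTheory
open Pool.Agent.H713R3.ZA

namespace Pool.Agent.H713R5.QJ

namespace KO1

/-- a persistent sink -/
theorem loc_sink {V : Type} [NormedAddCommGroup V] [NormedSpace ℂ V] [CompleteSpace V]
    (F : V → ℂ → ℂ) (hF : ContDiff ℂ 1 (fun p : V × ℂ => F p.1 p.2)) (g : V × ℂ → ℂ)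
    (hg : Continuous g) (hgd : ∀ x z, HasDerivAt (F x) (g (x, z)) z) (x₀ : V) (z₀ : ℂ)
    (hfix : F x₀ z₀ = z₀) (hlt : ‖g (x₀, z₀)‖ < 1) :
    ∃ (s : V → ℂ) (r : ℝ), 0 < r ∧ DifferentiableAt ℂ s x₀ ∧ s x₀ = z₀ ∧
      ∀ᶠ x in 𝓝 x₀, F x (s x) = s x ∧ ‖g (x, s x)‖ < 1 ∧
        ∀ z ∈ closedBall z₀ r, Tendsto (fun k : ℕ => (F x)^[k] z) atTop (𝓝 (s x)) := by
  set f : V × ℂ → ℂ := fun p => F p.1 p.2 - p.2 with hf
  have hfc : ContDiff ℂ 1 f := hF.sub contDiff_snd
  have hfa : ContDiffAt ℂ 1 f (x₀, z₀) := hfc.contDiffAt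
  have hf0 : f (x₀, z₀) = 0 := by
    rw [hf]
    simp only
    rw [hfix, sub_self]
  -- the partial derivative
  have hpart : ∀ w : ℂ, (fderiv ℂ f (x₀, z₀) ∘L ContinuousLinearMap.inr ℂ V ℂ) w =
      (g (x₀, z₀) - 1) * w := by
    intro w
    have h1 : HasFDerivAt f (fderiv ℂ f (x₀, z₀)) (x₀, z₀) :=
      (hfc.differentiable (by norm_num)).differentiableAt.hasFDerivAt
    have h2 : HasFDerivAt (fun z : ℂ => ((x₀, z) : V × ℂ)) (ContinuousLinearMap.inr ℂ V ℂ) z₀ :=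
      hasFDerivAt_prodMk_right x₀ z₀
    have h3 : HasFDerivAt (fun z : ℂ => f (x₀, z))
        (fderiv ℂ f (x₀, z₀) ∘L ContinuousLinearMap.inr ℂ V ℂ) z₀ :=
      HasFDerivAt.comp z₀ h1 h2
    have h4 : HasDerivAt (fun z : ℂ => f (x₀, z)) (g (x₀, z₀) - 1) z₀ :=
      (hgd x₀ z₀).sub (hasDerivAt_id z₀)
    have h5 := h3.unique h4.hasFDerivAt
    rw [h5]
    simp [mul_comm]
  have hne : g (x₀, z₀) - 1 ≠ 0 := by
    intro h
    have h1 : g (x₀, z₀) = 1 := sub_eq_zero.mp h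
    rw [h1, norm_one] at hlt
    exact lt_irrefl _ hlt
  have hinv : (fderiv ℂ f (x₀, z₀) ∘L ContinuousLinearMap.inr ℂ V ℂ).IsInvertible := by
    refine ⟨ContinuousLinearEquiv.unitsEquivAut ℂ (Units.mk0 _ hne), ?_⟩
    ext
    rw [hpart]
    simp
  set s : V → ℂ := hfa.implicitFunction one_ne_zero hinv with hs
  have hs0 : s x₀ = z₀ := hfa.implicitFunction_apply_self one_ne_zero hinv
  have hsd : DifferentiableAt ℂ s x₀ :=
    (hfa.hasStrictFDerivAt_implicitFunction one_ne_zero hinv).hasFDerivAt.differentiableAt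
  have hse : ∀ᶠ x in 𝓝 x₀, F x (s x) = s x := by
    have h1 := hfa.eventually_apply_implicitFunction one_ne_zero hinv
    filter_upwards [h1] with x hx
    rw [hf0] at hx
    exact sub_eq_zero.mp hx
  obtain ⟨θ, hθ1, hθ2⟩ := exists_between hlt
  have hθ0 : 0 ≤ θ := (norm_nonneg _).trans hθ1.le
  have hev : ∀ᶠ p in 𝓝 (x₀, z₀), ‖g p‖ < θ :=
    (hg.norm.tendsto (x₀, z₀)).eventually (gt_mem_nhds hθ1)
  obtain ⟨δ, hδ, hδg⟩ := Metric.eventually_nhds_iff_ball.mp hev
  have hsc : ∀ᶠ x in 𝓝 x₀, s x ∈ ball z₀ (δ / 4) := by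
    have h1 : Tendsto s (𝓝 x₀) (𝓝 z₀) := by
      have := hsd.continuousAt.tendsto
      rwa [hs0] at this
    exact h1.eventually (ball_mem_nhds z₀ (by positivity))
  refine ⟨s, δ / 4, by positivity, hsd, hs0, ?_⟩
  filter_upwards [hse, hsc, ball_mem_nhds x₀ hδ] with x hx1 hx2 hx3
  have hgle : ∀ z ∈ ball z₀ δ, ‖g (x, z)‖ < θ := by
    intro z hz
    apply hδg
    rw [← ball_prod_same]
    exact ⟨hx3, hz⟩
  have hsb : s x ∈ ball z₀ δ := ball_subset_ball (by linarith) hx2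
  refine ⟨hx1, (hgle _ hsb).trans hθ2, fun z hz => ?_⟩
  have hlip : ∀ w ∈ ball z₀ δ, ‖F x w - s x‖ ≤ θ * ‖w - s x‖ := by
    intro w hw
    have h1 := Convex.norm_image_sub_le_of_norm_hasDerivWithin_le (𝕜 := ℂ) (f := F x)
      (f' := fun z => g (x, z)) (s := ball z₀ δ) (x := s x) (y := w) (C := θ)
      (fun y _ => (hgd x y).hasDerivWithinAt) (fun y hy => (hgle y hy).le)
      (convex_ball _ _) hsb hw
    rwa [hx1] at h1
  have hz1 : ‖z - s x‖ ≤ δ / 2 := by
    have h1 : ‖z - z₀‖ ≤ δ / 4 := by rwa [← dist_eq_norm]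
    have h2 : ‖s x - z₀‖ < δ / 4 := by rwa [← dist_eq_norm]
    have h3 : z - s x = (z - z₀) - (s x - z₀) := by ring
    rw [h3]
    have h4 := norm_sub_le (z - z₀) (s x - z₀)
    linarith
  have hin : ∀ w : ℂ, ‖w - s x‖ ≤ δ / 2 → w ∈ ball z₀ δ := by
    intro w hw
    rw [mem_ball, dist_eq_norm]
    have h2 : ‖s x - z₀‖ < δ / 4 := by rwa [← dist_eq_norm]
    have h3 : w - z₀ = (w - s x) + (s x - z₀) := by ring
    rw [h3]
    have h4 := norm_add_le (w - s x) (s x - z₀)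
    linarith
  have hk : ∀ k : ℕ, ‖(F x)^[k] z - s x‖ ≤ θ ^ k * (δ / 2) := by
    intro k
    induction k with
    | zero => simpa using hz1
    | succ k ih =>
      rw [Function.iterate_succ_apply']
      have h1 : ‖(F x)^[k] z - s x‖ ≤ δ / 2 := by
        refine ih.trans ?_
        have h2 : θ ^ k ≤ 1 := pow_le_one₀ hθ0 hθ2.le
        have h3 : 0 ≤ δ / 2 := by positivity
        nlinarith
      have h2 := hlip _ (hin _ h1)
      refine h2.trans ?_
      calc θ * ‖(F x)^[k] z - s x‖ ≤ θ * (θ ^ k * (δ / 2)) := by gcongr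
        _ = θ ^ (k + 1) * (δ / 2) := by ring
  rw [tendsto_iff_norm_sub_tendsto_zero]
  have h5 : Tendsto (fun k : ℕ => θ ^ k * (δ / 2)) atTop (𝓝 0) := by
    have := (tendsto_pow_atTop_nhds_zero_of_lt_one hθ0 hθ2).mul_const (δ / 2)
    rwa [zero_mul] at this
  exact squeeze_zero (fun k => norm_nonneg _) hk h5

/-- the derivative of the iterate -/
noncomputable def gg (a : ℂ) (n P : ℕ) (p : PE n × ℂ) : ℂ :=
  ∏ k ∈ Finset.range P, (dfam a n p.1).eval ((fx a n p.1)^[k] p.2)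

theorem contDiff_gg (a : ℂ) (n P : ℕ) : ContDiff ℂ 1 (gg a n P) := by
  unfold gg
  refine contDiff_prod fun k _ => ?_
  have h1 : ContDiff ℂ 1 (fun q : PE n × ℂ => (dfam a n q.1).eval q.2) :=
    (pfe_dfam a n).eval (N := n + 1) (fun x => by have := dfam_deg_le a n x; omega)
  exact h1.comp (contDiff_fst.prodMk (contDiff_fx a n k))

theorem hasDeriv_gg (a : ℂ) (n P : ℕ) (x : PE n) (z : ℂ) :
    HasDerivAt ((fx a n x)^[P]) (gg a n P (x, z)) z := by
  induction P with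
  | zero =>
    have h1 : gg a n 0 (x, z) = 1 := by simp [gg]
    rw [h1]
    exact hasDerivAt_id z
  | succ P ih =>
    have h1 : gg a n (P + 1) (x, z) =
        (dfam a n x).eval ((fx a n x)^[P] z) * gg a n P (x, z) := by
      unfold gg
      rw [Finset.prod_range_succ, mul_comm]
    rw [h1, Function.iterate_succ']
    have h2 : HasDerivAt (fx a n x) ((dfam a n x).eval ((fx a n x)^[P] z)) ((fx a n x)^[P] z) := by
      rw [← derivative_fam]
      exact (fam a n x).hasDerivAt _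
    exact HasDerivAt.comp z h2 ih

theorem main (hKO0 : StKO0) (a : ℂ) (n P : ℕ) (hP : 0 < P) (y₀ : PE n × ℂ)
    (hy₀ : AT (fx a n y₀.1) P y₀.2) :
    (∀ᶠ y in 𝓝 y₀, AT (fx a n y.1) P y.2) ∧
    DifferentiableAt ℂ (fun y : PE n × ℂ => SP (fx a n y.1) P y.2) y₀ := by
  obtain ⟨x₀, u₀⟩ := y₀
  obtain ⟨z₀, hfix, hlt, hconv⟩ := hy₀
  simp only at hfix hlt hconv
  rw [(hasDeriv_gg a n P x₀ z₀).deriv] at hlt
  obtain ⟨s, r, hr, hsd, hs0, hev⟩ := loc_sink (fun x => (fx a n x)^[P]) (contDiff_fx a n P)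
    (gg a n P) (contDiff_gg a n P).continuous (hasDeriv_gg a n P) x₀ z₀ hfix hlt
  -- entrance into the disc
  have hent : ∃ K : ℕ, (fx a n x₀)^[P * K] u₀ ∈ ball z₀ r :=
    (hconv.eventually (ball_mem_nhds z₀ hr)).exists
  obtain ⟨K, hK⟩ := hent
  have hcont : Continuous (fun p : PE n × ℂ => (fx a n p.1)^[P * K] p.2) :=
    (contDiff_fx a n (P * K)).continuous
  have hev2 : ∀ᶠ y in 𝓝 ((x₀, u₀) : PE n × ℂ), (fx a n y.1)^[P * K] y.2 ∈ ball z₀ r :=
    (hcont.tendsto (x₀, u₀)).eventually (isOpen_ball.mem_nhds hK)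
  have hfst : Tendsto (fun y : PE n × ℂ => y.1) (𝓝 (x₀, u₀)) (𝓝 x₀) :=
    continuous_fst.tendsto (x₀, u₀)
  have hSk : ∀ᶠ y in 𝓝 ((x₀, u₀) : PE n × ℂ), Sk (fx a n y.1) P y.2 (s y.1) := by
    filter_upwards [hfst.eventually hev, hev2] with y hy1 hy2
    obtain ⟨h1, h2, h3⟩ := hy1
    refine ⟨h1, ?_, ?_⟩
    · rw [(hasDeriv_gg a n P y.1 (s y.1)).deriv]
      exact h2
    · have h4 := h3 _ (ball_subset_closedBall hy2)
      have h5 : (fun k : ℕ => ((fx a n y.1)^[P])^[k] ((fx a n y.1)^[P * K] y.2)) =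
          fun k : ℕ => (fx a n y.1)^[P * (k + K)] y.2 := by
        funext k
        rw [← Function.iterate_mul, ← Function.iterate_add_apply]
        congr 2
        ring
      rw [h5] at h4
      exact (tendsto_add_atTop_iff_nat (f := fun k : ℕ => (fx a n y.1)^[P * k] y.2) K).mp h4
  refine ⟨?_, ?_⟩
  · filter_upwards [hSk] with y hy
    exact ⟨_, hy⟩
  · have h1 : DifferentiableAt ℂ (fun y : PE n × ℂ => s y.1) (x₀, u₀) :=
      DifferentiableAt.comp (x₀, u₀) hsd differentiableAt_fst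
    refine h1.congr_of_eventuallyEq ?_
    filter_upwards [hSk] with y hy
    have hd : Differentiable ℂ (fx a n y.1) := (fam a n y.1).differentiable
    exact (hKO0 (fx a n y.1) P hd hP).1 _ _ hy

end KO1

open KO1

theorem ko1_holds : StKO1 := by
  intro hKO0 a n P _ _ hP
  have hopen : IsOpen {y : PE n × ℂ | AT (fx a n y.1) P y.2} := by
    rw [isOpen_iff_mem_nhds]
    intro y hy
    exact (main hKO0 a n P hP y hy).1
  have hSP : ∀ y ∈ {y : PE n × ℂ | AT (fx a n y.1) P y.2},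
      DifferentiableAt ℂ (fun y : PE n × ℂ => SP (fx a n y.1) P y.2) y :=
    fun y hy => (main hKO0 a n P hP y hy).2
  have hLP : ∀ y ∈ {y : PE n × ℂ | AT (fx a n y.1) P y.2},
      DifferentiableAt ℂ (fun y : PE n × ℂ => LP (fx a n y.1) P y.2) y := by
    intro y hy
    have h1 : (fun y : PE n × ℂ => LP (fx a n y.1) P y.2) =
        fun y : PE n × ℂ => gg a n P (y.1, SP (fx a n y.1) P y.2) := by
      funext y
      unfold LP
      exact (hasDeriv_gg a n P y.1 _).deriv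
    rw [h1]
    have h2 : DifferentiableAt ℂ (fun y : PE n × ℂ => ((y.1, SP (fx a n y.1) P y.2) : PE n × ℂ))
        y := differentiableAt_fst.prodMk (hSP y hy)
    have h3 : DifferentiableAt ℂ (gg a n P) (y.1, SP (fx a n y.1) P y.2) :=
      ((contDiff_gg a n P).differentiable (by norm_num)).differentiableAt
    exact DifferentiableAt.comp (g := gg a n P) y h3 h2
  refine ⟨hopen, fun y hy => (hSP y hy).differentiableWithinAt,
    fun y hy => (hLP y hy).differentiableWithinAt, ?_⟩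
  have hc : ContinuousOn (fun y : PE n × ℂ => LP (fx a n y.1) P y.2)
      {y : PE n × ℂ | AT (fx a n y.1) P y.2} :=
    fun y hy => (hLP y hy).continuousAt.continuousWithinAt
  exact hc.isOpen_inter_preimage hopen isOpen_ne

end Pool.Agent.H713R5.QJ
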