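import Mathlib
import Pool.Agent.H713R5.QJ.Defs1
import Pool.Agent.Helper540.Holo

set_option autoImplicit false

open Topology Filter Metric Set Polynomial MeasureTheory
open Pool.Agent.H713R3.ZA

namespace Pool.Agent.H713R5.QJ

namespace KO2aux

/-- the constant `theta` -/
theorem theta_facts {L : ℝ} (h0 : 0 < L) (h1 : L < 1) :
    L < L * (3 - L) / 2 ∧ (L * (3 - L) / 2) ^ 2 < L ∧ L * (3 - L) / 2 < 1 := by
  have a1 : L < L * (3 - L) / 2 := by nlinarith
  have a2 : (L * (3 - L) / 2) ^ 2 < L := by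
    have h2 : 0 < (1 - L) ^ 2 * (4 - L) := by
      have : 0 < 1 - L := by linarith
      have : 0 < 4 - L := by linarith
      positivity
    have h3 : 0 < L * ((1 - L) ^ 2 * (4 - L)) := mul_pos h0 h2
    nlinarith
  refine ⟨a1, a2, ?_⟩
  have h4 : 0 < L * (3 - L) / 2 := by linarith
  nlinarith

theorem geo_id {M r θ l0 : ℝ} (h : l0 ≠ 0) (N j : ℕ) :
    4 * M * r ^ 2 / l0 ^ (N + 1) * (θ ^ 2 / l0) ^ j =
      4 * M * (θ ^ j * r) ^ 2 / l0 ^ (N + j + 1) := by
  have h1 : l0 ^ (N + j + 1) = l0 ^ (N + 1) * l0 ^ j := by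
    rw [← pow_add]; congr 1; ring
  have h2 : (θ ^ 2 / l0) ^ j = (θ ^ j) ^ 2 / l0 ^ j := by
    rw [div_pow, ← pow_mul, ← pow_mul, mul_comm 2 j]
  rw [h1, h2]
  field_simp

/-- second order estimate -/
theorem taylor {F : ℂ → ℂ} (hF : Differentiable ℂ F) {s : ℂ} {M : ℝ}
    (hM : ∀ z ∈ ball s 1, ‖F z‖ ≤ M) {z : ℂ} (hz : z ∈ ball s 1) :
    ‖F z - F s - deriv F s * (z - s)‖ ≤ 4 * M * ‖z - s‖ ^ 2 := by
  have h1 := Pool.Agent.Helper540.norm_sub_sub_fderiv_le (f := F) (c := s) (R := 1) (M := M)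
    one_pos hF.differentiableOn hM hz
  rw [div_one] at h1
  have h2 : (fderiv ℂ F s) (z - s) = deriv F s * (z - s) := by
    rw [fderiv_eq_smul_deriv, smul_eq_mul, mul_comm]
  rw [h2] at h1
  exact h1

variable {E : Type} [NormedAddCommGroup E] [NormedSpace ℂ E] [ProperSpace E]

/-- The local uniform convergence of the Koenigs sequence. -/
theorem loc (Fm : E → ℂ → ℂ) (hFi : ∀ k : ℕ, Continuous fun p : E × ℂ => (Fm p.1)^[k] p.2)
    (hFd : ∀ x, Differentiable ℂ (Fm x)) {A : Set (E × ℂ)} (hA : IsOpen A) (s l : E × ℂ → ℂ)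
    (hs : ContinuousOn s A) (hl : ContinuousOn l A)
    (hfix : ∀ y ∈ A, Fm y.1 (s y) = s y) (hder : ∀ y ∈ A, deriv (Fm y.1) (s y) = l y)
    (hl0 : ∀ y ∈ A, l y ≠ 0) (hl1 : ∀ y ∈ A, ‖l y‖ < 1)
    (hlim : ∀ y ∈ A, Tendsto (fun k : ℕ => (Fm y.1)^[k] y.2) atTop (𝓝 (s y))) {y₀ : E × ℂ}
    (hy₀ : y₀ ∈ A) : ∃ R > 0, ∃ (N : ℕ) (g : E × ℂ → ℂ), ball y₀ R ⊆ A ∧
      TendstoUniformlyOn (fun (j : ℕ) (y : E × ℂ) =>
        ((Fm y.1)^[N + j] y.2 - s y) / (l y) ^ (N + j)) g atTop (ball y₀ R) := by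
  set L := ‖l y₀‖ with hL
  have hL0 : 0 < L := norm_pos_iff.2 (hl0 y₀ hy₀)
  have hL1 : L < 1 := hl1 y₀ hy₀
  obtain ⟨t1, t2, t3⟩ := theta_facts hL0 hL1
  set θ := L * (3 - L) / 2 with hθ
  have hθ0 : 0 < θ := hL0.trans t1
  set l0 := (θ ^ 2 + L) / 2 with hl0'
  set l1 := (L + θ) / 2 with hl1'
  have hl0pos : 0 < l0 := by positivity
  -- bound for `Fm`
  have hFc : Continuous fun p : E × ℂ => Fm p.1 p.2 := by simpa using hFi 1
  obtain ⟨M', hM'⟩ := ((isCompact_closedBall y₀.1 1).prod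
    (isCompact_closedBall (s y₀) 2)).exists_bound_of_continuousOn hFc.continuousOn
  set M := max M' 0 with hM
  have hM0 : 0 ≤ M := le_max_right _ _
  have hMb : ∀ x ∈ closedBall y₀.1 1, ∀ z ∈ closedBall (s y₀) 2, ‖Fm x z‖ ≤ M :=
    fun x hx z hz => (hM' (x, z) ⟨hx, hz⟩).trans (le_max_left _ _)
  have hθl1 : 0 < θ - l1 := by rw [hl1']; linarith
  set r := min (1 / 2) ((θ - l1) / (4 * M + 1)) with hr
  have hr0 : 0 < r := lt_min (by norm_num) (by positivity)
  have hr1 : r ≤ 1 / 2 := min_le_left _ _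
  have hr2 : 4 * M * r ≤ θ - l1 := by
    have h1 : r ≤ (θ - l1) / (4 * M + 1) := min_le_right _ _
    rw [le_div_iff₀ (by positivity)] at h1
    nlinarith
  -- the time `N`
  obtain ⟨N, hN⟩ : ∃ N : ℕ, ‖(Fm y₀.1)^[N] y₀.2 - s y₀‖ < r := by
    have h1 := Metric.tendsto_atTop.1 (hlim y₀ hy₀) r hr0
    obtain ⟨N, hN⟩ := h1
    refine ⟨N, ?_⟩
    have := hN N le_rfl
    rwa [dist_eq_norm] at this
  have hsa : ContinuousAt s y₀ := hs.continuousAt (hA.mem_nhds hy₀)
  have hla : ContinuousAt l y₀ := hl.continuousAt (hA.mem_nhds hy₀)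
  have ev1 : ∀ᶠ y in 𝓝 y₀, y ∈ A := hA.mem_nhds hy₀
  have ev2 : ∀ᶠ y in 𝓝 y₀, y ∈ ball y₀ 1 := ball_mem_nhds _ one_pos
  have ev3 : ∀ᶠ y in 𝓝 y₀, s y ∈ ball (s y₀) 1 := hsa.eventually (ball_mem_nhds _ one_pos)
  have ev4 : ∀ᶠ y in 𝓝 y₀, l0 < ‖l y‖ := by
    refine hla.norm.eventually (lt_mem_nhds ?_)
    show l0 < L
    rw [hl0']
    linarith
  have ev5 : ∀ᶠ y in 𝓝 y₀, ‖l y‖ < l1 := by
    refine hla.norm.eventually (gt_mem_nhds ?_)
    show L < l1
    rw [hl1']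
    linarith
  have ev6 : ∀ᶠ y in 𝓝 y₀, ‖(Fm y.1)^[N] y.2 - s y‖ < r :=
    ((hFi N).continuousAt.sub hsa).norm.eventually (gt_mem_nhds hN)
  obtain ⟨R, hR, hball⟩ := Metric.eventually_nhds_iff_ball.1
    (ev1.and (ev2.and (ev3.and (ev4.and (ev5.and ev6)))))
  -- contraction
  have hcon : ∀ y ∈ ball y₀ R, ∀ z : ℂ, ‖z - s y‖ ≤ r →
      ‖Fm y.1 z - s y - l y * (z - s y)‖ ≤ 4 * M * ‖z - s y‖ ^ 2 ∧
      ‖Fm y.1 z - s y‖ ≤ θ * ‖z - s y‖ := by
    intro y hy z hz
    obtain ⟨e1, e2, e3, e4, e5, e6⟩ := hball y hy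
    have hyx : y.1 ∈ closedBall y₀.1 1 := by
      rw [mem_closedBall]
      rw [mem_ball, Prod.dist_eq] at e2
      exact (le_max_left _ _).trans e2.le
    have hzb : z ∈ ball (s y) 1 := by
      rw [mem_ball, dist_eq_norm]
      linarith
    have b1 := taylor (hFd y.1) (s := s y) (M := M) (fun w hw => hMb _ hyx _ ?_) hzb
    · rw [hfix y e1, hder y e1] at b1
      refine ⟨b1, ?_⟩
      have b2 : ‖Fm y.1 z - s y‖ ≤ ‖l y * (z - s y)‖ + 4 * M * ‖z - s y‖ ^ 2 := by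
        have e7 : Fm y.1 z - s y = l y * (z - s y) + (Fm y.1 z - s y - l y * (z - s y)) := by ring
        calc ‖Fm y.1 z - s y‖ = ‖l y * (z - s y) + (Fm y.1 z - s y - l y * (z - s y))‖ := by
              rw [← e7]
          _ ≤ ‖l y * (z - s y)‖ + ‖Fm y.1 z - s y - l y * (z - s y)‖ := norm_add_le _ _
          _ ≤ _ := by linarith
      rw [norm_mul] at b2
      have b3 : 0 ≤ ‖z - s y‖ := norm_nonneg _
      have b4 : 4 * M * ‖z - s y‖ ≤ θ - l1 := by
        have : 4 * M * ‖z - s y‖ ≤ 4 * M * r := mul_le_mul_of_nonneg_left hz (by positivity)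
        linarith
      have b5 : 4 * M * ‖z - s y‖ ^ 2 ≤ (θ - l1) * ‖z - s y‖ := by
        have := mul_le_mul_of_nonneg_right b4 b3
        calc 4 * M * ‖z - s y‖ ^ 2 = 4 * M * ‖z - s y‖ * ‖z - s y‖ := by ring
          _ ≤ _ := this
      have b6 : ‖l y‖ * ‖z - s y‖ ≤ l1 * ‖z - s y‖ := mul_le_mul_of_nonneg_right e5.le b3
      linarith
    · rw [mem_closedBall]
      rw [mem_ball] at hw e3
      have := dist_triangle w (s y) (s y₀)
      linarith
  -- decay
  have hdec : ∀ y ∈ ball y₀ R, ∀ j : ℕ, ‖(Fm y.1)^[N + j] y.2 - s y‖ ≤ θ ^ j * r := by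
    intro y hy j
    induction j with
    | zero =>
      obtain ⟨e1, e2, e3, e4, e5, e6⟩ := hball y hy
      rw [pow_zero, one_mul, add_zero]
      exact e6.le
    | succ j ih =>
      have c1 : ‖(Fm y.1)^[N + j] y.2 - s y‖ ≤ r := by
        refine ih.trans ?_
        have : θ ^ j ≤ 1 := pow_le_one₀ hθ0.le t3.le
        nlinarith
      have c2 := (hcon y hy _ c1).2
      rw [← add_assoc, Function.iterate_succ_apply', pow_succ]
      refine c2.trans ?_
      have := mul_le_mul_of_nonneg_left ih hθ0.le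
      linarith
  -- differences
  set κ : ℕ → E × ℂ → ℂ := fun j y => ((Fm y.1)^[N + j] y.2 - s y) / (l y) ^ (N + j) with hκ
  set ρ := θ ^ 2 / l0 with hρ
  have hρ0 : 0 ≤ ρ := by positivity
  have hρ1 : ρ < 1 := by
    rw [hρ, div_lt_one hl0pos, hl0']
    linarith
  set C := 4 * M * r ^ 2 / l0 ^ (N + 1) with hC
  have hdiff : ∀ (j : ℕ) (y : E × ℂ), y ∈ ball y₀ R → ‖κ (j + 1) y - κ j y‖ ≤ C * ρ ^ j := by
    intro j y hy
    obtain ⟨e1, e2, e3, e4, e5, e6⟩ := hball y hy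
    have hly : l y ≠ 0 := hl0 y e1
    have d1 := hdec y hy j
    have c1 : ‖(Fm y.1)^[N + j] y.2 - s y‖ ≤ r := by
      refine d1.trans ?_
      have : θ ^ j ≤ 1 := pow_le_one₀ hθ0.le t3.le
      nlinarith
    have c2 := (hcon y hy _ c1).1
    have d2 : κ (j + 1) y - κ j y = (Fm y.1 ((Fm y.1)^[N + j] y.2) - s y -
        l y * ((Fm y.1)^[N + j] y.2 - s y)) / (l y) ^ (N + j + 1) := by
      simp only [hκ]
      rw [← add_assoc, Function.iterate_succ_apply', pow_succ]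
      field_simp
    rw [d2, norm_div, norm_pow]
    have d3 : 4 * M * ‖(Fm y.1)^[N + j] y.2 - s y‖ ^ 2 ≤ 4 * M * (θ ^ j * r) ^ 2 := by
      gcongr
    have d4 : C * ρ ^ j = 4 * M * (θ ^ j * r) ^ 2 / l0 ^ (N + j + 1) := by
      exact geo_id hl0pos.ne' N j
    rw [d4]
    refine div_le_div₀ (by positivity) (c2.trans d3) (by positivity) ?_
    exact pow_le_pow_left₀ hl0pos.le e4.le _
  have hsum : Summable fun j : ℕ => C * ρ ^ j := (summable_geometric_of_lt_one hρ0 hρ1).mul_left C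
  have hunif := tendstoUniformlyOn_tsum_nat (f := fun j y => κ (j + 1) y - κ j y) hsum
    (s := ball y₀ R) hdiff
  refine ⟨R, hR, N, fun y => κ 0 y + ∑' j, (κ (j + 1) y - κ j y), fun y hy => (hball y hy).1, ?_⟩
  rw [Metric.tendstoUniformlyOn_iff] at hunif ⊢
  intro ε hε
  filter_upwards [hunif ε hε] with J hJ y hy
  have h1 := hJ y hy
  rw [Finset.sum_range_sub (fun j => κ j y)] at h1
  rw [dist_eq_norm] at h1 ⊢
  have e1 : κ 0 y + ∑' j, (κ (j + 1) y - κ j y) -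
      ((Fm y.1)^[N + J] y.2 - s y) / (l y) ^ (N + J) =
      ∑' j, (κ (j + 1) y - κ j y) - (κ J y - κ 0 y) := by
    simp only [hκ]
    ring
  rw [e1]
  exact h1

end KO2aux

open KO2aux in
theorem ko2_holds : StKO2 := by
  intro h0 h1 _ a n P ha hn hP
  obtain ⟨o1, o2, o3, o4⟩ := h1 h0 a n P ha hn hP
  have hfd : ∀ x : PE n, Differentiable ℂ (fx a n x) := fun x => (fam a n x).differentiable
  -- the data
  set A := A0 a n P with hA
  have hsub : A ⊆ {y : PE n × ℂ | AT (fx a n y.1) P y.2} := fun y hy => hy.1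
  set s : PE n × ℂ → ℂ := fun y => SP (fx a n y.1) P y.2 with hs
  set l : PE n × ℂ → ℂ := fun y => LP (fx a n y.1) P y.2 with hl
  set Fm : PE n → ℂ → ℂ := fun x => (fx a n x)^[P] with hFm
  have hsk : ∀ y ∈ A, Sk (fx a n y.1) P y.2 (s y) := fun y hy =>
    (h0 (fx a n y.1) P (hfd y.1) hP).2.1 y.2 hy.1
  have hit : ∀ (x : PE n) (k : ℕ), (Fm x)^[k] = (fx a n x)^[P * k] := fun x k =>
    (Function.iterate_mul _ _ _).symm
  have hjoint : ∀ k : ℕ, ContDiff ℂ 1 fun p : PE n × ℂ => (Fm p.1)^[k] p.2 := by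
    intro k
    have h2 : (fun p : PE n × ℂ => (Fm p.1)^[k] p.2) = fun p => (fx a n p.1)^[P * k] p.2 := by
      funext p
      rw [hit]
    rw [h2]
    exact contDiff_fx a n (P * k)
  have hFd : ∀ x, Differentiable ℂ (Fm x) := fun x => (hfd x).iterate P
  have hlim : ∀ y ∈ A, Tendsto (fun k : ℕ => (Fm y.1)^[k] y.2) atTop (𝓝 (s y)) := by
    intro y hy
    have := (hsk y hy).2.2
    simpa only [hit] using this
  have hloc : ∀ y₀ ∈ A, ∃ R > 0, ∃ (N : ℕ) (g : PE n × ℂ → ℂ), ball y₀ R ⊆ A ∧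
      TendstoUniformlyOn (fun (j : ℕ) (y : PE n × ℂ) =>
        ((Fm y.1)^[N + j] y.2 - s y) / (l y) ^ (N + j)) g atTop (ball y₀ R) := fun y₀ hy₀ =>
    loc Fm (fun k => (hjoint k).continuous) hFd o4 s l (o2.continuousOn.mono hsub)
      (o3.continuousOn.mono hsub) (fun y hy => (hsk y hy).1) (fun y hy => rfl)
      (fun y hy => hy.2) (fun y hy => (hsk y hy).2.1) hlim hy₀
  -- pointwise limits
  have hpt0 : ∀ y ∈ A, ∃ w : ℂ, Tendsto (fun k : ℕ => ((Fm y.1)^[k] y.2 - s y) / (l y) ^ k)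
      atTop (𝓝 w) := by
    intro y hy
    obtain ⟨R, hR, N, g, hRA, hu⟩ := hloc y hy
    refine ⟨g y, ?_⟩
    have h2 := hu.tendsto_at (mem_ball_self hR)
    have h3 : Tendsto (fun k : ℕ => ((Fm y.1)^[k + N] y.2 - s y) / (l y) ^ (k + N))
        atTop (𝓝 (g y)) := by
      refine h2.congr fun k => ?_
      rw [add_comm]
    exact (tendsto_add_atTop_iff_nat (f := fun k : ℕ => ((Fm y.1)^[k] y.2 - s y) / (l y) ^ k)
      N).1 h3
  have hpt : ∀ y ∈ A, Tendsto (fun k : ℕ => ((Fm y.1)^[k] y.2 - s y) / (l y) ^ k)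
      atTop (𝓝 (KP (fx a n y.1) P y.2)) := by
    intro y hy
    obtain ⟨w, hw⟩ := hpt0 y hy
    have h2 : KP (fx a n y.1) P y.2 = w := by
      unfold KP
      refine Tendsto.limUnder_eq ?_
      simpa only [hit] using hw
    rw [h2]
    exact hw
  refine ⟨?_, ?_⟩
  · intro y₀ hy₀
    obtain ⟨R, hR, N, g, hRA, hu⟩ := hloc y₀ hy₀
    have hg : DifferentiableOn ℂ g (ball y₀ (R / 2)) := by
      refine Pool.Agent.Helper540.differentiableOn_of_uniform_limit (fun j => ?_) hu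
      have d1 : DifferentiableOn ℂ (fun y : PE n × ℂ => (Fm y.1)^[N + j] y.2) (ball y₀ R) :=
        ((hjoint (N + j)).differentiable one_ne_zero).differentiableOn
      have d2 : DifferentiableOn ℂ s (ball y₀ R) := o2.mono (hRA.trans hsub)
      have d3 : DifferentiableOn ℂ l (ball y₀ R) := o3.mono (hRA.trans hsub)
      simp only [div_eq_mul_inv]
      exact (d1.sub d2).mul ((d3.pow (N + j)).inv fun y hy => pow_ne_zero _ (hRA hy).2)
    have heq : ∀ y ∈ ball y₀ (R / 2), KP (fx a n y.1) P y.2 = g y := by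
      intro y hy
      have hyR : y ∈ ball y₀ R := ball_subset_ball (by linarith) hy
      have h2 := hu.tendsto_at hyR
      have h3 : Tendsto (fun k : ℕ => ((Fm y.1)^[k + N] y.2 - s y) / (l y) ^ (k + N))
          atTop (𝓝 (g y)) := by
        refine h2.congr fun k => ?_
        rw [add_comm]
      have h4 := (tendsto_add_atTop_iff_nat
        (f := fun k : ℕ => ((Fm y.1)^[k] y.2 - s y) / (l y) ^ k) N).1 h3
      exact tendsto_nhds_unique (hpt y (hRA hyR)) h4
    have h5 : DifferentiableAt ℂ g y₀ :=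
      hg.differentiableAt (isOpen_ball.mem_nhds (mem_ball_self (by linarith)))
    refine (h5.congr_of_eventuallyEq ?_).differentiableWithinAt
    filter_upwards [isOpen_ball.mem_nhds (mem_ball_self (x := y₀) (by linarith : 0 < R / 2))]
      with y hy
    exact heq y hy
  · intro x u hxu
    have hf := hfd x
    obtain ⟨q1, q2, q3, q4, q5⟩ := h0 (fx a n x) P hf hP
    have hAT : AT (fx a n x) P u := hxu.1
    have hl0 : LP (fx a n x) P u ≠ 0 := hxu.2
    have hfu : (x, fx a n x u) ∈ A := ⟨(q3 u).2 hAT, by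
      show LP (fx a n x) P (fx a n x u) ≠ 0
      rw [(q4 u hAT).2]
      exact hl0⟩
    have hskx := hsk (x, u) hxu
    have hd0 : deriv (fx a n x) (SP (fx a n x) P u) ≠ 0 := by
      intro hd
      apply hl0
      unfold LP
      obtain ⟨P', rfl⟩ : ∃ P', P = P' + 1 := ⟨P - 1, by omega⟩
      rw [Function.iterate_succ]
      rw [deriv_comp _ ((hf.iterate P').differentiableAt) hf.differentiableAt, hd, mul_zero]
    have hT := hpt (x, u) hxu
    -- iterates
    have hm : ∀ m : ℕ, AT (fx a n x) P ((fx a n x)^[m] u) ∧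
        SP (fx a n x) P ((fx a n x)^[m] u) = (fx a n x)^[m] (SP (fx a n x) P u) ∧
        LP (fx a n x) P ((fx a n x)^[m] u) = LP (fx a n x) P u := by
      intro m
      induction m with
      | zero => exact ⟨hAT, rfl, rfl⟩
      | succ m ih =>
        obtain ⟨i1, i2, i3⟩ := ih
        rw [Function.iterate_succ_apply']
        refine ⟨(q3 _).2 i1, ?_, ?_⟩
        · rw [(q4 _ i1).1, i2, Function.iterate_succ_apply']
        · rw [(q4 _ i1).2, i3]
    refine ⟨?_, hfu, hd0, ?_, ?_⟩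
    · simpa only [hit] using hT
    · have hT2 := hpt (x, fx a n x u) hfu
      have e1 : s (x, fx a n x u) = fx a n x (s (x, u)) := (q4 u hAT).1
      have e2 : l (x, fx a n x u) = l (x, u) := (q4 u hAT).2
      simp only [e1, e2] at hT2
      have hsl : Tendsto (fun k : ℕ => dslope (fx a n x) (s (x, u)) ((Fm x)^[k] u)) atTop
          (𝓝 (deriv (fx a n x) (s (x, u)))) := by
        have c1 : ContinuousAt (dslope (fx a n x) (s (x, u))) (s (x, u)) :=
          continuousAt_dslope_same.2 hf.differentiableAt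
        have c2 := c1.tendsto
        rw [dslope_same] at c2
        exact c2.comp (hlim (x, u) hxu)
      have hT3 := hsl.mul hT
      refine tendsto_nhds_unique hT2 (hT3.congr fun k => ?_)
      have e3 : (Fm x)^[k] (fx a n x u) = fx a n x ((Fm x)^[k] u) := by
        rw [hit, ← Function.iterate_succ_apply, Function.iterate_succ_apply']
      have e4 := sub_smul_dslope (fx a n x) (s (x, u)) ((Fm x)^[k] u)
      rw [smul_eq_mul] at e4
      show dslope (fx a n x) (s (x, u)) ((Fm x)^[k] u) *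
        (((Fm x)^[k] u - s (x, u)) / l (x, u) ^ k) =
        ((Fm x)^[k] (fx a n x u) - fx a n x (s (x, u))) / l (x, u) ^ k
      rw [e3, ← e4]
      ring
    · obtain ⟨i1, i2, i3⟩ := hm P
      have hPu : (x, (fx a n x)^[P] u) ∈ A := ⟨i1, by
        show LP (fx a n x) P ((fx a n x)^[P] u) ≠ 0
        rw [i3]
        exact hl0⟩
      have hT2 := hpt (x, (fx a n x)^[P] u) hPu
      have e1 : s (x, (fx a n x)^[P] u) = s (x, u) := i2.trans hskx.1
      have e2 : l (x, (fx a n x)^[P] u) = l (x, u) := i3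
      simp only [e1, e2] at hT2
      have hT3 := ((tendsto_add_atTop_iff_nat (f := fun k : ℕ => ((Fm x)^[k] u - s (x, u)) /
        (l (x, u)) ^ k) 1).2 hT).const_mul (l (x, u))
      refine tendsto_nhds_unique hT2 (hT3.congr fun k => ?_)
      have e3 : (Fm x)^[k] ((fx a n x)^[P] u) = (Fm x)^[k + 1] u := by
        rw [Function.iterate_succ_apply]
      show l (x, u) * (((Fm x)^[k + 1] u - s (x, u)) / l (x, u) ^ (k + 1)) =
        ((Fm x)^[k] ((fx a n x)^[P] u) - s (x, u)) / l (x, u) ^ k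
      have hlx : l (x, u) ≠ 0 := hl0
      rw [e3, pow_succ]
      field_simp

end Pool.Agent.H713R5.QJ
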