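import Mathlib
import Pool.Agent.H713R5.QJ.Defs1

/-! Task KO3: Koenigs theorem with uniform constants. -/

set_option autoImplicit false

open Topology Filter Metric Set Polynomial MeasureTheory
open Pool.Agent.H713R3.ZA

namespace Pool.Agent.H713R5.QJ

namespace KO3

/-- quadratic remainder -/
theorem quad {F : ℂ → ℂ} (hF : Differentiable ℂ F) {R M : ℝ} (hM : ∀ z : ℂ, ‖z‖ ≤ R + 4 → ‖F z‖ ≤ M)
    {zs : ℂ} (hzs : ‖zs‖ ≤ R) (hM0 : 0 ≤ M) {z z' : ℂ} (hz : z ∈ ball zs 1) (hz' : z' ∈ ball zs 1) :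
    ‖F z - F z' - deriv F zs * (z - z')‖ ≤ M * (‖z - zs‖ + ‖z' - zs‖) * ‖z - z'‖ := by
  have hF1 : Differentiable ℂ (deriv F) :=
    differentiableOn_univ.1 ((differentiableOn_univ.2 hF).deriv isOpen_univ)
  have h1 : ∀ ζ : ℂ, ‖ζ‖ ≤ R + 3 → ‖deriv F ζ‖ ≤ M := by
    intro ζ hζ
    have := Complex.norm_deriv_le_of_forall_mem_sphere_norm_le (c := ζ) (R := 1) (C := M) (f := F)
      one_pos hF.diffContOnCl (fun w hw => by
        apply hM
        rw [mem_sphere, dist_eq_norm] at hw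
        have : ‖w‖ ≤ ‖w - ζ‖ + ‖ζ‖ := by
          have := norm_add_le (w - ζ) ζ
          rwa [sub_add_cancel] at this
        linarith)
    rwa [div_one] at this
  have h2 : ∀ ζ : ℂ, ‖ζ‖ ≤ R + 2 → ‖deriv (deriv F) ζ‖ ≤ M := by
    intro ζ hζ
    have := Complex.norm_deriv_le_of_forall_mem_sphere_norm_le (c := ζ) (R := 1) (C := M)
      (f := deriv F) one_pos hF1.diffContOnCl (fun w hw => by
        apply h1
        rw [mem_sphere, dist_eq_norm] at hw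
        have : ‖w‖ ≤ ‖w - ζ‖ + ‖ζ‖ := by
          have := norm_add_le (w - ζ) ζ
          rwa [sub_add_cancel] at this
        linarith)
    rwa [div_one] at this
  rw [mem_ball, dist_eq_norm] at hz hz'
  obtain ⟨ρ, hρ⟩ : ∃ ρ, ρ = max ‖z - zs‖ ‖z' - zs‖ := ⟨_, rfl⟩
  have hρ1 : ρ < 1 := by rw [hρ]; exact max_lt hz hz'
  have hρ2 : ρ ≤ ‖z - zs‖ + ‖z' - zs‖ := by
    rw [hρ]
    exact max_le (by linarith [norm_nonneg (z' - zs)]) (by linarith [norm_nonneg (z - zs)])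
  have hzρ : z ∈ closedBall zs ρ := by
    rw [mem_closedBall, dist_eq_norm, hρ]; exact le_max_left _ _
  have hzρ' : z' ∈ closedBall zs ρ := by
    rw [mem_closedBall, dist_eq_norm, hρ]; exact le_max_right _ _
  have hρ0 : 0 ≤ ρ := by
    rw [mem_closedBall] at hzρ
    exact dist_nonneg.trans hzρ
  have hin : ∀ ζ ∈ closedBall zs ρ, ‖ζ‖ ≤ R + 2 := by
    intro ζ hζ
    rw [mem_closedBall, dist_eq_norm] at hζ
    have := norm_add_le (ζ - zs) zs
    rw [sub_add_cancel] at this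
    linarith
  have h3 : ∀ ζ ∈ closedBall zs ρ, ‖deriv F ζ - deriv F zs‖ ≤ M * ρ := by
    intro ζ hζ
    have := (convex_closedBall zs ρ).norm_image_sub_le_of_norm_deriv_le (f := deriv F) (C := M)
      (fun x _ => hF1 x) (fun x hx => h2 x (hin x hx)) (mem_closedBall_self hρ0) hζ
    refine this.trans (mul_le_mul_of_nonneg_left ?_ hM0)
    rwa [mem_closedBall, dist_eq_norm] at hζ
  have hG : ∀ ζ : ℂ, HasDerivAt (fun w => F w - deriv F zs * w) (deriv F ζ - deriv F zs) ζ := by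
    intro ζ
    have h4 := (hF ζ).hasDerivAt.sub ((hasDerivAt_id ζ).const_mul (deriv F zs))
    rw [mul_one] at h4
    exact h4
  have h5 := (convex_closedBall zs ρ).norm_image_sub_le_of_norm_hasDerivWithin_le
    (f := fun w => F w - deriv F zs * w) (f' := fun ζ => deriv F ζ - deriv F zs) (C := M * ρ)
    (fun x _ => (hG x).hasDerivWithinAt) h3 hzρ' hzρ
  have h6 : F z - F z' - deriv F zs * (z - z') =
      F z - deriv F zs * z - (F z' - deriv F zs * z') := by ring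
  rw [h6]
  refine h5.trans ?_
  apply mul_le_mul_of_nonneg_right _ (norm_nonneg _)
  exact mul_le_mul_of_nonneg_left hρ2 hM0

/-- data for one map -/
structure DD (F : ℂ → ℂ) (zs L : ℂ) (lam0 kk C r : ℝ) : Prop where
  fix : F zs = zs
  l0 : 0 < lam0
  L0 : lam0 ≤ ‖L‖
  k0 : 0 < kk
  k1 : kk ≤ 1 / 4
  L1 : ‖L‖ ≤ 1 - 2 * kk
  C0 : 0 ≤ C
  r0 : 0 < r
  r1 : r ≤ 1
  s1 : C * r ≤ lam0 * kk / 16
  s2 : C * r ≤ kk / 16
  q : ∀ z ∈ ball zs 1, ∀ z' ∈ ball zs 1,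
    ‖F z - F z' - L * (z - z')‖ ≤ C * (‖z - zs‖ + ‖z' - zs‖) * ‖z - z'‖

section
variable {F : ℂ → ℂ} {zs L : ℂ} {lam0 kk C r : ℝ}

theorem DD.contr (D : DD F zs L lam0 kk C r) {z z' : ℂ} (hz : z ∈ ball zs r) (hz' : z' ∈ ball zs r) :
    ‖F z - F z'‖ ≤ (‖L‖ + 2 * (C * r)) * ‖z - z'‖ := by
  have h1 := D.q z (ball_subset_ball D.r1 hz) z' (ball_subset_ball D.r1 hz')
  rw [mem_ball, dist_eq_norm] at hz hz'
  have h2 : ‖F z - F z'‖ ≤ ‖L * (z - z')‖ + ‖F z - F z' - L * (z - z')‖ := by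
    have := norm_add_le (L * (z - z')) (F z - F z' - L * (z - z'))
    rwa [add_sub_cancel] at this
  rw [norm_mul] at h2
  have h3 : C * (‖z - zs‖ + ‖z' - zs‖) * ‖z - z'‖ ≤ 2 * (C * r) * ‖z - z'‖ := by
    apply mul_le_mul_of_nonneg_right _ (norm_nonneg _)
    have : C * (‖z - zs‖ + ‖z' - zs‖) ≤ C * (r + r) :=
      mul_le_mul_of_nonneg_left (add_le_add hz.le hz'.le) D.C0
    linarith
  linarith

theorem DD.mu1 (D : DD F zs L lam0 kk C r) : ‖L‖ + 2 * (C * r) < 1 := by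
  have := D.L1
  have := D.s2
  have := D.k0
  linarith

theorem DD.mu0 (D : DD F zs L lam0 kk C r) : 0 ≤ ‖L‖ + 2 * (C * r) := by
  have := D.C0
  have := D.r0
  have := norm_nonneg L
  positivity

theorem DD.sq (D : DD F zs L lam0 kk C r) : (‖L‖ + 2 * (C * r)) ^ 2 ≤ (1 - kk) * ‖L‖ := by
  obtain ⟨s, hs⟩ : ∃ s, s = C * r := ⟨_, rfl⟩
  have h1 := D.s1
  have h2 := D.s2
  have h3 := D.L1
  have h4 := D.L0
  have h5 := D.l0
  have h6 := D.k0
  have h7 := D.k1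
  have h8 : 0 ≤ s := by
    have := D.C0
    have := D.r0
    rw [hs]; positivity
  rw [← hs] at h1 h2 ⊢
  obtain ⟨l, hl⟩ : ∃ l, l = ‖L‖ := ⟨_, rfl⟩
  rw [← hl] at h3 h4 ⊢
  have hl0 : 0 < l := lt_of_lt_of_le h5 h4
  have h9 : s ≤ l * kk / 16 := by
    refine h1.trans ?_
    have := mul_le_mul_of_nonneg_right h4 h6.le
    linarith
  -- 4 s^2 ≤ s * l * kk / 4 
  have h10 : 4 * s ^ 2 ≤ l * s := by
    have : s * s ≤ s * (l * kk / 16) := mul_le_mul_of_nonneg_left h9 h8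
    have h11 : s * (l * kk / 16) ≤ s * (l * (1 / 4) / 16) := by
      apply mul_le_mul_of_nonneg_left _ h8
      have := mul_le_mul_of_nonneg_left h7 hl0.le
      linarith
    have h12 : 0 ≤ s * l := by positivity
    nlinarith
  have h13 : l * l ≤ l * (1 - 2 * kk) := mul_le_mul_of_nonneg_left h3 hl0.le
  have h14 : l * s ≤ l * (kk / 16) := mul_le_mul_of_nonneg_left h2 hl0.le
  have h15 : 0 ≤ l * kk := by positivity
  nlinarith

theorem DD.iter (D : DD F zs L lam0 kk C r) {z z' : ℂ} (hz : z ∈ ball zs r) (hz' : z' ∈ ball zs r)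
    (k : ℕ) : F^[k] z ∈ ball zs r ∧ F^[k] z' ∈ ball zs r ∧
      ‖F^[k] z - F^[k] z'‖ ≤ (‖L‖ + 2 * (C * r)) ^ k * ‖z - z'‖ ∧
      ‖F^[k] z - zs‖ ≤ (‖L‖ + 2 * (C * r)) ^ k * ‖z - zs‖ ∧
      ‖F^[k] z' - zs‖ ≤ (‖L‖ + 2 * (C * r)) ^ k * ‖z' - zs‖ := by
  have hc : zs ∈ ball zs r := mem_ball_self D.r0
  have key : ∀ w ∈ ball zs r, ‖F w - zs‖ ≤ (‖L‖ + 2 * (C * r)) * ‖w - zs‖ ∧ F w ∈ ball zs r := by
    intro w hw
    have h1 := D.contr hw hc
    rw [D.fix] at h1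
    refine ⟨h1, ?_⟩
    rw [mem_ball, dist_eq_norm] at hw ⊢
    refine lt_of_le_of_lt h1 ?_
    have h2 := D.mu1
    have h3 : (‖L‖ + 2 * (C * r)) * ‖w - zs‖ ≤ 1 * ‖w - zs‖ :=
      mul_le_mul_of_nonneg_right h2.le (norm_nonneg _)
    linarith
  induction k with
  | zero => simp [hz, hz']
  | succ k ih =>
    obtain ⟨i1, i2, i3, i4, i5⟩ := ih
    rw [Function.iterate_succ_apply', Function.iterate_succ_apply']
    refine ⟨(key _ i1).2, (key _ i2).2, ?_, ?_, ?_⟩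
    · refine (D.contr i1 i2).trans ?_
      refine (mul_le_mul_of_nonneg_left i3 D.mu0).trans (le_of_eq ?_)
      ring
    · refine (key _ i1).1.trans ?_
      refine (mul_le_mul_of_nonneg_left i4 D.mu0).trans (le_of_eq ?_)
      ring
    · refine (key _ i2).1.trans ?_
      refine (mul_le_mul_of_nonneg_left i5 D.mu0).trans (le_of_eq ?_)
      ring

theorem DD.Lne (D : DD F zs L lam0 kk C r) : L ≠ 0 := by
  have h1 := D.L0
  have h2 := D.l0
  exact norm_pos_iff.1 (lt_of_lt_of_le h2 h1)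

theorem DD.step (D : DD F zs L lam0 kk C r) {z z' : ℂ} (hz : z ∈ ball zs r) (hz' : z' ∈ ball zs r)
    (k : ℕ) : dist ((F^[k] z - F^[k] z') / L ^ k) ((F^[k + 1] z - F^[k + 1] z') / L ^ (k + 1)) ≤
      (kk / 8 * ‖z - z'‖) * (1 - kk) ^ k := by
  obtain ⟨i1, i2, i3, i4, i5⟩ := D.iter hz hz' k
  have hL := D.Lne
  have hLp : 0 < ‖L‖ := norm_pos_iff.2 hL
  rw [Function.iterate_succ_apply', Function.iterate_succ_apply', dist_comm, dist_eq_norm]
  obtain ⟨u, hu⟩ : ∃ u, u = F^[k] z := ⟨_, rfl⟩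
  obtain ⟨v, hv⟩ : ∃ v, v = F^[k] z' := ⟨_, rfl⟩
  rw [← hu] at i1 i3 i4 ⊢
  rw [← hv] at i2 i3 i5 ⊢
  have e1 : (F u - F v) / L ^ (k + 1) - (u - v) / L ^ k =
      (F u - F v - L * (u - v)) / L ^ (k + 1) := by
    rw [pow_succ]
    field_simp
  rw [e1, norm_div, norm_pow]
  have h1 := D.q u (ball_subset_ball D.r1 i1) v (ball_subset_ball D.r1 i2)
  rw [mem_ball, dist_eq_norm] at hz hz'
  obtain ⟨μ, hμ⟩ : ∃ μ, μ = ‖L‖ + 2 * (C * r) := ⟨_, rfl⟩
  have hμ0 : 0 ≤ μ := by rw [hμ]; exact D.mu0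
  rw [← hμ] at i3 i4 i5
  have hμk : 0 ≤ μ ^ k := by positivity
  have h2 : ‖u - zs‖ + ‖v - zs‖ ≤ μ ^ k * (2 * r) := by
    have h3 : μ ^ k * ‖z - zs‖ ≤ μ ^ k * r := mul_le_mul_of_nonneg_left hz.le hμk
    have h4 : μ ^ k * ‖z' - zs‖ ≤ μ ^ k * r := mul_le_mul_of_nonneg_left hz'.le hμk
    linarith
  have h5 : C * (‖u - zs‖ + ‖v - zs‖) * ‖u - v‖ ≤ (C * (μ ^ k * (2 * r))) * (μ ^ k * ‖z - z'‖) := by
    apply mul_le_mul (mul_le_mul_of_nonneg_left h2 D.C0) i3 (norm_nonneg _)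
    have := D.C0
    have := D.r0
    positivity
  have h6 : (C * (μ ^ k * (2 * r))) * (μ ^ k * ‖z - z'‖) = 2 * (C * r) * ‖z - z'‖ * (μ ^ 2) ^ k := by
    rw [← pow_mul, mul_comm 2 k, pow_mul]
    ring
  have h7 : (μ ^ 2) ^ k ≤ ((1 - kk) * ‖L‖) ^ k := by
    apply pow_le_pow_left₀ (by positivity)
    rw [hμ]; exact D.sq
  have h8 : 2 * (C * r) * ‖z - z'‖ ≤ ‖L‖ * (kk / 8) * ‖z - z'‖ := by
    apply mul_le_mul_of_nonneg_right _ (norm_nonneg _)
    have h9 := D.s1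
    have h10 := mul_le_mul_of_nonneg_right D.L0 D.k0.le
    linarith
  rw [div_le_iff₀ (by positivity)]
  have hq0 : 0 ≤ 1 - kk := by
    have := D.k1
    linarith
  calc ‖F u - F v - L * (u - v)‖ ≤ C * (‖u - zs‖ + ‖v - zs‖) * ‖u - v‖ := h1
    _ ≤ (C * (μ ^ k * (2 * r))) * (μ ^ k * ‖z - z'‖) := h5
    _ = 2 * (C * r) * ‖z - z'‖ * (μ ^ 2) ^ k := h6
    _ ≤ (‖L‖ * (kk / 8) * ‖z - z'‖) * ((1 - kk) * ‖L‖) ^ k := by
        apply mul_le_mul h8 h7 (by positivity)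
        have := D.k0
        positivity
    _ = _ := by
        rw [mul_pow]
        ring

theorem DD.lim (D : DD F zs L lam0 kk C r) {z : ℂ} (hz : z ∈ ball zs r) :
    Tendsto (fun k : ℕ => (F^[k] z - zs) / L ^ k) atTop
      (𝓝 (limUnder atTop (fun k : ℕ => (F^[k] z - zs) / L ^ k))) := by
  have hq1 : 1 - kk < 1 := by
    have := D.k0
    linarith
  have hfix : ∀ k : ℕ, F^[k] zs = zs := fun k => Function.iterate_fixed D.fix k
  have h1 : ∀ k : ℕ, dist ((F^[k] z - zs) / L ^ k) ((F^[k + 1] z - zs) / L ^ (k + 1)) ≤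
      (kk / 8 * ‖z - zs‖) * (1 - kk) ^ k := by
    intro k
    have := D.step hz (mem_ball_self D.r0) k
    rwa [hfix, hfix] at this
  exact (cauchySeq_of_le_geometric (1 - kk) _ hq1 h1).tendsto_limUnder

theorem DD.close (D : DD F zs L lam0 kk C r) {z z' : ℂ} (hz : z ∈ ball zs r)
    (hz' : z' ∈ ball zs r) :
    ‖limUnder atTop (fun k : ℕ => (F^[k] z - zs) / L ^ k) -
      limUnder atTop (fun k : ℕ => (F^[k] z' - zs) / L ^ k) - (z - z')‖ ≤ ‖z - z'‖ / 8 := by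
  have hq1 : 1 - kk < 1 := by
    have := D.k0
    linarith
  have h1 := (D.lim hz).sub (D.lim hz')
  have h2 : (fun k : ℕ => (F^[k] z - zs) / L ^ k - (F^[k] z' - zs) / L ^ k) =
      fun k : ℕ => (F^[k] z - F^[k] z') / L ^ k := by
    funext k
    ring
  rw [h2] at h1
  have h3 := dist_le_of_le_geometric_of_tendsto₀ (1 - kk) _ hq1 (D.step hz hz') h1
  rw [dist_comm, dist_eq_norm] at h3
  have h4 : (F^[0] z - F^[0] z') / L ^ 0 = z - z' := by simp
  rw [h4] at h3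
  refine h3.trans (le_of_eq ?_)
  have hk : kk ≠ 0 := D.k0.ne'
  rw [sub_sub_cancel]
  field_simp

end

theorem onto {K : ℂ → ℂ} {zs : ℂ} {r : ℝ} (hr : 0 < r) (hK0 : K zs = 0)
    (hK : ∀ z ∈ ball zs r, ∀ z' ∈ ball zs r, ‖K z - K z' - (z - z')‖ ≤ ‖z - z'‖ / 8)
    {w : ℂ} (hw : w ∈ ball (0 : ℂ) (r / 2)) : ∃ z ∈ ball zs r, K z = w := by
  rw [mem_ball_zero_iff] at hw
  obtain ⟨S, hS⟩ : ∃ S : Set ℂ, S = closedBall zs (3 / 4 * r) := ⟨_, rfl⟩
  have hSb : S ⊆ ball zs r := by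
    rw [hS]; exact closedBall_subset_ball (by linarith)
  have hzs : zs ∈ ball zs r := mem_ball_self hr
  have hmap : MapsTo (fun z => z - (K z - w)) S S := by
    intro z hz
    have h1 := hK z (hSb hz) zs hzs
    rw [hS, mem_closedBall, dist_eq_norm] at hz ⊢
    rw [hK0, sub_zero] at h1
    have h2 : z - (K z - w) - zs = w - (K z - (z - zs)) := by ring
    rw [h2]
    have h3 := norm_sub_le w (K z - (z - zs))
    linarith
  have hcomp : IsComplete S := by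
    rw [hS]; exact isClosed_closedBall.isComplete
  have hlip : ∀ z ∈ S, ∀ z' ∈ S,
      ‖(z - (K z - w)) - (z' - (K z' - w))‖ ≤ 1 / 8 * ‖z - z'‖ := by
    intro z hz z' hz'
    have h1 := hK z (hSb hz) z' (hSb hz')
    have h2 : (z - (K z - w)) - (z' - (K z' - w)) = -(K z - K z' - (z - z')) := by ring
    rw [h2, norm_neg]
    linarith
  have hcw : ContractingWith (1 / 8 : NNReal) (hmap.restrict (fun z => z - (K z - w)) S S) := by
    refine ⟨?_, ?_⟩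
    · rw [← NNReal.coe_lt_coe]; norm_num
    · apply LipschitzWith.of_dist_le_mul
      intro z z'
      rw [Subtype.dist_eq, Subtype.dist_eq, dist_eq_norm, dist_eq_norm]
      have := hlip z.1 z.2 z'.1 z'.2
      have e : ((1 / 8 : NNReal) : ℝ) = 1 / 8 := by norm_num
      rw [e]
      exact this
  have hzsS : zs ∈ S := by
    rw [hS]; exact mem_closedBall_self (by positivity)
  obtain ⟨y, hyS, hy, _⟩ := hcw.exists_fixedPoint' hcomp hmap hzsS (edist_ne_top _ _)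
  refine ⟨y, hSb hyS, ?_⟩
  have h1 : y - (K y - w) = y := hy
  have h2 : K y - w = 0 := by
    have := sub_eq_self.1 h1
    exact this
  exact sub_eq_zero.1 h2

end KO3

theorem ko3_holds : StKO3 := by
  intro h0 a n P B lam₀ lam₁ ε ha hn hP hB hl0 hl1 hε
  -- bound of the fixed points
  obtain ⟨R, hR1, hesc⟩ := exists_esc ha hn B
  have hfixR : ∀ x ∈ ball (0 : PE n) B, ∀ zs : ℂ, (fx a n x)^[P] zs = zs → ‖zs‖ ≤ R := by
    intro x hx zs hzs
    by_contra hc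
    push Not at hc
    have hx' : ‖x‖ ≤ B := (mem_ball_zero_iff.mp hx).le
    have h1 : ∀ k : ℕ, R ≤ ‖(fx a n x)^[k] zs‖ ∧ 2 ^ k * ‖zs‖ ≤ ‖(fx a n x)^[k] zs‖ := by
      intro k
      induction k with
      | zero => simp [hc.le]
      | succ k ih =>
        rw [Function.iterate_succ_apply']
        have h2 := hesc x hx' _ ih.1
        refine ⟨by linarith [ih.1], ?_⟩
        rw [pow_succ]
        linarith [ih.2]
    have h3 := (h1 P).2
    rw [hzs] at h3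
    have h4 : (2 : ℝ) ≤ 2 ^ P := by
      calc (2 : ℝ) = 2 ^ 1 := by norm_num
        _ ≤ 2 ^ P := pow_le_pow_right₀ (by norm_num) hP
    have h5 : 2 * ‖zs‖ ≤ 2 ^ P * ‖zs‖ := mul_le_mul_of_nonneg_right h4 (norm_nonneg _)
    linarith
  -- bound of the iterate
  obtain ⟨M, hM⟩ := ((isCompact_closedBall (0 : PE n) B).prod
    (isCompact_closedBall (0 : ℂ) (R + 4))).exists_bound_of_continuousOn
      (f := fun p : PE n × ℂ => (fx a n p.1)^[P] p.2) (contDiff_fx a n P).continuous.continuousOn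
  have hM' : ∀ x ∈ ball (0 : PE n) B, ∀ z : ℂ, ‖z‖ ≤ R + 4 → ‖(fx a n x)^[P] z‖ ≤ max M 0 := by
    intro x hx z hz
    refine (hM (x, z) ⟨ball_subset_closedBall hx, mem_closedBall_zero_iff.2 hz⟩).trans
      (le_max_left _ _)
  obtain ⟨C, hC⟩ : ∃ C, C = max M 0 := ⟨_, rfl⟩
  have hC0 : 0 ≤ C := by rw [hC]; exact le_max_right _ _
  rw [← hC] at hM'
  obtain ⟨kk, hkk⟩ : ∃ kk, kk = (1 - max lam₁ (1 / 2)) / 2 := ⟨_, rfl⟩
  have hmax1 : max lam₁ (1 / 2) < 1 := max_lt hl1 (by norm_num)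
  have hmax2 : 1 / 2 ≤ max lam₁ (1 / 2) := le_max_right _ _
  have hmax3 : lam₁ ≤ max lam₁ (1 / 2) := le_max_left _ _
  have hkk0 : 0 < kk := by rw [hkk]; linarith
  have hkk1 : kk ≤ 1 / 4 := by rw [hkk]; linarith
  have hkk2 : lam₁ ≤ 1 - 2 * kk := by rw [hkk]; linarith
  obtain ⟨r, hr⟩ : ∃ r, r = min (min 1 ε) (min lam₀ 1 * kk / (16 * (C + 1))) := ⟨_, rfl⟩
  have hm0 : 0 < min lam₀ 1 := lt_min hl0 one_pos
  have hr0 : 0 < r := by
    rw [hr]; exact lt_min (lt_min one_pos hε) (by positivity)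
  have hr1 : r ≤ 1 := by rw [hr]; exact (min_le_left _ _).trans (min_le_left _ _)
  have hrε : r ≤ ε := by rw [hr]; exact (min_le_left _ _).trans (min_le_right _ _)
  have hCr : C * r ≤ min lam₀ 1 * kk / 16 := by
    have h1 : r ≤ min lam₀ 1 * kk / (16 * (C + 1)) := by rw [hr]; exact min_le_right _ _
    have h2 : C * r ≤ (C + 1) * r := mul_le_mul_of_nonneg_right (by linarith) hr0.le
    have h3 : (C + 1) * r ≤ (C + 1) * (min lam₀ 1 * kk / (16 * (C + 1))) :=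
      mul_le_mul_of_nonneg_left h1 (by linarith)
    have h4 : (C + 1) * (min lam₀ 1 * kk / (16 * (C + 1))) = min lam₀ 1 * kk / 16 := by
      have : C + 1 ≠ 0 := by linarith
      field_simp
    linarith
  have hs1 : C * r ≤ lam₀ * kk / 16 := by
    refine hCr.trans ?_
    have := mul_le_mul_of_nonneg_right (min_le_left lam₀ 1) hkk0.le
    linarith
  have hs2 : C * r ≤ kk / 16 := by
    refine hCr.trans ?_
    have := mul_le_mul_of_nonneg_right (min_le_right lam₀ 1) hkk0.le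
    linarith
  have hD : ∀ x ∈ ball (0 : PE n) B, ∀ zs : ℂ, (fx a n x)^[P] zs = zs →
      lam₀ ≤ ‖deriv ((fx a n x)^[P]) zs‖ → ‖deriv ((fx a n x)^[P]) zs‖ ≤ lam₁ →
      KO3.DD ((fx a n x)^[P]) zs (deriv ((fx a n x)^[P]) zs) lam₀ kk C r := by
    intro x hx zs hzs h1 h2
    refine ⟨hzs, hl0, h1, hkk0, hkk1, h2.trans hkk2, hC0, hr0, hr1, hs1, hs2, ?_⟩
    intro z hz z' hz'
    exact KO3.quad ((fx_differentiable a n x).iterate P) (hM' x hx) (hfixR x hx zs hzs) hC0 hz hz'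
  have hatt : ∀ x ∈ ball (0 : PE n) B, ∀ zs : ℂ, (fx a n x)^[P] zs = zs →
      lam₀ ≤ ‖deriv ((fx a n x)^[P]) zs‖ → ‖deriv ((fx a n x)^[P]) zs‖ ≤ lam₁ →
      ∀ z ∈ ball zs r, Sk (fx a n x) P z zs ∧ (fx a n x)^[P] z ∈ ball zs r := by
    intro x hx zs hzs h1 h2 z hz
    have D := hD x hx zs hzs h1 h2
    refine ⟨⟨hzs, lt_of_le_of_lt h2 hl1, ?_⟩, ?_⟩
    · rw [tendsto_iff_norm_sub_tendsto_zero]
      have h3 : Tendsto (fun k : ℕ => (‖deriv ((fx a n x)^[P]) zs‖ + 2 * (C * r)) ^ k * ‖z - zs‖)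
          atTop (𝓝 0) := by
        have := (tendsto_pow_atTop_nhds_zero_of_lt_one D.mu0 D.mu1).mul_const ‖z - zs‖
        rwa [zero_mul] at this
      refine squeeze_zero (fun k => norm_nonneg _) (fun k => ?_) h3
      rw [Function.iterate_mul]
      exact (D.iter hz hz k).2.2.2.1
    · have := (D.iter hz hz 1).1
      exact this
  have hKP : ∀ x ∈ ball (0 : PE n) B, ∀ zs : ℂ, (fx a n x)^[P] zs = zs →
      lam₀ ≤ ‖deriv ((fx a n x)^[P]) zs‖ → ‖deriv ((fx a n x)^[P]) zs‖ ≤ lam₁ →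
      ∀ z ∈ ball zs r, KP (fx a n x) P z =
        limUnder atTop (fun k : ℕ => (((fx a n x)^[P])^[k] z - zs) /
          (deriv ((fx a n x)^[P]) zs) ^ k) := by
    intro x hx zs hzs h1 h2 z hz
    have hSk := (hatt x hx zs hzs h1 h2 z hz).1
    have hSP := (h0 (fx a n x) P (fx_differentiable a n x) hP).1 z zs hSk
    unfold KP LP
    rw [hSP]
    simp only [Function.iterate_mul]
  have hzero : ∀ x ∈ ball (0 : PE n) B, ∀ zs : ℂ, (fx a n x)^[P] zs = zs →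
      lam₀ ≤ ‖deriv ((fx a n x)^[P]) zs‖ → ‖deriv ((fx a n x)^[P]) zs‖ ≤ lam₁ →
      KP (fx a n x) P zs = 0 := by
    intro x hx zs hzs h1 h2
    rw [hKP x hx zs hzs h1 h2 zs (mem_ball_self hr0)]
    have hfix : ∀ k : ℕ, ((fx a n x)^[P])^[k] zs = zs := fun k => Function.iterate_fixed hzs k
    have h3 : (fun k : ℕ => (((fx a n x)^[P])^[k] zs - zs) / (deriv ((fx a n x)^[P]) zs) ^ k) =
        fun _ : ℕ => (0 : ℂ) := by
      funext k
      rw [hfix, sub_self, zero_div]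
    rw [h3]
    exact (tendsto_const_nhds (x := (0 : ℂ)) (f := (atTop : Filter ℕ))).limUnder_eq
  have hclose : ∀ x ∈ ball (0 : PE n) B, ∀ zs : ℂ, (fx a n x)^[P] zs = zs →
      lam₀ ≤ ‖deriv ((fx a n x)^[P]) zs‖ → ‖deriv ((fx a n x)^[P]) zs‖ ≤ lam₁ →
      ∀ z ∈ ball zs r, ∀ z' ∈ ball zs r,
        ‖KP (fx a n x) P z - KP (fx a n x) P z' - (z - z')‖ ≤ ‖z - z'‖ / 8 := by
    intro x hx zs hzs h1 h2 z hz z' hz'
    rw [hKP x hx zs hzs h1 h2 z hz, hKP x hx zs hzs h1 h2 z' hz']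
    exact (hD x hx zs hzs h1 h2).close hz hz'
  refine ⟨r, r / 2, hrε, ⟨hr0, by positivity, hl0, hl1, hatt, hzero, hclose, ?_⟩⟩
  intro x hx zs hzs h1 h2 w hw
  exact KO3.onto hr0 (hzero x hx zs hzs h1 h2) (hclose x hx zs hzs h1 h2) hw

end Pool.Agent.H713R5.QJ
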