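import Mathlib
import Pool.Agent.H713R5.QJ.Defs3

/-! Task LOCP (helper485): the local inequality for the level N area. -/

set_option autoImplicit false

open Topology Filter Metric Set Polynomial MeasureTheory
open Pool.Agent.H713R3.ZA

namespace Pool.Agent.H713R5.QJ

theorem locp_holds : StLOCP := by
  intro hDIC hK0 hK1 hK2 hK3 hCRS hCRE hCRB hRF hRS hRL hASYP hFARP hAREA hAVG hBAD hMOTL hFULLL
    hROOT hPRO hWN hSTEPL a n P M N B R C₁ R₁ R₃ R₇ lam₀ lam₁ r₁ r₂ r' τ ρ R₄ R₅ rg c₀ v ψ φ Es Ee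
    rf ap F0 γ ha hn hP hBO hR37 hKL hGD hlam hr' hr'1 hτ hτb hR4 hR45 hc₀ hball hGain
  obtain ⟨ρ', U, H, Bd, hρ', hρ'ρ, hRDL, hU, hHim, hUfar⟩ := hRL hDIC hK0 hK1 hK2 hK3 hCRS hCRE hCRB
    hRF hRS a n P M N B R C₁ R₁ R₃ R₇ lam₀ lam₁ r₁ r₂ r' τ ρ ψ φ Es Ee rf ap F0 γ ha hn hP hBO hR37
    hKL hGD hlam hr' hr'1 hτ hτb
  have hsubB : ball (0 : ℂ) ρ' ⊆ ball (0 : ℂ) ρ := ball_subset_ball hρ'ρ
  obtain ⟨hFAR, hfarsub⟩ := hFARP hDIC hASYP a n N B R C₁ R₁ R₃ R₇ ρ' ψ φ γ U H Bd ha hn hBO hR37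
    hRDL (fun t ht => hGD.γB t (hsubB ht)) (fun t ht => hGD.cen t (hsubB ht)) hUfar
  obtain ⟨D1, D2, D3, D4, D5, D6, D7, D8, D9, D10⟩ := hDIC a n ha hn
  refine ⟨ρ', hρ', hρ'ρ, ?_⟩
  intro r hr hrρ η hη q hq
  have hC := hBO.hC
  have hR4pos : 0 < R₄ := by
    have h1 := hBO.hR
    have h2 := hBO.hR₁
    have h3 := hBO.hR₃
    linarith
  have h0 : (0 : ℂ) ∈ ball (0 : ℂ) ρ' := mem_ball_self hρ'
  have hfar0 : {z : ℂ | R₄ < ‖z‖} ⊆ Pool.Agent.H713R4.RB.WN (n + 1) (wv a n (γ 0)) U N := by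
    intro z hz
    have hz' : R₄ < ‖z‖ := hz
    exact hFAR.mem z (by linarith)
  have h1 : {z : ℂ | R₄ < ‖z‖} ∪ ball v rg ∪ ball v rg ⊆
      Pool.Agent.H713R4.RB.WN (n + 1) (wv a n (γ 0)) U N := by
    rintro z ((hz | hz) | hz)
    · exact hfar0 hz
    · exact hfar0 (hball hz).1
    · exact hfar0 (hball hz).1
  have h2 : ∀ t ∈ ball (0 : ℂ) ρ', {z : ℂ | R₄ < ‖z‖} ⊆
      Pool.Agent.H713R4.RB.WN (n + 1) (wv a n (γ t)) (H t '' U) N := by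
    intro t ht z hz
    have hz' : R₄ < ‖z‖ := hz
    apply hfarsub t ht
    show R₇ + 3 * C₁ < ‖z‖
    linarith
  have h3 : ball v rg ∪ ball v rg ⊆ ball (0 : ℂ) R₅ := by
    rintro z (hz | hz)
    · rw [mem_ball_zero_iff]; exact (hball hz).2
    · rw [mem_ball_zero_iff]; exact (hball hz).2
  have h4 : ∀ t ∈ ball (0 : ℂ) ρ', Pool.Agent.H713R4.RB.Gain (n + 1) R₄ R₅ v v rg c₀
      (wv a n (γ 0)) (wv a n (γ t)) := fun t ht =>
    hGain (γ 0) (hGD.γB 0 (hsubB h0)) (γ t) (hGD.γB t (hsubB ht)) (hGD.cen t (hsubB ht)).symm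
  obtain ⟨θ, hθ⟩ := hSTEPL hAREA hAVG hBAD hMOTL hFULLL hROOT hPRO hWN (n + 1)
    (fun t => wv a n (γ t)) ρ' U H Bd N R₄ R₅ (R₇ + C₁) H v v rg c₀ (by omega) hRDL hR4pos hR45 h1
    h2 h3 hFAR hc₀ h4 r hr hrρ η hη q hq
  refine ⟨θ, ?_⟩
  set t := circleMap 0 r θ with ht
  have htρ : t ∈ ball (0 : ℂ) ρ' := by
    rw [mem_ball_zero_iff, ht, norm_circleMap_zero, abs_of_pos hr]
    exact hrρ
  have hsub : BN a n P R₃ R₇ φ Es rf r' τ N (γ t) ⊆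
      (Pool.Agent.H713R4.RB.WN (n + 1) (wv a n (γ t)) (H t '' U) N)ᶜ := by
    intro z hz hz2
    rw [D6] at hz2
    obtain ⟨w, hw, hwz⟩ := hz2
    apply hz
    rw [← hwz]
    exact hHim t htρ w hw
  have hfinm : volume (Pool.Agent.H713R4.RB.WN (n + 1) (wv a n (γ t)) (H t '' U) N)ᶜ ≠ ⊤ := by
    have hs : (Pool.Agent.H713R4.RB.WN (n + 1) (wv a n (γ t)) (H t '' U) N)ᶜ ⊆
        closedBall (0 : ℂ) R₄ := by
      intro z hz
      rw [mem_closedBall_zero_iff]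
      by_contra hcon
      exact hz (h2 t htρ (not_le.1 hcon))
    exact ((measure_mono hs).trans_lt measure_closedBall_lt_top).ne
  have hle : (volume (BN a n P R₃ R₇ φ Es rf r' τ N (γ t))).toReal ≤
      (volume (Pool.Agent.H713R4.RB.WN (n + 1) (wv a n (γ t)) (H t '' U) N)ᶜ).toReal :=
    ENNReal.toReal_mono hfinm (measure_mono hsub)
  have heq : (Pool.Agent.H713R4.RB.WN (n + 1) (wv a n (γ 0)) U N)ᶜ =
      BN a n P R₃ R₇ φ Es rf r' τ N (γ 0) := by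
    rw [D6, hU]
    rfl
  simp only [D9] at hθ
  rw [heq] at hθ
  linarith

end Pool.Agent.H713R5.QJ
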