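import Mathlib
import Pool.Agent.H713R5.QJ.Defs2
import Pool.Agent.H713R5.QJ.TAF

/-!
The area of the complement of the level `N` target region is lower semicontinuous.
-/

set_option autoImplicit false

open Topology Filter Metric Set Polynomial MeasureTheory
open Pool.Agent.H713R3.ZA

namespace Pool.Agent.H713R5.QJ

/-- Preimages of null sets under nonconstant polynomials are null. -/
theorem lscp_null_preimage (T : ℂ[X]) (hT : 0 < T.natDegree) (E : Set ℂ) (hE : volume E = 0) :
    volume ((ev T) ⁻¹' E) = 0 := by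
  have hcont : Continuous (ev T) := T.continuous
  have hder : derivative T ≠ 0 := by
    intro h
    have := derivative_eq_zero.1 h
    omega
  set E' := toMeasurable volume E with hE'
  have hE'0 : volume E' = 0 := by rw [hE', measure_toMeasurable, hE]
  have hm : MeasurableSet E' := measurableSet_toMeasurable _ _
  have h1 := af_holds T (fun _ => 1) E' hT measurable_const hm
  have h2 : ∫⁻ w in E', ∑ ζ ∈ (T - C w).roots.toFinset, (fun _ => (1 : ENNReal)) ζ = 0 :=
    setLIntegral_measure_zero _ _ hE'0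
  rw [h2] at h1
  have hpm : MeasurableSet ((ev T) ⁻¹' E') := hcont.measurable hm
  have hgm : Measurable (fun z : ℂ => (1 : ENNReal) * ENNReal.ofReal (‖(derivative T).eval z‖ ^ 2)) := by
    have : Continuous (fun z : ℂ => ‖(derivative T).eval z‖ ^ 2) :=
      ((derivative T).continuous.norm).pow 2
    exact measurable_const.mul this.measurable.ennreal_ofReal
  have h3 := (lintegral_eq_zero_iff hgm).1 h1.symm
  have h4 : ∀ᵐ z ∂(volume.restrict ((ev T) ⁻¹' E')), (derivative T).eval z = 0 := by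
    filter_upwards [h3] with z hz
    simp only [Pi.zero_apply, one_mul, ENNReal.ofReal_eq_zero] at hz
    have : ‖(derivative T).eval z‖ ^ 2 = 0 := le_antisymm hz (by positivity)
    have h5 : ‖(derivative T).eval z‖ = 0 := by
      exact pow_eq_zero_iff (two_ne_zero) |>.1 this
    exact norm_eq_zero.1 h5
  rw [ae_restrict_iff' hpm] at h4
  have hfin : volume {z : ℂ | (derivative T).eval z = 0} = 0 := by
    apply Set.Finite.measure_zero
    exact (finite_setOfPred_isRoot hder)
  have h5 : volume {z : ℂ | ¬ (z ∈ (ev T) ⁻¹' E' → (derivative T).eval z = 0)} = 0 := h4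
  refine measure_mono_null (t := {z : ℂ | (derivative T).eval z = 0} ∪
    {z : ℂ | ¬ (z ∈ (ev T) ⁻¹' E' → (derivative T).eval z = 0)}) ?_ (measure_union_null hfin h5)
  intro z hz
  by_cases h : (derivative T).eval z = 0
  · left; exact h
  · right
    intro h'
    exact h (h' (subset_toMeasurable volume E hz))

theorem lscp_null_iter {a : ℂ} (ha : a ≠ 0) (n : ℕ) (x : PE n) (N : ℕ) :
    ∀ E : Set ℂ, volume E = 0 → volume ((fx a n x)^[N] ⁻¹' E) = 0 := by
  induction N with
  | zero => intro E hE; simpa using hE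
  | succ N ih =>
    intro E hE
    have h1 : (fx a n x)^[N + 1] ⁻¹' E = (fx a n x) ⁻¹' ((fx a n x)^[N] ⁻¹' E) := by
      rw [Function.iterate_succ, preimage_comp]
    rw [h1]
    exact lscp_null_preimage (fam a n x) (by rw [natDegree_fam ha]; omega) _ (ih E hE)

/-- antilipschitz preimages of null sets are null -/
theorem lscp_null_level (K : ℂ → ℂ) (s : ℂ) (r c : ℝ)
    (hK : ∀ z ∈ ball s r, ∀ z' ∈ ball s r, ‖K z - K z' - (z - z')‖ ≤ ‖z - z'‖ / 8) :
    volume {y | y ∈ ball s r ∧ ‖K y‖ = c} = 0 := by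
  set S := {y | y ∈ ball s r ∧ ‖K y‖ = c} with hS
  have hKS : K '' S ⊆ sphere 0 c := by
    rintro _ ⟨y, hy, rfl⟩
    simpa using hy.2
  have hanti : ∀ z ∈ S, ∀ z' ∈ S, ‖z - z'‖ ≤ 2 * ‖K z - K z'‖ := by
    intro z hz z' hz'
    have h1 := hK z hz.1 z' hz'.1
    have h2 : ‖z - z'‖ ≤ ‖K z - K z'‖ + ‖K z - K z' - (z - z')‖ := by
      have := norm_sub_le (K z - K z') (K z - K z' - (z - z'))
      simpa using this
    have h3 : 0 ≤ ‖z - z'‖ := norm_nonneg _
    linarith
  set g := Function.invFunOn K S with hg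
  have hgK : ∀ z ∈ S, g (K z) = z := by
    intro z hz
    have hinj : InjOn K S := by
      intro z hz z' hz' h
      have := hanti z hz z' hz'
      rw [h, sub_self, norm_zero, mul_zero] at this
      exact sub_eq_zero.1 (norm_le_zero_iff.1 this)
    exact hinj.leftInvOn_invFunOn hz
  have hlip : LipschitzOnWith 2 g (K '' S) := by
    apply LipschitzOnWith.of_dist_le_mul
    rintro _ ⟨z, hz, rfl⟩ _ ⟨z', hz', rfl⟩
    rw [hgK z hz, hgK z' hz', dist_eq_norm, dist_eq_norm]
    exact_mod_cast hanti z hz z' hz'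
  have himg : g '' (K '' S) = S := by
    ext z
    constructor
    · rintro ⟨_, ⟨w, hw, rfl⟩, rfl⟩
      rw [hgK w hw]; exact hw
    · intro hz
      exact ⟨K z, ⟨z, hz, rfl⟩, hgK z hz⟩
  have hH : (volume : Measure ℂ) ≪ Measure.hausdorffMeasure (Module.finrank ℝ ℂ) :=
    Measure.absolutelyContinuous_isAddHaarMeasure _ _
  have hH' : (Measure.hausdorffMeasure (Module.finrank ℝ ℂ) : Measure ℂ) ≪ volume :=
    Measure.absolutelyContinuous_isAddHaarMeasure _ _
  apply hH
  have h0 : volume (K '' S) = 0 := measure_mono_null hKS (Measure.addHaar_sphere _ _ _)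
  have h1 : Measure.hausdorffMeasure (Module.finrank ℝ ℂ) (K '' S) = 0 := hH' h0
  have h2 := hlip.hausdorffMeasure_image_le (d := (Module.finrank ℝ ℂ : ℝ)) (by positivity)
  rw [himg, h1, mul_zero] at h2
  exact nonpos_iff_eq_zero.1 h2

/-- the level sets of the coordinate near infinity are null -/
theorem lscp_null_phi {a : ℂ} {n : ℕ} {B R C₁ R₁ R₃ R₇ : ℝ} {ψ φ : PE n × ℂ → ℂ}
    (hBO : BO a n B R C₁ R₁ R₃ ψ φ) (hR₇ : R₃ + C₁ ≤ R₇) (x : PE n) (hx : x ∈ ball (0 : PE n) B) :
    volume {y : ℂ | R₃ < ‖y‖ ∧ ‖φ (x, y)‖ = R₇} = 0 := by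
  have hC := hBO.hC
  have hR₃ := hBO.hR₃
  have hR₁ := hBO.hR₁
  have hR := hBO.hR
  have hsub : {y : ℂ | R₃ < ‖y‖ ∧ ‖φ (x, y)‖ = R₇} ⊆ (fun w => ψ (x, w)) '' (sphere (0 : ℂ) R₇) := by
    rintro y ⟨hy, hφ⟩
    exact ⟨φ (x, y), by simpa using hφ, hBO.ψφ x hx y hy⟩
  refine measure_mono_null hsub ?_
  have hsph : volume (sphere (0 : ℂ) R₇) = 0 := Measure.addHaar_sphere _ _ _
  have hd : DifferentiableOn ℂ (fun w => ψ (x, w)) (sphere (0 : ℂ) R₇) := by
    apply hBO.ψd.comp (t := ball (0 : PE n) B ×ˢ {w : ℂ | R₁ < ‖w‖})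
    · exact (DifferentiableOn.prodMk (differentiableOn_const _) differentiableOn_id)
    · intro w hw
      have hw' : ‖w‖ = R₇ := by simpa using hw
      refine ⟨hx, ?_⟩
      show R₁ < ‖w‖
      rw [hw']; linarith
  exact addHaar_image_eq_zero_of_differentiableOn_of_addHaar_eq_zero volume
    (hd.restrictScalars ℝ) hsph

/-- iterates of attracted points -/
theorem lscp_iter (hK0 : StKO0) (f : ℂ → ℂ) (P : ℕ) (hf : Differentiable ℂ f) (hP : 0 < P) (u : ℂ)
    (hu : AT f P u) (b : ℕ) : AT f P (f^[b] u) ∧ SP f P (f^[b] u) = f^[b] (SP f P u) ∧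
      LP f P (f^[b] u) = LP f P u := by
  obtain ⟨_, _, h3, h4, _⟩ := hK0 f P hf hP
  induction b with
  | zero => exact ⟨hu, rfl, rfl⟩
  | succ b ih =>
    obtain ⟨i1, i2, i3⟩ := ih
    rw [Function.iterate_succ_apply']
    refine ⟨(h3 _).2 i1, ?_, ?_⟩
    · rw [(h4 _ i1).1, i2, Function.iterate_succ_apply']
    · rw [(h4 _ i1).2, i3]

/-- the exceptional set -/
def lscpEx (a : ℂ) (n P : ℕ) (R₃ R₇ r' τ r₁ : ℝ) (φ : PE n × ℂ → ℂ) (Es : Finset (Fin n))
    (x : PE n) : Set ℂ :=
  sphere 0 R₃ ∪ {y : ℂ | R₃ < ‖y‖ ∧ ‖φ (x, y)‖ = R₇} ∪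
    ⋃ i ∈ Es, ⋃ b : ℕ, (sphere ((fx a n x)^[b] (SP (fx a n x) P (x (some i)))) r' ∪
      {y | y ∈ ball ((fx a n x)^[b] (SP (fx a n x) P (x (some i)))) r₁ ∧
        ‖KP (fx a n x) P y‖ = τ * ‖KP (fx a n x) P ((fx a n x)^[b] (x (some i)))‖})

theorem lscp_tendsto {n : ℕ} {F : PE n → ℂ → ℂ} {x : PE n} {z : ℂ} {xs : ℕ → PE n} {zs : ℕ → ℂ}
    (hF : ContinuousAt (fun y : PE n × ℂ => F y.1 y.2) (x, z)) (hx : Tendsto xs atTop (𝓝 x))
    (hz : Tendsto zs atTop (𝓝 z)) : Tendsto (fun k => F (xs k) (zs k)) atTop (𝓝 (F x z)) := by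
  have h1 : Tendsto (fun k => (xs k, zs k)) atTop (𝓝 (x, z)) := hx.prodMk_nhds hz
  exact hF.tendsto.comp h1

theorem lscp_tendsto_iter (a : ℂ) (n N : ℕ) {x : PE n} {z : ℂ} {xs : ℕ → PE n} {zs : ℕ → ℂ}
    (hx : Tendsto xs atTop (𝓝 x)) (hz : Tendsto zs atTop (𝓝 z)) :
    Tendsto (fun k => (fx a n (xs k))^[N] (zs k)) atTop (𝓝 ((fx a n x)^[N] z)) :=
  lscp_tendsto (F := fun x z => (fx a n x)^[N] z) (contDiff_fx a n N).continuous.continuousAt hx hz

theorem lscp_fx_diff (a : ℂ) (n : ℕ) (x : PE n) : Differentiable ℂ (fx a n x) :=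
  (fam a n x).differentiable

theorem lscp_holds : StLSCP := by
  intro hK0 hK1 hK2 hK3 a n P M N B R C₁ R₁ R₃ R₇ lam₀ lam₁ r₁ r₂ r' τ ψ φ Es Ee rf L ha hn hP
    hBO hR₇ hKL hr' hr'1 hτ hLO hlam
  obtain ⟨hATo, hSPd, hLPd, hA0o⟩ := hK1 hK0 a n P ha hn hP
  obtain ⟨hKPd, hKPp⟩ := hK2 hK0 hK1 hK3 a n P ha hn hP
  have hCpos := hBO.hC
  have hR₃ := hBO.hR₃
  have hR₁ := hBO.hR₁
  have hRone := hBO.hR
  have hLB : ∀ x ∈ L, x ∈ ball (0 : PE n) B := fun x hx => (hLO hx).1
  have hLA : ∀ x ∈ L, ∀ i ∈ Es, (x, x (some i)) ∈ A0 a n P := fun x hx => (hLO hx).2.1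
  -- facts on the sinks
  have hsink : ∀ x ∈ L, ∀ i ∈ Es, ∀ b : ℕ,
      (x, (fx a n x)^[b] (x (some i))) ∈ A0 a n P ∧
      (fx a n x)^[P] ((fx a n x)^[b] (SP (fx a n x) P (x (some i)))) =
        (fx a n x)^[b] (SP (fx a n x) P (x (some i))) ∧
      lam₀ ≤ ‖deriv ((fx a n x)^[P]) ((fx a n x)^[b] (SP (fx a n x) P (x (some i))))‖ ∧
      ‖deriv ((fx a n x)^[P]) ((fx a n x)^[b] (SP (fx a n x) P (x (some i))))‖ ≤ lam₁ := by
    intro x hx i hi b
    obtain ⟨hAT, hLP⟩ := hLA x hx i hi
    obtain ⟨i1, i2, i3⟩ := lscp_iter hK0 (fx a n x) P (lscp_fx_diff a n x) hP _ hAT b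
    obtain ⟨_, h2, _, _, _⟩ := hK0 (fx a n x) P (lscp_fx_diff a n x) hP
    have hSk := h2 _ i1
    have hl := hlam x hx i hi
    have hder : deriv ((fx a n x)^[P]) ((fx a n x)^[b] (SP (fx a n x) P (x (some i)))) =
        LP (fx a n x) P (x (some i)) := by
      rw [← i3, ← i2]; rfl
    refine ⟨⟨i1, ?_⟩, ?_, ?_, ?_⟩
    · show LP (fx a n x) P ((fx a n x)^[b] (x (some i))) ≠ 0
      rw [i3]; exact hLP
    · rw [← i2]; exact hSk.1
    · rw [hder]; exact hl.1
    · rw [hder]; exact hl.2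
  -- the exceptional set is null
  have hEx : ∀ x ∈ L, volume (lscpEx a n P R₃ R₇ r' τ r₁ φ Es x) = 0 := by
    intro x hx
    refine measure_union_null (measure_union_null (Measure.addHaar_sphere _ _ _)
      (lscp_null_phi hBO hR₇ x (hLB x hx))) ?_
    rw [measure_iUnion_null_iff]
    intro i
    rw [measure_iUnion_null_iff]
    intro hi
    rw [measure_iUnion_null_iff]
    intro b
    obtain ⟨_, s2, s3, s4⟩ := hsink x hx i hi b
    exact measure_union_null (Measure.addHaar_sphere _ _ _)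
      (lscp_null_level _ _ _ _ (hKL.close x (hLB x hx) _ s2 s3 s4))
  -- the main step
  have hmain : ∀ (x : PE n) (xs : ℕ → PE n), x ∈ L → (∀ k, xs k ∈ L) → Tendsto xs atTop (𝓝 x) →
      ∀ z : ℂ, (∃ᶠ k in atTop, z ∉ BN a n P R₃ R₇ φ Es rf r' τ N (xs k)) →
      z ∉ BN a n P R₃ R₇ φ Es rf r' τ N x ∨
        (fx a n x)^[N] z ∈ lscpEx a n P R₃ R₇ r' τ r₁ φ Es x := by
    intro x xs hx hxs hlim z hfr
    set y := (fx a n x)^[N] z with hy
    have hyk : Tendsto (fun k => (fx a n (xs k))^[N] z) atTop (𝓝 y) :=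
      lscp_tendsto_iter a n N hlim tendsto_const_nhds
    have hfr' : ∃ᶠ k in atTop, ((fx a n (xs k))^[N] z ∈ UF n R₃ R₇ φ (xs k) ∨
        (fx a n (xs k))^[N] z ∈ US a n P Es rf r' τ (xs k)) := by
      refine hfr.mono fun k hk => ?_
      exact not_not.1 hk
    rw [frequently_or_distrib] at hfr'
    have hgoal : (y ∈ UF n R₃ R₇ φ x ∪ US a n P Es rf r' τ x) ∨
        y ∈ lscpEx a n P R₃ R₇ r' τ r₁ φ Es x := by
      rcases hfr' with hF | hS
      · -- the far part
        have h1 : R₃ ≤ ‖y‖ := by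
          have hcl : IsClosed {w : ℂ | R₃ ≤ ‖w‖} := isClosed_le continuous_const continuous_norm
          exact hcl.mem_of_frequently_of_tendsto (hF.mono fun k hk => le_of_lt hk.1) hyk
        rcases h1.eq_or_lt with h1 | h1
        · right; left; left
          simpa using h1.symm
        · have hop : IsOpen (ball (0 : PE n) B ×ˢ {z : ℂ | R₃ < ‖z‖}) :=
            isOpen_ball.prod (isOpen_lt continuous_const continuous_norm)
          have hφc : ContinuousAt φ (x, y) :=
            (hBO.φd.continuousOn).continuousAt (hop.mem_nhds ⟨hLB x hx, h1⟩)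
          have h2 : Tendsto (fun k => ‖φ (xs k, (fx a n (xs k))^[N] z)‖) atTop (𝓝 ‖φ (x, y)‖) :=
            (lscp_tendsto (F := fun x z => φ (x, z)) hφc hlim hyk).norm
          have h3 : R₇ ≤ ‖φ (x, y)‖ := by
            exact (isClosed_Ici (a := R₇)).mem_of_frequently_of_tendsto
              (hF.mono fun k hk => le_of_lt hk.2) h2
          rcases h3.eq_or_lt with h3 | h3
          · right; left; right
            exact ⟨h1, h3.symm⟩
          · left; left
            exact ⟨h1, h3⟩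
      · -- the part near the sinks
        have hex : ∃ i ∈ Es, rf i = i ∧ ∃ b < P, ∃ᶠ k in atTop,
            (‖(fx a n (xs k))^[N] z - (fx a n (xs k))^[b] (SP (fx a n (xs k)) P ((xs k) (some i)))‖ < r' ∧
            ‖KP (fx a n (xs k)) P ((fx a n (xs k))^[N] z)‖ <
              τ * ‖KP (fx a n (xs k)) P ((fx a n (xs k))^[b] ((xs k) (some i)))‖) := by
          by_contra hcon
          apply hS
          have h1 : ∀ᶠ k in atTop, ∀ i ∈ Es, ∀ b ∈ Finset.range P, rf i = i →
            ¬ (‖(fx a n (xs k))^[N] z - (fx a n (xs k))^[b] (SP (fx a n (xs k)) P ((xs k) (some i)))‖ < r' ∧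
            ‖KP (fx a n (xs k)) P ((fx a n (xs k))^[N] z)‖ <
              τ * ‖KP (fx a n (xs k)) P ((fx a n (xs k))^[b] ((xs k) (some i)))‖) := by
            rw [eventually_all_finset]
            intro i hi
            rw [eventually_all_finset]
            intro b hb
            by_cases hri : rf i = i
            · have h2 : ¬ ∃ᶠ k in atTop,
                  (‖(fx a n (xs k))^[N] z -
                    (fx a n (xs k))^[b] (SP (fx a n (xs k)) P ((xs k) (some i)))‖ < r' ∧
                  ‖KP (fx a n (xs k)) P ((fx a n (xs k))^[N] z)‖ <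
                    τ * ‖KP (fx a n (xs k)) P ((fx a n (xs k))^[b] ((xs k) (some i)))‖) :=
                fun h => hcon ⟨i, hi, hri, b, Finset.mem_range.1 hb, h⟩
              rw [not_frequently] at h2
              filter_upwards [h2] with k hk _
              exact hk
            · exact Eventually.of_forall fun k h => absurd h hri
          filter_upwards [h1] with k hk
          rintro ⟨i, hi, hri, b, hb, hc⟩
          exact hk i hi b (Finset.mem_range.2 hb) hri hc
        obtain ⟨i, hi, hri, b, hb, hfr2⟩ := hex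
        obtain ⟨s1, s2, s3, s4⟩ := hsink x hx i hi b
        set s := (fx a n x)^[b] (SP (fx a n x) P (x (some i))) with hs
        have hci : Tendsto (fun k => (xs k) (some i)) atTop (𝓝 (x (some i))) :=
          ((continuous_apply (some i)).tendsto x).comp hlim
        have hSPk : Tendsto (fun k => SP (fx a n (xs k)) P ((xs k) (some i))) atTop
            (𝓝 (SP (fx a n x) P (x (some i)))) := by
          have h1 : ContinuousAt (fun y : PE n × ℂ => SP (fx a n y.1) P y.2) (x, x (some i)) :=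
            hSPd.continuousOn.continuousAt (hATo.mem_nhds (hLA x hx i hi).1)
          exact lscp_tendsto (F := fun x z => SP (fx a n x) P z) h1 hlim hci
        have hsk : Tendsto (fun k => (fx a n (xs k))^[b] (SP (fx a n (xs k)) P ((xs k) (some i))))
            atTop (𝓝 s) := lscp_tendsto_iter a n b hlim hSPk
        have hd : ‖y - s‖ ≤ r' := by
          exact (isClosed_Iic (a := r')).mem_of_frequently_of_tendsto
            (hfr2.mono fun k hk => le_of_lt hk.1) (hyk.sub hsk).norm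
        have hyb : y ∈ ball s r₁ := by
          rw [mem_ball, dist_eq_norm]; linarith
        have hSk : Sk (fx a n x) P y s := (hKL.att x (hLB x hx) s s2 s3 s4 y hyb).1
        have hyA : (x, y) ∈ A0 a n P := by
          refine ⟨⟨s, hSk⟩, ?_⟩
          obtain ⟨h1, _, _, _, _⟩ := hK0 (fx a n x) P (lscp_fx_diff a n x) hP
          have h2 : SP (fx a n x) P y = s := h1 y s hSk
          show deriv ((fx a n x)^[P]) (SP (fx a n x) P y) ≠ 0
          rw [h2]
          intro h0
          rw [h0, norm_zero] at s3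
          have := hKL.l0
          linarith
        have hK1' : Tendsto (fun k => ‖KP (fx a n (xs k)) P ((fx a n (xs k))^[N] z)‖) atTop
            (𝓝 ‖KP (fx a n x) P y‖) := by
          have h1 : ContinuousAt (fun y : PE n × ℂ => KP (fx a n y.1) P y.2) (x, y) :=
            hKPd.continuousOn.continuousAt (hA0o.mem_nhds hyA)
          exact (lscp_tendsto (F := fun x z => KP (fx a n x) P z) h1 hlim hyk).norm
        have hK2' : Tendsto (fun k => τ * ‖KP (fx a n (xs k)) P ((fx a n (xs k))^[b] ((xs k) (some i)))‖)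
            atTop (𝓝 (τ * ‖KP (fx a n x) P ((fx a n x)^[b] (x (some i)))‖)) := by
          have h1 : ContinuousAt (fun y : PE n × ℂ => KP (fx a n y.1) P y.2)
              (x, (fx a n x)^[b] (x (some i))) :=
            hKPd.continuousOn.continuousAt (hA0o.mem_nhds s1)
          have h3 : Tendsto (fun k => (fx a n (xs k))^[b] ((xs k) (some i))) atTop
              (𝓝 ((fx a n x)^[b] (x (some i)))) := lscp_tendsto_iter a n b hlim hci
          exact ((lscp_tendsto (F := fun x z => KP (fx a n x) P z) h1 hlim h3).norm).const_mul τ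
        have hle : ‖KP (fx a n x) P y‖ ≤ τ * ‖KP (fx a n x) P ((fx a n x)^[b] (x (some i)))‖ := by
          have hcl : IsClosed {p : ℝ × ℝ | p.1 ≤ p.2} := isClosed_le continuous_fst continuous_snd
          exact hcl.mem_of_frequently_of_tendsto
            (hfr2.mono fun k hk => le_of_lt hk.2) (hK1'.prodMk_nhds hK2')
        rcases hd.eq_or_lt with hd | hd
        · right; right
          simp only [mem_iUnion]
          refine ⟨i, hi, b, Or.inl ?_⟩
          rw [mem_sphere, dist_eq_norm]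
          exact hd
        · rcases hle.eq_or_lt with hle | hle
          · right; right
            simp only [mem_iUnion]
            exact ⟨i, hi, b, Or.inr ⟨hyb, hle⟩⟩
          · left; right
            exact ⟨i, hi, hri, b, hb, hd, hle⟩
    rcases hgoal with h | h
    · left
      intro h'
      exact h' h
    · right; exact h
  -- bounded
  have hbd : ∀ x ∈ L, BN a n P R₃ R₇ φ Es rf r' τ N x ⊆ closedBall 0 (R₇ + C₁) := by
    intro x hx z hz
    rw [mem_closedBall_zero_iff]
    by_contra hcon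
    rw [not_le] at hcon
    apply hz
    left
    have hxB : ‖x‖ ≤ B := (mem_ball_zero_iff.mp (hLB x hx)).le
    have hit : ∀ m : ℕ, ‖z‖ ≤ ‖(fx a n x)^[m] z‖ := by
      intro m
      induction m with
      | zero => exact le_rfl
      | succ m ih =>
        rw [Function.iterate_succ_apply']
        have h1 := hBO.esc x hxB ((fx a n x)^[m] z) (by linarith)
        have h2 : 0 ≤ ‖(fx a n x)^[m] z‖ := norm_nonneg _
        linarith
    have h1 := hit N
    have h2 : R₃ < ‖(fx a n x)^[N] z‖ := by linarith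
    refine ⟨h2, ?_⟩
    have h3 := hBO.φc x (hLB x hx) _ h2
    have h4 : ‖(fx a n x)^[N] z‖ - ‖φ (x, (fx a n x)^[N] z)‖ ≤
        ‖φ (x, (fx a n x)^[N] z) - (fx a n x)^[N] z‖ := by
      rw [norm_sub_rev]
      exact norm_sub_norm_le _ _
    linarith
  have hfin : ∀ x ∈ L, volume (BN a n P R₃ R₇ φ Es rf r' τ N x) ≠ ⊤ := by
    intro x hx
    exact ((measure_mono (hbd x hx)).trans_lt measure_closedBall_lt_top).ne
  -- conclusion
  intro x hx y hy
  by_contra hcon
  have hfr : ∃ᶠ x' in 𝓝[L] x, (x' ∈ L ∧ (volume (BN a n P R₃ R₇ φ Es rf r' τ N x')).toReal ≤ y) := by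
    have h1 : ∃ᶠ x' in 𝓝[L] x, ¬ (y < (volume (BN a n P R₃ R₇ φ Es rf r' τ N x')).toReal) := by
      rw [← not_eventually]
      exact hcon
    refine (h1.and_eventually self_mem_nhdsWithin).mono ?_
    intro x' hx'
    exact ⟨hx'.2, not_lt.1 hx'.1⟩
  obtain ⟨xs, hxs1, hxs2⟩ := exists_seq_forall_of_frequently hfr
  have hlim : Tendsto xs atTop (𝓝 x) := hxs1.mono_right nhdsWithin_le_nhds
  have hy0 : 0 ≤ y := ENNReal.toReal_nonneg.trans (hxs2 0).2
  have hvol : ∀ k, volume (BN a n P R₃ R₇ φ Es rf r' τ N (xs k)) ≤ ENNReal.ofReal y := by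
    intro k
    rw [← ENNReal.ofReal_toReal (hfin _ (hxs2 k).1)]
    exact ENNReal.ofReal_le_ofReal (hxs2 k).2
  set Z := (fx a n x)^[N] ⁻¹' (lscpEx a n P R₃ R₇ r' τ r₁ φ Es x) with hZ
  have hZ0 : volume Z = 0 := lscp_null_iter ha n x N _ (hEx x hx)
  set A : ℕ → Set ℂ := fun m => ⋂ k ≥ m, BN a n P R₃ R₇ φ Es rf r' τ N (xs k) with hA
  have hAmono : Monotone A := by
    intro m m' hmm' z hz
    simp only [hA, mem_iInter] at hz ⊢
    intro k hk
    exact hz k (le_trans hmm' hk)
  have hAvol : volume (⋃ m, A m) ≤ ENNReal.ofReal y := by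
    rw [hAmono.measure_iUnion]
    apply iSup_le
    intro m
    refine (measure_mono ?_).trans (hvol m)
    intro z hz
    simp only [hA, mem_iInter] at hz
    exact hz m le_rfl
  have hsub : BN a n P R₃ R₇ φ Es rf r' τ N x ⊆ (⋃ m, A m) ∪ Z := by
    intro z hz
    by_contra hcon2
    simp only [mem_union, not_or] at hcon2
    obtain ⟨c1, c2⟩ := hcon2
    have hfrz : ∃ᶠ k in atTop, z ∉ BN a n P R₃ R₇ φ Es rf r' τ N (xs k) := by
      intro hev
      apply c1
      simp only [not_not] at hev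
      rw [eventually_atTop] at hev
      obtain ⟨m, hm⟩ := hev
      rw [mem_iUnion]
      refine ⟨m, ?_⟩
      simp only [hA, mem_iInter]
      exact fun k hk => hm k hk
    rcases hmain x xs hx (fun k => (hxs2 k).1) hlim z hfrz with h | h
    · exact h hz
    · exact c2 h
  have hvx : volume (BN a n P R₃ R₇ φ Es rf r' τ N x) ≤ ENNReal.ofReal y := by
    refine (measure_mono hsub).trans ((measure_union_le _ _).trans ?_)
    rw [hZ0, add_zero]
    exact hAvol
  have h1 : (volume (BN a n P R₃ R₇ φ Es rf r' τ N x)).toReal ≤ y := by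
    have := ENNReal.toReal_mono ENNReal.ofReal_ne_top hvx
    rwa [ENNReal.toReal_ofReal hy0] at this
  exact absurd hy (not_lt.2 h1)

end Pool.Agent.H713R5.QJ
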