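import Mathlib
import Pool.Agent.H713R5.QJ.Defs2
import Pool.Agent.H713R4.RB.TMOT

/-! Task MOTL: existence of the holomorphic motion at a fixed level (adapted from TMOT). -/

set_option autoImplicit false

open Topology Filter Metric Set Polynomial MeasureTheory
open Pool.Agent.H713R3.ZA
open Pool.Agent.H713R4.RB (WW FH Over Ndg Crit WN MOT StPRO StWN StBAD)
open Pool.Agent.H713R4.RB.MOTaux

namespace Pool.Agent.H713R5.QJ

namespace MOTL

variable {d : ℕ} {γ : ℂ → WW d} {ρ : ℝ} {U : Set ℂ} {H : ℂ → ℂ → ℂ} {Bd : Set ℂ} {N : ℕ}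

theorem root_genL (hROOT : Pool.Agent.H713R3.ZA.StROOT) (hPRO : StPRO) (hWN : StWN) (hd : 2 ≤ d)
    (hr : RDL d γ ρ U H Bd N) {V : Type} [NormedAddCommGroup V]
    [NormedSpace ℂ V] [FiniteDimensional ℂ V] {U' : Set V} (hUo : IsOpen U') (hUc : Convex ℝ U')
    {τ σ : V → ℂ} (hτ : DifferentiableOn ℂ τ U') (hσ : DifferentiableOn ℂ σ U')
    (hτm : ∀ s ∈ U', τ s ∈ ball (0 : ℂ) ρ) (hσm : ∀ s ∈ U', σ s ∈ WN d (γ 0) (U \ Bd) N)
    {s₀ : V} (hs₀ : s₀ ∈ U') {u : ℂ}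
    (hu : Over ((FH d (γ (τ s₀)))^[N] (u, 1)) (H (τ s₀) (vv d (γ 0) N (σ s₀)))) :
    ∃ Z : V → ℂ, DifferentiableOn ℂ Z U' ∧ Z s₀ = u ∧
      (∀ s ∈ U', Over ((FH d (γ (τ s)))^[N] (Z s, 1)) (H (τ s) (vv d (γ 0) N (σ s)))) ∧
      ∀ Z' : V → ℂ, ContinuousOn Z' U' → (∃ s₁ ∈ U', Z' s₁ = Z s₁) →
        (∀ s ∈ U', Over ((FH d (γ (τ s)))^[N] (Z' s, 1)) (H (τ s) (vv d (γ 0) N (σ s)))) →
        ∀ s ∈ U', Z' s = Z s := by
  have hd1 : 1 ≤ d := by omega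
  have hγτ : DifferentiableOn ℂ (fun s => γ (τ s)) U' := hr.γd.comp hτ hτm
  have hvσ : DifferentiableOn ℂ (fun s => vv d (γ 0) N (σ s)) U' := vv_diff.comp hσ hσm
  have hvU : ∀ s ∈ U', vv d (γ 0) N (σ s) ∈ U \ Bd := fun s hs => (mem_WN.1 (hσm s hs)).2
  set w : V → ℂ := fun s => H (τ s) (vv d (γ 0) N (σ s)) with hw
  have hwd : DifferentiableOn ℂ w U' := by
    have h1 : DifferentiableOn ℂ (fun s => ((τ s, vv d (γ 0) N (σ s)) : ℂ × ℂ)) U' := hτ.prodMk hvσ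
    exact hr.Hd.comp h1 (fun s hs => ⟨hτm s hs, (hvU s hs).1⟩)
  set G : V → ℂ → ℂ := fun s z => ((FH d (γ (τ s)))^[N] (z, 1)).1 -
    w s * ((FH d (γ (τ s)))^[N] (z, 1)).2 with hG
  have hGd : DifferentiableOn ℂ (fun p : V × ℂ => G p.1 p.2) (U' ×ˢ univ) := by
    have h1 : DifferentiableOn ℂ (fun p : V × ℂ => ((γ (τ p.1), (p.2, 1)) : WW d × (ℂ × ℂ)))
        (U' ×ˢ univ) := by
      apply DifferentiableOn.prodMk _ ((differentiable_snd.prodMk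
        (differentiable_const (1 : ℂ))).differentiableOn)
      exact hγτ.comp differentiable_fst.differentiableOn (fun p hp => hp.1)
    have h2 : DifferentiableOn ℂ (fun p : V × ℂ => (FH d (γ (τ p.1)))^[N] (p.2, 1))
        (U' ×ˢ univ) := (differentiable_iter N).comp_differentiableOn h1
    have h3 : DifferentiableOn ℂ (fun p : V × ℂ => w p.1) (U' ×ˢ univ) :=
      hwd.comp differentiable_fst.differentiableOn (fun p hp => hp.1)
    exact h2.fst.sub (h3.mul h2.snd)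
  have hGc : ContDiffOn ℂ 1 (fun p : V × ℂ => G p.1 p.2) (U' ×ˢ univ) := by
    exact_mod_cast Pool.Agent.Helper540.contDiffOn_of_differentiableOn (hUo.prod isOpen_univ) hGd 1
  have hov : ∀ s ∈ U', ∀ z, G s z = 0 → Over ((FH d (γ (τ s)))^[N] (z, 1)) (w s) := by
    intro s hs z hz
    exact over_of_eq (ndg_iter_one (hr.ndg _ (hτm s hs)) N z) (sub_eq_zero.1 hz)
  obtain ⟨Z, hZd, hZ0, hZr, hZu⟩ := hROOT V U' G hUo hUc hGc (by
    intro K hKU hK M'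
    have hKc : IsCompact ((fun s => ((γ (τ s), w s) : WW d × ℂ)) '' K) :=
      hK.image_of_continuousOn ((hγτ.continuousOn.mono hKU).prodMk (hwd.continuousOn.mono hKU))
    obtain ⟨B, hB⟩ := hPRO d N _ hd1 hKc (by
      rintro _ ⟨s, hs, rfl⟩ heq
      have hs' := hKU hs
      have ho : Over ((FH d (γ (τ s)))^[N] (1, 0)) (H (τ s) (vv d (γ 0) N (σ s))) :=
        over_of_eq (ndg_iter_inf (hr.ndg _ (hτm s hs')) N) heq
      exact (hvU s hs').2 (hr.inf _ (hτm s hs') _ (hvU s hs').1 ho)) M'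
    exact ⟨B, fun s hs z hz => hB _ ⟨s, hs, rfl⟩ z hz⟩) (by
    intro s hs z hz h0
    have hn := hr.ndg _ (hτm s hs)
    have ho := hov s hs z hz
    have hdz := (differentiable_one (γ (τ s)) N) z
    have hdiff1 : DifferentiableAt ℂ (fun ζ : ℂ => ((FH d (γ (τ s)))^[N] (ζ, 1)).1) z := hdz.fst
    have hdiff2 : DifferentiableAt ℂ (fun ζ : ℂ => ((FH d (γ (τ s)))^[N] (ζ, 1)).2) z := hdz.snd
    have h1 : deriv (G s) z = deriv (fun ζ : ℂ => ((FH d (γ (τ s)))^[N] (ζ, 1)).1) z -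
        w s * deriv (fun ζ : ℂ => ((FH d (γ (τ s)))^[N] (ζ, 1)).2) z := by
      rw [← deriv_const_mul _ hdiff2, ← deriv_fun_sub hdiff1 (hdiff2.const_mul _)]
    rw [h1] at h0
    have h2 := (hWN d N (γ (τ s)) z hd1 hn).1 (by
      rw [sub_eq_zero.1 h0, ho.2]; ring)
    obtain ⟨j, hj, hc⟩ := h2
    have hp : (FH d (γ (τ s)))^[j] (z, 1) ≠ 0 := ndg_iter_one hn j z
    have hit : (FH d (γ (τ s)))^[N - j] ((FH d (γ (τ s)))^[j] (z, 1)) =
        (FH d (γ (τ s)))^[N] (z, 1) := by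
      rw [← Function.iterate_add_apply, Nat.sub_add_cancel hj.le]
    exact (hvU s hs).2 (hr.crit _ (hτm s hs) _ hp hc (N - j) (by omega) (by omega) _
      (hvU s hs).1 (by rw [hit]; exact ho))) s₀ hs₀ u
    (sub_eq_zero.2 hu.2)
  refine ⟨Z, hZd, hZ0, fun s hs => hov s hs _ (hZr s hs), ?_⟩
  intro Z' h1 h2 h3
  exact hZu Z' h1 h2 (fun s hs => sub_eq_zero.2 (h3 s hs).2)

theorem over_zeroL (hr : RDL d γ ρ U H Bd N) {z : ℂ}
    (hz : z ∈ WN d (γ 0) (U \ Bd) N) :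
    Over ((FH d (γ 0))^[N] (z, 1)) (H 0 (vv d (γ 0) N z)) := by
  rw [hr.H0 _ (mem_WN.1 hz).2.1]
  exact over_vv hz

end MOTL

open MOTL in
theorem motl_holds : StMOTL := by
  classical
  intro hROOT hPRO hWN _ d γ ρ U H Bd N hd hr
  set W := WN d (γ 0) (U \ Bd) N with hW
  have hWo : IsOpen W := isOpen_WN (hr.Uo.sdiff hr.Bf.isClosed) N
  have h1 : ∀ z ∈ W, ∃ Z : ℂ → ℂ, DifferentiableOn ℂ Z (ball 0 ρ) ∧ Z 0 = z ∧
      (∀ t ∈ ball (0 : ℂ) ρ, Over ((FH d (γ t))^[N] (Z t, 1)) (H t (vv d (γ 0) N z))) ∧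
      ∀ Z' : ℂ → ℂ, ContinuousOn Z' (ball 0 ρ) → (∃ s₁ ∈ ball (0 : ℂ) ρ, Z' s₁ = Z s₁) →
        (∀ t ∈ ball (0 : ℂ) ρ, Over ((FH d (γ t))^[N] (Z' t, 1)) (H t (vv d (γ 0) N z))) →
        ∀ t ∈ ball (0 : ℂ) ρ, Z' t = Z t := by
    intro z hz
    exact root_genL hROOT hPRO hWN hd hr (V := ℂ) (U' := ball 0 ρ) (τ := id) (σ := fun _ => z)
      isOpen_ball (convex_ball 0 ρ) differentiableOn_id (differentiableOn_const z)
      (fun s hs => hs) (fun _ _ => hz) (mem_ball_self hr.hρ) (over_zeroL hr hz)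
  choose! Z hZd hZ0 hZr hZu using h1
  refine ⟨fun t z => Z z t, ?_, hZ0, ?_, ?_⟩
  swap
  · intro t ht z hz w hw
    have := hZr z hz t ht
    rwa [show vv d (γ 0) N z = w from (over_iff.1 hw).2] at this
  swap
  · intro z hz Z' h2 h3 h4
    exact hZu z hz Z' h2 h3 (fun t ht => h4 t ht _ (over_vv hz))
  rintro ⟨t₁, z₁⟩ ⟨ht₁, hz₁⟩
  apply DifferentiableAt.differentiableWithinAt
  obtain ⟨δ, hδ, hball⟩ := Metric.isOpen_iff.mp hWo z₁ hz₁
  have hU : IsOpen (ball (0 : ℂ) ρ ×ˢ ball z₁ δ) := isOpen_ball.prod isOpen_ball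
  obtain ⟨Y, hYd, hY0, hYr, hYu⟩ := root_genL hROOT hPRO hWN hd hr (V := ℂ × ℂ)
    (U' := ball (0 : ℂ) ρ ×ˢ ball z₁ δ) (τ := Prod.fst) (σ := Prod.snd) hU
    ((convex_ball 0 ρ).prod (convex_ball z₁ δ)) differentiable_fst.differentiableOn
    differentiable_snd.differentiableOn (fun s hs => hs.1) (fun s hs => hball hs.2)
    (s₀ := (0, z₁)) ⟨mem_ball_self hr.hρ, mem_ball_self hδ⟩ (over_zeroL hr hz₁)
  -- at time zero `Y` is the identity
  obtain ⟨Y₀, -, hY₀0, -, hY₀u⟩ := root_genL hROOT hPRO hWN hd hr (V := ℂ)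
    (U' := ball z₁ δ) (τ := fun _ => 0) (σ := id) isOpen_ball
    (convex_ball z₁ δ) (differentiableOn_const 0)
    differentiableOn_id (fun s hs => mem_ball_self hr.hρ) (fun s hs => hball hs)
    (s₀ := z₁) (mem_ball_self hδ) (over_zeroL hr hz₁)
  have hid : ∀ z ∈ ball z₁ δ, Y (0, z) = z := by
    have e0 : ∀ z ∈ ball z₁ δ, id z = Y₀ z := hY₀u id continuousOn_id
      ⟨z₁, mem_ball_self hδ, hY₀0.symm⟩ (fun z hz => over_zeroL hr (hball hz))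
    have e1 : ∀ z ∈ ball z₁ δ, (fun z => Y (0, z)) z = Y₀ z := by
      apply hY₀u
      · exact hYd.continuousOn.comp (by fun_prop) (fun z hz => ⟨mem_ball_self hr.hρ, hz⟩)
      · exact ⟨z₁, mem_ball_self hδ, by
          have := e0 z₁ (mem_ball_self hδ)
          simp only [id] at this
          rw [← this]; exact hY0⟩
      · intro z hz
        exact hYr (0, z) ⟨mem_ball_self hr.hρ, hz⟩
    intro z hz
    have := (e1 z hz).trans (e0 z hz).symm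
    simpa using this
  have heq : ∀ p ∈ ball (0 : ℂ) ρ ×ˢ ball z₁ δ, Y p = Z p.2 p.1 := by
    rintro ⟨t, z⟩ ⟨ht, hz⟩
    have hzW := hball hz
    refine hZu z hzW (fun t => Y (t, z)) ?_ ⟨0, mem_ball_self hr.hρ, ?_⟩ ?_ t ht
    · exact hYd.continuousOn.comp (by fun_prop) (fun t ht => ⟨ht, hz⟩)
    · rw [hid z hz, hZ0 z hzW]
    · intro t ht
      exact hYr (t, z) ⟨ht, hz⟩
  have hmem : ((t₁, z₁) : ℂ × ℂ) ∈ ball (0 : ℂ) ρ ×ˢ ball z₁ δ := ⟨ht₁, mem_ball_self hδ⟩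
  refine (hYd.differentiableAt (hU.mem_nhds hmem)).congr_of_eventuallyEq ?_
  filter_upwards [hU.mem_nhds hmem] with p hp
  exact (heq p hp).symm

end Pool.Agent.H713R5.QJ
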