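import Mathlib
import Pool.Agent.H713R5.QJ.Defs2
import Pool.Agent.H713R5.QJ.TCRB
import Pool.Agent.H713R5.QJ.TKBP
import Pool.Agent.H713R3.ZA.TROOT

/-!
Project QJ (MP_28f8a1_an), task NINF: bad points are never in the target region, and the level `N`
area tends to the area of the bad set.

Written by helper496.
-/

set_option autoImplicit false

open Topology Filter Metric Set Polynomial MeasureTheory
open Pool.Agent.H713R3.ZA

namespace Pool.Agent.H713R5.QJ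

namespace NINFaux

open CRBaux

/-- a point attracted by a periodic point follows its orbit -/
theorem tendsto_orbit {f : ℂ → ℂ} (hf : Continuous f) {Q : ℕ} (hQ : 0 < Q) {z zs : ℂ}
    (hfix : f^[Q] zs = zs) (ht : Tendsto (fun k : ℕ => f^[Q * k] z) atTop (𝓝 zs)) :
    Tendsto (fun N : ℕ => ‖f^[N] z - f^[N] zs‖) atTop (𝓝 0) := by
  have hfixk : ∀ k : ℕ, f^[Q * k] zs = zs := by
    intro k
    rw [Function.iterate_mul]
    exact Function.iterate_fixed hfix k
  have hj : ∀ j : ℕ, Tendsto (fun k : ℕ => ‖f^[j + Q * k] z - f^[j + Q * k] zs‖) atTop (𝓝 0) := by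
    intro j
    have h1 : Tendsto (fun k : ℕ => f^[j] (f^[Q * k] z)) atTop (𝓝 (f^[j] zs)) :=
      ((hf.iterate j).tendsto zs).comp ht
    have h2 : Tendsto (fun k : ℕ => ‖f^[j] (f^[Q * k] z) - f^[j] zs‖) atTop (𝓝 0) := by
      have := (h1.sub_const (f^[j] zs)).norm
      rwa [sub_self, norm_zero] at this
    refine h2.congr fun k => ?_
    rw [Function.iterate_add_apply, Function.iterate_add_apply, hfixk]
  rw [Metric.tendsto_atTop]
  intro ε hε
  have hK : ∀ j : ℕ, ∃ K : ℕ, ∀ k ≥ K, ‖f^[j + Q * k] z - f^[j + Q * k] zs‖ < ε := by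
    intro j
    obtain ⟨K, hK⟩ := (Metric.tendsto_atTop.1 (hj j)) ε hε
    refine ⟨K, fun k hk => ?_⟩
    have := hK k hk
    rwa [Real.dist_eq, sub_zero, abs_of_nonneg (norm_nonneg _)] at this
  choose K hK using hK
  refine ⟨Q * ((Finset.range Q).sup K), fun N hN => ?_⟩
  rw [Real.dist_eq, sub_zero, abs_of_nonneg (norm_nonneg _)]
  have hmod : N % Q < Q := Nat.mod_lt _ hQ
  have hdiv : (Finset.range Q).sup K ≤ N / Q := by
    rw [Nat.le_div_iff_mul_le hQ, Nat.mul_comm]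
    exact hN
  have h := hK (N % Q) (N / Q)
    ((Finset.le_sup (f := K) (Finset.mem_range.2 hmod)).trans hdiv)
  rwa [Nat.mod_add_div] at h

section
variable {a : ℂ} {n P M : ℕ} {B R C₁ R₁ R₃ R₇ lam₀ lam₁ r₁ r₂ r' τ : ℝ} {ψ φ : PE n × ℂ → ℂ}
  {Es Ee : Finset (Fin n)} {rf : Fin n → Fin n} {ap : Fin n → ℕ} {x : PE n}

/-- points of large modulus are in the far part -/
theorem mem_UF (hb : BO a n B R C₁ R₁ R₃ ψ φ) (hR₇ : R₃ + C₁ ≤ R₇) (hx : x ∈ ball (0 : PE n) B)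
    {w : ℂ} (hw : R₇ + C₁ < ‖w‖) : w ∈ UF n R₃ R₇ φ x := by
  have h1 := hb.hC
  have h3 : R₃ < ‖w‖ := by linarith
  refine ⟨h3, ?_⟩
  have h4 := hb.φc x hx w h3
  have h5 : ‖w‖ - ‖φ (x, w)‖ ≤ C₁ := by
    refine (norm_sub_norm_le _ _).trans ?_
    rwa [norm_sub_rev]
  linarith

theorem ninf_iter_large (hb : BO a n B R C₁ R₁ R₃ ψ φ) (hx : x ∈ ball (0 : PE n) B)
    {z : ℂ} (hz : R ≤ ‖z‖) (N : ℕ) : ‖z‖ ≤ ‖(fx a n x)^[N] z‖ := by
  have hxB : ‖x‖ ≤ B := by
    have := mem_ball_zero_iff.1 hx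
    exact this.le
  induction N with
  | zero => exact le_rfl
  | succ N ih =>
    rw [Function.iterate_succ_apply']
    have h := hb.esc x hxB _ (hz.trans ih)
    have h0 : 0 ≤ ‖(fx a n x)^[N] z‖ := norm_nonneg _
    linarith

/-- the sinks have the right multipliers -/
theorem sink_facts (hKO0 : StKO0) (hP : 0 < P) {u : ℂ} (hat : AT (fx a n x) P u) (b : ℕ) :
    Sk (fx a n x) P ((fx a n x)^[b] u) ((fx a n x)^[b] (SP (fx a n x) P u)) ∧
      deriv ((fx a n x)^[P]) ((fx a n x)^[b] (SP (fx a n x) P u)) = LP (fx a n x) P u := by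
  obtain ⟨-, h2, h3, h4, -⟩ := hKO0 (fx a n x) P (fx_differentiable a n x) hP
  obtain ⟨h5, h6⟩ := sp_iter h3 h4 hat b
  have h7 := h2 _ ((at_iter h3 _ b).2 hat)
  rw [h5] at h7
  refine ⟨h7, ?_⟩
  rw [← h6, LP, h5]

theorem bad_subset (hKO0 : StKO0) (hP : 0 < P) (hb : BO a n B R C₁ R₁ R₃ ψ φ)
    (hkl : KL a n P B lam₀ lam₁ r₁ r₂) (hr'1 : r' < r₁) (hx : x ∈ OO a n P M B R₃ Es Ee)
    (hlam : ∀ i ∈ Es, lam₀ ≤ ‖LP (fx a n x) P (x (some i))‖ ∧
      ‖LP (fx a n x) P (x (some i))‖ ≤ lam₁) (N : ℕ) :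
    {z | ¬ Good (fx a n x) z} ⊆ BN a n P R₃ R₇ φ Es rf r' τ N x := by
  intro z hz hmem
  apply hz
  obtain ⟨hxB, hA, -⟩ := hx
  rcases hmem with hU | hU
  · apply good_of_large hb hxB (k := N)
    have h5 := hb.hC
    have h6 := hb.hR₁
    have h7 := hb.hR₃
    have h8 := hU.1
    linarith
  · obtain ⟨i, hi, -, b, -, h5, -⟩ := hU
    obtain ⟨-, -, h3, -, -⟩ := hKO0 (fx a n x) P (fx_differentiable a n x) hP
    right
    refine ⟨P, hP, ?_⟩
    rw [← at_iter h3 _ N]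
    obtain ⟨h7, h8⟩ := sink_facts hKO0 hP (hA i hi).1 b
    have h9 := hlam i hi
    have h10 := hkl.att x hxB _ h7.1 (by rw [h8]; exact h9.1) (by rw [h8]; exact h9.2)
      ((fx a n x)^[N] z) (by
        rw [mem_ball, dist_eq_norm]
        linarith)
    exact ⟨_, h10.1⟩

theorem KP_cont (hkl : KL a n P B lam₀ lam₁ r₁ r₂) (hx : x ∈ ball (0 : PE n) B) {zs : ℂ}
    (h1 : (fx a n x)^[P] zs = zs) (h2 : lam₀ ≤ ‖deriv ((fx a n x)^[P]) zs‖)
    (h3 : ‖deriv ((fx a n x)^[P]) zs‖ ≤ lam₁) :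
    ContinuousOn (KP (fx a n x) P) (ball zs r₁) := by
  intro z hz
  have hcl := hkl.close x hx zs h1 h2 h3
  apply ContinuousAt.continuousWithinAt
  rw [ContinuousAt, tendsto_iff_norm_sub_tendsto_zero]
  have hev : ∀ᶠ w in 𝓝 z, ‖KP (fx a n x) P w - KP (fx a n x) P z‖ ≤ 2 * ‖w - z‖ := by
    filter_upwards [isOpen_ball.mem_nhds hz] with w hw
    have h4 := hcl w hw z hz
    have h5 : ‖KP (fx a n x) P w - KP (fx a n x) P z‖ ≤
        ‖KP (fx a n x) P w - KP (fx a n x) P z - (w - z)‖ + ‖w - z‖ := by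
      have := norm_add_le (KP (fx a n x) P w - KP (fx a n x) P z - (w - z)) (w - z)
      rwa [sub_add_cancel] at this
    have h6 : 0 ≤ ‖w - z‖ := norm_nonneg _
    linarith
  have hlim : Tendsto (fun w : ℂ => 2 * ‖w - z‖) (𝓝 z) (𝓝 0) := by
    have : ContinuousAt (fun w : ℂ => 2 * ‖w - z‖) z := by fun_prop
    have h := this.tendsto
    simpa using h
  exact squeeze_zero' (Eventually.of_forall fun _ => norm_nonneg _) hev hlim

theorem isOpen_target (hKO0 : StKO0) (hP : 0 < P) (hb : BO a n B R C₁ R₁ R₃ ψ φ)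
    (hkl : KL a n P B lam₀ lam₁ r₁ r₂) (hr'1 : r' < r₁) (hx : x ∈ OO a n P M B R₃ Es Ee)
    (hlam : ∀ i ∈ Es, lam₀ ≤ ‖LP (fx a n x) P (x (some i))‖ ∧
      ‖LP (fx a n x) P (x (some i))‖ ≤ lam₁) :
    IsOpen (UF n R₃ R₇ φ x ∪ US a n P Es rf r' τ x) := by
  obtain ⟨hxB, hA, -⟩ := hx
  apply IsOpen.union
  · have h1 : ContinuousOn (fun z : ℂ => φ (x, z)) {z : ℂ | R₃ < ‖z‖} := by
      refine hb.φd.continuousOn.comp (f := fun z : ℂ => (x, z)) ?_ ?_
      · fun_prop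
      · intro z hz
        exact ⟨hxB, hz⟩
    have h2 : IsOpen {z : ℂ | R₃ < ‖z‖} := isOpen_lt continuous_const continuous_norm
    have h3 := h1.norm.isOpen_inter_preimage h2 (isOpen_Ioi (a := R₇))
    exact h3
  · have hUS : US a n P Es rf r' τ x = ⋃ i : {i : Fin n // i ∈ Es ∧ rf i = i},
        ⋃ b : {b : ℕ // b < P},
        (ball ((fx a n x)^[b.1] (SP (fx a n x) P (x (some i.1)))) r' ∩
          KP (fx a n x) P ⁻¹' (ball 0 (τ * ‖KP (fx a n x) P ((fx a n x)^[b.1] (x (some i.1)))‖))) := by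
      ext z
      simp only [US, mem_iUnion, mem_inter_iff, mem_ball, dist_eq_norm, mem_preimage, sub_zero]
      constructor
      · rintro ⟨i, hi, hri, b, hb', h5, h6⟩
        exact ⟨⟨i, hi, hri⟩, ⟨b, hb'⟩, h5, h6⟩
      · rintro ⟨⟨i, hi, hri⟩, ⟨b, hb'⟩, h5, h6⟩
        exact ⟨i, hi, hri, b, hb', h5, h6⟩
    rw [hUS]
    refine isOpen_iUnion fun i => isOpen_iUnion fun b => ?_
    obtain ⟨h7, h8⟩ := sink_facts hKO0 hP (hA i.1 i.2.1).1 b.1
    have h9 := hlam i.1 i.2.1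
    have hc := KP_cont hkl hxB h7.1 (by rw [h8]; exact h9.1) (by rw [h8]; exact h9.2)
    exact (hc.mono (ball_subset_ball hr'1.le)).isOpen_inter_preimage isOpen_ball isOpen_ball

theorem KP_ne (hKO0 : StKO0) (hKO1 : StKO1) (hKO2 : StKO2) (hKO3 : StKO3) (ha : a ≠ 0)
    (hn : 1 ≤ n) (hP : 0 < P) {u : ℂ} (hu : (x, u) ∈ A0 a n P) (hK : KP (fx a n x) P u ≠ 0)
    (b : ℕ) : (x, (fx a n x)^[b] u) ∈ A0 a n P ∧ KP (fx a n x) P ((fx a n x)^[b] u) ≠ 0 := by
  obtain ⟨-, h⟩ := hKO2 hKO0 hKO1 hKO3 a n P ha hn hP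
  induction b with
  | zero => exact ⟨hu, hK⟩
  | succ b ih =>
    obtain ⟨-, h1, h2, h3, -⟩ := h x _ ih.1
    rw [Function.iterate_succ_apply']
    refine ⟨h1, ?_⟩
    rw [h3]
    exact mul_ne_zero h2 ih.2

/-- every good point is finally in the target region -/
theorem eventually_mem (hKO0 : StKO0) (hKO1 : StKO1) (hKO2 : StKO2) (hKO3 : StKO3)
    (hFATP : StFATP) (ha : a ≠ 0) (hn : 1 ≤ n) (hP : 0 < P) (hb : BO a n B R C₁ R₁ R₃ ψ φ)
    (hR₇ : R₃ + C₁ ≤ R₇) (hkl : KL a n P B lam₀ lam₁ r₁ r₂) (hr' : 0 < r') (hr'1 : r' < r₁)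
    (hτ : 0 < τ) (hx : x ∈ OO a n P M B R₃ Es Ee)
    (hlam : ∀ i ∈ Es, lam₀ ≤ ‖LP (fx a n x) P (x (some i))‖ ∧
      ‖LP (fx a n x) P (x (some i))‖ ≤ lam₁)
    (hK : ∀ i ∈ Es, KP (fx a n x) P (x (some i)) ≠ 0) (hrf : RFP n Es rf ap)
    (hrel : ∀ i ∈ Es, SP (fx a n x) P (x (some i)) =
        (fx a n x)^[ap i] (SP (fx a n x) P (x (some (rf i)))))
    (hbad : ∀ l : Fin n, l ∉ Es → l ∉ Ee → ¬ Good (fx a n x) (x (some l)))
    {z : ℂ} (hz : Good (fx a n x) z) :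
    ∀ᶠ N : ℕ in atTop, (fx a n x)^[N] z ∈ UF n R₃ R₇ φ x ∪ US a n P Es rf r' τ x := by
  have hxB := hx.1
  have hA := hx.2.1
  have hE := hx.2.2
  rcases hz with hz | ⟨P', hP', zs, hsk⟩
  · filter_upwards [hz.eventually_gt_atTop (R₇ + C₁)] with N hN
    exact Or.inl (mem_UF hb hR₇ hxB hN)
  · have hfc : Continuous (fx a n x) := (fx_differentiable a n x).continuous
    obtain ⟨i₀, l, hsk0⟩ := hFATP hKO0 hKO1 hKO2 hKO3 root_holds kbp_holds a n P' ha hn hP' x zs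
      hsk.1 hsk.2.1
    -- the critical point is in `Es`
    have hi₀ : i₀ ∈ Es := by
      by_contra h1
      by_cases h2 : i₀ ∈ Ee
      · have h3 := hE i₀ h2
        have hesc : Tendsto (fun k : ℕ => ‖(fx a n x)^[k] (x (some i₀))‖) atTop atTop := by
          have h1' : R ≤ ‖(fx a n x)^[M] (x (some i₀))‖ := by
            have h5 := hb.hC
            have h6 := hb.hR₁
            have h7 := hb.hR₃
            linarith
          have h4 := not_mem_KJ_of_large hb hxB h1'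
          unfold KJ at h4
          rw [mem_ofPred_eq, not_not] at h4
          exact h4
        have h5 : Tendsto (fun k : ℕ => P' * k) atTop atTop :=
          tendsto_id.const_mul_atTop' hP'
        have h6 := hesc.comp h5
        have h7 := hsk0.2.2.norm
        exact not_tendsto_nhds_of_tendsto_atTop h6 _ h7
      · exact hbad i₀ h1 h2 (Or.inr ⟨P', hP', _, hsk0⟩)
    set f := fx a n x with hf
    obtain ⟨-, hSk, -, -, -⟩ := hKO0 f P (fx_differentiable a n x) hP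
    have hs0 := hSk _ (hA i₀ hi₀).1
    -- both limits agree
    have hlim : SP f P (x (some i₀)) = f^[l] zs := by
      have h1 : Tendsto (fun k : ℕ => f^[P * (P' * k)] (x (some i₀))) atTop
          (𝓝 (SP f P (x (some i₀)))) :=
        hs0.2.2.comp (tendsto_id.const_mul_atTop' hP')
      have h2 : Tendsto (fun k : ℕ => f^[P' * (P * k)] (x (some i₀))) atTop (𝓝 (f^[l] zs)) :=
        hsk0.2.2.comp (tendsto_id.const_mul_atTop' hP)
      refine tendsto_nhds_unique h1 (h2.congr fun k => ?_)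
      rw [show P' * (P * k) = P * (P' * k) by ring]
    set j := rf i₀ with hj
    have hjE : j ∈ Es := hrf.mem i₀ hi₀
    have hjj : rf j = j := hrf.idem i₀ hi₀
    set s := SP f P (x (some j)) with hs
    have hsj := hSk _ (hA j hjE).1
    have hsfix : f^[P] s = s := hsj.1
    have hsmod : ∀ m : ℕ, f^[m] s = f^[m % P] s := by
      intro m
      have h1 : f^[P * (m / P)] s = s := by
        rw [Function.iterate_mul]
        exact Function.iterate_fixed hsfix _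
      conv_lhs => rw [← Nat.mod_add_div m P, Function.iterate_add_apply, h1]
    have hzs : ∃ m : ℕ, zs = f^[m] s := by
      have hzfix : f^[P'] zs = zs := hsk.1
      have hle : l ≤ P' * (l + 1) := by nlinarith
      refine ⟨(P' * (l + 1) - l) + ap i₀, ?_⟩
      rw [Function.iterate_add_apply, ← hrel i₀ hi₀, hlim, ← Function.iterate_add_apply,
        Nat.sub_add_cancel hle, Function.iterate_mul]
      exact (Function.iterate_fixed hzfix _).symm
    obtain ⟨m, hm⟩ := hzs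
    have horb := tendsto_orbit hfc hP' hsk.1 hsk.2.2
    -- positions of the reference points
    have hKne := fun b => KP_ne hKO0 hKO1 hKO2 hKO3 ha hn hP (hA j hjE) (hK j hjE) b
    obtain ⟨κ, hκ0, hκ⟩ : ∃ κ : ℝ, 0 < κ ∧ ∀ b < P, κ ≤ ‖KP f P (f^[b] (x (some j)))‖ := by
      have hne : (Finset.range P).Nonempty := ⟨0, Finset.mem_range.2 hP⟩
      refine ⟨(Finset.range P).inf' hne fun b => ‖KP f P (f^[b] (x (some j)))‖, ?_, ?_⟩
      · rw [Finset.lt_inf'_iff]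
        intro b _
        exact norm_pos_iff.2 (hKne b).2
      · intro b hb'
        exact Finset.inf'_le _ (Finset.mem_range.2 hb')
    have hmin : 0 < min r' (τ * κ / 2) := lt_min hr' (by positivity)
    filter_upwards [horb.eventually (gt_mem_nhds hmin)] with N hN
    right
    have hpos : f^[N] zs = f^[(N + m) % P] s := by
      rw [hm, ← Function.iterate_add_apply, hsmod]
    rw [hpos] at hN
    have hbP : (N + m) % P < P := Nat.mod_lt _ hP
    have hN1 : ‖f^[N] z - f^[(N + m) % P] s‖ < r' := lt_of_lt_of_le hN (min_le_left _ _)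
    have hN2 : ‖f^[N] z - f^[(N + m) % P] s‖ < τ * κ / 2 := lt_of_lt_of_le hN (min_le_right _ _)
    refine ⟨j, hjE, hjj, (N + m) % P, hbP, hN1, ?_⟩
    obtain ⟨h7, h8⟩ := sink_facts hKO0 hP (hA j hjE).1 ((N + m) % P)
    have h9 := hlam j hjE
    have h10 := hkl.zero x hxB _ h7.1 (by rw [h8]; exact h9.1) (by rw [h8]; exact h9.2)
    have h11 := hkl.close x hxB _ h7.1 (by rw [h8]; exact h9.1) (by rw [h8]; exact h9.2)
      (f^[N] z) (by
        rw [mem_ball, dist_eq_norm]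
        exact hN1.trans hr'1) _ (mem_ball_self hkl.r1)
    rw [h10, sub_zero] at h11
    have h12 : ‖KP f P (f^[N] z)‖ ≤
        ‖KP f P (f^[N] z) - (f^[N] z - f^[(N + m) % P] s)‖ + ‖f^[N] z - f^[(N + m) % P] s‖ := by
      have := norm_add_le (KP f P (f^[N] z) - (f^[N] z - f^[(N + m) % P] s))
        (f^[N] z - f^[(N + m) % P] s)
      rwa [sub_add_cancel] at this
    have h13 : 0 ≤ ‖f^[N] z - f^[(N + m) % P] s‖ := norm_nonneg _
    have h14 := hκ _ hbP
    have h15 : τ * κ ≤ τ * ‖KP f P (f^[(N + m) % P] (x (some j)))‖ :=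
      mul_le_mul_of_nonneg_left h14 hτ.le
    have h16 : ‖KP f P (f^[N] z) - (f^[N] z - f^[(N + m) % P] s)‖ ≤
        ‖f^[N] z - f^[(N + m) % P] s‖ / 8 := h11
    linarith

end

end NINFaux

open NINFaux in
theorem ninf_holds : StNINF := by
  intro hKO0 hKO1 hKO2 hKO3 hFATP a n P M B R C₁ R₁ R₃ R₇ lam₀ lam₁ r₁ r₂ r' τ ψ φ Es Ee rf ap x
    ha hn hP hb hR₇ hkl hr' hr'1 hτ hx hlam
  refine ⟨fun N => bad_subset hKO0 hP hb hkl hr'1 hx hlam N, ?_⟩
  intro hK hrf hrel hbad η hη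
  have hfc : Continuous (fx a n x) := (fx_differentiable a n x).continuous
  have hopen : IsOpen (UF n R₃ R₇ φ x ∪ US a n P Es rf r' τ x) :=
    isOpen_target hKO0 hP hb hkl hr'1 hx hlam
  have hmeas : ∀ N : ℕ, MeasurableSet (BN a n P R₃ R₇ φ Es rf r' τ N x) := by
    intro N
    have : BN a n P R₃ R₇ φ Es rf r' τ N x =
        ((fx a n x)^[N] ⁻¹' (UF n R₃ R₇ φ x ∪ US a n P Es rf r' τ x))ᶜ := rfl
    rw [this]
    exact (hopen.preimage (hfc.iterate N)).measurableSet.compl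
  have hbdd : ∀ N : ℕ, BN a n P R₃ R₇ φ Es rf r' τ N x ⊆ closedBall 0 (R₇ + C₁) := by
    intro N z hz
    rw [mem_closedBall_zero_iff]
    by_contra hlt
    rw [not_le] at hlt
    apply hz
    left
    have h5 := hb.hC
    have h6 := hb.hR₁
    have h7 := hb.hR₃
    exact mem_UF hb hR₇ hx.1 (hlt.trans_le (ninf_iter_large hb hx.1 (by linarith) N))
  have hfin : ∀ S : Set ℂ, S ⊆ closedBall 0 (R₇ + C₁) → volume S ≠ ⊤ := fun S hS =>
    ((measure_mono hS).trans_lt measure_closedBall_lt_top).ne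
  set T : ℕ → Set ℂ := fun N => ⋃ K : ℕ, BN a n P R₃ R₇ φ Es rf r' τ (N + K) x with hT
  have hTm : ∀ N, MeasurableSet (T N) := fun N => MeasurableSet.iUnion fun K => hmeas _
  have hTb : ∀ N, T N ⊆ closedBall 0 (R₇ + C₁) := fun N => iUnion_subset fun K => hbdd _
  have hTa : Antitone T := by
    intro N N' h z hz
    obtain ⟨K, hK'⟩ := mem_iUnion.1 hz
    refine mem_iUnion.2 ⟨N' - N + K, ?_⟩
    have : N + (N' - N + K) = N' + K := by omega
    rw [this]
    exact hK'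
  have hTi : (⋂ N, T N) ⊆ {z | ¬ Good (fx a n x) z} := by
    intro z hz hg
    have hev := eventually_mem hKO0 hKO1 hKO2 hKO3 hFATP ha hn hP hb hR₇ hkl hr' hr'1 hτ hx hlam
      hK hrf hrel hbad hg
    obtain ⟨N₀, hN₀⟩ := eventually_atTop.1 hev
    obtain ⟨K, hK'⟩ := mem_iUnion.1 (mem_iInter.1 hz N₀)
    exact hK' (hN₀ (N₀ + K) (Nat.le_add_right _ _))
  have hlim : Tendsto (fun N => volume (T N)) atTop (𝓝 (volume (⋂ N, T N))) :=
    tendsto_measure_iInter_atTop (fun N => (hTm N).nullMeasurableSet) hTa ⟨0, hfin _ (hTb 0)⟩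
  have hbadfin : volume {z | ¬ Good (fx a n x) z} ≠ ⊤ :=
    hfin _ ((bad_subset hKO0 hP hb hkl hr'1 hx hlam 0).trans (hbdd 0))
  have hle : volume (⋂ N, T N) ≤ volume {z | ¬ Good (fx a n x) z} := measure_mono hTi
  have hlt : volume (⋂ N, T N) < volume {z | ¬ Good (fx a n x) z} + ENNReal.ofReal η := by
    refine lt_of_le_of_lt hle ?_
    exact ENNReal.lt_add_right hbadfin (by simpa using hη)
  obtain ⟨N₀, hN₀⟩ := eventually_atTop.1 (hlim.eventually (gt_mem_nhds hlt))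
  refine ⟨N₀, fun N hN => ?_⟩
  have h1 : volume (BN a n P R₃ R₇ φ Es rf r' τ N x) ≤ volume (T N) :=
    measure_mono fun z hz => mem_iUnion.2 ⟨0, hz⟩
  have h2 := h1.trans (hN₀ N hN).le
  have h3 := ENNReal.toReal_mono (ENNReal.add_ne_top.2 ⟨hbadfin, ENNReal.ofReal_ne_top⟩) h2
  rwa [ENNReal.toReal_add hbadfin ENNReal.ofReal_ne_top, ENNReal.toReal_ofReal hη.le] at h3

end Pool.Agent.H713R5.QJ
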