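import Mathlib
import Pool.Agent.H713R5.QJ.Defs1

set_option autoImplicit false

open Topology Filter Metric Set Polynomial MeasureTheory
open Pool.Agent.H713R3.ZA

namespace Pool.Agent.H713R5.QJ

theorem nud_crit_diff (a : ℂ) (n N : ℕ) (i : Fin n) :
    Differentiable ℂ (fun x : PE n => (fx a n x)^[N] (x (some i))) := by
  have h1 : Differentiable ℂ (fun p : PE n × ℂ => (fx a n p.1)^[N] p.2) :=
    (contDiff_fx a n N).differentiable (by norm_num)
  have h2 : Differentiable ℂ (fun x : PE n => ((x, x (some i)) : PE n × ℂ)) :=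
    differentiable_id.prodMk ((contDiff_coord n (some i)).differentiable (by norm_num))
  have h3 := h1.comp h2
  exact h3

theorem nud_pair_diff (a : ℂ) (n N : ℕ) (i : Fin n) :
    Differentiable ℂ (fun x : PE n => ((x, (fx a n x)^[N] (x (some i))) : PE n × ℂ)) :=
  differentiable_id.prodMk (nud_crit_diff a n N i)

theorem nud_holds : StNUD := by
  intro h0 hk1 hk2 hk3 a n P M B R₃ Es Ee rf ap ha hn hP hrf
  obtain ⟨hATo, hSPd, hLPd, hA0o⟩ := hk1 h0 a n P ha hn hP
  obtain ⟨hKPd, hK⟩ := hk2 h0 hk1 hk3 a n P ha hn hP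
  -- iteration in the basin
  have hit : ∀ (x : PE n) (u : ℂ), (x, u) ∈ A0 a n P → ∀ m : ℕ,
      (x, (fx a n x)^[m] u) ∈ A0 a n P ∧
        (KP (fx a n x) P u ≠ 0 → KP (fx a n x) P ((fx a n x)^[m] u) ≠ 0) := by
    intro x u hu m
    induction m with
    | zero => exact ⟨hu, fun h => h⟩
    | succ m ih =>
      obtain ⟨h1, h2⟩ := ih
      obtain ⟨-, h3, h4, h5, -⟩ := hK x _ h1
      rw [Function.iterate_succ_apply']
      refine ⟨h3, fun hne => ?_⟩
      rw [h5]
      exact mul_ne_zero h4 (h2 hne)
  have hpc : ∀ i : Fin n, Continuous (fun x : PE n => ((x, x (some i)) : PE n × ℂ)) := by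
    intro i
    have := (nud_pair_diff a n 0 i).continuous
    simpa using this
  have hOO : IsOpen (OO a n P M B R₃ Es Ee) := by
    have h1 : OO a n P M B R₃ Es Ee = (ball (0 : PE n) B ∩
        ⋂ i ∈ Es, (fun x : PE n => ((x, x (some i)) : PE n × ℂ)) ⁻¹' (A0 a n P)) ∩
        ⋂ i ∈ Ee, {x : PE n | R₃ < ‖(fx a n x)^[M] (x (some i))‖} := by
      ext x
      simp only [OO, mem_ofPred_eq, mem_inter_iff, mem_iInter, mem_preimage]
      tauto
    rw [h1]
    refine (isOpen_ball.inter ?_).inter ?_
    · exact isOpen_biInter_finset fun i _ => hA0o.preimage (hpc i)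
    · exact isOpen_biInter_finset fun i _ =>
        isOpen_lt continuous_const (nud_crit_diff a n M i).continuous.norm
  refine ⟨hOO, fun i hi => ?_⟩
  have hmem : ∀ j ∈ Es, ∀ x ∈ OO a n P M B R₃ Es Ee, (x, x (some j)) ∈ A0 a n P :=
    fun j hj x hx => hx.2.1 j hj
  have hKj : ∀ j ∈ Es, ∀ m : ℕ, DifferentiableOn ℂ
      (fun x : PE n => KP (fx a n x) P ((fx a n x)^[m] (x (some j)))) (OO a n P M B R₃ Es Ee) := by
    intro j hj m
    have h3 := hKPd.comp (nud_pair_diff a n m j).differentiableOn
      (fun x hx => (hit x _ (hmem j hj x hx) m).1)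
    exact h3
  have hLj : ∀ j ∈ Es, DifferentiableOn ℂ
      (fun x : PE n => LP (fx a n x) P (x (some j))) (OO a n P M B R₃ Es Ee) := by
    intro j hj
    have h3 := hLPd.comp (nud_pair_diff a n 0 j).differentiableOn
      (fun x hx => (hmem j hj x hx).1)
    exact h3
  refine ⟨?_, ?_, hKj i hi 0, ?_⟩
  · by_cases hr : rf i = i
    · have : nu a n P rf i = fun x : PE n => LP (fx a n x) P (x (some i)) := by
        funext x; simp only [nu, if_pos hr]
      rw [this]
      exact hLj i hi
    · have : nu a n P rf i = fun x : PE n => KP (fx a n x) P (x (some i)) := by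
        funext x; simp only [nu, if_neg hr]
      rw [this]
      exact hKj i hi 0
  · by_cases hr : rf i = i
    · have : dn a n P rf ap i = fun _ : PE n => (1 : ℂ) := by
        funext x; simp only [dn, if_pos hr]
      rw [this]
      exact differentiableOn_const _
    · have : dn a n P rf ap i =
          fun x : PE n => KP (fx a n x) P ((fx a n x)^[ap i] (x (some (rf i)))) := by
        funext x; simp only [dn, if_neg hr]
      rw [this]
      exact hKj (rf i) (hrf.mem i hi) (ap i)
  · intro x hx hne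
    by_cases hr : rf i = i
    · simp only [dn, if_pos hr]
      exact one_ne_zero
    · simp only [dn, if_neg hr]
      exact (hit x _ (hmem (rf i) (hrf.mem i hi) x hx) (ap i)).2 hne

end Pool.Agent.H713R5.QJ
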