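import Mathlib
import Pool.Agent.H713R5.QJ.Defs

set_option autoImplicit false

open Topology Filter Metric Set Polynomial MeasureTheory

namespace Pool.Agent.H713R5.QJ

section opg

variable {ι : Type*} {l : Filter ι} {S : ι → ℂ[X]} {T : ℂ[X]}

/-- convergence of polynomials of the same degree -/
def opgC (l : Filter ι) (S : ι → ℂ[X]) (T : ℂ[X]) : Prop :=
  (∀ i, (S i).natDegree = T.natDegree) ∧
    ∀ j, Tendsto (fun i => (S i).coeff j) l (𝓝 (T.coeff j))

lemma opg_eval (h : opgC l S T) {w : ι → ℂ} {w0 : ℂ} (hw : Tendsto w l (𝓝 w0)) :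
    Tendsto (fun i => (S i).eval (w i)) l (𝓝 (T.eval w0)) := by
  have h1 : ∀ i, (S i).eval (w i) =
      ∑ j ∈ Finset.range (T.natDegree + 1), (S i).coeff j * w i ^ j := by
    intro i
    rw [Polynomial.eval_eq_sum_range, h.1 i]
  simp only [h1]
  rw [Polynomial.eval_eq_sum_range]
  exact tendsto_finsetSum _ fun j _ => (h.2 j).mul (hw.pow j)

lemma opg_der (h : opgC l S T) {w : ι → ℂ} {w0 : ℂ} (hw : Tendsto w l (𝓝 w0)) :
    Tendsto (fun i => (derivative (S i)).eval (w i)) l (𝓝 ((derivative T).eval w0)) := by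
  have h0 : ∀ Q : ℂ[X], Q.natDegree = T.natDegree →
      (derivative Q).natDegree < T.natDegree + 1 := by
    intro Q hQ
    have := natDegree_derivative_le Q
    omega
  have h1 : ∀ i, (derivative (S i)).eval (w i) =
      ∑ j ∈ Finset.range (T.natDegree + 1), ((S i).coeff (j + 1) * (j + 1)) * w i ^ j := by
    intro i
    rw [Polynomial.eval_eq_sum_range' (h0 _ (h.1 i))]
    exact Finset.sum_congr rfl fun j _ => by rw [coeff_derivative]
  have h2 : (derivative T).eval w0 =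
      ∑ j ∈ Finset.range (T.natDegree + 1), (T.coeff (j + 1) * (j + 1)) * w0 ^ j := by
    rw [Polynomial.eval_eq_sum_range' (h0 _ rfl)]
    exact Finset.sum_congr rfl fun j _ => by rw [coeff_derivative]
  simp only [h1]
  rw [h2]
  exact tendsto_finsetSum _ fun j _ => ((h.2 (j + 1)).mul_const _).mul (hw.pow j)

lemma opg_iter (h : opgC l S T) {w : ι → ℂ} {w0 : ℂ} (hw : Tendsto w l (𝓝 w0)) (k : ℕ) :
    Tendsto (fun i => (ev (S i))^[k] (w i)) l (𝓝 ((ev T)^[k] w0)) := by
  induction k with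
  | zero => exact hw
  | succ k ih =>
    simp only [Function.iterate_succ_apply']
    exact opg_eval h ih

lemma opg_hasDeriv (Q : ℂ[X]) (k : ℕ) (w : ℂ) : HasDerivAt ((ev Q)^[k])
    (∏ i ∈ Finset.range k, (derivative Q).eval ((ev Q)^[i] w)) w := by
  induction k with
  | zero =>
    rw [Finset.prod_range_zero]
    exact hasDerivAt_id w
  | succ k ih =>
    rw [Finset.prod_range_succ, mul_comm, Function.iterate_succ']
    exact HasDerivAt.comp w (Q.hasDerivAt ((ev Q)^[k] w)) ih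

lemma opg_deriv (h : opgC l S T) {w : ι → ℂ} {w0 : ℂ} (hw : Tendsto w l (𝓝 w0)) (k : ℕ) :
    Tendsto (fun i => deriv ((ev (S i))^[k]) (w i)) l (𝓝 (deriv ((ev T)^[k]) w0)) := by
  have h1 : ∀ i, deriv ((ev (S i))^[k]) (w i) =
      ∏ j ∈ Finset.range k, (derivative (S i)).eval ((ev (S i))^[j] (w i)) :=
    fun i => (opg_hasDeriv (S i) k (w i)).deriv
  simp only [h1]
  rw [(opg_hasDeriv T k w0).deriv]
  exact tendsto_finsetProd _ fun j _ => opg_der h (opg_iter h hw j)

/-- growth near infinity -/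
lemma opg_growth (Q : ℂ[X]) {c B R : ℝ} (hd : 2 ≤ Q.natDegree) (hc : c ≤ ‖Q.coeff Q.natDegree‖)
    (hB : ∑ j ∈ Finset.range Q.natDegree, ‖Q.coeff j‖ ≤ B) (hR : 1 ≤ R) (hcR : B + 2 ≤ c * R)
    (hc0 : 0 < c) {w : ℂ} (hw : R ≤ ‖w‖) : 2 * ‖w‖ ≤ ‖ev Q w‖ := by
  have hw1 : 1 ≤ ‖w‖ := hR.trans hw
  set d := Q.natDegree with hdd
  have e1 : ev Q w = ∑ j ∈ Finset.range d, Q.coeff j * w ^ j + Q.coeff d * w ^ d := by
    show Q.eval w = _
    rw [Polynomial.eval_eq_sum_range, Finset.sum_range_succ]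
  have e2 : ‖∑ j ∈ Finset.range d, Q.coeff j * w ^ j‖ ≤ B * ‖w‖ ^ (d - 1) := by
    refine (norm_sum_le _ _).trans ?_
    have : ∀ j ∈ Finset.range d, ‖Q.coeff j * w ^ j‖ ≤ ‖Q.coeff j‖ * ‖w‖ ^ (d - 1) := by
      intro j hj
      have hj' := Finset.mem_range.1 hj
      rw [norm_mul, norm_pow]
      exact mul_le_mul_of_nonneg_left (pow_le_pow_right₀ hw1 (by omega)) (norm_nonneg _)
    refine (Finset.sum_le_sum this).trans ?_
    rw [← Finset.sum_mul]
    exact mul_le_mul_of_nonneg_right hB (by positivity)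
  have e3 : c * ‖w‖ * ‖w‖ ^ (d - 1) ≤ ‖Q.coeff d * w ^ d‖ := by
    rw [norm_mul, norm_pow]
    have : ‖w‖ ^ d = ‖w‖ * ‖w‖ ^ (d - 1) := by
      rw [← pow_succ']
      congr 1
      omega
    rw [this, ← mul_assoc]
    exact mul_le_mul_of_nonneg_right (mul_le_mul_of_nonneg_right hc (norm_nonneg _)) (by positivity)
  have e4 : ‖Q.coeff d * w ^ d‖ - ‖∑ j ∈ Finset.range d, Q.coeff j * w ^ j‖ ≤ ‖ev Q w‖ := by
    rw [e1, add_comm]
    exact norm_sub_le_norm_add _ _
  have e5 : c * R ≤ c * ‖w‖ := mul_le_mul_of_nonneg_left hw hc0.le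
  have e6 : ‖w‖ ≤ ‖w‖ ^ (d - 1) := le_self_pow₀ hw1 (by omega)
  have e7 : 2 * ‖w‖ ^ (d - 1) ≤ (c * ‖w‖ - B) * ‖w‖ ^ (d - 1) :=
    mul_le_mul_of_nonneg_right (by linarith) (by positivity)
  have e8 : (c * ‖w‖ - B) * ‖w‖ ^ (d - 1) = c * ‖w‖ * ‖w‖ ^ (d - 1) - B * ‖w‖ ^ (d - 1) := by ring
  linarith

/-- escape -/
lemma opg_escape {f : ℂ → ℂ} {R : ℝ} (hR : 1 ≤ R) (hf : ∀ w : ℂ, R ≤ ‖w‖ → 2 * ‖w‖ ≤ ‖f w‖)
    {u : ℂ} {k : ℕ} (hu : R ≤ ‖f^[k] u‖) : Tendsto (fun i : ℕ => ‖f^[i] u‖) atTop atTop := by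
  have h1 : ∀ i : ℕ, R ≤ ‖f^[i] (f^[k] u)‖ ∧ 2 ^ i * ‖f^[k] u‖ ≤ ‖f^[i] (f^[k] u)‖ := by
    intro i
    induction i with
    | zero => exact ⟨hu, by simp⟩
    | succ i ih =>
      have h2 := hf _ ih.1
      rw [Function.iterate_succ_apply']
      refine ⟨?_, ?_⟩
      · linarith [norm_nonneg (f^[i] (f^[k] u)), ih.1]
      · rw [pow_succ]
        linarith [ih.2]
  have h3 : Tendsto (fun i : ℕ => ‖f^[i + k] u‖) atTop atTop := by
    have h4 : Tendsto (fun i : ℕ => (2:ℝ) ^ i * ‖f^[k] u‖) atTop atTop := by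
      refine Tendsto.atTop_mul_const ?_ (tendsto_pow_atTop_atTop_of_one_lt (by norm_num))
      linarith
    refine tendsto_atTop_mono (fun i => ?_) h4
    rw [Function.iterate_add_apply]
    exact (h1 i).2
  exact (tendsto_add_atTop_iff_nat k).1 h3

end opg

theorem opg_holds : StOPG := by
  intro T z hT hgood
  by_contra hcon
  push Not at hcon
  have hch : ∀ n : ℕ, ∃ (Q : ℂ[X]) (z' : ℂ), Q.natDegree = T.natDegree ∧
      (∀ j : ℕ, ‖Q.coeff j - T.coeff j‖ < 1 / ((n : ℝ) + 1)) ∧ z' ∈ ball z (1 / ((n : ℝ) + 1)) ∧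
      ¬ Good (ev Q) z' := by
    intro n
    obtain ⟨Q, h1, h2, z', h3, h4⟩ := hcon (1 / ((n : ℝ) + 1)) (by positivity)
    exact ⟨Q, z', h1, h2, h3, h4⟩
  choose S x hS1 hS2 hx hbad using hch
  have hlim : Tendsto (fun n : ℕ => 1 / ((n : ℝ) + 1)) atTop (𝓝 0) :=
    tendsto_one_div_add_atTop_nhds_zero_nat
  have hC : opgC atTop S T := by
    refine ⟨hS1, fun j => ?_⟩
    rw [tendsto_iff_norm_sub_tendsto_zero]
    exact squeeze_zero (fun n => norm_nonneg _) (fun n => (hS2 n j).le) hlim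
  have hxz : Tendsto x atTop (𝓝 z) := by
    rw [tendsto_iff_norm_sub_tendsto_zero]
    refine squeeze_zero (fun n => norm_nonneg _) (fun n => ?_) hlim
    have := hx n
    rw [mem_ball, dist_eq_norm] at this
    exact this.le
  have key : ∀ᶠ n in atTop, Good (ev (S n)) (x n) := by
    rcases hgood with hesc | ⟨P, hP, y0, hy1, hy2, hy3⟩
    · -- the escaping case
      have hlead : 0 < ‖T.coeff T.natDegree‖ := by
        rw [norm_pos_iff, Polynomial.coeff_natDegree, Polynomial.leadingCoeff_ne_zero]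
        intro h0
        rw [h0, natDegree_zero] at hT
        omega
      set c := ‖T.coeff T.natDegree‖ / 2 with hc
      have hc0 : 0 < c := by positivity
      set B := ∑ j ∈ Finset.range T.natDegree, ‖T.coeff j‖ + 1 with hB
      have hev1 : ∀ᶠ n in atTop, c ≤ ‖(S n).coeff T.natDegree‖ := by
        have h1 := (hC.2 T.natDegree).norm
        exact (h1.eventually_const_lt (by rw [hc]; linarith)).mono fun n hn => hn.le
      have hev2 : ∀ᶠ n in atTop, ∑ j ∈ Finset.range T.natDegree, ‖(S n).coeff j‖ ≤ B := by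
        have h1 : Tendsto (fun n => ∑ j ∈ Finset.range T.natDegree, ‖(S n).coeff j‖) atTop
            (𝓝 (∑ j ∈ Finset.range T.natDegree, ‖T.coeff j‖)) :=
          tendsto_finsetSum _ fun j _ => (hC.2 j).norm
        exact (h1.eventually_lt_const (by rw [hB]; linarith)).mono fun n hn => hn.le
      set R := max 1 ((B + 2) / c) with hRdef
      have hR1 : 1 ≤ R := le_max_left _ _
      have hR2 : B + 2 ≤ c * R := by
        have h1 : (B + 2) / c ≤ R := le_max_right _ _
        rw [div_le_iff₀ hc0] at h1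
        linarith
      obtain ⟨k, hk⟩ := (hesc.eventually_gt_atTop R).exists
      have hev3 : ∀ᶠ n in atTop, R < ‖(ev (S n))^[k] (x n)‖ :=
        (opg_iter hC hxz k).norm.eventually_const_lt hk
      filter_upwards [hev1, hev2, hev3] with n h1 h2 h3
      left
      refine opg_escape hR1 (fun w hw => ?_) h3.le
      refine opg_growth (S n) ?_ ?_ ?_ hR1 hR2 hc0 hw
      · rw [hS1]; exact hT
      · rw [hS1]; exact h1
      · rw [hS1]; exact h2
    · -- the sink case
      obtain ⟨θ, hθ1, hθ2⟩ := exists_between hy2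
      have hθ0 : 0 ≤ θ := (norm_nonneg _).trans hθ1.le
      have hC2 : opgC (atTop ×ˢ 𝓝 y0) (fun q : ℕ × ℂ => S q.1) T :=
        ⟨fun q => hS1 q.1, fun j => (hC.2 j).comp tendsto_fst⟩
      have hD := (opg_deriv hC2 (w := fun q : ℕ × ℂ => q.2) (w0 := y0) tendsto_snd P).norm
      have hev := hD.eventually_lt_const hθ1
      rw [eventually_prod_iff] at hev
      obtain ⟨pa, hpa, pb, hpb, hab⟩ := hev
      obtain ⟨r, hr, hrb⟩ := Metric.eventually_nhds_iff_ball.1 hpb
      obtain ⟨ρ, hρ0, hρr⟩ := exists_between hr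
      have hev2 : ∀ᶠ n in atTop, ‖(ev (S n))^[P] y0 - y0‖ < (1 - θ) * ρ := by
        have h1 := opg_iter hC (w := fun _ => y0) (w0 := y0) tendsto_const_nhds P
        rw [hy1] at h1
        have h2 := (h1.sub_const y0).norm
        rw [sub_self, norm_zero] at h2
        exact h2.eventually_lt_const (mul_pos (by linarith) hρ0)
      obtain ⟨k, hk⟩ := (hy3.eventually (ball_mem_nhds y0 hρ0)).exists
      have hev3 : ∀ᶠ n in atTop, (ev (S n))^[P * k] (x n) ∈ ball y0 ρ :=
        (opg_iter hC hxz (P * k)).eventually (isOpen_ball.mem_nhds hk)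
      filter_upwards [hpa, hev2, hev3] with n h1 h2 h3
      right
      refine ⟨P, hP, ?_⟩
      set g : ℂ → ℂ := (ev (S n))^[P] with hg
      have hder : ∀ w ∈ closedBall y0 ρ, ‖deriv g w‖ < θ := fun w hw =>
        hab h1 (hrb w (closedBall_subset_ball hρr hw))
      have hdiff : ∀ w, DifferentiableAt ℂ g w := fun w =>
        (opg_hasDeriv (S n) P w).differentiableAt
      have hlip : ∀ w ∈ closedBall y0 ρ, ∀ w' ∈ closedBall y0 ρ, ‖g w' - g w‖ ≤ θ * ‖w' - w‖ :=
        fun w hw w' hw' => Convex.norm_image_sub_le_of_norm_deriv_le (fun u _ => hdiff u)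
          (fun u hu => (hder u hu).le) (convex_closedBall y0 ρ) hw hw'
      have hmaps : MapsTo g (closedBall y0 ρ) (closedBall y0 ρ) := by
        intro w hw
        have h4 := hlip y0 (mem_closedBall_self hρ0.le) w hw
        rw [mem_closedBall, dist_eq_norm] at hw ⊢
        have h5 : ‖g w - y0‖ ≤ ‖g w - g y0‖ + ‖g y0 - y0‖ := norm_sub_le_norm_sub_add_norm_sub _ _ _
        have h6 : θ * ‖w - y0‖ ≤ θ * ρ := mul_le_mul_of_nonneg_left hw hθ0
        linarith
      have hcontr : ContractingWith ⟨θ, hθ0⟩ (hmaps.restrict g (closedBall y0 ρ) (closedBall y0 ρ)) := by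
        refine ⟨?_, LipschitzWith.of_dist_le_mul fun w w' => ?_⟩
        · exact_mod_cast hθ2
        · have := hlip w'.1 w'.2 w.1 w.2
          rw [Subtype.dist_eq, Subtype.dist_eq, dist_eq_norm, dist_eq_norm]
          exact this
      obtain ⟨y, hy, hfix, htend, -⟩ := ContractingWith.exists_fixedPoint'
        isClosed_closedBall.isComplete hmaps hcontr (x := (ev (S n))^[P * k] (x n))
        (ball_subset_closedBall h3) (edist_ne_top _ _)
      refine ⟨y, hfix, (hder y hy).trans hθ2, ?_⟩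
      have h7 : ∀ i : ℕ, (ev (S n))^[P * (i + k)] (x n) = g^[i] ((ev (S n))^[P * k] (x n)) := by
        intro i
        rw [hg, ← Function.iterate_mul, ← Function.iterate_add_apply, mul_add]
      have h8 : Tendsto (fun i : ℕ => (ev (S n))^[P * (i + k)] (x n)) atTop (𝓝 y) := by
        simp only [h7]
        exact htend
      exact (tendsto_add_atTop_iff_nat (f := fun i => (ev (S n))^[P * i] (x n)) k).1 h8
  obtain ⟨n, hn⟩ := key.exists
  exact hbad n hn

end Pool.Agent.H713R5.QJ
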