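import Mathlib
import Pool.Agent.H713R5.QJ.Defs

set_option autoImplicit false

open Topology Filter Metric Set Polynomial MeasureTheory

namespace Pool.Agent.H713R5.QJ

namespace PFaux

/-- product formula -/
lemma fac (T : ℂ[X]) (w : ℂ) (hd : 2 ≤ T.natDegree)
    (hs : ∀ ζ : ℂ, T.eval ζ = w → (derivative T).eval ζ ≠ 0) :
    T - C w = C T.leadingCoeff * Lagrange.nodal (T - C w).roots.toFinset id := by
  classical
  have hne : T - C w ≠ 0 := by
    intro h
    have : T = C w := sub_eq_zero.mp h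
    rw [this, natDegree_C] at hd
    omega
  have hnd : (T - C w).roots.Nodup := by
    rw [Multiset.nodup_iff_count_le_one]
    intro ζ
    rw [count_roots]
    by_contra hc
    push Not at hc
    have h1 : (T - C w).IsRoot ζ := by
      have : 0 < rootMultiplicity ζ (T - C w) := by omega
      exact (rootMultiplicity_pos hne).mp this
    have h2 : (derivative (T - C w)).IsRoot ζ := by
      have := (one_lt_rootMultiplicity_iff_isRoot hne).mp hc
      exact this.2
    have h3 : T.eval ζ = w := by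
      have := h1
      rw [IsRoot.def, eval_sub, eval_C] at this
      exact sub_eq_zero.mp this
    apply hs ζ h3
    rw [IsRoot.def, derivative_sub, derivative_C, sub_zero] at h2
    exact h2
  have hsp := IsAlgClosed.splits (T - C w)
  have hlc : (T - C w).leadingCoeff = T.leadingCoeff := by
    apply leadingCoeff_sub_of_degree_lt
    apply lt_of_le_of_lt degree_C_le
    apply natDegree_pos_iff_degree_pos.mp
    omega
  have h := hsp.eq_prod_roots
  conv_lhs => rw [h]
  rw [hlc]
  congr 1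
  rw [Lagrange.nodal]
  rw [Finset.prod_eq_multiset_prod]
  rw [Multiset.toFinset_val, Multiset.dedup_eq_self.mpr hnd]
  rfl

lemma pf1 (T : ℂ[X]) (w : ℂ) (hd : 2 ≤ T.natDegree)
    (hs : ∀ ζ : ℂ, T.eval ζ = w → (derivative T).eval ζ ≠ 0) (x : ℂ) (hx : T.eval x ≠ w) :
    ∑ ζ ∈ (T - C w).roots.toFinset, ((derivative T).eval ζ)⁻¹ * (x - ζ)⁻¹ = (T.eval x - w)⁻¹ := by
  classical
  set F := (T - C w).roots.toFinset with hF
  have hfac := fac T w hd hs
  rw [← hF] at hfac
  have hlead : T.leadingCoeff ≠ 0 := by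
    intro h
    rw [leadingCoeff_eq_zero] at h
    rw [h, natDegree_zero] at hd
    omega
  have hFne : F.Nonempty := by
    by_contra hcon
    rw [Finset.not_nonempty_iff_eq_empty] at hcon
    rw [hcon, Lagrange.nodal_empty, mul_one] at hfac
    have : T = C (T.leadingCoeff + w) := by
      rw [C_add, ← hfac]; ring
    rw [this, natDegree_C] at hd
    omega
  have hxn : ∀ i ∈ F, x ≠ id i := by
    intro i hi hxi
    apply hx
    have : (T - C w).eval i = 0 := by
      have := (Multiset.mem_toFinset.mp hi)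
      exact (mem_roots'.mp this).2
    rw [hxi, id]
    rw [eval_sub, eval_C] at this
    exact sub_eq_zero.mp this
  have hone : Lagrange.interpolate F id (1 : ℂ → ℂ) = 1 := by
    rw [Lagrange.interpolate_one (Set.injOn_id _) hFne]
  have h2 := Lagrange.eval_interpolate_not_at_node (s := F) (v := id) (1 : ℂ → ℂ) (x := x) hxn
  rw [hone, eval_one] at h2
  have hev : T.eval x - w = T.leadingCoeff * (Lagrange.nodal F id).eval x := by
    have := congrArg (fun p => Polynomial.eval x p) hfac
    simpa [eval_sub, eval_mul] using this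
  have hder : ∀ ζ ∈ F, (derivative T).eval ζ = T.leadingCoeff * (Lagrange.nodalWeight F id ζ)⁻¹ := by
    intro ζ hζ
    have := congrArg (fun p => (derivative p).eval ζ) hfac
    simp only [derivative_sub, derivative_C, sub_zero, derivative_mul, zero_mul, zero_add,
      eval_mul, eval_C] at this
    rw [this, Lagrange.nodalWeight_eq_eval_derivative_nodal hζ]
    simp
  have hTx : T.eval x - w ≠ 0 := sub_ne_zero.mpr hx
  have hN : (Lagrange.nodal F id).eval x ≠ 0 := by
    intro h
    apply hTx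
    rw [hev, h, mul_zero]
  rw [hev, mul_inv]
  have : ∑ ζ ∈ F, ((derivative T).eval ζ)⁻¹ * (x - ζ)⁻¹ =
      T.leadingCoeff⁻¹ * ∑ ζ ∈ F, Lagrange.nodalWeight F id ζ * (x - id ζ)⁻¹ * (1 : ℂ → ℂ) ζ := by
    rw [Finset.mul_sum]
    apply Finset.sum_congr rfl
    intro ζ hζ
    rw [hder ζ hζ, mul_inv, inv_inv]
    simp
    ring
  rw [this]
  congr 1
  exact eq_inv_of_mul_eq_one_right h2.symm

lemma pf2 (T : ℂ[X]) (w : ℂ) (hd : 2 ≤ T.natDegree)
    (hs : ∀ ζ : ℂ, T.eval ζ = w → (derivative T).eval ζ ≠ 0) (x : ℂ) (hx : T.eval x ≠ w) :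
    ∑ ζ ∈ (T - C w).roots.toFinset, ((derivative T).eval ζ)⁻¹ * ((x - ζ) ^ 2)⁻¹ =
      (derivative T).eval x / (T.eval x - w) ^ 2 := by
  classical
  set F := (T - C w).roots.toFinset with hF
  have hxn : ∀ i ∈ F, x - i ≠ 0 := by
    intro i hi hxi
    apply hx
    have : (T - C w).eval i = 0 := by
      have := (Multiset.mem_toFinset.mp hi)
      exact (mem_roots'.mp this).2
    rw [sub_eq_zero.mp hxi]
    rw [eval_sub, eval_C] at this
    exact sub_eq_zero.mp this
  have hTx : T.eval x - w ≠ 0 := sub_ne_zero.mpr hx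
  have h1 : HasDerivAt (fun y => ∑ ζ ∈ F, ((derivative T).eval ζ)⁻¹ * (y - ζ)⁻¹)
      (∑ ζ ∈ F, ((derivative T).eval ζ)⁻¹ * (-1 / (x - ζ) ^ 2)) x := by
    apply HasDerivAt.fun_sum
    intro ζ hζ
    apply HasDerivAt.const_mul
    exact ((hasDerivAt_id x).sub_const ζ).fun_inv (hxn ζ hζ)
  have h2 : HasDerivAt (fun y => (T.eval y - w)⁻¹) (-(derivative T).eval x / (T.eval x - w) ^ 2) x :=
    ((T.hasDerivAt x).sub_const w).fun_inv hTx
  have heq : (fun y => ∑ ζ ∈ F, ((derivative T).eval ζ)⁻¹ * (y - ζ)⁻¹) =ᶠ[𝓝 x]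
      (fun y => (T.eval y - w)⁻¹) := by
    have : ∀ᶠ y in 𝓝 x, T.eval y ≠ w := by
      have hc : Continuous (fun y => T.eval y) := T.continuous
      exact hc.continuousAt.eventually_ne hx
    filter_upwards [this] with y hy
    exact pf1 T w hd hs y hy
  have h3 := (h2.congr_of_eventuallyEq heq).unique h1
  rw [neg_div] at h3
  have h4 : (derivative T).eval x / (T.eval x - w) ^ 2 =
      - ∑ ζ ∈ F, ((derivative T).eval ζ)⁻¹ * (-1 / (x - ζ) ^ 2) := by
    rw [← h3]; ring
  rw [h4, ← Finset.sum_neg_distrib]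
  apply Finset.sum_congr rfl
  intro ζ hζ
  ring

end PFaux

open PFaux in
theorem pf_holds : StPF := by
  classical
  intro T Z a b hd hcyc ha hb hL w hw hs
  set F := (T - C w).roots.toFinset with hF
  set h : ℂ[X] := ∑ ζ ∈ F, C (((derivative T).eval ζ ^ 2)⁻¹) *
    ((derivative T - C ((derivative T).eval ζ)) /ₘ (X - C ζ)) with hh
  have hdeg : h.natDegree ≤ T.natDegree - 2 := by
    rw [hh]
    apply natDegree_sum_le_of_forall_le
    intro ζ hζ
    refine le_trans (natDegree_C_mul_le _ _) ?_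
    rw [natDegree_divByMonic _ (monic_X_sub_C ζ), natDegree_X_sub_C]
    have : (derivative T - C ((derivative T).eval ζ)).natDegree ≤ T.natDegree - 1 := by
      refine le_trans (natDegree_sub_le _ _) ?_
      rw [natDegree_C]
      exact max_le (natDegree_derivative_le T) (Nat.zero_le _)
    omega
  have hroot : ∀ ζ ∈ F, T.eval ζ = w := by
    intro ζ hζ
    have : (T - C w).eval ζ = 0 := by
      have := (Multiset.mem_toFinset.mp hζ)
      exact (mem_roots'.mp this).2
    rw [eval_sub, eval_C] at this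
    exact sub_eq_zero.mp this
  have hdiv : ∀ ζ : ℂ, (X - C ζ) * ((derivative T - C ((derivative T).eval ζ)) /ₘ (X - C ζ)) =
      derivative T - C ((derivative T).eval ζ) := by
    intro ζ
    apply mul_divByMonic_eq_iff_isRoot.mpr
    simp [IsRoot.def]
  -- values at the points of Z
  have hzne : ∀ z ∈ Z, T.eval z ≠ w := by
    intro z hz hzw
    apply hw
    rw [← hzw]
    exact hcyc.1 z hz
  have hzζ : ∀ z ∈ Z, ∀ ζ ∈ F, z - ζ ≠ 0 := by
    intro z hz ζ hζ h0
    apply hzne z hz
    rw [sub_eq_zero.mp h0]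
    exact hroot ζ hζ
  have hval : ∀ z ∈ Z, h.eval z = (derivative T).eval z *
      (∑ ζ ∈ F, ((derivative T).eval ζ ^ 2)⁻¹ * (z - ζ)⁻¹) - (T.eval z - w)⁻¹ := by
    intro z hz
    rw [← pf1 T w hd hs z (hzne z hz), hh, eval_finsetSum, Finset.mul_sum,
      ← Finset.sum_sub_distrib]
    apply Finset.sum_congr rfl
    intro ζ hζ
    have h1 := congrArg (fun p => Polynomial.eval z p) (hdiv ζ)
    simp only [eval_mul, eval_sub, eval_X, eval_C] at h1
    rw [eval_mul, eval_C]
    have h2 := hzζ z hz ζ hζ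
    have h3 := hs ζ (hroot ζ hζ)
    have h4 : ((derivative T - C ((derivative T).eval ζ)) /ₘ (X - C ζ)).eval z =
        ((derivative T).eval z - (derivative T).eval ζ) / (z - ζ) := by
      rw [eq_div_iff h2, mul_comm]; exact h1
    rw [h4]
    field_simp
  have hdval : ∀ z ∈ Z, (derivative h).eval z = (derivative (derivative T)).eval z *
      (∑ ζ ∈ F, ((derivative T).eval ζ ^ 2)⁻¹ * (z - ζ)⁻¹) -
      (derivative T).eval z * (∑ ζ ∈ F, ((derivative T).eval ζ ^ 2)⁻¹ * ((z - ζ) ^ 2)⁻¹) +
      (derivative T).eval z / (T.eval z - w) ^ 2 := by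
    intro z hz
    rw [← pf2 T w hd hs z (hzne z hz), hh, derivative_sum, eval_finsetSum, Finset.mul_sum,
      Finset.mul_sum, ← Finset.sum_sub_distrib, ← Finset.sum_add_distrib]
    apply Finset.sum_congr rfl
    intro ζ hζ
    have h1 := congrArg (fun p => Polynomial.eval z p) (hdiv ζ)
    simp only [eval_mul, eval_sub, eval_X, eval_C] at h1
    have h1' := congrArg (fun p => Polynomial.eval z (derivative p)) (hdiv ζ)
    simp only [derivative_mul, derivative_sub, derivative_X, derivative_C, sub_zero, one_mul,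
      eval_add, eval_mul, eval_sub, eval_X, eval_C] at h1'
    have h2 := hzζ z hz ζ hζ
    have h3 := hs ζ (hroot ζ hζ)
    have h4 : ((derivative T - C ((derivative T).eval ζ)) /ₘ (X - C ζ)).eval z =
        ((derivative T).eval z - (derivative T).eval ζ) / (z - ζ) := by
      rw [eq_div_iff h2, mul_comm]; exact h1
    have h5 : (derivative ((derivative T - C ((derivative T).eval ζ)) /ₘ (X - C ζ))).eval z =
        ((derivative (derivative T)).eval z -
          ((derivative T).eval z - (derivative T).eval ζ) / (z - ζ)) / (z - ζ) := by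
      rw [eq_div_iff h2, ← h4, ← h1']
      ring
    rw [derivative_mul, derivative_C, zero_mul, zero_add, eval_mul, eval_C, h5]
    field_simp
    ring
  have hLh := hL h hdeg
  have key : ∀ z ∈ Z, (a z * ((derivative h).eval z / (derivative T).eval z -
        h.eval z * (derivative (derivative T)).eval z / (derivative T).eval z ^ 2) +
        b z * (h.eval z / (derivative T).eval z)) =
      (a (T.eval z) / (w - T.eval z) ^ 2 + b (T.eval z) / (w - T.eval z)) -
      ∑ ζ ∈ F, (a z / (ζ - z) ^ 2 + b z / (ζ - z)) / (derivative T).eval ζ ^ 2 := by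
    intro z hz
    have hT' := hcyc.2.2 z hz
    have hTw : T.eval z - w ≠ 0 := sub_ne_zero.mpr (hzne z hz)
    have hTw' : w - T.eval z ≠ 0 := sub_ne_zero.mpr (hzne z hz).symm
    have hS : ∑ ζ ∈ F, (a z / (ζ - z) ^ 2 + b z / (ζ - z)) / (derivative T).eval ζ ^ 2 =
        a z * (∑ ζ ∈ F, ((derivative T).eval ζ ^ 2)⁻¹ * ((z - ζ) ^ 2)⁻¹) -
        b z * (∑ ζ ∈ F, ((derivative T).eval ζ ^ 2)⁻¹ * (z - ζ)⁻¹) := by
      rw [Finset.mul_sum, Finset.mul_sum, ← Finset.sum_sub_distrib]
      apply Finset.sum_congr rfl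
      intro ζ hζ
      have h2 := hzζ z hz ζ hζ
      have h2' : ζ - z ≠ 0 := by
        intro h0
        apply h2
        rw [← neg_sub, h0, neg_zero]
      have h3 := hs ζ (hroot ζ hζ)
      have h6 : (ζ - z) ^ 2 = (z - ζ) ^ 2 := by ring
      have h7 : (ζ - z)⁻¹ = - (z - ζ)⁻¹ := by
        rw [← inv_neg, neg_sub]
      rw [h6, div_eq_mul_inv (b z), h7]
      field_simp
      ring
    rw [hS, hval z hz, hdval z hz, ha z hz, hb z hz]
    have h8 : (w - T.eval z) ^ 2 = (T.eval z - w) ^ 2 := by ring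
    have h9 : (w - T.eval z)⁻¹ = - (T.eval z - w)⁻¹ := by
      rw [← inv_neg, neg_sub]
    rw [h8, div_eq_mul_inv _ (w - T.eval z), h9]
    generalize (∑ ζ ∈ F, ((derivative T).eval ζ ^ 2)⁻¹ * (z - ζ)⁻¹) = R
    generalize (∑ ζ ∈ F, ((derivative T).eval ζ ^ 2)⁻¹ * ((z - ζ) ^ 2)⁻¹) = R2
    generalize T.eval z - w = Q at hTw
    field_simp
    ring
  rw [Finset.sum_congr rfl key, Finset.sum_sub_distrib, sub_eq_zero] at hLh
  have himg : Z.image (fun z => T.eval z) = Z := by
    apply Finset.eq_of_subset_of_card_le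
    · intro y hy
      obtain ⟨z, hz, rfl⟩ := Finset.mem_image.mp hy
      exact hcyc.1 z hz
    · rw [Finset.card_image_of_injOn]
      intro z hz z' hz' hzz
      exact hcyc.2.1 z hz z' hz' hzz
  have hperm : ∑ z ∈ Z, (a (T.eval z) / (w - T.eval z) ^ 2 + b (T.eval z) / (w - T.eval z)) =
      qd Z a b w := by
    rw [qd]
    conv_rhs => rw [← himg]
    rw [Finset.sum_image]
    intro z hz z' hz' hzz
    exact hcyc.2.1 z hz z' hz' hzz
  rw [hperm, Finset.sum_comm] at hLh
  rw [hLh]
  apply Finset.sum_congr rfl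
  intro ζ hζ
  rw [qd, Finset.sum_div]

end Pool.Agent.H713R5.QJ
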