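import Mathlib
import Pool.Agent.H713R5.QJ.Defs3

/-!
Project QJ (MP_28f8a1_an): choice of references.
-/

set_option autoImplicit false

open Topology Filter Metric Set Polynomial MeasureTheory
open Pool.Agent.H713R3.ZA

namespace Pool.Agent.H713R5.QJ

namespace REFP

variable {n : ℕ}

open Classical in
/-- the class of `i` -/
noncomputable def cls (f : ℂ → ℂ) (Es : Finset (Fin n)) (s : Fin n → ℂ) (i : Fin n) :
    Finset (Fin n) := Es.filter fun i' => ∃ b : ℕ, s i = f^[b] (s i')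

theorem mem_cls (f : ℂ → ℂ) (Es : Finset (Fin n)) (s : Fin n → ℂ) (i i' : Fin n) :
    i' ∈ cls f Es s i ↔ i' ∈ Es ∧ ∃ b : ℕ, s i = f^[b] (s i') := by
  classical
  unfold cls
  rw [Finset.mem_filter]

theorem self_mem (f : ℂ → ℂ) (Es : Finset (Fin n)) (s : Fin n → ℂ) (i : Fin n) (hi : i ∈ Es) :
    i ∈ cls f Es s i := (mem_cls f Es s i i).2 ⟨hi, 0, rfl⟩

theorem iter_fix (f : ℂ → ℂ) (P : ℕ) (z : ℂ) (h : f^[P] z = z) (k : ℕ) : f^[P * k] z = z := by
  rw [Function.iterate_mul]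
  exact Function.iterate_fixed h k

theorem symm (f : ℂ → ℂ) (P : ℕ) (hP : 0 < P) (z w : ℂ) (h : f^[P] z = z) (b : ℕ)
    (hw : w = f^[b] z) : ∃ b' : ℕ, z = f^[b'] w := by
  refine ⟨P * b - b, ?_⟩
  have h1 : b ≤ P * b := Nat.le_mul_of_pos_left b hP
  rw [hw, ← Function.iterate_add_apply, Nat.sub_add_cancel h1, iter_fix f P z h]

theorem cls_eq (f : ℂ → ℂ) (P : ℕ) (hP : 0 < P) (Es : Finset (Fin n)) (s : Fin n → ℂ)
    (hs : ∀ i ∈ Es, f^[P] (s i) = s i) (i i' : Fin n) (hi' : i' ∈ Es) (b : ℕ)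
    (h : s i = f^[b] (s i')) : cls f Es s i = cls f Es s i' := by
  ext j
  rw [mem_cls, mem_cls]
  constructor
  · rintro ⟨hj, c, hc⟩
    refine ⟨hj, ?_⟩
    obtain ⟨b', hb'⟩ := symm f P hP (s i') (s i) (hs i' hi') b h
    refine ⟨b' + c, ?_⟩
    rw [hb', hc, ← Function.iterate_add_apply]
  · rintro ⟨hj, c, hc⟩
    refine ⟨hj, b + c, ?_⟩
    rw [h, hc, ← Function.iterate_add_apply]

open Classical in
/-- the reference -/
noncomputable def rfn (f : ℂ → ℂ) (Es : Finset (Fin n)) (s : Fin n → ℂ) (i : Fin n) : Fin n :=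
  if h : (cls f Es s i).Nonempty then (cls f Es s i).min' h else i

theorem rfn_mem (f : ℂ → ℂ) (Es : Finset (Fin n)) (s : Fin n → ℂ) (i : Fin n) (hi : i ∈ Es) :
    rfn f Es s i ∈ cls f Es s i := by
  have h : (cls f Es s i).Nonempty := ⟨i, self_mem f Es s i hi⟩
  unfold rfn
  rw [dif_pos h]
  exact Finset.min'_mem _ _

theorem rfn_congr (f : ℂ → ℂ) (Es : Finset (Fin n)) (s : Fin n → ℂ) (i i' : Fin n) (hi : i ∈ Es)
    (h : cls f Es s i = cls f Es s i') : rfn f Es s i = rfn f Es s i' := by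
  have h1 : (cls f Es s i).Nonempty := ⟨i, self_mem f Es s i hi⟩
  have h2 : (cls f Es s i').Nonempty := by rwa [h] at h1
  unfold rfn
  rw [dif_pos h1, dif_pos h2]
  simp only [h]

end REFP

open REFP in
theorem refp_holds : StREFP := by
  classical
  intro f n P Es s hP hs
  have hmem : ∀ i ∈ Es, rfn f Es s i ∈ Es ∧ ∃ b : ℕ, s i = f^[b] (s (rfn f Es s i)) :=
    fun i hi => (mem_cls f Es s i _).1 (rfn_mem f Es s i hi)
  have hidem : ∀ i ∈ Es, rfn f Es s (rfn f Es s i) = rfn f Es s i := by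
    intro i hi
    obtain ⟨h1, b, h2⟩ := hmem i hi
    exact (rfn_congr f Es s i _ hi (cls_eq f P hP Es s hs i _ h1 b h2)).symm
  let ap : Fin n → ℕ := fun i => if h : rfn f Es s i = i ∨ i ∉ Es then 0 else
    (hmem i (by push Not at h; exact h.2)).2.choose
  have hap0 : ∀ i, rfn f Es s i = i → ap i = 0 := by
    intro i hi
    exact dif_pos (Or.inl hi)
  refine ⟨rfn f Es s, ap, ⟨fun i hi => (hmem i hi).1, hidem, fun i _ h => hap0 i h⟩, ?_, ?_⟩
  · intro i hi
    by_cases h : rfn f Es s i = i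
    · rw [hap0 i h, h]
      rfl
    · have h' : ¬ (rfn f Es s i = i ∨ i ∉ Es) := by
        push Not
        exact ⟨h, hi⟩
      have e : ap i = (hmem i hi).2.choose := dif_neg h'
      rw [e]
      exact (hmem i hi).2.choose_spec
  · intro i hi i' hi' h1 h2 hne b hb
    apply hne
    rw [← h1, ← h2]
    exact (rfn_congr f Es s i' i hi' (cls_eq f P hP Es s hs i' i hi b hb)).symm

end Pool.Agent.H713R5.QJ
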