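import Mathlib
import Pool.Agent.H713R5.QJ.Defs1

set_option autoImplicit false

open Topology Filter Metric Set Polynomial MeasureTheory
open Pool.Agent.H713R3.ZA

namespace Pool.Agent.H713R5.QJ

namespace RSaux

/-- local inverse of `K t` on the disc around `σ t` -/
noncomputable def G (K : ℂ → ℂ → ℂ) (σ : ℂ → ℂ) (r₁ : ℝ) (t w : ℂ) : ℂ := by
  classical
  exact if h : ∃ y ∈ ball (σ t) r₁, K t y = w then h.choose else 0

theorem G_spec {K : ℂ → ℂ → ℂ} {σ : ℂ → ℂ} {r₁ : ℝ} {t w : ℂ}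
    (h : ∃ y ∈ ball (σ t) r₁, K t y = w) :
    G K σ r₁ t w ∈ ball (σ t) r₁ ∧ K t (G K σ r₁ t w) = w := by
  unfold G
  rw [dif_pos h]
  exact h.choose_spec

theorem low {K : ℂ → ℂ} {z z' : ℂ} (h : ‖K z - K z' - (z - z')‖ ≤ ‖z - z'‖ / 8) :
    ‖z - z'‖ ≤ 8 / 7 * ‖K z - K z'‖ := by
  have h1 : ‖z - z'‖ ≤ ‖K z - K z'‖ + ‖K z - K z' - (z - z')‖ := by
    calc ‖z - z'‖ = ‖(K z - K z') - (K z - K z' - (z - z'))‖ := by congr 1; ring
      _ ≤ _ := norm_sub_le _ _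
  linarith

theorem up {K : ℂ → ℂ} {z z' : ℂ} (h : ‖K z - K z' - (z - z')‖ ≤ ‖z - z'‖ / 8) :
    ‖K z - K z'‖ ≤ 9 / 8 * ‖z - z'‖ := by
  have h1 : ‖K z - K z'‖ ≤ ‖z - z'‖ + ‖K z - K z' - (z - z')‖ := by
    calc ‖K z - K z'‖ = ‖(z - z') + (K z - K z' - (z - z'))‖ := by congr 1; ring
      _ ≤ _ := norm_add_le _ _
  linarith

theorem G_cont {K : ℂ → ℂ → ℂ} {σ : ℂ → ℂ} {r₁ r₂ ρ : ℝ}
    (hσ : ∀ t ∈ ball (0 : ℂ) ρ, ContinuousAt σ t)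
    (hclose : ∀ t ∈ ball (0 : ℂ) ρ, ∀ z ∈ ball (σ t) r₁, ∀ z' ∈ ball (σ t) r₁,
      ‖K t z - K t z' - (z - z')‖ ≤ ‖z - z'‖ / 8)
    (honto : ∀ t ∈ ball (0 : ℂ) ρ, ∀ w ∈ ball (0 : ℂ) r₂, ∃ z ∈ ball (σ t) r₁, K t z = w)
    (hKd : ∀ t ∈ ball (0 : ℂ) ρ, ∀ z ∈ ball (σ t) r₁,
      DifferentiableAt ℂ (fun q : ℂ × ℂ => K q.1 q.2) (t, z))
    {t₀ w₀ : ℂ} (ht₀ : t₀ ∈ ball (0 : ℂ) ρ) (hw₀ : w₀ ∈ ball (0 : ℂ) r₂) :
    ContinuousAt (fun q : ℂ × ℂ => G K σ r₁ q.1 q.2) (t₀, w₀) := by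
  obtain ⟨hy₀, hKy₀⟩ := G_spec (honto t₀ ht₀ w₀ hw₀)
  set y₀ := G K σ r₁ t₀ w₀ with hy₀def
  show Tendsto (fun q : ℂ × ℂ => G K σ r₁ q.1 q.2) (𝓝 (t₀, w₀)) (𝓝 y₀)
  rw [tendsto_iff_norm_sub_tendsto_zero]
  have hK : ContinuousAt (fun q : ℂ × ℂ => K q.1 y₀) (t₀, w₀) := by
    have h1 : ContinuousAt (fun q : ℂ × ℂ => K q.1 q.2) (t₀, y₀) := (hKd t₀ ht₀ y₀ hy₀).continuousAt
    have h2 : ContinuousAt (fun q : ℂ × ℂ => (q.1, y₀)) (t₀, w₀) := by fun_prop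
    exact ContinuousAt.comp (f := fun q : ℂ × ℂ => (q.1, y₀))
      (g := fun q : ℂ × ℂ => K q.1 q.2) (x := (t₀, w₀)) h1 h2
  refine squeeze_zero' (g := fun q : ℂ × ℂ => 8 / 7 * ‖q.2 - K q.1 y₀‖)
    (Eventually.of_forall fun q => norm_nonneg _) ?_ ?_
  · have e1 : ∀ᶠ q : ℂ × ℂ in 𝓝 (t₀, w₀), q.1 ∈ ball (0 : ℂ) ρ :=
      continuousAt_fst.eventually (isOpen_ball.mem_nhds ht₀)
    have e2 : ∀ᶠ q : ℂ × ℂ in 𝓝 (t₀, w₀), q.2 ∈ ball (0 : ℂ) r₂ :=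
      continuousAt_snd.eventually (isOpen_ball.mem_nhds hw₀)
    have e3 : ∀ᶠ q : ℂ × ℂ in 𝓝 (t₀, w₀), y₀ ∈ ball (σ q.1) r₁ := by
      have h3 : ContinuousAt (fun q : ℂ × ℂ => dist y₀ (σ q.1)) (t₀, w₀) := by
        have h4 : ContinuousAt (fun q : ℂ × ℂ => σ q.1) (t₀, w₀) :=
          ContinuousAt.comp (f := fun q : ℂ × ℂ => q.1) (g := σ) (x := (t₀, w₀)) (hσ t₀ ht₀)
            continuousAt_fst
        exact continuousAt_const.dist h4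
      exact h3.eventually (gt_mem_nhds (mem_ball.1 hy₀))
    filter_upwards [e1, e2, e3] with q h1 h2 h3
    obtain ⟨g1, g2⟩ := G_spec (honto q.1 h1 q.2 h2)
    have h5 := low (hclose q.1 h1 _ g1 _ h3)
    rwa [g2] at h5
  · have h6 : Tendsto (fun q : ℂ × ℂ => 8 / 7 * ‖q.2 - K q.1 y₀‖) (𝓝 (t₀, w₀))
        (𝓝 (8 / 7 * ‖w₀ - K t₀ y₀‖)) := by
      exact ((continuousAt_snd.sub hK).norm).const_mul _ |>.tendsto
    rwa [hKy₀, sub_self, norm_zero, mul_zero] at h6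

theorem G_diff {K : ℂ → ℂ → ℂ} {σ : ℂ → ℂ} {r₁ r₂ ρ : ℝ}
    (hσ : ∀ t ∈ ball (0 : ℂ) ρ, ContinuousAt σ t)
    (hclose : ∀ t ∈ ball (0 : ℂ) ρ, ∀ z ∈ ball (σ t) r₁, ∀ z' ∈ ball (σ t) r₁,
      ‖K t z - K t z' - (z - z')‖ ≤ ‖z - z'‖ / 8)
    (honto : ∀ t ∈ ball (0 : ℂ) ρ, ∀ w ∈ ball (0 : ℂ) r₂, ∃ z ∈ ball (σ t) r₁, K t z = w)
    (hKd : ∀ t ∈ ball (0 : ℂ) ρ, ∀ z ∈ ball (σ t) r₁,
      DifferentiableAt ℂ (fun q : ℂ × ℂ => K q.1 q.2) (t, z))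
    {t₀ w₀ : ℂ} (ht₀ : t₀ ∈ ball (0 : ℂ) ρ) (hw₀ : w₀ ∈ ball (0 : ℂ) r₂) :
    DifferentiableAt ℂ (fun q : ℂ × ℂ => G K σ r₁ q.1 q.2) (t₀, w₀) := by
  obtain ⟨hy₀, hKy₀⟩ := G_spec (honto t₀ ht₀ w₀ hw₀)
  have hcont := G_cont hσ hclose honto hKd ht₀ hw₀
  set y₀ := G K σ r₁ t₀ w₀ with hy₀def
  set A := fderiv ℂ (fun q : ℂ × ℂ => K q.1 q.2) (t₀, y₀) with hA
  have hAd : HasFDerivAt (fun q : ℂ × ℂ => K q.1 q.2) A (t₀, y₀) :=
    (hKd t₀ ht₀ y₀ hy₀).hasFDerivAt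
  set L : (ℂ × ℂ) →L[ℂ] (ℂ × ℂ) := (ContinuousLinearMap.fst ℂ ℂ ℂ).prod A with hL
  have hΨ : HasFDerivAt (fun q : ℂ × ℂ => (q.1, K q.1 q.2)) L (t₀, y₀) :=
    hasFDerivAt_fst.prodMk hAd
  -- the partial derivative
  have hB : ‖A (0, 1) - 1‖ ≤ 1 / 8 := by
    have h1 : HasDerivAt (fun z : ℂ => ((t₀, z) : ℂ × ℂ)) ((0, 1) : ℂ × ℂ) y₀ :=
      (hasDerivAt_const y₀ t₀).prodMk (hasDerivAt_id y₀)
    have h2 : HasDerivAt (fun z : ℂ => K t₀ z) (A (0, 1)) y₀ :=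
      HasFDerivAt.comp_hasDerivAt y₀ (l := fun q : ℂ × ℂ => K q.1 q.2)
        (f := fun z : ℂ => ((t₀, z) : ℂ × ℂ)) hAd h1
    have h3 : HasDerivAt (fun z : ℂ => K t₀ z - z) (A (0, 1) - 1) y₀ := h2.sub (hasDerivAt_id y₀)
    refine h3.le_of_lip' (by norm_num) ?_
    filter_upwards [isOpen_ball.mem_nhds hy₀] with z hz
    have h4 := hclose t₀ ht₀ z hz y₀ hy₀
    calc ‖K t₀ z - z - (K t₀ y₀ - y₀)‖ = ‖K t₀ z - K t₀ y₀ - (z - y₀)‖ := by congr 1; ring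
      _ ≤ ‖z - y₀‖ / 8 := h4
      _ = 1 / 8 * ‖z - y₀‖ := by ring
  have hB0 : A (0, 1) ≠ 0 := by
    intro h
    rw [h] at hB
    norm_num at hB
  have hinj : Function.Injective L := by
    rw [injective_iff_map_eq_zero]
    rintro ⟨u, v⟩ huv
    have h1 : u = 0 := congrArg Prod.fst huv
    subst h1
    have h2 : A (0, v) = 0 := congrArg Prod.snd huv
    have h3 : ((0, v) : ℂ × ℂ) = v • ((0, 1) : ℂ × ℂ) := by simp
    rw [h3, map_smul, smul_eq_mul, mul_eq_zero] at h2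
    rcases h2 with h2 | h2
    · rw [h2]; rfl
    · exact absurd h2 hB0
  let e : (ℂ × ℂ) ≃L[ℂ] (ℂ × ℂ) :=
    (LinearEquiv.ofInjectiveEndo L.toLinearMap hinj).toContinuousLinearEquiv
  have he : (e : (ℂ × ℂ) →L[ℂ] (ℂ × ℂ)) = L := by
    ext <;> rfl
  have hΨ' : HasFDerivAt (fun q : ℂ × ℂ => (q.1, K q.1 q.2)) (e : (ℂ × ℂ) →L[ℂ] (ℂ × ℂ))
      ((fun q : ℂ × ℂ => ((q.1, G K σ r₁ q.1 q.2) : ℂ × ℂ)) (t₀, w₀)) := by
    rw [he]
    exact hΨ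
  have hg : ContinuousAt (fun q : ℂ × ℂ => ((q.1, G K σ r₁ q.1 q.2) : ℂ × ℂ)) (t₀, w₀) :=
    continuousAt_fst.prodMk hcont
  have hfin := HasFDerivAt.of_local_left_inverse hg hΨ' (by
    have e1 : ∀ᶠ q : ℂ × ℂ in 𝓝 (t₀, w₀), q.1 ∈ ball (0 : ℂ) ρ :=
      continuousAt_fst.eventually (isOpen_ball.mem_nhds ht₀)
    have e2 : ∀ᶠ q : ℂ × ℂ in 𝓝 (t₀, w₀), q.2 ∈ ball (0 : ℂ) r₂ :=
      continuousAt_snd.eventually (isOpen_ball.mem_nhds hw₀)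
    filter_upwards [e1, e2] with q h1 h2
    obtain ⟨g1, g2⟩ := G_spec (honto q.1 h1 q.2 h2)
    show (q.1, K q.1 (G K σ r₁ q.1 q.2)) = q
    rw [g2])
  exact hfin.differentiableAt.snd

/-- abstract data -/
structure Dat (n P : ℕ) (J : Fin n → Prop) (f K : ℂ → ℂ → ℂ) (s p d : Fin n → ℕ → ℂ → ℂ)
    (lam : Fin n → ℂ) (r₁ r₂ ρ : ℝ) : Prop where
  P0 : 0 < P
  hρ : 0 < ρ
  r1 : 0 < r₁
  fc : ∀ t ∈ ball (0 : ℂ) ρ, Continuous (f t)
  att : ∀ t ∈ ball (0 : ℂ) ρ, ∀ i, J i → ∀ b, ∀ z ∈ ball (s i b t) r₁,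
    Tendsto (fun k : ℕ => (f t)^[P * k] z) atTop (𝓝 (s i b t))
  K0 : ∀ t ∈ ball (0 : ℂ) ρ, ∀ i, J i → ∀ b, K t (s i b t) = 0
  close : ∀ t ∈ ball (0 : ℂ) ρ, ∀ i, J i → ∀ b, ∀ z ∈ ball (s i b t) r₁,
    ∀ z' ∈ ball (s i b t) r₁, ‖K t z - K t z' - (z - z')‖ ≤ ‖z - z'‖ / 8
  onto : ∀ t ∈ ball (0 : ℂ) ρ, ∀ i, J i → ∀ b, ∀ w ∈ ball (0 : ℂ) r₂,
    ∃ z ∈ ball (s i b t) r₁, K t z = w
  fs : ∀ t ∈ ball (0 : ℂ) ρ, ∀ i, J i → ∀ b, f t (s i b t) = s i (b + 1) t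
  sP : ∀ t ∈ ball (0 : ℂ) ρ, ∀ i, J i → ∀ b, s i (b + P) t = s i b t
  ds : ∀ t ∈ ball (0 : ℂ) ρ, ∀ i, J i → ∀ b b', s i b t = s i b' t → d i b t = d i b' t
  fK : ∀ t ∈ ball (0 : ℂ) ρ, ∀ i, J i → ∀ b, ∀ z ∈ ball (s i b t) r₁,
    K t (f t z) = d i b t * K t z
  ps : ∀ t ∈ ball (0 : ℂ) ρ, ∀ i, J i → ∀ b, p i (b + 1) t = d i b t * p i b t
  pP : ∀ t ∈ ball (0 : ℂ) ρ, ∀ i, J i → ∀ b, p i (b + P) t = lam i * p i b t
  l1 : ∀ i, J i → ‖lam i‖ ≤ 1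
  pne : ∀ t ∈ ball (0 : ℂ) ρ, ∀ i, J i → ∀ b, p i b t ≠ 0
  dis : ∀ t ∈ ball (0 : ℂ) ρ, ∀ i, J i → ∀ i', J i' → ∀ b b', s i b t = s i' b' t → i = i'
  sd : ∀ i, J i → ∀ b, DifferentiableOn ℂ (s i b) (ball 0 ρ)
  pd : ∀ i, J i → ∀ b, DifferentiableOn ℂ (p i b) (ball 0 ρ)
  Kd : ∀ t ∈ ball (0 : ℂ) ρ, ∀ i, J i → ∀ b, ∀ z ∈ ball (s i b t) r₁,
    DifferentiableAt ℂ (fun q : ℂ × ℂ => K q.1 q.2) (t, z)

section
variable {n P : ℕ} {J : Fin n → Prop} {f K : ℂ → ℂ → ℂ} {s p d : Fin n → ℕ → ℂ → ℂ}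
  {lam : Fin n → ℂ} {r₁ r₂ ρ : ℝ}

theorem Dat.inj (D : Dat n P J f K s p d lam r₁ r₂ ρ) {t : ℂ} (ht : t ∈ ball (0 : ℂ) ρ) {i : Fin n}
    (hi : J i) {b : ℕ} {y y' : ℂ} (hy : y ∈ ball (s i b t) r₁) (hy' : y' ∈ ball (s i b t) r₁)
    (h : K t y = K t y') : y = y' := by
  have h1 := low (D.close t ht i hi b y hy y' hy')
  rw [h, sub_self, norm_zero, mul_zero] at h1
  exact sub_eq_zero.1 (norm_le_zero_iff.1 h1)

theorem Dat.center (D : Dat n P J f K s p d lam r₁ r₂ ρ) (i : Fin n) (b : ℕ) (t : ℂ) :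
    s i b t ∈ ball (s i b t) r₁ := mem_ball_self D.r1

theorem Dat.eq_of_close (D : Dat n P J f K s p d lam r₁ r₂ ρ) {t : ℂ} (ht : t ∈ ball (0 : ℂ) ρ)
    {i i' : Fin n} (hi : J i) (hi' : J i') {b b' : ℕ} {z : ℂ} (hz : z ∈ ball (s i b t) r₁)
    (hz' : z ∈ ball (s i' b' t) r₁) : s i b t = s i' b' t :=
  tendsto_nhds_unique (D.att t ht i hi b z hz) (D.att t ht i' hi' b' z hz')

theorem Dat.persist (D : Dat n P J f K s p d lam r₁ r₂ ρ)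
    (hsm : ∀ t ∈ ball (0 : ℂ) ρ, ∀ i, J i → ∀ b ≤ P, ‖s i b t - s i b 0‖ < r₁ / 4)
    {t₁ t₂ : ℂ} (h₁ : t₁ ∈ ball (0 : ℂ) ρ) (h₂ : t₂ ∈ ball (0 : ℂ) ρ) {i : Fin n} (hi : J i)
    {b b' : ℕ} (hb : b ≤ P) (hb' : b' ≤ P) (h : s i b t₁ = s i b' t₁) : s i b t₂ = s i b' t₂ := by
  refine D.eq_of_close h₂ hi hi (z := s i b' t₂) ?_ (D.center i b' t₂)
  rw [mem_ball, dist_eq_norm]
  have a1 := hsm t₁ h₁ i hi b hb
  have a2 := hsm t₁ h₁ i hi b' hb'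
  have a3 := hsm t₂ h₂ i hi b hb
  have a4 := hsm t₂ h₂ i hi b' hb'
  calc ‖s i b' t₂ - s i b t₂‖
      = ‖(s i b' t₂ - s i b' 0) - (s i b' t₁ - s i b' 0) + (s i b t₁ - s i b 0) -
          (s i b t₂ - s i b 0)‖ := by rw [h]; congr 1; ring
    _ ≤ ‖(s i b' t₂ - s i b' 0) - (s i b' t₁ - s i b' 0) + (s i b t₁ - s i b 0)‖ +
          ‖s i b t₂ - s i b 0‖ := norm_sub_le _ _
    _ ≤ ‖(s i b' t₂ - s i b' 0) - (s i b' t₁ - s i b' 0)‖ + ‖s i b t₁ - s i b 0‖ +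
          ‖s i b t₂ - s i b 0‖ := by gcongr; exact norm_add_le _ _
    _ ≤ ‖s i b' t₂ - s i b' 0‖ + ‖s i b' t₁ - s i b' 0‖ + ‖s i b t₁ - s i b 0‖ +
          ‖s i b t₂ - s i b 0‖ := by gcongr; exact norm_sub_le _ _
    _ < r₁ := by linarith

/-- the ratio of positions at the same sink is constant; ordered case -/
theorem Dat.ratio_le (D : Dat n P J f K s p d lam r₁ r₂ ρ)
    (hsm : ∀ t ∈ ball (0 : ℂ) ρ, ∀ i, J i → ∀ b ≤ P, ‖s i b t - s i b 0‖ < r₁ / 4)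
    {i : Fin n} (hi : J i) {b k : ℕ} (hb : b + k ≤ P) (h : s i b 0 = s i (b + k) 0)
    {t : ℂ} (ht : t ∈ ball (0 : ℂ) ρ) :
    p i (b + k) t * p i b 0 = p i (b + k) 0 * p i b t := by
  have h00 : (0 : ℂ) ∈ ball (0 : ℂ) ρ := mem_ball_self D.hρ
  -- equality of the sinks for all times and shifts
  have hs : ∀ t ∈ ball (0 : ℂ) ρ, ∀ l : ℕ, s i (b + k + l) t = s i (b + l) t := by
    intro t ht l
    induction l with
    | zero => exact (D.persist hsm h00 ht hi (by omega) hb h).symm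
    | succ l ih =>
      have e1 : b + k + (l + 1) = (b + k + l) + 1 := by ring
      have e2 : b + (l + 1) = (b + l) + 1 := by ring
      rw [e1, e2, ← D.fs t ht i hi, ← D.fs t ht i hi, ih]
  have hp : ∀ t ∈ ball (0 : ℂ) ρ, ∀ l : ℕ,
      p i (b + k + l) t = p i (b + k) t / p i b t * p i (b + l) t := by
    intro t ht l
    induction l with
    | zero =>
      rw [add_zero, add_zero, div_mul_cancel₀ _ (D.pne t ht i hi b)]
    | succ l ih =>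
      have e1 : b + k + (l + 1) = (b + k + l) + 1 := by ring
      have e2 : b + (l + 1) = (b + l) + 1 := by ring
      rw [e1, e2, D.ps t ht i hi, D.ps t ht i hi, ih, D.ds t ht i hi _ _ (hs t ht l)]
      ring
  have hpk : ∀ t ∈ ball (0 : ℂ) ρ, ∀ j : ℕ,
      p i (b + k * j) t = (p i (b + k) t / p i b t) ^ j * p i b t := by
    intro t ht j
    induction j with
    | zero => simp
    | succ j ih =>
      have e1 : b + k * (j + 1) = b + k + k * j := by ring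
      rw [e1, hp t ht, ih]
      ring
  have hpP : ∀ t ∈ ball (0 : ℂ) ρ, ∀ j : ℕ, p i (b + P * j) t = lam i ^ j * p i b t := by
    intro t ht j
    induction j with
    | zero => simp
    | succ j ih =>
      have e1 : b + P * (j + 1) = b + P * j + P := by ring
      rw [e1, D.pP t ht i hi, ih]
      ring
  have hm : ∀ t ∈ ball (0 : ℂ) ρ, (p i (b + k) t / p i b t) ^ P = lam i ^ k := by
    intro t ht
    have e1 := hpk t ht P
    have e2 := hpP t ht k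
    rw [mul_comm k P] at e1
    rw [e1] at e2
    exact mul_right_cancel₀ (D.pne t ht i hi b) e2
  have hcont : ContinuousOn (fun t => p i (b + k) t / p i b t) (ball 0 ρ) :=
    (D.pd i hi _).continuousOn.div (D.pd i hi _).continuousOn fun t ht => D.pne t ht i hi b
  have hfin : {w : ℂ | w ^ P = lam i ^ k}.Finite := by
    have hne : (X ^ P - C (lam i ^ k) : ℂ[X]) ≠ 0 := X_pow_sub_C_ne_zero D.P0 _
    refine (Polynomial.finite_setOfPred_isRoot hne).subset ?_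
    intro w hw
    simp only [mem_ofPred_eq, IsRoot.def, eval_sub, eval_pow, eval_X, eval_C]
    rw [mem_ofPred_eq] at hw
    rw [hw, sub_self]
  have hdisc : IsDiscrete {w : ℂ | w ^ P = lam i ^ k} := hfin.isDiscrete
  have hconst := IsPreconnected.constant_of_mapsTo (convex_ball (0 : ℂ) ρ).isPreconnected hdisc
    hcont
    (fun t ht => hm t ht) ht h00
  rw [div_eq_div_iff (D.pne t ht i hi b) (D.pne 0 h00 i hi b)] at hconst
  exact hconst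

theorem Dat.ratio (D : Dat n P J f K s p d lam r₁ r₂ ρ)
    (hsm : ∀ t ∈ ball (0 : ℂ) ρ, ∀ i, J i → ∀ b ≤ P, ‖s i b t - s i b 0‖ < r₁ / 4)
    {i : Fin n} (hi : J i) {b b' : ℕ} (hb : b ≤ P) (hb' : b' ≤ P) (h : s i b 0 = s i b' 0)
    {t : ℂ} (ht : t ∈ ball (0 : ℂ) ρ) :
    p i b' t * p i b 0 = p i b' 0 * p i b t := by
  rcases le_total b b' with h1 | h1
  · obtain ⟨k, rfl⟩ := Nat.exists_eq_add_of_le h1
    exact D.ratio_le hsm hi hb' h ht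
  · obtain ⟨k, rfl⟩ := Nat.exists_eq_add_of_le h1
    have := D.ratio_le hsm hi hb h.symm ht
    linear_combination -this

theorem Dat.dne (D : Dat n P J f K s p d lam r₁ r₂ ρ) {t : ℂ} (ht : t ∈ ball (0 : ℂ) ρ) {i : Fin n}
    (hi : J i) (b : ℕ) : d i b t ≠ 0 := by
  intro h
  have h1 := D.ps t ht i hi b
  rw [h, zero_mul] at h1
  exact D.pne t ht i hi (b + 1) h1

/-- the forward step -/
theorem Dat.fwd (D : Dat n P J f K s p d lam r₁ r₂ ρ) {r' τ : ℝ} (hr0 : 0 < r') (hr : r' < r₁)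
    (hsm : ∀ t ∈ ball (0 : ℂ) ρ, ∀ i, J i → ∀ b ≤ P, τ * ‖p i b t‖ < r' / 4)
    {t : ℂ} (ht : t ∈ ball (0 : ℂ) ρ) {i : Fin n} (hi : J i) {b : ℕ} (hb : b < P) {z : ℂ}
    (hz : ‖z - s i b t‖ < r') (hK : ‖K t z‖ < τ * ‖p i b t‖) :
    ‖f t z - s i (b + 1) t‖ < r' ∧ K t (f t z) = d i b t * K t z ∧
      ‖K t (f t z)‖ < τ * ‖p i (b + 1) t‖ := by
  have hzr : z ∈ ball (s i b t) r₁ := by
    rw [mem_ball, dist_eq_norm]; linarith
  have hfK := D.fK t ht i hi b z hzr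
  have hdpos : 0 < ‖d i b t‖ := norm_pos_iff.2 (D.dne ht hi b)
  have hlt : ‖K t (f t z)‖ < τ * ‖p i (b + 1) t‖ := by
    rw [hfK, D.ps t ht i hi b, norm_mul, norm_mul]
    have := mul_lt_mul_of_pos_left hK hdpos
    linarith
  refine ⟨?_, hfK, hlt⟩
  by_contra hcon
  push Not at hcon
  -- the segment
  have hcont : ContinuousOn (fun u : ℝ => ‖f t (s i b t + (u : ℂ) * (z - s i b t)) -
      s i (b + 1) t‖) (Icc 0 1) := by
    have hf := D.fc t ht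
    fun_prop
  have hivt := intermediate_value_Icc (zero_le_one' ℝ) hcont
  have hmem : r' ∈ Icc (‖f t (s i b t + ((0 : ℝ) : ℂ) * (z - s i b t)) - s i (b + 1) t‖)
      (‖f t (s i b t + ((1 : ℝ) : ℂ) * (z - s i b t)) - s i (b + 1) t‖) := by
    constructor
    · rw [Complex.ofReal_zero, zero_mul, add_zero, D.fs t ht i hi b, sub_self, norm_zero]
      exact hr0.le
    · rw [Complex.ofReal_one, one_mul, add_sub_cancel]
      exact hcon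
  obtain ⟨u, hu, hu2⟩ := hivt hmem
  set y := s i b t + (u : ℂ) * (z - s i b t) with hy
  have hys : ‖y - s i b t‖ ≤ ‖z - s i b t‖ := by
    rw [hy, add_sub_cancel_left, norm_mul, Complex.norm_real, Real.norm_of_nonneg hu.1]
    exact mul_le_of_le_one_left (norm_nonneg _) hu.2
  have hyr : y ∈ ball (s i b t) r₁ := by
    rw [mem_ball, dist_eq_norm]; linarith
  have hKy : ‖K t y‖ ≤ 9 / 7 * ‖K t z‖ := by
    have h1 := up (D.close t ht i hi b y hyr _ (D.center i b t))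
    have h2 := low (D.close t ht i hi b z hzr _ (D.center i b t))
    rw [D.K0 t ht i hi b, sub_zero] at h1 h2
    linarith
  have hKfy : ‖K t (f t y)‖ ≤ 9 / 7 * ‖K t (f t z)‖ := by
    rw [D.fK t ht i hi b y hyr, hfK, norm_mul, norm_mul]
    have := mul_le_mul_of_nonneg_left hKy hdpos.le
    linarith
  have hfyr : f t y ∈ ball (s i (b + 1) t) r₁ := by
    rw [mem_ball, dist_eq_norm]
    have : ‖f t y - s i (b + 1) t‖ = r' := hu2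
    rw [this]; exact hr
  have h3 := low (D.close t ht i hi (b + 1) _ hfyr _ (D.center i (b + 1) t))
  rw [D.K0 t ht i hi (b + 1), sub_zero] at h3
  have h4 : ‖f t y - s i (b + 1) t‖ = r' := hu2
  have h5 := hsm t ht i hi (b + 1) hb
  rw [h4] at h3
  linarith

end

section
variable {n P : ℕ} {J : Fin n → Prop} {f K : ℂ → ℂ → ℂ} {s p d : Fin n → ℕ → ℂ → ℂ}
  {lam : Fin n → ℂ} {r₁ r₂ ρ : ℝ}

/-- the pair `q` is good for `z` at time `t` -/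
def Pr (P : ℕ) (J : Fin n → Prop) (K : ℂ → ℂ → ℂ) (s p : Fin n → ℕ → ℂ → ℂ) (r' τ : ℝ) (t z : ℂ)
    (q : Fin n × ℕ) : Prop :=
  J q.1 ∧ q.2 < P ∧ ‖z - s q.1 q.2 t‖ < r' ∧ ‖K t z‖ < τ * ‖p q.1 q.2 t‖

/-- the region near the sinks -/
def UU (P : ℕ) (J : Fin n → Prop) (K : ℂ → ℂ → ℂ) (s p : Fin n → ℕ → ℂ → ℂ) (r' τ : ℝ) (t : ℂ) :
    Set ℂ := {z | ∃ q, Pr P J K s p r' τ t z q}

/-- the conjugacy -/
noncomputable def Hf (P : ℕ) (J : Fin n → Prop) (K : ℂ → ℂ → ℂ) (s p : Fin n → ℕ → ℂ → ℂ)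
    (r₁ r' τ : ℝ) (t z : ℂ) : ℂ := by
  classical
  exact if h : ∃ q, Pr P J K s p r' τ 0 z q then
    G K (s h.choose.1 h.choose.2) r₁ t
      (K 0 z * p h.choose.1 h.choose.2 t / p h.choose.1 h.choose.2 0) else 0

/-- smallness of the time interval -/
structure Sm (P : ℕ) (J : Fin n → Prop) (s p : Fin n → ℕ → ℂ → ℂ) (r₁ r₂ r' τ ρ : ℝ) : Prop where
  r0 : 0 < r'
  rr : r' < r₁
  ss : ∀ t ∈ ball (0 : ℂ) ρ, ∀ i, J i → ∀ b ≤ P, ‖s i b t - s i b 0‖ < r₁ / 4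
  sp : ∀ t ∈ ball (0 : ℂ) ρ, ∀ i, J i → ∀ b ≤ P, τ * ‖p i b t‖ < min r₂ (r' / 4)

theorem Sm.sp2 {r' τ : ℝ} (S : Sm P J s p r₁ r₂ r' τ ρ) :
    ∀ t ∈ ball (0 : ℂ) ρ, ∀ i, J i → ∀ b ≤ P, τ * ‖p i b t‖ < r' / 4 :=
  fun t ht i hi b hb => (S.sp t ht i hi b hb).trans_le (min_le_right _ _)

theorem Sm.sp1 {r' τ : ℝ} (S : Sm P J s p r₁ r₂ r' τ ρ) :
    ∀ t ∈ ball (0 : ℂ) ρ, ∀ i, J i → ∀ b ≤ P, τ * ‖p i b t‖ < r₂ :=
  fun t ht i hi b hb => (S.sp t ht i hi b hb).trans_le (min_le_left _ _)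

theorem val_lt (D : Dat n P J f K s p d lam r₁ r₂ ρ) {r' τ : ℝ} {t z : ℂ}
    (ht : t ∈ ball (0 : ℂ) ρ) {q : Fin n × ℕ} (hq : Pr P J K s p r' τ 0 z q) :
    ‖K 0 z * p q.1 q.2 t / p q.1 q.2 0‖ < τ * ‖p q.1 q.2 t‖ := by
  have h00 : (0 : ℂ) ∈ ball (0 : ℂ) ρ := mem_ball_self D.hρ
  have h1 : 0 < ‖p q.1 q.2 t‖ := norm_pos_iff.2 (D.pne t ht _ hq.1 _)
  have h2 : 0 < ‖p q.1 q.2 0‖ := norm_pos_iff.2 (D.pne 0 h00 _ hq.1 _)
  rw [norm_div, norm_mul, div_lt_iff₀ h2]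
  have := mul_lt_mul_of_pos_right hq.2.2.2 h1
  linarith

theorem Hspec (D : Dat n P J f K s p d lam r₁ r₂ ρ) {r' τ : ℝ} (S : Sm P J s p r₁ r₂ r' τ ρ)
    {t z : ℂ} (ht : t ∈ ball (0 : ℂ) ρ) (hz : z ∈ UU P J K s p r' τ 0) {i : Fin n} (hi : J i)
    {b : ℕ} (hb : b < P) (hzi : ‖z - s i b 0‖ < r') :
    ‖Hf P J K s p r₁ r' τ t z - s i b t‖ < r' ∧
      K t (Hf P J K s p r₁ r' τ t z) * p i b 0 = K 0 z * p i b t := by
  have h00 : (0 : ℂ) ∈ ball (0 : ℂ) ρ := mem_ball_self D.hρ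
  have hz' : ∃ q, Pr P J K s p r' τ 0 z q := hz
  set q := hz'.choose with hqdef
  have hq : Pr P J K s p r' τ 0 z q := hz'.choose_spec
  have hH : Hf P J K s p r₁ r' τ t z =
      G K (s q.1 q.2) r₁ t (K 0 z * p q.1 q.2 t / p q.1 q.2 0) := by
    unfold Hf
    rw [dif_pos hz']
  obtain ⟨hJ, hqP, hzq, hKq⟩ := hq
  have hw := val_lt D ht hz'.choose_spec
  have hw2 : K 0 z * p q.1 q.2 t / p q.1 q.2 0 ∈ ball (0 : ℂ) r₂ := by
    rw [mem_ball_zero_iff]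
    exact hw.trans (S.sp1 t ht _ hJ _ hqP.le)
  obtain ⟨hy, hKy⟩ := G_spec (D.onto t ht q.1 hJ q.2 _ hw2)
  rw [← hH] at hy hKy
  set y := Hf P J K s p r₁ r' τ t z with hydef
  have hlow := low (D.close t ht q.1 hJ q.2 y hy _ (D.center _ _ _))
  rw [D.K0 t ht q.1 hJ q.2, sub_zero, hKy] at hlow
  have hlt : ‖y - s q.1 q.2 t‖ < r' := by
    have h1 := S.sp2 t ht _ hJ _ hqP.le
    have h2 := S.r0
    linarith
  -- comparison of the two pairs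
  have e0 : s i b 0 = s q.1 q.2 0 := by
    refine D.eq_of_close h00 hi hJ (z := z) ?_ ?_
    · rw [mem_ball, dist_eq_norm]; exact hzi.trans S.rr
    · rw [mem_ball, dist_eq_norm]; exact hzq.trans S.rr
  obtain rfl : i = q.1 := D.dis 0 h00 i hi q.1 hJ b q.2 e0
  have et : s q.1 b t = s q.1 q.2 t := D.persist S.ss h00 ht hi hb.le hqP.le e0
  refine ⟨by rw [et]; exact hlt, ?_⟩
  have hr := D.ratio S.ss hi hqP.le hb.le e0.symm ht
  rw [hKy, div_mul_eq_mul_div, div_eq_iff (D.pne 0 h00 _ hi _)]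
  linear_combination -(K 0 z) * hr

theorem Hmem (D : Dat n P J f K s p d lam r₁ r₂ ρ) {r' τ : ℝ} (S : Sm P J s p r₁ r₂ r' τ ρ)
    {t z : ℂ} (ht : t ∈ ball (0 : ℂ) ρ) {q : Fin n × ℕ} (hq : Pr P J K s p r' τ 0 z q) :
    Pr P J K s p r' τ t (Hf P J K s p r₁ r' τ t z) q := by
  have h00 : (0 : ℂ) ∈ ball (0 : ℂ) ρ := mem_ball_self D.hρ
  obtain ⟨h1, h2⟩ := Hspec D S ht ⟨q, hq⟩ hq.1 hq.2.1 hq.2.2.1
  refine ⟨hq.1, hq.2.1, h1, ?_⟩
  have h3 : K t (Hf P J K s p r₁ r' τ t z) = K 0 z * p q.1 q.2 t / p q.1 q.2 0 := by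
    rw [eq_div_iff (D.pne 0 h00 _ hq.1 _)]
    exact h2
  rw [h3]
  exact val_lt D ht hq

theorem H_zero (D : Dat n P J f K s p d lam r₁ r₂ ρ) {r' τ : ℝ} (S : Sm P J s p r₁ r₂ r' τ ρ)
    {z : ℂ} (hz : z ∈ UU P J K s p r' τ 0) : Hf P J K s p r₁ r' τ 0 z = z := by
  have h00 : (0 : ℂ) ∈ ball (0 : ℂ) ρ := mem_ball_self D.hρ
  obtain ⟨q, hq⟩ := hz
  obtain ⟨h1, h2⟩ := Hspec D S h00 ⟨q, hq⟩ hq.1 hq.2.1 hq.2.2.1
  refine D.inj h00 hq.1 (b := q.2) ?_ ?_ (mul_right_cancel₀ (D.pne 0 h00 _ hq.1 q.2) h2)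
  · rw [mem_ball, dist_eq_norm]; exact h1.trans S.rr
  · rw [mem_ball, dist_eq_norm]; exact hq.2.2.1.trans S.rr

theorem H_inj (D : Dat n P J f K s p d lam r₁ r₂ ρ) {r' τ : ℝ} (S : Sm P J s p r₁ r₂ r' τ ρ)
    {t : ℂ} (ht : t ∈ ball (0 : ℂ) ρ) :
    InjOn (Hf P J K s p r₁ r' τ t) (UU P J K s p r' τ 0) := by
  intro z hz z' hz' hzz
  have h00 : (0 : ℂ) ∈ ball (0 : ℂ) ρ := mem_ball_self D.hρ
  obtain ⟨q, hq⟩ := hz
  obtain ⟨q', hq'⟩ := hz'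
  obtain ⟨h1, h2⟩ := Hspec D S ht ⟨q, hq⟩ hq.1 hq.2.1 hq.2.2.1
  obtain ⟨h1', h2'⟩ := Hspec D S ht ⟨q', hq'⟩ hq'.1 hq'.2.1 hq'.2.2.1
  rw [← hzz] at h1' h2'
  have et : s q.1 q.2 t = s q'.1 q'.2 t := by
    refine D.eq_of_close ht hq.1 hq'.1 (z := Hf P J K s p r₁ r' τ t z) ?_ ?_
    · rw [mem_ball, dist_eq_norm]; exact h1.trans S.rr
    · rw [mem_ball, dist_eq_norm]; exact h1'.trans S.rr
  have hi := D.dis t ht _ hq.1 _ hq'.1 _ _ et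
  have hJ := hq.1
  have e0 : s q.1 q.2 0 = s q'.1 q'.2 0 := by
    rw [← hi] at et ⊢
    exact D.persist S.ss ht h00 hJ hq.2.1.le hq'.2.1.le et
  have hz'q : ‖z' - s q.1 q.2 0‖ < r' := by rw [e0]; exact hq'.2.2.1
  obtain ⟨_, h3⟩ := Hspec D S ht ⟨q', hq'⟩ hq.1 hq.2.1 hz'q
  rw [← hzz, h2] at h3
  have h4 : K 0 z = K 0 z' := mul_right_cancel₀ (D.pne t ht _ hq.1 q.2) h3
  refine D.inj h00 hq.1 (b := q.2) ?_ ?_ h4
  · rw [mem_ball, dist_eq_norm]; exact hq.2.2.1.trans S.rr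
  · rw [mem_ball, dist_eq_norm]; exact hz'q.trans S.rr

theorem F_inv (D : Dat n P J f K s p d lam r₁ r₂ ρ) {r' τ : ℝ} (S : Sm P J s p r₁ r₂ r' τ ρ)
    (hτ : 0 < τ) {t z : ℂ} (ht : t ∈ ball (0 : ℂ) ρ) (hz : z ∈ UU P J K s p r' τ t) :
    f t z ∈ UU P J K s p r' τ t := by
  obtain ⟨⟨i, b⟩, hJ, hb, hzs, hK⟩ := hz
  dsimp only at hJ hb hzs hK
  obtain ⟨h1, h2, h3⟩ := D.fwd S.r0 S.rr S.sp2 ht hJ hb hzs hK
  rcases Nat.lt_or_ge (b + 1) P with h | h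
  · exact ⟨(i, b + 1), hJ, h, h1, h3⟩
  · have hbP : b + 1 = 0 + P := by omega
    refine ⟨(i, 0), hJ, D.P0, ?_, ?_⟩
    · rw [hbP, D.sP t ht i hJ] at h1
      exact h1
    · rw [hbP, D.pP t ht i hJ, norm_mul] at h3
      refine h3.trans_le ?_
      dsimp only
      have := mul_le_of_le_one_left (norm_nonneg (p i 0 t)) (D.l1 i hJ)
      exact mul_le_mul_of_nonneg_left this hτ.le

theorem H_conj (D : Dat n P J f K s p d lam r₁ r₂ ρ) {r' τ : ℝ} (S : Sm P J s p r₁ r₂ r' τ ρ)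
    (hτ : 0 < τ) {t z : ℂ} (ht : t ∈ ball (0 : ℂ) ρ) (hz : z ∈ UU P J K s p r' τ 0) :
    f t (Hf P J K s p r₁ r' τ t z) = Hf P J K s p r₁ r' τ t (f 0 z) := by
  have h00 : (0 : ℂ) ∈ ball (0 : ℂ) ρ := mem_ball_self D.hρ
  have hfz := F_inv D S hτ h00 hz
  obtain ⟨⟨i, b⟩, hq⟩ := hz
  obtain ⟨hJ, hb, hy, hKy⟩ := Hmem D S ht hq
  obtain ⟨_, hval⟩ := Hspec D S ht ⟨(i, b), hq⟩ hq.1 hq.2.1 hq.2.2.1
  dsimp only at hJ hb hy hKy hval
  obtain ⟨h1, h2, h3⟩ := D.fwd S.r0 S.rr S.sp2 ht hJ hb hy hKy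
  obtain ⟨g1, g2, g3⟩ := D.fwd S.r0 S.rr S.sp2 h00 hJ hb hq.2.2.1 hq.2.2.2
  -- the value of `H t (f 0 z)`
  have key : ‖Hf P J K s p r₁ r' τ t (f 0 z) - s i (b + 1) t‖ < r' ∧
      K t (Hf P J K s p r₁ r' τ t (f 0 z)) * p i (b + 1) 0 = K 0 (f 0 z) * p i (b + 1) t := by
    rcases Nat.lt_or_ge (b + 1) P with h | h
    · exact Hspec D S ht hfz hJ h g1
    · have hbP : b + 1 = 0 + P := by omega
      have g1' : ‖f 0 z - s i 0 0‖ < r' := by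
        rw [hbP, D.sP 0 h00 i hJ] at g1
        exact g1
      obtain ⟨k1, k2⟩ := Hspec D S ht hfz hJ D.P0 g1'
      rw [hbP, D.sP t ht i hJ, D.pP t ht i hJ, D.pP 0 h00 i hJ]
      refine ⟨k1, ?_⟩
      linear_combination lam i * k2
  obtain ⟨k1, k2⟩ := key
  refine D.inj ht hJ (b := b + 1) ?_ ?_ ?_
  · rw [mem_ball, dist_eq_norm]; exact h1.trans S.rr
  · rw [mem_ball, dist_eq_norm]; exact k1.trans S.rr
  · refine mul_right_cancel₀ (D.pne 0 h00 i hJ (b + 1)) ?_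
    rw [k2, h2, g2, D.ps t ht i hJ, D.ps 0 h00 i hJ]
    linear_combination d i b t * d i b 0 * hval

theorem K_cont (D : Dat n P J f K s p d lam r₁ r₂ ρ) {i : Fin n} (hi : J i) {b : ℕ} {t z : ℂ}
    (ht : t ∈ ball (0 : ℂ) ρ) (hz : z ∈ ball (s i b t) r₁) : DifferentiableAt ℂ (K t) z := by
  have h1 : DifferentiableAt ℂ (fun z : ℂ => ((t, z) : ℂ × ℂ)) z := by fun_prop
  exact DifferentiableAt.comp (g := fun q : ℂ × ℂ => K q.1 q.2)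
    (f := fun z : ℂ => ((t, z) : ℂ × ℂ)) z (D.Kd t ht i hi b z hz) h1

theorem Pr_nhds (D : Dat n P J f K s p d lam r₁ r₂ ρ) {r' τ : ℝ} (S : Sm P J s p r₁ r₂ r' τ ρ)
    {z : ℂ} {q : Fin n × ℕ} (hq : Pr P J K s p r' τ 0 z q) :
    ∀ᶠ z' in 𝓝 z, Pr P J K s p r' τ 0 z' q := by
  have h00 : (0 : ℂ) ∈ ball (0 : ℂ) ρ := mem_ball_self D.hρ
  obtain ⟨hJ, hP, h1, h2⟩ := hq
  have e1 : ∀ᶠ z' in 𝓝 z, ‖z' - s q.1 q.2 0‖ < r' := by
    have : ContinuousAt (fun z' : ℂ => ‖z' - s q.1 q.2 0‖) z := by fun_prop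
    exact this.eventually (gt_mem_nhds h1)
  have e2 : ∀ᶠ z' in 𝓝 z, ‖K 0 z'‖ < τ * ‖p q.1 q.2 0‖ := by
    have hz : z ∈ ball (s q.1 q.2 0) r₁ := by
      rw [mem_ball, dist_eq_norm]; exact h1.trans S.rr
    exact (K_cont D hJ h00 hz).continuousAt.norm.eventually (gt_mem_nhds h2)
  filter_upwards [e1, e2] with z' h3 h4
  exact ⟨hJ, hP, h3, h4⟩

theorem UU_open (D : Dat n P J f K s p d lam r₁ r₂ ρ) {r' τ : ℝ}
    (S : Sm P J s p r₁ r₂ r' τ ρ) : IsOpen (UU P J K s p r' τ 0) := by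
  rw [isOpen_iff_mem_nhds]
  rintro z ⟨q, hq⟩
  filter_upwards [Pr_nhds D S hq] with z' hz'
  exact ⟨q, hz'⟩

theorem H_diff (D : Dat n P J f K s p d lam r₁ r₂ ρ) {r' τ : ℝ} (S : Sm P J s p r₁ r₂ r' τ ρ) :
    DifferentiableOn ℂ (fun q : ℂ × ℂ => Hf P J K s p r₁ r' τ q.1 q.2)
      (ball (0 : ℂ) ρ ×ˢ UU P J K s p r' τ 0) := by
  rintro ⟨t₀, z₀⟩ ⟨ht₀, hz₀⟩
  dsimp only at ht₀ hz₀
  refine DifferentiableAt.differentiableWithinAt ?_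
  have h00 : (0 : ℂ) ∈ ball (0 : ℂ) ρ := mem_ball_self D.hρ
  obtain ⟨⟨i, b⟩, hq⟩ := hz₀
  have hJ := hq.1
  have hb := hq.2.1
  dsimp only at hJ hb
  have hev : (fun q : ℂ × ℂ => Hf P J K s p r₁ r' τ q.1 q.2) =ᶠ[𝓝 (t₀, z₀)]
      fun q : ℂ × ℂ => G K (s i b) r₁ q.1 (K 0 q.2 * p i b q.1 / p i b 0) := by
    have e1 : ∀ᶠ q : ℂ × ℂ in 𝓝 (t₀, z₀), q.1 ∈ ball (0 : ℂ) ρ :=
      continuousAt_fst.eventually (isOpen_ball.mem_nhds ht₀)
    have e2 : ∀ᶠ q : ℂ × ℂ in 𝓝 (t₀, z₀), Pr P J K s p r' τ 0 q.2 (i, b) :=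
      continuousAt_snd.eventually (Pr_nhds D S hq)
    filter_upwards [e1, e2] with q h1 h2
    obtain ⟨k1, k2⟩ := Hspec D S h1 ⟨(i, b), h2⟩ h2.1 h2.2.1 h2.2.2.1
    dsimp only at k1 k2
    have hw := val_lt D h1 h2
    dsimp only at hw
    have hw2 : K 0 q.2 * p i b q.1 / p i b 0 ∈ ball (0 : ℂ) r₂ := by
      rw [mem_ball_zero_iff]
      exact hw.trans (S.sp1 q.1 h1 _ hJ _ hb.le)
    obtain ⟨hy, hKy⟩ := G_spec (D.onto q.1 h1 i hJ b _ hw2)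
    refine D.inj h1 hJ (b := b) ?_ hy ?_
    · rw [mem_ball, dist_eq_norm]; exact k1.trans S.rr
    · rw [hKy, eq_div_iff (D.pne 0 h00 _ hJ _)]
      exact k2
  refine DifferentiableAt.congr_of_eventuallyEq ?_ hev
  have hw := val_lt D ht₀ hq
  dsimp only at hw
  have hw2 : K 0 z₀ * p i b t₀ / p i b 0 ∈ ball (0 : ℂ) r₂ := by
    rw [mem_ball_zero_iff]
    exact hw.trans (S.sp1 t₀ ht₀ _ hJ _ hb.le)
  have hG := G_diff (K := K) (σ := s i b) (r₁ := r₁) (r₂ := r₂) (ρ := ρ)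
    (fun t ht => ((D.sd i hJ b).differentiableAt (isOpen_ball.mem_nhds ht)).continuousAt)
    (fun t ht => D.close t ht i hJ b) (fun t ht => D.onto t ht i hJ b)
    (fun t ht => D.Kd t ht i hJ b) ht₀ hw2
  have hz₀r : z₀ ∈ ball (s i b 0) r₁ := by
    rw [mem_ball, dist_eq_norm]; exact hq.2.2.1.trans S.rr
  have hK : DifferentiableAt ℂ (fun q : ℂ × ℂ => K 0 q.2) (t₀, z₀) :=
    DifferentiableAt.comp (g := K 0) (f := fun q : ℂ × ℂ => q.2) (t₀, z₀)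
      (K_cont D hJ h00 hz₀r) differentiableAt_snd
  have hp : DifferentiableAt ℂ (fun q : ℂ × ℂ => p i b q.1) (t₀, z₀) :=
    DifferentiableAt.comp (g := p i b) (f := fun q : ℂ × ℂ => q.1) (t₀, z₀)
      ((D.pd i hJ b).differentiableAt (isOpen_ball.mem_nhds ht₀)) differentiableAt_fst
  have hin : DifferentiableAt ℂ (fun q : ℂ × ℂ => ((q.1, K 0 q.2 * p i b q.1 / p i b 0) : ℂ × ℂ))
      (t₀, z₀) := by
    refine differentiableAt_fst.prodMk ?_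
    simp only [div_eq_mul_inv]
    exact (hK.mul hp).mul_const _
  exact DifferentiableAt.comp (g := fun q : ℂ × ℂ => G K (s i b) r₁ q.1 q.2)
    (f := fun q : ℂ × ℂ => ((q.1, K 0 q.2 * p i b q.1 / p i b 0) : ℂ × ℂ)) (t₀, z₀) hG hin

end

end RSaux

open RSaux in
theorem rs_holds : StRS := by
  intro hKO0 hKO1 hKO2 hKO3 a n P M B R₃ lam₀ lam₁ r₁ r₂ r' τ ρ ψ Es Ee rf ap F0 γ ha hn hP hKL hGD
    hlam hr'0 hr'1 hτ hτs
  classical
  obtain ⟨hATo, hSPd, hLPd, hA0o⟩ := hKO1 hKO0 a n P ha hn hP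
  obtain ⟨hKPd, hKPe⟩ := hKO2 hKO0 hKO1 hKO3 a n P ha hn hP
  have h00 : (0 : ℂ) ∈ ball (0 : ℂ) ρ := mem_ball_self hGD.hρ
  have hfd : ∀ x : PE n, Differentiable ℂ (fx a n x) := fun x => (fam a n x).differentiable
  have hko := fun x : PE n => hKO0 (fx a n x) P (hfd x) hP
  set J : Fin n → Prop := fun i => i ∈ Es ∧ rf i = i with hJ
  set s : Fin n → ℕ → ℂ → ℂ := fun i b t =>
    (fx a n (γ t))^[b] (SP (fx a n (γ t)) P (γ t (some i))) with hs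
  set p : Fin n → ℕ → ℂ → ℂ := fun i b t =>
    KP (fx a n (γ t)) P ((fx a n (γ t))^[b] (γ t (some i))) with hp
  set d : Fin n → ℕ → ℂ → ℂ := fun i b t => deriv (fx a n (γ t)) (s i b t) with hd
  set K : ℂ → ℂ → ℂ := fun t z => KP (fx a n (γ t)) P z with hK
  set lam : Fin n → ℂ := fun i => LP (fx a n (γ 0)) P (γ 0 (some i)) with hlamdef
  -- iterates of the critical points
  have hit : ∀ t ∈ ball (0 : ℂ) ρ, ∀ i ∈ Es, ∀ b : ℕ,
      (γ t, (fx a n (γ t))^[b] (γ t (some i))) ∈ A0 a n P ∧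
      SP (fx a n (γ t)) P ((fx a n (γ t))^[b] (γ t (some i))) = s i b t ∧
      LP (fx a n (γ t)) P ((fx a n (γ t))^[b] (γ t (some i))) = lam i := by
    intro t ht i hi b
    induction b with
    | zero => exact ⟨hGD.A0s t ht i hi, rfl, hGD.lam t ht i hi⟩
    | succ b ih =>
      obtain ⟨h1, h2, h3⟩ := ih
      obtain ⟨h4, h5⟩ := (hko (γ t)).2.2.2.1 _ h1.1
      rw [Function.iterate_succ_apply']
      refine ⟨(hKPe _ _ h1).2.1, ?_, ?_⟩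
      · rw [h4, h2]
        simp only [hs]
        rw [Function.iterate_succ_apply']
      · rw [h5, h3]
  have hfix : ∀ t ∈ ball (0 : ℂ) ρ, ∀ i ∈ Es, ∀ b : ℕ,
      (fx a n (γ t))^[P] (s i b t) = s i b t ∧ deriv ((fx a n (γ t))^[P]) (s i b t) = lam i := by
    intro t ht i hi b
    obtain ⟨h1, h2, h3⟩ := hit t ht i hi b
    have h4 := (hko (γ t)).2.1 _ h1.1
    rw [h2] at h4
    refine ⟨h4.1, ?_⟩
    rw [← h3]
    unfold LP
    rw [h2]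
  have hlam0 : ∀ i ∈ Es, lam₀ ≤ ‖lam i‖ ∧ ‖lam i‖ ≤ lam₁ := hlam
  have hkl : ∀ t ∈ ball (0 : ℂ) ρ, ∀ i ∈ Es, ∀ b : ℕ, lam₀ ≤ ‖deriv ((fx a n (γ t))^[P]) (s i b t)‖ ∧
      ‖deriv ((fx a n (γ t))^[P]) (s i b t)‖ ≤ lam₁ := by
    intro t ht i hi b
    rw [(hfix t ht i hi b).2]
    exact hlam0 i hi
  have hSk : ∀ t ∈ ball (0 : ℂ) ρ, ∀ i ∈ Es, ∀ b : ℕ, ∀ z ∈ ball (s i b t) r₁,
      Sk (fx a n (γ t)) P z (s i b t) := fun t ht i hi b z hz =>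
    (hKL.att (γ t) (hGD.γB t ht) _ (hfix t ht i hi b).1 (hkl t ht i hi b).1 (hkl t ht i hi b).2
      z hz).1
  have hA0 : ∀ t ∈ ball (0 : ℂ) ρ, ∀ i ∈ Es, ∀ b : ℕ, ∀ z ∈ ball (s i b t) r₁,
      (γ t, z) ∈ A0 a n P ∧ SP (fx a n (γ t)) P z = s i b t := by
    intro t ht i hi b z hz
    have h1 := hSk t ht i hi b z hz
    have h2 := (hko (γ t)).1 z _ h1
    refine ⟨⟨⟨_, h1⟩, ?_⟩, h2⟩
    show LP (fx a n (γ t)) P z ≠ 0
    unfold LP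
    rw [h2, (hfix t ht i hi b).2]
    intro h3
    have h4 := (hlam0 i hi).1
    rw [h3, norm_zero] at h4
    linarith [hKL.l0]
  have hγi : ∀ i : Fin n, DifferentiableOn ℂ (fun t => γ t (some i)) (ball 0 ρ) := fun i =>
    differentiableOn_pi.1 hGD.γd (some i)
  have hSd : ∀ i ∈ Es, DifferentiableOn ℂ (fun t => SP (fx a n (γ t)) P (γ t (some i)))
      (ball 0 ρ) := by
    intro i hi
    exact hSPd.comp (f := fun t => ((γ t, γ t (some i)) : PE n × ℂ))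
      (hGD.γd.prodMk (hγi i)) fun t ht => (hGD.A0s t ht i hi).1
  have hitd : ∀ (b : ℕ) (g : ℂ → ℂ), DifferentiableOn ℂ g (ball 0 ρ) →
      DifferentiableOn ℂ (fun t => (fx a n (γ t))^[b] (g t)) (ball 0 ρ) := by
    intro b g hg
    exact ((contDiff_fx a n b).differentiable (by norm_num)).comp_differentiableOn
      (f := fun t => ((γ t, g t) : PE n × ℂ)) (hGD.γd.prodMk hg)
  have D : Dat n P J (fun t => fx a n (γ t)) K s p d lam r₁ r₂ ρ := by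
    refine
    { P0 := hP
      hρ := hGD.hρ
      r1 := hKL.r1
      fc := fun t _ => (hfd (γ t)).continuous
      att := fun t ht i hi b z hz => (hSk t ht i hi.1 b z hz).2.2
      K0 := fun t ht i hi b => hKL.zero (γ t) (hGD.γB t ht) _ (hfix t ht i hi.1 b).1
        (hkl t ht i hi.1 b).1 (hkl t ht i hi.1 b).2
      close := fun t ht i hi b => hKL.close (γ t) (hGD.γB t ht) _ (hfix t ht i hi.1 b).1
        (hkl t ht i hi.1 b).1 (hkl t ht i hi.1 b).2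
      onto := fun t ht i hi b => hKL.onto (γ t) (hGD.γB t ht) _ (hfix t ht i hi.1 b).1
        (hkl t ht i hi.1 b).1 (hkl t ht i hi.1 b).2
      fs := fun t ht i hi b => by
        simp only [hs]
        rw [Function.iterate_succ_apply']
      sP := fun t ht i hi b => by
        have h1 := (hfix t ht i hi.1 0).1
        simp only [hs] at h1 ⊢
        rw [Function.iterate_add_apply]
        exact congrArg _ h1
      ds := fun t ht i hi b b' h => by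
        simp only [hd]
        rw [h]
      fK := fun t ht i hi b z hz => by
        obtain ⟨h1, h2⟩ := hA0 t ht i hi.1 b z hz
        have h3 := (hKPe _ _ h1).2.2.2.1
        rw [h2] at h3
        exact h3
      ps := fun t ht i hi b => by
        obtain ⟨h1, h2, h3⟩ := hit t ht i hi.1 b
        have h4 := (hKPe _ _ h1).2.2.2.1
        rw [h2] at h4
        simp only [hp]
        rw [Function.iterate_succ_apply']
        exact h4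
      pP := fun t ht i hi b => by
        obtain ⟨h1, h2, h3⟩ := hit t ht i hi.1 b
        have h4 := (hKPe _ _ h1).2.2.2.2
        rw [h3] at h4
        simp only [hp]
        rw [add_comm b P, Function.iterate_add_apply]
        exact h4
      l1 := fun i hi => (hlam0 i hi.1).2.trans hKL.l1.le
      pne := ?_
      dis := ?_
      sd := fun i hi b => hitd b _ (hSd i hi.1)
      pd := fun i hi b => by
        exact hKPd.comp (f := fun t => ((γ t, (fx a n (γ t))^[b] (γ t (some i))) : PE n × ℂ))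
          (hGD.γd.prodMk (hitd b _ (hγi i))) fun t ht => (hit t ht i hi.1 b).1
      Kd := ?_ }
    · intro t ht i hi b
      induction b with
      | zero => exact hGD.kne t ht i hi.1
      | succ b ih =>
        obtain ⟨h1, h2, h3⟩ := hit t ht i hi.1 b
        have h4 := (hKPe _ _ h1).2.2.2.1
        have h5 := (hKPe _ _ h1).2.2.1
        simp only [hp] at ih ⊢
        rw [Function.iterate_succ_apply', h4]
        exact mul_ne_zero h5 ih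
    · intro t ht i hi i' hi' b b' h
      by_contra hne
      have h1 := hGD.dis t ht i hi.1 i' hi'.1 hi.2 hi'.2 hne ((P - 1) * b' + b)
      apply h1
      have h2 : ((fx a n (γ t))^[P])^[b'] (SP (fx a n (γ t)) P (γ t (some i'))) =
          SP (fx a n (γ t)) P (γ t (some i')) :=
        Function.iterate_fixed (hfix t ht i' hi'.1 0).1 b'
      rw [← Function.iterate_mul] at h2
      have h3 : P * b' = (P - 1) * b' + b' := by
        obtain ⟨k, rfl⟩ := Nat.exists_eq_add_of_le hP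
        simp only [Nat.add_sub_cancel_left]
        ring
      rw [h3, Function.iterate_add_apply] at h2
      rw [Function.iterate_add_apply, ← h2]
      exact congrArg _ h.symm
    · intro t ht i hi b z hz
      have h1 : DifferentiableAt ℂ (fun y : PE n × ℂ => KP (fx a n y.1) P y.2) (γ t, z) :=
        hKPd.differentiableAt (hA0o.mem_nhds (hA0 t ht i hi.1 b z hz).1)
      have h2 : DifferentiableAt ℂ (fun q : ℂ × ℂ => ((γ q.1, q.2) : PE n × ℂ)) (t, z) := by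
        have h3 : DifferentiableAt ℂ γ t := hGD.γd.differentiableAt (isOpen_ball.mem_nhds ht)
        have h4 : DifferentiableAt ℂ (fun q : ℂ × ℂ => γ q.1) (t, z) :=
          DifferentiableAt.comp (g := γ) (f := fun q : ℂ × ℂ => q.1) (t, z) h3
            differentiableAt_fst
        exact h4.prodMk differentiableAt_snd
      exact DifferentiableAt.comp (g := fun y : PE n × ℂ => KP (fx a n y.1) P y.2)
        (f := fun q : ℂ × ℂ => ((γ q.1, q.2) : PE n × ℂ)) (t, z) h1 h2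
  -- smallness
  have hev : ∀ᶠ t in 𝓝 (0 : ℂ), ∀ i ∈ Es.filter J, ∀ b ∈ Finset.range (P + 1),
      ‖s i b t - s i b 0‖ < r₁ / 4 ∧ τ * ‖p i b t‖ < min r₂ (r' / 4) := by
    rw [Finset.eventually_all]
    intro i hi
    rw [Finset.eventually_all]
    intro b hb
    have hiJ : J i := (Finset.mem_filter.1 hi).2
    have c1 : ContinuousAt (s i b) 0 :=
      ((D.sd i hiJ b).differentiableAt (isOpen_ball.mem_nhds h00)).continuousAt
    have c2 : ContinuousAt (p i b) 0 :=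
      ((D.pd i hiJ b).differentiableAt (isOpen_ball.mem_nhds h00)).continuousAt
    have e1 : ∀ᶠ t in 𝓝 (0 : ℂ), ‖s i b t - s i b 0‖ < r₁ / 4 := by
      have c3 : ContinuousAt (fun t => ‖s i b t - s i b 0‖) 0 := (c1.sub continuousAt_const).norm
      refine c3.eventually (gt_mem_nhds ?_)
      show ‖s i b 0 - s i b 0‖ < r₁ / 4
      rw [sub_self, norm_zero]
      linarith [hKL.r1]
    have e2 : ∀ᶠ t in 𝓝 (0 : ℂ), τ * ‖p i b t‖ < min r₂ (r' / 4) := by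
      have c3 : ContinuousAt (fun t => τ * ‖p i b t‖) 0 := continuousAt_const.mul c2.norm
      exact c3.eventually (gt_mem_nhds (hτs i hiJ.1 b (Nat.lt_succ_iff.1 (Finset.mem_range.1 hb))))
    exact e1.and e2
  obtain ⟨ε, hε, hball⟩ := Metric.eventually_nhds_iff_ball.1 hev
  set ρ' := min ρ ε with hρ'
  have hρ'0 : 0 < ρ' := lt_min hGD.hρ hε
  have hρ'ρ : ball (0 : ℂ) ρ' ⊆ ball 0 ρ := ball_subset_ball (min_le_left _ _)
  have D' : Dat n P J (fun t => fx a n (γ t)) K s p d lam r₁ r₂ ρ' :=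
    { P0 := hP
      hρ := hρ'0
      r1 := hKL.r1
      fc := fun t ht => D.fc t (hρ'ρ ht)
      att := fun t ht => D.att t (hρ'ρ ht)
      K0 := fun t ht => D.K0 t (hρ'ρ ht)
      close := fun t ht => D.close t (hρ'ρ ht)
      onto := fun t ht => D.onto t (hρ'ρ ht)
      fs := fun t ht => D.fs t (hρ'ρ ht)
      sP := fun t ht => D.sP t (hρ'ρ ht)
      ds := fun t ht => D.ds t (hρ'ρ ht)
      fK := fun t ht => D.fK t (hρ'ρ ht)
      ps := fun t ht => D.ps t (hρ'ρ ht)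
      pP := fun t ht => D.pP t (hρ'ρ ht)
      l1 := D.l1
      pne := fun t ht => D.pne t (hρ'ρ ht)
      dis := fun t ht => D.dis t (hρ'ρ ht)
      sd := fun i hi b => (D.sd i hi b).mono hρ'ρ
      pd := fun i hi b => (D.pd i hi b).mono hρ'ρ
      Kd := fun t ht => D.Kd t (hρ'ρ ht) }
  have S : Sm P J s p r₁ r₂ r' τ ρ' :=
    { r0 := hr'0
      rr := hr'1
      ss := fun t ht i hi b hb => (hball t (ball_subset_ball (min_le_right _ _) ht) i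
        (Finset.mem_filter.2 ⟨hi.1, hi⟩) b (Finset.mem_range.2 (Nat.lt_succ_iff.2 hb))).1
      sp := fun t ht i hi b hb => (hball t (ball_subset_ball (min_le_right _ _) ht) i
        (Finset.mem_filter.2 ⟨hi.1, hi⟩) b (Finset.mem_range.2 (Nat.lt_succ_iff.2 hb))).2 }
  have hUS : ∀ t : ℂ, US a n P Es rf r' τ (γ t) = UU P J K s p r' τ t := by
    intro t
    ext z
    constructor
    · rintro ⟨i, hi, hri, b, hb, h1, h2⟩
      exact ⟨(i, b), ⟨hi, hri⟩, hb, h1, h2⟩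
    · rintro ⟨⟨i, b⟩, ⟨hi, hri⟩, hb, h1, h2⟩
      exact ⟨i, hi, hri, b, hb, h1, h2⟩
  refine ⟨ρ', Hf P J K s p r₁ r' τ, hρ'0, min_le_left _ _, ?_, ?_⟩
  · refine
    { Uo := ?_
      Hd := ?_
      H0 := ?_
      Hi := ?_
      inv := ?_
      conj := ?_
      img := ?_ }
    · rw [hUS]; exact UU_open D' S
    · rw [hUS]; exact H_diff D' S
    · intro z hz
      rw [hUS] at hz
      exact H_zero D' S hz
    · intro t ht
      rw [hUS]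
      exact H_inj D' S ht
    · intro z hz
      rw [hUS] at hz ⊢
      exact F_inv D' S hτ (mem_ball_self hρ'0) hz
    · intro t ht z hz
      rw [hUS] at hz
      exact H_conj D' S hτ ht hz
    · intro t ht z hz
      rw [hUS] at hz ⊢
      obtain ⟨q, hq⟩ := hz
      exact ⟨q, Hmem D' S ht hq⟩
  · intro t ht i hi hri b hb z hz hzs
    rw [hUS] at hz
    exact Hspec D' S ht hz ⟨hi, hri⟩ hb hzs


end Pool.Agent.H713R5.QJ
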