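import Mathlib
import Pool.Agent.H713R5.QJ.Defs

set_option autoImplicit false

open Topology Filter Metric Set Polynomial MeasureTheory

namespace Pool.Agent.H713R5.QJ

/-- Taylor polynomials of bounded functions, with a uniform degree. -/
theorem sgl_taylor {C r r₁ r₂ : ℝ} (hC : 0 ≤ C) (hr2 : 0 < r₂) (h21 : r₂ < r₁) (h1r : r₁ < r) :
    ∃ M : ℕ, ∀ φ : ℂ → ℂ, DifferentiableOn ℂ φ (ball 0 r) → (∀ w ∈ ball (0 : ℂ) r, ‖φ w‖ ≤ C) →
      φ 0 = 0 → ∃ c : ℕ → ℂ, c 1 = deriv φ 0 ∧ (∀ n, ‖c n‖ ≤ C / r₁ ^ n) ∧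
        ∀ w ∈ closedBall (0 : ℂ) r₂,
          ‖φ w - (c 1 * w + w * ∑ m ∈ Finset.range M, c (m + 2) * w ^ (m + 1))‖ ≤ ‖w‖ / 4 := by
  have hr1 : 0 < r₁ := hr2.trans h21
  set q : ℝ := r₂ / r₁ with hq
  have hq0 : 0 < q := by positivity
  have hq1 : q < 1 := by rw [hq, div_lt_one hr1]; exact h21
  obtain ⟨M, hM⟩ : ∃ M : ℕ, C / r₁ * q ^ (M + 1) * (1 - q)⁻¹ ≤ 1 / 4 := by
    have h1 : Tendsto (fun M : ℕ => C / r₁ * q ^ (M + 1) * (1 - q)⁻¹) atTop
        (𝓝 (C / r₁ * 0 * (1 - q)⁻¹)) :=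
      ((((tendsto_pow_atTop_nhds_zero_of_lt_one hq0.le hq1).comp (tendsto_add_atTop_nat 1)).const_mul
        (C / r₁)).mul_const _)
    rw [mul_zero, zero_mul] at h1
    exact (h1.eventually_le_const (by norm_num : (0:ℝ) < 1 / 4)).exists
  refine ⟨M, fun φ hφ hb h0 => ?_⟩
  have hsub : closedBall (0 : ℂ) r₁ ⊆ ball 0 r := closedBall_subset_ball h1r
  have hcont : DiffContOnCl ℂ φ (ball 0 r₁) := by
    refine ⟨hφ.mono (ball_subset_closedBall.trans hsub), ?_⟩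
    rw [closure_ball _ hr1.ne']
    exact hφ.continuousOn.mono hsub
  set c : ℕ → ℂ := fun n => (n.factorial : ℂ)⁻¹ * iteratedDeriv n φ 0 with hc
  have hcb : ∀ n, ‖c n‖ ≤ C / r₁ ^ n := by
    intro n
    have h1 := Complex.norm_iteratedDeriv_le_of_forall_mem_sphere_norm_le n hr1 hcont
      (fun z hz => hb z (hsub (sphere_subset_closedBall hz)))
    have hf : (0:ℝ) < n.factorial := by exact_mod_cast n.factorial_pos
    simp only [hc, norm_mul, norm_inv, Complex.norm_natCast]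
    rw [inv_mul_le_iff₀ hf, ← mul_div_assoc]
    exact h1
  refine ⟨c, by simp [hc], hcb, fun w hw => ?_⟩
  rw [mem_closedBall_zero_iff] at hw
  have hwr : w ∈ ball (0 : ℂ) r := by
    rw [mem_ball_zero_iff]; linarith
  have hsum : HasSum (fun n : ℕ => c n * w ^ n) (φ w) := by
    have h1 := Complex.hasSum_taylorSeries_on_ball hφ hwr
    have h2 : (fun n : ℕ => c n * w ^ n) =
        fun n : ℕ => (n.factorial : ℂ)⁻¹ • (w - 0) ^ n • iteratedDeriv n φ 0 := by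
      funext n
      simp only [hc, smul_eq_mul, sub_zero]
      ring
    rw [h2]
    exact h1
  have htail := (hasSum_nat_add_iff' (M + 2)).mpr hsum
  have hfin : ∑ i ∈ Finset.range (M + 2), c i * w ^ i =
      c 1 * w + w * ∑ m ∈ Finset.range M, c (m + 2) * w ^ (m + 1) := by
    have hc0 : c 0 = 0 := by simp [hc, h0]
    rw [Finset.sum_range_succ', Finset.sum_range_succ', Finset.mul_sum]
    simp only [hc0, zero_mul, zero_add, pow_one, add_zero]
    rw [add_comm]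
    congr 1
    refine Finset.sum_congr rfl fun m _ => ?_
    ring
  rw [hfin] at htail
  have hgeo : HasSum (fun n : ℕ => (C / r₁ * ‖w‖ * q ^ (M + 1)) * q ^ n)
      ((C / r₁ * ‖w‖ * q ^ (M + 1)) * (1 - q)⁻¹) :=
    (hasSum_geometric_of_lt_one hq0.le hq1).mul_left _
  have hwq : ‖w‖ / r₁ ≤ q := by rw [hq]; gcongr
  refine (htail.norm_le_of_bounded hgeo ?_).trans ?_
  · intro n
    rw [norm_mul, norm_pow]
    calc ‖c (n + (M + 2))‖ * ‖w‖ ^ (n + (M + 2))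
        ≤ C / r₁ ^ (n + (M + 2)) * ‖w‖ ^ (n + (M + 2)) := by
          gcongr; exact hcb _
      _ = C / r₁ * ‖w‖ * (‖w‖ / r₁) ^ (n + (M + 1)) := by
          have : n + (M + 2) = (n + (M + 1)) + 1 := by ring
          rw [this, pow_succ, pow_succ, div_pow]
          field_simp
      _ ≤ C / r₁ * ‖w‖ * q ^ (n + (M + 1)) := by
          gcongr
      _ = _ := by rw [pow_add q n]; ring
  · calc C / r₁ * ‖w‖ * q ^ (M + 1) * (1 - q)⁻¹
        = ‖w‖ * (C / r₁ * q ^ (M + 1) * (1 - q)⁻¹) := by ring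
      _ ≤ ‖w‖ * (1 / 4) := by gcongr
      _ = _ := by ring

theorem sgl_norm_one_add_le (z : ℂ) : ‖1 + z‖ ≤ Real.exp (z.re + ‖z‖ ^ 2 / 2) := by
  have h1 : ‖1 + z‖ ^ 2 = 1 + (2 * z.re + ‖z‖ ^ 2) := by
    rw [← Complex.normSq_eq_norm_sq, ← Complex.normSq_eq_norm_sq, Complex.normSq_apply,
      Complex.normSq_apply]
    simp
    ring
  have h2 : ‖1 + z‖ ^ 2 ≤ Real.exp (z.re + ‖z‖ ^ 2 / 2) ^ 2 := by
    rw [h1, ← Real.exp_nat_mul]
    have := Real.add_one_le_exp (2 * z.re + ‖z‖ ^ 2)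
    calc 1 + (2 * z.re + ‖z‖ ^ 2) ≤ Real.exp (2 * z.re + ‖z‖ ^ 2) := by linarith
      _ = _ := by congr 1; push_cast; ring
  exact le_of_sq_le_sq h2 (Real.exp_pos _).le

/-- The estimate for one step. -/
theorem sgl_step {ρ : ℂ} (hρ : ‖ρ‖ = 1) (hρm : ∀ m : ℕ, 0 < m → ρ ^ m ≠ 1) {M : ℕ}
    {r₁ r₂ C s : ℝ} (hC : 0 ≤ C) (hr1 : 0 < r₁) (hs : 0 < s) {c : ℕ → ℂ}
    (hc : ∀ n, ‖c n‖ ≤ C / r₁ ^ n) {BP Bu Li : ℝ}
    (hBP : BP = ∑ _m ∈ Finset.range M, C / r₁)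
    (hBu : Bu = ∑ m ∈ Finset.range M, C / r₁ / ‖ρ ^ (m + 1) - 1‖)
    (hLi : Li = ∑ m ∈ Finset.range M, C / r₁ ^ 2 * (m + 1) / ‖ρ ^ (m + 1) - 1‖)
    (hsmall : s * ((BP + 2) ^ 2 / 2 + Li * C) ≤ 1 / 2) {w w' : ℂ} (hw : ‖w‖ ≤ r₂) (h21 : r₂ < r₁)
    (hw' : ‖w'‖ ≤ r₁) (hclose : ‖w' - ρ * w‖ ≤ C * s)
    (hstep : ‖w' - ρ * (w * (1 - s) + s * (w * ∑ m ∈ Finset.range M, c (m + 2) * w ^ (m + 1)))‖ ≤
      s * (‖w‖ / 4)) :
    ‖w'‖ * Real.exp (-s * (∑ m ∈ Finset.range M, c (m + 2) * w' ^ (m + 1) /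
      (ρ ^ (m + 1) - 1)).re) ≤
    ‖w‖ * Real.exp (-s * (∑ m ∈ Finset.range M, c (m + 2) * w ^ (m + 1) /
      (ρ ^ (m + 1) - 1)).re) * Real.exp (-s / 4) ∧
    |(∑ m ∈ Finset.range M, c (m + 2) * w' ^ (m + 1) / (ρ ^ (m + 1) - 1)).re| ≤ Bu := by
  have hρne : ρ ≠ 0 := by intro h; rw [h] at hρ; simp at hρ
  have hden : ∀ m : ℕ, ρ ^ (m + 1) - 1 ≠ 0 := fun m => sub_ne_zero.mpr (hρm _ (Nat.succ_pos m))
  have hdenp : ∀ m : ℕ, 0 < ‖ρ ^ (m + 1) - 1‖ := fun m => norm_pos_iff.mpr (hden m)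
  set u : ℂ → ℂ := fun z => ∑ m ∈ Finset.range M, c (m + 2) * z ^ (m + 1) / (ρ ^ (m + 1) - 1)
    with hu
  set P : ℂ → ℂ := fun z => ∑ m ∈ Finset.range M, c (m + 2) * z ^ (m + 1) with hP
  have hwr : ‖w‖ ≤ r₁ := hw.trans h21.le
  have hcoef : ∀ (m : ℕ) (z : ℂ), ‖z‖ ≤ r₁ → ‖c (m + 2) * z ^ (m + 1)‖ ≤ C / r₁ := by
    intro m z hz
    rw [norm_mul, norm_pow]
    calc ‖c (m + 2)‖ * ‖z‖ ^ (m + 1) ≤ C / r₁ ^ (m + 2) * r₁ ^ (m + 1) := by
          gcongr; exact hc _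
      _ = C / r₁ := by
          rw [pow_succ r₁ (m + 1)]; field_simp
  have hPb : ∀ z : ℂ, ‖z‖ ≤ r₁ → ‖P z‖ ≤ BP := by
    intro z hz
    rw [hBP]
    exact norm_sum_le_of_le _ (fun m _ => hcoef m z hz)
  have hub : ∀ z : ℂ, ‖z‖ ≤ r₁ → ‖u z‖ ≤ Bu := by
    intro z hz
    rw [hBu]
    refine norm_sum_le_of_le _ (fun m _ => ?_)
    rw [norm_div]
    have := hcoef m z hz
    gcongr
  have hLip : ∀ x y : ℂ, ‖x‖ ≤ r₁ → ‖y‖ ≤ r₁ → ‖u x - u y‖ ≤ Li * ‖x - y‖ := by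
    intro x y hx hy
    simp only [hu]
    rw [← Finset.sum_sub_distrib, hLi, Finset.sum_mul]
    refine norm_sum_le_of_le _ (fun m _ => ?_)
    rw [← sub_div, ← mul_sub, norm_div, norm_mul, div_mul_eq_mul_div]
    have hpow : ‖x ^ (m + 1) - y ^ (m + 1)‖ ≤ (m + 1) * r₁ ^ m * ‖x - y‖ := by
      rw [← Commute.geom_sum₂_mul (Commute.all x y), norm_mul]
      refine mul_le_mul_of_nonneg_right ?_ (norm_nonneg _)
      calc ‖∑ i ∈ Finset.range (m + 1), x ^ i * y ^ (m + 1 - 1 - i)‖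
          ≤ ∑ _i ∈ Finset.range (m + 1), r₁ ^ m := by
            refine norm_sum_le_of_le _ (fun i hi => ?_)
            rw [norm_mul, norm_pow, norm_pow]
            rw [Finset.mem_range] at hi
            calc ‖x‖ ^ i * ‖y‖ ^ (m + 1 - 1 - i) ≤ r₁ ^ i * r₁ ^ (m + 1 - 1 - i) := by gcongr
              _ = r₁ ^ m := by rw [← pow_add]; congr 1; omega
        _ = (m + 1) * r₁ ^ m := by simp
    have h1 : ‖c (m + 2)‖ * ‖x ^ (m + 1) - y ^ (m + 1)‖ ≤ C / r₁ ^ 2 * (m + 1) * ‖x - y‖ := by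
      calc ‖c (m + 2)‖ * ‖x ^ (m + 1) - y ^ (m + 1)‖
          ≤ C / r₁ ^ (m + 2) * ((m + 1) * r₁ ^ m * ‖x - y‖) := by
            gcongr; exact hc _
        _ = _ := by
            rw [pow_add r₁ m 2]; field_simp
    gcongr
  have hcoh : u (ρ * w) - u w = P w := by
    simp only [hu, hP]
    rw [← Finset.sum_sub_distrib]
    refine Finset.sum_congr rfl fun m _ => ?_
    have := hden m
    rw [mul_pow]
    field_simp
  refine ⟨?_, (Complex.abs_re_le_norm _).trans (hub w' hw')⟩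
  by_cases hw0 : w = 0
  · have : w' = 0 := by
      rw [hw0] at hstep
      simpa using hstep
    rw [this, hw0]
    simp
  have hwpos : 0 < ‖w‖ := norm_pos_iff.mpr hw0
  set z : ℂ := w' / (ρ * w) - 1 with hz
  have hw'z : w' = ρ * w * (1 + z) := by
    rw [hz]; field_simp; ring
  have hzb : ‖z - s * (P w - 1)‖ ≤ s / 4 := by
    have h1 : w' - ρ * (w * (1 - s) + s * (w * P w)) = ρ * w * (z - s * (P w - 1)) := by
      rw [hw'z]; ring
    have h2 : ‖ρ * w * (z - s * (P w - 1))‖ ≤ s * (‖w‖ / 4) := by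
      rw [← h1]; exact hstep
    rw [norm_mul, norm_mul, hρ, one_mul] at h2
    have h3 : ‖w‖ * ‖z - s * (P w - 1)‖ ≤ ‖w‖ * (s / 4) := by linarith
    exact le_of_mul_le_mul_left h3 hwpos
  have hzre : z.re ≤ s * ((P w).re - 1) + s / 4 := by
    have h1 := (Complex.re_le_norm (z - s * (P w - 1))).trans hzb
    simp at h1
    linarith
  have hznorm : ‖z‖ ≤ s * (BP + 2) := by
    have h1 : ‖(s : ℂ) * (P w - 1)‖ ≤ s * (BP + 1) := by
      rw [norm_mul, Complex.norm_real, Real.norm_of_nonneg hs.le]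
      gcongr
      calc ‖P w - 1‖ ≤ ‖P w‖ + ‖(1:ℂ)‖ := norm_sub_le _ _
        _ ≤ BP + 1 := by
            rw [norm_one]; linarith [hPb w hwr]
    calc ‖z‖ = ‖(z - s * (P w - 1)) + s * (P w - 1)‖ := by congr 1; ring
      _ ≤ s / 4 + s * (BP + 1) := (norm_add_le _ _).trans (add_le_add hzb h1)
      _ ≤ _ := by nlinarith
  have hBP0 : 0 ≤ BP := (norm_nonneg _).trans (hPb w hwr)
  have hLi0 : 0 ≤ Li := by
    rw [hLi]
    exact Finset.sum_nonneg fun m _ => by positivity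
  have hureal : (u w).re + (P w).re - Li * (C * s) ≤ (u w').re := by
    have hρw : ‖ρ * w‖ ≤ r₁ := by rw [norm_mul, hρ, one_mul]; exact hwr
    have h1 := hLip (ρ * w) w' hρw hw'
    have h2 : ‖ρ * w - w'‖ ≤ C * s := by rw [norm_sub_rev]; exact hclose
    have h3 := (Complex.re_le_norm (u (ρ * w) - u w')).trans
      (h1.trans (mul_le_mul_of_nonneg_left h2 hLi0))
    have h4 : (u (ρ * w)).re = (u w).re + (P w).re := by
      rw [← hcoh]; simp
    rw [Complex.sub_re, h4] at h3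
    linarith
  have hnorm : ‖w'‖ ≤ ‖w‖ * Real.exp (z.re + ‖z‖ ^ 2 / 2) := by
    rw [hw'z, norm_mul, norm_mul, hρ, one_mul]
    exact mul_le_mul_of_nonneg_left (sgl_norm_one_add_le z) (norm_nonneg _)
  calc ‖w'‖ * Real.exp (-s * (u w').re)
      ≤ (‖w‖ * Real.exp (z.re + ‖z‖ ^ 2 / 2)) * Real.exp (-s * (u w').re) :=
        mul_le_mul_of_nonneg_right hnorm (Real.exp_pos _).le
    _ = ‖w‖ * Real.exp (z.re + ‖z‖ ^ 2 / 2 + -s * (u w').re) := by
        rw [mul_assoc, ← Real.exp_add]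
    _ ≤ ‖w‖ * Real.exp (-s * (u w).re + -s / 4) := by
        refine mul_le_mul_of_nonneg_left (Real.exp_le_exp.mpr ?_) (norm_nonneg _)
        have h1 : ‖z‖ ^ 2 ≤ (s * (BP + 2)) ^ 2 := pow_le_pow_left₀ (norm_nonneg _) hznorm 2
        have h2 : -s * (u w').re ≤ -s * ((u w).re + (P w).re - Li * (C * s)) := by
          nlinarith
        have h3 : s * (s * ((BP + 2) ^ 2 / 2 + Li * C)) ≤ s * (1 / 2) :=
          mul_le_mul_of_nonneg_left hsmall hs.le
        nlinarith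
    _ = _ := by rw [mul_assoc, ← Real.exp_add]

theorem sgl_holds : StSGL := by
  intro ρ r r' C hρ hρm hr' hr'r hC
  set r₂ : ℝ := (2 * r' + r) / 3 with hr2d
  set r₁ : ℝ := (r' + 2 * r) / 3 with hr1d
  have hr'2 : r' < r₂ := by rw [hr2d]; linarith
  have h21 : r₂ < r₁ := by rw [hr2d, hr1d]; linarith
  have h1r : r₁ < r := by rw [hr1d]; linarith
  have hr2 : 0 < r₂ := hr'.trans hr'2
  have hr1 : 0 < r₁ := hr2.trans h21
  have hρne : ρ ≠ 0 := by intro h; rw [h] at hρ; simp at hρ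
  obtain ⟨M, hM⟩ := sgl_taylor hC hr2 h21 h1r
  set BP : ℝ := ∑ _m ∈ Finset.range M, C / r₁ with hBP
  set Bu : ℝ := ∑ m ∈ Finset.range M, C / r₁ / ‖ρ ^ (m + 1) - 1‖ with hBu
  set Li : ℝ := ∑ m ∈ Finset.range M, C / r₁ ^ 2 * (m + 1) / ‖ρ ^ (m + 1) - 1‖ with hLi
  -- the smallness conditions
  obtain ⟨s₀, hs0, hs0'⟩ : ∃ s₀ : ℝ, 0 < s₀ ∧ ∀ s : ℝ, 0 < s → s < s₀ →
      C * s < r₁ - r₂ ∧ s * ((BP + 2) ^ 2 / 2 + Li * C) < 1 / 2 ∧
      Real.exp (2 * (s * Bu)) * r' < r₂ := by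
    have e1 : ∀ᶠ s : ℝ in 𝓝 0, C * s < r₁ - r₂ := by
      have : Continuous fun s : ℝ => C * s := by fun_prop
      refine this.continuousAt.eventually_lt_const ?_
      simp; exact h21
    have e2 : ∀ᶠ s : ℝ in 𝓝 0, s * ((BP + 2) ^ 2 / 2 + Li * C) < 1 / 2 := by
      have : Continuous fun s : ℝ => s * ((BP + 2) ^ 2 / 2 + Li * C) := by fun_prop
      refine this.continuousAt.eventually_lt_const ?_
      simp
    have e3 : ∀ᶠ s : ℝ in 𝓝 0, Real.exp (2 * (s * Bu)) * r' < r₂ := by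
      have : Continuous fun s : ℝ => Real.exp (2 * (s * Bu)) * r' := by fun_prop
      refine this.continuousAt.eventually_lt_const ?_
      simp; exact hr'2
    obtain ⟨ε, hε, h⟩ := Metric.eventually_nhds_iff.mp (e1.and (e2.and e3))
    refine ⟨ε, hε, fun s hs hs' => h ?_⟩
    rw [Real.dist_eq, sub_zero, abs_of_pos hs]
    exact hs'
  refine ⟨s₀, hs0, fun s hs hss g hg hgb hg0 hgd w hw => ?_⟩
  obtain ⟨hs1, hs2, hs3⟩ := hs0' s hs hss
  rw [mem_closedBall_zero_iff] at hw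
  have hr0 : (0:ℝ) < r := hr1.trans h1r
  have hsC : (s : ℂ) ≠ 0 := by exact_mod_cast hs.ne'
  -- the function φ
  set φ : ℂ → ℂ := fun z => (g z - ρ * z) / (s * ρ) with hφ
  obtain ⟨c, hc1, hcb, hct⟩ := hM φ
    ((hg.sub (by fun_prop)).div_const _)
    (by
      intro z hz
      rw [hφ]
      simp only [norm_div, norm_mul, hρ, mul_one, Complex.norm_real, Real.norm_of_nonneg hs.le]
      rw [div_le_iff₀ hs]
      exact hgb z hz)
    (by simp [hφ, hg0])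
  have hder : deriv φ 0 = -1 := by
    have hgda : DifferentiableAt ℂ g 0 :=
      hg.differentiableAt (isOpen_ball.mem_nhds (by simpa using hr0))
    have h1 : HasDerivAt g (ρ * ((1 - s : ℝ) : ℂ)) 0 := by
      rw [← hgd]; exact hgda.hasDerivAt
    have h2 : HasDerivAt φ ((ρ * ((1 - s : ℝ) : ℂ) - ρ * 1) / (s * ρ)) 0 :=
      (h1.sub ((hasDerivAt_id (0:ℂ)).const_mul ρ)).div_const _
    rw [h2.deriv]
    push_cast
    field_simp
    ring
  rw [hder] at hc1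
  set u : ℂ → ℂ := fun z => ∑ m ∈ Finset.range M, c (m + 2) * z ^ (m + 1) / (ρ ^ (m + 1) - 1)
    with hu
  -- one step
  have key : ∀ z : ℂ, ‖z‖ ≤ r₂ → ‖g z‖ ≤ r₁ ∧
      ‖g z‖ * Real.exp (-s * (u (g z)).re) ≤
        ‖z‖ * Real.exp (-s * (u z).re) * Real.exp (-s / 4) ∧ |(u (g z)).re| ≤ Bu := by
    intro z hz
    have hzr : z ∈ ball (0 : ℂ) r := by rw [mem_ball_zero_iff]; linarith
    have hcl : ‖g z - ρ * z‖ ≤ C * s := hgb z hzr
    have hgz : ‖g z‖ ≤ r₁ := by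
      calc ‖g z‖ = ‖(g z - ρ * z) + ρ * z‖ := by congr 1; ring
        _ ≤ C * s + r₂ := by
            refine (norm_add_le _ _).trans (add_le_add hcl ?_)
            rw [norm_mul, hρ, one_mul]; exact hz
        _ ≤ r₁ := by linarith
    refine ⟨hgz, ?_⟩
    refine sgl_step hρ hρm hC hr1 hs hcb hBP hBu hLi hs2.le hz h21 hgz hcl ?_
    have h1 := hct z (by rwa [mem_closedBall_zero_iff])
    rw [hc1] at h1
    have h2 : g z - ρ * (z * (1 - s) + s * (z * ∑ m ∈ Finset.range M, c (m + 2) * z ^ (m + 1))) =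
        (s * ρ) * (φ z - (-1 * z + z * ∑ m ∈ Finset.range M, c (m + 2) * z ^ (m + 1))) := by
      rw [hφ]
      field_simp
      ring
    rw [h2, norm_mul, norm_mul, hρ, mul_one, Complex.norm_real, Real.norm_of_nonneg hs.le]
    exact mul_le_mul_of_nonneg_left h1 hs.le
  have hub0 : |(u w).re| ≤ Bu := by
    refine (Complex.abs_re_le_norm _).trans ?_
    rw [hBu]
    refine norm_sum_le_of_le _ (fun m _ => ?_)
    rw [norm_div, norm_mul, norm_pow]
    have hd : 0 < ‖ρ ^ (m + 1) - 1‖ :=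
      norm_pos_iff.mpr (sub_ne_zero.mpr (hρm _ (Nat.succ_pos m)))
    have h1 : ‖c (m + 2)‖ * ‖w‖ ^ (m + 1) ≤ C / r₁ := by
      calc ‖c (m + 2)‖ * ‖w‖ ^ (m + 1) ≤ C / r₁ ^ (m + 2) * r₁ ^ (m + 1) := by
            gcongr
            · exact hcb _
            · linarith
        _ = C / r₁ := by
            rw [pow_succ r₁ (m + 1)]; field_simp
    gcongr
  -- the orbit
  have horb : ∀ k : ℕ, ‖g^[k] w‖ ≤ r₂ ∧ |(u (g^[k] w)).re| ≤ Bu ∧
      ‖g^[k] w‖ * Real.exp (-s * (u (g^[k] w)).re) ≤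
        ‖w‖ * Real.exp (-s * (u w).re) * Real.exp (-s / 4) ^ k := by
    intro k
    induction k with
    | zero => exact ⟨by simpa using hw.trans hr'2.le, by simpa using hub0, by simp⟩
    | succ k ih =>
      obtain ⟨h1, h2, h3⟩ := ih
      obtain ⟨k1, k2, k3⟩ := key _ h1
      rw [Function.iterate_succ_apply']
      have h4 : ‖g (g^[k] w)‖ * Real.exp (-s * (u (g (g^[k] w))).re) ≤
          ‖w‖ * Real.exp (-s * (u w).re) * Real.exp (-s / 4) ^ (k + 1) := by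
        calc _ ≤ _ := k2
          _ ≤ (‖w‖ * Real.exp (-s * (u w).re) * Real.exp (-s / 4) ^ k) * Real.exp (-s / 4) :=
              mul_le_mul_of_nonneg_right h3 (Real.exp_pos _).le
          _ = _ := by ring
      refine ⟨?_, k3, h4⟩
      have h5 : Real.exp (-(s * Bu)) ≤ Real.exp (-s * (u (g (g^[k] w))).re) := by
        apply Real.exp_le_exp.mpr
        have := (abs_le.mp k3).2
        nlinarith
      have h6 : Real.exp (-s * (u w).re) ≤ Real.exp (s * Bu) := by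
        apply Real.exp_le_exp.mpr
        have := (abs_le.mp hub0).1
        nlinarith
      have h7 : Real.exp (-s / 4) ^ (k + 1) ≤ 1 :=
        pow_le_one₀ (Real.exp_pos _).le (Real.exp_le_one_iff.mpr (by linarith))
      have h8 : ‖g (g^[k] w)‖ * Real.exp (-(s * Bu)) ≤ r' * Real.exp (s * Bu) := by
        calc ‖g (g^[k] w)‖ * Real.exp (-(s * Bu))
            ≤ ‖g (g^[k] w)‖ * Real.exp (-s * (u (g (g^[k] w))).re) := by gcongr
          _ ≤ ‖w‖ * Real.exp (-s * (u w).re) * Real.exp (-s / 4) ^ (k + 1) := h4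
          _ ≤ r' * Real.exp (s * Bu) * 1 := by gcongr
          _ = _ := by ring
      have h9 : ‖g (g^[k] w)‖ ≤ Real.exp (2 * (s * Bu)) * r' := by
        have e : Real.exp (s * Bu) * Real.exp (-(s * Bu)) = 1 := by
          rw [← Real.exp_add]; simp
        calc ‖g (g^[k] w)‖ = (‖g (g^[k] w)‖ * Real.exp (-(s * Bu))) * Real.exp (s * Bu) := by
              rw [mul_assoc, mul_comm (Real.exp (-(s * Bu))), e, mul_one]
          _ ≤ (r' * Real.exp (s * Bu)) * Real.exp (s * Bu) := by gcongr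
          _ = Real.exp (2 * (s * Bu)) * r' := by
              rw [two_mul, Real.exp_add]; ring
      linarith
  refine ⟨fun k => ?_, ?_⟩
  · rw [mem_ball_zero_iff]
    linarith [(horb k).1]
  · rw [tendsto_zero_iff_norm_tendsto_zero]
    have hlim : Tendsto (fun k : ℕ => (‖w‖ * Real.exp (-s * (u w).re) * Real.exp (s * Bu)) *
        Real.exp (-s / 4) ^ k) atTop (𝓝 0) := by
      have := (tendsto_pow_atTop_nhds_zero_of_lt_one (Real.exp_pos (-s / 4)).le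
        (by
          have := Real.exp_lt_exp.mpr (show -s / 4 < 0 by linarith)
          rwa [Real.exp_zero] at this)).const_mul
          (‖w‖ * Real.exp (-s * (u w).re) * Real.exp (s * Bu))
      simpa using this
    refine squeeze_zero (fun k => norm_nonneg _) (fun k => ?_) hlim
    obtain ⟨h1, h2, h3⟩ := horb k
    have h5 : 1 ≤ Real.exp (-s * (u (g^[k] w)).re) * Real.exp (s * Bu) := by
      rw [← Real.exp_add]
      apply Real.one_le_exp
      have := (abs_le.mp h2).2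
      nlinarith
    calc ‖g^[k] w‖ = ‖g^[k] w‖ * 1 := by ring
      _ ≤ ‖g^[k] w‖ * (Real.exp (-s * (u (g^[k] w)).re) * Real.exp (s * Bu)) := by gcongr
      _ = (‖g^[k] w‖ * Real.exp (-s * (u (g^[k] w)).re)) * Real.exp (s * Bu) := by ring
      _ ≤ (‖w‖ * Real.exp (-s * (u w).re) * Real.exp (-s / 4) ^ k) * Real.exp (s * Bu) := by gcongr
      _ = _ := by ring

end Pool.Agent.H713R5.QJ
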