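import Mathlib
import Pool.Agent.H713R5.QJ.Defs

set_option autoImplicit false

open Topology Filter Metric Set Polynomial MeasureTheory

namespace Pool.Agent.H713R5.QJ

/-! ### sums over cycles -/

theorem surl_fun {ι : Type} [Fintype ι] (f : ((ι → ℂ) × (ι → ℂ)) →ₗ[ℂ] ℂ) :
    ∃ β α : ι → ℂ, ∀ x y, f (x, y) = ∑ z, β z * x z + ∑ z, α z * y z := by
  classical
  refine ⟨fun i => (f ∘ₗ LinearMap.inl ℂ (ι → ℂ) (ι → ℂ)) fun j => if i = j then 1 else 0,
    fun i => (f ∘ₗ LinearMap.inr ℂ (ι → ℂ) (ι → ℂ)) fun j => if i = j then 1 else 0, ?_⟩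
  intro x y
  have h1 : f (x, y) = (f ∘ₗ LinearMap.inl ℂ (ι → ℂ) (ι → ℂ)) x +
      (f ∘ₗ LinearMap.inr ℂ (ι → ℂ) (ι → ℂ)) y := by
    simp [← map_add]
  rw [h1, LinearMap.pi_apply_eq_sum_univ (f ∘ₗ LinearMap.inl ℂ (ι → ℂ) (ι → ℂ)) x,
    LinearMap.pi_apply_eq_sum_univ (f ∘ₗ LinearMap.inr ℂ (ι → ℂ) (ι → ℂ)) y]
  simp only [smul_eq_mul, mul_comm]

theorem surl_swap {ι : Type} [Fintype ι] (τ : Equiv.Perm ι) (N : ℕ) (α m : ι → ℂ) :
    ∑ z, α z * ∑ i ∈ Finset.range N, m ((τ ^ i) z) =
      ∑ z, (∑ i ∈ Finset.range N, α ((τ ^ i).symm z)) * m z := by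
  simp only [Finset.mul_sum, Finset.sum_mul]
  rw [Finset.sum_comm, Finset.sum_comm (s := Finset.univ) (t := Finset.range N)
    (f := fun z i => α ((τ ^ i).symm z) * m z)]
  refine Finset.sum_congr rfl fun i _ => ?_
  rw [← Equiv.sum_comp (τ ^ i) (fun z => α ((τ ^ i).symm z) * m z)]
  refine Finset.sum_congr rfl fun z _ => ?_
  rw [Equiv.symm_apply_apply]

theorem surl_inv {ι : Type} (τ : Equiv.Perm ι) (N : ℕ) (hN : τ ^ N = 1) (α : ι → ℂ) (z : ι) :
    ∑ i ∈ Finset.range N, α ((τ ^ i).symm (τ z)) = ∑ i ∈ Finset.range N, α ((τ ^ i).symm z) := by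
  have h1 := Finset.sum_range_succ (fun i => α ((τ ^ i).symm (τ z))) N
  have h2 := Finset.sum_range_succ' (fun i => α ((τ ^ i).symm (τ z))) N
  have h3 : ∀ i, (τ ^ (i + 1)).symm (τ z) = (τ ^ i).symm z := by
    intro i
    rw [Equiv.symm_apply_eq, pow_succ', Equiv.Perm.mul_apply, Equiv.apply_symm_apply]
  have h4 : (τ ^ N).symm (τ z) = (τ ^ 0).symm (τ z) := by rw [hN, pow_zero]
  simp only [h3] at h2
  rw [h4] at h1
  rw [h1] at h2
  exact add_right_cancel h2

theorem surl_zero {ι : Type} [Fintype ι] (τ : Equiv.Perm ι) (N : ℕ) (hN : 0 < N)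
    (α κ : ι → ℂ) (hκ : ∀ z, κ (τ z) = κ z)
    (hA : ∀ z, ∑ i ∈ Finset.range N, α ((τ ^ i).symm z) = 0) : ∑ z, α z * κ z = 0 := by
  have h1 := surl_swap τ N α κ
  simp only [hA, zero_mul, Finset.sum_const_zero] at h1
  have h2 : ∀ (i : ℕ) (z : ι), κ ((τ ^ i) z) = κ z := by
    intro i
    induction i with
    | zero => intro z; rfl
    | succ i ih => intro z; rw [pow_succ, Equiv.Perm.mul_apply, ih, hκ]
  simp only [h2, Finset.sum_const, Finset.card_range, nsmul_eq_mul] at h1
  have h3 : (N : ℂ) * ∑ z, α z * κ z = 0 := by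
    rw [Finset.mul_sum, ← h1]
    refine Finset.sum_congr rfl fun z _ => ?_
    ring
  rcases mul_eq_zero.mp h3 with h | h
  · exact absurd (Nat.cast_eq_zero.mp h) hN.ne'
  · exact h

/-- the weights -/
theorem surl_wt {ι : Type} (τ : Equiv.Perm ι) (N : ℕ) (hN : 0 < N) (c : ι → ℝ)
    (hc : ∀ z, ∑ i ∈ Finset.range N, c ((τ ^ i) z) = 0) :
    ∃ w : ι → ℝ, ∀ z, w (τ z) = w z + c z := by
  refine ⟨fun z => -((N : ℝ)⁻¹ * ∑ j ∈ Finset.range N, ∑ i ∈ Finset.range j, c ((τ ^ i) z)), ?_⟩
  intro z
  have hN' : (N : ℝ) ≠ 0 := by exact_mod_cast hN.ne'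
  have h1 : ∀ j, ∑ i ∈ Finset.range j, c ((τ ^ i) (τ z)) =
      ∑ i ∈ Finset.range (j + 1), c ((τ ^ i) z) - c z := by
    intro j
    rw [Finset.sum_range_succ']
    simp only [pow_succ, Equiv.Perm.mul_apply, pow_zero, Equiv.Perm.one_apply]
    ring
  simp only [h1]
  rw [Finset.sum_sub_distrib, Finset.sum_const, Finset.card_range, nsmul_eq_mul]
  have h2 := Finset.sum_range_succ (fun j => ∑ i ∈ Finset.range j, c ((τ ^ i) z)) N
  have h3 := Finset.sum_range_succ' (fun j => ∑ i ∈ Finset.range j, c ((τ ^ i) z)) N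
  rw [h3] at h2
  simp only [Finset.range_zero, Finset.sum_empty, add_zero, hc] at h2
  rw [h2]
  field_simp
  ring

/-! ### iterates -/

theorem surl_deriv (T : ℂ[X]) (n : ℕ) (z : ℂ) :
    HasDerivAt ((ev T)^[n]) (∏ i ∈ Finset.range n, (derivative T).eval ((ev T)^[i] z)) z := by
  induction n with
  | zero => simpa using hasDerivAt_id z
  | succ n ih =>
    rw [Function.iterate_succ', Finset.prod_range_succ, mul_comm]
    exact (T.hasDerivAt ((ev T)^[n] z)).comp z ih

theorem surl_period (f : ℂ → ℂ) (m : ℂ → ℂ) (z : ℂ) (p q : ℕ) (hp : f^[p] z = z) :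
    ∑ i ∈ Finset.range (p * q), m (f^[i] z) = q * ∑ i ∈ Finset.range p, m (f^[i] z) := by
  induction q with
  | zero => simp
  | succ q ih =>
    rw [Nat.mul_succ, Finset.sum_range_add, ih]
    have h1 : ∀ i, f^[p * q + i] z = f^[i] z := by
      intro i
      rw [add_comm, Function.iterate_add_apply]
      congr 1
      have : Function.IsPeriodicPt f p z := hp
      exact this.mul_const q
    simp only [h1]
    push_cast
    ring

/-! ### the theorem -/

/-- the linearized equations -/
noncomputable def surl_lin (T : ℂ[X]) (Z : Finset ℂ) (τ : Equiv.Perm Z) (N : ℕ) :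
    (ℂ[X] × (Z → ℂ)) →ₗ[ℂ] ((Z → ℂ) × (Z → ℂ)) where
  toFun p := (fun z => p.2 (τ z) - (derivative T).eval (z : ℂ) * p.2 z - p.1.eval (z : ℂ),
    fun z => ∑ i ∈ Finset.range N, ((derivative p.1).eval (((τ ^ i) z : Z) : ℂ) +
      (derivative (derivative T)).eval (((τ ^ i) z : Z) : ℂ) * p.2 ((τ ^ i) z)) /
      (derivative T).eval (((τ ^ i) z : Z) : ℂ))
  map_add' p q := by
    refine Prod.ext ?_ ?_
    · funext z
      simp only [Prod.fst_add, Prod.snd_add, Pi.add_apply, eval_add]
      ring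
    · funext z
      simp only [Prod.fst_add, Prod.snd_add, Pi.add_apply, eval_add, derivative_add]
      rw [← Finset.sum_add_distrib]
      refine Finset.sum_congr rfl fun i _ => ?_
      ring
  map_smul' c p := by
    refine Prod.ext ?_ ?_
    · funext z
      simp only [Prod.smul_fst, Prod.smul_snd, Pi.smul_apply, eval_smul, smul_eq_mul,
        RingHom.id_apply]
      ring
    · funext z
      simp only [Prod.smul_fst, Prod.smul_snd, Pi.smul_apply, eval_smul, smul_eq_mul,
        RingHom.id_apply, derivative_smul, Finset.mul_sum]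
      refine Finset.sum_congr rfl fun i _ => ?_
      ring

theorem surl_holds : StSURL := by
  intro hAF hPF hINJ T Z hT hZ hmul e κ hκ
  classical
  obtain ⟨hmaps, hinj, hder⟩ := hZ
  set f0 : Z → Z := fun z => ⟨T.eval (z : ℂ), hmaps z z.2⟩ with hf0
  have hf0i : Function.Injective f0 := by
    intro z z' h
    exact Subtype.ext (hinj z z.2 z' z'.2 (congrArg Subtype.val h))
  set τ : Equiv.Perm Z := Equiv.ofBijective f0 (Finite.injective_iff_bijective.mp hf0i) with hτ
  have hτv : ∀ z : Z, ((τ z : Z) : ℂ) = T.eval (z : ℂ) := fun z => rfl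
  set N := orderOf τ with hN
  have hN0 : 0 < N := orderOf_pos τ
  have hτN : τ ^ N = 1 := pow_orderOf_eq_one τ
  have hit : ∀ (i : ℕ) (z : Z), (((τ ^ i) z : Z) : ℂ) = (ev T)^[i] (z : ℂ) := by
    intro i
    induction i with
    | zero => intro z; rfl
    | succ i ih =>
      intro z
      rw [pow_succ', Equiv.Perm.mul_apply, hτv, ih, Function.iterate_succ_apply']
      rfl
  have hper : ∀ z : Z, (ev T)^[N] (z : ℂ) = z := by
    intro z
    rw [← hit, hτN]
    rfl
  -- periods
  have hpp : ∀ z : Z, Function.IsPeriodicPt (ev T) N (z : ℂ) := fun z => hper z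
  have hdvd : ∀ z : Z, Function.minimalPeriod (ev T) (z : ℂ) ∣ N := fun z =>
    (hpp z).minimalPeriod_dvd
  have hmp0 : ∀ z : Z, 0 < Function.minimalPeriod (ev T) (z : ℂ) := fun z =>
    (hpp z).minimalPeriod_pos hN0
  have hmpi : ∀ z : Z, Function.minimalPeriod (ev T) ((τ z : Z) : ℂ) =
      Function.minimalPeriod (ev T) (z : ℂ) := by
    intro z
    rw [hτv]
    exact Function.minimalPeriod_apply ⟨N, hN0, hpp z⟩
  -- the right side
  set q : Z → ℕ := fun z => N / Function.minimalPeriod (ev T) (z : ℂ) with hq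
  have hqN : ∀ z : Z, Function.minimalPeriod (ev T) (z : ℂ) * q z = N := fun z =>
    Nat.mul_div_cancel' (hdvd z)
  have hq0 : ∀ z : Z, (q z : ℂ) ≠ 0 := by
    intro z h
    have h1 : q z = 0 := by exact_mod_cast h
    have h2 := hqN z
    rw [h1, mul_zero] at h2
    omega
  set κt : Z → ℂ := fun z => (q z : ℂ) * κ z with hκt
  have hκti : ∀ z, κt (τ z) = κt z := by
    intro z
    rw [hκt]
    simp only [hq]
    rw [hmpi, hτv, hκ z z.2]
  -- the linear algebra
  have hmem : ((fun z : Z => e z), κt) ∈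
      Submodule.map (surl_lin T Z τ N) ((degreeLE ℂ ((T.natDegree - 2 : ℕ) : WithBot ℕ)).prod ⊤) := by
    by_contra hnot
    obtain ⟨f, hf1, hf2⟩ := Submodule.exists_le_ker_of_notMem hnot
    obtain ⟨β, α, hf⟩ := surl_fun f
    have key : ∀ (h : ℂ[X]) (u : Z → ℂ), h.natDegree ≤ T.natDegree - 2 →
        ∑ z : Z, β z * (u (τ z) - (derivative T).eval (z : ℂ) * u z - h.eval (z : ℂ)) +
          ∑ z : Z, (∑ i ∈ Finset.range N, α ((τ ^ i).symm z)) *
            (((derivative h).eval (z : ℂ) + (derivative (derivative T)).eval (z : ℂ) * u z) /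
              (derivative T).eval (z : ℂ)) = 0 := by
      intro h u hh
      have h1 : surl_lin T Z τ N (h, u) ∈ Submodule.map (surl_lin T Z τ N)
          ((degreeLE ℂ ((T.natDegree - 2 : ℕ) : WithBot ℕ)).prod ⊤) := by
        refine Submodule.mem_map_of_mem ?_
        refine ⟨?_, trivial⟩
        change h ∈ degreeLE ℂ ((T.natDegree - 2 : ℕ) : WithBot ℕ)
        rw [mem_degreeLE]
        exact natDegree_le_iff_degree_le.mp hh
      have h2 : f (surl_lin T Z τ N (h, u)) = 0 := hf2 h1
      have h3 := surl_swap τ N α (fun z : Z => ((derivative h).eval (z : ℂ) +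
        (derivative (derivative T)).eval (z : ℂ) * u z) / (derivative T).eval (z : ℂ))
      rw [← h3]
      rw [← h2]
      exact (hf _ _).symm
    set A : Z → ℂ := fun z => ∑ i ∈ Finset.range N, α ((τ ^ i).symm z) with hA
    have hAi : ∀ z, A (τ z) = A z := fun z => surl_inv τ N hτN α z
    -- the relation for `b`
    have hrel : ∀ z : Z, β (τ.symm z) - β z * (derivative T).eval (z : ℂ) +
        A z * ((derivative (derivative T)).eval (z : ℂ) / (derivative T).eval (z : ℂ)) = 0 := by
      intro z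
      have h1 := key 0 (Pi.single z 1) (by simp)
      simp only [eval_zero, derivative_zero, sub_zero, zero_add] at h1
      have h2 : ∑ y : Z, β y * ((Pi.single z (1 : ℂ) : Z → ℂ) (τ y) -
          (derivative T).eval (y : ℂ) * (Pi.single z (1 : ℂ) : Z → ℂ) y) =
          β (τ.symm z) - β z * (derivative T).eval (z : ℂ) := by
        simp only [mul_sub, Finset.sum_sub_distrib]
        congr 1
        · rw [Finset.sum_eq_single (τ.symm z)]
          · simp
          · intro y _ hy
            rw [Pi.single_eq_of_ne (fun h => hy (by rw [← h, Equiv.symm_apply_apply])), mul_zero]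
          · intro h; exact absurd (Finset.mem_univ _) h
        · rw [Finset.sum_eq_single z]
          · simp
          · intro y _ hy
            rw [Pi.single_eq_of_ne hy, mul_zero, mul_zero]
          · intro h; exact absurd (Finset.mem_univ _) h
      have h3 : ∑ y : Z, A y * ((derivative (derivative T)).eval (y : ℂ) *
          (Pi.single z (1 : ℂ) : Z → ℂ) y / (derivative T).eval (y : ℂ)) =
          A z * ((derivative (derivative T)).eval (z : ℂ) / (derivative T).eval (z : ℂ)) := by
        rw [Finset.sum_eq_single z]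
        · simp
        · intro y _ hy
          rw [Pi.single_eq_of_ne hy, mul_zero, zero_div, mul_zero]
        · intro h; exact absurd (Finset.mem_univ _) h
      rw [h2, h3] at h1
      exact h1
    have hder' : ∀ z : Z, (derivative T).eval (z : ℂ) ≠ 0 := fun z => hder z z.2
    -- extension to `ℂ`
    set a : ℂ → ℂ := fun w => if hw : w ∈ Z then A ⟨w, hw⟩ else 0 with ha
    set b : ℂ → ℂ := fun w => if hw : w ∈ Z then -β (τ.symm ⟨w, hw⟩) else 0 with hb
    have haz : ∀ z : Z, a z = A z := fun z => by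
      rw [ha]; simp only [z.2, dif_pos]
    have hbz : ∀ z : Z, b z = -β (τ.symm z) := fun z => by
      rw [hb]; simp only [z.2, dif_pos]
    have hbτ : ∀ z : Z, b (T.eval (z : ℂ)) = -β z := by
      intro z
      rw [← hτv, hbz, Equiv.symm_apply_apply]
    have hb2 : ∀ z : Z, b (T.eval (z : ℂ)) = b z / (derivative T).eval (z : ℂ) -
        a z * (derivative (derivative T)).eval (z : ℂ) / (derivative T).eval (z : ℂ) ^ 2 := by
      intro z
      rw [hbτ, hbz, haz]
      have h1 := hrel z
      have h2 := hder' z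
      field_simp at h1 ⊢
      linear_combination h1
    -- the weights
    have hc : ∀ z : Z, ∑ i ∈ Finset.range N,
        Real.log ‖(derivative T).eval (((τ ^ i) z : Z) : ℂ)‖ = 0 := by
      intro z
      have h1 := hmul z z.2 N hN0 (hper z)
      rw [(surl_deriv T N z).deriv, norm_prod] at h1
      rw [← Real.log_prod (fun i _ => norm_ne_zero_iff.mpr (hder' _))]
      simp only [hit]
      rw [h1, Real.log_one]
    obtain ⟨w, hw⟩ := surl_wt τ N hN0
      (fun z : Z => Real.log ‖(derivative T).eval (z : ℂ)‖) hc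
    set wt : ℂ → ℝ := fun y => if hy : y ∈ Z then Real.exp (w ⟨y, hy⟩) else 1 with hwt
    have hwtz : ∀ z : Z, wt z = Real.exp (w z) := fun z => by
      rw [hwt]; simp only [z.2, dif_pos]
    have hwt2 : ∀ z ∈ Z, 0 < wt z ∧ wt (T.eval z) = ‖(derivative T).eval z‖ * wt z := by
      intro z hz
      have h1 := hwtz ⟨z, hz⟩
      have h2 := hwtz (τ ⟨z, hz⟩)
      rw [hτv] at h2
      simp only at h1 h2
      rw [h1, h2, hw, Real.exp_add, Real.exp_log (norm_pos_iff.mpr (hder' ⟨z, hz⟩))]
      exact ⟨Real.exp_pos _, mul_comm _ _⟩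
    -- duality and injectivity
    have hab := hINJ hAF T Z a b wt hT ⟨hmaps, hinj, hder⟩ hwt2
      (hPF T Z a b hT ⟨hmaps, hinj, hder⟩
        (fun z hz => by
          have h1 := haz (τ ⟨z, hz⟩)
          rw [hτv] at h1
          simp only at h1
          rw [h1, hAi, ← haz])
        (fun z hz => hb2 ⟨z, hz⟩)
        (fun h hh => by
          rw [← Finset.sum_coe_sort]
          have h1 := key h 0 hh
          simp only [Pi.zero_apply, mul_zero, sub_zero, zero_sub, add_zero] at h1
          rw [← Finset.sum_add_distrib] at h1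
          rw [← h1]
          refine Finset.sum_congr rfl fun z _ => ?_
          have h2 := hb2 z
          rw [hbτ] at h2
          have h3 : β z = -(b z / (derivative T).eval (z : ℂ) -
            a z * (derivative (derivative T)).eval (z : ℂ) / (derivative T).eval (z : ℂ) ^ 2) := by
            rw [← h2, neg_neg]
          rw [h3]
          change _ = _ + A z * _
          rw [← haz]
          have h4 := hder' z
          field_simp
          ring))
    have hA0 : ∀ z : Z, A z = 0 := fun z => by rw [← haz]; exact (hab z z.2).1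
    have hβ0 : ∀ z : Z, β z = 0 := by
      intro z
      have h1 := (hab (T.eval (z : ℂ)) (hmaps z z.2)).2
      rw [hbτ] at h1
      exact neg_eq_zero.mp h1
    apply hf1
    rw [hf]
    simp only [hβ0, zero_mul, Finset.sum_const_zero, zero_add]
    exact surl_zero τ N hN0 α κt hκti hA0
  rw [Submodule.mem_map] at hmem
  obtain ⟨⟨h, u⟩, hhu, heq⟩ := hmem
  have hh : h ∈ degreeLE ℂ ((T.natDegree - 2 : ℕ) : WithBot ℕ) := hhu.1
  rw [mem_degreeLE] at hh
  have he1 := congrArg Prod.fst heq
  have he2 := congrArg Prod.snd heq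
  set u' : ℂ → ℂ := fun w => if hw : w ∈ Z then u ⟨w, hw⟩ else 0 with hu'
  have huz : ∀ z : Z, u' z = u z := fun z => by
    rw [hu']; simp only [z.2, dif_pos]
  refine ⟨h, u', natDegree_le_iff_degree_le.mpr hh, ?_, ?_⟩
  · intro z hz
    have h1 := congrFun he1 ⟨z, hz⟩
    have h2 := huz ⟨z, hz⟩
    have h3 := huz (τ ⟨z, hz⟩)
    rw [hτv] at h3
    simp only at h2 h3
    rw [h2, h3]
    exact h1
  · intro z hz
    have h1 := congrFun he2 ⟨z, hz⟩
    have h2 : ∑ i ∈ Finset.range N,
        ((derivative h).eval ((ev T)^[i] z) +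
          (derivative (derivative T)).eval ((ev T)^[i] z) * u' ((ev T)^[i] z)) /
          (derivative T).eval ((ev T)^[i] z) = κt ⟨z, hz⟩ := by
      refine Eq.trans ?_ h1
      refine Finset.sum_congr rfl fun i _ => ?_
      have h3 := hit i ⟨z, hz⟩
      have h4 := huz ((τ ^ i) ⟨z, hz⟩)
      rw [h3] at h4 ⊢
      rw [h4]
    have h5 := surl_period (ev T) (fun y => ((derivative h).eval y +
          (derivative (derivative T)).eval y * u' y) / (derivative T).eval y) z
          (Function.minimalPeriod (ev T) z) (q ⟨z, hz⟩) (Function.isPeriodicPt_minimalPeriod _ _)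
    have h6 : Function.minimalPeriod (ev T) z * q ⟨z, hz⟩ = N := hqN ⟨z, hz⟩
    rw [h6, h2] at h5
    exact (mul_left_cancel₀ (hq0 ⟨z, hz⟩) h5).symm

end Pool.Agent.H713R5.QJ
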