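import Mathlib
import Pool.Agent.H713R5.QJ.Defs

set_option autoImplicit false

open Topology Filter Metric Set Polynomial MeasureTheory

namespace Pool.Agent.H713R5.QJ

namespace USCGaux

/-- uniform escape radius -/
lemma radius (T : ℂ[X]) (hd : 2 ≤ T.natDegree) : ∃ R σ : ℝ, 0 < R ∧ 0 < σ ∧ ∀ S : ℂ[X],
    S.natDegree = T.natDegree → (∀ j : ℕ, ‖S.coeff j - T.coeff j‖ < σ) →
    ∀ w : ℂ, R ≤ ‖w‖ → 2 * ‖w‖ ≤ ‖S.eval w‖ := by
  classical
  have hT0 : T ≠ 0 := by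
    intro h
    rw [h, natDegree_zero] at hd
    omega
  set d := T.natDegree with hdd
  set c : ℝ := ‖T.coeff d‖ with hc
  have hcpos : 0 < c := by
    rw [hc, norm_pos_iff]
    exact leadingCoeff_ne_zero.mpr hT0
  set M : ℝ := ∑ j ∈ Finset.range d, (‖T.coeff j‖ + 1) with hM
  have hM0 : 0 ≤ M := by
    rw [hM]
    apply Finset.sum_nonneg
    intro j _
    positivity
  refine ⟨max 1 ((M + 2) * (2 / c)), min (c / 2) 1, by positivity, by positivity, ?_⟩
  intro S hS hco w hw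
  have hw1 : 1 ≤ ‖w‖ := le_trans (le_max_left _ _) hw
  have hw2 : (M + 2) * (2 / c) ≤ ‖w‖ := le_trans (le_max_right _ _) hw
  have hw3 : M + 2 ≤ (c / 2) * ‖w‖ := by
    have := mul_le_mul_of_nonneg_left hw2 (by positivity : (0 : ℝ) ≤ c / 2)
    have h2 : (c / 2) * ((M + 2) * (2 / c)) = M + 2 := by field_simp
    linarith
  have hlow : c / 2 ≤ ‖S.coeff d‖ := by
    have h1 := hco d
    have h2 : c ≤ ‖S.coeff d‖ + ‖S.coeff d - T.coeff d‖ := by
      rw [hc]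
      have : T.coeff d = S.coeff d - (S.coeff d - T.coeff d) := by ring
      calc ‖T.coeff d‖ = ‖S.coeff d - (S.coeff d - T.coeff d)‖ := by rw [← this]
        _ ≤ _ := norm_sub_le _ _
    have h3 := lt_of_lt_of_le h1 (min_le_left _ _)
    linarith
  have hup : ∀ j : ℕ, ‖S.coeff j‖ ≤ ‖T.coeff j‖ + 1 := by
    intro j
    have h1 := lt_of_lt_of_le (hco j) (min_le_right _ _)
    have h2 : ‖S.coeff j‖ ≤ ‖T.coeff j‖ + ‖S.coeff j - T.coeff j‖ := by
      have : S.coeff j = T.coeff j + (S.coeff j - T.coeff j) := by ring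
      calc ‖S.coeff j‖ = ‖T.coeff j + (S.coeff j - T.coeff j)‖ := by rw [← this]
        _ ≤ _ := norm_add_le _ _
    linarith
  have hev : S.eval w = ∑ j ∈ Finset.range d, S.coeff j * w ^ j + S.coeff d * w ^ d := by
    rw [eval_eq_sum_range, hS, Finset.sum_range_succ]
  have hsum : ‖∑ j ∈ Finset.range d, S.coeff j * w ^ j‖ ≤ M * ‖w‖ ^ (d - 1) := by
    refine le_trans (norm_sum_le _ _) ?_
    rw [hM, Finset.sum_mul]
    apply Finset.sum_le_sum
    intro j hj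
    rw [norm_mul, norm_pow]
    apply mul_le_mul (hup j) _ (by positivity) (by positivity)
    apply pow_le_pow_right₀ hw1
    have := Finset.mem_range.mp hj
    omega
  have hmain : (c / 2) * ‖w‖ ^ d ≤ ‖S.coeff d * w ^ d‖ := by
    rw [norm_mul, norm_pow]
    exact mul_le_mul_of_nonneg_right hlow (by positivity)
  have hpow : ‖w‖ ^ d = ‖w‖ ^ (d - 1) * ‖w‖ := by
    rw [← pow_succ]
    congr 1
    omega
  have hpow2 : ‖w‖ ≤ ‖w‖ ^ (d - 1) := by
    calc ‖w‖ = ‖w‖ ^ 1 := (pow_one _).symm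
      _ ≤ ‖w‖ ^ (d - 1) := pow_le_pow_right₀ hw1 (by omega)
  have htri : ‖S.coeff d * w ^ d‖ - ‖∑ j ∈ Finset.range d, S.coeff j * w ^ j‖ ≤ ‖S.eval w‖ := by
    rw [hev]
    have := norm_sub_norm_le (S.coeff d * w ^ d) (-(∑ j ∈ Finset.range d, S.coeff j * w ^ j))
    rw [norm_neg, sub_neg_eq_add, add_comm (S.coeff d * w ^ d)] at this
    exact this
  have hfin : 2 * ‖w‖ ^ (d - 1) ≤ ‖S.eval w‖ := by
    have h1 : (c / 2) * ‖w‖ ^ d - M * ‖w‖ ^ (d - 1) ≤ ‖S.eval w‖ := by linarith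
    have h2 : (c / 2) * ‖w‖ ^ d - M * ‖w‖ ^ (d - 1) = ‖w‖ ^ (d - 1) * ((c / 2) * ‖w‖ - M) := by
      rw [hpow]; ring
    have h3 : ‖w‖ ^ (d - 1) * 2 ≤ ‖w‖ ^ (d - 1) * ((c / 2) * ‖w‖ - M) :=
      mul_le_mul_of_nonneg_left (by linarith) (by positivity)
    linarith
  linarith

lemma escape (S : ℂ[X]) (R : ℝ) (hR : 0 < R)
    (h : ∀ w : ℂ, R ≤ ‖w‖ → 2 * ‖w‖ ≤ ‖S.eval w‖) (w : ℂ) (hw : R ≤ ‖w‖) : Good (ev S) w := by
  left
  have hk : ∀ k : ℕ, 2 ^ k * R ≤ ‖(ev S)^[k] w‖ := by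
    intro k
    induction k with
    | zero => simpa using hw
    | succ k ih =>
      rw [Function.iterate_succ_apply']
      have h1 : R ≤ ‖(ev S)^[k] w‖ := by
        refine le_trans ?_ ih
        have : (1 : ℝ) ≤ 2 ^ k := one_le_pow₀ (by norm_num)
        nlinarith
      have h2 := h _ h1
      rw [ev]
      rw [pow_succ]
      have h3 : 2 * (2 ^ k * R) ≤ 2 * ‖(ev S)^[k] w‖ := by linarith
      calc (2 : ℝ) ^ k * 2 * R = 2 * (2 ^ k * R) := by ring
        _ ≤ 2 * ‖(ev S)^[k] w‖ := h3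
        _ ≤ _ := h2
  apply tendsto_atTop_mono hk
  exact (tendsto_pow_atTop_atTop_of_one_lt (by norm_num : (1 : ℝ) < 2)).atTop_mul_const hR

end USCGaux

open USCGaux in
theorem uscg_holds : StUSCG := by
  classical
  intro hO T hd η hη
  obtain ⟨R, σ₁, hR, hσ₁, hrad⟩ := radius T hd
  set G : Set ℂ := {z | Good (ev T) z} with hG
  have hGo : IsOpen G := by
    rw [Metric.isOpen_iff]
    intro z hz
    obtain ⟨σ, hσ, h⟩ := hO T z hd hz
    refine ⟨σ, hσ, ?_⟩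
    intro z' hz'
    exact h T rfl (by intro j; simpa using hσ) z' hz'
  have hmeas : MeasurableSet (G ∩ closedBall (0 : ℂ) R) :=
    hGo.measurableSet.inter isClosed_closedBall.measurableSet
  have hfin : volume (G ∩ closedBall (0 : ℂ) R) ≠ ⊤ :=
    ne_top_of_le_ne_top (isCompact_closedBall (0 : ℂ) R).measure_lt_top.ne
      (measure_mono inter_subset_right)
  obtain ⟨K, hKs, hKc, hKv⟩ := hmeas.exists_isCompact_sdiff_lt (μ := (volume : Measure ℂ)) hfin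
    (ε := ENNReal.ofReal η) (by simpa using hη)
  have hKG : ∃ σ : ℝ, 0 < σ ∧ ∀ S : ℂ[X], S.natDegree = T.natDegree →
      (∀ j : ℕ, ‖S.coeff j - T.coeff j‖ < σ) → ∀ z ∈ K, Good (ev S) z := by
    refine hKc.induction_on (p := fun s => ∃ σ : ℝ, 0 < σ ∧ ∀ S : ℂ[X],
      S.natDegree = T.natDegree → (∀ j : ℕ, ‖S.coeff j - T.coeff j‖ < σ) →
      ∀ z ∈ s, Good (ev S) z) ?_ ?_ ?_ ?_
    · exact ⟨1, one_pos, fun S _ _ z hz => absurd hz (Set.notMem_empty z)⟩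
    · rintro s t hst ⟨σ, hσ, h⟩
      exact ⟨σ, hσ, fun S hS hc z hz => h S hS hc z (hst hz)⟩
    · rintro s t ⟨σ, hσ, h⟩ ⟨σ', hσ', h'⟩
      refine ⟨min σ σ', lt_min hσ hσ', ?_⟩
      intro S hS hc z hz
      rcases hz with hz | hz
      · exact h S hS (fun j => lt_of_lt_of_le (hc j) (min_le_left _ _)) z hz
      · exact h' S hS (fun j => lt_of_lt_of_le (hc j) (min_le_right _ _)) z hz
    · intro z hz
      obtain ⟨σ, hσ, h⟩ := hO T z hd (hKs hz).1
      refine ⟨ball z σ, mem_nhdsWithin_of_mem_nhds (ball_mem_nhds z hσ), σ, hσ, ?_⟩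
      intro S hS hc z' hz'
      exact h S hS hc z' hz'
  obtain ⟨σ₂, hσ₂, hgood⟩ := hKG
  refine ⟨min σ₁ σ₂, lt_min hσ₁ hσ₂, ?_⟩
  intro S hS hc
  have h1 := hrad S hS (fun j => lt_of_lt_of_le (hc j) (min_le_left _ _))
  have h2 := hgood S hS (fun j => lt_of_lt_of_le (hc j) (min_le_right _ _))
  have hsub : {z : ℂ | ¬ Good (ev S) z} ⊆
      {z : ℂ | ¬ Good (ev T) z} ∪ ((G ∩ closedBall (0 : ℂ) R) \ K) := by
    intro z hz
    by_cases hT : Good (ev T) z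
    · right
      refine ⟨⟨hT, ?_⟩, ?_⟩
      · rw [mem_closedBall_zero_iff]
        by_contra hcon
        push Not at hcon
        exact hz (escape S R hR h1 z hcon.le)
      · intro hzK
        exact hz (h2 z hzK)
    · left
      exact hT
  calc volume {z : ℂ | ¬ Good (ev S) z}
      ≤ volume ({z : ℂ | ¬ Good (ev T) z} ∪ ((G ∩ closedBall (0 : ℂ) R) \ K)) := measure_mono hsub
    _ ≤ volume {z : ℂ | ¬ Good (ev T) z} + volume ((G ∩ closedBall (0 : ℂ) R) \ K) :=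
        measure_union_le _ _
    _ ≤ _ := by gcongr

end Pool.Agent.H713R5.QJ
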