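import Mathlib
import Pool.Agent.H713R5.QJ.Defs3

set_option autoImplicit false

open Topology Filter Metric Set Polynomial MeasureTheory
open Pool.Agent.H713R3.ZA

namespace Pool.Agent.H713R5.QJ

theorem uscp_holds : StUSCP := by
  intro hOPG hUSCG a n x₁ ha hn η hη
  have hdeg : ∀ x : PE n, (fam a n x).natDegree = n + 1 := fun x => natDegree_fam ha n x
  obtain ⟨σ, hσ, h⟩ := hUSCG hOPG (fam a n x₁) (by rw [hdeg]; omega) η hη
  have hev : ∀ᶠ x in 𝓝 x₁, ∀ j ∈ Finset.range (n + 2),
      ‖(fam a n x).coeff j - (fam a n x₁).coeff j‖ < σ := by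
    rw [Filter.eventually_all_finset]
    intro j _
    have hc : Continuous (fun x : PE n => (fam a n x).coeff j) := (pfe_fam a n j).continuous
    have h1 := hc.tendsto x₁ (Metric.ball_mem_nhds _ hσ)
    filter_upwards [h1] with x hx
    rwa [mem_preimage, mem_ball_iff_norm] at hx
  obtain ⟨δ, hδ, hb⟩ := Metric.mem_nhds_iff.mp hev
  refine ⟨δ, hδ, fun x hx => ?_⟩
  have h2 := hb hx
  have h3 := h (fam a n x) (by rw [hdeg, hdeg]) (by
    intro j
    by_cases hj : j < n + 2
    · exact h2 j (Finset.mem_range.mpr hj)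
    · rw [coeff_eq_zero_of_natDegree_lt (by rw [hdeg]; omega),
        coeff_eq_zero_of_natDegree_lt (by rw [hdeg]; omega), sub_zero, norm_zero]
      exact hσ)
  exact h3

end Pool.Agent.H713R5.QJ
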