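import Mathlib
import Pool.Agent.H713R5.QJ.TKO0
import Pool.Agent.H713R5.QJ.TKO1
import Pool.Agent.H713R5.QJ.TKO2
import Pool.Agent.H713R5.QJ.TKO3
import Pool.Agent.H713R5.QJ.TKBP
import Pool.Agent.H713R5.QJ.TFATP
import Pool.Agent.H713R5.QJ.TGENP
import Pool.Agent.H713R5.QJ.TNUD
import Pool.Agent.H713R5.QJ.TCLO
import Pool.Agent.H713R5.QJ.TCPTQ
import Pool.Agent.H713R5.QJ.TAPRP
import Pool.Agent.H713R5.QJ.TRF
import Pool.Agent.H713R5.QJ.TRS
import Pool.Agent.H713R5.QJ.TCRS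
import Pool.Agent.H713R5.QJ.TCRE
import Pool.Agent.H713R5.QJ.TCRB
import Pool.Agent.H713R5.QJ.TMOTL
import Pool.Agent.H713R5.QJ.TFULLL
import Pool.Agent.H713R5.QJ.TSTEPL
import Pool.Agent.H713R5.QJ.TDIC
import Pool.Agent.H713R5.QJ.TRL
import Pool.Agent.H713R5.QJ.TASYP
import Pool.Agent.H713R5.QJ.TGAINP
import Pool.Agent.H713R5.QJ.TLSCP
import Pool.Agent.H713R5.QJ.TNINF
import Pool.Agent.H713R5.QJ.TBDDP
import Pool.Agent.H713R5.QJ.TMINA
import Pool.Agent.H713R5.QJ.TATM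
import Pool.Agent.H713R5.QJ.TREFP
import Pool.Agent.H713R5.QJ.TUSCP
import Pool.Agent.H713R5.QJ.TFARP
import Pool.Agent.H713R5.QJ.TLOCP
import Pool.Agent.H713R5.QJ.TGDP
import Pool.Agent.H713R5.QJ.TOPG
import Pool.Agent.H713R5.QJ.TUSCG
import Pool.Agent.H713R5.QJ.TAF
import Pool.Agent.H713R5.QJ.TPF
import Pool.Agent.H713R5.QJ.TINJ
import Pool.Agent.H713R5.QJ.TSURL
import Pool.Agent.H713R5.QJ.TCURVE
import Pool.Agent.H713R5.QJ.TSGL
import Pool.Agent.H713R5.QJ.TPBL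
import Pool.Agent.H713R5.QJ.TAPP
import Pool.Agent.H713R5.QJ.TAPSb
import Pool.Agent.H713R5.QJ.TAPX
import Pool.Agent.H713R4.RB.TCROSS
import Pool.Agent.H713R4.RB.TAREA
import Pool.Agent.H713R4.RB.TAVG2
import Pool.Agent.H713R4.RB.TBAD
import Pool.Agent.H713R4.RB.TPRO
import Pool.Agent.H713R4.RB.TWN
import Pool.Agent.H713R3.ZA.TBSUM
import Pool.Agent.H713R3.ZA.TINV
import Pool.Agent.H713R3.ZA.TIDEN
import Pool.Agent.H713R3.ZA.TFLOW
import Pool.Agent.H713R3.ZA.TSEP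
import Pool.Agent.H713R3.ZA.TNDEG
import Pool.Agent.H713R3.ZA.TROOT
import Pool.Agent.H713R3.ZA.TSURJ
import Pool.Agent.H713R5.QJ.Main1

set_option autoImplicit false

open Topology Filter Metric Set Polynomial MeasureTheory
open Pool.Agent.H713R3.ZA

namespace Pool.Agent.H713R5.QJ

theorem hh : HH where
  bsum := bsum_holds
  inv := inv_holds
  iden := iden_holds
  flow := flow_holds
  sep := sep_holds
  ndeg := ndeg_holds
  root := root_holds
  cross := Pool.Agent.H713R4.RB.cross_holds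
  area := Pool.Agent.H713R4.RB.area_holds
  avg2 := Pool.Agent.H713R4.RB.avg2_holds
  rbad := Pool.Agent.H713R4.RB.bad_holds
  pro := Pool.Agent.H713R4.RB.pro_holds
  wn := Pool.Agent.H713R4.RB.wn_holds
  ko0 := ko0_holds
  ko1 := ko1_holds
  ko2 := ko2_holds
  ko3 := ko3_holds
  kbp := kbp_holds
  fatp := fatp_holds
  genp := genp_holds
  nud := nud_holds
  clo := clo_holds
  aprp := aprp_holds
  crs := crs_holds
  cre := cre_holds
  crb := crb_holds
  rf := rf_holds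
  rs := rs_holds
  rl := rl_holds
  asyp := asyp_holds
  motl := motl_holds
  fulll := fulll_holds
  stepl := stepl_holds
  dic := dic_holds
  gainp := gainp_holds
  lscp := lscp_holds
  ninf := ninf_holds
  bddp := bddp_holds
  mina := mina_holds
  cptq := cptq_holds
  atm := atm_holds
  refp := refp_holds
  uscp := uscp_holds
  farp := farp_holds
  locp := locp_holds
  gdp := gdp_holds
  opg := opg_holds
  uscg := uscg_holds

/-- Theorem D. -/
theorem main (T : ℂ[X]) (hd : 2 ≤ T.natDegree)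
    (hT : volume {z : ℂ | ¬ (Good (ev T) z ∨ Para (ev T) z ∨ Sieg (ev T) z)} = 0)
    {ε : ℝ} (hε : 0 < ε) :
    ∃ S : ℂ[X], S.natDegree = T.natDegree ∧ S.leadingCoeff = T.leadingCoeff ∧
      (∀ j : ℕ, ‖S.coeff j - T.coeff j‖ < ε) ∧
      volume {z : ℂ | ¬ Good (ev S) z} ≤ ENNReal.ofReal ε ∧
      ∀ c : ℂ, (derivative S).eval c = 0 → Good (ev S) c :=
  mainQ_lead hh surj_holds T hd (fun ε hε => apx_holds opg_holds af_holds pf_holds inj_holds
    surl_holds curve_holds sgl_holds pbl_holds app_holds aps_holds T hd hT ε hε) hε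

end Pool.Agent.H713R5.QJ
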