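import Mathlib
import Pool.Agent.H713R5.QJ.Defs4

/-!
Task SCL: conjugation by a scaling (by helper403).
-/

set_option autoImplicit false

open Topology Filter Metric Set Polynomial MeasureTheory

namespace Pool.Agent.H713R5.QJ

namespace SCL

theorem eval_sc (l : ℂ) (T : ℂ[X]) (w : ℂ) : (sc l T).eval w = l * T.eval (l⁻¹ * w) := by
  unfold sc
  rw [eval_mul, eval_C, eval_comp, eval_mul, eval_C, eval_X]

theorem ev_sc {l : ℂ} (hl : l ≠ 0) (T : ℂ[X]) (z : ℂ) : ev (sc l T) (l * z) = l * ev T z := by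
  unfold ev
  rw [eval_sc, ← mul_assoc, inv_mul_cancel₀ hl, one_mul]

theorem iter_sc {l : ℂ} (hl : l ≠ 0) (T : ℂ[X]) (k : ℕ) (z : ℂ) :
    (ev (sc l T))^[k] (l * z) = l * (ev T)^[k] z := by
  induction k generalizing z with
  | zero => rfl
  | succ k ih => rw [Function.iterate_succ_apply, ev_sc hl, ih, Function.iterate_succ_apply]

theorem iter_sc_fun {l : ℂ} (hl : l ≠ 0) (T : ℂ[X]) (k : ℕ) :
    (ev (sc l T))^[k] = fun w => l * (ev T)^[k] (l⁻¹ * w) := by
  funext w
  rw [← iter_sc hl, ← mul_assoc, mul_inv_cancel₀ hl, one_mul]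

theorem deriv_iter {l : ℂ} (hl : l ≠ 0) (T : ℂ[X]) (k : ℕ) (z : ℂ) :
    deriv ((ev (sc l T))^[k]) (l * z) = deriv ((ev T)^[k]) z := by
  rw [iter_sc_fun hl]
  rw [deriv_const_mul_field]
  have h := deriv_comp_mul_left l⁻¹ ((ev T)^[k]) (l * z)
  rw [h, ← mul_assoc l⁻¹ l z, inv_mul_cancel₀ hl, one_mul, smul_eq_mul, ← mul_assoc,
    mul_inv_cancel₀ hl, one_mul]

theorem good_of {l : ℂ} (hl : l ≠ 0) (T : ℂ[X]) (z : ℂ) (h : Good (ev T) z) :
    Good (ev (sc l T)) (l * z) := by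
  rcases h with h | ⟨P, hP, x, h1, h2, h3⟩
  · left
    simp only [iter_sc hl, norm_mul]
    exact h.const_mul_atTop (norm_pos_iff.2 hl)
  · right
    refine ⟨P, hP, l * x, ?_, ?_, ?_⟩
    · rw [iter_sc hl, h1]
    · rw [deriv_iter hl]; exact h2
    · simp only [iter_sc hl]
      exact h3.const_mul l

theorem ev_sc_inv {l : ℂ} (hl : l ≠ 0) (T : ℂ[X]) : ev (sc l⁻¹ (sc l T)) = ev T := by
  funext w
  unfold ev
  rw [eval_sc, eval_sc, inv_inv, ← mul_assoc, ← mul_assoc, inv_mul_cancel₀ hl, one_mul, one_mul]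

theorem good_iff {l : ℂ} (hl : l ≠ 0) (T : ℂ[X]) (z : ℂ) :
    Good (ev (sc l T)) (l * z) ↔ Good (ev T) z := by
  refine ⟨fun h => ?_, good_of hl T z⟩
  have h1 := good_of (inv_ne_zero hl) (sc l T) (l * z) h
  rw [ev_sc_inv hl, ← mul_assoc, inv_mul_cancel₀ hl, one_mul] at h1
  exact h1

theorem vol_mul (l : ℂ) (s : Set ℂ) : volume ((fun z : ℂ => l * z) '' s) =
    ENNReal.ofReal (‖l‖ ^ 2) * volume s := by
  have h := Measure.addHaar_image_linearMap (volume : Measure ℂ) (Algebra.lmul ℝ ℂ l) s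
  have h1 : LinearMap.det (Algebra.lmul ℝ ℂ l) = ‖l‖ ^ 2 := by
    rw [← Algebra.norm_apply, Algebra.norm_complex_apply, Complex.normSq_eq_norm_sq]
  rw [h1, abs_of_nonneg (by positivity)] at h
  exact h

end SCL

open SCL in
theorem scl_holds : StSCL := by
  intro l T hl
  refine ⟨?_, ?_, good_iff hl T, ?_, ?_⟩
  · unfold sc
    rw [natDegree_C_mul hl, natDegree_comp, natDegree_C_mul_X _ (inv_ne_zero hl), mul_one]
  · intro j
    unfold sc
    rw [coeff_C_mul, comp_C_mul_X_coeff]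
    ring
  · intro c
    have h : (derivative (sc l T)).eval (l * c) = (derivative T).eval c := by
      unfold sc
      rw [derivative_C_mul, derivative_comp, derivative_C_mul, derivative_X, mul_one, eval_mul,
        eval_C, eval_mul, eval_C, eval_comp, eval_mul, eval_C, eval_X, ← mul_assoc, ← mul_assoc,
        mul_inv_cancel₀ hl, one_mul, inv_mul_cancel₀ hl, one_mul]
    rw [h]
  · have h : {z : ℂ | ¬ Good (ev (sc l T)) z} = (fun z : ℂ => l * z) '' {z : ℂ | ¬ Good (ev T) z} := by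
      ext w
      constructor
      · intro hw
        refine ⟨l⁻¹ * w, ?_, ?_⟩
        · intro h1
          apply hw
          have h2 := good_of hl T _ h1
          rwa [← mul_assoc, mul_inv_cancel₀ hl, one_mul] at h2
        · show l * (l⁻¹ * w) = w
          rw [← mul_assoc, mul_inv_cancel₀ hl, one_mul]
      · rintro ⟨z, hz, rfl⟩
        intro h1
        exact hz ((good_iff hl T z).1 h1)
    rw [h, vol_mul]

end Pool.Agent.H713R5.QJ
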