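import Mathlib
import Pool.Agent.H713R5.QJ.Defs5

set_option autoImplicit false

open Topology Filter Metric Set Polynomial MeasureTheory
open Pool.Agent.H713R3.ZA

namespace Pool.Agent.H713R5.QJ

namespace TVFAM

theorem prod_root (a : ℂ) (n : ℕ) (x : PE n) (i : Fin n) :
    (dfam a n x).IsRoot (x (some i)) := by
  unfold dfam
  rw [IsRoot.def, eval_mul, eval_prod]
  rw [Finset.prod_eq_zero (Finset.mem_univ i) (by simp), mul_zero]

theorem dfam_coeff_top (a : ℂ) (n : ℕ) (x : PE n) :
    (dfam a n x).coeff n = a * ((n : ℂ) + 1) := by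
  unfold dfam
  rw [coeff_C_mul]
  have h2 : (∏ i : Fin n, (X - C (x (some i)))).Monic :=
    monic_prod_of_monic _ _ (fun i _ => monic_X_sub_C _)
  have h3 : (∏ i : Fin n, (X - C (x (some i)))).coeff n = 1 := by
    have := h2.coeff_natDegree
    rwa [Pool.Agent.H713R3.ZA.natDegree_prod] at this
  rw [h3, mul_one]

theorem coeff_dfam (a : ℂ) (n : ℕ) (x : PE n) (j : ℕ) (hj : j < n + 1) :
    (dfam a n x).coeff j = (fam a n x).coeff (j + 1) * ((j : ℂ) + 1) := by
  rw [coeff_fam_succ, if_pos hj]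
  have : (j : ℂ) + 1 ≠ 0 := Nat.cast_add_one_ne_zero j
  field_simp

/-- Cauchy root bound -/
theorem bdd {a : ℂ} (n : ℕ) (ha : a ≠ 0) {K : ℝ} (hK0 : 0 ≤ K) (x : PE n)
    (hcoef : ∀ j < n + 1 + 1, ‖(fam a n x).coeff j‖ ≤ K) :
    x ∈ ball (0 : PE n) (K / ‖a‖ + K + 2) := by
  have ha' : 0 < ‖a‖ := norm_pos_iff.2 ha
  rw [mem_ball_zero_iff, pi_norm_lt_iff (by positivity)]
  intro i
  have hdiv : 0 ≤ K / ‖a‖ := by positivity
  cases i with
  | none =>
    have h1 := hcoef 0 (by omega)
    rw [coeff_fam_zero] at h1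
    linarith
  | some i =>
    have htop := dfam_coeff_top a n x
    have hn1 : (0 : ℝ) < (n : ℝ) + 1 := by positivity
    have hne : (dfam a n x).coeff n ≠ 0 := by
      rw [htop]
      exact mul_ne_zero ha (Nat.cast_add_one_ne_zero n)
    have hp : dfam a n x ≠ 0 := by
      intro h0
      rw [h0, coeff_zero] at hne
      exact hne rfl
    have hdeg : (dfam a n x).natDegree = n :=
      le_antisymm (dfam_deg_le a n x) (le_natDegree_of_ne_zero hne)
    have hlead : ‖(dfam a n x).leadingCoeff‖ = ‖a‖ * ((n : ℝ) + 1) := by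
      unfold leadingCoeff
      rw [hdeg, htop, norm_mul]
      congr 1
      have : ((n : ℂ) + 1) = (((n : ℝ) + 1 : ℝ) : ℂ) := by push_cast; rfl
      rw [this, Complex.norm_real, Real.norm_of_nonneg hn1.le]
    have h1 := IsRoot.norm_lt_cauchyBound hp (prod_root a n x i)
    have h1' : ‖x (some i)‖ < ((dfam a n x).cauchyBound : ℝ) := by exact_mod_cast h1
    have hsup : ((Finset.range (dfam a n x).natDegree).sup fun j => ‖(dfam a n x).coeff j‖₊) ≤
        (⟨K * ((n : ℝ) + 1), by positivity⟩ : NNReal) := by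
      apply Finset.sup_le
      intro j hj
      rw [hdeg, Finset.mem_range] at hj
      rw [← NNReal.coe_le_coe]
      show ‖(dfam a n x).coeff j‖ ≤ K * ((n : ℝ) + 1)
      rw [coeff_dfam a n x j (by omega), norm_mul]
      have h2 : ‖((j : ℂ) + 1)‖ = (j : ℝ) + 1 := by
        have : ((j : ℂ) + 1) = (((j : ℝ) + 1 : ℝ) : ℂ) := by push_cast; rfl
        rw [this, Complex.norm_real, Real.norm_of_nonneg (by positivity)]
      rw [h2]
      have h3 : (j : ℝ) + 1 ≤ (n : ℝ) + 1 := by
        have : (j : ℝ) ≤ n := by exact_mod_cast hj.le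
        linarith
      exact mul_le_mul (hcoef (j + 1) (by omega)) h3 (by positivity) hK0
    have hcb : ((dfam a n x).cauchyBound : ℝ) ≤ K / ‖a‖ + 1 := by
      unfold cauchyBound
      rw [NNReal.coe_add, NNReal.coe_div, NNReal.coe_one, coe_nnnorm, hlead]
      have h4 := NNReal.coe_le_coe.2 hsup
      have h5 : K / ‖a‖ = K * ((n : ℝ) + 1) / (‖a‖ * ((n : ℝ) + 1)) := by
        rw [mul_div_mul_right _ _ hn1.ne']
      rw [h5]
      have h6 : ((((Finset.range (dfam a n x).natDegree).sup
          fun j => ‖(dfam a n x).coeff j‖₊) : NNReal) : ℝ) / (‖a‖ * ((n : ℝ) + 1)) ≤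
          K * ((n : ℝ) + 1) / (‖a‖ * ((n : ℝ) + 1)) :=
        div_le_div_of_nonneg_right h4 (by positivity)
      linarith
    linarith

/-- the constants -/
noncomputable def kk : ℕ → ℝ
  | 0 => 0
  | m + 1 => 1 + 4 * kk m

theorem kk_nonneg (m : ℕ) : 0 ≤ kk m := by
  induction m with
  | zero => exact le_refl _
  | succ m ih =>
    show 0 ≤ 1 + 4 * kk m
    linarith

/-- small `Dl` gives small coefficient differences -/
theorem coeff_of_Dl (a : ℂ) (n : ℕ) (x y : PE n) {n₀ : ℝ}
    (h : Pool.Agent.H713R3.ZA.Dl a n x y ≤ n₀) (j : ℕ) :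
    ‖(fam a n y).coeff j - (fam a n x).coeff j‖ ≤ Real.sqrt n₀ := by
  by_cases hj : j < n + 1 + 1
  · apply Real.le_sqrt_of_sq_le
    refine le_trans ?_ h
    unfold Pool.Agent.H713R3.ZA.Dl
    exact Finset.single_le_sum
      (f := fun j => ‖(fam a n y).coeff j - (fam a n x).coeff j‖ ^ 2)
      (fun _ _ => by positivity) (Finset.mem_range.2 hj)
  · have h1 : (fam a n y).coeff j = 0 :=
      Polynomial.coeff_eq_zero_of_natDegree_lt
        (lt_of_le_of_lt (natDegree_fam_le a n y) (by omega))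
    have h2 : (fam a n x).coeff j = 0 :=
      Polynomial.coeff_eq_zero_of_natDegree_lt
        (lt_of_le_of_lt (natDegree_fam_le a n x) (by omega))
    rw [h1, h2, sub_zero, norm_zero]
    exact Real.sqrt_nonneg _

open Classical in
/-- induction on the number of bad critical points -/
theorem claim {a : ℂ} {n : ℕ} {B c₀ : ℝ}
    (hcore : ∀ (x₁ : PE n) (n₀ : ℝ), 0 < n₀ →
      (∀ x : PE n, Pool.Agent.H713R3.ZA.Dl a n x₁ x ≤ n₀ → x ∈ ball (0 : PE n) B) →
      volume {z : ℂ | ¬ Good (fx a n x₁) z} < ENNReal.ofReal (c₀ * n₀ / 16) →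
      (∃ j : Fin n, ¬ Good (fx a n x₁) (x₁ (some j))) →
      ∃ x : PE n, Pool.Agent.H713R3.ZA.Dl a n x₁ x < n₀ ∧
        volume {z : ℂ | ¬ Good (fx a n x) z} < ENNReal.ofReal (c₀ * n₀) ∧
        (∀ i : Fin n, Good (fx a n x₁) (x₁ (some i)) → Good (fx a n x) (x (some i))) ∧
        ∃ j : Fin n, ¬ Good (fx a n x₁) (x₁ (some j)) ∧ Good (fx a n x) (x (some j)))
    (m : ℕ) : ∀ (x : PE n) (n₀ : ℝ), 0 < n₀ →
      (Finset.univ.filter (fun i : Fin n => ¬ Good (fx a n x) (x (some i)))).card ≤ m →
      volume {z : ℂ | ¬ Good (fx a n x) z} < ENNReal.ofReal (c₀ * n₀ / 16) →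
      (∀ y : PE n, (∀ j : ℕ, ‖(fam a n y).coeff j - (fam a n x).coeff j‖ ≤
        kk m * Real.sqrt n₀) → y ∈ ball (0 : PE n) B) →
      ∃ z : PE n, (∀ i : Fin n, Good (fx a n z) (z (some i))) ∧
        ∀ j : ℕ, ‖(fam a n z).coeff j - (fam a n x).coeff j‖ ≤ kk m * Real.sqrt n₀ := by
  induction m with
  | zero =>
    intro x n₀ hn₀ hcard hvol hR
    refine ⟨x, ?_, ?_⟩
    · intro i
      by_contra hi
      have : i ∈ Finset.univ.filter (fun i : Fin n => ¬ Good (fx a n x) (x (some i))) := by
        rw [Finset.mem_filter]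
        exact ⟨Finset.mem_univ _, hi⟩
      have h2 := Finset.card_pos.2 ⟨i, this⟩
      omega
    · intro j
      rw [sub_self, norm_zero]
      exact mul_nonneg (kk_nonneg _) (Real.sqrt_nonneg _)
  | succ m ih =>
    intro x n₀ hn₀ hcard hvol hR
    have hkm := kk_nonneg m
    have hs := Real.sqrt_nonneg n₀
    have hkk : kk (m + 1) = 1 + 4 * kk m := rfl
    by_cases hall : ∀ i : Fin n, Good (fx a n x) (x (some i))
    · refine ⟨x, hall, ?_⟩
      intro j
      rw [sub_self, norm_zero]
      exact mul_nonneg (kk_nonneg _) (Real.sqrt_nonneg _)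
    · push Not at hall
      obtain ⟨x', hD, hvol', hgood, j₀, hj₀, hj₀'⟩ := hcore x n₀ hn₀ (by
        intro y hy
        apply hR
        intro j
        refine (coeff_of_Dl a n x y hy j).trans ?_
        rw [hkk]
        nlinarith [mul_nonneg hkm hs]) hvol hall
      have hsq : Real.sqrt (16 * n₀) = 4 * Real.sqrt n₀ := by
        rw [Real.sqrt_mul (by norm_num)]
        congr 1
        rw [show (16 : ℝ) = 4 ^ 2 by norm_num, Real.sqrt_sq (by norm_num)]
      have hcard' : (Finset.univ.filter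
          (fun i : Fin n => ¬ Good (fx a n x') (x' (some i)))).card ≤ m := by
        have hlt : (Finset.univ.filter
            (fun i : Fin n => ¬ Good (fx a n x') (x' (some i)))).card <
            (Finset.univ.filter (fun i : Fin n => ¬ Good (fx a n x) (x (some i)))).card := by
          apply Finset.card_lt_card
          rw [Finset.ssubset_iff_of_subset]
          · refine ⟨j₀, ?_, ?_⟩
            · rw [Finset.mem_filter]
              exact ⟨Finset.mem_univ _, hj₀⟩
            · rw [Finset.mem_filter]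
              rintro ⟨-, h⟩
              exact h hj₀'
          · intro i hi
            rw [Finset.mem_filter] at hi ⊢
            refine ⟨Finset.mem_univ _, ?_⟩
            intro h
            exact hi.2 (hgood i h)
        omega
      obtain ⟨z, hz, hzc⟩ := ih x' (16 * n₀) (by positivity) hcard' (by
        have : c₀ * (16 * n₀) / 16 = c₀ * n₀ := by ring
        rw [this]
        exact hvol') (by
        intro y hy
        apply hR
        intro j
        have h1 := hy j
        have h2 := coeff_of_Dl a n x x' hD.le j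
        rw [hsq] at h1
        have h3 : ‖(fam a n y).coeff j - (fam a n x).coeff j‖ ≤
            ‖(fam a n y).coeff j - (fam a n x').coeff j‖ +
              ‖(fam a n x').coeff j - (fam a n x).coeff j‖ := by
          have := norm_add_le ((fam a n y).coeff j - (fam a n x').coeff j)
            ((fam a n x').coeff j - (fam a n x).coeff j)
          rwa [sub_add_sub_cancel] at this
        rw [hkk]
        nlinarith)
      refine ⟨z, hz, ?_⟩
      intro j
      have h1 := hzc j
      have h2 := coeff_of_Dl a n x x' hD.le j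
      rw [hsq] at h1
      have h3 : ‖(fam a n z).coeff j - (fam a n x).coeff j‖ ≤
          ‖(fam a n z).coeff j - (fam a n x').coeff j‖ +
            ‖(fam a n x').coeff j - (fam a n x).coeff j‖ := by
        have := norm_add_le ((fam a n z).coeff j - (fam a n x').coeff j)
          ((fam a n x').coeff j - (fam a n x).coeff j)
        rwa [sub_add_sub_cancel] at this
      rw [hkk]
      nlinarith

theorem dfam_zero (a : ℂ) (n : ℕ) : dfam a n 0 = C (a * ((n : ℂ) + 1)) * X ^ n := by
  unfold dfam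
  congr 1
  simp

theorem coeff_zero_le (a : ℂ) (n : ℕ) (j : ℕ) : ‖(fam a n 0).coeff j‖ ≤ ‖a‖ := by
  cases j with
  | zero =>
    rw [coeff_fam_zero]
    simp
  | succ j =>
    rw [coeff_fam_succ, dfam_zero, coeff_C_mul, coeff_X_pow]
    by_cases hj : j = n
    · subst hj
      have : (j : ℂ) + 1 ≠ 0 := Nat.cast_add_one_ne_zero j
      rw [if_pos (by omega), if_pos rfl, mul_one, mul_div_assoc, div_self this, mul_one]
    · rw [if_neg hj, mul_zero, zero_div]
      simp

theorem good_zero (a : ℂ) (n : ℕ) (hn : 1 ≤ n) (i : Fin n) :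
    Good (fx a n 0) ((0 : PE n) (some i)) := by
  have h0 : fx a n 0 0 = 0 := by
    show (fam a n 0).eval 0 = 0
    rw [← coeff_zero_eq_eval_zero, coeff_fam_zero]
    rfl
  have hd : deriv (fx a n 0) 0 = 0 := by
    have : deriv (fx a n 0) 0 = (derivative (fam a n 0)).eval 0 :=
      Polynomial.deriv (p := fam a n 0)
    rw [this, derivative_fam, dfam_zero]
    simp only [eval_mul, eval_C, eval_pow, eval_X]
    rw [zero_pow (by omega), mul_zero]
  right
  refine ⟨1, one_pos, 0, ?_, ?_, ?_⟩
  · rw [Function.iterate_one]; exact h0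
  · rw [Function.iterate_one, hd, norm_zero]; exact one_pos
  · have : (fun k : ℕ => (fx a n 0)^[1 * k] ((0 : PE n) (some i))) = fun _ => 0 := by
      funext k
      exact Function.iterate_fixed h0 _
    rw [this]
    exact tendsto_const_nhds

end TVFAM

theorem vfam_holds : StVFAM := by
  classical
  intro hcore a n A' ha hn hA'
  have ha' : 0 < ‖a‖ := norm_pos_iff.2 ha
  obtain ⟨c₀, hc₀, hc⟩ := hcore a n ((A' + 1) / ‖a‖ + (A' + 1) + 2) ha hn (by positivity)
  have hκ := TVFAM.kk_nonneg n
  set κ := TVFAM.kk n with hκdef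
  have hsc : 0 < Real.sqrt c₀ := Real.sqrt_pos.2 hc₀
  refine ⟨(1 + ‖a‖ + A') * (κ * (4 / Real.sqrt c₀)) + 1, by positivity, ?_⟩
  intro x₁ s hcoef hs hvol
  have hn₀ : 0 < 16 * s ^ 2 / c₀ := by positivity
  have hsq : Real.sqrt (16 * s ^ 2 / c₀) = 4 / Real.sqrt c₀ * s := by
    rw [Real.sqrt_div (by positivity), show 16 * s ^ 2 = (4 * s) ^ 2 by ring,
      Real.sqrt_sq (by positivity)]
    ring
  have hq0 : 0 ≤ κ * (4 / Real.sqrt c₀) := by positivity
  by_cases hsmall : κ * Real.sqrt (16 * s ^ 2 / c₀) ≤ 1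
  · obtain ⟨z, hz, hzc⟩ := TVFAM.claim hc n x₁ (16 * s ^ 2 / c₀) hn₀ (by
      refine (Finset.card_le_univ _).trans ?_
      simp) (by
      have : c₀ * (16 * s ^ 2 / c₀) / 16 = s ^ 2 := by
        field_simp
      rw [this]
      exact hvol) (by
      intro y hy
      apply TVFAM.bdd n ha (by positivity)
      intro j _
      have h1 := (hy j).trans hsmall
      have h2 := hcoef j
      have h4 : ‖(fam a n y).coeff j‖ ≤
          ‖(fam a n y).coeff j - (fam a n x₁).coeff j‖ + ‖(fam a n x₁).coeff j‖ := by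
        have := norm_add_le ((fam a n y).coeff j - (fam a n x₁).coeff j) ((fam a n x₁).coeff j)
        rwa [sub_add_cancel] at this
      linarith)
    refine ⟨z, ?_, hz⟩
    intro j
    refine (hzc j).trans ?_
    rw [← hκdef, hsq]
    have h1 : κ * (4 / Real.sqrt c₀ * s) = (κ * (4 / Real.sqrt c₀)) * s := by ring
    rw [h1]
    apply mul_le_mul_of_nonneg_right _ hs.le
    nlinarith [mul_nonneg hq0 ha'.le, mul_nonneg hq0 hA'.le]
  · push Not at hsmall
    rw [hsq] at hsmall
    refine ⟨0, ?_, TVFAM.good_zero a n hn⟩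
    intro j
    have h1 : ‖(fam a n 0).coeff j - (fam a n x₁).coeff j‖ ≤ ‖a‖ + A' := by
      refine (norm_sub_le _ _).trans ?_
      exact add_le_add (TVFAM.coeff_zero_le a n j) (hcoef j)
    refine h1.trans ?_
    have h2 : κ * (4 / Real.sqrt c₀ * s) = (κ * (4 / Real.sqrt c₀)) * s := by ring
    rw [h2] at hsmall
    have h3 : (‖a‖ + A') * 1 ≤ (‖a‖ + A') * ((κ * (4 / Real.sqrt c₀)) * s) :=
      mul_le_mul_of_nonneg_left hsmall.le (by positivity)
    have h4 : 0 ≤ (κ * (4 / Real.sqrt c₀)) * s := mul_nonneg hq0 hs.le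
    nlinarith

end Pool.Agent.H713R5.QJ
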