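import Mathlib
import Pool.Agent.H713R5.QJ.Defs5
import Pool.Agent.H713R5.QJ.TAPX
import Pool.Agent.H713R3.ZA.Mot1

/-!
Task VFIN: reduction of the quantitative theorem to monic polynomials (by helper403).
-/

set_option autoImplicit false

open Topology Filter Metric Set Polynomial MeasureTheory
open Pool.Agent.H713R3.ZA

namespace Pool.Agent.H713R5.QJ

namespace VFIN

/-- the Julia set is bounded -/
theorem js_fin (T : ℂ[X]) (h2 : 2 ≤ T.natDegree) : volume (JS T) < ⊤ := by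
  obtain ⟨R, hR1, hR⟩ := APX.escape_radius T h2
  have h1 : JS T ⊆ closedBall (0 : ℂ) R := by
    intro w hw
    rw [mem_closedBall_zero_iff]
    by_contra hcon
    push Not at hcon
    apply hw
    left
    exact APX.good_big (ev T) R hR1
      (fun w hw => hR T rfl rfl (fun j => by rw [sub_self, norm_zero]; exact zero_le_one) w hw) w hcon.le
  exact (measure_mono h1).trans_lt measure_closedBall_lt_top

theorem le_of_pow {A x : ℝ} (hA : 1 ≤ A) {n : ℕ} (hn : 1 ≤ n) (h : x ^ n ≤ A) : x ≤ A := by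
  by_contra hcon
  push Not at hcon
  have h1 : x ≤ x ^ n := le_self_pow₀ (by linarith) (by omega)
  linarith

theorem main (hSCL : StSCL) (hAPX : APXC) (hSURJ : StSURJ)
    (hV : ∀ (a : ℂ) (n : ℕ) (A' : ℝ), a ≠ 0 → 1 ≤ n → 0 < A' → ∃ C : ℝ, 0 < C ∧
      ∀ (x₁ : PE n) (s : ℝ), (∀ j : ℕ, ‖(fam a n x₁).coeff j‖ ≤ A') → 0 < s →
      volume {z : ℂ | ¬ Good (fx a n x₁) z} < ENNReal.ofReal (s ^ 2) →
      ∃ x : PE n, (∀ j : ℕ, ‖(fam a n x).coeff j - (fam a n x₁).coeff j‖ ≤ C * s) ∧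
        ∀ i : Fin n, Good (fx a n x) (x (some i)))
    (n : ℕ) (A : ℝ) (hn : 1 ≤ n) (hA : 1 ≤ A) : ∃ C : ℝ, 0 < C ∧ ∀ T : ℂ[X], T.natDegree = n + 1 →
    (∀ j : ℕ, ‖T.coeff j‖ ≤ A) → 1 / A ≤ ‖T.leadingCoeff‖ → volume (JS T) < ⊤ ∧
    ∀ ε : ℝ, C * Real.sqrt (volume (JS T)).toReal < ε →
      ∃ S : ℂ[X], S.natDegree = T.natDegree ∧ S.leadingCoeff = T.leadingCoeff ∧
        (∀ j : ℕ, ‖S.coeff j - T.coeff j‖ < ε) ∧
        ∀ c : ℂ, (derivative S).eval c = 0 → Good (ev S) c := by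
  have hA0 : 0 < A := by linarith
  obtain ⟨C₁, hC₁, hV1⟩ := hV 1 n (A ^ (n + 2) * (A + 1)) one_ne_zero hn (by positivity)
  refine ⟨A ^ (n + 3) * C₁, by positivity, ?_⟩
  intro T hT hTA hTl
  have hfin := js_fin T (by omega)
  refine ⟨hfin, ?_⟩
  intro ε hε
  obtain ⟨ar, har⟩ : ∃ ar : ℝ, ar = (volume (JS T)).toReal := ⟨_, rfl⟩
  have har0 : 0 ≤ ar := by rw [har]; exact ENNReal.toReal_nonneg
  have hvol : volume (JS T) = ENNReal.ofReal ar := by
    rw [har, ENNReal.ofReal_toReal hfin.ne]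
  rw [← har] at hε
  have hε0 : 0 < ε := lt_of_le_of_lt (by positivity) hε
  -- the small number
  obtain ⟨e, he0, he1, he⟩ : ∃ e : ℝ, 0 < e ∧ e ≤ 1 ∧
      A ^ (n + 3) * C₁ * Real.sqrt (ar + 2 * e) + e < ε := by
    have hc : Continuous (fun e : ℝ => A ^ (n + 3) * C₁ * Real.sqrt (ar + 2 * e) + e) := by
      fun_prop
    have h1 : Tendsto (fun e : ℝ => A ^ (n + 3) * C₁ * Real.sqrt (ar + 2 * e) + e) (𝓝 0)
        (𝓝 (A ^ (n + 3) * C₁ * Real.sqrt ar)) := by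
      have := hc.tendsto 0
      simpa using this
    have h2 := h1.eventually (gt_mem_nhds hε)
    rw [Metric.eventually_nhds_iff] at h2
    obtain ⟨δ, hδ, h3⟩ := h2
    refine ⟨min (δ / 2) 1, lt_min (by linarith) one_pos, min_le_right _ _, h3 ?_⟩
    rw [dist_zero_right, Real.norm_eq_abs, abs_of_pos (lt_min (by linarith) one_pos)]
    exact lt_of_le_of_lt (min_le_left _ _) (by linarith)
  obtain ⟨S₁, hS1d, hS1l, hS1c, hS1v⟩ := hAPX T (by omega) e he0
  rw [hvol, ← ENNReal.ofReal_add har0 he0.le] at hS1v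
  -- the scaling
  obtain ⟨l, hl⟩ := IsAlgClosed.exists_pow_nat_eq T.leadingCoeff (by omega : 0 < n)
  have hTl0 : T.leadingCoeff ≠ 0 := by
    rw [← norm_pos_iff]
    exact lt_of_lt_of_le (by positivity) hTl
  have hl0 : l ≠ 0 := by
    rintro rfl
    rw [zero_pow (by omega)] at hl
    exact hTl0 hl.symm
  have hln : ‖l‖ ^ n = ‖T.leadingCoeff‖ := by rw [← norm_pow, hl]
  have hlA : ‖l‖ ≤ A := le_of_pow hA hn (by rw [hln]; exact hTA _)
  have hlA' : ‖l‖⁻¹ ≤ A := by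
    apply le_of_pow hA hn
    rw [inv_pow, hln]
    have h1 : 0 < ‖T.leadingCoeff‖ := norm_pos_iff.2 hTl0
    rw [inv_le_comm₀ h1 hA0, ← one_div]
    exact hTl
  have hlp : 0 < ‖l‖ := norm_pos_iff.2 hl0
  -- the monic polynomial
  obtain ⟨k1, k2, -, -, k5⟩ := hSCL l S₁ hl0
  have hS1top : S₁.coeff (n + 1) = T.leadingCoeff := by
    rw [← hS1l]
    have : S₁.natDegree = n + 1 := by rw [hS1d, hT]
    rw [Polynomial.leadingCoeff, this]
  have hS2top : (sc l S₁).coeff (n + 1) = 1 := by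
    rw [k2, hS1top, ← hl, pow_succ, inv_pow]
    field_simp
  obtain ⟨x₁, hx₁⟩ := hSURJ n (sc l S₁) hn (by rw [k1, hS1d, hT])
  rw [hS2top] at hx₁
  have hfx : fx 1 n x₁ = ev (sc l S₁) := by
    funext w
    unfold fx ev
    rw [hx₁]
  have hS1A : ∀ j, ‖S₁.coeff j‖ ≤ A + 1 := by
    intro j
    have h1 : S₁.coeff j = (S₁.coeff j - T.coeff j) + T.coeff j := by ring
    rw [h1]
    refine (norm_add_le _ _).trans ?_
    have := hS1c j
    have := hTA j
    linarith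
  have hcoef : ∀ j, ‖(fam 1 n x₁).coeff j‖ ≤ A ^ (n + 2) * (A + 1) := by
    intro j
    rw [hx₁]
    rcases Nat.lt_or_ge (n + 1) j with hj | hj
    · rw [coeff_eq_zero_of_natDegree_lt (by rw [k1, hS1d, hT]; exact hj), norm_zero]
      positivity
    · rw [k2, norm_mul, norm_mul, norm_pow, norm_inv]
      have h1 : ‖l‖ * ‖l‖⁻¹ ^ j ≤ A ^ (n + 2) := by
        calc ‖l‖ * ‖l‖⁻¹ ^ j ≤ A * A ^ j :=
              mul_le_mul hlA (pow_le_pow_left₀ (by positivity) hlA' _) (by positivity) hA0.le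
          _ = A ^ (j + 1) := by rw [pow_succ]; ring
          _ ≤ A ^ (n + 2) := pow_le_pow_right₀ hA (by omega)
      exact mul_le_mul h1 (hS1A j) (norm_nonneg _) (by positivity)
  obtain ⟨s, hs⟩ : ∃ s : ℝ, s = A * Real.sqrt (ar + 2 * e) := ⟨_, rfl⟩
  have hs2 : s ^ 2 = A ^ 2 * (ar + 2 * e) := by
    rw [hs, mul_pow, Real.sq_sqrt (by positivity)]
  have hs0 : 0 < s := by
    rw [hs]
    exact mul_pos hA0 (Real.sqrt_pos.2 (by positivity))
  have hvol2 : volume {z : ℂ | ¬ Good (fx 1 n x₁) z} < ENNReal.ofReal (s ^ 2) := by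
    rw [hfx, k5]
    calc ENNReal.ofReal (‖l‖ ^ 2) * volume {z : ℂ | ¬ Good (ev S₁) z}
        ≤ ENNReal.ofReal (A ^ 2) * ENNReal.ofReal (ar + e) :=
          mul_le_mul' (ENNReal.ofReal_le_ofReal (pow_le_pow_left₀ hlp.le hlA 2)) hS1v
      _ = ENNReal.ofReal (A ^ 2 * (ar + e)) := (ENNReal.ofReal_mul (by positivity)).symm
      _ < ENNReal.ofReal (s ^ 2) := by
          rw [ENNReal.ofReal_lt_ofReal_iff (by positivity), hs2]
          exact mul_lt_mul_of_pos_left (by linarith) (by positivity)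
  obtain ⟨x, hx1, hx2⟩ := hV1 x₁ s hcoef hs0 hvol2
  -- the result
  obtain ⟨m1, m2, m3, m4, -⟩ := hSCL l⁻¹ (fam 1 n x) (inv_ne_zero hl0)
  have hdeg : (sc l⁻¹ (fam 1 n x)).natDegree = n + 1 := by
    rw [m1, natDegree_fam one_ne_zero]
  refine ⟨sc l⁻¹ (fam 1 n x), by rw [hdeg, hT], ?_, ?_, ?_⟩
  · rw [Polynomial.leadingCoeff, hdeg, m2, inv_inv, coeff_fam_top, mul_one, pow_succ, ← hl]
    field_simp
  · intro j
    rcases Nat.lt_or_ge (n + 1) j with hj | hj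
    · rw [coeff_eq_zero_of_natDegree_lt (by rw [hdeg]; exact hj),
        coeff_eq_zero_of_natDegree_lt (by rw [hT]; exact hj), sub_zero, norm_zero]
      exact hε0
    · have e1 : (sc l⁻¹ (fam 1 n x)).coeff j - S₁.coeff j =
          (l⁻¹ * l ^ j) * ((fam 1 n x).coeff j - (fam 1 n x₁).coeff j) := by
        rw [m2, hx₁, k2, inv_inv, mul_sub]
        congr 1
        have h1 : l⁻¹ * l ^ j * (l * l⁻¹ ^ j * S₁.coeff j) =
            (l⁻¹ * l) * (l ^ j * l⁻¹ ^ j) * S₁.coeff j := by ring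
        rw [h1, inv_mul_cancel₀ hl0, ← mul_pow, mul_inv_cancel₀ hl0, one_pow, one_mul, one_mul]
      have e2 : ‖(sc l⁻¹ (fam 1 n x)).coeff j - S₁.coeff j‖ ≤ A ^ (n + 2) * (C₁ * s) := by
        rw [e1, norm_mul, norm_mul, norm_inv, norm_pow]
        have h1 : ‖l‖⁻¹ * ‖l‖ ^ j ≤ A ^ (n + 2) := by
          calc ‖l‖⁻¹ * ‖l‖ ^ j ≤ A * A ^ j :=
                mul_le_mul hlA' (pow_le_pow_left₀ hlp.le hlA _) (by positivity) hA0.le
            _ = A ^ (j + 1) := by rw [pow_succ]; ring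
            _ ≤ A ^ (n + 2) := pow_le_pow_right₀ hA (by omega)
        exact mul_le_mul h1 (hx1 j) (norm_nonneg _) (by positivity)
      have e3 : A ^ (n + 2) * (C₁ * s) = A ^ (n + 3) * C₁ * Real.sqrt (ar + 2 * e) := by
        rw [hs, pow_succ A (n + 2)]
        ring
      have e4 : (sc l⁻¹ (fam 1 n x)).coeff j - T.coeff j =
          ((sc l⁻¹ (fam 1 n x)).coeff j - S₁.coeff j) + (S₁.coeff j - T.coeff j) := by ring
      rw [e4]
      refine lt_of_le_of_lt (norm_add_le _ _) ?_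
      have := hS1c j
      rw [e3] at e2
      linarith
  · intro c hc
    have h1 : l⁻¹ * (l * c) = c := by rw [← mul_assoc, inv_mul_cancel₀ hl0, one_mul]
    have h2 := (m4 (l * c)).1 (by rw [h1]; exact hc)
    have h3 : deriv (fx 1 n x) (l * c) = 0 := by
      have : fx 1 n x = fun w => (fam 1 n x).eval w := rfl
      rw [this, Polynomial.deriv]
      exact h2
    obtain ⟨i, hi⟩ := exists_crit one_ne_zero h3
    have h4 := hx2 i
    rw [← hi] at h4
    have h5 := (m3 (l * c)).2 h4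
    rwa [h1] at h5

end VFIN

theorem vfin_holds : StVFIN := by
  intro hSCL hAPX hSURJ hV d A hd hA
  obtain ⟨n, rfl⟩ : ∃ n, d = n + 1 := ⟨d - 1, by omega⟩
  obtain ⟨C, hC, h⟩ := VFIN.main hSCL hAPX hSURJ hV n (max A 1) (by omega) (le_max_right _ _)
  refine ⟨C, hC, fun T hT hTA hTl => h T hT (fun j => (hTA j).trans (le_max_left _ _)) ?_⟩
  exact (one_div_le_one_div_of_le hA (le_max_left _ _)).trans hTl

end Pool.Agent.H713R5.QJ
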