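import Mathlib
import Pool.Agent.H713R5.QJ.Main
import Pool.Agent.H713R5.QJ.Core7
import Pool.Agent.H713R5.QJ.TSCL
import Pool.Agent.H713R5.QJ.TAPXG
import Pool.Agent.H713R5.QJ.TVFAM
import Pool.Agent.H713R5.QJ.TVFIN

set_option autoImplicit false

open Topology Filter Metric Set Polynomial MeasureTheory
open Pool.Agent.H713R3.ZA

namespace Pool.Agent.H713R5.QJ

theorem apxc : APXC := fun T hd ε hε => apxg_holds opg_holds af_holds pf_holds inj_holds
  surl_holds curve_holds sgl_holds pbl_holds app_holds aps_holds T hd ε hε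

/-- The quantitative theorem. -/
theorem vt : VT := vfin_holds scl_holds apxc surj_holds (vfam_holds (corev hh))

end Pool.Agent.H713R5.QJ
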