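import Mathlib
import Pool.Agent.H713R5.QJ.Defs
import Pool.Agent.Helper405.ConvA

/-! Task APS of project QJ (helper15): points of Siegel discs and of their preimages become good. -/

set_option autoImplicit false

open Topology Filter Metric Set Polynomial MeasureTheory

namespace Pool.Agent.H713R5.QJ

namespace APS

theorem ev_close {T S : ℂ[X]} (hd : S.natDegree = T.natDegree) {ε R : ℝ} (hR : 1 ≤ R)
    (hc : ∀ j : ℕ, ‖S.coeff j - T.coeff j‖ ≤ ε) {w : ℂ} (hw : ‖w‖ ≤ R) :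
    ‖ev S w - ev T w‖ ≤ (T.natDegree + 1) * (ε * R ^ T.natDegree) := by
  have hε : 0 ≤ ε := (norm_nonneg _).trans (hc 0)
  unfold ev
  rw [Polynomial.eval_eq_sum_range, Polynomial.eval_eq_sum_range, hd, ← Finset.sum_sub_distrib]
  refine (norm_sum_le _ _).trans ?_
  have h1 : ∀ i ∈ Finset.range (T.natDegree + 1),
      ‖S.coeff i * w ^ i - T.coeff i * w ^ i‖ ≤ ε * R ^ T.natDegree := by
    intro i hi
    have hi' : i ≤ T.natDegree := Nat.lt_succ_iff.mp (Finset.mem_range.mp hi)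
    rw [← sub_mul, norm_mul, norm_pow]
    have h2 : ‖w‖ ^ i ≤ R ^ T.natDegree :=
      (pow_le_pow_left₀ (norm_nonneg _) hw i).trans (pow_le_pow_right₀ hR hi')
    exact mul_le_mul (hc i) h2 (by positivity) hε
  refine (Finset.sum_le_card_nsmul _ _ _ h1).trans ?_
  rw [Finset.card_range, nsmul_eq_mul]
  push_cast
  exact le_rfl

theorem ev_diff (T : ℂ[X]) : Differentiable ℂ (ev T) := T.differentiable

theorem iter_diff (T : ℂ[X]) (m : ℕ) : Differentiable ℂ ((ev T)^[m]) :=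
  (ev_diff T).iterate m

theorem bound_on {f : ℂ → ℂ} (hf : Continuous f) (R : ℝ) :
    ∃ M : ℝ, 0 ≤ M ∧ ∀ w : ℂ, ‖w‖ ≤ R → ‖f w‖ ≤ M := by
  obtain ⟨M, hM⟩ := (isCompact_closedBall (0 : ℂ) R).exists_bound_of_continuousOn hf.continuousOn
  refine ⟨max M 0, le_max_right _ _, fun w hw => (hM w ?_).trans (le_max_left _ _)⟩
  rwa [mem_closedBall_zero_iff]

theorem iter_close {T : ℂ[X]} {S : ℝ → ℂ[X]} {t₀ C₀ : ℝ} (ht₀ : 0 < t₀) (hC₀ : 0 < C₀)
    (deg : ∀ t : ℝ, 0 ≤ t → t ≤ t₀ → (S t).natDegree = T.natDegree)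
    (cf : ∀ t : ℝ, 0 ≤ t → t ≤ t₀ → ∀ j : ℕ, ‖(S t).coeff j - T.coeff j‖ ≤ C₀ * t)
    (m : ℕ) (R : ℝ) :
    ∃ C : ℝ, 0 ≤ C ∧ ∀ t : ℝ, 0 ≤ t → t ≤ t₀ → ∀ w : ℂ, ‖w‖ ≤ R →
      ‖(ev (S t))^[m] w - (ev T)^[m] w‖ ≤ C * t := by
  induction m with
  | zero => exact ⟨0, le_rfl, fun t h0 h1 w hw => by simp⟩
  | succ m ih =>
    obtain ⟨C, hC, h⟩ := ih
    obtain ⟨R', hR', hb⟩ := bound_on (iter_diff T m).continuous R
    set R1 : ℝ := R' + C * t₀ + 1 with hR1
    have hR1' : 1 ≤ R1 := by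
      have : 0 ≤ C * t₀ := by positivity
      linarith
    obtain ⟨L, hL, hbL⟩ := bound_on (f := deriv (ev T))
      ((ev_diff T).contDiff (n := 1)).continuous_deriv_one R1
    refine ⟨(T.natDegree + 1) * (C₀ * R1 ^ T.natDegree) + L * C, by positivity, ?_⟩
    intro t h0 h1 w hw
    rw [Function.iterate_succ_apply', Function.iterate_succ_apply']
    have hu := h t h0 h1 w hw
    have hbu := hb w hw
    set u := (ev T)^[m] w with hu'
    set ut := (ev (S t))^[m] w with hut'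
    have hCt : C * t ≤ C * t₀ := mul_le_mul_of_nonneg_left h1 hC
    have hut : ‖ut‖ ≤ R1 := by
      calc ‖ut‖ = ‖u + (ut - u)‖ := by congr 1; ring
        _ ≤ ‖u‖ + ‖ut - u‖ := norm_add_le _ _
        _ ≤ R' + C * t := add_le_add hbu hu
        _ ≤ R1 := by linarith
    have hu1 : ‖u‖ ≤ R1 := by
      have : 0 ≤ C * t₀ := by positivity
      linarith
    have e1 : ‖ev (S t) ut - ev T ut‖ ≤ (T.natDegree + 1) * (C₀ * t * R1 ^ T.natDegree) :=
      ev_close (deg t h0 h1) hR1' (cf t h0 h1) hut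
    have e2 : ‖ev T ut - ev T u‖ ≤ L * ‖ut - u‖ := by
      apply Convex.norm_image_sub_le_of_norm_deriv_le (s := closedBall (0 : ℂ) R1)
      · intro x _; exact (ev_diff T) x
      · intro x hx; exact hbL x (mem_closedBall_zero_iff.mp hx)
      · exact convex_closedBall _ _
      · exact mem_closedBall_zero_iff.mpr hu1
      · exact mem_closedBall_zero_iff.mpr hut
    calc ‖ev (S t) ut - ev T u‖ = ‖(ev (S t) ut - ev T ut) + (ev T ut - ev T u)‖ := by
          congr 1; ring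
      _ ≤ ‖ev (S t) ut - ev T ut‖ + ‖ev T ut - ev T u‖ := norm_add_le _ _
      _ ≤ (T.natDegree + 1) * (C₀ * t * R1 ^ T.natDegree) + L * (C * t) :=
          add_le_add e1 (e2.trans (mul_le_mul_of_nonneg_left hu hL))
      _ = _ := by ring

theorem deriv_cycle {f : ℂ → ℂ} (hf : Differentiable ℂ f) {p : ℕ} (hp : 0 < p) {y : ℂ}
    (hy : f^[p] y = y) (hne : deriv (f^[p]) y ≠ 0) (m : ℕ) :
    f^[p] (f^[m] y) = f^[m] y ∧ deriv (f^[p]) (f^[m] y) = deriv (f^[p]) y := by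
  induction m with
  | zero => exact ⟨hy, rfl⟩
  | succ m ih =>
    obtain ⟨h1, h2⟩ := ih
    rw [Function.iterate_succ_apply']
    set u := f^[m] y with hu
    have hcomm : f^[p] (f u) = f (f^[p] u) := by
      rw [← Function.iterate_succ_apply, Function.iterate_succ_apply']
    have hd : Differentiable ℂ (f^[p]) := hf.iterate p
    have e1 : deriv (fun x => f^[p] (f x)) u = deriv (f^[p]) (f u) * deriv f u :=
      deriv_comp (h₂ := f^[p]) (h := f) u (hd _) (hf _)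
    have e2 : deriv (fun x => f (f^[p] x)) u = deriv f (f^[p] u) * deriv (f^[p]) u :=
      deriv_comp (h₂ := f) (h := f^[p]) u (hf _) (hd _)
    have e3 : (fun x => f^[p] (f x)) = (fun x => f (f^[p] x)) := by
      funext x
      rw [← Function.iterate_succ_apply, Function.iterate_succ_apply']
    have hfu : deriv f u ≠ 0 := by
      intro h0
      obtain ⟨q, rfl⟩ : ∃ q, p = q + 1 := ⟨p - 1, by omega⟩
      have e4 : deriv (f^[q + 1]) u = deriv (f^[q]) (f u) * deriv f u := by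
        have : f^[q + 1] = f^[q] ∘ f := Function.iterate_succ f q
        rw [this]
        exact deriv_comp (h₂ := f^[q]) (h := f) u ((hf.iterate q) _) (hf _)
      rw [h0, mul_zero] at e4
      exact hne (h2 ▸ e4)
    refine ⟨by rw [hcomm, h1], ?_⟩
    rw [e3, e2, h1, h2] at e1
    have := mul_right_cancel₀ hfu (by rw [← e1]; ring : deriv (f^[p]) (f u) * deriv f u =
      deriv (f^[p]) y * deriv f u)
    exact this

theorem good_of {f : ℂ → ℂ} (hf : Differentiable ℂ f) {p : ℕ} (hp : 0 < p) {y : ℂ}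
    (hy : f^[p] y = y) (hne : deriv (f^[p]) y ≠ 0) (hlt : ‖deriv (f^[p]) y‖ < 1) {n : ℕ} {z : ℂ}
    (hz : Tendsto (fun i : ℕ => f^[p * i] (f^[n] z)) atTop (𝓝 y)) : Good f z := by
  right
  refine ⟨p, hp, f^[p * n - n] y, ?_, ?_, ?_⟩
  · exact (deriv_cycle hf hp hy hne _).1
  · rw [(deriv_cycle hf hp hy hne _).2]; exact hlt
  · rw [← tendsto_add_atTop_iff_nat n]
    have hc : Continuous (f^[p * n - n]) := (hf.iterate _).continuous
    have h1 := (hc.tendsto y).comp hz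
    refine h1.congr (fun i => ?_)
    simp only [Function.comp_apply]
    rw [← Function.iterate_add_apply, ← Function.iterate_add_apply]
    congr 2
    have hle : n ≤ p * n := Nat.le_mul_of_pos_left n hp
    rw [mul_add]
    omega

/-- Lipschitz bound for a holomorphic function on a neighbourhood of a compact subset. -/
theorem lip_near {g : ℂ → ℂ} {U K : Set ℂ} (hU : IsOpen U) (hg : DifferentiableOn ℂ g U)
    (hK : IsCompact K) (hKU : K ⊆ U) :
    ∃ η M : ℝ, 0 < η ∧ 0 ≤ M ∧ ∀ v ∈ K, ∀ u : ℂ, ‖u - v‖ ≤ η → u ∈ U ∧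
      ‖g u - g v‖ ≤ M * ‖u - v‖ := by
  obtain ⟨η, hη, hsub⟩ := hK.exists_cthickening_subset_open hU hKU
  have hKc : IsCompact (cthickening η K) := hK.cthickening
  have hdc : ContinuousOn (deriv g) (cthickening η K) := (hg.deriv hU).continuousOn.mono hsub
  obtain ⟨M, hM⟩ := hKc.exists_bound_of_continuousOn hdc
  refine ⟨η, max M 0, hη, le_max_right _ _, fun v hv u hu => ?_⟩
  have hball : closedBall v η ⊆ cthickening η K := closedBall_subset_cthickening hv η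
  have hum : u ∈ closedBall v η := by rw [mem_closedBall, dist_eq_norm]; exact hu
  refine ⟨hsub (hball hum), ?_⟩
  apply Convex.norm_image_sub_le_of_norm_deriv_le (s := closedBall v η)
  · intro x hx; exact hg.differentiableAt (hU.mem_nhds (hsub (hball hx)))
  · intro x hx; exact (hM x (hball hx)).trans (le_max_left _ _)
  · exact convex_closedBall _ _
  · exact mem_closedBall_self hη.le
  · exact hum

end APS

theorem aps_holds : StAPS := by
  intro hSGL T n p ρ r h S y k t₀ C₀ z hT hPC hr hρ hρ' hd hi hconj hz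
  obtain ⟨w0, hw0, hw0z⟩ := hz
  have hw0' : ‖w0‖ < r := by rwa [mem_ball_zero_iff] at hw0
  obtain ⟨hO, g, hgd, hgl, hgder⟩ := Pool.Agent.Helper405.Conv.inv_facts isOpen_ball hd hi
  -- radii
  obtain ⟨q, hq⟩ : ∃ q : ℝ, q = (r - ‖w0‖) / 5 := ⟨_, rfl⟩
  have hq0 : 0 < q := by rw [hq]; linarith
  have hq5 : ‖w0‖ + 5 * q = r := by rw [hq]; ring
  -- the compact set
  set K : Set ℂ := h '' closedBall 0 (‖w0‖ + 4 * q) with hK
  have hcb : closedBall (0 : ℂ) (‖w0‖ + 4 * q) ⊆ ball 0 r :=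
    closedBall_subset_ball (by linarith)
  have hKc : IsCompact K := (isCompact_closedBall _ _).image_of_continuousOn
    (hd.continuousOn.mono hcb)
  have hKU : K ⊆ h '' ball 0 r := image_mono hcb
  obtain ⟨η, M, hη, hM, hlip⟩ := APS.lip_near hO hgd hKc hKU
  have hmemK : ∀ w : ℂ, ‖w‖ ≤ ‖w0‖ + 4 * q → h w ∈ K := fun w hw =>
    ⟨w, mem_closedBall_zero_iff.mpr hw, rfl⟩
  have hball : ∀ w : ℂ, ‖w‖ ≤ ‖w0‖ + 4 * q → w ∈ ball (0 : ℂ) r := fun w hw =>
    hcb (mem_closedBall_zero_iff.mpr hw)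
  have hhg : ∀ u ∈ h '' ball 0 r, h (g u) = u ∧ g u ∈ ball (0 : ℂ) r := by
    rintro _ ⟨w, hw, rfl⟩
    rw [hgl w hw]
    exact ⟨rfl, hw⟩
  -- bound for K
  obtain ⟨RK, hRK⟩ := hKc.isBounded.exists_norm_le
  obtain ⟨C1, hC1, hcl⟩ := APS.iter_close hPC.t0 hPC.C0 hPC.deg hPC.cf p RK
  obtain ⟨C2, hC2, hcl2⟩ := APS.iter_close hPC.t0 hPC.C0 hPC.deg hPC.cf n (‖z‖ + 1)
  have hC₀ := hPC.C0
  -- SGL
  obtain ⟨s₀, hs₀, hsgl⟩ := hSGL ρ (‖w0‖ + 3 * q) (‖w0‖ + 2 * q) (M * C1 + 2 * (M * C₀)) hρ hρ'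
    (by positivity) (by linarith) (by positivity)
  -- continuity of T^n at z
  have hcont : ∃ δ : ℝ, 0 < δ ∧ δ ≤ 1 ∧ ∀ z' ∈ ball z δ,
      ‖(ev T)^[n] z' - (ev T)^[n] z‖ < η / 2 ∧ M * ‖(ev T)^[n] z' - (ev T)^[n] z‖ < q / 2 := by
    have hc : Tendsto (fun z' => (ev T)^[n] z' - (ev T)^[n] z) (𝓝 z) (𝓝 0) := by
      have := ((APS.iter_diff T n).continuous.tendsto z).sub_const ((ev T)^[n] z)
      rwa [sub_self] at this
    have h1 : Tendsto (fun z' => ‖(ev T)^[n] z' - (ev T)^[n] z‖) (𝓝 z) (𝓝 0) := by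
      simpa using hc.norm
    have h2 : Tendsto (fun z' => M * ‖(ev T)^[n] z' - (ev T)^[n] z‖) (𝓝 z) (𝓝 0) := by
      simpa using h1.const_mul M
    have h3 := ((tendsto_order.mp h1).2 (η / 2) (by linarith)).and
      ((tendsto_order.mp h2).2 (q / 2) (by linarith))
    obtain ⟨δ, hδ, hδ'⟩ := Metric.eventually_nhds_iff_ball.mp h3
    exact ⟨min δ 1, lt_min hδ one_pos, min_le_right _ _, fun z' hz' =>
      hδ' z' (ball_subset_ball (min_le_left _ _) hz')⟩
  obtain ⟨δ, hδ, hδ1, hcont⟩ := hcont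
  -- smallness of t
  have hsmall : ∃ t₁ : ℝ, 0 < t₁ ∧ ∀ t : ℝ, 0 < t → t < t₁ → t ≤ t₀ ∧ t < 1 ∧ C1 * t ≤ η ∧
      C₀ * t ≤ η ∧ M * (C₀ * t) ≤ q ∧ C2 * t < η / 2 ∧ M * (C2 * t) < q / 2 ∧
      1 - (1 - t) ^ k < s₀ := by
    have e : ∀ c : ℝ, Tendsto (fun t : ℝ => c * t) (𝓝 0) (𝓝 0) := by
      intro c
      simpa using (tendsto_id (x := 𝓝 (0 : ℝ))).const_mul c
    have e8 : Tendsto (fun t : ℝ => 1 - (1 - t) ^ k) (𝓝 0) (𝓝 0) := by
      have : Continuous (fun t : ℝ => 1 - (1 - t) ^ k) := by fun_prop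
      simpa using this.tendsto 0
    have h3 := ((((((((tendsto_order.mp (tendsto_id (x := 𝓝 (0 : ℝ)))).2 _ hPC.t0).and
      ((tendsto_order.mp (tendsto_id (x := 𝓝 (0 : ℝ)))).2 1 one_pos)).and
      ((tendsto_order.mp (e C1)).2 _ hη)).and
      ((tendsto_order.mp (e C₀)).2 _ hη)).and
      ((tendsto_order.mp (e (M * C₀))).2 _ hq0)).and
      ((tendsto_order.mp (e C2)).2 (η / 2) (by linarith))).and
      ((tendsto_order.mp (e (M * C2))).2 (q / 2) (by linarith))).and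
      ((tendsto_order.mp e8).2 _ hs₀)
    obtain ⟨t₁, ht₁, h4⟩ := Metric.eventually_nhds_iff.mp h3
    refine ⟨t₁, ht₁, fun t ht htt => ?_⟩
    obtain ⟨⟨⟨⟨⟨⟨⟨a1, a2⟩, a3⟩, a4⟩, a5⟩, a6⟩, a7⟩, a8⟩ := h4 (y := t) (by
      rw [Real.dist_eq, sub_zero, abs_of_pos ht]; exact htt)
    refine ⟨a1.le, a2, a3.le, a4.le, ?_, a6, ?_, a8⟩
    · rw [← mul_assoc]; exact a5.le
    · rw [← mul_assoc]; exact a7
  obtain ⟨t₁, ht₁, hsmall⟩ := hsmall
  refine ⟨δ, t₁, hδ, ht₁, fun t ht htt z' hz' => ?_⟩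
  obtain ⟨b1, b2, b3, b4, b5, b6, b7, b8⟩ := hsmall t ht htt
  set f := ev (S t) with hf
  have hfd : Differentiable ℂ f := APS.ev_diff _
  have hfp : Differentiable ℂ (f^[p]) := hfd.iterate p
  -- the fixed point
  have hyx := hPC.yx t ht.le b1
  have h0K : h 0 ∈ K := hmemK 0 (by rw [norm_zero]; positivity)
  have hg0 : g (h 0) = 0 := hgl 0 (mem_ball_self hr)
  obtain ⟨hyU, hyl⟩ := hlip (h 0) h0K (y t) (hyx.trans b4)
  set v := g (y t) with hv
  have hvn : ‖v‖ ≤ M * (C₀ * t) := by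
    rw [hg0, sub_zero] at hyl
    exact hyl.trans (mul_le_mul_of_nonneg_left hyx hM)
  have hhv : h v = y t := (hhg _ hyU).1
  have hvb : v ∈ ball (0 : ℂ) r := (hhg _ hyU).2
  have hfix : f^[p] (y t) = y t := hPC.fixt t ht.le b1
  have hmul : deriv (f^[p]) (y t) = ((1 - t : ℝ) : ℂ) ^ k * ρ := hPC.mul t ht.le b1
  -- closeness
  have hclose : ∀ u : ℂ, ‖u‖ ≤ ‖w0‖ + 4 * q → f^[p] (h u) ∈ h '' ball 0 r ∧
      ‖g (f^[p] (h u)) - ρ * u‖ ≤ M * (C1 * t) := by
    intro u hu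
    have h1 := hcl t ht.le b1 (h u) (hRK _ (hmemK u hu))
    rw [hconj u (hball u hu)] at h1
    have hρu : ‖ρ * u‖ ≤ ‖w0‖ + 4 * q := by rw [norm_mul, hρ, one_mul]; exact hu
    obtain ⟨h2, h3⟩ := hlip (h (ρ * u)) (hmemK _ hρu) (f^[p] (h u)) (h1.trans b3)
    rw [hgl _ (hball _ hρu)] at h3
    exact ⟨h2, h3.trans (mul_le_mul_of_nonneg_left h1 hM)⟩
  set G : ℂ → ℂ := fun w => g (f^[p] (h (v + w))) - v with hG
  have hvw : ∀ w ∈ ball (0 : ℂ) (‖w0‖ + 3 * q), ‖v + w‖ ≤ ‖w0‖ + 4 * q := by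
    intro w hw
    rw [mem_ball_zero_iff] at hw
    calc ‖v + w‖ ≤ ‖v‖ + ‖w‖ := norm_add_le _ _
      _ ≤ q + (‖w0‖ + 3 * q) := add_le_add (hvn.trans b5) hw.le
      _ = _ := by ring
  have hGd : DifferentiableOn ℂ G (ball 0 (‖w0‖ + 3 * q)) := by
    intro w hw
    have h1 := hvw w hw
    have hb := hball _ h1
    have d1 : DifferentiableAt ℂ h (v + w) := hd.differentiableAt (isOpen_ball.mem_nhds hb)
    have d2 : DifferentiableAt ℂ (fun w => h (v + w)) w :=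
      DifferentiableAt.comp (g := h) (f := fun w => v + w) w d1 (by fun_prop)
    have d3 : DifferentiableAt ℂ (fun w => f^[p] (h (v + w))) w :=
      DifferentiableAt.comp (g := f^[p]) (f := fun w => h (v + w)) w (hfp _) d2
    have d4 : DifferentiableAt ℂ g (f^[p] (h (v + w))) :=
      hgd.differentiableAt (hO.mem_nhds (hclose _ h1).1)
    have d5 : DifferentiableAt ℂ (fun w => g (f^[p] (h (v + w)))) w :=
      DifferentiableAt.comp (g := g) (f := fun w => f^[p] (h (v + w))) w d4 d3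
    exact (d5.sub_const v).differentiableWithinAt
  have hs : t ≤ 1 - (1 - t) ^ k := by
    obtain ⟨k', rfl⟩ : ∃ k', k = k' + 1 := ⟨k - 1, by have := hPC.kp; omega⟩
    have h1 : (1 - t) ^ k' ≤ 1 := pow_le_one₀ (by linarith) (by linarith)
    have h2 : (1 - t) ^ (k' + 1) ≤ 1 - t := by
      rw [pow_succ]
      exact mul_le_of_le_one_left (by linarith) h1
    linarith
  have hGρ : ∀ w ∈ ball (0 : ℂ) (‖w0‖ + 3 * q),
      ‖G w - ρ * w‖ ≤ (M * C1 + 2 * (M * C₀)) * (1 - (1 - t) ^ k) := by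
    intro w hw
    have h1 := (hclose _ (hvw w hw)).2
    have e1 : G w - ρ * w = (g (f^[p] (h (v + w))) - ρ * (v + w)) + (ρ * v - v) := by
      rw [hG]; ring
    have e2 : ‖ρ * v - v‖ ≤ 2 * (M * (C₀ * t)) := by
      calc ‖ρ * v - v‖ ≤ ‖ρ * v‖ + ‖v‖ := norm_sub_le _ _
        _ = 2 * ‖v‖ := by rw [norm_mul, hρ]; ring
        _ ≤ _ := by linarith
    calc ‖G w - ρ * w‖ ≤ ‖g (f^[p] (h (v + w))) - ρ * (v + w)‖ + ‖ρ * v - v‖ := by
          rw [e1]; exact norm_add_le _ _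
      _ ≤ M * (C1 * t) + 2 * (M * (C₀ * t)) := add_le_add h1 e2
      _ = (M * C1 + 2 * (M * C₀)) * t := by ring
      _ ≤ _ := mul_le_mul_of_nonneg_left hs (by positivity)
  have hG0 : G 0 = 0 := by
    simp only [hG]
    rw [add_zero, hhv, hfix, ← hv, sub_self]
  have hGder : deriv G 0 = ρ * ((1 - (1 - (1 - t) ^ k) : ℝ) : ℂ) := by
    have c1 : HasDerivAt (fun w : ℂ => v + w) 1 0 := by
      simpa using (hasDerivAt_id (0 : ℂ)).const_add v
    have c2 : HasDerivAt h (deriv h v) (v + 0) := by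
      rw [add_zero]
      exact (hd.differentiableAt (isOpen_ball.mem_nhds hvb)).hasDerivAt
    have c3 : HasDerivAt (fun w : ℂ => h (v + w)) (deriv h v * 1) 0 :=
      HasDerivAt.comp (h₂ := h) (h := fun w => v + w) 0 c2 c1
    have c4 : HasDerivAt (f^[p]) (((1 - t : ℝ) : ℂ) ^ k * ρ) (h (v + 0)) := by
      rw [add_zero, hhv, ← hmul]
      exact (hfp _).hasDerivAt
    have c5 : HasDerivAt (fun w : ℂ => f^[p] (h (v + w))) (((1 - t : ℝ) : ℂ) ^ k * ρ *
        (deriv h v * 1)) 0 :=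
      HasDerivAt.comp (h₂ := f^[p]) (h := fun w => h (v + w)) 0 c4 c3
    have c6 : HasDerivAt g (deriv h v)⁻¹ (f^[p] (h (v + 0))) := by
      rw [add_zero, hhv, hfix, ← hhv]
      exact hgder v hvb
    have c7 : HasDerivAt (fun w : ℂ => g (f^[p] (h (v + w)))) ((deriv h v)⁻¹ *
        (((1 - t : ℝ) : ℂ) ^ k * ρ * (deriv h v * 1))) 0 :=
      HasDerivAt.comp (h₂ := g) (h := fun w => f^[p] (h (v + w))) 0 c6 c5
    have c8 := (c7.sub_const v).deriv
    have hne : deriv h v ≠ 0 := Pool.Agent.Helper405.Conv.deriv_ne_zero_of_injOn isOpen_ball hd hi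
      hvb
    rw [hG, c8]
    have : ((1 - (1 - (1 - t) ^ k) : ℝ) : ℂ) = ((1 - t : ℝ) : ℂ) ^ k := by
      push_cast; ring
    rw [this]
    field_simp
  have hs0 : 0 < 1 - (1 - t) ^ k := lt_of_lt_of_le ht hs
  have hmain := hsgl (1 - (1 - t) ^ k) hs0 b8 G hGd hGρ hG0 hGder
  -- the point
  have hz'1 : ‖z'‖ ≤ ‖z‖ + 1 := by
    rw [mem_ball, dist_eq_norm] at hz'
    calc ‖z'‖ = ‖z + (z' - z)‖ := by congr 1; ring
      _ ≤ ‖z‖ + ‖z' - z‖ := norm_add_le _ _
      _ ≤ _ := by linarith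
  obtain ⟨d1, d2⟩ := hcont z' hz'
  have d3 := hcl2 t ht.le b1 z' hz'1
  set u := f^[n] z' with hu
  have d4 : ‖u - h w0‖ ≤ C2 * t + ‖(ev T)^[n] z' - (ev T)^[n] z‖ := by
    rw [hw0z]
    calc ‖u - (ev T)^[n] z‖ = ‖(u - (ev T)^[n] z') + ((ev T)^[n] z' - (ev T)^[n] z)‖ := by
          congr 1; ring
      _ ≤ _ := (norm_add_le _ _).trans (add_le_add d3 le_rfl)
  have hw0K : h w0 ∈ K := hmemK w0 (by linarith)
  obtain ⟨d5, d6⟩ := hlip (h w0) hw0K u (by linarith)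
  rw [hgl w0 hw0] at d6
  set w := g u - v with hw
  have d7 : M * ‖u - h w0‖ ≤ q := by
    calc M * ‖u - h w0‖ ≤ M * (C2 * t + ‖(ev T)^[n] z' - (ev T)^[n] z‖) :=
          mul_le_mul_of_nonneg_left d4 hM
      _ = M * (C2 * t) + M * ‖(ev T)^[n] z' - (ev T)^[n] z‖ := by ring
      _ ≤ q := by linarith
  have hwn : w ∈ closedBall (0 : ℂ) (‖w0‖ + 2 * q) := by
    rw [mem_closedBall_zero_iff]
    calc ‖w‖ = ‖w0 + (g u - w0) - v‖ := by rw [hw]; congr 1; ring
      _ ≤ ‖w0 + (g u - w0)‖ + ‖v‖ := norm_sub_le _ _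
      _ ≤ ‖w0‖ + ‖g u - w0‖ + ‖v‖ := by gcongr; exact norm_add_le _ _
      _ ≤ ‖w0‖ + q + q := by
          gcongr
          · exact d6.trans d7
          · exact hvn.trans b5
      _ = _ := by ring
  obtain ⟨hin, hlim⟩ := hmain w hwn
  have hconj2 : ∀ i : ℕ, f^[p * i] u = h (v + G^[i] w) := by
    intro i
    induction i with
    | zero =>
      simp only [Nat.mul_zero, Function.iterate_zero, id]
      rw [hw, add_sub_cancel, (hhg _ d5).1]
    | succ i ih =>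
      rw [Nat.mul_succ, Nat.add_comm, Function.iterate_add_apply, ih,
        Function.iterate_succ_apply' G]
      have h1 := hvw _ (hin i)
      have h2 : v + G (G^[i] w) = g (f^[p] (h (v + G^[i] w))) := by
        show v + (g (f^[p] (h (v + G^[i] w))) - v) = _
        ring
      rw [h2, (hhg _ (hclose _ h1).1).1]
  have hmne : deriv (f^[p]) (y t) ≠ 0 := by
    rw [hmul]
    apply mul_ne_zero
    · apply pow_ne_zero
      rw [Ne, Complex.ofReal_eq_zero]
      linarith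
    · rw [← norm_ne_zero_iff, hρ]; exact one_ne_zero
  have hmlt : ‖deriv (f^[p]) (y t)‖ < 1 := by
    rw [hmul, norm_mul, hρ, mul_one, norm_pow, Complex.norm_real, Real.norm_of_nonneg (by linarith)]
    linarith
  apply APS.good_of hfd hPC.pp hfix hmne hmlt (n := n)
  have hch : ContinuousAt h v := (hd.differentiableAt (isOpen_ball.mem_nhds hvb)).continuousAt
  have h5 : Tendsto (fun i : ℕ => v + G^[i] w) atTop (𝓝 v) := by
    simpa using hlim.const_add v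
  have h6 := hch.tendsto.comp h5
  rw [hhv] at h6
  refine h6.congr (fun i => ?_)
  simp only [Function.comp_apply]
  rw [hconj2 i]

end Pool.Agent.H713R5.QJ
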