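import Mathlib
import Pool.Agent.H713R5.QJ.Defs3

set_option autoImplicit false

open Topology Filter Metric Set Polynomial MeasureTheory
open Pool.Agent.H713R3.ZA

namespace Pool.Agent.H713R5.QJ

theorem atm_holds : StATM := by
  intro f P k u hf hP hk h
  obtain ⟨z, h1, h2, h3⟩ := h
  refine ⟨z, ?_, ?_, ?_⟩
  · rw [Function.iterate_mul]
    exact Function.iterate_fixed h1 k
  · have hd : DifferentiableAt ℂ (f^[P]) z := (hf.iterate P).differentiableAt
    have h4 : HasDerivAt (f^[P * k]) (deriv (f^[P]) z ^ k) z := by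
      rw [Function.iterate_mul]
      exact HasDerivAt.iterate z hd.hasDerivAt h1 k
    rw [h4.deriv, norm_pow]
    exact pow_lt_one₀ (norm_nonneg _) h2 hk.ne'
  · have h5 : Tendsto (fun m : ℕ => k * m) atTop atTop :=
      tendsto_id.const_mul_atTop' hk
    have h6 := h3.comp h5
    refine h6.congr fun m => ?_
    simp only [Function.comp_apply]
    rw [mul_assoc]

end Pool.Agent.H713R5.QJ
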