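import Mathlib
import Pool.Agent.H713R5.QJ.Defs1

set_option autoImplicit false

open Topology Filter Metric Set Polynomial MeasureTheory
open Pool.Agent.H713R3.ZA

namespace Pool.Agent.H713R5.QJ

namespace CRS

/-- the derivative of the iterate as a product -/
noncomputable def DD (f : ℂ → ℂ) (m : ℕ) (s : ℂ) : ℂ := ∏ l ∈ Finset.range m, deriv f (f^[l] s)

theorem DD_zero (f : ℂ → ℂ) (s : ℂ) : DD f 0 s = 1 := by simp [DD]

theorem DD_succ (f : ℂ → ℂ) (m : ℕ) (s : ℂ) : DD f (m + 1) s = DD f m s * deriv f (f^[m] s) := by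
  unfold DD
  rw [Finset.prod_range_succ]

theorem DD_add (f : ℂ → ℂ) (m k : ℕ) (s : ℂ) :
    DD f (m + k) s = DD f m s * DD f k (f^[m] s) := by
  induction k with
  | zero => rw [add_zero, DD_zero, mul_one]
  | succ k ih =>
    rw [← add_assoc, DD_succ, ih, DD_succ, ← Function.iterate_add_apply, add_comm k m, mul_assoc]

theorem iter_mul (f : ℂ → ℂ) (m q : ℕ) (s : ℂ) (h : f^[m] s = s) : f^[m * q] s = s := by
  induction q with
  | zero => rfl
  | succ q ih => rw [Nat.mul_succ, Function.iterate_add_apply, h, ih]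

theorem DD_mul (f : ℂ → ℂ) (m q : ℕ) (s : ℂ) (h : f^[m] s = s) :
    DD f (m * q) s = DD f m s ^ q := by
  induction q with
  | zero => rw [mul_zero, DD_zero, pow_zero]
  | succ q ih => rw [Nat.mul_succ, DD_add, ih, iter_mul f m q s h, pow_succ]

theorem DD_deriv (f : ℂ → ℂ) (hf : Differentiable ℂ f) (m : ℕ) (s : ℂ) :
    HasDerivAt (f^[m]) (DD f m s) s := by
  induction m with
  | zero =>
    rw [DD_zero]
    exact hasDerivAt_id s
  | succ m ih =>
    rw [DD_succ, Function.iterate_succ', mul_comm]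
    exact (hf (f^[m] s)).hasDerivAt.comp s ih

/-- the core computation -/
theorem core (f : ℂ → ℂ) (P b m : ℕ) (s lam : ℂ) (hP : f^[P] s = s) (hl : DD f P s = lam)
    (hb : DD f b s ≠ 0) (h : f^[b + m] s = f^[b] s) :
    DD f (b + m) s ^ P = DD f b s ^ P * lam ^ m := by
  have h1 : f^[m] (f^[b] s) = f^[b] s := by
    rw [← Function.iterate_add_apply, add_comm m b, h]
  have h2 : f^[P] (f^[b] s) = f^[b] s := by
    rw [← Function.iterate_add_apply, add_comm P b, Function.iterate_add_apply, hP]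
  have h3 : DD f P (f^[b] s) = lam := by
    have e1 := DD_add f b P s
    have e2 := DD_add f P b s
    rw [hP, hl] at e2
    rw [add_comm b P, e2] at e1
    have e3 : DD f b s * lam = DD f b s * DD f P (f^[b] s) := by rw [← e1, mul_comm]
    exact (mul_left_cancel₀ hb e3).symm
  have h4 : DD f m (f^[b] s) ^ P = lam ^ m := by
    rw [← DD_mul f m P _ h1, mul_comm m P, DD_mul f P m _ h2, h3]
  rw [DD_add, mul_pow, h4]

theorem core2 (f : ℂ → ℂ) (P b k : ℕ) (s lam : ℂ) (hP : f^[P] s = s) (hl : DD f P s = lam)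
    (hb : DD f b s ≠ 0) (hk : DD f k s ≠ 0) (h : f^[k] s = f^[b] s) :
    (DD f k s / DD f b s) ^ P * lam ^ b = lam ^ k := by
  rw [div_pow, div_mul_eq_mul_div, div_eq_iff (pow_ne_zero _ hb)]
  rcases le_total b k with hbk | hbk
  · obtain ⟨m, rfl⟩ := Nat.exists_eq_add_of_le hbk
    rw [core f P b m s lam hP hl hb h, pow_add]
    ring
  · obtain ⟨m, rfl⟩ := Nat.exists_eq_add_of_le hbk
    rw [core f P k m s lam hP hl hk h.symm, pow_add]
    ring

/-- orbits of attracted points -/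
theorem orb (k0 : StKO0) (k1 : StKO1) (k2 : StKO2) (k3 : StKO3) (a : ℂ) (n P : ℕ) (ha : a ≠ 0)
    (hn : 1 ≤ n) (hP : 0 < P) (x : PE n) (u : ℂ) (hu : (x, u) ∈ A0 a n P) (m : ℕ) :
    (x, (fx a n x)^[m] u) ∈ A0 a n P ∧
    SP (fx a n x) P ((fx a n x)^[m] u) = (fx a n x)^[m] (SP (fx a n x) P u) ∧
    LP (fx a n x) P ((fx a n x)^[m] u) = LP (fx a n x) P u ∧
    KP (fx a n x) P ((fx a n x)^[m] u) =
      DD (fx a n x) m (SP (fx a n x) P u) * KP (fx a n x) P u ∧
    DD (fx a n x) m (SP (fx a n x) P u) ≠ 0 := by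
  have hf : Differentiable ℂ (fx a n x) := (fam a n x).differentiable
  obtain ⟨-, -, -, hstep, -⟩ := k0 (fx a n x) P hf hP
  have h2 := (k2 k0 k1 k3 a n P ha hn hP).2
  induction m with
  | zero =>
    refine ⟨hu, rfl, rfl, ?_, ?_⟩
    · rw [DD_zero, one_mul]
      rfl
    · rw [DD_zero]
      exact one_ne_zero
  | succ m ih =>
    obtain ⟨i1, i2, i3, i4, i5⟩ := ih
    obtain ⟨-, j1, j2, j3, -⟩ := h2 x _ i1
    obtain ⟨s1, s2⟩ := hstep _ i1.1
    rw [Function.iterate_succ_apply', Function.iterate_succ_apply', DD_succ]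
    refine ⟨j1, ?_, ?_, ?_, ?_⟩
    · rw [s1, i2]
    · rw [s2, i3]
    · rw [j3, i2, i4]
      ring
    · refine mul_ne_zero i5 ?_
      rw [← i2]
      exact j2

end CRS

open CRS in
theorem crs_holds : StCRS := by
  intro k0 k1 k2 k3 a n P M N B R₃ lam₀ lam₁ r₁ r₂ r' τ ρ ψ Es Ee rf ap F0 γ H ha hn hP hKL hGD
    hlam hr' hr'1 hτ hPCE hVal
  have horb := orb k0 k1 k2 k3 a n P ha hn hP
  have h0ρ : (0 : ℂ) ∈ ball (0 : ℂ) ρ := mem_ball_self hGD.hρ
  have hdf : ∀ x : PE n, Differentiable ℂ (fx a n x) := fun x => (fam a n x).differentiable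
  have hsk : ∀ (x : PE n) (u : ℂ), (x, u) ∈ A0 a n P →
      Sk (fx a n x) P u (SP (fx a n x) P u) := fun x u hu => (k0 _ P (hdf x) hP).2.1 u hu.1
  -- the data at the time `t`
  have hfix : ∀ (x : PE n) (u : ℂ), (x, u) ∈ A0 a n P → ∀ b : ℕ,
      (fx a n x)^[P] ((fx a n x)^[b] (SP (fx a n x) P u)) =
        (fx a n x)^[b] (SP (fx a n x) P u) := by
    intro x u hu b
    rw [← Function.iterate_add_apply, add_comm P b, Function.iterate_add_apply, (hsk x u hu).1]
  have hmul : ∀ (x : PE n) (u : ℂ), (x, u) ∈ A0 a n P → ∀ b : ℕ,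
      deriv ((fx a n x)^[P]) ((fx a n x)^[b] (SP (fx a n x) P u)) = LP (fx a n x) P u := by
    intro x u hu b
    obtain ⟨-, e2, e3, -, -⟩ := horb x u hu b
    rw [← e3, ← e2]
    rfl
  let s0 : Fin n → ℕ → ℂ := fun i b =>
    (fx a n (γ 0))^[b] (SP (fx a n (γ 0)) P (γ 0 (some i)))
  let pp : Fin n → ℕ → ℂ := fun i b =>
    KP (fx a n (γ 0)) P ((fx a n (γ 0))^[b] (γ 0 (some i)))
  let la : Fin n → ℂ := fun i => LP (fx a n (γ 0)) P (γ 0 (some i))
  have hla : ∀ i ∈ Es, la i ≠ 0 := fun i hi => (hGD.A0s 0 h0ρ i hi).2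
  have hpp : ∀ i ∈ Es, ∀ b, pp i b ≠ 0 := by
    intro i hi b
    obtain ⟨-, -, -, e4, e5⟩ := horb (γ 0) _ (hGD.A0s 0 h0ρ i hi) b
    show KP (fx a n (γ 0)) P ((fx a n (γ 0))^[b] (γ 0 (some i))) ≠ 0
    rw [e4]
    exact mul_ne_zero e5 (hGD.kne 0 h0ρ i hi)
  let Bs : Fin n → ℕ → Fin n → ℕ → Set ℂ := fun i0 j i b =>
    {w | i ∈ Es ∧ w ∈ ball (s0 i b) r₁ ∧ ∃ z : ℂ, z ^ P * la i ^ b = la i ^ (j + ap i0) ∧
      KP (fx a n (γ 0)) P w * pp i (ap i0) =
        z * pp i b * KP (fx a n (γ 0)) P (γ 0 (some i0))}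
  have hBs : ∀ i0 j i b, (Bs i0 j i b).Finite := by
    intro i0 j i b
    by_cases hi : i ∈ Es
    · have hA := hGD.A0s 0 h0ρ i hi
      have hzf : {z : ℂ | z ^ P * la i ^ b = la i ^ (j + ap i0)}.Finite := by
        refine (Polynomial.nthRoots P (la i ^ (j + ap i0) / la i ^ b)).toFinset.finite_toSet.subset
          fun z hz => ?_
        rw [Finset.mem_coe, Multiset.mem_toFinset, Polynomial.mem_nthRoots hP,
          eq_div_iff (pow_ne_zero _ (hla i hi))]
        exact hz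
      refine Set.Finite.of_injOn (f := fun w => KP (fx a n (γ 0)) P w)
        (t := (fun z => z * pp i b * KP (fx a n (γ 0)) P (γ 0 (some i0)) / pp i (ap i0)) ''
          {z : ℂ | z ^ P * la i ^ b = la i ^ (j + ap i0)}) ?_ ?_ (hzf.image _)
      · rintro w ⟨-, -, z, hz1, hz2⟩
        refine ⟨z, hz1, ?_⟩
        show z * pp i b * KP (fx a n (γ 0)) P (γ 0 (some i0)) / pp i (ap i0) = _
        rw [← hz2, mul_div_cancel_right₀ _ (hpp i hi _)]
      · rintro w ⟨-, hw, -⟩ w' ⟨-, hw', -⟩ hww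
        have hc := hKL.close (γ 0) (hGD.γB 0 h0ρ) (s0 i b) (hfix _ _ hA b)
          (by rw [hmul _ _ hA b]; exact (hlam i hi).1)
          (by rw [hmul _ _ hA b]; exact (hlam i hi).2) w hw w' hw'
        have hww' : KP (fx a n (γ 0)) P w = KP (fx a n (γ 0)) P w' := hww
        rw [hww', sub_self, zero_sub, norm_neg] at hc
        have : ‖w - w'‖ = 0 := by
          have := norm_nonneg (w - w')
          linarith
        rwa [norm_eq_zero, sub_eq_zero] at this
    · refine Set.Finite.subset Set.finite_empty ?_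
      rintro w ⟨h, -⟩
      exact absurd h hi
  refine ⟨⋃ (i0 : Fin n) (j ∈ Finset.range (N + 1)) (i : Fin n) (b ∈ Finset.range P),
    Bs i0 j i b, ?_, ?_⟩
  · refine Set.finite_iUnion fun i0 => ?_
    refine Set.Finite.biUnion (Finset.finite_toSet _) fun j _ => ?_
    refine Set.finite_iUnion fun i => ?_
    exact Set.Finite.biUnion (Finset.finite_toSet _) fun b _ => hBs i0 j i b
  · intro t ht i0 hi0 j hj w hw hHw
    obtain ⟨i, hi, hrfi, b, hb, hwb, hKw⟩ := id hw
    obtain ⟨hH1, hH2⟩ := hVal t ht i hi hrfi b hb w hw hwb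
    have hAi := hGD.A0s t ht i hi
    have hA0 := hGD.A0s t ht i0 hi0
    obtain ⟨-, f2, f3, f4, f5⟩ := horb (γ t) _ hAi b
    obtain ⟨-, g2, g3, g4, g5⟩ := horb (γ t) _ hA0 j
    -- the sink of `H t w`
    have hS : Sk (fx a n (γ t)) P (H t w)
        ((fx a n (γ t))^[b] (SP (fx a n (γ t)) P (γ t (some i)))) := by
      refine (hKL.att (γ t) (hGD.γB t ht) _ (hfix _ _ hAi b) ?_ ?_ (H t w) ?_).1
      · rw [hmul _ _ hAi b, hGD.lam t ht i hi]
        exact (hlam i hi).1
      · rw [hmul _ _ hAi b, hGD.lam t ht i hi]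
        exact (hlam i hi).2
      · rw [mem_ball, dist_eq_norm]
        exact hH1.trans hr'1
    have hSP := (k0 _ P (hdf (γ t)) hP).1 _ _ hS
    rw [← hHw, g2] at hSP
    -- the reference point
    have hrel := hGD.rel t ht i0 hi0
    have hmem := hGD.ref.mem i0 hi0
    have hidem := hGD.ref.idem i0 hi0
    have hi1 : rf i0 = i := by
      by_contra hne
      refine hGD.dis t ht (rf i0) hmem i hi hidem hrfi hne ((P - b) + (j + ap i0)) ?_
      rw [Function.iterate_add_apply, Function.iterate_add_apply _ j (ap i0), ← hrel, hSP,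
        ← Function.iterate_add_apply, Nat.sub_add_cancel hb.le]
      exact (hsk _ _ hAi).1.symm
    rw [hi1] at hrel
    have hrat := hGD.rat t ht i0 hi0
    rw [hi1] at hrat
    obtain ⟨-, e2, e3, e4, e5⟩ := horb (γ t) _ hAi (ap i0)
    have hco : (fx a n (γ t))^[j + ap i0] (SP (fx a n (γ t)) P (γ t (some i))) =
        (fx a n (γ t))^[b] (SP (fx a n (γ t)) P (γ t (some i))) := by
      rw [Function.iterate_add_apply, ← hrel, hSP]
    have hDk : DD (fx a n (γ t)) (j + ap i0) (SP (fx a n (γ t)) P (γ t (some i))) =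
        DD (fx a n (γ t)) (ap i0) (SP (fx a n (γ t)) P (γ t (some i))) *
        DD (fx a n (γ t)) j (SP (fx a n (γ t)) P (γ t (some i0))) := by
      rw [add_comm j, DD_add, ← hrel]
    have hDk0 : DD (fx a n (γ t)) (j + ap i0) (SP (fx a n (γ t)) P (γ t (some i))) ≠ 0 := by
      rw [hDk]
      exact mul_ne_zero e5 g5
    have hDP : DD (fx a n (γ t)) P (SP (fx a n (γ t)) P (γ t (some i))) = la i := by
      rw [← (DD_deriv _ (hdf (γ t)) P _).deriv]
      have := hGD.lam t ht i hi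
      exact this
    have hz := core2 (fx a n (γ t)) P b (j + ap i0) _ (la i) (hsk _ _ hAi).1 hDP f5 hDk0 hco
    have hq := hGD.kne t ht i hi
    simp only [Set.mem_iUnion]
    refine ⟨i0, j, Finset.mem_range.2 (by omega), i, b, Finset.mem_range.2 hb, hi, ?_,
      DD (fx a n (γ t)) (j + ap i0) (SP (fx a n (γ t)) P (γ t (some i))) /
        DD (fx a n (γ t)) b (SP (fx a n (γ t)) P (γ t (some i))), hz, ?_⟩
    · rw [mem_ball, dist_eq_norm]
      exact hwb.trans hr'1
    · rw [← hHw, g4, f4] at hH2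
      rw [e4] at hrat
      show KP (fx a n (γ 0)) P w * KP (fx a n (γ 0)) P ((fx a n (γ 0))^[ap i0] (γ 0 (some i))) =
        _ * KP (fx a n (γ 0)) P ((fx a n (γ 0))^[b] (γ 0 (some i))) *
          KP (fx a n (γ 0)) P (γ 0 (some i0))
      rw [div_mul_eq_mul_div, div_mul_eq_mul_div, eq_div_iff f5, hDk]
      refine mul_right_cancel₀ hq ?_
      generalize KP (fx a n (γ 0)) P w = Kw at *
      generalize KP (fx a n (γ 0)) P ((fx a n (γ 0))^[ap i0] (γ 0 (some i))) = pa at *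
      generalize KP (fx a n (γ 0)) P ((fx a n (γ 0))^[b] (γ 0 (some i))) = pb at *
      generalize KP (fx a n (γ 0)) P (γ 0 (some i0)) = k00 at *
      generalize KP (fx a n (γ t)) P (γ t (some i)) = q at *
      generalize KP (fx a n (γ t)) P (γ t (some i0)) = q0 at *
      generalize DD (fx a n (γ t)) b (SP (fx a n (γ t)) P (γ t (some i))) = Db at *
      generalize DD (fx a n (γ t)) j (SP (fx a n (γ t)) P (γ t (some i0))) = Dj at *
      generalize DD (fx a n (γ t)) (ap i0) (SP (fx a n (γ t)) P (γ t (some i))) = Da at *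
      -- hH2 : Dj * q0 * pb = Kw * (Db * q), hrat : q0 * pa = k00 * (Da * q)
      calc Kw * pa * Db * q = (Kw * (Db * q)) * pa := by ring
        _ = Dj * q0 * pb * pa := by rw [← hH2]
        _ = Dj * pb * (q0 * pa) := by ring
        _ = Dj * pb * (k00 * (Da * q)) := by rw [hrat]
        _ = Da * Dj * pb * k00 * q := by ring

end Pool.Agent.H713R5.QJ
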