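import Mathlib
import Pool.Agent.H713R5.QJ.Defs

set_option autoImplicit false

open Topology Filter Metric Set Polynomial MeasureTheory

namespace Pool.Agent.H713R5.QJ

namespace PBLAux

lemma quad (f : ℂ → ℂ) (r C : ℝ) (hr : 0 < r)
    (hf : DifferentiableOn ℂ f (ball 0 r)) (hb : ∀ z ∈ ball (0:ℂ) r, ‖f z‖ ≤ C)
    (f0 : f 0 = 0) (f'0 : deriv f 0 = 0) (z : ℂ) (hz : ‖z‖ ≤ r / 2) :
    ‖f z‖ ≤ 20 * C / r ^ 2 * ‖z‖ ^ 2 := by
  have hC : 0 ≤ C := le_trans (norm_nonneg _) (hb 0 (by simpa using hr))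
  have hd : DifferentiableOn ℂ (deriv f) (ball 0 r) := hf.deriv isOpen_ball
  -- bound for the derivative
  have h1 : ∀ w : ℂ, ‖w‖ < 3 * r / 4 → ‖deriv f w‖ ≤ 4 * C / r := by
    intro w hw
    have hsub : closedBall w (r / 4) ⊆ ball (0:ℂ) r := by
      intro v hv
      rw [mem_closedBall, dist_eq_norm] at hv
      rw [mem_ball_zero_iff]
      have : ‖v‖ ≤ ‖v - w‖ + ‖w‖ := by
        have := norm_add_le (v - w) w
        simpa using this
      linarith
    have h := Complex.norm_deriv_le_of_forall_mem_sphere_norm_le (c := w) (R := r / 4) (C := C)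
      (f := f) (by positivity) ((hf.mono hsub).diffContOnCl_ball (le_refl _))
      (fun v hv => hb v (hsub (sphere_subset_closedBall hv)))
    calc ‖deriv f w‖ ≤ C / (r / 4) := h
      _ = 4 * C / r := by field_simp
  have h2 : ∀ w : ℂ, ‖w‖ ≤ r / 2 → ‖deriv (deriv f) w‖ ≤ 20 * C / r ^ 2 := by
    intro w hw
    have hsub1 : ∀ v ∈ closedBall w (r / 5), ‖v‖ < 3 * r / 4 := by
      intro v hv
      rw [mem_closedBall, dist_eq_norm] at hv
      have : ‖v‖ ≤ ‖v - w‖ + ‖w‖ := by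
        have := norm_add_le (v - w) w
        simpa using this
      linarith
    have hsub : closedBall w (r / 5) ⊆ ball (0:ℂ) r := by
      intro v hv
      rw [mem_ball_zero_iff]
      have := hsub1 v hv
      linarith
    have h := Complex.norm_deriv_le_of_forall_mem_sphere_norm_le (c := w) (R := r / 5)
      (C := 4 * C / r) (f := deriv f) (by positivity) ((hd.mono hsub).diffContOnCl_ball (le_refl _))
      (fun v hv => h1 v (hsub1 v (sphere_subset_closedBall hv)))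
    calc ‖deriv (deriv f) w‖ ≤ 4 * C / r / (r / 5) := h
      _ = 20 * C / r ^ 2 := by field_simp; ring
  have h3 : ∀ w ∈ closedBall (0:ℂ) ‖z‖, ‖deriv f w‖ ≤ 20 * C / r ^ 2 * ‖z‖ := by
    intro w hw
    have hw' : ‖w‖ ≤ ‖z‖ := by simpa using hw
    have h := Convex.norm_image_sub_le_of_norm_deriv_le (f := deriv f) (C := 20 * C / r ^ 2)
      (s := closedBall (0:ℂ) ‖z‖) (x := 0) (y := w)
      (fun v hv => by
        have hv' : ‖v‖ ≤ ‖z‖ := by simpa using hv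
        exact (hd v (by rw [mem_ball_zero_iff]; linarith)).differentiableAt
          (isOpen_ball.mem_nhds (by rw [mem_ball_zero_iff]; linarith)))
      (fun v hv => by
        have hv' : ‖v‖ ≤ ‖z‖ := by simpa using hv
        exact h2 v (by linarith))
      (convex_closedBall _ _) (by simp) hw
    rw [f'0, sub_zero, sub_zero] at h
    refine le_trans h ?_
    exact mul_le_mul_of_nonneg_left hw' (by positivity)
  have h := Convex.norm_image_sub_le_of_norm_deriv_le (f := f) (C := 20 * C / r ^ 2 * ‖z‖)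
      (s := closedBall (0:ℂ) ‖z‖) (x := 0) (y := z)
      (fun v hv => by
        have hv' : ‖v‖ ≤ ‖z‖ := by simpa using hv
        exact (hf v (by rw [mem_ball_zero_iff]; linarith)).differentiableAt
          (isOpen_ball.mem_nhds (by rw [mem_ball_zero_iff]; linarith)))
      h3 (convex_closedBall _ _) (by simp) (by simp)
  rw [f0, sub_zero, sub_zero] at h
  calc ‖f z‖ ≤ 20 * C / r ^ 2 * ‖z‖ * ‖z‖ := h
    _ = 20 * C / r ^ 2 * ‖z‖ ^ 2 := by ring

lemma invpow (k : ℕ) : ∃ K : ℝ, 0 ≤ K ∧ ∀ X : ℂ, ‖X‖ ≤ 1 / 4 →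
    ‖((1 + X) ^ k)⁻¹ - 1 + k * X‖ ≤ K * ‖X‖ ^ 2 := by
  have hne : ∀ X ∈ ball (0:ℂ) (1/2), 1 / 2 ≤ ‖1 + X‖ := by
    intro X hX
    rw [mem_ball_zero_iff] at hX
    have h1 : ‖(1:ℂ)‖ ≤ ‖1 + X‖ + ‖X‖ := by
      have := norm_sub_le (1 + X) X
      simpa using this
    rw [norm_one] at h1
    linarith
  have hne' : ∀ X ∈ ball (0:ℂ) (1/2), (1 + X) ^ k ≠ 0 := by
    intro X hX
    have := hne X hX
    refine pow_ne_zero _ ?_
    intro h0
    rw [h0, norm_zero] at this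
    norm_num at this
  have hder : ∀ X ∈ ball (0:ℂ) (1/2), HasDerivAt (fun X : ℂ => ((1 + X) ^ k)⁻¹ - 1 + k * X)
      (-(k * (1 + X) ^ (k - 1) * 1) / ((1 + X) ^ k) ^ 2 + k * 1) X := by
    intro X hX
    have h1 : HasDerivAt (fun X : ℂ => 1 + X) 1 X := by
      simpa using (hasDerivAt_id X).const_add 1
    have h2 := ((h1.pow k).inv (hne' X hX)).sub_const 1
    exact h2.add ((hasDerivAt_id X).const_mul (k:ℂ))
  have hq := quad (fun X : ℂ => ((1 + X) ^ k)⁻¹ - 1 + k * X) (1/2) (2 ^ k + 1 + k) (by norm_num)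
    (fun X hX => (hder X hX).differentiableAt.differentiableWithinAt)
    (by
      intro X hX
      have hX' := hX
      rw [mem_ball_zero_iff] at hX'
      have h1 : ‖((1 + X) ^ k)⁻¹‖ ≤ 2 ^ k := by
        rw [norm_inv, norm_pow, ← inv_pow]
        refine pow_le_pow_left₀ (by positivity) ?_ k
        have := hne X hX
        calc ‖1 + X‖⁻¹ ≤ (1/2 : ℝ)⁻¹ := by
              apply inv_anti₀ (by norm_num) this
          _ = 2 := by norm_num
      calc ‖((1 + X) ^ k)⁻¹ - 1 + k * X‖ ≤ ‖((1 + X) ^ k)⁻¹ - 1‖ + ‖(k:ℂ) * X‖ := norm_add_le _ _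
        _ ≤ (‖((1 + X) ^ k)⁻¹‖ + ‖(1:ℂ)‖) + ‖(k:ℂ) * X‖ := by
            gcongr
            exact norm_sub_le _ _
        _ ≤ (2 ^ k + 1) + k := by
            rw [norm_one, norm_mul, Complex.norm_natCast]
            have : (k:ℝ) * ‖X‖ ≤ k * 1 := by
              gcongr
              linarith
            linarith)
    (by simp)
    (by
      rw [(hder 0 (by simp)).deriv]
      simp)
  refine ⟨20 * (2 ^ k + 1 + k) / (1/2) ^ 2, by positivity, ?_⟩
  intro X hX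
  exact hq X (by linarith)

noncomputable def uu (k : ℕ) (al z : ℂ) : ℂ := -1 / (k * al * z ^ k)

lemma core (k : ℕ) (al : ℂ) (hk : 1 ≤ k) (hal : al ≠ 0) (CA C1 r1 : ℝ) (hCA : 0 ≤ CA)
    (hC1 : 0 ≤ C1) (hr1 : 0 < r1) :
    ∃ c1 r2 : ℝ, 0 < c1 ∧ 0 < r2 ∧ r2 ≤ r1 ∧ ∀ s : ℝ, 0 ≤ s → s < 1 → ∀ z w : ℂ, z ≠ 0 →
      ‖z‖ ≤ r2 →
      ‖w - z - al * z ^ (k + 1) + s * z‖ ≤ CA * ‖z‖ ^ (k + 2) + C1 * s * ‖z‖ ^ 2 →
      (‖z‖ ^ k ≤ c1 * s → ‖w‖ ≤ (1 - s / 2) * ‖z‖) ∧
      (c1 * s < ‖z‖ ^ k → w ≠ 0 ∧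
        ‖uu k al w - uu k al z - 1 - k * s * uu k al z‖ ≤ 1 / 2) := by
  obtain ⟨K, hK, hKb⟩ := invpow k
  obtain ⟨a, ha⟩ : ∃ a : ℝ, a = ‖al‖ := ⟨_, rfl⟩
  have ha0 : 0 < a := by rw [ha]; exact norm_pos_iff.mpr hal
  obtain ⟨C3, hC3⟩ : ∃ C3 : ℝ, C3 = a + 1 + CA + C1 := ⟨_, rfl⟩
  have hC30 : 0 < C3 := by rw [hC3]; positivity
  obtain ⟨M, hM⟩ : ∃ M : ℝ, M = 1 + 4 * a := ⟨_, rfl⟩
  have hM0 : 0 < M := by rw [hM]; positivity
  obtain ⟨N, hN⟩ : ∃ N : ℝ, N = 1 + (CA * (1 / (4 * a)) + C1) + C3 * M + K * C3 ^ 2 * M ^ 2 / a +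
    (CA + C1 * (4 * a)) / a := ⟨_, rfl⟩
  have e1 : 0 ≤ CA * (1 / (4 * a)) + C1 := by positivity
  have e2 : 0 ≤ C3 * M := by positivity
  have e3 : 0 ≤ K * C3 ^ 2 * M ^ 2 / a := by positivity
  have e4 : 0 ≤ (CA + C1 * (4 * a)) / a := by positivity
  have hN0 : 0 < N := by rw [hN]; linarith
  refine ⟨1 / (4 * a), min r1 (1 / (4 * N)), by positivity, lt_min hr1 (by positivity),
    min_le_left _ _, ?_⟩
  intro s hs0 hs1 z w hz hzr hE
  have hzr2 : ‖z‖ ≤ 1 / (4 * N) := le_trans hzr (min_le_right _ _)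
  have hzN : N * ‖z‖ ≤ 1 / 4 := by
    calc N * ‖z‖ ≤ N * (1 / (4 * N)) := mul_le_mul_of_nonneg_left hzr2 hN0.le
      _ = 1 / 4 := by field_simp
  have hzp : 0 < ‖z‖ := norm_pos_iff.mpr hz
  have g0 : 1 * ‖z‖ ≤ 1 / 4 := le_trans (mul_le_mul_of_nonneg_right (by rw [hN]; linarith) hzp.le) hzN
  have g1 : (CA * (1 / (4 * a)) + C1) * ‖z‖ ≤ 1 / 4 :=
    le_trans (mul_le_mul_of_nonneg_right (by rw [hN]; linarith) hzp.le) hzN
  have g2 : (C3 * M) * ‖z‖ ≤ 1 / 4 :=
    le_trans (mul_le_mul_of_nonneg_right (by rw [hN]; linarith) hzp.le) hzN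
  have g3 : (K * C3 ^ 2 * M ^ 2 / a) * ‖z‖ ≤ 1 / 4 :=
    le_trans (mul_le_mul_of_nonneg_right (by rw [hN]; linarith) hzp.le) hzN
  have g4 : ((CA + C1 * (4 * a)) / a) * ‖z‖ ≤ 1 / 4 :=
    le_trans (mul_le_mul_of_nonneg_right (by rw [hN]; linarith) hzp.le) hzN
  have hz1 : ‖z‖ ≤ 1 := by linarith
  obtain ⟨t, ht⟩ : ∃ t : ℝ, t = ‖z‖ ^ k := ⟨_, rfl⟩
  have ht0 : 0 < t := by rw [ht]; positivity
  have htz : t ≤ ‖z‖ := by rw [ht]; exact pow_le_of_le_one hzp.le hz1 (by omega)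
  rw [← ht]
  obtain ⟨e, he⟩ : ∃ e : ℂ, e = (w - z - al * z ^ (k + 1) + s * z) / z := ⟨_, rfl⟩
  have hen : ‖e‖ ≤ CA * t * ‖z‖ + C1 * s * ‖z‖ := by
    rw [he, norm_div, div_le_iff₀ hzp]
    refine le_trans hE (le_of_eq ?_)
    rw [ht]; ring
  obtain ⟨X, hX⟩ : ∃ X : ℂ, X = al * z ^ k - s + e := ⟨_, rfl⟩
  have hw : w = z * (1 + X) := by
    rw [hX, he]
    field_simp
    ring
  constructor
  · intro hts
    have hb : ‖1 + X‖ ≤ 1 - s / 2 := by
      have h1 : (1 : ℂ) + X = ((1 - s : ℝ) : ℂ) + al * z ^ k + e := by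
        rw [hX]; push_cast; ring
      rw [h1]
      calc ‖((1 - s : ℝ) : ℂ) + al * z ^ k + e‖ ≤ ‖((1 - s : ℝ) : ℂ)‖ + ‖al * z ^ k‖ + ‖e‖ :=
            norm_add₃_le
        _ = (1 - s) + a * t + ‖e‖ := by
            rw [Complex.norm_of_nonneg (by linarith), norm_mul, norm_pow, ← ha, ← ht]
        _ ≤ (1 - s) + a * (1 / (4 * a) * s) + (CA * (1 / (4 * a) * s) * ‖z‖ + C1 * s * ‖z‖) := by
            have k1 : a * t ≤ a * (1 / (4 * a) * s) := mul_le_mul_of_nonneg_left hts ha0.le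
            have k2 : CA * t * ‖z‖ ≤ CA * (1 / (4 * a) * s) * ‖z‖ :=
              mul_le_mul_of_nonneg_right (mul_le_mul_of_nonneg_left hts hCA) hzp.le
            linarith
        _ = (1 - s) + s / 4 + (CA * (1 / (4 * a)) + C1) * ‖z‖ * s := by
            field_simp
        _ ≤ (1 - s) + s / 4 + 1 / 4 * s := by
            have := mul_le_mul_of_nonneg_right g1 hs0
            linarith
        _ = 1 - s / 2 := by ring
    rw [hw, norm_mul, mul_comm]
    exact mul_le_mul_of_nonneg_right hb hzp.le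
  · intro hts
    have hs4 : s ≤ 4 * a * t := by
      have h1 : 4 * a * (1 / (4 * a) * s) ≤ 4 * a * t :=
        mul_le_mul_of_nonneg_left hts.le (by positivity)
      have h2 : 4 * a * (1 / (4 * a) * s) = s := by field_simp
      linarith
    have hXn : ‖X‖ ≤ C3 * M * t := by
      have h1 : ‖X‖ ≤ a * t + s + ‖e‖ := by
        rw [hX]
        calc ‖al * z ^ k - s + e‖ ≤ ‖al * z ^ k - s‖ + ‖e‖ := norm_add_le _ _
          _ ≤ ‖al * z ^ k‖ + ‖(s:ℂ)‖ + ‖e‖ := by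
              have := norm_sub_le (al * z ^ k) (s:ℂ)
              linarith
          _ = a * t + s + ‖e‖ := by
              rw [Complex.norm_of_nonneg hs0, norm_mul, norm_pow, ← ha, ← ht]
      have h2 : CA * t * ‖z‖ ≤ CA * t * 1 := mul_le_mul_of_nonneg_left hz1 (by positivity)
      have h3 : C1 * s * ‖z‖ ≤ C1 * s * 1 := mul_le_mul_of_nonneg_left hz1 (by positivity)
      have h4 : ‖X‖ ≤ (a + CA) * t + (1 + C1) * s := by linarith
      have h5 : (a + CA) * t ≤ C3 * t := by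
        refine mul_le_mul_of_nonneg_right ?_ ht0.le
        rw [hC3]; linarith
      have h6 : (1 + C1) * s ≤ C3 * s := by
        refine mul_le_mul_of_nonneg_right ?_ hs0
        rw [hC3]; linarith
      have h7 : C3 * s ≤ C3 * (4 * a * t) := mul_le_mul_of_nonneg_left hs4 hC30.le
      calc ‖X‖ ≤ C3 * t + C3 * (4 * a * t) := by linarith
        _ = C3 * M * t := by rw [hM]; ring
    have hX4 : ‖X‖ ≤ 1 / 4 := by
      refine le_trans hXn (le_trans ?_ g2)
      exact mul_le_mul_of_nonneg_left htz (by positivity)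
    have h1X : 1 + X ≠ 0 := by
      intro h0
      have h1 : ‖(1:ℂ)‖ ≤ ‖1 + X‖ + ‖X‖ := by
        have := norm_sub_le (1 + X) X
        simpa using this
      rw [norm_one, h0, norm_zero] at h1
      linarith
    have hwne : w ≠ 0 := by rw [hw]; exact mul_ne_zero hz h1X
    refine ⟨hwne, ?_⟩
    have hk0 : (k:ℂ) ≠ 0 := by
      have : k ≠ 0 := by omega
      exact_mod_cast this
    have hkey : uu k al w - uu k al z - 1 - k * s * uu k al z =
        uu k al z * (((1 + X) ^ k)⁻¹ - 1 + k * X) + e / (al * z ^ k) := by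
      have hu : uu k al w = uu k al z * ((1 + X) ^ k)⁻¹ := by
        unfold uu
        rw [hw, mul_pow]
        field_simp
      have hu2 : (k:ℂ) * uu k al z = - 1 / (al * z ^ k) := by
        unfold uu
        field_simp
      have hX2 : X / (al * z ^ k) = 1 - s / (al * z ^ k) + e / (al * z ^ k) := by
        rw [hX]
        field_simp
      rw [hu]
      have h3 : uu k al z * (((1 + X) ^ k)⁻¹ - 1 + k * X) = uu k al z * ((1 + X) ^ k)⁻¹ - uu k al z
          - X / (al * z ^ k) := by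
        have : uu k al z * (((1 + X) ^ k)⁻¹ - 1 + k * X) = uu k al z * ((1 + X) ^ k)⁻¹ - uu k al z
          + (k * uu k al z) * X := by ring
        rw [this, hu2]
        ring
      have h4 : (k:ℂ) * s * uu k al z = - s / (al * z ^ k) := by
        have : (k:ℂ) * s * uu k al z = (k * uu k al z) * s := by ring
        rw [this, hu2]
        ring
      rw [h3, h4, hX2]
      ring
    rw [hkey]
    have hun : ‖uu k al z‖ ≤ 1 / (a * t) := by
      unfold uu
      rw [norm_div, norm_neg, norm_one, norm_mul, norm_mul, norm_pow, ← ha, ← ht,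
        Complex.norm_natCast]
      have hk1 : (1:ℝ) ≤ k := by exact_mod_cast hk
      apply one_div_le_one_div_of_le (by positivity)
      have : 1 * (a * t) ≤ k * (a * t) := mul_le_mul_of_nonneg_right hk1 (by positivity)
      linarith
    have p1 : ‖uu k al z * (((1 + X) ^ k)⁻¹ - 1 + k * X)‖ ≤ 1 / 4 := by
      rw [norm_mul]
      calc ‖uu k al z‖ * ‖((1 + X) ^ k)⁻¹ - 1 + k * X‖
          ≤ (1 / (a * t)) * (K * ‖X‖ ^ 2) :=
            mul_le_mul hun (hKb X hX4) (norm_nonneg _) (by positivity)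
        _ ≤ (1 / (a * t)) * (K * (C3 * M * t) ^ 2) := by
            gcongr
        _ = K * C3 ^ 2 * M ^ 2 / a * t := by field_simp
        _ ≤ K * C3 ^ 2 * M ^ 2 / a * ‖z‖ := mul_le_mul_of_nonneg_left htz e3
        _ ≤ 1 / 4 := g3
    have p2 : ‖e / (al * z ^ k)‖ ≤ 1 / 4 := by
      rw [norm_div, norm_mul, norm_pow, ← ha, ← ht, div_le_iff₀ (by positivity)]
      have h3 : C1 * s * ‖z‖ ≤ C1 * (4 * a * t) * ‖z‖ :=
        mul_le_mul_of_nonneg_right (mul_le_mul_of_nonneg_left hs4 hC1) hzp.le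
      calc ‖e‖ ≤ CA * t * ‖z‖ + C1 * (4 * a * t) * ‖z‖ := by linarith
        _ = (CA + C1 * (4 * a)) / a * ‖z‖ * (a * t) := by field_simp
        _ ≤ 1 / 4 * (a * t) := mul_le_mul_of_nonneg_right g4 (by positivity)
    calc ‖uu k al z * (((1 + X) ^ k)⁻¹ - 1 + k * X) + e / (al * z ^ k)‖
        ≤ ‖uu k al z * (((1 + X) ^ k)⁻¹ - 1 + k * X)‖ + ‖e / (al * z ^ k)‖ := norm_add_le _ _
      _ ≤ 1 / 2 := by linarith

lemma dyn (k : ℕ) (al : ℂ) (hk : 1 ≤ k) (hal : al ≠ 0) (c1 r2 r s L : ℝ) (hc1 : 0 < c1)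
    (hrr : r2 < r) (hs : 0 < s) (hs1 : s < 1) (hL : 0 < L)
    (G : ℂ → ℂ) (G0 : G 0 = 0)
    (hG : ∀ z : ℂ, z ≠ 0 → ‖z‖ ≤ r2 → (‖z‖ ^ k ≤ c1 * s → ‖G z‖ ≤ (1 - s / 2) * ‖z‖) ∧
      (c1 * s < ‖z‖ ^ k → G z ≠ 0 ∧
        ‖uu k al (G z) - uu k al z - 1 - k * s * uu k al z‖ ≤ 1 / 2))
    (hLr : ∀ z : ℂ, z ≠ 0 → L < (uu k al z).re → ‖z‖ ≤ r2)
    (z : ℂ) (hz : z ≠ 0) (hzL : L < (uu k al z).re) :
    (∀ n : ℕ, G^[n] z ∈ ball (0:ℂ) r) ∧ Tendsto (fun n : ℕ => G^[n] z) atTop (𝓝 0) := by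
  have ha0 : 0 < ‖al‖ := norm_pos_iff.mpr hal
  have hD : ∀ w : ℂ, ‖w‖ ≤ r2 → ‖w‖ ^ k ≤ c1 * s → ∀ n : ℕ, ‖G^[n] w‖ ≤ (1 - s / 2) ^ n * ‖w‖ := by
    intro w hw1 hw2 n
    induction n with
    | zero => simp
    | succ n ih =>
      rw [Function.iterate_succ_apply']
      have hle : (1 - s / 2) ^ n ≤ 1 := pow_le_one₀ (by linarith) (by linarith)
      have h1 : ‖G^[n] w‖ ≤ ‖w‖ := by
        refine le_trans ih ?_
        have := mul_le_mul_of_nonneg_right hle (norm_nonneg w)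
        linarith
      by_cases h0 : G^[n] w = 0
      · rw [h0, G0, norm_zero]
        have : 0 ≤ (1 - s / 2) := by linarith
        positivity
      · have h2 := (hG _ h0 (le_trans h1 hw1)).1
          (le_trans (pow_le_pow_left₀ (norm_nonneg _) h1 k) hw2)
        calc ‖G (G^[n] w)‖ ≤ (1 - s / 2) * ‖G^[n] w‖ := h2
          _ ≤ (1 - s / 2) * ((1 - s / 2) ^ n * ‖w‖) :=
              mul_le_mul_of_nonneg_left ih (by linarith)
          _ = (1 - s / 2) ^ (n + 1) * ‖w‖ := by ring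
  have hstep : ∀ w : ℂ, w ≠ 0 → L < (uu k al w).re → c1 * s < ‖w‖ ^ k →
      G w ≠ 0 ∧ (uu k al w).re + 1 / 2 ≤ (uu k al (G w)).re := by
    intro w hw hwL hwk
    obtain ⟨h1, h2⟩ := (hG w hw (hLr w hw hwL)).2 hwk
    refine ⟨h1, ?_⟩
    have h3 := (abs_le.mp (le_trans (Complex.abs_re_le_norm _) h2)).1
    have h4 : (uu k al (G w) - uu k al w - 1 - k * s * uu k al w).re =
        (uu k al (G w)).re - (uu k al w).re - 1 - k * s * (uu k al w).re := by
      simp [Complex.mul_re]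
    rw [h4] at h3
    have h5 : 0 ≤ k * s * (uu k al w).re := by
      have : 0 ≤ (uu k al w).re := by linarith
      positivity
    linarith
  have hind : ∀ n : ℕ, (∀ j < n, c1 * s < ‖G^[j] z‖ ^ k) →
      G^[n] z ≠ 0 ∧ L + n / 2 < (uu k al (G^[n] z)).re := by
    intro n
    induction n with
    | zero => intro _; simpa using ⟨hz, hzL⟩
    | succ n ih =>
      intro hj
      obtain ⟨h1, h2⟩ := ih (fun j hj' => hj j (by omega))
      have hn0 : (0:ℝ) ≤ n := Nat.cast_nonneg n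
      obtain ⟨h3, h4⟩ := hstep _ h1 (by linarith) (hj n (by omega))
      rw [Function.iterate_succ_apply']
      refine ⟨h3, ?_⟩
      push_cast
      linarith
  have hex : ∃ n : ℕ, ‖G^[n] z‖ ^ k ≤ c1 * s := by
    by_contra hcon
    push Not at hcon
    obtain ⟨n, hn⟩ := exists_nat_gt (2 * (1 / (‖al‖ * (c1 * s))))
    obtain ⟨h1, h2⟩ := hind n (fun j _ => hcon j)
    have h3 : (uu k al (G^[n] z)).re ≤ 1 / (‖al‖ * (c1 * s)) := by
      refine le_trans (Complex.re_le_norm _) ?_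
      unfold uu
      rw [norm_div, norm_neg, norm_one, norm_mul, norm_mul, norm_pow, Complex.norm_natCast]
      have hk1 : (1:ℝ) ≤ k := by exact_mod_cast hk
      apply one_div_le_one_div_of_le (by positivity)
      have g1 : ‖al‖ * (c1 * s) ≤ ‖al‖ * ‖G^[n] z‖ ^ k :=
        mul_le_mul_of_nonneg_left (hcon n).le ha0.le
      have g2 : 1 * (‖al‖ * ‖G^[n] z‖ ^ k) ≤ k * (‖al‖ * ‖G^[n] z‖ ^ k) :=
        mul_le_mul_of_nonneg_right hk1 (by positivity)
      linarith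
    linarith
  classical
  obtain ⟨n, hn, hmin⟩ : ∃ n : ℕ, ‖G^[n] z‖ ^ k ≤ c1 * s ∧ ∀ j < n, c1 * s < ‖G^[j] z‖ ^ k :=
    ⟨Nat.find hex, Nat.find_spec hex, fun j hj => not_le.mp (Nat.find_min hex hj)⟩
  have hPj : ∀ j ≤ n, ‖G^[j] z‖ ≤ r2 := by
    intro j hj
    obtain ⟨h1, h2⟩ := hind j (fun i hi => hmin i (by omega))
    have hn0 : (0:ℝ) ≤ j := Nat.cast_nonneg j
    exact hLr _ h1 (by linarith)
  have hlim : ∀ j : ℕ, ‖G^[j + n] z‖ ≤ (1 - s / 2) ^ j * ‖G^[n] z‖ := by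
    intro j
    rw [Function.iterate_add_apply]
    exact hD _ (hPj n le_rfl) hn j
  constructor
  · intro j
    rw [mem_ball_zero_iff]
    rcases le_total j n with hj | hj
    · exact lt_of_le_of_lt (hPj j hj) hrr
    · obtain ⟨i, rfl⟩ := Nat.exists_eq_add_of_le' hj
      have hle : (1 - s / 2) ^ i ≤ 1 := pow_le_one₀ (by linarith) (by linarith)
      have h1 := hlim i
      have h2 := mul_le_mul_of_nonneg_right hle (norm_nonneg (G^[n] z))
      have h3 := hPj n le_rfl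
      linarith
  · rw [← tendsto_add_atTop_iff_nat n]
    rw [tendsto_zero_iff_norm_tendsto_zero]
    have h1 : Tendsto (fun j : ℕ => (1 - s / 2) ^ j * ‖G^[n] z‖) atTop (𝓝 0) := by
      have := (tendsto_pow_atTop_nhds_zero_of_lt_one (r := 1 - s / 2) (by linarith)
        (by linarith)).mul_const ‖G^[n] z‖
      simpa using this
    exact squeeze_zero (fun j => norm_nonneg _) hlim h1

lemma ord (F : ℂ → ℂ) (r : ℝ) (hr : 0 < r) (hF : DifferentiableOn ℂ F (ball 0 r)) (F0 : F 0 = 0)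
    (F1 : deriv F 0 = 1) (hne : ∃ z ∈ ball (0 : ℂ) r, F z ≠ z) :
    ∃ (k : ℕ) (al : ℂ) (CA r1 : ℝ), 1 ≤ k ∧ al ≠ 0 ∧ 0 ≤ CA ∧ 0 < r1 ∧ r1 ≤ r / 2 ∧
      ∀ z : ℂ, ‖z‖ ≤ r1 → ‖F z - z - al * z ^ (k + 1)‖ ≤ CA * ‖z‖ ^ (k + 2) := by
  have hFa : AnalyticOnNhd ℂ F (ball 0 r) := hF.analyticOnNhd isOpen_ball
  have hFa0 : AnalyticAt ℂ F 0 := hFa 0 (by simpa using hr)
  have ha : AnalyticAt ℂ (fun z => F z - z) 0 := hFa0.sub analyticAt_id
  have htop : analyticOrderAt (fun z => F z - z) 0 ≠ ⊤ := by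
    intro h
    rw [analyticOrderAt_eq_top] at h
    obtain ⟨z, hz, hzne⟩ := hne
    have hev : F =ᶠ[𝓝 0] id := by
      filter_upwards [h] with w hw
      simpa [sub_eq_zero] using hw
    exact hzne (hFa.eqOn_of_preconnected_of_eventuallyEq analyticOnNhd_id
      (convex_ball (0:ℂ) r).isPreconnected (by simpa using hr) hev hz)
  obtain ⟨g, hg, hg0, hgev⟩ := (ha.analyticOrderAt_ne_top).1 htop
  generalize analyticOrderNatAt (fun z => F z - z) 0 = m at hgev
  have hgev' : ∀ᶠ z in 𝓝 (0:ℂ), F z - z = z ^ m * g z := by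
    filter_upwards [hgev] with z hz
    rw [hz, sub_zero, smul_eq_mul]
  have hm : 2 ≤ m := by
    by_contra hlt
    have hm' : m = 0 ∨ m = 1 := by omega
    rcases hm' with rfl | rfl
    · have := hgev'.self_of_nhds
      simp [F0] at this
      exact hg0 this.symm
    · have h1 : HasDerivAt (fun z => F z - z) (1 - 1) 0 := by
        have := hFa0.differentiableAt.hasDerivAt
        rw [F1] at this
        exact this.sub (hasDerivAt_id 0)
      have h2 : HasDerivAt (fun z => z * g z) (1 * g 0 + 0 * deriv g 0) 0 :=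
        (hasDerivAt_id (0:ℂ)).mul hg.differentiableAt.hasDerivAt
      have h3 : HasDerivAt (fun z => F z - z) (1 * g 0 + 0 * deriv g 0) 0 := by
        refine h2.congr_of_eventuallyEq ?_
        filter_upwards [hgev'] with z hz
        rw [hz, pow_one]
      have := h1.unique h3
      simp at this
      exact hg0 this.symm
  obtain ⟨k, rfl⟩ : ∃ k, m = k + 1 := ⟨m - 1, by omega⟩
  obtain ⟨CA, hCA, hb⟩ := hg.differentiableAt.isBigO_sub.exists_pos
  have hb' := hb.bound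
  have hev := (hgev'.and hb')
  rw [Metric.eventually_nhds_iff] at hev
  obtain ⟨ε, hε, hball⟩ := hev
  refine ⟨k, g 0, CA, min (ε / 2) (r / 2), by omega, hg0, hCA.le, lt_min (by positivity)
    (by positivity), min_le_right _ _, ?_⟩
  intro z hz
  have hz1 : ‖z‖ ≤ ε / 2 := le_trans hz (min_le_left _ _)
  obtain ⟨h1, h2⟩ := hball (y := z) (by rw [dist_zero_right]; linarith)
  rw [sub_zero] at h2
  have h3 : F z - z - g 0 * z ^ (k + 1) = z ^ (k + 1) * (g z - g 0) := by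
    rw [h1]; ring
  rw [h3, norm_mul, norm_pow]
  calc ‖z‖ ^ (k + 1) * ‖g z - g 0‖ ≤ ‖z‖ ^ (k + 1) * (CA * ‖z‖) :=
        mul_le_mul_of_nonneg_left h2 (by positivity)
    _ = CA * ‖z‖ ^ (k + 2) := by ring

end PBLAux

open PBLAux in
theorem pbl_holds : StPBL := by
  intro F r C₀ z₀ hr hC₀ hF F0 F1 hne hit hlim
  obtain ⟨k, al, CA, r1, hk, hal, hCA, hr1, hr1r, hord⟩ := ord F r hr hF F0 F1 hne
  have ha0 : 0 < ‖al‖ := norm_pos_iff.mpr hal
  obtain ⟨C1, hC1⟩ : ∃ C1 : ℝ, C1 = 20 * (C₀ + r) / r ^ 2 := ⟨_, rfl⟩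
  have hC10 : 0 ≤ C1 := by rw [hC1]; positivity
  obtain ⟨c1, r2, hc1, hr2, hr21, hcore⟩ := core k al hk hal CA C1 r1 hCA hC10 hr1
  have hr2r : r2 < r := by linarith
  have hk1 : (1:ℝ) ≤ k := by exact_mod_cast hk
  -- the threshold
  obtain ⟨L, hLdef⟩ : ∃ L : ℝ, L = 1 / (‖al‖ * r2 ^ k) := ⟨_, rfl⟩
  have hL : 0 < L := by rw [hLdef]; positivity
  have hLr : ∀ z : ℂ, z ≠ 0 → L < (uu k al z).re → ‖z‖ ≤ r2 := by
    intro z hz hzL
    by_contra hcon
    push Not at hcon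
    have hzp : 0 < ‖z‖ := norm_pos_iff.mpr hz
    have h3 : (uu k al z).re ≤ L := by
      refine le_trans (Complex.re_le_norm _) ?_
      unfold uu
      rw [norm_div, norm_neg, norm_one, norm_mul, norm_mul, norm_pow, Complex.norm_natCast, hLdef]
      apply one_div_le_one_div_of_le (by positivity)
      have g1 : ‖al‖ * r2 ^ k ≤ ‖al‖ * ‖z‖ ^ k :=
        mul_le_mul_of_nonneg_left (pow_le_pow_left₀ hr2.le hcon.le k) ha0.le
      have g2 : 1 * (‖al‖ * ‖z‖ ^ k) ≤ k * (‖al‖ * ‖z‖ ^ k) :=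
        mul_le_mul_of_nonneg_right hk1 (by positivity)
      linarith
    linarith
  -- the orbit of z₀ enters the region
  have hFstep : ∀ z : ℂ, z ≠ 0 → ‖z‖ ≤ r2 → (uu k al z).re + 1 / 2 ≤ (uu k al (F z)).re := by
    intro z hz hzr
    have hzp : 0 < ‖z‖ := norm_pos_iff.mpr hz
    have h1 := (hcore 0 le_rfl one_pos z (F z) hz hzr (by
      have := hord z (le_trans hzr hr21)
      simpa using this)).2 (by simpa using pow_pos hzp k)
    have h3 := (abs_le.mp (le_trans (Complex.abs_re_le_norm _) h1.2)).1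
    simp at h3
    linarith
  obtain ⟨n₀, hn₀⟩ : ∃ n₀ : ℕ, ∀ n ≥ n₀, ‖F^[n] z₀‖ ≤ r2 := by
    have := (Metric.tendsto_atTop.mp hlim) r2 hr2
    obtain ⟨n₀, h⟩ := this
    refine ⟨n₀, fun n hn => ?_⟩
    have := h n hn
    rw [dist_zero_right] at this
    exact this.le
  have hgrow : ∀ j : ℕ, (uu k al (F^[n₀] z₀)).re + j / 2 ≤ (uu k al (F^[n₀ + j] z₀)).re := by
    intro j
    induction j with
    | zero => simp
    | succ j ih =>
      have h1 := hFstep (F^[n₀ + j] z₀) (hit _).2 (hn₀ _ (by omega))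
      rw [← add_assoc, Function.iterate_succ_apply']
      push_cast
      linarith
  obtain ⟨j, hj⟩ := exists_nat_gt (2 * (L - (uu k al (F^[n₀] z₀)).re))
  obtain ⟨k₀, hk₀⟩ : ∃ k₀ : ℕ, k₀ = n₀ + j := ⟨_, rfl⟩
  have hu0 : L < (uu k al (F^[k₀] z₀)).re := by
    have := hgrow j
    rw [hk₀]
    linarith
  have hne0 : F^[k₀] z₀ ≠ 0 := (hit _).2
  have hcont : ContinuousAt (fun z => (uu k al z).re) (F^[k₀] z₀) := by
    refine Complex.continuous_re.continuousAt.comp ?_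
    unfold uu
    refine ContinuousAt.div continuousAt_const ?_ ?_
    · fun_prop
    · have hk0 : (k:ℂ) ≠ 0 := by
        have : k ≠ 0 := by omega
        exact_mod_cast this
      exact mul_ne_zero (mul_ne_zero hk0 hal) (pow_ne_zero _ hne0)
  have hev : ∀ᶠ z in 𝓝 (F^[k₀] z₀), L < (uu k al z).re ∧ z ≠ 0 :=
    (hcont.eventually (lt_mem_nhds hu0)).and (isOpen_ne.mem_nhds hne0)
  rw [Metric.eventually_nhds_iff_ball] at hev
  obtain ⟨δ, hδ, hball⟩ := hev
  refine ⟨k₀, δ, 1, hδ, one_pos, ?_⟩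
  intro s hs hs1 G hG hGF G0 G1 z hz
  obtain ⟨hzL, hz0⟩ := hball z hz
  refine dyn k al hk hal c1 r2 r s L hc1 hr2r hs hs1 hL G G0 ?_ hLr z hz0 hzL
  intro w hw hwr
  refine hcore s hs.le hs1 w (G w) hw hwr ?_
  have hdF : DifferentiableAt ℂ F 0 :=
    (hF 0 (by simpa using hr)).differentiableAt (isOpen_ball.mem_nhds (by simpa using hr))
  have hdG : DifferentiableAt ℂ G 0 :=
    (hG 0 (by simpa using hr)).differentiableAt (isOpen_ball.mem_nhds (by simpa using hr))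
  have hq := quad (fun w => G w - F w + s * w) r (C₀ * s + s * r) hr
    ((hG.sub hF).add (differentiableOn_id.const_mul (s:ℂ)))
    (by
      intro v hv
      have hv' := hv
      rw [mem_ball_zero_iff] at hv'
      calc ‖G v - F v + s * v‖ ≤ ‖G v - F v‖ + ‖(s:ℂ) * v‖ := norm_add_le _ _
        _ ≤ C₀ * s + s * r := by
            rw [norm_mul, Complex.norm_of_nonneg hs.le]
            have h1 := hGF v hv
            have h2 : s * ‖v‖ ≤ s * r := mul_le_mul_of_nonneg_left hv'.le hs.le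
            linarith)
    (by simp [G0, F0])
    (by
      have h1 := (hdG.hasDerivAt.sub hdF.hasDerivAt).add ((hasDerivAt_id (0:ℂ)).const_mul (s:ℂ))
      rw [G1, F1] at h1
      have h2 := h1.deriv
      have h3 : (((1 - s : ℝ) : ℂ) - 1 + s * 1) = 0 := by push_cast; ring
      rw [h3] at h2
      exact h2)
    w (by linarith)
  have h1 : G w - w - al * w ^ (k + 1) + s * w =
      (F w - w - al * w ^ (k + 1)) + (G w - F w + s * w) := by ring
  rw [h1]
  refine le_trans (norm_add_le _ _) (add_le_add (hord w (le_trans hwr hr21)) ?_)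
  refine le_trans hq (le_of_eq ?_)
  rw [hC1]
  field_simp

end Pool.Agent.H713R5.QJ
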