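import Mathlib
import Pool.Agent.H713R5.QJ.Defs4

set_option autoImplicit false

open Topology Filter Metric Set Polynomial MeasureTheory

namespace Pool.Agent.H713R5.QJ

namespace UNIaux

theorem unif {d : ℕ} (Q : ℕ → ℂ[X]) (P : ℂ[X]) (hQ : ∀ k, (Q k).natDegree = d)
    (hP : P.natDegree = d)
    (h : ∀ j : ℕ, Tendsto (fun k => (Q k).coeff j) atTop (𝓝 (P.coeff j))) {η : ℝ} (hη : 0 < η) :
    ∀ᶠ k in atTop, ∀ j : ℕ, ‖(Q k).coeff j - P.coeff j‖ < η := by
  have h1 : ∀ j ∈ Finset.range (d + 1), ∀ᶠ k in atTop, ‖(Q k).coeff j - P.coeff j‖ < η := by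
    intro j _
    have h2 := (tendsto_iff_norm_sub_tendsto_zero.1 (h j))
    exact h2.eventually (gt_mem_nhds hη)
  have h3 := (Filter.eventually_all_finset (Finset.range (d + 1))).2 h1
  filter_upwards [h3] with k hk j
  by_cases hj : j < d + 1
  · exact hk j (Finset.mem_range.2 hj)
  · rw [coeff_eq_zero_of_natDegree_lt (by rw [hQ]; omega),
      coeff_eq_zero_of_natDegree_lt (by rw [hP]; omega), sub_zero, norm_zero]
    exact hη

theorem inv_lim : Tendsto (fun k : ℕ => 1 / ((k : ℝ) + 1)) atTop (𝓝 0) :=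
  tendsto_one_div_add_atTop_nhds_zero_nat

end UNIaux

open UNIaux in
theorem uni_holds : StUNI := by
  intro hS hA hQL d A ε hd hA0 hε
  by_contra hcon
  push Not at hcon
  have hT : ∀ k : ℕ, ∃ T : ℂ[X], T.natDegree = d ∧ (∀ j : ℕ, ‖T.coeff j‖ ≤ A) ∧
      1 / A ≤ ‖T.leadingCoeff‖ ∧ volume (JS T) ≤ ENNReal.ofReal (1 / ((k : ℝ) + 1)) ∧
      ¬ ∃ S : ℂ[X], S.natDegree = T.natDegree ∧ S.leadingCoeff = T.leadingCoeff ∧
        (∀ j : ℕ, ‖S.coeff j - T.coeff j‖ < ε) ∧
        ∀ c : ℂ, (derivative S).eval c = 0 → Good (ev S) c := by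
    intro k
    obtain ⟨T, h1, h2, h3, h4, h5⟩ := hcon (1 / ((k : ℝ) + 1)) (by positivity)
    refine ⟨T, h1, h2, h3, h4, ?_⟩
    rintro ⟨S, s1, s2, s3, s4⟩
    obtain ⟨c, c1, c2⟩ := h5 S s1 s2 s3
    exact c2 (s4 c c1)
  choose T hTd hTA hTl hTv hTn using hT
  -- compactness
  have hv : ∀ k, (fun j : Fin (d + 1) => (T k).coeff j) ∈
      closedBall (0 : Fin (d + 1) → ℂ) A := by
    intro k
    rw [mem_closedBall, dist_zero_right, pi_norm_le_iff_of_nonneg hA0.le]
    intro j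
    exact hTA k j
  obtain ⟨c, -, φ, hφ, hlim⟩ := (isCompact_closedBall (0 : Fin (d + 1) → ℂ) A).tendsto_subseq hv
  have hlimj : ∀ j : Fin (d + 1), Tendsto (fun k => (T (φ k)).coeff j) atTop (𝓝 (c j)) := by
    intro j
    exact (tendsto_pi_nhds.1 hlim) j
  -- the limit polynomial
  set P : ℂ[X] := ∑ i ∈ Finset.range (d + 1), monomial i (if h : i < d + 1 then c ⟨i, h⟩ else 0)
    with hPdef
  have hPc : ∀ n : ℕ, P.coeff n = if h : n < d + 1 then c ⟨n, h⟩ else 0 := by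
    intro n
    rw [hPdef, finsetSum_coeff]
    simp only [coeff_monomial]
    rw [Finset.sum_ite_eq']
    by_cases h : n < d + 1
    · rw [if_pos (Finset.mem_range.2 h)]
    · rw [if_neg (by rw [Finset.mem_range]; exact h), dif_neg h]
  have hlimP : ∀ j : ℕ, Tendsto (fun k => (T (φ k)).coeff j) atTop (𝓝 (P.coeff j)) := by
    intro j
    rw [hPc]
    by_cases h : j < d + 1
    · rw [dif_pos h]
      exact hlimj ⟨j, h⟩
    · rw [dif_neg h]
      have : (fun k => (T (φ k)).coeff j) = fun _ => 0 := by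
        funext k
        exact coeff_eq_zero_of_natDegree_lt (by rw [hTd]; omega)
      rw [this]
      exact tendsto_const_nhds
  have hTlc : ∀ k, (T k).leadingCoeff = (T k).coeff d := by
    intro k
    rw [leadingCoeff, hTd]
  have hPn : 1 / A ≤ ‖P.coeff d‖ := by
    refine ge_of_tendsto (hlimP d).norm (Eventually.of_forall fun k => ?_)
    have := hTl (φ k)
    rwa [hTlc] at this
  have hPd0 : P.coeff d ≠ 0 := by
    intro h
    rw [h, norm_zero] at hPn
    have : 0 < 1 / A := by positivity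
    linarith
  have hPdeg : P.natDegree = d := by
    apply natDegree_eq_of_le_of_coeff_ne_zero _ hPd0
    rw [natDegree_le_iff_coeff_eq_zero]
    intro n hn
    rw [hPc, dif_neg (by omega)]
  have hPlc : P.leadingCoeff = P.coeff d := by rw [leadingCoeff, hPdeg]
  -- the scaling factors
  have hTd0 : ∀ k, (T k).coeff d ≠ 0 := by
    intro k h
    have := hTl k
    rw [hTlc, h, norm_zero] at this
    have h2 : 0 < 1 / A := by positivity
    linarith
  set r : ℕ → ℂ := fun k => (T (φ k)).coeff d / P.coeff d with hr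
  have hr0 : ∀ k, r k ≠ 0 := fun k => div_ne_zero (hTd0 _) hPd0
  have hrlim : Tendsto r atTop (𝓝 1) := by
    have := (hlimP d).div_const (P.coeff d)
    rwa [div_self hPd0] at this
  set l : ℕ → ℂ := fun k => Complex.exp (Complex.log (r k) / ((d - 1 : ℕ) : ℂ)) with hl
  have hd1 : ((d - 1 : ℕ) : ℂ) ≠ 0 := by
    have : d - 1 ≠ 0 := by omega
    exact_mod_cast this
  have hl0 : ∀ k, l k ≠ 0 := fun k => Complex.exp_ne_zero _
  have hlpow : ∀ k, l k ^ (d - 1) = r k := by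
    intro k
    rw [hl]
    simp only
    rw [← Complex.exp_nat_mul, mul_div_cancel₀ _ hd1, Complex.exp_log (hr0 k)]
  have hllim : Tendsto l atTop (𝓝 1) := by
    have h1 : Tendsto (fun k => Complex.log (r k)) atTop (𝓝 (Complex.log 1)) :=
      hrlim.clog Complex.one_mem_slitPlane
    have h2 := (h1.div_const ((d - 1 : ℕ) : ℂ)).cexp
    rw [Complex.log_one, zero_div, Complex.exp_zero] at h2
    exact h2
  have hlinv : Tendsto (fun k => (l k)⁻¹) atTop (𝓝 1) := by
    have := hllim.inv₀ one_ne_zero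
    rwa [inv_one] at this
  -- perturbations
  have hSk : ∀ k : ℕ, ∃ S : ℂ[X], S.natDegree = d ∧ S.coeff d = (T (φ k)).coeff d ∧
      (∀ j : ℕ, ‖S.coeff j - (T (φ k)).coeff j‖ < 1 / ((k : ℝ) + 1)) ∧
      volume {z : ℂ | ¬ Good (ev S) z} ≤ ENNReal.ofReal (2 * (1 / ((k : ℝ) + 1))) := by
    intro k
    obtain ⟨S, s1, s2, s3, s4⟩ := hA (T (φ k)) (by rw [hTd]; exact hd) (1 / ((k : ℝ) + 1))
      (by positivity)
    rw [hTd] at s1
    refine ⟨S, s1, ?_, s3, ?_⟩
    · rw [leadingCoeff, s1, hTlc] at s2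
      exact s2
    · refine s4.trans ?_
      have h1 : volume (JS (T (φ k))) ≤ ENNReal.ofReal (1 / ((k : ℝ) + 1)) := by
        refine (hTv (φ k)).trans (ENNReal.ofReal_le_ofReal ?_)
        apply one_div_le_one_div_of_le (by positivity)
        have : (k : ℝ) ≤ (φ k : ℝ) := by exact_mod_cast hφ.le_apply
        linarith
      calc volume (JS (T (φ k))) + ENNReal.ofReal (1 / ((k : ℝ) + 1))
          ≤ ENNReal.ofReal (1 / ((k : ℝ) + 1)) + ENNReal.ofReal (1 / ((k : ℝ) + 1)) := by gcongr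
        _ = ENNReal.ofReal (2 * (1 / ((k : ℝ) + 1))) := by
          rw [← ENNReal.ofReal_add (by positivity) (by positivity)]
          congr 1
          ring
  choose S hSd hSl hSc hSv using hSk
  have hSlim : ∀ j : ℕ, Tendsto (fun k => (S k).coeff j) atTop (𝓝 (P.coeff j)) := by
    intro j
    have h1 : Tendsto (fun k => (S k).coeff j - (T (φ k)).coeff j) atTop (𝓝 0) := by
      rw [tendsto_zero_iff_norm_tendsto_zero]
      exact squeeze_zero (fun _ => norm_nonneg _) (fun k => (hSc k j).le) inv_lim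
    have h2 := h1.add (hlimP j)
    rw [zero_add] at h2
    refine h2.congr fun k => ?_
    ring
  -- the hypothesis of QLC
  have hQ1 : ∀ η : ℝ, 0 < η → ∃ S : ℂ[X], S.natDegree = P.natDegree ∧
      S.leadingCoeff = P.leadingCoeff ∧ (∀ j : ℕ, ‖S.coeff j - P.coeff j‖ < η) ∧
      volume {z : ℂ | ¬ Good (ev S) z} ≤ ENNReal.ofReal η := by
    intro η hη
    have hdeg : ∀ k, (sc (l k) (S k)).natDegree = d := by
      intro k
      rw [(hS (l k) (S k) (hl0 k)).1, hSd]
    have hco : ∀ k j, (sc (l k) (S k)).coeff j = l k * (l k)⁻¹ ^ j * (S k).coeff j :=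
      fun k j => (hS (l k) (S k) (hl0 k)).2.1 j
    have hlim1 : ∀ j : ℕ, Tendsto (fun k => (sc (l k) (S k)).coeff j) atTop (𝓝 (P.coeff j)) := by
      intro j
      have h1 := (hllim.mul (hlinv.pow j)).mul (hSlim j)
      rw [one_pow, one_mul, one_mul] at h1
      refine h1.congr fun k => ?_
      rw [hco]
    have e1 := unif (fun k => sc (l k) (S k)) P hdeg hPdeg hlim1 hη
    have e2 : ∀ᶠ k : ℕ in atTop, ‖l k‖ ^ 2 * (2 * (1 / ((k : ℝ) + 1))) < η := by
      have h1 : Tendsto (fun k : ℕ => ‖l k‖ ^ 2 * (2 * (1 / ((k : ℝ) + 1)))) atTop (𝓝 0) := by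
        have h2 := (hllim.norm.pow 2).mul (inv_lim.const_mul 2)
        rw [mul_zero, mul_zero] at h2
        exact h2
      exact h1.eventually (gt_mem_nhds hη)
    obtain ⟨k, hk1, hk2⟩ := (e1.and e2).exists
    refine ⟨sc (l k) (S k), ?_, ?_, hk1, ?_⟩
    · rw [hdeg, hPdeg]
    · rw [leadingCoeff, hdeg, hPlc, hco, hSl]
      have h3 : l k ^ (d - 1) * P.coeff d = (T (φ k)).coeff d := by
        rw [hlpow, hr]
        simp only
        rw [div_mul_cancel₀ _ hPd0]
      rw [← h3]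
      have h4 : (l k)⁻¹ ^ d = (l k)⁻¹ * (l k)⁻¹ ^ (d - 1) := by
        rw [← pow_succ']
        congr 1
        omega
      have h5 : (l k)⁻¹ ^ (d - 1) * l k ^ (d - 1) = 1 := by
        rw [← mul_pow, inv_mul_cancel₀ (hl0 k), one_pow]
      calc l k * (l k)⁻¹ ^ d * (l k ^ (d - 1) * P.coeff d)
          = (l k * (l k)⁻¹) * ((l k)⁻¹ ^ (d - 1) * l k ^ (d - 1)) * P.coeff d := by
            rw [h4]; ring
        _ = P.coeff d := by rw [h5, mul_inv_cancel₀ (hl0 k), one_mul, one_mul]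
    · rw [(hS (l k) (S k) (hl0 k)).2.2.2.2]
      calc ENNReal.ofReal (‖l k‖ ^ 2) * volume {z : ℂ | ¬ Good (ev (S k)) z}
          ≤ ENNReal.ofReal (‖l k‖ ^ 2) * ENNReal.ofReal (2 * (1 / ((k : ℝ) + 1))) := by
            gcongr
            exact hSv k
        _ = ENNReal.ofReal (‖l k‖ ^ 2 * (2 * (1 / ((k : ℝ) + 1)))) :=
            (ENNReal.ofReal_mul (by positivity)).symm
        _ ≤ ENNReal.ofReal η := ENNReal.ofReal_le_ofReal hk2.le
  obtain ⟨H, hH1, hH2, hH3, hH4⟩ := hQL P (by rw [hPdeg]; exact hd) hQ1 (ε / 3) (by positivity)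
  rw [hPdeg] at hH1
  rw [leadingCoeff, hH1, hPlc] at hH2
  -- the polynomials H_k
  have hinv0 : ∀ k, (l k)⁻¹ ≠ 0 := fun k => inv_ne_zero (hl0 k)
  have hdeg : ∀ k, (sc (l k)⁻¹ H).natDegree = d := by
    intro k
    rw [(hS (l k)⁻¹ H (hinv0 k)).1, hH1]
  have hco : ∀ k j, (sc (l k)⁻¹ H).coeff j = (l k)⁻¹ * l k ^ j * H.coeff j := by
    intro k j
    rw [(hS (l k)⁻¹ H (hinv0 k)).2.1 j, inv_inv]
  have hlim2 : ∀ j : ℕ, Tendsto (fun k => (sc (l k)⁻¹ H).coeff j) atTop (𝓝 (H.coeff j)) := by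
    intro j
    have h1 := (hlinv.mul (hllim.pow j)).mul_const (H.coeff j)
    rw [one_pow, one_mul, one_mul] at h1
    refine h1.congr fun k => ?_
    rw [hco]
  have e1 := unif (fun k => sc (l k)⁻¹ H) H hdeg hH1 hlim2 (show 0 < ε / 3 by positivity)
  have e2 := unif (fun k => T (φ k)) P (fun k => hTd _) hPdeg hlimP (show 0 < ε / 3 by positivity)
  obtain ⟨k, hk1, hk2⟩ := (e1.and e2).exists
  apply hTn (φ k)
  refine ⟨sc (l k)⁻¹ H, ?_, ?_, ?_, ?_⟩
  · rw [hdeg, hTd]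
  · rw [leadingCoeff, hdeg, hTlc, hco, hH2]
    have h3 : l k ^ (d - 1) * P.coeff d = (T (φ k)).coeff d := by
      rw [hlpow, hr]
      simp only
      rw [div_mul_cancel₀ _ hPd0]
    rw [← h3]
    have h4 : l k ^ d = l k * l k ^ (d - 1) := by
      rw [← pow_succ']
      congr 1
      omega
    rw [h4, ← mul_assoc, inv_mul_cancel₀ (hl0 k), one_mul]
  · intro j
    have a1 := hk1 j
    have a2 := hk2 j
    have a3 := hH3 j
    have h6 : (sc (l k)⁻¹ H).coeff j - (T (φ k)).coeff j =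
        ((sc (l k)⁻¹ H).coeff j - H.coeff j) + (H.coeff j - P.coeff j) -
          ((T (φ k)).coeff j - P.coeff j) := by ring
    rw [h6]
    calc _ ≤ ‖((sc (l k)⁻¹ H).coeff j - H.coeff j) + (H.coeff j - P.coeff j)‖ +
          ‖(T (φ k)).coeff j - P.coeff j‖ := norm_sub_le _ _
      _ ≤ ‖(sc (l k)⁻¹ H).coeff j - H.coeff j‖ + ‖H.coeff j - P.coeff j‖ +
          ‖(T (φ k)).coeff j - P.coeff j‖ := by gcongr; exact norm_add_le _ _
      _ < ε := by linarith
  · intro c hc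
    have hcc : (l k)⁻¹ * (l k * c) = c := by
      rw [← mul_assoc, inv_mul_cancel₀ (hl0 k), one_mul]
    have h7 := (hS (l k)⁻¹ H (hinv0 k)).2.2.2.1 (l k * c)
    rw [hcc] at h7
    have h8 := hH4 (l k * c) (h7.1 hc)
    have h9 := ((hS (l k)⁻¹ H (hinv0 k)).2.2.1 (l k * c)).2 h8
    rwa [hcc] at h9

end Pool.Agent.H713R5.QJ
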